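import Pool.Agent.MQ94.Tri

/-!
# Module MQ-BATCH (MP_aaabe1_al, helper94): taking out `m` new points

The new point `v_j` (`j : Fin m`) is put into the triples `(b, c, v_j)`, `M j b c` copies. What
remains is a level-`i` array on `V ⊕ Fin m`.

Proof of `batch_step`: transport the decomposition of `lev i 1 (bArcs a M)` on
`(V ⊕ Fin m) ⊕ Fin i` to `V ⊕ Fin (i + m)` (`TriDec.equiv`; e.g. the points of `Fin i` first, then
those of `Fin m`) and add `∑_j TriDec.star (M j extended by 0) v_j` (`TriDec.sum`), which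
contributes `∑_j M j b c` at `(b, c)`, `fo (M j) b` at `(v_j, b)` and `fi (M j) b` at `(b, v_j)`.
-/

set_option autoImplicit false

namespace MQ94

def bArcs {V : Type} [Fintype V] {m : ℕ} (a : V → V → ℕ) (M : Fin m → V → V → ℕ) :
    V ⊕ Fin m → V ⊕ Fin m → ℕ
  | Sum.inl b, Sum.inl c => a b c - ∑ j, M j b c
  | Sum.inl b, Sum.inr j => 1 - fi (M j) b
  | Sum.inr j, Sum.inl b => 1 - fo (M j) b
  | Sum.inr i, Sum.inr j => if i = j then 0 else 1

/-- extension by zero -/
def bExt {V : Type} {i m : ℕ} (M : V → V → ℕ) :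
    (V ⊕ Fin m) ⊕ Fin i → (V ⊕ Fin m) ⊕ Fin i → ℕ
  | Sum.inl (Sum.inl b), Sum.inl (Sum.inl c) => M b c
  | Sum.inl (Sum.inl _), Sum.inl (Sum.inr _) => 0
  | Sum.inl (Sum.inl _), Sum.inr _ => 0
  | Sum.inl (Sum.inr _), _ => 0
  | Sum.inr _, _ => 0

def bEquiv (V : Type) (i m : ℕ) : (V ⊕ Fin m) ⊕ Fin i ≃ V ⊕ Fin (i + m) :=
  (Equiv.sumAssoc V (Fin m) (Fin i)).trans
    (Equiv.sumCongr (Equiv.refl V) ((Equiv.sumComm (Fin m) (Fin i)).trans finSumFinEquiv))

theorem bEquiv_1 {V : Type} {i m : ℕ} (b : V) :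
    bEquiv V i m (Sum.inl (Sum.inl b)) = Sum.inl b := rfl

theorem bEquiv_2 {V : Type} {i m : ℕ} (j : Fin m) :
    bEquiv V i m (Sum.inl (Sum.inr j)) = Sum.inr (Fin.natAdd i j) := rfl

theorem bEquiv_3 {V : Type} {i m : ℕ} (j : Fin i) :
    bEquiv V i m (Sum.inr j) = Sum.inr (Fin.castAdd m j) := rfl

theorem fo_bExt_1 {V : Type} [Fintype V] {i m : ℕ} (M : V → V → ℕ) (b : V) :
    fo (bExt (i := i) (m := m) M) (Sum.inl (Sum.inl b)) = fo M b := by
  unfold fo
  rw [Fintype.sum_sum_type, Fintype.sum_sum_type]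
  simp [bExt]

theorem fo_bExt_2 {V : Type} [Fintype V] {i m : ℕ} (M : V → V → ℕ) (j : Fin m) :
    fo (bExt (i := i) (m := m) M) (Sum.inl (Sum.inr j)) = 0 := by
  unfold fo
  simp [bExt]

theorem fo_bExt_3 {V : Type} [Fintype V] {i m : ℕ} (M : V → V → ℕ) (j : Fin i) :
    fo (bExt (i := i) (m := m) M) (Sum.inr j) = 0 := by
  unfold fo
  simp [bExt]

theorem fi_bExt_1 {V : Type} [Fintype V] {i m : ℕ} (M : V → V → ℕ) (b : V) :
    fi (bExt (i := i) (m := m) M) (Sum.inl (Sum.inl b)) = fi M b := by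
  unfold fi
  rw [Fintype.sum_sum_type, Fintype.sum_sum_type]
  simp [bExt]

theorem fi_bExt_2 {V : Type} [Fintype V] {i m : ℕ} (M : V → V → ℕ) (j : Fin m) :
    fi (bExt (i := i) (m := m) M) (Sum.inl (Sum.inr j)) = 0 := by
  unfold fi
  rw [Fintype.sum_sum_type, Fintype.sum_sum_type]
  simp [bExt]

theorem fi_bExt_3 {V : Type} [Fintype V] {i m : ℕ} (M : V → V → ℕ) (j : Fin i) :
    fi (bExt (i := i) (m := m) M) (Sum.inr j) = 0 := by
  unfold fi
  rw [Fintype.sum_sum_type, Fintype.sum_sum_type]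
  simp [bExt]

theorem batch_step {V : Type} [Fintype V] [DecidableEq V] (i m : ℕ) (a : V → V → ℕ)
    (M : Fin m → V → V → ℕ) (hM : ∀ b c, ∑ j, M j b c ≤ a b c)
    (hrow : ∀ j b, fo (M j) b ≤ 1) (hcol : ∀ j b, fi (M j) b ≤ 1)
    (h : TriDec (lev i (fun _ => 1) (bArcs a M))) : TriDec (lev (i + m) (fun _ => 1) a) := by
  classical
  refine TriDec.equiv (bEquiv V i m) ?_
  have h2 : TriDec (fun p q : (V ⊕ Fin m) ⊕ Fin i => ∑ j : Fin m,
      (bExt (M j) p q + (if p = Sum.inl (Sum.inr j) then fo (bExt (M j)) q else 0)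
        + (if q = Sum.inl (Sum.inr j) then fi (bExt (M j)) p else 0))) :=
    TriDec.sum Finset.univ _ fun j _ => TriDec.star (bExt (M j)) (Sum.inl (Sum.inr j))
  refine (TriDec.add h h2).congr ?_
  rintro ((b | j) | p) ((c | k) | q)
  · have h3 := hM b c
    rw [bEquiv_1, bEquiv_1]
    simp only [lev, bArcs, bExt, reduceCtorEq, Sum.inl.injEq, if_false, add_zero]
    omega
  · have h3 := hcol k b
    rw [bEquiv_1, bEquiv_2]
    simp only [lev, bArcs, bExt, reduceCtorEq, Sum.inl.injEq, Sum.inr.injEq, if_false, add_zero,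
      zero_add, fi_bExt_1, Finset.sum_ite_eq, Finset.mem_univ, if_true]
    omega
  · rw [bEquiv_1, bEquiv_3]
    simp [lev, bExt, fi_bExt_1, fo_bExt_3]
  · have h3 := hrow j c
    rw [bEquiv_1, bEquiv_2]
    simp only [lev, bArcs, bExt, reduceCtorEq, Sum.inl.injEq, Sum.inr.injEq, if_false, add_zero,
      zero_add, fo_bExt_1, Finset.sum_ite_eq, Finset.mem_univ, if_true]
    omega
  · rw [bEquiv_2, bEquiv_2]
    have h4 : (Fin.natAdd i j = Fin.natAdd i k) ↔ j = k := by
      constructor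
      · intro h5
        have := congrArg Fin.val h5
        simp at this
        exact Fin.ext this
      · rintro rfl
        rfl
    simp [lev, bArcs, bExt, fo_bExt_2, fi_bExt_2, h4]
  · rw [bEquiv_2, bEquiv_3]
    have h4 : ¬ (Fin.natAdd i j = Fin.castAdd m q) := by
      intro h5
      have := congrArg Fin.val h5
      simp at this
      omega
    simp [lev, bExt, fo_bExt_3, h4]
  · rw [bEquiv_1, bEquiv_3]
    simp [lev, bExt, fo_bExt_1]
  · rw [bEquiv_2, bEquiv_3]
    have h4 : ¬ (Fin.castAdd m p = Fin.natAdd i k) := by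
      intro h5
      have := congrArg Fin.val h5
      simp at this
      omega
    simp [lev, bExt, fi_bExt_3, h4]
  · rw [bEquiv_3, bEquiv_3]
    have h4 : (Fin.castAdd m p = Fin.castAdd m q) ↔ p = q := by
      constructor
      · intro h5
        have := congrArg Fin.val h5
        simp at this
        exact Fin.ext this
      · rintro rfl
        rfl
    simp [lev, bExt, h4]

end MQ94
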