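import Mathlib

/-!
# Module MQ-SIGN (MP_aaabe1_al, helper94): alternating splitting of even signed multigraphs

An edge is a triple `(u, v, s)`: ends `u, v` (possibly equal) and a sign, `s = false` (mono) or
`s = true` (bi). If an edge is given the value `y = ±1`, it contributes `y` at its first end and
`y` (mono) or `-y` (bi) at its second end. `sval E v` is the sum of the contributions at `v` when
all edges of the multiset `E` have the value `1`.

**signed_split.** If all degrees are even and every set `X` of vertices which no edge leaves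
contains an even number of mono edges, then the edges can be given values `±1` such that the sum at
every vertex is `0`: `E = E₁ + E₂` with `sval E₁ v = sval E₂ v` for all `v`.

Proof, by strong induction on the number of edges.
(0) No edges: trivial.
(1) Reversing: replacing an edge `(u, v, s)` by `(v, u, s)` changes neither hypotheses nor
conclusion (for `s = true` move the edge to the other class: it contributes `(+1, -1)` in one
direction and `(-1, +1)` in the other). So we may choose which end comes first.
(2) If some edge is `(v, v, true)`: remove it (degree drops by 2, contribution 0, number of mono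
edges unchanged).
(3) Otherwise choose a vertex `v` which is an end of some edge.
*Splitting.* For two edges `e = (u, v, s)`, `f = (v, x, s')` replace them by the single edge
`h = (u, x, s + s' + 1)` (signs in `ℤ/2`, `s + s' + 1` is `true` iff `s = s'`). Degrees stay even
(the degree of `v` drops by 2). If the new multigraph has a solution, so has the old one: give `e`
the value `y_e = y_h` and `f` the value `y_f = -(-1)^s y_e`; the contributions at `v` cancel and the
contribution of `f` at `x` is `(-1)^{s'} y_f = (-1)^{s+s'+1} y_h`. The parity of the number of mono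
edges is preserved: `(s+1) + (s'+1) = (s+s'+1) + 1` in `ℤ/2`. Call the pair *bad* if the new
multigraph violates the hypothesis: there is a set `X` closed in the new multigraph with an odd
number of mono edges. If `u, v, x` are all in `X` or all outside `X`, then `X` is closed in the old
one with the same parity: impossible. Since `h = (u, x)` does not leave `X`, either `u, x ∈ X`,
`v ∉ X`, or the complement has this property (the complement of `X` is closed too and contains an odd
number of mono edges because the whole vertex set contains an even number). So, for a bad pair,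
there is `X` with `u, x ∈ X`, `v ∉ X` such that `e` and `f` are the only edges of the old multigraph
leaving `X` (as a multiset: exactly these two). In particular `u ≠ v`, `x ≠ v`.
(4) Case: there is a mono loop `e = (v, v, false)`. If `e` is the only edge with an end `v`, then
`{v}` is closed with one mono edge, a contradiction. Otherwise take another edge `f = (v, x, s')`
and split; the pair is not bad by (3) (`u = v`).
(5) Case: no loops at `v`. The degree of `v` is even and positive, so there are two edges
`e = (u, v, s)`, `f = (v, x, s')` at `v`.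
 (a) If they are the only edges at `v` and the pair is bad with `X` as in (3): then `X ∪ {v}` is
closed in the old multigraph and contains an odd number of mono edges (`X` in the new multigraph
contains `h`; parity is preserved), a contradiction. So the pair is not bad; split.
 (b) Otherwise there is a third edge `k = (v, z, s'')` at `v`. Suppose that both `(e, f)` and
`(e, k)` are bad, with sets `X` and `Y` (not containing `v`): exactly `e, f` leave `X`, exactly
`e, k` leave `Y`. Then `u ∈ X ∩ Y`. An edge leaving `X ∩ Y` leaves `X` or `Y`, so it is one of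
`e, f, k`. `f` leaves `X ∩ Y` only if `x ∈ Y`, but then `f` leaves `Y` (as `v ∉ Y`), which is false
(`f` is not one of the two edges `e, k`; as a multiset: only two edges leave `Y`, `e` and `k`). So
`x ∉ Y`, similarly `z ∉ X`. Hence exactly one edge, `e`, leaves `X ∩ Y`. But the number of edges
leaving a set is congruent to the sum of its degrees modulo 2, hence even: a contradiction. So one of
the two pairs is not bad; split it.
-/

set_option autoImplicit false

namespace MQ94

/-- contribution of the edge `e` with value `1` at the vertex `v` -/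
def econ {V : Type} [DecidableEq V] (e : V × V × Bool) (v : V) : ℤ :=
  (if e.1 = v then 1 else 0) + (if e.2.1 = v then (if e.2.2 then -1 else 1) else 0)

def sval {V : Type} [DecidableEq V] (E : Multiset (V × V × Bool)) (v : V) : ℤ :=
  (E.map fun e => econ e v).sum

section aux

variable {V : Type} [DecidableEq V]

/-- degree -/
def dg (E : Multiset (V × V × Bool)) (w : V) : ℕ :=
  E.countP (fun e => e.1 = w) + E.countP (fun e => e.2.1 = w)

/-- no edge leaves `X` -/
def Cl (E : Multiset (V × V × Bool)) (X : Finset V) : Prop := ∀ e ∈ E, (e.1 ∈ X ↔ e.2.1 ∈ X)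

/-- number of mono edges in `X` -/
def mn (E : Multiset (V × V × Bool)) (X : Finset V) : ℕ :=
  E.countP fun e => e.1 ∈ X ∧ e.2.2 = false

/-- the hypotheses -/
structure Hyp (E : Multiset (V × V × Bool)) : Prop where
  deg : ∀ v, Even (dg E v)
  cl : ∀ X : Finset V, Cl E X → Even (mn E X)

/-- the conclusion -/
def Sol (E : Multiset (V × V × Bool)) : Prop :=
  ∃ E₁ E₂ : Multiset (V × V × Bool), E₁ + E₂ = E ∧ ∀ v, sval E₁ v = sval E₂ v

lemma dg_cons (a b : V) (s : Bool) (E : Multiset (V × V × Bool)) (w : V) :
    dg ((a, b, s) ::ₘ E) w = dg E w + ((if a = w then 1 else 0) + (if b = w then 1 else 0)) := by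
  unfold dg
  rw [Multiset.countP_cons, Multiset.countP_cons]
  ring

lemma Cl_cons (a b : V) (s : Bool) (E : Multiset (V × V × Bool)) (X : Finset V) :
    Cl ((a, b, s) ::ₘ E) X ↔ (a ∈ X ↔ b ∈ X) ∧ Cl E X := by
  unfold Cl
  simp only [Multiset.mem_cons, forall_eq_or_imp]

lemma mn_cons (a b : V) (s : Bool) (E : Multiset (V × V × Bool)) (X : Finset V) :
    mn ((a, b, s) ::ₘ E) X = mn E X + (if a ∈ X ∧ s = false then 1 else 0) := by
  unfold mn
  rw [Multiset.countP_cons]

lemma sval_cons (a b : V) (s : Bool) (E : Multiset (V × V × Bool)) (w : V) :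
    sval ((a, b, s) ::ₘ E) w = econ (a, b, s) w + sval E w := by
  unfold sval
  rw [Multiset.map_cons, Multiset.sum_cons]

lemma Sol.symm' {E F₁ F₂ : Multiset (V × V × Bool)} (h : F₁ + F₂ = E)
    (h2 : ∀ v, sval F₁ v = sval F₂ v) : F₂ + F₁ = E ∧ ∀ v, sval F₂ v = sval F₁ v :=
  ⟨by rw [add_comm]; exact h, fun v => (h2 v).symm⟩

lemma Hyp.rev {a b : V} {s : Bool} {E : Multiset (V × V × Bool)} (h : Hyp ((a, b, s) ::ₘ E)) :
    Hyp ((b, a, s) ::ₘ E) := by
  constructor
  · intro w
    have := h.deg w
    rw [dg_cons] at this ⊢
    rwa [add_comm (if b = w then 1 else 0)]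
  · intro X hX
    rw [Cl_cons] at hX
    have := h.cl X ((Cl_cons _ _ _ _ _).2 ⟨hX.1.symm, hX.2⟩)
    rw [mn_cons] at this ⊢
    simpa only [hX.1] using this

lemma sol_rev_aux {a b : V} {s : Bool} {E F₁ F₂ : Multiset (V × V × Bool)}
    (h : F₁ + F₂ = (b, a, s) ::ₘ E) (h2 : ∀ v, sval F₁ v = sval F₂ v) (hm : (b, a, s) ∈ F₁) :
    Sol ((a, b, s) ::ₘ E) := by
  obtain ⟨F, rfl⟩ := Multiset.exists_cons_of_mem hm
  have hE : F + F₂ = E := by
    rw [Multiset.cons_add] at h
    exact (Multiset.cons_inj_right _).1 h
  cases s
  · refine ⟨(a, b, false) ::ₘ F, F₂, by rw [Multiset.cons_add, hE], fun v => ?_⟩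
    have := h2 v
    rw [sval_cons] at this ⊢
    rw [← this]
    simp only [econ, Bool.false_eq_true, if_false]
    ring
  · refine ⟨F, (a, b, true) ::ₘ F₂, by rw [Multiset.add_cons, hE], fun v => ?_⟩
    have := h2 v
    rw [sval_cons] at this ⊢
    simp only [econ, if_true] at this ⊢
    rw [← this]
    split_ifs <;> ring

lemma Sol.rev {a b : V} {s : Bool} {E : Multiset (V × V × Bool)} (h : Sol ((b, a, s) ::ₘ E)) :
    Sol ((a, b, s) ::ₘ E) := by
  obtain ⟨F₁, F₂, h1, h2⟩ := h
  have hm : (b, a, s) ∈ F₁ + F₂ := by rw [h1]; exact Multiset.mem_cons_self _ _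
  rcases Multiset.mem_add.1 hm with hm | hm
  · exact sol_rev_aux h1 h2 hm
  · obtain ⟨h3, h4⟩ := Sol.symm' h1 h2
    exact sol_rev_aux h3 h4 hm

lemma sol_split_aux {u v x : V} {s s' : Bool} {E F₁ F₂ : Multiset (V × V × Bool)}
    (h : F₁ + F₂ = (u, x, (s == s')) ::ₘ E) (h2 : ∀ v, sval F₁ v = sval F₂ v)
    (hm : (u, x, (s == s')) ∈ F₁) :
    Sol ((u, v, s) ::ₘ (v, x, s') ::ₘ E) := by
  obtain ⟨F, rfl⟩ := Multiset.exists_cons_of_mem hm
  have hE : F + F₂ = E := by
    rw [Multiset.cons_add] at h
    exact (Multiset.cons_inj_right _).1 h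
  cases s
  · refine ⟨(u, v, false) ::ₘ F, (v, x, s') ::ₘ F₂, by
      rw [Multiset.cons_add, Multiset.add_cons, hE], fun w => ?_⟩
    have := h2 w
    rw [sval_cons] at this ⊢
    rw [sval_cons]
    cases s'
    · simp only [econ, Bool.false_eq_true, if_false, beq_self_eq_true, if_true] at this ⊢
      rw [← this]
      split_ifs <;> ring
    · simp only [econ, Bool.false_eq_true, if_false, if_true, Bool.false_beq,
        Bool.not_true] at this ⊢
      rw [← this]
      split_ifs <;> ring
  · refine ⟨(u, v, true) ::ₘ (v, x, s') ::ₘ F, F₂, by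
      rw [Multiset.cons_add, Multiset.cons_add, hE], fun w => ?_⟩
    have := h2 w
    rw [sval_cons] at this
    rw [sval_cons, sval_cons, ← this]
    cases s'
    · simp only [econ, Bool.false_eq_true, if_false, if_true, Bool.true_beq] at this ⊢
      split_ifs <;> ring
    · simp only [econ, if_true, beq_self_eq_true] at this ⊢
      split_ifs <;> ring

lemma Sol.split {u v x : V} {s s' : Bool} {E : Multiset (V × V × Bool)}
    (h : Sol ((u, x, (s == s')) ::ₘ E)) : Sol ((u, v, s) ::ₘ (v, x, s') ::ₘ E) := by
  obtain ⟨F₁, F₂, h1, h2⟩ := h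
  have hm : (u, x, (s == s')) ∈ F₁ + F₂ := by rw [h1]; exact Multiset.mem_cons_self _ _
  rcases Multiset.mem_add.1 hm with hm | hm
  · exact sol_split_aux h1 h2 hm
  · obtain ⟨h3, h4⟩ := Sol.symm' h1 h2
    exact sol_split_aux h3 h4 hm

lemma mono_parity (s s' : Bool) (p : Prop) [Decidable p] (n : ℕ) :
    (Even (n + (if p ∧ s' = false then 1 else 0) + (if p ∧ s = false then 1 else 0)) ↔
      Even (n + (if p ∧ (s == s') = false then 1 else 0))) := by
  cases s <;> cases s' <;> by_cases hp : p <;> simp [hp, Nat.even_add_one, parity_simps]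

/-- a pair of edges can be split unless there is an obstruction -/
lemma Hyp.split_or [Fintype V] {u v x : V} {s s' : Bool} {E : Multiset (V × V × Bool)}
    (h : Hyp ((u, v, s) ::ₘ (v, x, s') ::ₘ E)) :
    Hyp ((u, x, (s == s')) ::ₘ E) ∨ ∃ X : Finset V, u ∈ X ∧ x ∈ X ∧ v ∉ X ∧ Cl E X ∧
      ¬ Even (mn ((u, x, (s == s')) ::ₘ E) X) := by
  by_contra hcon
  push Not at hcon
  obtain ⟨h1, h2⟩ := hcon
  apply h1
  constructor
  · intro w
    have := h.deg w
    rw [dg_cons, dg_cons] at this
    rw [dg_cons]
    by_cases hv : v = w
    · simp only [hv, if_true] at this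
      rw [show dg E w + (1 + if x = w then 1 else 0) + ((if u = w then 1 else 0) + 1) =
        dg E w + ((if u = w then 1 else 0) + if x = w then 1 else 0) + 2 by ring] at this
      simpa [parity_simps] using this
    · simp only [hv, if_false, zero_add, add_zero] at this
      rwa [add_assoc, add_comm (if x = w then 1 else 0)] at this
  · intro X hX
    rw [Cl_cons] at hX
    by_cases hu : u ∈ X
    · have hx : x ∈ X := hX.1.1 hu
      by_cases hv : v ∈ X
      · have h3 := h.cl X (by
          rw [Cl_cons, Cl_cons]
          exact ⟨by tauto, by tauto, hX.2⟩)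
        rw [mn_cons, mn_cons] at h3
        rw [mn_cons]
        simp only [hu, hv] at h3 ⊢
        exact (mono_parity s s' True _).1 h3
      · exact h2 X hu hx hv hX.2
    · have hx : x ∉ X := fun hx => hu (hX.1.2 hx)
      by_cases hv : v ∈ X
      · -- complement
        have hc := h2 Xᶜ (Finset.mem_compl.2 hu) (Finset.mem_compl.2 hx)
          (fun h' => (Finset.mem_compl.1 h') hv) (by
            intro e he
            rw [Finset.mem_compl, Finset.mem_compl]
            exact not_congr (hX.2 e he))
        have htot : ∀ F : Multiset (V × V × Bool), mn F X + mn F Xᶜ = mn F Finset.univ := by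
          intro F
          induction F using Multiset.induction_on with
          | empty => rfl
          | cons e F ih =>
            obtain ⟨a, b, c⟩ := e
            rw [mn_cons, mn_cons, mn_cons, ← ih]
            by_cases ha : a ∈ X
            · simp [ha]; ring
            · simp [ha]; ring
        have hall := h.cl Finset.univ (fun e _ => by simp)
        rw [mn_cons, mn_cons] at hall
        simp only [Finset.mem_univ] at hall
        have h3 := (mono_parity s s' True _).1 hall
        have h4 : mn ((u, x, (s == s')) ::ₘ E) Finset.univ =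
            mn E Finset.univ + (if True ∧ (s == s') = false then 1 else 0) := by
          rw [mn_cons]
          simp only [Finset.mem_univ]
        rw [← h4, ← htot] at h3
        exact (Nat.even_add.1 h3).2 hc
      · have h3 := h.cl X (by
          rw [Cl_cons, Cl_cons]
          exact ⟨by tauto, by tauto, hX.2⟩)
        rw [mn_cons, mn_cons] at h3
        rw [mn_cons]
        simp only [hu, hv, false_and, if_false, add_zero] at h3 ⊢
        exact h3

lemma sum_dg (E : Multiset (V × V × Bool)) (Z : Finset V) :
    ∑ w ∈ Z, dg E w = E.countP (fun e => e.1 ∈ Z) + E.countP (fun e => e.2.1 ∈ Z) := by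
  induction E using Multiset.induction_on with
  | empty => simp [dg]
  | cons e F ih =>
    obtain ⟨a, b, c⟩ := e
    simp only [dg_cons, Finset.sum_add_distrib, ih, Finset.sum_ite_eq, Multiset.countP_cons]
    ring

lemma even_leaving {E : Multiset (V × V × Bool)} (h : ∀ v, Even (dg E v)) (Z : Finset V) :
    Even (E.countP (fun e => e.1 ∈ Z) + E.countP (fun e => e.2.1 ∈ Z)) := by
  rw [← sum_dg]
  exact Finset.even_sum _ fun w _ => h w

lemma Cl_countP {E : Multiset (V × V × Bool)} {Z : Finset V} (h : Cl E Z) :
    E.countP (fun e => e.1 ∈ Z) = E.countP (fun e => e.2.1 ∈ Z) :=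
  Multiset.countP_congr rfl fun e he => by simpa using h e he

lemma exists_edge {E : Multiset (V × V × Bool)} {w : V} (h : dg E w ≠ 0) :
    ∃ (z : V) (s : Bool) (F : Multiset (V × V × Bool)),
      E = (w, z, s) ::ₘ F ∨ E = (z, w, s) ::ₘ F := by
  unfold dg at h
  by_cases h1 : E.countP (fun e => e.1 = w) = 0
  · have h2 : 0 < E.countP (fun e => e.2.1 = w) := by omega
    obtain ⟨⟨a, b, s⟩, he, hw⟩ := Multiset.countP_pos.1 h2
    obtain ⟨F, hF⟩ := Multiset.exists_cons_of_mem he
    simp only at hw
    subst hw
    exact ⟨a, s, F, Or.inr hF⟩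
  · obtain ⟨⟨a, b, s⟩, he, hw⟩ := Multiset.countP_pos.1 (Nat.pos_of_ne_zero h1)
    obtain ⟨F, hF⟩ := Multiset.exists_cons_of_mem he
    simp only at hw
    subst hw
    exact ⟨b, s, F, Or.inl hF⟩

lemma swap_cons {α : Type*} (a b : α) (E : Multiset α) : a ::ₘ b ::ₘ E = b ::ₘ a ::ₘ E :=
  Multiset.cons_swap a b E

/-- it is enough to treat edges oriented away from `v` in second position -/
lemma orient {u v : V} {s : Bool} {E : Multiset (V × V × Bool)} (hd : dg E v ≠ 0)
    (hH : Hyp ((u, v, s) ::ₘ E))
    (hk : ∀ (x : V) (s' : Bool) (F : Multiset (V × V × Bool)), F.card + 1 = E.card →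
      (E = (v, x, s') ::ₘ F ∨ E = (x, v, s') ::ₘ F) →
      Hyp ((u, v, s) ::ₘ (v, x, s') ::ₘ F) → Sol ((u, v, s) ::ₘ (v, x, s') ::ₘ F)) :
    Sol ((u, v, s) ::ₘ E) := by
  obtain ⟨x, s', F, hF⟩ := exists_edge hd
  rcases hF with hF | hF
  · have := hk x s' F (by rw [hF, Multiset.card_cons]) (Or.inl hF) (by rw [← hF]; exact hH)
    rwa [← hF] at this
  · have h1 : Hyp ((u, v, s) ::ₘ (v, x, s') ::ₘ F) := by
      rw [hF, swap_cons] at hH
      rw [swap_cons]
      exact hH.rev
    have := hk x s' F (by rw [hF, Multiset.card_cons]) (Or.inr hF) h1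
    rw [hF, swap_cons]
    rw [swap_cons] at this
    exact this.rev

theorem sol_of_hyp [Fintype V] (n : ℕ) : ∀ E : Multiset (V × V × Bool), E.card = n → Hyp E →
    Sol E := by
  induction n using Nat.strong_induction_on with
  | _ n ih =>
    intro E hcard hE
    rcases Multiset.empty_or_exists_mem E with rfl | ⟨⟨u, v, s⟩, he⟩
    · exact ⟨0, 0, rfl, fun _ => rfl⟩
    obtain ⟨E1, rfl⟩ := Multiset.exists_cons_of_mem he
    rw [Multiset.card_cons] at hcard
    by_cases huv : u = v
    · subst huv
      cases s
      · -- mono loop
        have hd : dg E1 u ≠ 0 := by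
          intro h0
          have h1 := hE.cl {u} (by
            rw [Cl_cons]
            refine ⟨Iff.rfl, fun e he => ?_⟩
            unfold dg at h0
            have h2 : E1.countP (fun e => e.1 = u) = 0 := by omega
            have h3 : E1.countP (fun e => e.2.1 = u) = 0 := by omega
            rw [Multiset.countP_eq_zero] at h2 h3
            simp [h2 e he, h3 e he])
          rw [mn_cons] at h1
          have h2 : mn E1 {u} = 0 := by
            unfold mn
            rw [Multiset.countP_eq_zero]
            intro e he h3
            unfold dg at h0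
            have h4 : E1.countP (fun e => e.1 = u) = 0 := by omega
            rw [Multiset.countP_eq_zero] at h4
            exact h4 e he (by simpa using h3.1)
          rw [h2] at h1
          simp at h1
        refine orient hd hE fun x s' F hc _ hH => ?_
        refine Sol.split ?_
        rcases hH.split_or with h | ⟨X, hu, -, hv, -⟩
        · exact ih (F.card + 1) (by omega) _ (by rw [Multiset.card_cons]) h
        · exact absurd hu hv
      · -- bi loop
        have h1 : Hyp E1 := by
          constructor
          · intro w
            have := hE.deg w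
            rw [dg_cons] at this
            by_cases hw : u = w
            · simp only [hw, if_true] at this
              simpa [parity_simps] using this
            · simpa [hw] using this
          · intro X hX
            have := hE.cl X ((Cl_cons _ _ _ _ _).2 ⟨Iff.rfl, hX⟩)
            rw [mn_cons] at this
            simpa using this
        obtain ⟨F₁, F₂, h2, h3⟩ := ih _ (by omega) E1 rfl h1
        refine ⟨(u, u, true) ::ₘ F₁, F₂, by rw [Multiset.cons_add, h2], fun w => ?_⟩
        rw [sval_cons, h3 w]
        simp only [econ, if_true]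
        split_ifs <;> ring
    · -- `u ≠ v`
      have hodd : ¬ Even (dg E1 v) := by
        have := hE.deg v
        rw [dg_cons] at this
        simp only [huv, if_false, if_true, zero_add] at this
        rwa [Nat.even_add_one] at this
      have hd : dg E1 v ≠ 0 := by
        intro h0
        rw [h0] at hodd
        exact hodd (by norm_num)
      refine orient hd hE fun x s' F hc _ hH => ?_
      rcases hH.split_or with h | ⟨X, huX, hxX, hvX, hclX, hnX⟩
      · exact Sol.split (ih (F.card + 1) (by omega) _ (by rw [Multiset.card_cons]) h)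
      have hxv : x ≠ v := fun h => hvX (h ▸ hxX)
      have hdF : dg F v ≠ 0 := by
        intro h0
        unfold dg at h0
        have h2 : F.countP (fun e => e.1 = v) = 0 := by omega
        have h3 : F.countP (fun e => e.2.1 = v) = 0 := by omega
        rw [Multiset.countP_eq_zero] at h2 h3
        have h4 := hH.cl (insert v X) (by
          rw [Cl_cons, Cl_cons]
          refine ⟨by simp [huX], by simp [hxX], fun e he => ?_⟩
          simp only [Finset.mem_insert, h2 e he, h3 e he, false_or]
          exact hclX e he)
        rw [mn_cons, mn_cons] at h4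
        have h5 : mn F (insert v X) = mn F X := by
          unfold mn
          refine Multiset.countP_congr rfl fun e he => ?_
          simp [h2 e he]
        rw [h5] at h4
        simp only [Finset.mem_insert, huX, or_true, true_or] at h4
        rw [mn_cons] at hnX
        simp only [huX] at hnX
        exact hnX ((mono_parity s s' True _).1 h4)
      -- a third edge
      have hH' : Hyp ((v, x, s') ::ₘ (u, v, s) ::ₘ F) := by rw [swap_cons]; exact hH
      have key : ∀ (z : V) (s'' : Bool) (G : Multiset (V × V × Bool)), G.card + 1 = F.card →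
          (∀ Z : Finset V, Cl F Z → Cl G Z) →
          (v ∉ X → z ∉ X) →
          Hyp ((u, v, s) ::ₘ (v, x, s') ::ₘ (v, z, s'') ::ₘ G) →
          Sol ((u, v, s) ::ₘ (v, x, s') ::ₘ (v, z, s'') ::ₘ G) := by
        intro z s'' G hcG hclG hzX hH3
        have hH4 : Hyp ((u, v, s) ::ₘ (v, z, s'') ::ₘ (v, x, s') ::ₘ G) := by
          rw [swap_cons (v, z, s'')]
          exact hH3
        rw [swap_cons (v, x, s')]
        refine Sol.split ?_
        rcases hH4.split_or with h | ⟨Y, huY, hzY, hvY, hclY, -⟩
        · exact ih (G.card + 1 + 1) (by omega) _ (by rw [Multiset.card_cons, Multiset.card_cons]) h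
        exfalso
        rw [Cl_cons] at hclY
        have hxY : x ∉ Y := fun h => hvY (hclY.1.2 h)
        have hzX' : z ∉ X := hzX hvX
        have hclG' : Cl G (X ∩ Y) := by
          intro e he
          rw [Finset.mem_inter, Finset.mem_inter]
          exact and_congr (hclG X hclX e he) (hclY.2 e he)
        have h6 := even_leaving hH3.deg (X ∩ Y)
        simp only [Multiset.countP_cons, Finset.mem_inter, huX, huY, hvX, hxY, hzX', and_true,
          false_and, and_false, if_true, if_false, add_zero] at h6
        have h7 := Cl_countP hclG'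
        simp only [Finset.mem_inter] at h7
        rw [h7] at h6
        simp only [parity_simps] at h6
        tauto
      obtain ⟨z, s'', G, hG⟩ := exists_edge hdF
      rcases hG with rfl | rfl
      · refine key z s'' G (by rw [Multiset.card_cons]) (fun Z hZ => ((Cl_cons _ _ _ _ _).1 hZ).2)
          (fun hv hz => hv (((Cl_cons _ _ _ _ _).1 hclX).1.2 hz)) hH
      · have e1 : (u, v, s) ::ₘ (v, x, s') ::ₘ (v, z, s'') ::ₘ G =
            (v, z, s'') ::ₘ (u, v, s) ::ₘ (v, x, s') ::ₘ G := by
          rw [swap_cons (v, x, s'), swap_cons (u, v, s)]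
        have e2 : (u, v, s) ::ₘ (v, x, s') ::ₘ (z, v, s'') ::ₘ G =
            (z, v, s'') ::ₘ (u, v, s) ::ₘ (v, x, s') ::ₘ G := by
          rw [swap_cons (v, x, s'), swap_cons (u, v, s)]
        have h8 : Hyp ((u, v, s) ::ₘ (v, x, s') ::ₘ (v, z, s'') ::ₘ G) := by
          rw [e1]
          rw [e2] at hH
          exact hH.rev
        have h9 := key z s'' G (by rw [Multiset.card_cons])
          (fun Z hZ => ((Cl_cons _ _ _ _ _).1 hZ).2)
          (fun hv hz => hv (((Cl_cons _ _ _ _ _).1 hclX).1.1 hz)) h8
        rw [e2]
        rw [e1] at h9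
        exact h9.rev

end aux

theorem signed_split {V : Type} [Fintype V] [DecidableEq V] (E : Multiset (V × V × Bool))
    (hdeg : ∀ v, Even (E.countP (fun e => e.1 = v) + E.countP (fun e => e.2.1 = v)))
    (hcl : ∀ X : Finset V, (∀ e ∈ E, (e.1 ∈ X ↔ e.2.1 ∈ X)) →
      Even (E.countP fun e => e.1 ∈ X ∧ e.2.2 = false)) :
    ∃ E₁ E₂ : Multiset (V × V × Bool), E₁ + E₂ = E ∧ ∀ v, sval E₁ v = sval E₂ v :=
  sol_of_hyp E.card E rfl ⟨hdeg, hcl⟩

end MQ94
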