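import Pool.Agent.MQ94.Defs
import Pool.Agent.MQ94.Sign

/-!
# Module MQ-BIS (MP_aaabe1_al, helper94): halving a level

From `signed_split` (Sign.lean). Vertex set `V × Bool`, `(b, false) = b⁺`, `(b, true) = b⁻`; the
multiset `E` consists of `a b c` copies of the mono edge `(b⁺, c⁻, false)` and `δ b` copies of the
bi edge `(b⁺, b⁻, true)`. The degree of `b⁺` is `∑_c a b c + δ b = 2 m b`, that of `c⁻` is
`∑_b a b c + δ c = 2 m c`. A closed set `X` corresponds to a closed pair
`P = {b | b⁺ ∈ X}`, `Q = {b | b⁻ ∈ X}`; the number of mono edges in it is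
`∑_{b ∈ P} (2 m b - δ b)`, which is even by `hev`. Let `E = E₁ + E₂` be the splitting,
`F b c` = number of copies of `(b⁺, c⁻, false)` in `E₁`, `T b` = number of copies of
`(b⁺, b⁻, true)` in `E₁`, `H b = δ b - T b`. Vertex `b⁺`:
`fo F b + T b = fo (a - F) b + (δ b - T b)`, so `fo F b + T b = m b`. Vertex `c⁻`:
`fi F c - T c = fi (a - F) c - (δ c - T c)`, so `fi F c + H c = m c`.
(Building `E`: `∑ p : V × V, Multiset.replicate (a p.1 p.2) ((p.1, false), (p.2, true), false) +
∑ b, Multiset.replicate (δ b) ((b, false), (b, true), true)`.)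
-/

set_option autoImplicit false

namespace MQ94

namespace BisAux

variable {V : Type} [Fintype V] [DecidableEq V]

/-- The multigraph. -/
def Phi (F : V → V → ℕ) (T : V → ℕ) : Multiset ((V × Bool) × (V × Bool) × Bool) :=
  (∑ p : V × V, Multiset.replicate (F p.1 p.2) ((p.1, false), (p.2, true), false)) +
    ∑ b : V, Multiset.replicate (T b) ((b, false), (b, true), true)

theorem count_Phi (F : V → V → ℕ) (T : V → ℕ) (b c : V) (x y s : Bool) :
    Multiset.count ((b, x), (c, y), s) (Phi F T) =
      if x = false ∧ y = true then (if s = false then F b c else if b = c then T b else 0) else 0 := by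
  unfold Phi
  rw [Multiset.count_add, Multiset.count_sum', Multiset.count_sum']
  simp only [Multiset.count_replicate, Prod.mk.injEq]
  rw [Fintype.sum_prod_type]
  cases x <;> cases y <;> cases s <;> simp [ite_and]

theorem sval_Phi (F : V → V → ℕ) (T : V → ℕ) (v : V × Bool) :
    sval (Phi F T) v = ∑ b, ∑ c, (F b c : ℤ) * econ ((b, false), (c, true), false) v +
      ∑ b, (T b : ℤ) * econ ((b, false), (b, true), true) v := by
  have h1 : ∀ A B : Multiset ((V × Bool) × (V × Bool) × Bool), sval (A + B) v = sval A v + sval B v := by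
    intro A B
    unfold sval
    rw [Multiset.map_add, Multiset.sum_add]
  let φ : Multiset ((V × Bool) × (V × Bool) × Bool) →+ ℤ :=
    { toFun := fun A => sval A v, map_zero' := by simp [sval], map_add' := h1 }
  have h2 : ∀ n e, sval (Multiset.replicate n e) v = (n : ℤ) * econ e v := by
    intro n e
    unfold sval
    rw [Multiset.map_replicate, Multiset.sum_replicate]
    simp
  have h3 : sval (Phi F T) v = φ (Phi F T) := rfl
  rw [h3]
  unfold Phi
  rw [map_add, map_sum, map_sum, Fintype.sum_prod_type]
  have h4 : ∀ n e, φ (Multiset.replicate n e) = (n : ℤ) * econ e v := h2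
  simp only [h4]

theorem sval_false (F : V → V → ℕ) (T : V → ℕ) (b : V) :
    sval (Phi F T) (b, false) = (fo F b : ℤ) + T b := by
  rw [sval_Phi]
  simp [econ, fo]

theorem sval_true (F : V → V → ℕ) (T : V → ℕ) (c : V) :
    sval (Phi F T) (c, true) = (fi F c : ℤ) - T c := by
  rw [sval_Phi]
  simp [econ, fi, sub_eq_add_neg]

theorem countP_rep {α : Type} (p : α → Prop) [DecidablePred p] (n : ℕ) (x : α) :
    Multiset.countP p (Multiset.replicate n x) = if p x then n else 0 := by
  induction n with
  | zero => simp
  | succ n ih =>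
    rw [Multiset.replicate_succ]
    by_cases h : p x
    · rw [Multiset.countP_cons_of_pos _ h, ih]
      simp [h]
    · rw [Multiset.countP_cons_of_neg _ h, ih]
      simp [h]

theorem countP_Phi (F : V → V → ℕ) (T : V → ℕ) (p : (V × Bool) × (V × Bool) × Bool → Prop)
    [DecidablePred p] :
    Multiset.countP p (Phi F T) =
      ∑ b, ∑ c, (if p ((b, false), (c, true), false) then F b c else 0) +
      ∑ b, (if p ((b, false), (b, true), true) then T b else 0) := by
  have h3 : Multiset.countP p (Phi F T) = Multiset.countPAddMonoidHom p (Phi F T) := rfl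
  rw [h3]
  unfold Phi
  rw [map_add, map_sum, map_sum, Fintype.sum_prod_type]
  simp only [Multiset.coe_countPAddMonoidHom, countP_rep]

theorem eq_Phi {E : Multiset ((V × Bool) × (V × Bool) × Bool)} {a : V → V → ℕ} {δ : V → ℕ}
    (h : E ≤ Phi a δ) :
    E = Phi (fun b c => E.count ((b, false), (c, true), false))
      (fun b => E.count ((b, false), (b, true), true)) := by
  ext ⟨⟨b, x⟩, ⟨c, y⟩, s⟩
  rw [count_Phi]
  have h1 := Multiset.le_iff_count.1 h ((b, x), (c, y), s)
  rw [count_Phi] at h1
  cases x <;> cases y <;> cases s <;> simp at h1 ⊢ <;> try exact h1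
  by_cases hbc : b = c
  · subst hbc; simp
  · simp [hbc] at h1 ⊢
    exact h1

end BisAux

open BisAux

theorem bisect {V : Type} [Fintype V] [DecidableEq V] (a : V → V → ℕ) (δ m : V → ℕ)
    (hrow : ∀ b, fo a b + δ b = 2 * m b) (hcol : ∀ c, fi a c + δ c = 2 * m c)
    (hev : ∀ P Q : Finset V, (∀ b c, a b c ≠ 0 → (b ∈ P ↔ c ∈ Q)) →
      (∀ b, δ b ≠ 0 → (b ∈ P ↔ b ∈ Q)) → Even (∑ b ∈ P, δ b)) :
    ∃ (F : V → V → ℕ) (T H : V → ℕ), (∀ b c, F b c ≤ a b c) ∧ (∀ b, T b + H b = δ b) ∧
      (∀ b, fo F b + T b = m b) ∧ (∀ c, fi F c + H c = m c) := by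
  obtain ⟨E₁, E₂, hE, hs⟩ := signed_split (Phi a δ)
    (by
      rintro ⟨b, x⟩
      rw [countP_Phi, countP_Phi]
      cases x
      · simp only [Prod.mk.injEq, and_true, Bool.true_eq_false, and_false, if_false,
          Finset.sum_const_zero, add_zero]
        have h1 : ∑ b', ∑ c, (if b' = b then a b' c else 0) = fo a b := by
          rw [Finset.sum_eq_single b]
          · simp [fo]
          · intro b' _ hb'
            simp [hb']
          · simp
        rw [h1, Finset.sum_ite_eq' Finset.univ b]
        simp only [Finset.mem_univ, if_true]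
        rw [hrow b]
        exact even_two_mul _
      · simp only [Prod.mk.injEq, and_true, Bool.false_eq_true, and_false, if_false,
          Finset.sum_const_zero, zero_add]
        have h1 : ∑ b', ∑ c, (if c = b then a b' c else 0) = fi a b := by
          simp [fi, Finset.sum_ite_eq']
        rw [h1, Finset.sum_ite_eq' Finset.univ b]
        simp only [Finset.mem_univ, if_true]
        rw [hcol b]
        exact even_two_mul _)
    (by
      intro X hX
      have hmem : ∀ e : (V × Bool) × (V × Bool) × Bool, Multiset.count e (Phi a δ) ≠ 0 →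
          (e.1 ∈ X ↔ e.2.1 ∈ X) := fun e he => hX e (Multiset.count_ne_zero.1 he)
      set P : Finset V := Finset.univ.filter (fun b => (b, false) ∈ X) with hP
      set Q : Finset V := Finset.univ.filter (fun b => (b, true) ∈ X) with hQ
      have h1 := hev P Q
        (by
          intro b c hbc
          have := hmem ((b, false), (c, true), false) (by rw [count_Phi]; simpa using hbc)
          simpa [hP, hQ] using this)
        (by
          intro b hb
          have := hmem ((b, false), (b, true), true) (by rw [count_Phi]; simpa using hb)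
          simpa [hP, hQ] using this)
      have h2 : Multiset.countP (fun e => e.1 ∈ X ∧ e.2.2 = false) (Phi a δ) = ∑ b ∈ P, fo a b := by
        rw [countP_Phi, hP, Finset.sum_filter]
        simp only [and_true, Bool.true_eq_false, and_false, if_false, Finset.sum_const_zero,
          add_zero]
        apply Finset.sum_congr rfl
        intro b _
        by_cases hb : (b, false) ∈ X
        · simp [hb, fo]
        · simp [hb]
      rw [h2]
      have h3 : ∑ b ∈ P, fo a b + ∑ b ∈ P, δ b = 2 * ∑ b ∈ P, m b := by
        rw [← Finset.sum_add_distrib, Finset.mul_sum]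
        exact Finset.sum_congr rfl fun b _ => hrow b
      have h4 : Even (∑ b ∈ P, fo a b + ∑ b ∈ P, δ b) := by rw [h3]; exact even_two_mul _
      exact (Nat.even_add.1 h4).2 h1)
  have e1 := eq_Phi (a := a) (δ := δ) (E := E₁) (by rw [← hE]; exact Multiset.le_add_right _ _)
  have e2 := eq_Phi (a := a) (δ := δ) (E := E₂) (by rw [← hE]; exact Multiset.le_add_left _ _)
  set F : V → V → ℕ := fun b c => E₁.count ((b, false), (c, true), false) with hF
  set T : V → ℕ := fun b => E₁.count ((b, false), (b, true), true) with hT
  set F' : V → V → ℕ := fun b c => E₂.count ((b, false), (c, true), false) with hF'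
  set T' : V → ℕ := fun b => E₂.count ((b, false), (b, true), true) with hT'
  have f1 : ∀ b c, F b c + F' b c = a b c := by
    intro b c
    rw [hF, hF']
    simp only
    rw [← Multiset.count_add, hE, count_Phi]
    simp
  have f2 : ∀ b, T b + T' b = δ b := by
    intro b
    rw [hT, hT']
    simp only
    rw [← Multiset.count_add, hE, count_Phi]
    simp
  refine ⟨F, T, T', fun b c => by have := f1 b c; omega, f2, ?_, ?_⟩
  · intro b
    have h1 := hs (b, false)
    rw [e1, e2, sval_false, sval_false] at h1
    have h2 : fo F b + fo F' b = fo a b := by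
      rw [← fo_add]
      unfold fo
      exact Finset.sum_congr rfl fun c _ => f1 b c
    have h3 := f2 b
    have h4 := hrow b
    omega
  · intro c
    have h1 := hs (c, true)
    rw [e1, e2, sval_true, sval_true] at h1
    have h2 : fi F c + fi F' c = fi a c := by
      rw [← fi_add]
      unfold fi
      exact Finset.sum_congr rfl fun b _ => f1 b c
    have h3 := f2 c
    have h4 := hcol c
    omega

end MQ94
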