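import Pool.Agent.MQ94.Tri

/-!
# Module MQ-PSTEP (MP_aaabe1_al, helper94): an amalgamated class of `k` new points

`κ = none : Option S` stands for `k` new points. The arcs `F ≤ L` get third vertex `κ`; the `k - 1`
vertices of `R` close the `k (k-1)` arcs between the `k` points (no arc of `F` touches `R`), so the
remaining arcs are `pArcs L F R k`.

**P_step.** `X = S ⊕ Fin i`, `Option S ⊕ Fin i ≃ Option X`. Apply `expand k` (Tri.lean) with `F`
extended by `0`, `ρ (inl b) = γ (inl b) = if b ∈ R then 0 else 1`, `ρ (inr w) = γ (inr w) = 1`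
(row of `none`: `k - fo F b + fo F b = k` for `b ∉ R`; for `b ∈ R`: `0 + 0`; for `w`: `k`). This gives
the array of level `i + k` except that the entries between `R` and the `k` points and among the
`k` points are `0`. Let `R = {r_1, …, r_{k-1}}` (an equivalence `R ≃ Fin (k-1)`), the points
`p_j`, `j : Fin k` with addition modulo `k`, and add for every `s = 1..k-1` and every `j` the triple
`(r_s, p_j, p_{j+s})`: it covers `r_s → p_j`, `p_j → p_{j+s}`, `p_{j+s} → r_s`; so every arc
between `r_s` and the points is covered once in each direction, and every arc `p_j → p_l`, `j ≠ l`,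
exactly once (`s = l - j`).

**P_merge.** The virtual isolated vertex `g = none : Option (Option S)`: `TriDec.push` along
`Option (Option S) ⊕ Fin i → Option S ⊕ Fin i`, `none ↦ none`, `some x ↦ x` (so `κ' = some none` and
`g = none` are both mapped to `κ = none`).
-/

set_option autoImplicit false

namespace MQ94

def pμ {S : Type} (k : ℕ) : Option S → ℕ
  | none => k
  | some _ => 1

def pArcs {S : Type} [Fintype S] [DecidableEq S] (L F : S → S → ℕ) (R : Finset S) (k : ℕ) :
    Option S → Option S → ℕ
  | some b, some c => L b c - F b c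
  | none, some b => if b ∈ R then 0 else k - fo F b
  | some b, none => if b ∈ R then 0 else k - fi F b
  | none, none => 0

theorem P_step {S : Type} [Fintype S] [DecidableEq S] (i k : ℕ) (L F : S → S → ℕ) (R : Finset S)
    (hR : R.card + 1 = k) (hF : ∀ b c, F b c ≤ L b c)
    (hFR : ∀ b ∈ R, fo F b = 0 ∧ fi F b = 0) (hFo : ∀ b, fo F b ≤ k) (hFi : ∀ b, fi F b ≤ k)
    (h : TriDec (lev i (pμ k) (pArcs L F R k))) : TriDec (lev (i + k) (fun _ => 1) L) := by
  classical
  obtain ⟨k, rfl⟩ : ∃ k', k = k' + 1 := ⟨R.card, hR.symm⟩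
  -- step 1: transport to `Option (S ⊕ Fin i)`
  let e : Option S ⊕ Fin i ≃ Option (S ⊕ Fin i) :=
    { toFun := fun x => match x with
        | Sum.inl none => none
        | Sum.inl (some b) => some (Sum.inl b)
        | Sum.inr w => some (Sum.inr w)
      invFun := fun x => match x with
        | none => Sum.inl none
        | some (Sum.inl b) => Sum.inl (some b)
        | some (Sum.inr w) => Sum.inr w
      left_inv := by rintro ((_ | _) | _) <;> rfl
      right_inv := by rintro (_ | (_ | _)) <;> rfl }
  let A0 : Option (S ⊕ Fin i) → Option (S ⊕ Fin i) → ℕ := fun x y =>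
    lev i (pμ (k + 1)) (pArcs L F R (k + 1)) (e.symm x) (e.symm y)
  have hA0 : TriDec A0 := by
    apply TriDec.equiv e
    refine h.congr ?_
    intro x y
    simp only [A0, Equiv.symm_apply_apply]
  let F0 : S ⊕ Fin i → S ⊕ Fin i → ℕ := fun x y => match x, y with
    | Sum.inl b, Sum.inl c => F b c
    | _, _ => 0
  let ρ : S ⊕ Fin i → ℕ := fun x => match x with
    | Sum.inl b => if b ∈ R then 0 else 1
    | Sum.inr _ => 1
  have h1 : TriDec (expArr (k + 1) A0 F0 ρ ρ) := by
    apply expand (k + 1) A0 F0 ρ ρ hA0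
    · rfl
    · rintro (b | w)
      · have h2 : fo F0 (Sum.inl b) = fo F b := by
          unfold fo
          rw [Fintype.sum_sum_type]
          simp [F0]
        rw [h2]
        change (if b ∈ R then 0 else k + 1 - fo F b) + fo F b = (k + 1) * (if b ∈ R then 0 else 1)
        split_ifs with h3
        · rw [(hFR b h3).1]; simp
        · have := hFo b; omega
      · have h2 : fo F0 (Sum.inr w) = 0 := by
          unfold fo
          rw [Fintype.sum_sum_type]
          simp [F0]
        rw [h2]
        change (k + 1) + 0 = (k + 1) * 1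
        omega
    · rintro (b | w)
      · have h2 : fi F0 (Sum.inl b) = fi F b := by
          unfold fi
          rw [Fintype.sum_sum_type]
          simp [F0]
        rw [h2]
        change (if b ∈ R then 0 else k + 1 - fi F b) + fi F b = (k + 1) * (if b ∈ R then 0 else 1)
        split_ifs with h3
        · rw [(hFR b h3).2]; simp
        · have := hFi b; omega
      · have h2 : fi F0 (Sum.inr w) = 0 := by
          unfold fi
          rw [Fintype.sum_sum_type]
          simp [F0]
        rw [h2]
        change (k + 1) + 0 = (k + 1) * 1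
        omega
  -- step 2: the triples of `R`
  have hcard : Fintype.card R = Fintype.card {x : Fin (k + 1) // x ≠ 0} := by
    rw [Fintype.card_subtype_compl]
    simp
    omega
  let s : R ≃ {x : Fin (k + 1) // x ≠ 0} := Fintype.equivOfCardEq hcard
  let pa : R → (S ⊕ Fin i) ⊕ Fin (k + 1) := fun r => Sum.inl (Sum.inl r.1)
  let pp : Fin (k + 1) → (S ⊕ Fin i) ⊕ Fin (k + 1) := Sum.inr
  let B : (S ⊕ Fin i) ⊕ Fin (k + 1) → (S ⊕ Fin i) ⊕ Fin (k + 1) → ℕ := fun p q =>
    ∑ x : R × Fin (k + 1), (U (pa x.1) (pp x.2) p q + U (pp x.2) (pp (x.2 + (s x.1).1)) p q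
      + U (pp (x.2 + (s x.1).1)) (pa x.1) p q)
  have hB : TriDec B := by
    apply TriDec.sum Finset.univ
      (fun (x : R × Fin (k + 1)) p q => (U (pa x.1) (pp x.2) p q
        + U (pp x.2) (pp (x.2 + (s x.1).1)) p q + U (pp (x.2 + (s x.1).1)) (pa x.1) p q))
    intro x _
    exact TriDec.triple _ _ _
  have h2 := h1.add hB
  let e2 : (S ⊕ Fin i) ⊕ Fin (k + 1) ≃ S ⊕ Fin (i + (k + 1)) :=
    (Equiv.sumAssoc S (Fin i) (Fin (k + 1))).trans (Equiv.sumCongr (Equiv.refl S) finSumFinEquiv)
  apply TriDec.equiv e2
  refine h2.congr ?_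
  have hRsum : ∀ b : S, ∀ q : Fin (k + 1),
      ∑ x : R × Fin (k + 1), (if b = (x.1 : S) ∧ q = x.2 then 1 else 0) = if b ∈ R then 1 else 0 := by
    intro b q
    by_cases hb : b ∈ R
    · rw [if_pos hb, Finset.sum_eq_single ((⟨b, hb⟩ : R), q)]
      · simp
      · rintro ⟨r, j⟩ _ hne
        rw [if_neg]
        rintro ⟨h5, h6⟩
        apply hne
        exact Prod.ext (Subtype.ext h5.symm) h6.symm
      · simp
    · rw [if_neg hb]
      apply Finset.sum_eq_zero
      rintro ⟨r, j⟩ _
      rw [if_neg]
      rintro ⟨h5, -⟩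
      exact hb (h5 ▸ r.2)
  have hRsum' : ∀ c : S, ∀ p : Fin (k + 1),
      ∑ x : R × Fin (k + 1), (if p = x.2 + (s x.1).1 ∧ c = (x.1 : S) then 1 else 0)
        = if c ∈ R then 1 else 0 := by
    intro c p
    by_cases hb : c ∈ R
    · rw [if_pos hb, Finset.sum_eq_single ((⟨c, hb⟩ : R), p - (s ⟨c, hb⟩).1)]
      · simp
      · rintro ⟨r, j⟩ _ hne
        rw [if_neg]
        rintro ⟨h5, h6⟩
        apply hne
        have h7 : (⟨c, hb⟩ : R) = r := Subtype.ext h6
        subst h7
        refine Prod.ext rfl ?_
        simp only at h5 ⊢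
        rw [h5, add_sub_cancel_right]
      · simp
    · rw [if_neg hb]
      apply Finset.sum_eq_zero
      rintro ⟨r, j⟩ _
      rw [if_neg]
      rintro ⟨-, h5⟩
      exact hb (h5 ▸ r.2)
  have hRsum'' : ∀ p q : Fin (k + 1),
      ∑ x : R × Fin (k + 1), (if p = x.2 ∧ q = x.2 + (s x.1).1 then 1 else 0)
        = if p = q then 0 else 1 := by
    intro p q
    by_cases hpq : p = q
    · rw [if_pos hpq]
      apply Finset.sum_eq_zero
      rintro ⟨r, j⟩ _
      rw [if_neg]
      rintro ⟨h5, h6⟩
      simp only at h5 h6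
      have h7 : (s r).1 = 0 := by
        have : q = q + (s r).1 := by
          nth_rewrite 1 [h6]
          rw [← h5, hpq]
        simpa using this
      exact (s r).2 h7
    · rw [if_neg hpq]
      have hne : q - p ≠ 0 := by
        intro h5
        exact hpq (sub_eq_zero.1 h5).symm
      rw [Finset.sum_eq_single (s.symm ⟨q - p, hne⟩, p)]
      · simp
      · rintro ⟨r, j⟩ _ hne'
        rw [if_neg]
        rintro ⟨h5, h6⟩
        simp only at h5 h6
        apply hne'
        refine Prod.ext ?_ h5.symm
        simp only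
        rw [Equiv.eq_symm_apply]
        apply Subtype.ext
        simp only
        rw [h6, h5, add_sub_cancel_left]
      · simp
  have hU1 : ∀ (u v p q : (S ⊕ Fin i) ⊕ Fin (k + 1)), U u v p q = if p = u ∧ q = v then 1 else 0 :=
    fun _ _ _ _ => rfl
  rintro ((b | w) | p) ((c | w') | q)
  · change (L b c - F b c) + F b c + _ = L b c
    have : B (Sum.inl (Sum.inl b)) (Sum.inl (Sum.inl c)) = 0 := by
      simp [B, hU1, pp, pa]
    rw [this]
    have := hF b c
    omega
  · change 1 + 0 + _ = 1
    have : B (Sum.inl (Sum.inl b)) (Sum.inl (Sum.inr w')) = 0 := by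
      simp [B, hU1, pp, pa]
    rw [this]
  · change (if b ∈ R then 0 else 1) + _ = 1
    have : B (Sum.inl (Sum.inl b)) (Sum.inr q) = if b ∈ R then 1 else 0 := by
      rw [← hRsum b q]
      simp [B, hU1, pp, pa]
    rw [this]
    split_ifs <;> rfl
  · change 1 + 0 + _ = 1
    have : B (Sum.inl (Sum.inr w)) (Sum.inl (Sum.inl c)) = 0 := by
      simp [B, hU1, pp, pa]
    rw [this]
  · have : B (Sum.inl (Sum.inr w)) (Sum.inl (Sum.inr w')) = 0 := by
      simp [B, hU1, pp, pa]
    rw [this]
    change (if w = w' then 0 else 1) + 0 + 0 = (if Fin.castAdd (k + 1) w = Fin.castAdd (k + 1) w' then 0 else 1)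
    by_cases h5 : w = w'
    · simp [h5]
    · rw [if_neg h5, if_neg]
      intro h6
      exact h5 (Fin.castAdd_injective _ _ h6)
  · have : B (Sum.inl (Sum.inr w)) (Sum.inr q) = 0 := by
      simp [B, hU1, pp, pa]
    rw [this]
    change 1 + 0 = (if Fin.castAdd (k + 1) w = Fin.natAdd i q then 0 else 1)
    rw [if_neg]
    intro h6
    have := congrArg Fin.val h6
    simp at this
    omega
  · change (if c ∈ R then 0 else 1) + _ = 1
    have : B (Sum.inr p) (Sum.inl (Sum.inl c)) = if c ∈ R then 1 else 0 := by
      rw [← hRsum' c p]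
      simp [B, hU1, pp, pa]
    rw [this]
    split_ifs <;> rfl
  · have : B (Sum.inr p) (Sum.inl (Sum.inr w')) = 0 := by
      simp [B, hU1, pp, pa]
    rw [this]
    change 1 + 0 = (if Fin.natAdd i p = Fin.castAdd (k + 1) w' then 0 else 1)
    rw [if_neg]
    intro h6
    have := congrArg Fin.val h6
    simp at this
    omega
  · have : B (Sum.inr p) (Sum.inr q) = if p = q then 0 else 1 := by
      rw [← hRsum'' p q]
      simp [B, hU1, pp, pa]
    rw [this]
    change 0 + (if p = q then 0 else 1) = (if Fin.natAdd i p = Fin.natAdd i q then 0 else 1)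
    by_cases h5 : p = q
    · simp [h5]
    · rw [if_neg h5, if_neg]
      intro h6
      exact h5 (Fin.natAdd_injective _ _ h6)

/-- multiplicities with the virtual vertex `none` -/
def vμ {S : Type} (k : ℕ) : Option (Option S) → ℕ
  | none => 1
  | some none => k - 1
  | some (some _) => 1

/-- arcs with the isolated virtual vertex `none` -/
def vArcs {S : Type} (A : Option S → Option S → ℕ) : Option (Option S) → Option (Option S) → ℕ
  | some x, some y => A x y
  | _, _ => 0

theorem P_merge {S : Type} [Fintype S] [DecidableEq S] (i k : ℕ) (hk : 1 ≤ k)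
    (A : Option S → Option S → ℕ) (h : TriDec (lev i (vμ k) (vArcs A))) :
    TriDec (lev i (pμ k) A) := by
  classical
  let f : Option (Option S) ⊕ Fin i → Option S ⊕ Fin i := fun x => match x with
    | Sum.inl none => Sum.inl none
    | Sum.inl (some x) => Sum.inl x
    | Sum.inr w => Sum.inr w
  refine (h.push f).congr ?_
  have hf1 : f (Sum.inl none) = Sum.inl none := rfl
  have hf2 : ∀ x, f (Sum.inl (some x)) = Sum.inl x := fun _ => rfl
  have hf3 : ∀ w, f (Sum.inr w) = Sum.inr w := fun _ => rfl
  have key : ∀ (α β : Type) [Fintype α] [Fintype β] [DecidableEq α] [DecidableEq β] (a : α) (b : β)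
      (g : α → β → ℕ), (∑ x, ∑ y, if x = a ∧ y = b then g x y else 0) = g a b := by
    intro α β _ _ _ _ a b g
    rw [Finset.sum_eq_single a]
    · rw [Finset.sum_eq_single b]
      · simp
      · intro y _ hy; simp [hy]
      · simp
    · intro x _ hx; simp [hx]
    · simp
  rintro ((_ | b) | w) ((_ | c) | w')
  all_goals
    simp only [Fintype.sum_sum_type, Fintype.sum_option, hf1, hf2, hf3]
    simp [lev, vμ, vArcs, pμ, -Finset.sum_boole, key, Finset.sum_add_distrib]
  all_goals try omega

end MQ94
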