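import Pool.Agent.MQ94.ThmE
import Pool.Agent.MQ94.PStep

/-!
# Module MQ-PRV (MP_aaabe1_al, helper94): amalgamated class closed by `R`, then `thmE_hub`

`w = n + 1 + e = 2 r + k`, `|R| = k - 1`, `F ≤ L` avoids `R`. Loop numbers of the old vertices after
taking out the class: `pδ`.

**P_virt** (virtual isolated vertex). `P_step` with `i = 2 r`, `P_merge`, then `thmE_hub` for
`V = Option (Option S)`, `μ = vμ k`, `a = vArcs (pArcs L F R k)`, isolated vertex `none`, hub
`κ = some none`, `δ none = 2 r`, `δ (some none) = tot F + k + k e - (n + 1 + e)`,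
`δ (some (some b)) = pδ (n+1+e) k d F R b`.
Rows: `b ∉ R`: `d b - fo F b + (k - fi F b) + δ = 2 r = n + 1 + e - k`; `b ∈ R`: `d b + δ = 2 r`;
`κ`: `∑_{b ∉ R} (k - fo F b) + δ = k (n - k + 1) - tot F + δ = 2 r (k - 1)`: indeed
`2 r (k-1) - k (n-k+1) = (n+1+e-k)(k-1) - k (n-k+1) = k + k e - (n + 1 + e)`. Columns the same
(`∑_{b ∉ R} fi F b = tot F = ∑_{b ∉ R} fo F b`).
Count: `∑ δ = 2 r n - tot L + 2 tot F - k (n-k+1) + δ κ + 2 r`, and `∑ δ + 3 τ' + 2 r = (2 r)²`
becomes, with `2 r = n + 1 + e - k`, `3 (τ' + tot F + k e) = tot L + (n + 1 + e) e = 3 τ`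
(verified by hand).
Evenness: let `(P, Q)` be closed, `κ ∉ Q`. If `b ∈ P`, `b ∉ R`, then `b → κ` is not an arc, so
`fi F b = k`. If `κ ∈ P` then `δ κ = 0` (otherwise `κ ∈ Q`). So `∑_{P} δ` is the sum of `pδ` over the
part of `P` in `S`, and `hev` applies.

**P_real** (`g ∈ R` with `d g = 0`). `P_step`, then `thmE_hub` for `V = Option S`, `μ = pμ k`,
`a = pArcs L F R k`, isolated vertex `some g`, hub `none`, `δ none = tot F + k e`,
`δ (some b) = pδ (n+1+e) k d F R b`. Row of `κ = none`:
`k (n - k + 1) - tot F + δ = 2 r k = (n + 1 + e - k) k`. Count as before, evenness as before.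
-/

set_option autoImplicit false

namespace MQ94

def pδ {S : Type} [Fintype S] [DecidableEq S] (w k : ℕ) (d : S → ℕ) (F : S → S → ℕ)
    (R : Finset S) (b : S) : ℕ :=
  if b ∈ R then w - d b - k else w + (fo F b + fi F b) - d b - 2 * k

theorem p_sum_sub {ι : Type} (s : Finset ι) (f g : ι → ℕ) (h : ∀ i ∈ s, g i ≤ f i) :
    ∑ i ∈ s, (f i - g i) + ∑ i ∈ s, g i = ∑ i ∈ s, f i := by
  rw [← Finset.sum_add_distrib]
  exact Finset.sum_congr rfl fun i hi => Nat.sub_add_cancel (h i hi)

section facts

variable {S : Type} [Fintype S] [DecidableEq S] {L F : S → S → ℕ} {d : S → ℕ}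
    {n e r k τ τ' : ℕ} {R : Finset S}

theorem p_fo_some (hout : ∀ b, fo L b = d b) (hF : ∀ b c, F b c ≤ L b c)
    (hFi : ∀ b, fi F b ≤ k) (b : S) :
    fo (pArcs L F R k) (some b) + fo F b + (if b ∈ R then 0 else fi F b)
      = d b + (if b ∈ R then 0 else k) := by
  have h1 : fo (pArcs L F R k) (some b) = (if b ∈ R then 0 else k - fi F b)
      + ∑ c, (L b c - F b c) := by
    unfold fo
    rw [Fintype.sum_option]
    rfl
  have h2 := p_sum_sub Finset.univ (fun c => L b c) (fun c => F b c) fun c _ => hF b c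
  have h3 := hout b
  have h4 := hFi b
  have h6 : ∑ c, F b c = fo F b := rfl
  have h7 : ∑ c, L b c = fo L b := rfl
  split_ifs at h1 ⊢ <;> omega

theorem p_fi_some (hin : ∀ b, fi L b = d b) (hF : ∀ b c, F b c ≤ L b c)
    (hFo : ∀ b, fo F b ≤ k) (b : S) :
    fi (pArcs L F R k) (some b) + fi F b + (if b ∈ R then 0 else fo F b)
      = d b + (if b ∈ R then 0 else k) := by
  have h1 : fi (pArcs L F R k) (some b) = (if b ∈ R then 0 else k - fo F b)
      + ∑ c, (L c b - F c b) := by
    unfold fi
    rw [Fintype.sum_option]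
    rfl
  have h2 := p_sum_sub Finset.univ (fun c => L c b) (fun c => F c b) fun c _ => hF c b
  have h3 := hin b
  have h4 := hFo b
  have h6 : ∑ c, F c b = fi F b := rfl
  have h7 : ∑ c, L c b = fi L b := rfl
  split_ifs at h1 ⊢ <;> omega

theorem p_sum_ite (hn : Fintype.card S = n) :
    ∑ b : S, (if b ∈ R then 0 else k) + k * R.card = k * n := by
  have h1 : ∑ b : S, (if b ∈ R then 0 else k) + ∑ b : S, (if b ∈ R then k else 0)
      = ∑ _b : S, k := by
    rw [← Finset.sum_add_distrib]
    refine Finset.sum_congr rfl fun b _ => ?_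
    split_ifs <;> simp
  have h2 : ∑ b : S, (if b ∈ R then k else 0) = k * R.card := by
    rw [← Finset.sum_filter]
    simp [mul_comm]
  rw [h2] at h1
  rw [h1]
  simp [hn, mul_comm]

theorem p_fo_none (hn : Fintype.card S = n) (hFR : ∀ b ∈ R, fo F b = 0 ∧ fi F b = 0)
    (hFo : ∀ b, fo F b ≤ k) : fo (pArcs L F R k) none + tot F + k * R.card = k * n := by
  have h1 : fo (pArcs L F R k) none = ∑ b, (if b ∈ R then 0 else k - fo F b) := by
    unfold fo
    rw [Fintype.sum_option]
    show (0 : ℕ) + _ = _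
    rw [zero_add]
    rfl
  have h2 : ∑ b, (if b ∈ R then 0 else k - fo F b) + tot F = ∑ b : S, (if b ∈ R then 0 else k) := by
    rw [tot_eq_sum_fo, ← Finset.sum_add_distrib]
    refine Finset.sum_congr rfl fun b _ => ?_
    have h3 := hFo b
    by_cases hb : b ∈ R
    · simp [hb, (hFR b hb).1]
    · simp only [hb, if_false]
      omega
  rw [h1, h2]
  exact p_sum_ite hn

theorem p_fi_none (hn : Fintype.card S = n) (hFR : ∀ b ∈ R, fo F b = 0 ∧ fi F b = 0)
    (hFi : ∀ b, fi F b ≤ k) : fi (pArcs L F R k) none + tot F + k * R.card = k * n := by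
  have h1 : fi (pArcs L F R k) none = ∑ b, (if b ∈ R then 0 else k - fi F b) := by
    unfold fi
    rw [Fintype.sum_option]
    show (0 : ℕ) + _ = _
    rw [zero_add]
    rfl
  have h2 : ∑ b, (if b ∈ R then 0 else k - fi F b) + tot F = ∑ b : S, (if b ∈ R then 0 else k) := by
    rw [tot_eq_sum_fi, ← Finset.sum_add_distrib]
    refine Finset.sum_congr rfl fun b _ => ?_
    have h3 := hFi b
    by_cases hb : b ∈ R
    · simp [hb, (hFR b hb).2]
    · simp only [hb, if_false]
      omega
  rw [h1, h2]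
  exact p_sum_ite hn

theorem p_delta (hFR : ∀ b ∈ R, fo F b = 0 ∧ fi F b = 0)
    (hcovR : ∀ b ∈ R, d b + k ≤ n + 1 + e)
    (hcov : ∀ b, b ∉ R → d b + 2 * k ≤ n + 1 + e + (fo F b + fi F b)) (b : S) :
    pδ (n + 1 + e) k d F R b + d b + k + (if b ∈ R then 0 else k)
      = n + 1 + e + (fo F b + fi F b) := by
  unfold pδ
  by_cases hb : b ∈ R
  · have h1 := hcovR b hb
    have h2 := hFR b hb
    simp only [hb, if_true]
    omega
  · have h1 := hcov b hb
    simp only [hb, if_false]
    omega

theorem p_delta_sum (hn : Fintype.card S = n) (hout : ∀ b, fo L b = d b)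
    (hFR : ∀ b ∈ R, fo F b = 0 ∧ fi F b = 0)
    (hcovR : ∀ b ∈ R, d b + k ≤ n + 1 + e)
    (hcov : ∀ b, b ∉ R → d b + 2 * k ≤ n + 1 + e + (fo F b + fi F b)) :
    ∑ b, pδ (n + 1 + e) k d F R b + tot L + k * n + ∑ b : S, (if b ∈ R then 0 else k)
      = (n + 1 + e) * n + 2 * tot F := by
  have h1 : ∑ b, (pδ (n + 1 + e) k d F R b + d b + k + (if b ∈ R then 0 else k))
      = ∑ b : S, (n + 1 + e + (fo F b + fi F b)) :=
    Finset.sum_congr rfl fun b _ => p_delta hFR hcovR hcov b
  have h3 : ∑ b, d b = tot L := by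
    rw [tot_eq_sum_fo]
    exact (Finset.sum_congr rfl fun b _ => (hout b).symm)
  have h4 : ∑ b, fi F b = tot F := (tot_eq_sum_fi F).symm
  have h5 : ∑ b, fo F b = tot F := rfl
  rw [Finset.sum_add_distrib, Finset.sum_add_distrib, Finset.sum_add_distrib,
    Finset.sum_add_distrib (f := fun _ : S => n + 1 + e), Finset.sum_add_distrib (f := fun b => fo F b),
    h3, h4, h5, Finset.sum_const, Finset.sum_const, Finset.card_univ, hn, smul_eq_mul,
    smul_eq_mul] at h1
  rw [mul_comm k n, h1]
  ring

/-- the count identity -/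
theorem p_count (hn : Fintype.card S = n)
    (hw : n + 1 + e = 2 * r + k) (hR : R.card + 1 = k) (hout : ∀ b, fo L b = d b)
    (hFR : ∀ b ∈ R, fo F b = 0 ∧ fi F b = 0)
    (hcovR : ∀ b ∈ R, d b + k ≤ n + 1 + e)
    (hcov : ∀ b, b ∉ R → d b + 2 * k ≤ n + 1 + e + (fo F b + fi F b))
    (hτ : 3 * τ = tot L + (n + 1 + e) * e) (hτ' : τ' + tot F + k * e = τ) :
    (tot F + k * e) + ∑ b, pδ (n + 1 + e) k d F R b + 3 * τ' + 2 * r = 2 * r * (2 * r) := by
  have h1 := p_delta_sum (L := L) (k := k) hn hout hFR hcovR hcov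
  have h2 := p_sum_ite (R := R) (k := k) hn
  zify at h1 h2 hτ hτ' hw hR ⊢
  linear_combination h1 - h2 + hτ + 3 * hτ' + (k : ℤ) * hR
    + ((n : ℤ) + 1 + e - k + 2 * r - 1) * hw

end facts

theorem P_virt {S : Type} [Fintype S] [DecidableEq S] (L F : S → S → ℕ) (d : S → ℕ)
    (n e r k τ τ' : ℕ) (R : Finset S) (hn : Fintype.card S = n)
    (hw : n + 1 + e = 2 * r + k) (hR : R.card + 1 = k)
    (hout : ∀ b, fo L b = d b) (hin : ∀ b, fi L b = d b)
    (hF : ∀ b c, F b c ≤ L b c) (hFR : ∀ b ∈ R, fo F b = 0 ∧ fi F b = 0)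
    (hFo : ∀ b, fo F b ≤ k) (hFi : ∀ b, fi F b ≤ k)
    (hcovR : ∀ b ∈ R, d b + k ≤ n + 1 + e)
    (hcov : ∀ b, b ∉ R → d b + 2 * k ≤ n + 1 + e + (fo F b + fi F b))
    (hκ : n + 1 + e ≤ tot F + k + k * e)
    (hτ : 3 * τ = tot L + (n + 1 + e) * e) (hτ' : τ' + tot F + k * e = τ)
    (heven : Even τ') (hsmall : r ≤ 2 → τ' = 0)
    (hev : ∀ P Q : Finset S, (∀ b ∈ P, b ∉ R → fi F b = k) →
      (∀ b c, F b c < L b c → (b ∈ P ↔ c ∈ Q)) →
      (∀ b, pδ (n + 1 + e) k d F R b ≠ 0 → (b ∈ P ↔ b ∈ Q)) →
      Even (∑ b ∈ P, pδ (n + 1 + e) k d F R b)) :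
    TriDec (lev (n + 1 + e) (fun _ => 1) L) := by
  classical
  rw [hw]
  refine P_step (2 * r) k L F R hR hF hFR hFo hFi ?_
  refine P_merge (2 * r) k (by omega) _ ?_
  set A := pArcs L F R k with hA
  have hfov : ∀ x, fo (vArcs A) (some x) = fo A x := by
    intro x
    unfold fo
    rw [Fintype.sum_option]
    show (0 : ℕ) + _ = _
    rw [zero_add]
    rfl
  have hfiv : ∀ x, fi (vArcs A) (some x) = fi A x := by
    intro x
    unfold fi
    rw [Fintype.sum_option]
    show (0 : ℕ) + _ = _
    rw [zero_add]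
    rfl
  have hv1 : ∀ c, vArcs A none c = 0 := fun c => by cases c <;> rfl
  have hv2 : ∀ c, vArcs A c none = 0 := fun c => by cases c <;> rfl
  have hfon : fo (vArcs A) none = 0 := Finset.sum_eq_zero fun c _ => hv1 c
  have hfin : fi (vArcs A) none = 0 := Finset.sum_eq_zero fun c _ => hv2 c
  set δ : Option (Option S) → ℕ := fun x => match x with
    | none => 2 * r
    | some none => tot F + k + k * e - (n + 1 + e)
    | some (some b) => pδ (n + 1 + e) k d F R b with hδ
  have hδn : δ none = 2 * r := rfl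
  have hδκ : δ (some none) = tot F + k + k * e - (n + 1 + e) := rfl
  have hδs : ∀ b, δ (some (some b)) = pδ (n + 1 + e) k d F R b := fun b => rfl
  have hrowκ : k * n + k * e = 2 * r * k + k * R.card := by
    have h1 : k * (n + 1 + e) = k * (2 * r + k) := by rw [hw]
    have h2 : k * (R.card + 1) = k * k := by rw [hR]
    nlinarith
  refine thmE_hub r (vμ k) (vArcs A) δ none (some none) τ' (by simp) rfl hv1 hv2 ?_ ?_ heven
    hsmall ?_ ?_
  · rintro (_ | _ | b)
    · rw [hfon, hδn]
      simp [vμ]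
    · rw [hfov, hδκ]
      have h1 : fo A none + tot F + k * R.card = k * n :=
        p_fo_none (L := L) (k := k) hn hFR hFo
      show fo A none + (tot F + k + k * e - (n + 1 + e)) = 2 * r * (k - 1)
      have h3 : 2 * r * (k - 1) + 2 * r = 2 * r * k := by
        have : k = (k - 1) + 1 := by omega
        conv_rhs => rw [this]
        ring
      omega
    · rw [hfov, hδs]
      have h1 : fo A (some b) + fo F b + (if b ∈ R then 0 else fi F b)
          = d b + (if b ∈ R then 0 else k) := p_fo_some (R := R) hout hF hFi b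
      have h2 := p_delta hFR hcovR hcov b
      show fo A (some b) + pδ (n + 1 + e) k d F R b = 2 * r * 1
      by_cases hb : b ∈ R
      · have h3 := hFR b hb
        simp only [hb, if_true] at h1 h2
        omega
      · simp only [hb, if_false] at h1 h2
        omega
  · rintro (_ | _ | b)
    · rw [hfin, hδn]
      simp [vμ]
    · rw [hfiv, hδκ]
      have h1 : fi A none + tot F + k * R.card = k * n :=
        p_fi_none (L := L) (k := k) hn hFR hFi
      show fi A none + (tot F + k + k * e - (n + 1 + e)) = 2 * r * (k - 1)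
      have h3 : 2 * r * (k - 1) + 2 * r = 2 * r * k := by
        have : k = (k - 1) + 1 := by omega
        conv_rhs => rw [this]
        ring
      omega
    · rw [hfiv, hδs]
      have h1 : fi A (some b) + fi F b + (if b ∈ R then 0 else fo F b)
          = d b + (if b ∈ R then 0 else k) := p_fi_some (R := R) hin hF hFo b
      have h2 := p_delta hFR hcovR hcov b
      show fi A (some b) + pδ (n + 1 + e) k d F R b = 2 * r * 1
      by_cases hb : b ∈ R
      · have h3 := hFR b hb
        simp only [hb, if_true] at h1 h2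
        omega
      · simp only [hb, if_false] at h1 h2
        omega
  · rw [Fintype.sum_option, Fintype.sum_option, hδn, hδκ]
    have h1 := p_count (L := L) (k := k) hn hw hR hout hFR hcovR hcov hτ hτ'
    have h2 : ∑ x, δ (some (some x)) = ∑ b, pδ (n + 1 + e) k d F R b := rfl
    rw [h2]
    omega
  · intro P Q hPQ hhub
    obtain ⟨hgP, hgQ, harc, hloop⟩ := hPQ
    have hsumP : ∑ x ∈ P, δ x
        = ∑ b ∈ Finset.univ.filter (fun b : S => (some (some b)) ∈ P), pδ (n + 1 + e) k d F R b := by
      have h1 : ∑ x ∈ P, δ x = ∑ x, if x ∈ P then δ x else 0 := by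
        rw [← Finset.sum_filter]
        congr 1
        ext x
        simp
      rw [h1, Fintype.sum_option, Fintype.sum_option, Finset.sum_filter, if_neg hgP]
      have h2 : (if (some none : Option (Option S)) ∈ P then δ (some none) else 0) = 0 := by
        split_ifs with h3
        · by_contra h4
          exact hhub ((hloop (some none) (by simp) h4).1 h3)
        · rfl
      rw [h2, zero_add, zero_add]
    rw [hsumP]
    refine hev _ (Finset.univ.filter (fun b : S => (some (some b)) ∈ Q)) ?_ ?_ ?_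
    · intro b hb hbR
      have hbP : (some (some b)) ∈ P := by simpa using hb
      by_contra hne
      have h1 := hFi b
      refine hhub ((harc (some (some b)) (some none) ?_).1 hbP)
      show (if b ∈ R then 0 else k - fi F b) ≠ 0
      rw [if_neg hbR]
      omega
    · intro b c hbc
      have h1 := harc (some (some b)) (some (some c)) (by
        show L b c - F b c ≠ 0
        omega)
      simpa using h1
    · intro b hb
      have h1 := hloop (some (some b)) (by simp) hb
      simpa using h1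

theorem P_real {S : Type} [Fintype S] [DecidableEq S] (L F : S → S → ℕ) (d : S → ℕ)
    (n e r k τ τ' : ℕ) (g : S) (R : Finset S) (hn : Fintype.card S = n)
    (hw : n + 1 + e = 2 * r + k) (hR : R.card + 1 = k) (hgR : g ∈ R) (hg0 : d g = 0)
    (hout : ∀ b, fo L b = d b) (hin : ∀ b, fi L b = d b)
    (hF : ∀ b c, F b c ≤ L b c) (hFR : ∀ b ∈ R, fo F b = 0 ∧ fi F b = 0)
    (hFo : ∀ b, fo F b ≤ k) (hFi : ∀ b, fi F b ≤ k)
    (hcovR : ∀ b ∈ R, d b + k ≤ n + 1 + e)
    (hcov : ∀ b, b ∉ R → d b + 2 * k ≤ n + 1 + e + (fo F b + fi F b))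
    (hτ : 3 * τ = tot L + (n + 1 + e) * e) (hτ' : τ' + tot F + k * e = τ)
    (heven : Even τ') (hsmall : r ≤ 2 → τ' = 0)
    (hev : ∀ P Q : Finset S, g ∉ P → g ∉ Q → (∀ b ∈ P, b ∉ R → fi F b = k) →
      (∀ b c, F b c < L b c → (b ∈ P ↔ c ∈ Q)) →
      (∀ b, b ≠ g → pδ (n + 1 + e) k d F R b ≠ 0 → (b ∈ P ↔ b ∈ Q)) →
      Even (∑ b ∈ P, pδ (n + 1 + e) k d F R b)) :
    TriDec (lev (n + 1 + e) (fun _ => 1) L) := by
  classical
  rw [hw]
  refine P_step (2 * r) k L F R hR hF hFR hFo hFi ?_
  set A := pArcs L F R k with hA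
  set δ : Option S → ℕ := fun x => match x with
    | none => tot F + k * e
    | some b => pδ (n + 1 + e) k d F R b with hδ
  have hδκ : δ none = tot F + k * e := rfl
  have hδs : ∀ b, δ (some b) = pδ (n + 1 + e) k d F R b := fun b => rfl
  have hrowκ : k * n + k * e = 2 * r * k + k * R.card := by
    have h1 : k * (n + 1 + e) = k * (2 * r + k) := by rw [hw]
    have h2 : k * (R.card + 1) = k * k := by rw [hR]
    nlinarith
  have hLg1 : ∀ c, L g c = 0 := by
    intro c
    have h1 := le_fo L g c
    rw [hout, hg0] at h1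
    omega
  have hLg2 : ∀ c, L c g = 0 := by
    intro c
    have h1 := le_fi L c g
    rw [hin, hg0] at h1
    omega
  refine thmE_hub r (pμ k) A δ (some g) none τ' (by simp) rfl ?_ ?_ ?_ ?_ heven hsmall ?_ ?_
  · rintro (_ | c)
    · show (if g ∈ R then 0 else k - fi F g) = 0
      rw [if_pos hgR]
    · show L g c - F g c = 0
      rw [hLg1, Nat.zero_sub]
  · rintro (_ | c)
    · show (if g ∈ R then 0 else k - fo F g) = 0
      rw [if_pos hgR]
    · show L c g - F c g = 0
      rw [hLg2, Nat.zero_sub]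
  · rintro (_ | b)
    · rw [hδκ]
      have h1 : fo A none + tot F + k * R.card = k * n :=
        p_fo_none (L := L) (k := k) hn hFR hFo
      show fo A none + (tot F + k * e) = 2 * r * k
      omega
    · rw [hδs]
      have h1 : fo A (some b) + fo F b + (if b ∈ R then 0 else fi F b)
          = d b + (if b ∈ R then 0 else k) := p_fo_some (R := R) hout hF hFi b
      have h2 := p_delta hFR hcovR hcov b
      show fo A (some b) + pδ (n + 1 + e) k d F R b = 2 * r * 1
      by_cases hb : b ∈ R
      · have h3 := hFR b hb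
        simp only [hb, if_true] at h1 h2
        omega
      · simp only [hb, if_false] at h1 h2
        omega
  · rintro (_ | b)
    · rw [hδκ]
      have h1 : fi A none + tot F + k * R.card = k * n :=
        p_fi_none (L := L) (k := k) hn hFR hFi
      show fi A none + (tot F + k * e) = 2 * r * k
      omega
    · rw [hδs]
      have h1 : fi A (some b) + fi F b + (if b ∈ R then 0 else fo F b)
          = d b + (if b ∈ R then 0 else k) := p_fi_some (R := R) hin hF hFo b
      have h2 := p_delta hFR hcovR hcov b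
      show fi A (some b) + pδ (n + 1 + e) k d F R b = 2 * r * 1
      by_cases hb : b ∈ R
      · have h3 := hFR b hb
        simp only [hb, if_true] at h1 h2
        omega
      · simp only [hb, if_false] at h1 h2
        omega
  · rw [Fintype.sum_option, hδκ]
    have h1 := p_count (L := L) (k := k) hn hw hR hout hFR hcovR hcov hτ hτ'
    have h2 : ∑ x, δ (some x) = ∑ b, pδ (n + 1 + e) k d F R b := rfl
    rw [h2]
    omega
  · intro P Q hPQ hhub
    obtain ⟨hgP, hgQ, harc, hloop⟩ := hPQ
    have hsumP : ∑ x ∈ P, δ x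
        = ∑ b ∈ Finset.univ.filter (fun b : S => (some b) ∈ P), pδ (n + 1 + e) k d F R b := by
      have h1 : ∑ x ∈ P, δ x = ∑ x, if x ∈ P then δ x else 0 := by
        rw [← Finset.sum_filter]
        congr 1
        ext x
        simp
      rw [h1, Fintype.sum_option, Finset.sum_filter]
      have h2 : (if (none : Option S) ∈ P then δ none else 0) = 0 := by
        split_ifs with h3
        · by_contra h4
          exact hhub ((hloop none (by simp) h4).1 h3)
        · rfl
      rw [h2, zero_add]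
    rw [hsumP]
    refine hev _ (Finset.univ.filter (fun b : S => (some b) ∈ Q)) ?_ ?_ ?_ ?_ ?_
    · simpa using hgP
    · simpa using hgQ
    · intro b hb hbR
      have hbP : (some b) ∈ P := by simpa using hb
      by_contra hne
      have h1 := hFi b
      refine hhub ((harc (some b) none ?_).1 hbP)
      show (if b ∈ R then 0 else k - fi F b) ≠ 0
      rw [if_neg hbR]
      omega
    · intro b c hbc
      have h1 := harc (some b) (some c) (by
        show L b c - F b c ≠ 0
        omega)
      simpa using h1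
    · intro b hbg hb
      have h1 := hloop (some b) (by simpa using hbg) hb
      simpa using h1

end MQ94
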