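import Pool.Agent.MQ94.Leave
import Pool.Agent.MQ94.PRV

/-!
# Module MQ-CD2N6 (MP_aaabe1_al, helper94): `n = 6`, `e = 0`, minimum degree 2

The proof is written in the header of CaseSmall.lean (item `caseD2N6`).
-/

set_option autoImplicit false

namespace MQ94

section d2n6

variable {S : Type} [Fintype S] [DecidableEq S] {L : S → S → ℕ} {d : S → ℕ} {τ : ℕ}

theorem d2n6_tight (h : IsLeave L d 6 0 τ) {a a' : S} (haa : L a a' ≠ 0) (ha : d a = 3)
    (ha' : d a' = 3) (x : S) : L a' x + L x a = 1 := by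
  have h1 := h.tightT Finset.univ (fun b hb => absurd (Finset.mem_univ b) hb) haa
    (by rw [Finset.card_univ, h.card, ha, ha']) (Finset.mem_univ x)
  have h2 := h.le_one a' x
  have h3 := h.le_one x a
  by_cases h4 : L x a = 0
  · have h5 := h1.mpr h4
    omega
  · have h5 : L a' x = 0 := by
      by_contra h6
      exact h4 (h1.mp h6)
    omega

theorem d2n6_aux (h : IsLeave L d 6 0 τ) {a1 a2 a3 b1 b2 b3 : S}
    (hs : ∀ f : S → ℕ, ∑ x, f x = f a1 + f a2 + f a3 + f b1 + f b2 + f b3)
    (ha1 : d a1 = 3) (ha2 : d a2 = 3) (ha3 : d a3 = 3) (hb1 : d b1 = 2) (hb2 : d b2 = 2)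
    (hb3 : d b3 = 2) (h12 : L a1 a2 ≠ 0) (h21 : L a2 a1 ≠ 0) (h23 : L a2 a3 ≠ 0)
    (h32 : L a3 a2 ≠ 0) : False := by
  have hrow : ∀ b, L b a1 + L b a2 + L b a3 + L b b1 + L b b2 + L b b3 = d b := by
    intro b
    have h1 := h.out b
    unfold fo at h1
    rw [hs] at h1
    exact h1
  have hcol : ∀ b, L a1 b + L a2 b + L a3 b + L b1 b + L b2 b + L b3 b = d b := by
    intro b
    have h1 := h.inn b
    unfold fi at h1
    rw [hs] at h1
    exact h1
  have t12 := d2n6_tight h h12 ha1 ha2
  have t32 := d2n6_tight h h32 ha3 ha2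
  have t21 := d2n6_tight h h21 ha2 ha1
  have t23 := d2n6_tight h h23 ha2 ha3
  have l12 := h.le_one a1 a2
  have l21 := h.le_one a2 a1
  have l23 := h.le_one a2 a3
  have l32 := h.le_one a3 a2
  have i1 := h.irrefl b1
  have i2 := h.irrefl b2
  have i3 := h.irrefl b3
  have j2 := h.irrefl a2
  -- row and column of `a2`
  have R2 := hrow a2
  have C2 := hcol a2
  rw [ha2] at R2 C2
  have T1 := t12 b1
  have T2 := t12 b2
  have T3 := t12 b3
  have T4 := t32 b1
  have T5 := t32 b2
  have T6 := t32 b3
  have T7 := t21 b1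
  have T8 := t21 b2
  have T9 := t21 b3
  have T10 := t23 b1
  have T11 := t23 b2
  have T12 := t23 b3
  have R4 := hrow b1
  have R5 := hrow b2
  have R6 := hrow b3
  have C4 := hcol b1
  have C5 := hcol b2
  have C6 := hcol b3
  rw [hb1] at R4 C4
  rw [hb2] at R5 C5
  rw [hb3] at R6 C6
  omega

theorem d2n6_two (h : IsLeave L d 6 0 τ) (hmin : ∀ b, 2 ≤ d b) (g : S) (hg : d g = 2) :
    ∀ b, d b = 2 := by
  have hcard : (Finset.univ : Finset S).card = 6 := by rw [Finset.card_univ, h.card]
  have hle : ∀ b, d b ≤ 4 := by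
    intro b
    obtain ⟨c, hc⟩ := h.leave_exists_out (b := b) (by have := hmin b; omega)
    have h1 := h.adj hc
    have h2 := hmin c
    omega
  have htot : tot L = ∑ b, d b := by
    rw [tot_eq_sum_fo]
    exact Finset.sum_congr rfl fun b _ => h.out b
  have hτ := h.hτ
  -- no vertex of degree 4
  have h4 : ∀ b, d b ≠ 4 := by
    intro u hu
    obtain ⟨X, -, hX, -, -, hX2, hX3⟩ := h.bip Finset.univ
      (fun b hb => absurd (Finset.mem_univ b) hb) 2 (by norm_num) (fun b _ => hmin b)
      (Finset.mem_univ u) (by rw [hcard, hu])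
    rw [hcard] at hX
    have h4 : ∑ b, d b = ∑ b ∈ X, d b + ∑ b ∈ Xᶜ, d b :=
      (Finset.sum_add_sum_compl X d).symm
    have h5 : ∑ b ∈ X, d b = X.card * 2 := by
      rw [Finset.sum_congr rfl hX2]; simp
    have h6 : ∑ b ∈ Xᶜ, d b = Xᶜ.card * 4 := by
      have h7 : ∀ b ∈ Xᶜ, d b = 4 := by
        intro b hb
        have := hX3 b (Finset.mem_univ b) (Finset.mem_compl.1 hb)
        rw [hcard] at this
        omega
      rw [Finset.sum_congr rfl h7]; simp
    have h8 : X.card + Xᶜ.card = 6 := by
      rw [Finset.card_add_card_compl, h.card]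
    omega
  set A := Finset.univ.filter (fun b => d b = 3) with hA
  have hAc : ∀ b ∈ Aᶜ, d b = 2 := by
    intro b hb
    have h1 : ¬ d b = 3 := by
      intro h2
      exact Finset.mem_compl.1 hb (Finset.mem_filter.2 ⟨Finset.mem_univ b, h2⟩)
    have h2 := hmin b
    have h3 := hle b
    have h5 := h4 b
    omega
  have hA3 : ∀ b ∈ A, d b = 3 := fun b hb => (Finset.mem_filter.1 hb).2
  have hsum : ∑ b, d b = A.card * 3 + Aᶜ.card * 2 := by
    rw [← Finset.sum_add_sum_compl A d, Finset.sum_congr rfl hA3, Finset.sum_congr rfl hAc]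
    simp
  have hcc : A.card + Aᶜ.card = 6 := by
    rw [Finset.card_add_card_compl, h.card]
  have hgA : g ∈ Aᶜ := by
    rw [Finset.mem_compl]
    intro h1
    have := hA3 g h1
    omega
  have hgc : 1 ≤ Aᶜ.card := Finset.card_pos.2 ⟨g, hgA⟩
  have hA03 : A.card = 0 ∨ A.card = 3 := by omega
  rcases hA03 with h0 | h0
  · intro b
    apply hAc
    rw [Finset.card_eq_zero] at h0
    rw [h0]
    simp
  · exfalso
    have h0' : Aᶜ.card = 3 := by omega
    obtain ⟨a1, a2, a3, n12, n13, n23, hAe⟩ := Finset.card_eq_three.1 h0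
    obtain ⟨b1, b2, b3, m12, m13, m23, hBe⟩ := Finset.card_eq_three.1 h0'
    have hs : ∀ f : S → ℕ, ∑ x, f x = f a1 + f a2 + f a3 + f b1 + f b2 + f b3 := by
      intro f
      rw [← Finset.sum_add_sum_compl A f, hBe, hAe]
      rw [Finset.sum_insert (by simp [n12, n13]), Finset.sum_insert (by simp [n23]),
        Finset.sum_singleton, Finset.sum_insert (by simp [m12, m13]),
        Finset.sum_insert (by simp [m23]), Finset.sum_singleton]
      ring
    have ha1 : d a1 = 3 := hA3 a1 (by rw [hAe]; simp)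
    have ha2 : d a2 = 3 := hA3 a2 (by rw [hAe]; simp)
    have ha3 : d a3 = 3 := hA3 a3 (by rw [hAe]; simp)
    have hb1 : d b1 = 2 := hAc b1 (by rw [hBe]; simp)
    have hb2 : d b2 = 2 := hAc b2 (by rw [hBe]; simp)
    have hb3 : d b3 = 2 := hAc b3 (by rw [hBe]; simp)
    -- arcs inside `A` come in opposite pairs
    have hsym : ∀ a a', d a = 3 → d a' = 3 → L a a' ≠ 0 → L a' a ≠ 0 := by
      intro a a' ha ha' haa
      have h1 := d2n6_tight h haa ha ha' a
      have h2 := h.irrefl a
      omega
    have hrow : ∀ b, L b a1 + L b a2 + L b a3 + L b b1 + L b b2 + L b b3 = d b := by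
      intro b
      have h1 := h.out b
      unfold fo at h1
      rw [hs] at h1
      exact h1
    have hcol : ∀ b, L a1 b + L a2 b + L a3 b + L b1 b + L b2 b + L b3 b = d b := by
      intro b
      have h1 := h.inn b
      unfold fi at h1
      rw [hs] at h1
      exact h1
    have R1 := hrow a1
    have R2 := hrow a2
    have R3 := hrow a3
    have C1 := hcol b1
    have C2 := hcol b2
    have C3 := hcol b3
    have i1 := h.irrefl a1
    have i2 := h.irrefl a2
    have i3 := h.irrefl a3
    rw [ha1] at R1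
    rw [ha2] at R2
    rw [ha3] at R3
    rw [hb1] at C1
    rw [hb2] at C2
    rw [hb3] at C3
    have l12 := h.le_one a1 a2
    have l21 := h.le_one a2 a1
    have l13 := h.le_one a1 a3
    have l31 := h.le_one a3 a1
    have l23 := h.le_one a2 a3
    have l32 := h.le_one a3 a2
    have s12 := hsym a1 a2 ha1 ha2
    have s21 := hsym a2 a1 ha2 ha1
    have s13 := hsym a1 a3 ha1 ha3
    have s31 := hsym a3 a1 ha3 ha1
    have s23 := hsym a2 a3 ha2 ha3
    have s32 := hsym a3 a2 ha3 ha2
    by_cases q12 : L a1 a2 = 0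
    · have q21 : L a2 a1 = 0 := by
        by_contra hh
        exact s21 hh q12
      by_cases q13 : L a1 a3 = 0
      · have q31 : L a3 a1 = 0 := by
          by_contra hh
          exact s31 hh q13
        omega
      · by_cases q23 : L a2 a3 = 0
        · have q32 : L a3 a2 = 0 := by
            by_contra hh
            exact s32 hh q23
          omega
        · -- 1 - 3 - 2
          refine d2n6_aux h (a1 := a1) (a2 := a3) (a3 := a2) (b1 := b1) (b2 := b2) (b3 := b3)
            ?_ ha1 ha3 ha2 hb1 hb2 hb3 q13 (s13 q13) (s23 q23) q23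
          intro f
          rw [hs]; ring
    · by_cases q13 : L a1 a3 = 0
      · by_cases q23 : L a2 a3 = 0
        · have q32 : L a3 a2 = 0 := by
            by_contra hh
            exact s32 hh q23
          have q31 : L a3 a1 = 0 := by
            by_contra hh
            exact s31 hh q13
          omega
        · exact d2n6_aux h hs ha1 ha2 ha3 hb1 hb2 hb3 q12 (s12 q12) q23 (s23 q23)
      · by_cases q23 : L a2 a3 = 0
        · -- 2 - 1 - 3
          refine d2n6_aux h (a1 := a2) (a2 := a1) (a3 := a3) (b1 := b1) (b2 := b2) (b3 := b3)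
            ?_ ha2 ha1 ha3 hb1 hb2 hb3 (s12 q12) q12 q13 (s13 q13)
          intro f
          rw [hs]; ring
        · exact h.tri a1 a2 a3 q12 q23 (s13 q13)

end d2n6

theorem caseD2N6 {S : Type} [Fintype S] [DecidableEq S] {L : S → S → ℕ} {d : S → ℕ} {τ : ℕ}
    (h : IsLeave L d 6 0 τ) (hmin : ∀ b, 2 ≤ d b) (g : S) (hg : d g = 2) :
    TriDec (lev (6 + 1 + 0) (fun _ => 1) L) := by
  classical
  have hd := d2n6_two h hmin g hg
  have htot : tot L = 12 := by
    rw [tot_eq_sum_fo, Finset.sum_congr rfl fun b _ => (h.out b).trans (hd b)]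
    simp [h.card]
  have hτ := h.hτ
  have hτ4 : τ = 4 := by omega
  obtain ⟨r2, hr⟩ := h.leave_exists_out (b := g) (by omega)
  set r1 := g with hr1
  have hne : r1 ≠ r2 := by
    intro he
    rw [← he] at hr
    exact hr (h.irrefl r1)
  set R : Finset S := {r1, r2} with hR
  have hRc : R.card = 2 := Finset.card_pair hne
  -- arcs avoiding `R`
  set 𝒜 : Finset (S × S) := Finset.univ.filter
    (fun x : S × S => L x.1 x.2 ≠ 0 ∧ x.1 ∉ R ∧ x.2 ∉ R) with h𝒜
  have hmem : ∀ b c, (b, c) ∈ 𝒜 ↔ (L b c ≠ 0 ∧ b ∉ R ∧ c ∉ R) := by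
    intro b c
    rw [h𝒜, Finset.mem_filter]
    simp
  have h𝒜c : 4 ≤ 𝒜.card := by
    have e1 : 𝒜.card = ∑ b, ∑ c, if L b c ≠ 0 ∧ b ∉ R ∧ c ∉ R then 1 else 0 := by
      rw [h𝒜, Finset.card_filter, Fintype.sum_prod_type]
    have e2 : ∑ b, ∑ c, (if b ∈ R then L b c else 0) = 4 := by
      have : ∀ b, ∑ c, (if b ∈ R then L b c else 0) = if b ∈ R then 2 else 0 := by
        intro b
        by_cases hb : b ∈ R
        · simp only [hb, if_true]
          exact (h.out b).trans (hd b)
        · simp [hb]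
      rw [Finset.sum_congr rfl fun b _ => this b, Finset.sum_ite_mem, Finset.univ_inter]
      simp [hRc]
    have e3 : ∑ b, ∑ c, (if c ∈ R then L b c else 0) = 4 := by
      rw [Finset.sum_comm]
      have : ∀ c, ∑ b, (if c ∈ R then L b c else 0) = if c ∈ R then 2 else 0 := by
        intro c
        by_cases hc : c ∈ R
        · simp only [hc, if_true]
          exact (h.inn c).trans (hd c)
        · simp [hc]
      rw [Finset.sum_congr rfl fun c _ => this c, Finset.sum_ite_mem, Finset.univ_inter]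
      simp [hRc]
    have e4 : tot L ≤ 𝒜.card + ∑ b, ∑ c, (if b ∈ R then L b c else 0)
        + ∑ b, ∑ c, (if c ∈ R then L b c else 0) := by
      rw [e1, ← Finset.sum_add_distrib, ← Finset.sum_add_distrib]
      unfold tot
      refine Finset.sum_le_sum fun b _ => ?_
      rw [← Finset.sum_add_distrib, ← Finset.sum_add_distrib]
      refine Finset.sum_le_sum fun c _ => ?_
      have h1 := h.le_one b c
      by_cases hb : b ∈ R
      · simp [hb]
      · by_cases hc : c ∈ R
        · simp [hc]
        · by_cases h0 : L b c = 0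
          · simp [h0]
          · simp [hb, hc, h0]; omega
    omega
  -- every vertex outside `R` is on an arc avoiding `R`
  have hcovA : ∀ v, v ∉ R → ∃ x : S × S, x ∈ 𝒜 ∧ (x.1 = v ∨ x.2 = v) := by
    intro v hv
    by_contra hcon
    push Not at hcon
    have hout : IsLeave.outN L v = R := by
      apply Finset.eq_of_subset_of_card_le
      · intro c hc
        by_contra hcR
        have h1 := hcon (v, c) ((hmem v c).2 ⟨IsLeave.leave_mem_outN.1 hc, hv, hcR⟩)
        exact h1.1 rfl
      · rw [h.card_outN, hd, hRc]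
    have hinn : IsLeave.inN L v = R := by
      apply Finset.eq_of_subset_of_card_le
      · intro c hc
        by_contra hcR
        have h1 := hcon (c, v) ((hmem c v).2 ⟨IsLeave.leave_mem_inN.1 hc, hcR, hv⟩)
        exact h1.2 rfl
      · rw [h.card_inN, hd, hRc]
    have h1 : L v r1 ≠ 0 := IsLeave.leave_mem_outN.1 (by rw [hout, hR]; simp)
    have h2 : L r2 v ≠ 0 := IsLeave.leave_mem_inN.1 (by rw [hinn, hR]; simp)
    exact h.tri v r1 r2 h1 hr h2
  choose! f hf1 hf2 using hcovA
  have hRcc : Rᶜ.card = 4 := by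
    have := Finset.card_add_card_compl R
    rw [h.card, hRc] at this
    omega
  obtain ⟨u, hu1, hu2, hu3⟩ := Finset.exists_subsuperset_card_eq
    (s := Rᶜ.image f) (t := 𝒜) (n := 4) (by
      intro x hx
      obtain ⟨v, hv, rfl⟩ := Finset.mem_image.1 hx
      exact hf1 v (Finset.mem_compl.1 hv))
    (by have := Finset.card_image_le (s := Rᶜ) (f := f); omega) h𝒜c
  set F : S → S → ℕ := fun b c => if (b, c) ∈ u then 1 else 0 with hF
  have hFL : ∀ b c, F b c ≤ L b c := by
    intro b c
    simp only [hF]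
    split_ifs with hbc
    · have := ((hmem b c).1 (hu2 hbc)).1
      omega
    · exact Nat.zero_le _
  have hFtot : tot F = 4 := by
    rw [← hu3]
    unfold tot
    simp only [hF]
    rw [← Fintype.sum_prod_type (f := fun x : S × S => if (x.1, x.2) ∈ u then 1 else 0)]
    simp
  have hFo : ∀ b, fo F b ≤ 2 := by
    intro b
    have h1 := fo_mono hFL b
    rw [h.out b, hd b] at h1
    exact h1
  have hFi : ∀ b, fi F b ≤ 2 := by
    intro b
    have h1 := fi_mono hFL b
    rw [h.inn b, hd b] at h1
    exact h1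
  refine P_virt L F d 6 0 2 3 τ 0 R h.card (by norm_num) (by rw [hRc]) h.out h.inn hFL ?_
    (fun b => (hFo b).trans (by norm_num)) (fun b => (hFi b).trans (by norm_num)) ?_ ?_
    (by rw [hFtot]) hτ (by omega) (by decide) (fun _ => rfl) ?_
  · intro b hb
    constructor
    · unfold fo
      refine Finset.sum_eq_zero fun c _ => ?_
      simp only [hF]
      rw [if_neg]
      intro hbc
      exact ((hmem b c).1 (hu2 hbc)).2.1 hb
    · unfold fi
      refine Finset.sum_eq_zero fun c _ => ?_
      simp only [hF]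
      rw [if_neg]
      intro hbc
      exact ((hmem c b).1 (hu2 hbc)).2.2 hb
  · intro b _
    rw [hd]
    norm_num
  · intro b hb
    rw [hd]
    have h1 : f b ∈ u := hu1 (Finset.mem_image.2 ⟨b, Finset.mem_compl.2 hb, rfl⟩)
    have h2 : F (f b).1 (f b).2 = 1 := by
      simp only [hF]
      rw [if_pos h1]
    rcases hf2 b hb with h3 | h3
    · have h4 := le_fo F (f b).1 (f b).2
      rw [h2, h3] at h4
      omega
    · have h4 := le_fi F (f b).1 (f b).2
      rw [h2, h3] at h4
      omega
  · intro P Q hP _ _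
    have hPR : ∀ b ∈ P, b ∈ R := by
      intro b hb
      by_contra hbR
      have h1 := hP b hb hbR
      have h2 := hFi b
      omega
    have h2 : ∀ b ∈ P, pδ (6 + 1 + 0) 3 d F R b = 2 := by
      intro b hb
      unfold pδ
      rw [if_pos (hPR b hb), hd]
    rw [Finset.sum_congr rfl h2]
    simp

end MQ94
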