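import Pool.Agent.MQ94.KMain

/-!
# Module MQ-KS (MP_aaabe1_al, helper94): `K_main` for the leave

`K_main` with `V = S`, `a = L`, `N = n`, `s = 2 m - 2 - e` (natural subtraction; `m * s ≤ tot F`
by `hs`). With `2 r = n + 1 + e - m` the hypothesis `hcount` of `K_main` becomes, after expanding,
`3 (m + m e - m² + tot F + τ') = tot L + (n + 1 + e) e = 3 τ`. (Verified by hand; use `nlinarith` /
`ring_nf` over `ℤ` after substituting `2 r`.) `hcov`, `hev`: replace `2 r` by `n + 1 + e - m`.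
`hlink`: for `m = 1`: `n + 1 < 2 r + tot F + 1 = n + e + tot F + 1`.
-/

set_option autoImplicit false

namespace MQ94

theorem K_S {S : Type} [Fintype S] [DecidableEq S] (L F : S → S → ℕ) (d : S → ℕ)
    (n e r m τ τ' : ℕ) (g : S) (hn : Fintype.card S = n) (hm : 1 ≤ m)
    (hw : n + 1 + e = 2 * r + m)
    (hout : ∀ b, fo L b = d b) (hin : ∀ b, fi L b = d b)
    (hF : ∀ b c, F b c ≤ L b c) (hFo : ∀ b, fo F b ≤ m) (hFi : ∀ b, fi F b ≤ m)
    (hg : d g = m) (hgo : ∀ c, F g c = L g c) (hgi : ∀ c, F c g = L c g)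
    (hcov : ∀ b, d b + 2 * m ≤ n + 1 + e + (fo F b + fi F b))
    (hs : 2 * m * m ≤ tot F + 2 * m + m * e)
    (hτ : 3 * τ = tot L + (n + 1 + e) * e) (hτ' : τ' + tot F + m + m * e = τ + m * m)
    (heven : Even τ') (hsmall : r ≤ 2 → τ' = 0)
    (hlink : 3 ≤ m ∨ (m = 1 ∧ 0 < tot F + e) ∨ (2 ≤ m ∧ ∃ b0, b0 ≠ g ∧ fi F b0 = 0))
    (hev : ∀ P Q : Finset S, g ∉ P → g ∉ Q → (∀ b ∈ P, fi F b = m) → (∀ b ∈ Q, fo F b = m) →
      (∀ b c, F b c < L b c → (b ∈ P ↔ c ∈ Q)) →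
      (∀ b, b ≠ g → d b + 2 * m < n + 1 + e + (fo F b + fi F b) → (b ∈ P ↔ b ∈ Q)) →
      Even (∑ b ∈ P, (n + 1 + e + (fo F b + fi F b) - d b - 2 * m))) :
    TriDec (lev (n + 1 + e) (fun _ => 1) L) := by
  have hcount : 2 * r * n + 3 * tot F + m * (2 * r + 1) + 3 * τ' + 2 * r
      = 2 * r * (2 * r) + tot L + 2 * m * n + m * m := by
    zify at hw hτ hτ' ⊢
    have h2r : (2 : ℤ) * r = n + 1 + e - m := by linarith
    have hτ2 : (3 : ℤ) * τ' = 3 * τ + 3 * (m * m) - 3 * tot F - 3 * m - 3 * (m * e) := by linarith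
    rw [h2r]
    linear_combination hτ2 + hτ
  have hs1 : m * (2 * m - 2 - e) ≤ tot F := by
    by_cases h1 : 2 + e ≤ 2 * m
    · obtain ⟨x, hx⟩ := Nat.exists_eq_add_of_le h1
      have h2 : 2 * m - 2 - e = x := by omega
      rw [h2]
      have h3 : 2 * m * m = (2 + e + x) * m := by rw [hx]
      nlinarith
    · have h2 : 2 * m - 2 - e = 0 := by omega
      rw [h2, mul_zero]
      exact Nat.zero_le _
  refine hw ▸ K_main L F d n r m (2 * m - 2 - e) τ' g hn hm hout hin hF hFo hFi hg hgo hgi ?_ hs1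
    (by omega) heven hsmall hcount ?_ ?_
  · intro b
    have := hcov b
    omega
  · rcases hlink with h | h | h
    · exact Or.inl h
    · refine Or.inr (Or.inl ⟨h.1, ?_⟩)
      omega
    · exact Or.inr (Or.inr h)
  · intro P Q h1 h2 h3 h4 h5 h6
    have h7 := hev P Q h1 h2 h3 h4 h5 fun b hb hlt => h6 b hb (by omega)
    have h8 : ∑ b ∈ P, (2 * r + (fo F b + fi F b) - d b - m)
        = ∑ b ∈ P, (n + 1 + e + (fo F b + fi F b) - d b - 2 * m) := by
      refine Finset.sum_congr rfl fun b _ => ?_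
      have := hcov b
      omega
    rw [h8]
    exact h7

end MQ94
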