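import Pool.Agent.MQ94.Leave
import Pool.Agent.MQ94.KS

/-!
# Module MQ-CK1 (MP_aaabe1_al, helper94): a vertex of degree 1, `w = n + 1 + e` odd

`m = 1`, `2 r = n + e`, `K_S` (KS.lean). Let `g → x`, `y → g` be the arcs at `g` (`x, y ≠ g`).
`τ' = τ - e - tot F`.
* If `τ + e` is even: `F = U g x + U y g`, `tot F = 2`.
  `τ ≥ 2 + e`: `tot L ≥ 2`; `e = 0`: `3 τ = tot L > 0` and `τ` even give `τ ≥ 2`; `e = 1`: `n ≥ 5`
  (`n + e` even), `3 τ = tot L + n + 2 ≥ 9`.
* If `τ + e` is odd: `tot L` is odd (`3 τ = tot L + (n+1+e) e`; for `e = 1`, `n + 2` is odd), so by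
  `IsLeave.star` there is an arc `b → c` with `b ≠ g, y` and `c ≠ g, x`.
  `F = U g x + U y g + U b c`, `tot F = 3`. `τ ≥ 3 + e`: `e = 1`: `τ` even and `≥ 3`. `e = 0`: `τ` odd,
  so `τ ≥ 3` unless `τ = 1`, `tot L = 3`; then `F = L` (`F ≤ L`, equal totals), and at the vertex
  `x`: in-degree `1` (`x ≠ g, c`), so out-degree `1`, so `x = y` or `x = b`; if `x = y`: the vertex `c`
  has in-degree `1` so `c ∈ {g, y, b}`, impossible (`c ≠ g`, `c ≠ x = y`, `c ≠ b`); so `x = b`, and `c`
  has out-degree `1`, `c ∈ {g, y, b}`, so `c = y`, and `g → x → y → g` is a directed triangle.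
* Small case: `r ≤ 2` means `n = 4`, `e = 0` (`n + e ≤ 4`). `tot L ≤ 1 + 3 * 3 = 10`
  (`deg_lt`), so `τ ≤ 3`: `τ' = 0` in both cases.
* `hcov`: `d b + 2 ≤ n + 1` by `deg_lt`.
* `hlink`: `m = 1`, `tot F + e > 0`.
* `hev`: `P ⊆ {fi F = 1}`, `Q ⊆ {fo F = 1}`, `g ∉ P, Q`. If `b ∈ P` then
  `d b + 2 ≤ n + 1 < n + 1 + e + (fo F b + fi F b)`, so `b ∈ Q`; the same for `b ∈ Q`. So `P = Q`,
  every `p ∈ P` has `fo F p = fi F p = 1`. If `P` had two elements `p ≠ p'` then
  `{p, p'} = {x, c} = {y, b}` (heads and tails other than `g`), so (`x ≠ c`, `b ≠ c`, loops are not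
  arcs) `x = b`, `c = y`: directed triangle `g → x → y → g`. If `P = {p}`: an arc `p → c'` not in `F`
  would have `c' ∈ Q = P`, `c' = p`, a loop. So `F p c' = L p c'` for all `c'`, `d p = fo F p = 1`,
  and the sum is `n + 1 + e + 2 - 1 - 2 = n + e`, even.
-/

set_option autoImplicit false

namespace MQ94

open IsLeave

section K1

variable {S : Type} [Fintype S] [DecidableEq S] {L : S → S → ℕ} {d : S → ℕ} {n e τ : ℕ}

private theorem k1_tot (h : IsLeave L d n e τ) {g : S} (hg : d g = 1) (hn : n = 4) :
    tot L ≤ 10 := by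
  have h0 : tot L = ∑ b, d b := by
    rw [tot_eq_sum_fo]
    exact Finset.sum_congr rfl fun b _ => h.out b
  rw [h0, ← Finset.add_sum_erase _ _ (Finset.mem_univ g), hg]
  have h1 : ∑ b ∈ Finset.univ.erase g, d b ≤ ∑ _b ∈ Finset.univ.erase g, 3 :=
    Finset.sum_le_sum fun b _ => by have := h.deg_lt b; omega
  rw [Finset.sum_const, smul_eq_mul] at h1
  have h2 := Finset.card_erase_add_one (Finset.mem_univ g)
  rw [Finset.card_univ, h.card] at h2
  omega

private theorem k1_fin (h : IsLeave L d n e τ) (hn : 4 ≤ n) (hpar : Even (n + e)) {g : S}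
    (hg : d g = 1) (F : S → S → ℕ) (hF : ∀ b c, F b c ≤ L b c)
    (hgo : ∀ c, F g c = L g c) (hgi : ∀ c, F c g = L c g)
    (hfo : ∀ b, fo F b ≤ 1) (hfi : ∀ b, fi F b ≤ 1)
    (ht0 : 2 ≤ tot F) (ht : tot F + e ≤ τ) (hev : Even (τ + e + tot F)) (ht4 : n = 4 → τ ≤ tot F + 1)
    (huniq : ∀ p q, p ≠ g → q ≠ g → fo F p = 1 → fi F p = 1 → fo F q = 1 → fi F q = 1 → p = q) :
    TriDec (lev (n + 1 + e) (fun _ => 1) L) := by
  have he := h.he
  have hτ := h.hτ
  obtain ⟨r, hr⟩ : ∃ r, n + e = 2 * r := by
    obtain ⟨r, hr⟩ := hpar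
    exact ⟨r, by omega⟩
  have hev' : Even (τ - e - tot F) := by
    rw [Nat.even_iff] at hev ⊢
    omega
  refine K_S L F d n e r 1 τ (τ - e - tot F) g h.card (le_refl _) (by omega) h.out h.inn hF
    hfo hfi hg hgo hgi ?_ (by omega) h.hτ (by omega) hev' ?_
    (Or.inr (Or.inl ⟨rfl, by omega⟩)) ?_
  · intro b
    have := h.deg_lt b
    omega
  · intro hr2
    have h1 : n = 4 := by omega
    have h2 := ht4 h1
    rw [Nat.even_iff] at hev'
    omega
  · intro P Q hgP hgQ hP hQ harc hloop
    have h1 : ∀ b, b ∈ P → b ∈ Q := by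
      intro b hb
      have hbg : b ≠ g := fun h0 => hgP (h0 ▸ hb)
      have h2 := hP b hb
      have h3 := h.deg_lt b
      exact (hloop b hbg (by omega)).1 hb
    have h2 : ∀ b, b ∈ Q → b ∈ P := by
      intro b hb
      have hbg : b ≠ g := fun h0 => hgQ (h0 ▸ hb)
      have h2 := hQ b hb
      have h3 := h.deg_lt b
      exact (hloop b hbg (by omega)).2 hb
    rcases P.eq_empty_or_nonempty with h3 | ⟨p, hp⟩
    · rw [h3, Finset.sum_empty]
      exact Even.zero
    · have hpg : p ≠ g := fun h0 => hgP (h0 ▸ hp)
      have h4 : P = {p} := by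
        ext q
        rw [Finset.mem_singleton]
        constructor
        · intro hq
          have hqg : q ≠ g := fun h0 => hgP (h0 ▸ hq)
          exact huniq q p hqg hpg (hQ q (h1 q hq)) (hP q hq) (hQ p (h1 p hp)) (hP p hp)
        · rintro rfl
          exact hp
      have h5 : ∀ c, F p c = L p c := by
        intro c
        by_contra hne
        have h6 := hF p c
        have h7 : c ∈ P := h2 c ((harc p c (by omega)).1 hp)
        rw [h4, Finset.mem_singleton] at h7
        rw [h7, h.irrefl p] at hne h6
        omega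
      have h6 : fo F p = d p := by
        rw [← h.out p]
        unfold fo
        exact Finset.sum_congr rfl fun c _ => h5 c
      have h7 := hQ p (h1 p hp)
      have h8 := hP p hp
      rw [h4, Finset.sum_singleton, h7, h8, ← h6, h7]
      refine ⟨r, ?_⟩
      omega

end K1

theorem caseK1 {S : Type} [Fintype S] [DecidableEq S] {L : S → S → ℕ} {d : S → ℕ} {n e τ : ℕ}
    (h : IsLeave L d n e τ) (hn : 4 ≤ n) (hpar : Even (n + e)) (g : S) (hg : d g = 1) :
    TriDec (lev (n + 1 + e) (fun _ => 1) L) := by
  have he := h.he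
  have hτ := h.hτ
  obtain ⟨x, hx⟩ : ∃ x, L g x ≠ 0 := h.leave_exists_out (by omega)
  obtain ⟨y, hy⟩ : ∃ y, L y g ≠ 0 := by
    have h1 := card_inN h g
    obtain ⟨b, hb⟩ := Finset.card_pos.1 (show 0 < (inN L g).card by omega)
    exact ⟨b, leave_mem_inN.1 hb⟩
  have hxg : x ≠ g := by
    rintro rfl
    exact hx (h.irrefl x)
  have hyg : y ≠ g := by
    rintro rfl
    exact hy (h.irrefl y)
  have hgx : ∀ c, L g c = if c = x then 1 else 0 := by
    intro c
    by_cases hc : c = x
    · rw [if_pos hc, hc]
      have := h.le_one g x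
      omega
    · rw [if_neg hc]
      by_contra h0
      exact hc (leave_two_out h hg h0 hx)
  have hyg' : ∀ c, L c g = if c = y then 1 else 0 := by
    intro c
    by_cases hc : c = y
    · rw [if_pos hc, hc]
      have := h.le_one y g
      omega
    · rw [if_neg hc]
      by_contra h0
      exact hc (leave_two_in h hg h0 hy)
  have h4 : n = 4 → τ ≤ 3 + e := by
    intro h0
    have hp := hpar
    rw [Nat.even_iff] at hp
    have h1 := k1_tot h hg h0
    rcases Nat.lt_or_ge 0 e with h2 | h2
    · have h3 : e = 1 := by omega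
      subst h3
      omega
    · have h3 : e = 0 := by omega
      subst h3
      omega
  by_cases hpt : Even (τ + e)
  · -- `F = U g x + U y g`
    have hfo : ∀ b, fo (fun p q => U g x p q + U y g p q) b
        = (if b = g then 1 else 0) + (if b = y then 1 else 0) := by
      intro b
      rw [fo_add, fo_U, fo_U]
    have hfi : ∀ b, fi (fun p q => U g x p q + U y g p q) b
        = (if b = x then 1 else 0) + (if b = g then 1 else 0) := by
      intro b
      rw [fi_add, fi_U, fi_U]
    have ht : tot (fun p q => U g x p q + U y g p q) = 2 := by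
      rw [tot_add, tot_U, tot_U]
    have hle : ∀ b c, U g x b c + U y g b c ≤ L b c := by
      intro b c
      unfold U
      by_cases h1 : b = g ∧ c = x
      · rw [if_pos h1, if_neg (fun h2 => hyg (h2.1.symm.trans h1.1)), h1.1, h1.2]
        exact Nat.one_le_iff_ne_zero.2 hx
      · rw [if_neg h1]
        by_cases h2 : b = y ∧ c = g
        · rw [if_pos h2, h2.1, h2.2]
          omega
        · rw [if_neg h2]
          exact Nat.zero_le _
    have htL : 2 ≤ tot L := by
      rw [← ht]
      exact tot_mono hle
    have hτ2 : 2 + e ≤ τ := by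
      rw [Nat.even_iff] at hpt hpar
      rcases Nat.lt_or_ge 0 e with h2 | h2
      · have h3 : e = 1 := by omega
        subst h3
        omega
      · have h3 : e = 0 := by omega
        subst h3
        omega
    refine k1_fin h hn hpar hg (fun p q => U g x p q + U y g p q) hle ?_ ?_ ?_ ?_ ?_ ?_ ?_ ?_ ?_
    · intro c
      show U g x g c + U y g g c = L g c
      rw [hgx]
      unfold U
      rw [if_neg (fun h2 : g = y ∧ c = g => hyg h2.1.symm)]
      simp
    · intro c
      show U g x c g + U y g c g = L c g
      rw [hyg']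
      unfold U
      rw [if_neg (fun h2 : c = g ∧ g = x => hxg h2.2.symm)]
      simp
    · intro b
      rw [hfo]
      by_cases h1 : b = g
      · rw [if_pos h1, if_neg (fun h2 => hyg (h2.symm.trans h1))]
      · rw [if_neg h1]
        split_ifs <;> omega
    · intro b
      rw [hfi]
      by_cases h1 : b = g
      · rw [if_pos h1, if_neg (fun h2 => hxg (h2.symm.trans h1))]
      · rw [if_neg h1]
        split_ifs <;> omega
    · rw [ht]
    · rw [ht]; exact hτ2
    · rw [ht]
      rw [Nat.even_iff] at hpt ⊢
      omega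
    · rw [ht]
      intro h0
      have h1 := h4 h0
      rw [Nat.even_iff] at hpt hpar
      omega
    · intro p q hp hq _ h1 _ h2
      rw [hfi, if_neg hp] at h1
      rw [hfi, if_neg hq] at h2
      have h3 : p = x := by
        by_contra h0
        rw [if_neg h0] at h1
        omega
      have h5 : q = x := by
        by_contra h0
        rw [if_neg h0] at h2
        omega
      rw [h3, h5]
  · -- one further arc
    have hodd : ¬ Even (tot L) := by
      rw [Nat.even_iff] at hpt hpar ⊢
      rcases Nat.lt_or_ge 0 e with h2 | h2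
      · have h3 : e = 1 := by omega
        subst h3
        omega
      · have h3 : e = 0 := by omega
        subst h3
        omega
    obtain ⟨b, c, hbc, hb1, hb2, hc1, hc2⟩ : ∃ b c, L b c ≠ 0 ∧ b ≠ g ∧ b ≠ y ∧ c ≠ g ∧ c ≠ x := by
      by_contra hcon
      push Not at hcon
      refine hodd (h.star hg hx hy ?_)
      intro b c hbc
      by_contra hno
      rw [not_or, not_or, not_or] at hno
      exact hno.2.2.2 (hcon b c hbc hno.1 hno.2.1 hno.2.2.1)
    have hne : b ≠ c := by
      rintro rfl
      exact hbc (h.irrefl b)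
    have hfo : ∀ z, fo (fun p q => U g x p q + U y g p q + U b c p q) z
        = (if z = g then 1 else 0) + (if z = y then 1 else 0) + (if z = b then 1 else 0) := by
      intro z
      rw [fo_add, fo_add, fo_U, fo_U, fo_U]
    have hfi : ∀ z, fi (fun p q => U g x p q + U y g p q + U b c p q) z
        = (if z = x then 1 else 0) + (if z = g then 1 else 0) + (if z = c then 1 else 0) := by
      intro z
      rw [fi_add, fi_add, fi_U, fi_U, fi_U]
    have ht : tot (fun p q => U g x p q + U y g p q + U b c p q) = 3 := by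
      rw [tot_add, tot_add, tot_U, tot_U, tot_U]
    have hle : ∀ p q, U g x p q + U y g p q + U b c p q ≤ L p q := by
      intro p q
      unfold U
      by_cases h1 : p = g ∧ q = x
      · rw [if_pos h1, if_neg (fun h2 => hyg (h2.1.symm.trans h1.1)),
          if_neg (fun h2 => hb1 (h2.1.symm.trans h1.1)), h1.1, h1.2]
        omega
      · rw [if_neg h1]
        by_cases h2 : p = y ∧ q = g
        · rw [if_pos h2, if_neg (fun h3 => hb2 (h3.1.symm.trans h2.1)), h2.1, h2.2]
          omega
        · rw [if_neg h2]
          by_cases h3 : p = b ∧ q = c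
          · rw [if_pos h3, h3.1, h3.2]
            omega
          · rw [if_neg h3]
            exact Nat.zero_le _
    have htL : 3 ≤ tot L := by
      rw [← ht]
      exact tot_mono hle
    have hnotri : ¬ (x = b ∧ c = y) := by
      rintro ⟨h1, h2⟩
      refine h.tri g x y hx ?_ hy
      rw [h1, ← h2]
      exact hbc
    -- the case `L = F`
    have hLF : tot L ≠ 3 := by
      intro h3
      have hfoL : ∀ z, fo (fun p q => U g x p q + U y g p q + U b c p q) z = d z := by
        have h5 : ∀ z, fo (fun p q => U g x p q + U y g p q + U b c p q) z ≤ fo L z :=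
          fun z => fo_mono hle z
        have h6 : ∑ z, fo (fun p q => U g x p q + U y g p q + U b c p q) z = ∑ z, fo L z := by
          rw [← tot_eq_sum_fo, ← tot_eq_sum_fo, ht, h3]
        intro z
        rw [← h.out z]
        exact (Finset.sum_eq_sum_iff_of_le fun z _ => h5 z).1 h6 z (Finset.mem_univ z)
      have hfiL : ∀ z, fi (fun p q => U g x p q + U y g p q + U b c p q) z = d z := by
        have h5 : ∀ z, fi (fun p q => U g x p q + U y g p q + U b c p q) z ≤ fi L z :=
          fun z => fi_mono hle z
        have h6 : ∑ z, fi (fun p q => U g x p q + U y g p q + U b c p q) z = ∑ z, fi L z := by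
          rw [← tot_eq_sum_fi, ← tot_eq_sum_fi, ht, h3]
        intro z
        rw [← h.inn z]
        exact (Finset.sum_eq_sum_iff_of_le fun z _ => h5 z).1 h6 z (Finset.mem_univ z)
      have h5 : ∀ z, z ≠ g → (z = x ∨ z = c) → (z = y ∨ z = b) := by
        intro z hz h6
        have h7 := hfoL z
        have h8 := hfiL z
        rw [hfo, if_neg hz] at h7
        rw [hfi, if_neg hz] at h8
        by_contra h9
        rw [not_or] at h9
        rw [if_neg h9.1, if_neg h9.2] at h7
        rcases h6 with h6 | h6
        · rw [if_pos h6] at h8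
          omega
        · rw [if_pos h6] at h8
          omega
      have h6 := h5 c hc1 (Or.inr rfl)
      have h7 := h5 x hxg (Or.inl rfl)
      rcases h6 with h6 | h6
      · rcases h7 with h7 | h7
        · exact hc2 (h6.trans h7.symm)
        · exact hnotri ⟨h7, h6⟩
      · exact hne h6.symm
    have hτ2 : 3 + e ≤ τ := by
      rw [Nat.even_iff] at hpt hpar
      rcases Nat.lt_or_ge 0 e with h2 | h2
      · have h3 : e = 1 := by omega
        subst h3
        omega
      · have h3 : e = 0 := by omega
        subst h3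
        omega
    refine k1_fin h hn hpar hg (fun p q => U g x p q + U y g p q + U b c p q) hle ?_ ?_ ?_ ?_ ?_
      ?_ ?_ ?_ ?_
    · intro z
      show U g x g z + U y g g z + U b c g z = L g z
      rw [hgx]
      unfold U
      rw [if_neg (fun h2 : g = y ∧ z = g => hyg h2.1.symm),
        if_neg (fun h2 : g = b ∧ z = c => hb1 h2.1.symm)]
      simp
    · intro z
      show U g x z g + U y g z g + U b c z g = L z g
      rw [hyg']
      unfold U
      rw [if_neg (fun h2 : z = g ∧ g = x => hxg h2.2.symm),
        if_neg (fun h2 : z = b ∧ g = c => hc1 h2.2.symm)]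
      simp
    · intro z
      rw [hfo]
      by_cases h1 : z = g
      · rw [if_pos h1, if_neg (fun h2 => hyg (h2.symm.trans h1)),
          if_neg (fun h2 => hb1 (h2.symm.trans h1))]
      · rw [if_neg h1]
        by_cases h2 : z = y
        · rw [if_pos h2, if_neg (fun h3 => hb2 (h3.symm.trans h2))]
        · rw [if_neg h2]
          split_ifs <;> omega
    · intro z
      rw [hfi]
      by_cases h1 : z = g
      · rw [if_pos h1, if_neg (fun h2 => hxg (h2.symm.trans h1)),
          if_neg (fun h2 => hc1 (h2.symm.trans h1))]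
      · rw [if_neg h1]
        by_cases h2 : z = x
        · rw [if_pos h2, if_neg (fun h3 => hc2 (h3.symm.trans h2))]
        · rw [if_neg h2]
          split_ifs <;> omega
    · rw [ht]; norm_num
    · rw [ht]; exact hτ2
    · rw [ht]
      rw [Nat.even_iff] at hpt ⊢
      omega
    · rw [ht]
      intro h0
      have h1 := h4 h0
      rw [Nat.even_iff] at hpt hpar
      omega
    · intro p q hp hq h1 h2 h3 h5
      rw [hfo, if_neg hp] at h1
      rw [hfi, if_neg hp] at h2
      rw [hfo, if_neg hq] at h3
      rw [hfi, if_neg hq] at h5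
      by_contra hpq
      have a1 : p = y ∨ p = b := by
        by_contra h0
        rw [not_or] at h0
        rw [if_neg h0.1, if_neg h0.2] at h1
        omega
      have a2 : p = x ∨ p = c := by
        by_contra h0
        rw [not_or] at h0
        rw [if_neg h0.1, if_neg h0.2] at h2
        omega
      have a3 : q = y ∨ q = b := by
        by_contra h0
        rw [not_or] at h0
        rw [if_neg h0.1, if_neg h0.2] at h3
        omega
      have a4 : q = x ∨ q = c := by
        by_contra h0
        rw [not_or] at h0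
        rw [if_neg h0.1, if_neg h0.2] at h5
        omega
      rcases a1 with a1 | a1 <;> rcases a2 with a2 | a2 <;> rcases a3 with a3 | a3 <;>
        rcases a4 with a4 | a4
      · exact hpq (a1.trans a3.symm)
      · exact hpq (a1.trans a3.symm)
      · exact hpq (a2.trans a4.symm)
      · exact hne (a3.symm.trans a4)
      · exact hpq (a1.trans a3.symm)
      · exact hpq (a1.trans a3.symm)
      · exact hnotri ⟨a4.symm.trans a3, a2.symm.trans a1⟩
      · exact hne (a3.symm.trans a4)
      · exact hpq (a2.trans a4.symm)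
      · exact hnotri ⟨a2.symm.trans a1, a4.symm.trans a3⟩
      · exact hpq (a1.trans a3.symm)
      · exact hpq (a1.trans a3.symm)
      · exact hne (a1.symm.trans a2)
      · exact hne (a1.symm.trans a2)
      · exact hpq (a1.trans a3.symm)
      · exact hpq (a1.trans a3.symm)

end MQ94
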