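import Pool.Agent.MQ94.Leave
import Pool.Agent.MQ94.KS

/-!
# Module MQ-CK2 (MP_aaabe1_al, helper94): minimum degree 2, `w = n + 1 + e` even, `n ≥ 7`

`m = 2`, `2 r = n + e - 1`, `K_S` (KS.lean). `Fg b c = if b = g ∨ c = g then L b c else 0`:
`fo Fg b = if b = g then 2 else L b g`, `fi Fg b = if b = g then 2 else L g b`, `tot Fg = 4`.
`N⁺(g) = {c1, c2}`. `τ' = τ + 2 - 2 e - tot F`.
* `τ` even: `F = Fg`. `τ` odd: `F = Fg + U b c` where `c ∉ {g, c1, c2}` and `b → c` (so `b ≠ g` and
  `Fg b c = 0`). `tot F ≤ 5 ≤ τ + 2 - 2 e`: `3 τ ≥ 2 n ≥ 14`, for `e = 1` `3 τ ≥ 3 n + 2 ≥ 23`.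
* `r ≥ 3` because `n + e - 1 ≥ 6`.
* `hFo`: `fo F b ≤ 1 + 1`; `hFi`: `fi F b ≤ 1` for `b ≠ g`.
* `hcov`: `d b + 4 ≤ n + 1 + e + (fo F b + fi F b)`: `d b ≤ n - 2` by `adj` (`b` has a neighbour of
  degree `≥ 2`). Fine if `d b ≤ n - 3` or `e = 1`. If `d b = n - 2` then `b` is adjacent to `g` in some
  direction: otherwise `N⁺(b) = N⁻(b) = S \ {b, g}`; for each `x` in it `d x = 2`, `b → x` is tight
  (`tightT` with `T = univ`), so `x → g` because `g → b` does not hold; hence `d g ≥ n - 2 > 2`, a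
  contradiction.
* `hlink`: `2 ≤ m` and `b0 ∉ {g, c1, c2, c}`. `hev`: `fi F b ≤ 1` for `b ≠ g`, so `P = ∅`.
-/

set_option autoImplicit false

namespace MQ94

open IsLeave

section K2

variable {S : Type} [Fintype S] [DecidableEq S] {L : S → S → ℕ} {d : S → ℕ} {n e τ : ℕ}

private theorem k2_deg (h : IsLeave L d n e τ) (hmin : ∀ b, 2 ≤ d b) (b : S) : d b + 2 ≤ n := by
  obtain ⟨c, hc⟩ := h.leave_exists_out (b := b) (by have := hmin b; omega)
  have h1 := h.adj hc
  have h2 := hmin c
  omega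

private theorem k2_adj (h : IsLeave L d n e τ) (hn : 7 ≤ n) (hmin : ∀ b, 2 ≤ d b) {g : S}
    (hg : d g = 2) {b : S} (hbg : b ≠ g) (hd : d b + 2 = n) : 1 ≤ L b g + L g b := by
  by_contra hcon
  have h1 : L b g = 0 := by omega
  have h2 : L g b = 0 := by omega
  have hsub : outN L b ⊆ (Finset.univ.erase b).erase g := by
    intro x hx
    rw [leave_mem_outN] at hx
    refine Finset.mem_erase.2 ⟨?_, Finset.mem_erase.2 ⟨?_, Finset.mem_univ _⟩⟩
    · rintro rfl
      exact hx h1
    · rintro rfl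
      exact hx (h.irrefl x)
  have hc1 : ((Finset.univ.erase b).erase g).card + 2 = n := by
    have e1 := Finset.card_erase_add_one (s := Finset.univ.erase b) (a := g)
      (Finset.mem_erase.2 ⟨Ne.symm hbg, Finset.mem_univ _⟩)
    have e2 := Finset.card_erase_add_one (Finset.mem_univ b)
    rw [Finset.card_univ, h.card] at e2
    omega
  have heq : outN L b = (Finset.univ.erase b).erase g := by
    apply Finset.eq_of_subset_of_card_le hsub
    rw [card_outN h]
    omega
  have hsub2 : outN L b ⊆ inN L g := by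
    intro x hx
    rw [leave_mem_outN] at hx
    rw [leave_mem_inN]
    have h3 := h.adj hx
    have h4 := hmin x
    have h5 := h.tightT Finset.univ (fun y hy => absurd (Finset.mem_univ y) hy) hx
      (by rw [Finset.card_univ, h.card]; omega) (Finset.mem_univ g)
    exact h5.2 h2
  have h3 := Finset.card_le_card hsub2
  rw [card_outN h, card_inN h, hg] at h3
  omega

private theorem k2_fin (h : IsLeave L d n e τ) (hn : 7 ≤ n) (hpar : Odd (n + e))
    (hmin : ∀ b, 2 ≤ d b) {g : S} (hg : d g = 2) (F : S → S → ℕ) (hF : ∀ b c, F b c ≤ L b c)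
    (hgo : ∀ c, F g c = L g c) (hgi : ∀ c, F c g = L c g)
    (hb : ∀ b, b ≠ g → fo F b ≤ 2 ∧ fi F b ≤ 1 ∧ L b g + L g b ≤ fo F b + fi F b)
    (ht1 : 4 ≤ tot F) (ht2 : tot F ≤ 5) (hev : Even (τ + tot F)) (b0 : S) (hb0 : b0 ≠ g)
    (hfb0 : fi F b0 = 0) : TriDec (lev (n + 1 + e) (fun _ => 1) L) := by
  have he := h.he
  have hτ := h.hτ
  have hfog : fo F g = 2 := by
    rw [← hg, ← h.out g]
    unfold fo
    exact Finset.sum_congr rfl fun c _ => hgo c
  have hfig : fi F g = 2 := by
    rw [← hg, ← h.inn g]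
    unfold fi
    exact Finset.sum_congr rfl fun c _ => hgi c
  have htot : 2 * n ≤ tot L := by
    rw [tot_eq_sum_fo]
    calc 2 * n = ∑ _b : S, 2 := by
          rw [Finset.sum_const, Finset.card_univ, h.card, smul_eq_mul, mul_comm]
      _ ≤ ∑ b, fo L b := Finset.sum_le_sum fun b _ => by rw [h.out b]; exact hmin b
  obtain ⟨r, hr⟩ : ∃ r, n + e = 2 * r + 1 := hpar
  have hτ5 : tot F + 2 * e ≤ τ + 2 := by
    rcases Nat.lt_or_ge 0 e with h0 | h0
    · have he1 : e = 1 := by omega
      subst he1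
      omega
    · have he0 : e = 0 := by omega
      subst he0
      omega
  refine K_S L F d n e r 2 τ (τ + 2 - 2 * e - tot F) g h.card (by omega) (by omega) h.out h.inn hF
    ?_ ?_ hg hgo hgi ?_ (by omega) h.hτ (by omega) ?_ (by omega)
    (Or.inr (Or.inr ⟨le_refl _, b0, hb0, hfb0⟩)) ?_
  · intro b
    by_cases hbg : b = g
    · rw [hbg, hfog]
    · exact (hb b hbg).1
  · intro b
    by_cases hbg : b = g
    · rw [hbg, hfig]
    · exact (hb b hbg).2.1.trans (by norm_num)
  · intro b
    by_cases hbg : b = g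
    · rw [hbg, hfog, hfig, hg]
      omega
    · have h1 := k2_deg h hmin b
      have h2 := (hb b hbg).2.2
      rcases Nat.lt_or_ge (d b + 2) n with h3 | h3
      · omega
      · have h4 := k2_adj h hn hmin hg hbg (by omega)
        omega
  · rw [Nat.even_iff] at hev ⊢
    omega
  · intro P Q hgP hgQ hP hQ harc hloop
    have hPe : P = ∅ := by
      rw [Finset.eq_empty_iff_forall_notMem]
      intro b hbP
      have hbg : b ≠ g := fun h0 => hgP (h0 ▸ hbP)
      have h1 := hP b hbP
      have h2 := (hb b hbg).2.1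
      omega
    rw [hPe, Finset.sum_empty]
    exact Even.zero

private def k2F (L : S → S → ℕ) (g : S) : S → S → ℕ :=
  fun b c => if b = g ∨ c = g then L b c else 0

private theorem k2F_fo_g (h : IsLeave L d n e τ) {g : S} (hg : d g = 2) :
    fo (k2F L g) g = 2 := by
  rw [← hg, ← h.out g]
  unfold fo k2F
  exact Finset.sum_congr rfl fun c _ => by simp

private theorem k2F_fi_g (h : IsLeave L d n e τ) {g : S} (hg : d g = 2) :
    fi (k2F L g) g = 2 := by
  rw [← hg, ← h.inn g]
  unfold fi k2F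
  exact Finset.sum_congr rfl fun c _ => by simp

private theorem k2F_fo {g b : S} (hb : b ≠ g) : fo (k2F L g) b = L b g := by
  unfold fo k2F
  simp [hb]

private theorem k2F_fi {g b : S} (hb : b ≠ g) : fi (k2F L g) b = L g b := by
  unfold fi k2F
  simp [hb]

private theorem k2F_tot (h : IsLeave L d n e τ) {g : S} (hg : d g = 2) :
    tot (k2F L g) = 4 := by
  rw [tot_eq_sum_fo, ← Finset.add_sum_erase _ _ (Finset.mem_univ g), k2F_fo_g h hg]
  have h1 : ∑ b ∈ Finset.univ.erase g, fo (k2F L g) b = ∑ b ∈ Finset.univ.erase g, L b g :=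
    Finset.sum_congr rfl fun b hb => k2F_fo (Finset.ne_of_mem_erase hb)
  have h2 : L g g + ∑ b ∈ Finset.univ.erase g, L b g = ∑ b, L b g :=
    Finset.add_sum_erase _ (fun b => L b g) (Finset.mem_univ g)
  have h3 := h.inn g
  have h4 := h.irrefl g
  unfold fi at h3
  rw [h1]
  omega

end K2

theorem caseK2 {S : Type} [Fintype S] [DecidableEq S] {L : S → S → ℕ} {d : S → ℕ} {n e τ : ℕ}
    (h : IsLeave L d n e τ) (hn : 7 ≤ n) (hpar : Odd (n + e)) (hmin : ∀ b, 2 ≤ d b) (g : S)
    (hg : d g = 2) : TriDec (lev (n + 1 + e) (fun _ => 1) L) := by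
  have hex : ∀ T : Finset S, T.card ≤ 4 → ∃ x, x ∉ T := by
    intro T hT
    by_contra hcon
    push Not at hcon
    have h1 : Finset.univ ⊆ T := fun x _ => hcon x
    have h2 := Finset.card_le_card h1
    rw [Finset.card_univ, h.card] at h2
    omega
  have hN : (outN L g).card = 2 := by rw [card_outN h, hg]
  obtain ⟨c, hc⟩ := hex (insert g (outN L g)) ((Finset.card_insert_le _ _).trans (by omega))
  obtain ⟨b0, hb0⟩ := hex (insert c (insert g (outN L g)))
    ((Finset.card_insert_le _ _).trans (by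
      have := Finset.card_insert_le g (outN L g)
      omega))
  rw [Finset.mem_insert, not_or, leave_mem_outN, not_not] at hc
  rw [Finset.mem_insert, not_or, Finset.mem_insert, not_or, leave_mem_outN, not_not] at hb0
  obtain ⟨hcg, hgc⟩ := hc
  obtain ⟨hb0c, hb0g, hgb0⟩ := hb0
  obtain ⟨b, hb⟩ : ∃ b, L b c ≠ 0 := by
    have h1 := card_inN h c
    have h2 := hmin c
    obtain ⟨b, hb⟩ := Finset.card_pos.1 (show 0 < (inN L c).card by omega)
    exact ⟨b, leave_mem_inN.1 hb⟩
  have hbg : b ≠ g := by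
    rintro rfl
    exact hb hgc
  have hbc : b ≠ c := by
    rintro rfl
    exact hb (h.irrefl b)
  by_cases hpt : Even τ
  · refine k2_fin h hn hpar hmin hg (k2F L g) ?_ ?_ ?_ ?_ ?_ ?_ ?_ b0 hb0g ?_
    · intro x y
      unfold k2F
      split_ifs
      · exact le_refl _
      · exact Nat.zero_le _
    · intro y
      simp [k2F]
    · intro y
      simp [k2F]
    · intro x hx
      have h1 := h.le_one x g
      have h2 := h.le_one g x
      rw [k2F_fo hx, k2F_fi hx]
      omega
    · rw [k2F_tot h hg]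
    · rw [k2F_tot h hg]; norm_num
    · rw [k2F_tot h hg]
      rw [Nat.even_iff] at hpt ⊢
      omega
    · rw [k2F_fi hb0g, hgb0]
  · have hfo : ∀ x, fo (fun p q => k2F L g p q + U b c p q) x
        = fo (k2F L g) x + if x = b then 1 else 0 := by
      intro x
      rw [fo_add, fo_U]
    have hfi : ∀ x, fi (fun p q => k2F L g p q + U b c p q) x
        = fi (k2F L g) x + if x = c then 1 else 0 := by
      intro x
      rw [fi_add, fi_U]
    have htF : tot (fun p q => k2F L g p q + U b c p q) = 5 := by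
      rw [tot_add, tot_U, k2F_tot h hg]
    refine k2_fin h hn hpar hmin hg (fun p q => k2F L g p q + U b c p q) ?_ ?_ ?_ ?_ ?_ ?_ ?_
      b0 hb0g ?_
    · intro x y
      show k2F L g x y + U b c x y ≤ L x y
      unfold k2F U
      by_cases hxy : x = b ∧ y = c
      · rw [if_pos hxy, hxy.1, hxy.2, if_neg (not_or.2 ⟨hbg, hcg⟩)]
        omega
      · rw [if_neg hxy, add_zero]
        split_ifs
        · exact le_refl _
        · exact Nat.zero_le _
    · intro y
      show k2F L g g y + U b c g y = L g y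
      unfold k2F U
      rw [if_pos (Or.inl rfl), if_neg (fun h0 => hbg h0.1.symm), add_zero]
    · intro y
      show k2F L g y g + U b c y g = L y g
      unfold k2F U
      rw [if_pos (Or.inr rfl), if_neg (fun h0 => hcg h0.2.symm), add_zero]
    · intro x hx
      have h1 := h.le_one x g
      have h2 := h.le_one g x
      rw [hfo, hfi, k2F_fo hx, k2F_fi hx]
      by_cases hxc : x = c
      · subst hxc
        rw [if_neg (Ne.symm hbc), if_pos rfl]
        omega
      · rw [if_neg hxc]
        split_ifs <;> omega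
    · rw [htF]; norm_num
    · rw [htF]
    · rw [htF]
      rw [Nat.even_iff] at hpt ⊢
      omega
    · rw [hfi, k2F_fi hb0g, hgb0, if_neg hb0c]

end MQ94
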