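import Pool.Agent.MQ94.EX
import Pool.Agent.MQ94.KS

/-!
# Module MQ-CKEX (MP_aaabe1_al, helper94): minimum degree `m ≥ 3`, `n + 1 + e ≡ m (mod 2)`,
`n ≥ 3 m + 1` or `(m, n, e) = (3, 6, 0)`

`K_S` with `2 r = n + 1 + e - m`, `F` from `EX` with `ℓ b = (d b + 2 m - (n + e)) / 2` (natural
subtraction and division; this is the upper half of `ρ = d b - K`, `K = n + 1 + e - 2 m`),
`lo = 2 m² - 2 m - m e`, `hi = τ + m² - m - m e`. All degrees are at most `n - m` (`adj`).
* `hℓ1`: `ℓ b ≤ m / 2`. `hℓ3`: for `n ≥ 3 m + 1`, `ρ ≥ 1`: `2 ℓ ≤ ρ + 1`, `d b = K + ρ ≥ m + 2 + e + ρ`,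
  `3 (ρ + 1) ≤ 2 (m + 2 + ρ)` as `ρ ≤ m - 1 - e`. `hℓ2`: `n - d b - 1 = 2 m - 2 - e - ρ`;
  `(ρ + 1) (2 m - 2 - ρ) ≤ 2 (m + 2 + ρ) (m - 2)`, the difference is
  `2 m² - 2 m - 6 - ρ + ρ² > 0` for `m ≥ 3`. `(3, 6, 0)`: all degrees are `3`, `ℓ = 1`: `3 ≤ 3`,
  `1 * 2 ≤ 3 * 1`.
* `hhi`: `tot L + 4 m ≤ 3 hi = tot L + (n+1+e) e + 3 m² - 3 m - 3 m e`. `e = 0`: `7 m ≤ 3 m²` (for
  `m = 3`: `21 ≤ 27`). `e = 1` (`n ≥ 3 m + 1`): `10 m ≤ 3 m² + n + 2`.
* `lo ≤ hi`: `m² - m ≤ τ`: `3 τ ≥ m n ≥ 3 m² + m`; `(3,6,0)`: `τ = 6`.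
* Parity: if `hi - tot F₀` is even let `F = F₀`. Otherwise `tot F₀ < hi`; choose `c1 ≠ g` and an arc
  `b1 → c1` not in `F₀` (`fi F₀ c1 ≤ m - 1 < d c1`; `b1 ≠ g` because `F₀ = L` at `g`), `F = F₀ + U b1 c1`.
  `τ' = hi - tot F`.
* `hcov`: `d b + 2 m ≤ n + 1 + e + 2 ℓ b`. `hs`: `tot F ≥ lo`.
* `r ≤ 2`: only for `(3,6,0)` (`2 r ≥ 2 m + 2 ≥ 8` otherwise): `tot L = 18`, `τ = 6`, `hi = 12 = lo`,
  so `tot F₀ = 12`, `τ' = 0`.
* `hlink`: `3 ≤ m`. `hev`: `b ∈ P` has `fi F b = m`, `b ≠ g`, so `b = c1` (and the extra arc is used). Then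
  `d c1 + 2 m ≤ n + m < n + 1 + e + (fo F c1 + m)`, so `c1 ∈ Q`, `fo F c1 = m`; but
  `fo F c1 = fo F₀ c1 ≤ m - 1` as `b1 ≠ c1`. So `P = ∅`.
-/

set_option autoImplicit false

namespace MQ94

/-- the final application of `K_S` -/
private theorem kex_fin {S : Type} [Fintype S] [DecidableEq S] {L F : S → S → ℕ} {d : S → ℕ}
    {n e τ : ℕ} (h : IsLeave L d n e τ) (m r hi : ℕ) (hm : 3 ≤ m)
    (hdn : ∀ b, d b + m ≤ n) (hw : n + 1 + e = 2 * r + m) (g : S) (hg : d g = m)
    (hF : ∀ b c, F b c ≤ L b c) (hgo : ∀ c, F g c = L g c) (hgi : ∀ c, F c g = L c g)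
    (hb : ∀ b, b ≠ g → fo F b ≤ m ∧ fi F b ≤ m ∧ d b + 2 * m ≤ n + 1 + e + (fo F b + fi F b) ∧
      (fi F b = m → fo F b < m))
    (hs : 2 * m * m ≤ tot F + 2 * m + m * e) (hi1 : hi + m + m * e = τ + m * m)
    (hle : tot F ≤ hi) (heven : Even (hi - tot F)) (hsmall : r ≤ 2 → hi - tot F = 0) :
    TriDec (lev (n + 1 + e) (fun _ => 1) L) := by
  have hfog : fo F g = m := by
    rw [← hg, ← h.out g]
    unfold fo
    exact Finset.sum_congr rfl fun c _ => hgo c
  have hfig : fi F g = m := by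
    rw [← hg, ← h.inn g]
    unfold fi
    exact Finset.sum_congr rfl fun c _ => hgi c
  refine K_S L F d n e r m τ (hi - tot F) g h.card (by omega) hw h.out h.inn hF ?_ ?_ hg hgo hgi
    ?_ hs h.hτ (by omega) heven hsmall (Or.inl hm) ?_
  · intro b
    by_cases hbg : b = g
    · rw [hbg, hfog]
    · exact (hb b hbg).1
  · intro b
    by_cases hbg : b = g
    · rw [hbg, hfig]
    · exact (hb b hbg).2.1
  · intro b
    by_cases hbg : b = g
    · rw [hbg, hfog, hfig, hg]
      have := hdn g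
      omega
    · exact (hb b hbg).2.2.1
  · intro P Q hgP hgQ hP hQ harc hloop
    have hPe : P = ∅ := by
      rw [Finset.eq_empty_iff_forall_notMem]
      intro b hbP
      have hbg : b ≠ g := fun h0 => hgP (h0 ▸ hbP)
      have h1 := hP b hbP
      obtain ⟨h2, h3, h4, h5⟩ := hb b hbg
      have h6 := hdn b
      have h7 := h5 h1
      have h8 : b ∈ Q := (hloop b hbg (by omega)).1 hbP
      have h9 := hQ b h8
      omega
    rw [hPe, Finset.sum_empty]
    exact Even.zero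

private theorem kex_l2 {m n D ℓ e : ℕ} (hm : 3 ≤ m) (hn : 3 * m + 1 ≤ n) (hD : D + m ≤ n)
    (hℓ : 2 * ℓ + (n + e) ≤ D + 2 * m) :
    ℓ * (n - D - 1) ≤ D * (m - 2) := by
  obtain ⟨u, hu⟩ : ∃ u, n = D + u + 1 := ⟨n - D - 1, by omega⟩
  obtain ⟨k, hk⟩ : ∃ k, m = k + 2 := ⟨m - 2, by omega⟩
  have e1 : n - D - 1 = u := by omega
  have e2 : m - 2 = k := by omega
  rw [e1, e2]
  have hℓ' : 2 * ℓ + u + 1 ≤ 2 * m := by omega
  have hD' : 3 * m ≤ D + u := by omega
  have h1 : (2 * ℓ : ℤ) ≤ 2 * (k + 2) - 1 - u := by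
    have : (2 * ℓ + u + 1 : ℤ) ≤ 2 * m := by exact_mod_cast hℓ'
    rw [hk] at this
    push_cast at this
    linarith
  have h2 : (3 * (k + 2) : ℤ) - u ≤ D := by
    have : (3 * m : ℤ) ≤ D + u := by exact_mod_cast hD'
    rw [hk] at this
    push_cast at this
    linarith
  have hk1 : (1 : ℤ) ≤ k := by
    have : 1 ≤ k := by omega
    exact_mod_cast this
  have hu0 : (0 : ℤ) ≤ u := Int.natCast_nonneg u
  have h3 : (2 * ℓ : ℤ) * u ≤ (2 * (k + 2) - 1 - u) * u := mul_le_mul_of_nonneg_right h1 hu0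
  have h4 : ((3 * (k + 2) : ℤ) - u) * k ≤ D * k := mul_le_mul_of_nonneg_right h2 (by linarith)
  have h5 : (2 * ((k : ℤ) + 2) - 1 - u) * u ≤ 2 * (((3 * (k + 2) : ℤ) - u) * k) := by
    nlinarith [sq_nonneg (2 * (u : ℤ) - 4 * k - 3), sq_nonneg ((k : ℤ) - 1)]
  have h6 : (ℓ : ℤ) * u ≤ D * k := by linarith
  exact_mod_cast h6

theorem caseKEX {S : Type} [Fintype S] [DecidableEq S] {L : S → S → ℕ} {d : S → ℕ} {n e τ : ℕ}
    (h : IsLeave L d n e τ) (m : ℕ) (hm : 3 ≤ m) (hmin : ∀ b, m ≤ d b)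
    (hn : 3 * m + 1 ≤ n ∨ (m = 3 ∧ n = 6 ∧ e = 0)) (hpar : Even (n + 1 + e + m)) (g : S)
    (hg : d g = m) : TriDec (lev (n + 1 + e) (fun _ => 1) L) := by
  have he := h.he
  have hτ := h.hτ
  -- degrees
  have hdn : ∀ b, d b + m ≤ n := by
    intro b
    obtain ⟨c, hc⟩ := h.leave_exists_out (b := b) (by have := hmin b; omega)
    have h1 := h.adj hc
    have h2 := hmin c
    omega
  have htot : m * n ≤ tot L := by
    rw [tot_eq_sum_fo]
    calc m * n = ∑ _b : S, m := by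
          rw [Finset.sum_const, Finset.card_univ, h.card, smul_eq_mul, mul_comm]
      _ ≤ ∑ b, fo L b := Finset.sum_le_sum fun b _ => by rw [h.out b]; exact hmin b
  have htot' : (m = 3 ∧ n = 6 ∧ e = 0) → tot L = 18 := by
    rintro ⟨h1, h2, h3⟩
    have h4 : ∀ b, fo L b = 3 := by
      intro b
      have h5 := hdn b
      have h6 := hmin b
      rw [h.out b]
      omega
    rw [tot_eq_sum_fo, Finset.sum_congr rfl fun b _ => h4 b, Finset.sum_const, Finset.card_univ,
      h.card, h2, smul_eq_mul]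
  obtain ⟨r, hr⟩ : ∃ r, n + 1 + e = 2 * r + m := by
    obtain ⟨q, hq⟩ := hpar
    refine ⟨q - m, ?_⟩
    have := hdn g
    have := hmin g
    omega
  have hmm : 3 * m ≤ m * m := Nat.mul_le_mul_right m hm
  have hme : m * e ≤ m := by
    calc m * e ≤ m * 1 := Nat.mul_le_mul_left m he
      _ = m := mul_one m
  obtain ⟨lo, hlo⟩ : ∃ lo, lo + 2 * m + m * e = 2 * m * m := by
    refine ⟨2 * m * m - 2 * m - m * e, ?_⟩
    have : 2 * m * m = 2 * (m * m) := by ring
    omega
  obtain ⟨hi, hhi⟩ : ∃ hi, hi + m + m * e = τ + m * m := ⟨τ + m * m - m - m * e, by omega⟩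
  have h2mm : 2 * m * m = 2 * (m * m) := by ring
  have hlohi : lo ≤ hi := by
    rcases hn with hn | hn
    · have h1 : m * (3 * m + 1) ≤ m * n := Nat.mul_le_mul_left m hn
      have h2 : m * (3 * m + 1) = 3 * (m * m) + m := by ring
      have h3 : 0 ≤ (n + 1 + e) * e := Nat.zero_le _
      omega
    · have h1 := htot' hn
      obtain ⟨h2, h3, h4⟩ := hn
      subst h2 h3 h4
      omega
  have hhi3 : tot L + 4 * m ≤ 3 * hi := by
    rcases hn with hn | hn
    · rcases Nat.lt_or_ge 0 e with h0 | h0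
      · have he1 : e = 1 := by omega
        subst he1
        have h1 : 3 * m * m ≥ 9 * m := by nlinarith
        have h2 : 3 * m * m = 3 * (m * m) := by ring
        omega
      · have he0 : e = 0 := by omega
        subst he0
        omega
    · have h1 := htot' hn
      obtain ⟨h2, h3, h4⟩ := hn
      subst h2 h3 h4
      omega
  obtain ⟨F₀, hF0, hgo, hgi, hb, hlo0, hhi0⟩ := EX h m hm g hg hmin
    (fun b => (d b + 2 * m - (n + e)) / 2)
    (by
      intro b _
      have := hdn b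
      show (d b + 2 * m - (n + e)) / 2 ≤ m - 1
      omega)
    (by
      intro b _
      have h1 := hdn b
      have h2 := hmin b
      show (d b + 2 * m - (n + e)) / 2 * (n - d b - 1) ≤ d b * (m - 2)
      rcases hn with hn | ⟨h3, h4, h5⟩
      · by_cases h0 : (d b + 2 * m - (n + e)) / 2 = 0
        · rw [h0, zero_mul]; exact Nat.zero_le _
        · exact kex_l2 (e := e) hm hn h1 (by omega)
      · subst h3 h4 h5
        have : d b = 3 := by omega
        rw [this]
        norm_num)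
    (by
      intro b _
      have h1 := hdn b
      have h2 := hmin b
      show 3 * ((d b + 2 * m - (n + e)) / 2) ≤ d b
      rcases hn with hn | ⟨h3, h4, h5⟩
      · omega
      · subst h3 h4 h5
        omega)
    lo hi (by omega) hlohi hhi3
  have hsm : r ≤ 2 → m = 3 ∧ n = 6 ∧ e = 0 := by
    intro h0
    rcases hn with hn | hn
    · exfalso; omega
    · exact hn
  have hsm2 : r ≤ 2 → hi - tot F₀ = 0 := by
    intro h0
    have h1 := hsm h0
    have h5 := htot' h1
    obtain ⟨h2, h3, h4⟩ := h1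
    subst h2 h3 h4
    omega
  have hcov : ∀ b, b ≠ g → d b + 2 * m ≤ n + 1 + e + (fo F₀ b + fi F₀ b) := by
    intro b hbg
    have h1 := hb b hbg
    have h2 : (d b + 2 * m - (n + e)) / 2 ≤ fo F₀ b := h1.2.2.1
    have h3 : (d b + 2 * m - (n + e)) / 2 ≤ fi F₀ b := h1.2.2.2
    omega
  by_cases hev : Even (hi - tot F₀)
  · refine kex_fin h m r hi hm hdn hr g hg hF0 hgo hgi ?_ (by omega) hhi hhi0 hev hsm2
    intro b hbg
    have h1 := hb b hbg
    exact ⟨by omega, by omega, hcov b hbg, fun h2 => by omega⟩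
  · -- one additional arc
    have hlt : tot F₀ < hi := by
      rcases Nat.lt_or_ge (tot F₀) hi with h0 | h0
      · exact h0
      · exfalso
        apply hev
        have : hi - tot F₀ = 0 := by omega
        rw [this]
        exact Even.zero
    obtain ⟨c1, hc1⟩ : ∃ c1 : S, c1 ≠ g := by
      have h1 : 1 < Fintype.card S := by rw [h.card]; have := hdn g; omega
      exact Fintype.exists_ne_of_one_lt_card h1 g
    obtain ⟨b1, hb1⟩ : ∃ b1, F₀ b1 c1 < L b1 c1 := by
      by_contra hcon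
      push Not at hcon
      have h1 : fi L c1 ≤ fi F₀ c1 := Finset.sum_le_sum fun b _ => hcon b
      rw [h.inn c1] at h1
      have h2 := hmin c1
      have h3 := hb c1 hc1
      omega
    have hb1g : b1 ≠ g := by
      rintro rfl
      rw [hgo c1] at hb1
      exact lt_irrefl _ hb1
    have hb1c1 : b1 ≠ c1 := by
      rintro rfl
      rw [h.irrefl b1] at hb1
      exact Nat.not_lt_zero _ hb1
    have hfo : ∀ b, fo (fun x y => F₀ x y + U b1 c1 x y) b = fo F₀ b + if b = b1 then 1 else 0 := by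
      intro b
      rw [fo_add, fo_U]
    have hfi : ∀ b, fi (fun x y => F₀ x y + U b1 c1 x y) b = fi F₀ b + if b = c1 then 1 else 0 := by
      intro b
      rw [fi_add, fi_U]
    have htF : tot (fun x y => F₀ x y + U b1 c1 x y) = tot F₀ + 1 := by
      rw [tot_add, tot_U]
    have hev' : Even (hi - (tot F₀ + 1)) := by
      rw [Nat.even_iff] at hev ⊢
      omega
    refine kex_fin (F := fun x y => F₀ x y + U b1 c1 x y) h m r hi hm hdn hr g hg ?_ ?_ ?_ ?_ ?_ hhi
      ?_ ?_ ?_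
    · intro b c
      show F₀ b c + U b1 c1 b c ≤ L b c
      unfold U
      by_cases hbc : b = b1 ∧ c = c1
      · rw [if_pos hbc, hbc.1, hbc.2]
        exact hb1
      · rw [if_neg hbc, add_zero]
        exact hF0 b c
    · intro c
      show F₀ g c + U b1 c1 g c = L g c
      unfold U
      rw [if_neg (fun h0 => hb1g h0.1.symm), add_zero, hgo]
    · intro c
      show F₀ c g + U b1 c1 c g = L c g
      unfold U
      rw [if_neg (fun h0 => hc1 h0.2.symm), add_zero, hgi]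
    · intro b hbg
      have h1 := hb b hbg
      have h2 := hcov b hbg
      rw [hfo, hfi]
      refine ⟨?_, ?_, by omega, ?_⟩
      · split_ifs <;> omega
      · split_ifs <;> omega
      · intro h3
        have h4 : b = c1 := by
          by_contra h5
          rw [if_neg h5] at h3
          omega
        rw [h4, if_neg hb1c1.symm]
        have h6 := hb c1 hc1
        omega
    · rw [htF]; omega
    · rw [htF]; omega
    · rw [htF]; exact hev'
    · rw [htF]
      intro h0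
      have := hsm2 h0
      omega

end MQ94
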