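import Pool.Agent.MQ94.Leave
import Pool.Agent.MQ94.PRV

/-!
# Module MQ-CP3R (MP_aaabe1_al, helper94): an isolated vertex, no vertex of degree 1,
`w = n + 1 + e` odd, `n ≥ 5`

`P_real` (PRV.lean) with `k = 3`, `R = {g, r2}`, `2 r = n + e - 2`. `τ' = τ - 3 e - tot F`. `F` will
have `fi F b ≤ 2`, so in `hev` `P ⊆ {r2}`.
`hcov` (`b ∉ R`): `d b + 5 ≤ n + e + (fo F b + fi F b)`.

(i) `L = 0`: `r2` arbitrary, `F = 0`. `e = 0`: `τ = 0`. `e = 1`: `3 τ = n + 2` with `n` odd, so `τ` is
odd and `n ≠ 5`, `n ≥ 7`, `τ ≥ 3`, `τ' = τ - 3` even. `r ≤ 2` only for `n = 6`, `e = 0`. `hev`: `P = ∅`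
or `P = {r2}`, `pδ r2 = n + e - 2` even.

(ii) `L ≠ 0`. Let `r2` have maximal degree. All degrees are `0` or `≥ 2`, so `d b ≤ n - 3` (`adj0`).
`hev`: `pδ r2 = n + e - 2 - d r2 > 0`, so `r2 ∈ P ↔ r2 ∈ Q`; if `r2 ∈ P`, an in-neighbour `c` of `r2`
(`c ∉ R`, `F c r2 = 0`) is in `P`, a contradiction. So `P = ∅`.

(ii-a) `d r2 = n - 3`. All `b ≠ g` have degree `≥ 2`: if some `b ≠ g` had degree `0`, `adjT` with
`T = univ \ {g, b}` would give `n - 3 + 2 ≤ n - 2`. `IsLeave.bip` with `T = univ.erase g`, `m = 2`,
`u = r2`: `X`, `|X| = n - 3`, degrees `2` in `X`, and `T \ X = {r2, y}`, `d y = n - 3`;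
`tot L = 4 (n - 3)`.
  `n = 5` (`e = 1`): `3 τ = 15`, `F = U y x1 + U x2 y`, `X = {x1, x2}`, `τ' = 0`.
  `n = 6` (`e = 0`): `τ = 4`, `F = U y x1 + U y x2 + U x3 y + U x1 y`, `X = {x1, x2, x3}`, `τ' = 0`.
  `n ≥ 7`, `e = 1`: `F = U y x1` or `U y x1 + U y x2` (parity of `τ'`), `3 τ = 5 n - 10 ≥ 25`.
  `n ≥ 8`, `e = 0`: `F = U y x1 + U y x2`; `3 τ = 4 (n - 3)`, so `τ` is even, `τ ≥ 2`.
  (`hcov` for `x ∈ X`: `7 ≤ n + e + f`; for `y`: `n + 2 ≤ n + e + f`.)
(ii-b) all `d b ≤ n - 4`. `n = 5` is impossible. `n = 6`: all degrees of the set `T` of vertices of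
positive degree are `2`, `4 ≤ |T| ≤ 5` by `adjT`, `tot L = 2 |T|` is not divisible by `3`. So
`n ≥ 7`. `tot L ≥ 8` (`adjT`: `|T| ≥ 4`).
  An arc avoiding `R`: take `r2 → x` and `x → c` with `c ≠ r2` (`d x ≥ 2`).
  `e = 1`: `hcov` needs nothing. `F = 0` or one arc avoiding `R`, by parity;
  `3 τ ≥ 8 + n + 2 ≥ 17`, `τ ≥ 6`.
  `e = 0`: `n` is even and `n ≠ 8` by `hmod`, so `n ≥ 10`. `H = {b ∉ R | d b = n - 4}` requires
  `fo F b + fi F b ≥ 1`. If `H ≠ ∅` then `d r2 = n - 4`; `H ∪ {r2}` is independent (`adj0`:
  `2 (n - 4) + 1 > n`) and for `u ∈ H`: `N⁺(u) ⊆ S \ (H ∪ {r2, g})`, so `|H| ≤ 2`.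
  `H = ∅`: `F = 0` or one arc avoiding `R`. `H = {u}`: `F = U u x` or `U u x + U u x'`.
  `H = {u, u'}`: `F = U u x + U u' x'` or `U u x + U u' x' + U u x''`; `x, x', x''` are different
  (`d u ≥ 6`) out-neighbours (outside `R`). If `H ≠ ∅`, `τ ≥ 3`: the `n - 4` out-neighbours of `r2`
  have degree `≥ 2`, `tot L ≥ 2 (n - 4) + d r2 ≥ 18`.
-/

set_option autoImplicit false

namespace MQ94

/-- add the arc `u → v` -/
def cp3Add {S : Type} [DecidableEq S] (F : S → S → ℕ) (u v : S) : S → S → ℕ :=
  fun b c => F b c + U u v b c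

section aux

variable {S : Type} [Fintype S] [DecidableEq S] {L : S → S → ℕ} {d : S → ℕ} {n e τ : ℕ}

theorem cp3Add_le {F : S → S → ℕ} {u v : S} (hF : ∀ b c, F b c ≤ L b c) (hz : F u v = 0)
    (hL : L u v ≠ 0) : ∀ b c, cp3Add F u v b c ≤ L b c := by
  intro b c
  unfold cp3Add U
  by_cases hbc : b = u ∧ c = v
  · rw [if_pos hbc, hbc.1, hbc.2, hz]
    omega
  · rw [if_neg hbc, add_zero]
    exact hF b c

theorem cp3Add_fo (F : S → S → ℕ) (u v b : S) :
    fo (cp3Add F u v) b = fo F b + (if b = u then 1 else 0) := by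
  unfold cp3Add
  rw [fo_add, fo_U]

theorem cp3Add_fi (F : S → S → ℕ) (u v b : S) :
    fi (cp3Add F u v) b = fi F b + (if b = v then 1 else 0) := by
  unfold cp3Add
  rw [fi_add, fi_U]

theorem cp3Add_tot (F : S → S → ℕ) (u v : S) : tot (cp3Add F u v) = tot F + 1 := by
  unfold cp3Add
  rw [tot_add, tot_U]

theorem cp3Add_ne (F : S → S → ℕ) {u v b c : S} (hbc : b ≠ u ∨ c ≠ v) :
    cp3Add F u v b c = F b c := by
  unfold cp3Add U
  rw [if_neg, add_zero]
  rintro ⟨h1, h2⟩
  rcases hbc with h3 | h3
  · exact h3 h1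
  · exact h3 h2

/-- the empty array -/
def cp3Zero {S : Type} : S → S → ℕ := fun _ _ => 0

theorem cp3Zero_le : ∀ b c, (cp3Zero : S → S → ℕ) b c ≤ L b c := fun _ _ => Nat.zero_le _

theorem cp3Zero_fo (b : S) : fo (cp3Zero : S → S → ℕ) b = 0 := by
  unfold fo cp3Zero
  simp

theorem cp3Zero_fi (b : S) : fi (cp3Zero : S → S → ℕ) b = 0 := by
  unfold fi cp3Zero
  simp

theorem cp3Zero_tot : tot (cp3Zero : S → S → ℕ) = 0 := by
  unfold tot cp3Zero
  simp

theorem cp3_apply (h : IsLeave L d n e τ) (hn : 5 ≤ n) (hpar : Even (n + e)) (g r2 : S)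
    (hg : d g = 0) (hgr : g ≠ r2) (hr : d r2 = 0 ∨ (1 ≤ d r2 ∧ d r2 + 3 ≤ n))
    (F : S → S → ℕ) (hF : ∀ b c, F b c ≤ L b c) (hFr : fo F r2 = 0 ∧ fi F r2 = 0)
    (hFo : ∀ b, fo F b ≤ 3) (hFi : ∀ b, fi F b ≤ 2)
    (hcov : ∀ b, b ≠ g → b ≠ r2 → d b + 5 ≤ n + e + (fo F b + fi F b)) (τ' : ℕ)
    (hτ' : τ' + tot F + 3 * e = τ) (heven : Even τ') (hsmall : n + e ≤ 6 → τ' = 0) :
    TriDec (lev (n + 1 + e) (fun _ => 1) L) := by
  have he := h.he
  obtain ⟨m, hm⟩ := hpar
  have hFg : fo F g = 0 ∧ fi F g = 0 := by
    have h1 := fo_mono hF g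
    have h2 := fi_mono hF g
    rw [h.out g, hg] at h1
    rw [h.inn g, hg] at h2
    omega
  refine P_real L F d n e (m - 1) 3 τ τ' g {g, r2} h.card (by omega) ?_ ?_ hg h.out h.inn hF ?_
    hFo (fun b => le_trans (hFi b) (by omega)) ?_ ?_ h.hτ ?_ heven ?_ ?_
  · rw [Finset.card_pair hgr]
  · simp
  · intro b hb
    rw [Finset.mem_insert, Finset.mem_singleton] at hb
    rcases hb with e1 | e1
    · rw [e1]
      exact hFg
    · rw [e1]
      exact hFr
  · intro b hb
    rw [Finset.mem_insert, Finset.mem_singleton] at hb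
    rcases hb with e1 | e1
    · rw [e1]
      omega
    · rw [e1]
      omega
  · intro b hb
    rw [Finset.mem_insert, Finset.mem_singleton, not_or] at hb
    have := hcov b hb.1 hb.2
    omega
  · omega
  · intro hr3
    exact hsmall (by omega)
  · intro P Q hgP hgQ h1 h2 h3
    have hPsub : ∀ b ∈ P, b = r2 := by
      intro b hb
      by_contra hbr
      have hbR : b ∉ ({g, r2} : Finset S) := by
        rw [Finset.mem_insert, Finset.mem_singleton, not_or]
        refine ⟨?_, hbr⟩
        intro e1
        rw [e1] at hb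
        exact hgP hb
      have h4 := h1 b hb hbR
      have h5 := hFi b
      omega
    by_cases hP : r2 ∈ P
    · have hPe : P = {r2} := by
        apply Finset.eq_singleton_iff_unique_mem.mpr
        exact ⟨hP, hPsub⟩
      have hval : pδ (n + 1 + e) 3 d F {g, r2} r2 = n + 1 + e - d r2 - 3 := by
        unfold pδ
        rw [if_pos (by simp)]
      rcases hr with hr0 | ⟨hr1, hr3⟩
      · rw [hPe, Finset.sum_singleton, hval, hr0]
        exact ⟨m - 1, by omega⟩
      · exfalso
        have h4 : pδ (n + 1 + e) 3 d F {g, r2} r2 ≠ 0 := by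
          rw [hval]
          omega
        have h5 : r2 ∈ Q := (h3 r2 hgr.symm h4).mp hP
        obtain ⟨c, hc⟩ : ∃ c, L c r2 ≠ 0 := by
          have h6 : 0 < (IsLeave.inN L r2).card := by
            rw [h.card_inN]
            exact hr1
          obtain ⟨c, hc⟩ := Finset.card_pos.mp h6
          exact ⟨c, by simpa [IsLeave.inN] using hc⟩
        have h7 : F c r2 = 0 := by
          have := le_fi F c r2
          omega
        have h8 : c ∈ P := (h2 c r2 (by omega)).mpr h5
        have h9 := hPsub c h8
        rw [h9] at hc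
        exact hc (h.irrefl r2)
    · have hPe : P = ∅ := by
        apply Finset.eq_empty_iff_forall_notMem.mpr
        intro b hb
        have h4 := hPsub b hb
        rw [h4] at hb
        exact hP hb
      rw [hPe, Finset.sum_empty]
      exact ⟨0, rfl⟩

theorem cp3_out_avoid (h : IsLeave L d n e τ) (b : S) (A : Finset S) (hA : A.card < d b) :
    ∃ c, L b c ≠ 0 ∧ c ∉ A := by
  rw [← h.card_outN b] at hA
  obtain ⟨c, hc, hcA⟩ := Finset.exists_mem_notMem_of_card_lt_card hA
  exact ⟨c, by simpa [IsLeave.outN] using hc, hcA⟩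

end aux

theorem caseP3R {S : Type} [Fintype S] [DecidableEq S] {L : S → S → ℕ} {d : S → ℕ} {n e τ : ℕ}
    (h : IsLeave L d n e τ) (hn : 5 ≤ n) (hpar : Even (n + e)) (hno : ∀ b, d b ≠ 1) (g : S)
    (hg : d g = 0) : TriDec (lev (n + 1 + e) (fun _ => 1) L) := by
  have he := h.he
  have hmod := h.hmod
  have hτ := h.hτ
  have htot : tot L = ∑ b, d b := by
    rw [tot_eq_sum_fo]
    exact Finset.sum_congr rfl fun b _ => h.out b
  obtain ⟨mm, hmm⟩ := id hpar
  have hFg0 : ∀ {x y : S}, L x y ≠ 0 → x ≠ g ∧ y ≠ g ∧ x ≠ y := by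
    intro x y hxy
    refine ⟨?_, ?_, ?_⟩
    · intro e1
      have := h.pos_left hxy
      rw [e1] at this
      omega
    · intro e1
      have := h.pos_right hxy
      rw [e1] at this
      omega
    · intro e1
      rw [e1] at hxy
      exact hxy (h.irrefl y)
  by_cases hL : ∀ b c, L b c = 0
  · -- (i)
    have hd : ∀ b, d b = 0 := by
      intro b
      rw [← h.out b]
      unfold fo
      exact Finset.sum_eq_zero fun c _ => hL b c
    have ht0 : tot L = 0 := by
      rw [htot]
      exact Finset.sum_eq_zero fun b _ => hd b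
    obtain ⟨r2, hr2⟩ : ∃ r2, r2 ≠ g := by
      apply Fintype.exists_ne_of_one_lt_card
      rw [h.card]
      omega
    rw [ht0] at hτ
    rcases Nat.lt_or_ge e 1 with he0 | he1
    · have he0' : e = 0 := by omega
      subst he0'
      refine cp3_apply h hn hpar g r2 hg hr2.symm (Or.inl (hd r2)) cp3Zero cp3Zero_le
        ⟨cp3Zero_fo _, cp3Zero_fi _⟩ (fun b => by rw [cp3Zero_fo]; omega)
        (fun b => by rw [cp3Zero_fi]; omega) ?_ 0 ?_ ⟨0, rfl⟩ (fun _ => rfl)
      · intro b _ _
        rw [hd b]
        omega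
      · rw [cp3Zero_tot]
        omega
    · have he1' : e = 1 := by omega
      subst he1'
      refine cp3_apply h hn hpar g r2 hg hr2.symm (Or.inl (hd r2)) cp3Zero cp3Zero_le
        ⟨cp3Zero_fo _, cp3Zero_fi _⟩ (fun b => by rw [cp3Zero_fo]; omega)
        (fun b => by rw [cp3Zero_fi]; omega) ?_ (τ - 3) ?_ ?_ ?_
      · intro b _ _
        rw [hd b]
        omega
      · rw [cp3Zero_tot]
        omega
      · rw [Nat.even_iff]
        omega
      · intro _
        omega
  -- (ii)
  have hge2 : ∀ b, 1 ≤ d b → 2 ≤ d b := by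
    intro b hb
    have := hno b
    omega
  have hn3 : ∀ b, 1 ≤ d b → d b + 3 ≤ n := by
    intro b hb
    obtain ⟨c, hc, -⟩ := cp3_out_avoid h b ∅ (by rw [Finset.card_empty]; omega)
    have h1 := h.adj0 hg hc
    have h2 := hge2 c (h.pos_right hc)
    omega
  have hne : (Finset.univ : Finset S).Nonempty := ⟨g, Finset.mem_univ g⟩
  obtain ⟨r2, -, hr2⟩ := Finset.exists_max_image Finset.univ d hne
  have hmax : ∀ b, d b ≤ d r2 := fun b => hr2 b (Finset.mem_univ b)
  have hr2pos : 1 ≤ d r2 := by
    push Not at hL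
    obtain ⟨b, c, hbc⟩ := hL
    have h1 := h.pos_left hbc
    have h2 := hmax b
    omega
  have hr22 := hge2 r2 hr2pos
  have hr2n := hn3 r2 hr2pos
  have hgr : g ≠ r2 := by
    intro e1
    rw [e1] at hg
    omega
  have hrr : d r2 = 0 ∨ (1 ≤ d r2 ∧ d r2 + 3 ≤ n) := Or.inr ⟨hr2pos, hr2n⟩
  by_cases hbig : d r2 + 3 = n
  · -- (ii-a)
    have hall : ∀ b, b ≠ g → 2 ≤ d b := by
      intro b hb
      by_contra hb2
      have hb0 : d b = 0 := by
        have := hno b
        omega
      obtain ⟨x, hx, -⟩ := cp3_out_avoid h r2 ∅ (by rw [Finset.card_empty]; omega)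
      have h1 := h.adjT ((Finset.univ.erase g).erase b) (by
        intro z hz
        rw [Finset.mem_erase, Finset.mem_erase] at hz
        by_cases h2 : z = b
        · rw [h2]
          exact hb0
        · by_cases h3 : z = g
          · rw [h3]
            exact hg
          · exact absurd ⟨h2, h3, Finset.mem_univ z⟩ hz) hx
      have h2 := Finset.card_erase_add_one (Finset.mem_erase.mpr ⟨hb, Finset.mem_univ b⟩)
      have h3 := Finset.card_erase_add_one (Finset.mem_univ g)
      rw [Finset.card_univ, h.card] at h3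
      have h4 := hge2 x (h.pos_right hx)
      omega
    have hTcard : (Finset.univ.erase g : Finset S).card + 1 = n := by
      have h3 := Finset.card_erase_add_one (Finset.mem_univ g)
      rw [Finset.card_univ, h.card] at h3
      exact h3
    have hT0 : ∀ b, b ∉ (Finset.univ.erase g : Finset S) → d b = 0 := by
      intro b hb
      have : b = g := by
        by_contra hbg
        exact hb (Finset.mem_erase.mpr ⟨hbg, Finset.mem_univ b⟩)
      rw [this]
      exact hg
    obtain ⟨X, hXT, hXc, hr2X, hXL, hXd, hXd'⟩ := h.bip (Finset.univ.erase g) hT0 2 (by omega)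
      (fun b hb => hall b (Finset.mem_erase.mp hb).1)
      (Finset.mem_erase.mpr ⟨hgr.symm, Finset.mem_univ r2⟩) (by omega)
    have hgX : g ∉ X := fun hh => (Finset.mem_erase.mp (hXT hh)).1 rfl
    -- the other vertex y
    have hTX : ((Finset.univ.erase g) \ X).card = 2 := by
      rw [Finset.card_sdiff_of_subset hXT]
      omega
    obtain ⟨y, hyT, hyr⟩ : ∃ y ∈ (Finset.univ.erase g) \ X, y ≠ r2 :=
      Finset.exists_mem_ne (by omega) r2
    rw [Finset.mem_sdiff, Finset.mem_erase] at hyT
    obtain ⟨⟨hyg, -⟩, hyX⟩ := hyT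
    have hyT' : y ∈ (Finset.univ.erase g : Finset S) :=
      Finset.mem_erase.mpr ⟨hyg, Finset.mem_univ y⟩
    have hyd : d y + 3 = n := by
      have := hXd' y hyT' hyX
      omega
    have hcases : ∀ b, b ≠ g → b ≠ r2 → b ≠ y → b ∈ X := by
      intro b h1 h2 h3
      by_contra h4
      have h5 : ({r2, y, b} : Finset S) ⊆ (Finset.univ.erase g) \ X := by
        intro z hz
        rw [Finset.mem_insert, Finset.mem_insert, Finset.mem_singleton] at hz
        rw [Finset.mem_sdiff, Finset.mem_erase]
        rcases hz with e1 | e1 | e1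
        · rw [e1]
          exact ⟨⟨hgr.symm, Finset.mem_univ _⟩, hr2X⟩
        · rw [e1]
          exact ⟨⟨hyg, Finset.mem_univ _⟩, hyX⟩
        · rw [e1]
          exact ⟨⟨h1, Finset.mem_univ _⟩, h4⟩
      have h6 := Finset.card_le_card h5
      have h7 : ({r2, y, b} : Finset S).card = 3 := by
        rw [Finset.card_insert_of_notMem, Finset.card_pair]
        · exact fun e1 => h3 e1.symm
        · rw [Finset.mem_insert, Finset.mem_singleton, not_or]
          exact ⟨fun e1 => hyr e1.symm, fun e1 => h2 e1.symm⟩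
      omega
    have hyx : ∀ x ∈ X, L y x ≠ 0 := by
      intro x hx
      rw [hXL y hyT' x (hXT hx)]
      simp [hyX, hx]
    have hxy : ∀ x ∈ X, L x y ≠ 0 := by
      intro x hx
      rw [hXL x (hXT hx) y hyT']
      simp [hyX, hx]
    have htotv : tot L = 4 * (n - 3) := by
      have h1 : (Finset.univ : Finset S) = insert g (insert r2 (insert y X)) := by
        symm
        apply Finset.eq_univ_of_forall
        intro b
        rw [Finset.mem_insert, Finset.mem_insert, Finset.mem_insert]
        by_cases h1 : b = g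
        · exact Or.inl h1
        by_cases h2 : b = r2
        · exact Or.inr (Or.inl h2)
        by_cases h3 : b = y
        · exact Or.inr (Or.inr (Or.inl h3))
        · exact Or.inr (Or.inr (Or.inr (hcases b h1 h2 h3)))
      rw [htot, h1, Finset.sum_insert, Finset.sum_insert, Finset.sum_insert,
        Finset.sum_congr rfl hXd, Finset.sum_const, smul_eq_mul, hg]
      · omega
      · exact hyX
      · rw [Finset.mem_insert, not_or]
        exact ⟨fun e1 => hyr e1.symm, hr2X⟩
      · rw [Finset.mem_insert, Finset.mem_insert, not_or, not_or]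
        exact ⟨hgr, fun e1 => hyg e1.symm, hgX⟩
    have hxr : ∀ x ∈ X, x ≠ r2 ∧ x ≠ y ∧ x ≠ g := by
      intro x hx
      refine ⟨?_, ?_, ?_⟩
      · intro e1
        rw [e1] at hx
        exact hr2X hx
      · intro e1
        rw [e1] at hx
        exact hyX hx
      · intro e1
        rw [e1] at hx
        exact hgX hx
    rcases Nat.lt_or_ge n 7 with hn7 | hn7
    · have hn56 : n = 5 ∨ n = 6 := by omega
      rcases hn56 with hn5 | hn6
      · -- n = 5, e = 1
        have he1 : e = 1 := by omega
        subst he1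
        subst hn5
        have hX2 : X.card = 2 := by omega
        obtain ⟨x1, x2, hx12, hXe⟩ := Finset.card_eq_two.mp hX2
        have hx1 : x1 ∈ X := by rw [hXe]; simp
        have hx2 : x2 ∈ X := by rw [hXe]; simp
        obtain ⟨a1, a2, a3⟩ := hxr x1 hx1
        obtain ⟨b1, b2, b3⟩ := hxr x2 hx2
        refine cp3_apply h hn hpar g r2 hg hgr hrr (cp3Add (cp3Add cp3Zero y x1) x2 y) ?_ ?_ ?_ ?_
          ?_ 0 ?_ ⟨0, rfl⟩ (fun _ => rfl)
        · apply cp3Add_le (cp3Add_le cp3Zero_le rfl (hyx x1 hx1)) _ (hxy x2 hx2)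
          rw [cp3Add_ne _ (Or.inl b2)]
          rfl
        · simp only [cp3Add_fo, cp3Add_fi, cp3Zero_fo, cp3Zero_fi]
          rw [if_neg hyr.symm, if_neg b1.symm, if_neg a1.symm]
          exact ⟨rfl, rfl⟩
        · intro b
          simp only [cp3Add_fo, cp3Zero_fo]
          split_ifs <;> omega
        · intro b
          simp only [cp3Add_fi, cp3Zero_fi]
          split_ifs <;> omega
        · intro b hb1 hb2
          simp only [cp3Add_fo, cp3Add_fi, cp3Zero_fo, cp3Zero_fi]
          by_cases hby : b = y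
          · simp only [if_pos hby]
            rw [hby]
            omega
          · have hbX := hcases b hb1 hb2 hby
            have hbd := hXd b hbX
            rw [hXe, Finset.mem_insert, Finset.mem_singleton] at hbX
            rcases hbX with e1 | e1
            · rw [if_pos e1]
              omega
            · rw [if_pos e1]
              omega
        · simp only [cp3Add_tot, cp3Zero_tot]
          omega
      · -- n = 6, e = 0
        have he0 : e = 0 := by omega
        subst he0
        subst hn6
        have hX3 : X.card = 3 := by omega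
        obtain ⟨x1, x2, x3, hx12, hx13, hx23, hXe⟩ := Finset.card_eq_three.mp hX3
        have hx1 : x1 ∈ X := by rw [hXe]; simp
        have hx2 : x2 ∈ X := by rw [hXe]; simp
        have hx3 : x3 ∈ X := by rw [hXe]; simp
        obtain ⟨a1, a2, a3⟩ := hxr x1 hx1
        obtain ⟨b1, b2, b3⟩ := hxr x2 hx2
        obtain ⟨c1, c2, c3⟩ := hxr x3 hx3
        refine cp3_apply h hn hpar g r2 hg hgr hrr
          (cp3Add (cp3Add (cp3Add (cp3Add cp3Zero y x1) y x2) x3 y) x1 y) ?_ ?_ ?_ ?_
          ?_ 0 ?_ ⟨0, rfl⟩ (fun _ => rfl)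
        · have f1 := cp3Add_le (L := L) cp3Zero_le rfl (hyx x1 hx1)
          have f2 := cp3Add_le f1 (by
            rw [cp3Add_ne _ (Or.inr hx12.symm)]
            rfl) (hyx x2 hx2)
          have f3 := cp3Add_le f2 (by
            rw [cp3Add_ne _ (Or.inl c2), cp3Add_ne _ (Or.inl c2)]
            rfl) (hxy x3 hx3)
          exact cp3Add_le f3 (by
            rw [cp3Add_ne _ (Or.inl hx13), cp3Add_ne _ (Or.inl a2), cp3Add_ne _ (Or.inl a2)]
            rfl) (hxy x1 hx1)
        · simp only [cp3Add_fo, cp3Add_fi, cp3Zero_fo, cp3Zero_fi]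
          rw [if_neg hyr.symm, if_neg c1.symm, if_neg a1.symm, if_neg b1.symm]
          exact ⟨rfl, rfl⟩
        · intro b
          simp only [cp3Add_fo, cp3Zero_fo]
          by_cases hby : b = y
          · have g1 : b ≠ x3 := by
              rw [hby]
              exact c2.symm
            have g2 : b ≠ x1 := by
              rw [hby]
              exact a2.symm
            rw [if_neg g1, if_neg g2]
            split_ifs <;> omega
          · rw [if_neg hby]
            split_ifs <;> omega
        · intro b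
          simp only [cp3Add_fi, cp3Zero_fi]
          by_cases hby : b = y
          · have g1 : b ≠ x2 := by
              rw [hby]
              exact b2.symm
            have g2 : b ≠ x1 := by
              rw [hby]
              exact a2.symm
            rw [if_neg g1, if_neg g2]
            split_ifs <;> omega
          · rw [if_neg hby]
            split_ifs <;> omega
        · intro b hb1 hb2
          simp only [cp3Add_fo, cp3Add_fi, cp3Zero_fo, cp3Zero_fi]
          by_cases hby : b = y
          · simp only [if_pos hby]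
            rw [hby]
            omega
          · have hbX := hcases b hb1 hb2 hby
            have hbd := hXd b hbX
            rw [hXe, Finset.mem_insert, Finset.mem_insert, Finset.mem_singleton] at hbX
            rcases hbX with e1 | e1 | e1
            · simp only [if_pos e1]
              omega
            · simp only [if_pos e1]
              omega
            · simp only [if_pos e1]
              omega
        · simp only [cp3Add_tot, cp3Zero_tot]
          omega
    · -- n ≥ 7
      have hX3 : 2 ≤ X.card := by omega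
      obtain ⟨x1, hx1, x2, hx2, hx12⟩ := Finset.one_lt_card.mp (by omega : 1 < X.card)
      obtain ⟨a1, a2, a3⟩ := hxr x1 hx1
      obtain ⟨b1, b2, b3⟩ := hxr x2 hx2
      have F2 : ∀ τ' : ℕ, τ' + 2 + 3 * e = τ → Even τ' →
          TriDec (lev (n + 1 + e) (fun _ => 1) L) := by
        intro τ' hτ' hev
        refine cp3_apply h hn hpar g r2 hg hgr hrr (cp3Add (cp3Add cp3Zero y x1) y x2) ?_ ?_ ?_ ?_
          ?_ τ' ?_ hev (fun h6 => by omega)
        · have f1 := cp3Add_le (L := L) cp3Zero_le rfl (hyx x1 hx1)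
          exact cp3Add_le f1 (by
            rw [cp3Add_ne _ (Or.inr hx12.symm)]
            rfl) (hyx x2 hx2)
        · simp only [cp3Add_fo, cp3Add_fi, cp3Zero_fo, cp3Zero_fi]
          rw [if_neg hyr.symm, if_neg a1.symm, if_neg b1.symm]
          exact ⟨rfl, rfl⟩
        · intro b
          simp only [cp3Add_fo, cp3Zero_fo]
          split_ifs <;> omega
        · intro b
          simp only [cp3Add_fi, cp3Zero_fi]
          split_ifs <;> omega
        · intro b hb1 hb2
          simp only [cp3Add_fo, cp3Add_fi, cp3Zero_fo, cp3Zero_fi]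
          by_cases hby : b = y
          · simp only [if_pos hby]
            rw [hby]
            omega
          · have hbd := hXd b (hcases b hb1 hb2 hby)
            omega
        · simp only [cp3Add_tot, cp3Zero_tot]
          omega
      rcases Nat.lt_or_ge e 1 with he0 | he1
      · have he0' : e = 0 := by omega
        subst he0'
        apply F2 (τ - 2) (by omega)
        rw [Nat.even_iff]
        omega
      · have he1' : e = 1 := by omega
        subst he1'
        rcases Nat.even_or_odd τ with hte | hto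
        · -- one arc
          rw [Nat.even_iff] at hte
          refine cp3_apply h hn hpar g r2 hg hgr hrr (cp3Add cp3Zero y x1) ?_ ?_ ?_ ?_
            ?_ (τ - 4) ?_ ?_ (fun h6 => by omega)
          · exact cp3Add_le (L := L) cp3Zero_le rfl (hyx x1 hx1)
          · simp only [cp3Add_fo, cp3Add_fi, cp3Zero_fo, cp3Zero_fi]
            rw [if_neg hyr.symm, if_neg a1.symm]
            exact ⟨rfl, rfl⟩
          · intro b
            simp only [cp3Add_fo, cp3Zero_fo]
            split_ifs <;> omega
          · intro b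
            simp only [cp3Add_fi, cp3Zero_fi]
            split_ifs <;> omega
          · intro b hb1 hb2
            simp only [cp3Add_fo, cp3Add_fi, cp3Zero_fo, cp3Zero_fi]
            by_cases hby : b = y
            · simp only [if_pos hby]
              rw [hby]
              omega
            · have hbd := hXd b (hcases b hb1 hb2 hby)
              omega
          · simp only [cp3Add_tot, cp3Zero_tot]
            omega
          · rw [Nat.even_iff]
            omega
        · rw [Nat.odd_iff] at hto
          apply F2 (τ - 5) (by omega)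
          rw [Nat.even_iff]
          omega
  -- (ii-b)
  have hle4 : ∀ b, d b + 4 ≤ n := by
    intro b
    have := hmax b
    omega
  obtain ⟨x, hrx, -⟩ := cp3_out_avoid h r2 ∅ (by rw [Finset.card_empty]; omega)
  have hx2 := hge2 x (h.pos_right hrx)
  obtain ⟨c, hxc, hcr⟩ := cp3_out_avoid h x {r2} (by rw [Finset.card_singleton]; omega)
  rw [Finset.mem_singleton] at hcr
  obtain ⟨-, hxg, hrx'⟩ := hFg0 hrx
  obtain ⟨-, hcg, hxc'⟩ := hFg0 hxc
  -- the set of vertices of positive degree
  have hTpos : ∀ b, b ∉ (Finset.univ.filter fun b => 1 ≤ d b) → d b = 0 := by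
    intro b hb
    simp only [Finset.mem_filter, Finset.mem_univ, true_and] at hb
    omega
  have hT4 : 4 ≤ (Finset.univ.filter fun b => 1 ≤ d b).card := by
    have := h.adjT _ hTpos hrx
    omega
  have hTg : (Finset.univ.filter fun b => 1 ≤ d b).card + 1 ≤ n := by
    have h1 : (Finset.univ.filter fun b => 1 ≤ d b) ⊆ Finset.univ.erase g := by
      intro b hb
      simp only [Finset.mem_filter, Finset.mem_univ, true_and] at hb
      refine Finset.mem_erase.mpr ⟨?_, Finset.mem_univ b⟩
      intro e1
      rw [e1] at hb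
      omega
    have h2 := Finset.card_le_card h1
    have h3 := Finset.card_erase_add_one (Finset.mem_univ g)
    rw [Finset.card_univ, h.card] at h3
    omega
  have htotT : tot L = ∑ b ∈ Finset.univ.filter (fun b => 1 ≤ d b), d b := by
    rw [htot]
    symm
    apply Finset.sum_subset (Finset.subset_univ _)
    intro b _ hb
    exact hTpos b hb
  have htot8 : 8 ≤ tot L := by
    have h1 : ∑ b ∈ Finset.univ.filter (fun b => 1 ≤ d b), 2 ≤
        ∑ b ∈ Finset.univ.filter (fun b => 1 ≤ d b), d b := by
      apply Finset.sum_le_sum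
      intro b hb
      simp only [Finset.mem_filter, Finset.mem_univ, true_and] at hb
      exact hge2 b hb
    rw [Finset.sum_const, smul_eq_mul] at h1
    omega
  have hn7 : 7 ≤ n := by
    by_contra hn7
    have hn56 : n = 5 ∨ n = 6 := by omega
    rcases hn56 with hn5 | hn6
    · omega
    · subst hn6
      have he0 : e = 0 := by omega
      subst he0
      have h1 : tot L = 2 * (Finset.univ.filter fun b => 1 ≤ d b).card := by
        rw [htotT, mul_comm, ← smul_eq_mul, ← Finset.sum_const]
        apply Finset.sum_congr rfl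
        intro b hb
        simp only [Finset.mem_filter, Finset.mem_univ, true_and] at hb
        have h2 := hge2 b hb
        have h3 := hle4 b
        omega
      omega
  -- F = 0 and F = one arc, when the covering condition needs nothing
  have hF0 : (∀ b, b ≠ g → b ≠ r2 → d b + 5 ≤ n + e) → 3 * e + 1 ≤ τ →
      TriDec (lev (n + 1 + e) (fun _ => 1) L) := by
    intro hcov hτ1
    rcases Nat.even_or_odd (τ - 3 * e) with hte | hto
    · refine cp3_apply h hn hpar g r2 hg hgr hrr cp3Zero cp3Zero_le
        ⟨cp3Zero_fo _, cp3Zero_fi _⟩ (fun b => by rw [cp3Zero_fo]; omega)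
        (fun b => by rw [cp3Zero_fi]; omega) ?_ (τ - 3 * e) ?_ hte (fun h6 => by omega)
      · intro b hb1 hb2
        have := hcov b hb1 hb2
        omega
      · rw [cp3Zero_tot]
        omega
    · rw [Nat.odd_iff] at hto
      refine cp3_apply h hn hpar g r2 hg hgr hrr (cp3Add cp3Zero x c) ?_ ?_ ?_ ?_
        ?_ (τ - 3 * e - 1) ?_ ?_ (fun h6 => by omega)
      · exact cp3Add_le (L := L) cp3Zero_le rfl hxc
      · simp only [cp3Add_fo, cp3Add_fi, cp3Zero_fo, cp3Zero_fi]
        rw [if_neg hrx', if_neg (fun e1 => hcr e1.symm)]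
        exact ⟨rfl, rfl⟩
      · intro b
        simp only [cp3Add_fo, cp3Zero_fo]
        split_ifs <;> omega
      · intro b
        simp only [cp3Add_fi, cp3Zero_fi]
        split_ifs <;> omega
      · intro b hb1 hb2
        have := hcov b hb1 hb2
        omega
      · simp only [cp3Add_tot, cp3Zero_tot]
        omega
      · rw [Nat.even_iff]
        omega
  rcases Nat.lt_or_ge e 1 with he0 | he1
  swap
  · have he1' : e = 1 := by omega
    subst he1'
    apply hF0
    · intro b _ _
      have := hle4 b
      omega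
    · omega
  have he0' : e = 0 := by omega
  subst he0'
  have hn10 : 10 ≤ n := by omega
  -- the set H
  by_cases hH0 : ∀ b, b ≠ g → b ≠ r2 → d b + 5 ≤ n
  · apply hF0
    · intro b hb1 hb2
      have := hH0 b hb1 hb2
      omega
    · omega
  push Not at hH0
  obtain ⟨u, hug, hur, hud⟩ := hH0
  have hu4 : d u + 4 = n := by
    have := hle4 u
    omega
  have hr4 : d r2 + 4 = n := by
    have h1 := hmax u
    have h2 := hle4 r2
    omega
  have hindep : ∀ {a b : S}, d a + 4 = n → d b + 4 = n → L a b = 0 := by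
    intro a b ha hb
    by_contra hab
    have := h.adj0 hg hab
    omega
  have hHcard : (Finset.univ.filter fun b => b ≠ r2 ∧ d b + 4 = n).card ≤ 2 := by
    have h1 : IsLeave.outN L u ⊆
        (((Finset.univ.erase g).erase r2) \ (Finset.univ.filter fun b => b ≠ r2 ∧ d b + 4 = n)) := by
      intro z hz
      have hz' : L u z ≠ 0 := by simpa [IsLeave.outN] using hz
      simp only [Finset.mem_sdiff, Finset.mem_erase, Finset.mem_filter, Finset.mem_univ, true_and,
        and_true, not_and]
      refine ⟨⟨?_, (hFg0 hz').2.1⟩, ?_⟩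
      · intro e1
        rw [e1] at hz'
        exact hz' (hindep hu4 hr4)
      · intro _ hz4
        exact hz' (hindep hu4 hz4)
    have h2 := Finset.card_le_card h1
    have h3 : (Finset.univ.filter fun b => b ≠ r2 ∧ d b + 4 = n) ⊆
        ((Finset.univ.erase g).erase r2) := by
      intro z hz
      simp only [Finset.mem_filter, Finset.mem_univ, true_and] at hz
      simp only [Finset.mem_erase, Finset.mem_univ, and_true]
      refine ⟨hz.1, ?_⟩
      intro e1
      rw [e1] at hz
      omega
    rw [Finset.card_sdiff_of_subset h3, h.card_outN] at h2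
    have h4 := Finset.card_erase_add_one (Finset.mem_univ g)
    rw [Finset.card_univ, h.card] at h4
    have h5 := Finset.card_erase_add_one
      (Finset.mem_erase.mpr ⟨hgr.symm, Finset.mem_univ r2⟩)
    have h6 := Finset.card_le_card h3
    omega
  -- out-neighbours of vertices of H avoid R and H
  have hout : ∀ {a b : S}, d a + 4 = n → L a b ≠ 0 → b ≠ g ∧ b ≠ r2 ∧ d b + 4 ≠ n := by
    intro a b ha hab
    refine ⟨(hFg0 hab).2.1, ?_, ?_⟩
    · intro e1
      rw [e1] at hab
      exact hab (hindep ha hr4)
    · intro hb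
      exact hab (hindep ha hb)
  have hτ3 : 3 ≤ τ := by
    -- tot L ≥ d r2 + d u ≥ 12
    have h1 : d r2 + d u ≤ tot L := by
      rw [htot, ← Finset.sum_pair hur.symm]
      exact Finset.sum_le_sum_of_subset (Finset.subset_univ _)
    omega
  obtain ⟨x1, hux1, -⟩ := cp3_out_avoid h u ∅ (by simp; omega)
  obtain ⟨hx1g, hx1r, hx14⟩ := hout hu4 hux1
  by_cases hone : ∀ b, b ≠ g → b ≠ r2 → b ≠ u → d b + 5 ≤ n
  · -- H = {u}
    obtain ⟨x2, hux2, hx21⟩ := cp3_out_avoid h u {x1} (by simp; omega)
    rw [Finset.mem_singleton] at hx21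
    obtain ⟨hx2g, hx2r, hx24⟩ := hout hu4 hux2
    rcases Nat.even_or_odd τ with hte | hto
    · rw [Nat.even_iff] at hte
      refine cp3_apply h hn hpar g r2 hg hgr hrr (cp3Add (cp3Add cp3Zero u x1) u x2) ?_ ?_ ?_ ?_
        ?_ (τ - 2) ?_ ?_ (fun h6 => by omega)
      · have f1 := cp3Add_le (L := L) cp3Zero_le rfl hux1
        exact cp3Add_le f1 (by
          rw [cp3Add_ne _ (Or.inr hx21)]
          rfl) hux2
      · simp only [cp3Add_fo, cp3Add_fi, cp3Zero_fo, cp3Zero_fi]
        rw [if_neg hur.symm, if_neg hx1r.symm, if_neg hx2r.symm]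
        exact ⟨rfl, rfl⟩
      · intro b
        simp only [cp3Add_fo, cp3Zero_fo]
        split_ifs <;> omega
      · intro b
        simp only [cp3Add_fi, cp3Zero_fi]
        split_ifs <;> omega
      · intro b hb1 hb2
        simp only [cp3Add_fo, cp3Add_fi, cp3Zero_fo, cp3Zero_fi]
        by_cases hbu : b = u
        · simp only [if_pos hbu]
          rw [hbu]
          omega
        · have := hone b hb1 hb2 hbu
          omega
      · simp only [cp3Add_tot, cp3Zero_tot]
        omega
      · rw [Nat.even_iff]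
        omega
    · rw [Nat.odd_iff] at hto
      refine cp3_apply h hn hpar g r2 hg hgr hrr (cp3Add cp3Zero u x1) ?_ ?_ ?_ ?_
        ?_ (τ - 1) ?_ ?_ (fun h6 => by omega)
      · exact cp3Add_le (L := L) cp3Zero_le rfl hux1
      · simp only [cp3Add_fo, cp3Add_fi, cp3Zero_fo, cp3Zero_fi]
        rw [if_neg hur.symm, if_neg hx1r.symm]
        exact ⟨rfl, rfl⟩
      · intro b
        simp only [cp3Add_fo, cp3Zero_fo]
        split_ifs <;> omega
      · intro b
        simp only [cp3Add_fi, cp3Zero_fi]
        split_ifs <;> omega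
      · intro b hb1 hb2
        simp only [cp3Add_fo, cp3Add_fi, cp3Zero_fo, cp3Zero_fi]
        by_cases hbu : b = u
        · simp only [if_pos hbu]
          rw [hbu]
          omega
        · have := hone b hb1 hb2 hbu
          omega
      · simp only [cp3Add_tot, cp3Zero_tot]
        omega
      · rw [Nat.even_iff]
        omega
  · -- H = {u, v}
    push Not at hone
    obtain ⟨v, hvg, hvr, hvu, hvd⟩ := hone
    have hv4 : d v + 4 = n := by
      have := hle4 v
      omega
    have hHe : ∀ b, b ≠ g → b ≠ r2 → b ≠ u → b ≠ v → d b + 5 ≤ n := by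
      intro b hb1 hb2 hb3 hb4
      by_contra hb5
      have hb6 : d b + 4 = n := by
        have := hle4 b
        omega
      have h1 : ({u, v, b} : Finset S) ⊆ (Finset.univ.filter fun b => b ≠ r2 ∧ d b + 4 = n) := by
        intro z hz
        rw [Finset.mem_insert, Finset.mem_insert, Finset.mem_singleton] at hz
        simp only [Finset.mem_filter, Finset.mem_univ, true_and]
        rcases hz with e1 | e1 | e1
        · rw [e1]
          exact ⟨hur, hu4⟩
        · rw [e1]
          exact ⟨hvr, hv4⟩
        · rw [e1]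
          exact ⟨hb2, hb6⟩
      have h2 := Finset.card_le_card h1
      have h3 : ({u, v, b} : Finset S).card = 3 := by
        rw [Finset.card_insert_of_notMem, Finset.card_pair]
        · exact fun e1 => hb4 e1.symm
        · rw [Finset.mem_insert, Finset.mem_singleton, not_or]
          exact ⟨fun e1 => hvu e1.symm, fun e1 => hb3 e1.symm⟩
      omega
    obtain ⟨x2, hvx2, hx21⟩ := cp3_out_avoid h v {x1} (by simp; omega)
    rw [Finset.mem_singleton] at hx21
    obtain ⟨hx2g, hx2r, hx24⟩ := hout hv4 hvx2
    obtain ⟨x3, hux3, hx3⟩ := cp3_out_avoid h u {x1, x2} (by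
      have := Finset.card_le_two (a := x1) (b := x2)
      omega)
    rw [Finset.mem_insert, Finset.mem_singleton, not_or] at hx3
    obtain ⟨hx3g, hx3r, hx34⟩ := hout hu4 hux3
    have hF2 : ∀ b c, cp3Add (cp3Add cp3Zero u x1) v x2 b c ≤ L b c := by
      have f1 := cp3Add_le (L := L) cp3Zero_le rfl hux1
      exact cp3Add_le f1 (by
        rw [cp3Add_ne _ (Or.inl hvu)]
        rfl) hvx2
    rcases Nat.even_or_odd τ with hte | hto
    · rw [Nat.even_iff] at hte
      refine cp3_apply h hn hpar g r2 hg hgr hrr (cp3Add (cp3Add cp3Zero u x1) v x2) hF2 ?_ ?_ ?_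
        ?_ (τ - 2) ?_ ?_ (fun h6 => by omega)
      · simp only [cp3Add_fo, cp3Add_fi, cp3Zero_fo, cp3Zero_fi]
        rw [if_neg hur.symm, if_neg hx1r.symm, if_neg hx2r.symm, if_neg hvr.symm]
        exact ⟨rfl, rfl⟩
      · intro b
        simp only [cp3Add_fo, cp3Zero_fo]
        split_ifs <;> omega
      · intro b
        simp only [cp3Add_fi, cp3Zero_fi]
        split_ifs <;> omega
      · intro b hb1 hb2
        simp only [cp3Add_fo, cp3Add_fi, cp3Zero_fo, cp3Zero_fi]
        by_cases hbu : b = u
        · simp only [if_pos hbu]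
          rw [hbu]
          omega
        · by_cases hbv : b = v
          · simp only [if_pos hbv]
            rw [hbv]
            omega
          · have := hHe b hb1 hb2 hbu hbv
            omega
      · simp only [cp3Add_tot, cp3Zero_tot]
        omega
      · rw [Nat.even_iff]
        omega
    · rw [Nat.odd_iff] at hto
      refine cp3_apply h hn hpar g r2 hg hgr hrr
        (cp3Add (cp3Add (cp3Add cp3Zero u x1) v x2) u x3) ?_ ?_ ?_ ?_
        ?_ (τ - 3) ?_ ?_ (fun h6 => by omega)
      · exact cp3Add_le hF2 (by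
          rw [cp3Add_ne _ (Or.inl (fun e1 => hvu e1.symm)), cp3Add_ne _ (Or.inr hx3.1)]
          rfl) hux3
      · simp only [cp3Add_fo, cp3Add_fi, cp3Zero_fo, cp3Zero_fi]
        rw [if_neg hur.symm, if_neg hx1r.symm, if_neg hx2r.symm, if_neg hvr.symm,
          if_neg hx3r.symm]
        exact ⟨rfl, rfl⟩
      · intro b
        simp only [cp3Add_fo, cp3Zero_fo]
        split_ifs <;> omega
      · intro b
        simp only [cp3Add_fi, cp3Zero_fi]
        by_cases hb1 : b = x3
        · have g1 : b ≠ x1 := by
            rw [hb1]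
            exact hx3.1
          rw [if_neg g1]
          split_ifs <;> omega
        · rw [if_neg hb1]
          split_ifs <;> omega
      · intro b hb1 hb2
        simp only [cp3Add_fo, cp3Add_fi, cp3Zero_fo, cp3Zero_fi]
        by_cases hbu : b = u
        · simp only [if_pos hbu]
          rw [hbu]
          omega
        · by_cases hbv : b = v
          · simp only [if_pos hbv]
            rw [hbv]
            omega
          · have := hHe b hb1 hb2 hbu hbv
            omega
      · simp only [cp3Add_tot, cp3Zero_tot]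
        omega
      · rw [Nat.even_iff]
        omega

end MQ94
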