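import Pool.Agent.MQ94.Leave
import Pool.Agent.MQ94.PRV
import Pool.Agent.MQ94.CaseP3R

/-!
# Module MQ-CP2R (MP_aaabe1_al, helper94): an isolated vertex, `w = n + 1 + e` even

`P_real` (PRV.lean) with `k = 2`, `R = {g}`, `2 r = n + e - 1`. `τ' = τ - 2 e - tot F`. `F` will have
`fi F b ≤ 1`, so in `hev` `P` is empty. `d b ≤ n - 2` for all `b` (`adj0`, a neighbour has degree
`≥ 1`). `hcov` (`b ≠ g`): `d b + 4 ≤ n + 1 + e + (fo F b + fi F b)`: only a vertex `u` with
`d u = n - 2`, `e = 0` requires `fo F u + fi F u ≥ 1` (for `n = 3` see below).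
* `n = 3` (then `e = 0` by parity and `hmod`) or `n = 4` (`e = 1`): `L = 0` by `IsLeave.three`
  (`T = univ` or `univ.erase g`; `3 ∣ tot L` from `hτ`). `F = 0`; `n = 3`: `τ = 0`; `n = 4`: `3 τ = 6`.
  `τ' = 0`.
* Otherwise `n ≥ 7` (`hmod` excludes `n = 5`, `e = 0` and `n = 6`, `e = 1`), so `r ≥ 3`.
  `e = 1`: `3 τ = tot L + n + 2 ≥ 10`; `τ` even: `F = 0`; `τ` odd: then `L ≠ 0` (`n + 2` is even),
  `F = U b c` for an arc `b → c`.
  `e = 0`: if there is `u` with `d u = n - 2`: it is unique (`N⁺(u) = S \ {u, g}`, and a second one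
  would be adjacent to it, contradicting `adj0`), `tot L ≥ n - 2 > 0`; `τ` odd: `F = U u x`,
  `τ` even (`≥ 2`): `F = U u x + U u x'` with `x ≠ x'` in `N⁺(u)`. If there is no such `u`: `F = 0` if
  `τ` is even, `F = U b c` if `τ` is odd (then `L ≠ 0`).
-/

set_option autoImplicit false

namespace MQ94

open IsLeave

section P2R

variable {S : Type} [Fintype S] [DecidableEq S] {L : S → S → ℕ} {d : S → ℕ} {n e τ : ℕ}

private theorem p2r_apply (h : IsLeave L d n e τ) (hn : 3 ≤ n) (hpar : Odd (n + e)) (g : S)
    (hg : d g = 0) (F : S → S → ℕ) (hF : ∀ b c, F b c ≤ L b c) (hFo : ∀ b, fo F b ≤ 2)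
    (hFi : ∀ b, fi F b ≤ 1)
    (hcov : ∀ b, b ≠ g → d b + 4 ≤ n + 1 + e + (fo F b + fi F b)) (τ' : ℕ)
    (hτ' : τ' + tot F + 2 * e = τ) (heven : Even τ') (hsmall : n + e ≤ 5 → τ' = 0) :
    TriDec (lev (n + 1 + e) (fun _ => 1) L) := by
  have he := h.he
  obtain ⟨m, hm⟩ := hpar
  have hFg : fo F g = 0 ∧ fi F g = 0 := by
    have h1 := fo_mono hF g
    have h2 := fi_mono hF g
    rw [h.out g, hg] at h1
    rw [h.inn g, hg] at h2
    omega
  refine P_real L F d n e m 2 τ τ' g {g} h.card (by omega) ?_ ?_ hg h.out h.inn hF ?_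
    hFo (fun b => le_trans (hFi b) (by omega)) ?_ ?_ h.hτ ?_ heven ?_ ?_
  · rw [Finset.card_singleton]
  · simp
  · intro b hb
    rw [Finset.mem_singleton] at hb
    rw [hb]
    exact hFg
  · intro b hb
    rw [Finset.mem_singleton] at hb
    rw [hb]
    omega
  · intro b hb
    rw [Finset.mem_singleton] at hb
    have := hcov b hb
    omega
  · omega
  · intro hr3
    exact hsmall (by omega)
  · intro P Q hgP hgQ h1 h2 h3
    have hPe : P = ∅ := by
      apply Finset.eq_empty_iff_forall_notMem.mpr
      intro b hb
      have hbR : b ∉ ({g} : Finset S) := by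
        rw [Finset.mem_singleton]
        rintro rfl
        exact hgP hb
      have h4 := h1 b hb hbR
      have h5 := hFi b
      omega
    rw [hPe, Finset.sum_empty]
    exact ⟨0, rfl⟩

end P2R

theorem caseP2R {S : Type} [Fintype S] [DecidableEq S] {L : S → S → ℕ} {d : S → ℕ} {n e τ : ℕ}
    (h : IsLeave L d n e τ) (hn : 3 ≤ n) (hpar : Odd (n + e)) (g : S) (hg : d g = 0) :
    TriDec (lev (n + 1 + e) (fun _ => 1) L) := by
  have he := h.he
  have hmod := h.hmod
  have hτ := h.hτ
  have hp : (n + e) % 2 = 1 := Nat.odd_iff.1 hpar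
  by_cases hn4 : n ≤ 4
  · -- no arcs
    have h0 : ∀ b c, L b c = 0 := by
      refine h.three (Finset.univ.erase g) ?_ ?_ ?_
      · intro b hb
        by_cases hbg : b = g
        · rw [hbg]
          exact hg
        · exact absurd (Finset.mem_erase.mpr ⟨hbg, Finset.mem_univ b⟩) hb
      · have h2 := Finset.card_erase_add_one (Finset.mem_univ g)
        rw [Finset.card_univ, h.card] at h2
        omega
      · rcases Nat.lt_or_ge 0 e with h2 | h2
        · have h3 : e = 1 := by omega
          subst h3
          omega
        · have h3 : e = 0 := by omega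
          subst h3
          omega
    have ht0 : tot L = 0 := by
      unfold tot
      exact Finset.sum_eq_zero fun b _ => Finset.sum_eq_zero fun c _ => h0 b c
    have hd0 : ∀ b, d b = 0 := by
      intro b
      rw [← h.out b]
      exact Finset.sum_eq_zero fun c _ => h0 b c
    refine p2r_apply h hn hpar g hg cp3Zero cp3Zero_le (fun b => by rw [cp3Zero_fo]; omega)
      (fun b => by rw [cp3Zero_fi]; omega) ?_ 0 ?_ ⟨0, rfl⟩ (fun _ => rfl)
    · intro b _
      rw [hd0 b]
      omega
    · rw [cp3Zero_tot]
      rw [ht0] at hτ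
      rcases Nat.lt_or_ge 0 e with h2 | h2
      · have h3 : e = 1 := by omega
        subst h3
        omega
      · have h3 : e = 0 := by omega
        subst h3
        omega
  have hn7 : 7 ≤ n := by
    rcases Nat.lt_or_ge 0 e with h2 | h2
    · have h3 : e = 1 := by omega
      subst h3
      omega
    · have h3 : e = 0 := by omega
      subst h3
      omega
  have hdn : ∀ b, d b + 2 ≤ n := by
    intro b
    by_cases hb : d b = 0
    · omega
    · obtain ⟨c, hc⟩ := h.leave_exists_out (b := b) (by omega)
      have h1 := h.adj0 hg hc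
      have h2 := h.pos_right hc
      omega
  -- at most one arc in `F`
  have hone : (∀ b, b ≠ g → d b + 4 ≤ n + 1 + e) → (e = 1 → 3 ≤ τ) →
      TriDec (lev (n + 1 + e) (fun _ => 1) L) := by
    intro hc hτ3
    by_cases hpt : Even τ
    · refine p2r_apply h hn hpar g hg cp3Zero cp3Zero_le (fun b => by rw [cp3Zero_fo]; omega)
        (fun b => by rw [cp3Zero_fi]; omega) ?_ (τ - 2 * e) ?_ ?_ (by omega)
      · intro b hb
        have := hc b hb
        omega
      · rw [cp3Zero_tot]
        omega
      · rw [Nat.even_iff] at hpt ⊢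
        omega
    · obtain ⟨b, c, hbc⟩ : ∃ b c, L b c ≠ 0 := by
        by_contra hcon
        push Not at hcon
        have ht0 : tot L = 0 := by
          unfold tot
          exact Finset.sum_eq_zero fun b _ => Finset.sum_eq_zero fun c _ => hcon b c
        rw [Nat.even_iff] at hpt
        rcases Nat.lt_or_ge 0 e with h2 | h2
        · have h3 : e = 1 := by omega
          subst h3
          omega
        · have h3 : e = 0 := by omega
          subst h3
          omega
      refine p2r_apply h hn hpar g hg (cp3Add cp3Zero b c) (cp3Add_le cp3Zero_le rfl hbc)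
        (fun x => ?_) (fun x => ?_) ?_ (τ - 2 * e - 1) ?_ ?_ (by omega)
      · rw [cp3Add_fo, cp3Zero_fo]
        split_ifs <;> omega
      · rw [cp3Add_fi, cp3Zero_fi]
        split_ifs <;> omega
      · intro x hx
        have := hc x hx
        omega
      · rw [cp3Add_tot, cp3Zero_tot]
        rw [Nat.even_iff] at hpt
        omega
      · rw [Nat.even_iff] at hpt ⊢
        omega
  rcases Nat.lt_or_ge 0 e with h2 | h2
  · have h3 : e = 1 := by omega
    subst h3
    exact hone (fun b _ => by have := hdn b; omega) (fun _ => by omega)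
  · have h3 : e = 0 := by omega
    subst h3
    by_cases hu : ∃ u, d u + 2 = n
    · obtain ⟨u, hu⟩ := hu
      have hug : u ≠ g := by
        rintro rfl
        omega
      have hsub : outN L u ⊆ (Finset.univ.erase u).erase g := by
        intro x hx
        rw [leave_mem_outN] at hx
        refine Finset.mem_erase.2 ⟨?_, Finset.mem_erase.2 ⟨?_, Finset.mem_univ _⟩⟩
        · rintro rfl
          have := h.pos_right hx
          omega
        · rintro rfl
          exact hx (h.irrefl x)
      have hc1 : ((Finset.univ.erase u).erase g).card + 2 = n := by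
        have e1 := Finset.card_erase_add_one (s := Finset.univ.erase u) (a := g)
          (Finset.mem_erase.2 ⟨Ne.symm hug, Finset.mem_univ _⟩)
        have e2 := Finset.card_erase_add_one (Finset.mem_univ u)
        rw [Finset.card_univ, h.card] at e2
        omega
      have heq : outN L u = (Finset.univ.erase u).erase g := by
        apply Finset.eq_of_subset_of_card_le hsub
        rw [card_outN h]
        omega
      have hcov : ∀ b, b ≠ g → b ≠ u → d b + 3 ≤ n := by
        intro b hbg hbu
        have h1 : b ∈ outN L u := by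
          rw [heq]
          exact Finset.mem_erase.2 ⟨hbg, Finset.mem_erase.2 ⟨hbu, Finset.mem_univ _⟩⟩
        rw [leave_mem_outN] at h1
        have h2 := h.adj0 hg h1
        omega
      have hτ1 : 1 ≤ τ := by
        have h1 : fo L u ≤ tot L := by
          rw [tot_eq_sum_fo]
          exact Finset.single_le_sum (f := fun b => fo L b) (fun _ _ => Nat.zero_le _)
            (Finset.mem_univ u)
        rw [h.out u] at h1
        omega
      obtain ⟨x, hx⟩ := h.leave_exists_out (b := u) (by omega)
      by_cases hpt : Even τ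
      · obtain ⟨x', hx', hxx'⟩ := cp3_out_avoid h u {x} (by rw [Finset.card_singleton]; omega)
        rw [Finset.mem_singleton] at hxx'
        refine p2r_apply h hn hpar g hg (cp3Add (cp3Add cp3Zero u x) u x')
          (cp3Add_le (cp3Add_le cp3Zero_le rfl hx) ?_ hx')
          (fun z => ?_) (fun z => ?_) ?_ (τ - 2) ?_ ?_ (by omega)
        · rw [cp3Add_ne _ (Or.inr hxx')]
          rfl
        · rw [cp3Add_fo, cp3Add_fo, cp3Zero_fo]
          split_ifs <;> omega
        · rw [cp3Add_fi, cp3Add_fi, cp3Zero_fi]
          by_cases hz : z = x'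
          · rw [if_pos hz, if_neg (fun h1 => hxx' (hz.symm.trans h1))]
          · rw [if_neg hz]
            split_ifs <;> omega
        · intro z hz
          rw [cp3Add_fo, cp3Add_fo, cp3Zero_fo]
          by_cases hzu : z = u
          · rw [if_pos hzu, hzu]
            omega
          · have := hcov z hz hzu
            omega
        · rw [cp3Add_tot, cp3Add_tot, cp3Zero_tot]
          rw [Nat.even_iff] at hpt
          omega
        · rw [Nat.even_iff] at hpt ⊢
          omega
      · refine p2r_apply h hn hpar g hg (cp3Add cp3Zero u x) (cp3Add_le cp3Zero_le rfl hx)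
          (fun z => ?_) (fun z => ?_) ?_ (τ - 1) ?_ ?_ (by omega)
        · rw [cp3Add_fo, cp3Zero_fo]
          split_ifs <;> omega
        · rw [cp3Add_fi, cp3Zero_fi]
          split_ifs <;> omega
        · intro z hz
          rw [cp3Add_fo, cp3Zero_fo]
          by_cases hzu : z = u
          · rw [if_pos hzu, hzu]
            omega
          · have := hcov z hz hzu
            omega
        · rw [cp3Add_tot, cp3Zero_tot]
          omega
        · rw [Nat.even_iff] at hpt ⊢
          omega
    · push Not at hu
      refine hone (fun b _ => ?_) (fun h0 => absurd h0 (by norm_num))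
      have h1 := hdn b
      have h3 := hu b
      omega

end MQ94
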