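import Pool.Agent.MQ94.HallF
import Pool.Agent.MQ94.PRV

/-!
# Module MQ-CP3V (MP_aaabe1_al): minimum degree `m ≥ 3`, `n ≤ 3 m`, `w` odd (see `CasePV.lean`)
-/

set_option autoImplicit false

namespace MQ94

open IsLeave

section P3V

variable {S : Type} [Fintype S] [DecidableEq S] {L : S → S → ℕ} {d : S → ℕ} {n e τ : ℕ}

private theorem p3v_deg (h : IsLeave L d n e τ) {m : ℕ} (hm : 3 ≤ m) (hmin : ∀ b, m ≤ d b) (b : S) :
    d b + m ≤ n := by
  obtain ⟨c, hc⟩ := leave_exists_out h (b := b) (by have := hmin b; omega)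
  have h1 := adj h hc
  have h2 := hmin c
  omega

private theorem p3v_tot (h : IsLeave L d n e τ) {m : ℕ} (hmin : ∀ b, m ≤ d b) :
    m * n ≤ tot L := by
  rw [tot_eq_sum_fo]
  have h1 : ∑ _b : S, m ≤ ∑ b : S, fo L b :=
    Finset.sum_le_sum fun b _ => by rw [h.out b]; exact hmin b
  rw [Finset.sum_const, Finset.card_univ, h.card, smul_eq_mul] at h1
  rwa [mul_comm] at h1

/-- the extra arc -/
private theorem p3v_extra (h : IsLeave L d n e τ) {m : ℕ} (hm : 3 ≤ m) (hmin : ∀ b, m ≤ d b)
    {g : S} (hg : d g = m) {R : Finset S} (hR : R.card = 2) (hgR : g ∈ R)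
    {F₀ : S → S → ℕ} (hFR : ∀ b ∈ R, fo F₀ b = 0 ∧ fi F₀ b = 0) (htot : tot F₀ + 2 = n) :
    ∃ b x0, b ∉ R ∧ x0 ∉ R ∧ fo F₀ b ≤ 2 ∧ L b x0 ≠ 0 ∧ F₀ b x0 = 0 := by
  by_contra hcon
  push Not at hcon
  have hout : ∀ b, d b ≤ (outN L b \ R).card + 2 := by
    intro b
    have h1 := Finset.le_card_sdiff R (outN L b)
    rw [card_outN h, hR] at h1
    omega
  -- no vertex outside R has `fo F₀ = 0`
  have h1 : ∀ b, b ∉ R → 1 ≤ fo F₀ b := by
    intro b hb
    by_contra h0
    have h0' : fo F₀ b = 0 := by omega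
    have h2 := hout b
    have h3 := hmin b
    have h4 : 0 < (outN L b \ R).card := by omega
    obtain ⟨x, hx⟩ := Finset.card_pos.1 h4
    rw [Finset.mem_sdiff, leave_mem_outN] at hx
    have h5 := hcon b x hb hx.2 (by omega) hx.1
    have h6 := le_fo F₀ b x
    omega
  -- so all are one
  have hsum : ∑ b ∈ Finset.univ \ R, fo F₀ b + ∑ b ∈ R, fo F₀ b = tot F₀ := by
    rw [tot_eq_sum_fo]
    exact Finset.sum_sdiff (Finset.subset_univ R)
  have hsumR : ∑ b ∈ R, fo F₀ b = 0 := Finset.sum_eq_zero fun b hb => (hFR b hb).1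
  have hcard : (Finset.univ \ R).card + 2 = n := by
    have := Finset.card_sdiff_add_card_eq_card (Finset.subset_univ R)
    rw [hR, Finset.card_univ, h.card] at this
    exact this
  have h2 : ∀ b, b ∉ R → fo F₀ b = 1 := by
    intro b hb
    by_contra h0
    have h3 : ∑ x ∈ Finset.univ \ R, 1 < ∑ x ∈ Finset.univ \ R, fo F₀ x := by
      refine Finset.sum_lt_sum (fun x hx => h1 x (Finset.mem_sdiff.1 hx).2) ⟨b, ?_, ?_⟩
      · simp [hb]
      · have := h1 b hb
        omega
    rw [← Finset.card_eq_sum_ones] at h3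
    omega
  -- every vertex outside R sends an arc to `g`
  have h3 : ∀ b, b ∉ R → L b g ≠ 0 := by
    intro b hb hbg
    have h4 : (outN L b \ R).card ≤ fo F₀ b := by
      rw [Finset.card_eq_sum_ones]
      calc ∑ x ∈ outN L b \ R, 1 ≤ ∑ x ∈ outN L b \ R, F₀ b x := by
            refine Finset.sum_le_sum fun x hx => ?_
            rw [Finset.mem_sdiff, leave_mem_outN] at hx
            have := hcon b x hb hx.2 (by rw [h2 b hb]; omega) hx.1
            omega
        _ ≤ fo F₀ b := Finset.sum_le_sum_of_subset (Finset.subset_univ _)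
    have h5 : outN L b ∩ R ⊆ R.erase g := by
      intro x hx
      rw [Finset.mem_inter, leave_mem_outN] at hx
      refine Finset.mem_erase.2 ⟨?_, hx.2⟩
      rintro rfl
      exact hx.1 hbg
    have h6 := Finset.card_le_card h5
    rw [Finset.card_erase_of_mem hgR, hR] at h6
    have h7 := Finset.card_sdiff_add_card_inter (outN L b) R
    rw [card_outN h] at h7
    have h8 := hmin b
    have h9 := h2 b hb
    omega
  have h4 : Finset.univ \ R ⊆ inN L g := by
    intro b hb
    rw [leave_mem_inN]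
    exact h3 b (Finset.mem_sdiff.1 hb).2
  have h5 := Finset.card_le_card h4
  rw [card_inN h, hg] at h5
  have h6 := p3v_deg h hm hmin g
  omega

/-- the final application of `P_virt` -/
private theorem p3v_main (h : IsLeave L d n e τ) {m : ℕ} (hm : 3 ≤ m) (hmin : ∀ b, m ≤ d b)
    (hn : n ≤ 3 * m) (hn7 : 7 ≤ n) (hpar : Even (n + e)) {R : Finset S} (hR : R.card = 2)
    (F : S → S → ℕ) (hF : ∀ b c, F b c ≤ L b c) (hFR : ∀ b ∈ R, fo F b = 0 ∧ fi F b = 0)
    (hFo : ∀ b, fo F b ≤ 3) (hFi1 : ∀ b, b ∉ R → 1 ≤ fi F b) (hFi2 : ∀ b, fi F b ≤ 2)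
    (htot : n ≤ tot F + 2) (htot' : tot F + 1 ≤ n) (τ' : ℕ) (hτ' : τ' + tot F + 3 * e = τ)
    (heven : Even τ') : TriDec (lev (n + 1 + e) (fun _ => 1) L) := by
  obtain ⟨q, hq⟩ := hpar
  have he := h.he
  have hmod := h.hmod
  have hcase : 4 ≤ m ∨ e = 1 := by
    by_contra hc
    push Not at hc
    have hm3 : m = 3 := by omega
    have he0 : e = 0 := by omega
    subst hm3
    subst he0
    omega
  have hdeg := fun b => p3v_deg h hm hmin b
  refine P_virt L F d n e (q - 1) 3 τ τ' R h.card (by omega) (by omega) h.out h.inn hF hFR hFo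
    (fun b => by have := hFi2 b; omega) ?_ ?_ (by omega) h.hτ hτ' heven (by omega) ?_
  · intro b _
    have := hdeg b
    omega
  · intro b hb
    have h1 := hdeg b
    have h2 := hFi1 b hb
    omega
  · intro P Q hP hPQ hδ
    have hPR : P ⊆ R := by
      intro b hb
      by_contra hbR
      have h1 := hP b hb hbR
      have h2 := hFi2 b
      omega
    have hPe : P = ∅ := by
      rw [Finset.eq_empty_iff_forall_notMem]
      intro ρ hρ
      have hρR := hPR hρ
      have h1 : pδ (n + 1 + e) 3 d F R ρ ≠ 0 := by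
        unfold pδ
        rw [if_pos hρR]
        have := hdeg ρ
        omega
      have hρQ : ρ ∈ Q := (hδ ρ h1).1 hρ
      have h2 : inN L ρ ⊆ R.erase ρ := by
        intro c hc
        rw [leave_mem_inN] at hc
        have h3 : F c ρ = 0 := by
          have h4 := le_fi F c ρ
          have h5 := (hFR ρ hρR).2
          omega
        have h4 : c ∈ P := (hPQ c ρ (by omega)).2 hρQ
        refine Finset.mem_erase.2 ⟨?_, hPR h4⟩
        rintro rfl
        exact hc (h.irrefl _)
      have h3 := Finset.card_le_card h2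
      rw [card_inN h, Finset.card_erase_of_mem hρR, hR] at h3
      have h4 := hmin ρ
      omega
    rw [hPe]
    simp

end P3V

theorem caseP3V_aux {S : Type} [Fintype S] [DecidableEq S] {L : S → S → ℕ} {d : S → ℕ} {n e τ : ℕ}
    (h : IsLeave L d n e τ) (m : ℕ) (hm : 3 ≤ m) (hmin : ∀ b, m ≤ d b) (hn : n ≤ 3 * m)
    (hn7 : 7 ≤ n) (hpar : Even (n + e)) (g : S) (hg : d g = m) :
    TriDec (lev (n + 1 + e) (fun _ => 1) L) := by
  have hcard := h.card
  obtain ⟨r2, hr2⟩ : ∃ r2, r2 ≠ g := by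
    have h1 : 1 < Fintype.card S := by omega
    have := Fintype.one_lt_card_iff_nontrivial.1 h1
    exact exists_ne g
  have hR : ({g, r2} : Finset S).card = 2 := Finset.card_pair (Ne.symm hr2)
  obtain ⟨F₀, hF0, hFR, hFi, hFo⟩ := hallF h m hm hmin hn 3 (Or.inr rfl) {g, r2} (by omega) g hg
    (by simp)
  set R : Finset S := {g, r2} with hRdef
  have hgR : g ∈ R := by simp [hRdef]
  have hcardR : (Finset.univ \ R).card + 2 = n := by
    have := Finset.card_sdiff_add_card_eq_card (Finset.subset_univ R)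
    rw [hR, Finset.card_univ, h.card] at this
    exact this
  have htot : tot F₀ + 2 = n := by
    have h1 : ∑ b ∈ Finset.univ \ R, fi F₀ b + ∑ b ∈ R, fi F₀ b = tot F₀ := by
      rw [tot_eq_sum_fi]
      exact Finset.sum_sdiff (Finset.subset_univ R)
    have h2 : ∑ b ∈ R, fi F₀ b = 0 := Finset.sum_eq_zero fun b hb => (hFR b hb).2
    have h3 : ∑ b ∈ Finset.univ \ R, fi F₀ b = (Finset.univ \ R).card := by
      rw [Finset.card_eq_sum_ones]
      exact Finset.sum_congr rfl fun b hb => hFi b (Finset.mem_sdiff.1 hb).2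
    omega
  have hfi01 : ∀ b, fi F₀ b ≤ 1 := by
    intro b
    by_cases hb : b ∈ R
    · rw [(hFR b hb).2]; omega
    · rw [hFi b hb]
  have hτb : n + 3 * e ≤ τ := by
    have h1 := p3v_tot h hmin
    have h2 := h.hτ
    have h3 : 3 * n ≤ m * n := Nat.mul_le_mul_right n hm
    rcases Nat.le_one_iff_eq_zero_or_eq_one.1 h.he with he | he
    · subst he; omega
    · subst he; omega
  by_cases hpar' : Even (τ - 3 * e - (n - 2))
  · exact p3v_main h hm hmin hn hn7 hpar hR F₀ hF0 hFR hFo (fun b hb => (hFi b hb).ge)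
      (fun b => (hfi01 b).trans (by omega)) (by omega) (by omega) (τ - 3 * e - (n - 2))
      (by omega) hpar'
  · obtain ⟨b, x0, hbR, hxR, hfo2, hLb, hF0b⟩ := p3v_extra h hm hmin hg hR hgR hFR htot
    have hodd : Even (τ - 3 * e - (n - 1)) := by
      rw [Nat.not_even_iff_odd] at hpar'
      obtain ⟨k, hk⟩ := hpar'
      exact ⟨k, by omega⟩
    refine p3v_main h hm hmin hn hn7 hpar hR (fun x y => F₀ x y + U b x0 x y) ?_ ?_ ?_ ?_ ?_ ?_ ?_
      (τ - 3 * e - (n - 1)) ?_ hodd
    · intro x y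
      by_cases hxy : x = b ∧ y = x0
      · obtain ⟨rfl, rfl⟩ := hxy
        rw [hF0b, U_self]
        omega
      · have : U b x0 x y = 0 := by unfold U; rw [if_neg hxy]
        rw [this]
        exact hF0 x y
    · intro x hx
      rw [fo_add, fi_add, fo_U, fi_U, (hFR x hx).1, (hFR x hx).2]
      have h1 : x ≠ b := fun hh => hbR (hh ▸ hx)
      have h2 : x ≠ x0 := fun hh => hxR (hh ▸ hx)
      simp [h1, h2]
    · intro x
      rw [fo_add, fo_U]
      split_ifs with hx
      · rw [hx]; omega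
      · exact hFo x
    · intro x hx
      rw [fi_add, hFi x hx]
      omega
    · intro x
      rw [fi_add, fi_U]
      have := hfi01 x
      split_ifs <;> omega
    · rw [tot_add, tot_U]; omega
    · rw [tot_add, tot_U]; omega
    · rw [tot_add, tot_U]; omega

end MQ94
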