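import Pool.Agent.MQ94.HallF
import Pool.Agent.MQ94.PRV
import Pool.Agent.MQ94.CaseP3V

/-!
# Module MQ-CPV (MP_aaabe1_al, helper94): minimum degree `m ≥ 3`, `n ≤ 3 m`

All degrees are at most `n - m` (`adj`, a neighbour has degree `≥ m`), `tot L ≥ m n`.
Sizes: `e = 0`: `3 τ ≥ 3 n`; `e = 1`: `3 τ ≥ 3 n + n + 2 ≥ 3 n + 6`, so `τ ≥ n + 2` (and `τ ≥ n` for
`e = 0`).

**caseP2V** (`w` even). `P_virt` with `k = 2`, `R = {g}`, `2 r = n + e - 1`; `n ≥ 7` (`n ≥ 2 m ≥ 6`, and
`n = 6` would give `e = 1`, excluded by `hmod`), so `r ≥ 3`. `F₀` from `hallF`: `fi F₀ b = 1` for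
`b ≠ g`, `fo F₀ ≤ 2`, `tot F₀ = n - 1`. If `τ + n - 1` is even let `F = F₀`. Otherwise
`F = F₀ + U b x0`: some `b ≠ g` has `fo F₀ b ≤ 1` (the sum over the `n - 1` vertices `b ≠ g` is `n - 1`),
and among its `d b ≥ 3` out-arcs at most one goes to `g` and at most one is in `F₀`; `x0 ≠ g`,
`F₀ b x0 = 0`. `τ' = τ - 2 e - tot F`, `tot F ≤ n`. `hcov`: `d b + 4 ≤ n - 3 + 4`. `hκ`:
`n + 1 + e ≤ n - 1 + 2 + 2 e`.
`hev`: every `pδ` is positive: `b ≠ g`: `n + 1 + e + 1 - (n - 3) - 4 ≥ 1`; `g`:
`n + 1 + e - m - 2 ≥ m - 1 > 0`. So `P = Q`. If `b ∈ P`, `b ≠ g`, then `fi F b = 2`, so `b = x0`. If `g ∈ P`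
then the `m ≥ 3` out-neighbours `c` of `g` (`F g c = 0 < L g c`) are in `Q = P`, all equal to `x0`, a
contradiction. If `x0 ∈ P`, it has an out-arc not in `F` (`d x0 ≥ 3 > 2 ≥ fo F x0`) to some
`c ∈ Q = P`, `c ≠ x0`, `c ≠ g`: contradiction. So `P = ∅`.

**caseP3V** (`w` odd, `n ≥ 7`). `P_virt` with `k = 3`, `R = {g, r2}`, `r2 ≠ g` arbitrary,
`2 r = n + e - 2 ≥ 6`. `F₀` from `hallF`, `tot F₀ = n - 2`. If `τ + e + n - 2` is even, `F = F₀`;
otherwise `F = F₀ + U b x0` with `b, x0 ∉ R`, `fo F₀ b ≤ 2`, `L b x0 = 1`, `F₀ b x0 = 0`. Existence: if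
some `b ∉ R` has `fo F₀ b = 0`, it has at least `d b - 2 ≥ 1` out-arcs avoiding `R`. Otherwise all
`fo F₀ b = 1` for `b ∉ R` (sum `n - 2`); if there is no such arc then for every `b ∉ R`
`d b ≤ 1 + L b g + L b r2`, so `b → g` for all `b ∉ R`, `m = d g ≥ n - 2`, contradicting `n ≥ 2 m`.
`τ' = τ - 3 e - tot F`, `tot F ≤ n - 1`. `hcovR`: `d b + 3 ≤ n`. `hcov`: `d b + 6 ≤ n + 1 + e + 1` because
`fi F b ≥ 1` and `d b ≤ n - m`: true if `m ≥ 4` or `e = 1`; if `m = 3`, `e = 0` then `7 ≤ n ≤ 9`, `n`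
even, `n = 8`, excluded by `hmod`. `hκ`: `n + 1 + e ≤ n - 2 + 3 + 3 e`.
`hev`: `fi F b ≤ 2 < 3` so `P ⊆ R`. If `ρ ∈ P ∩ R`: `pδ ρ = n + 1 + e - d ρ - 3 > 0`, so `ρ ∈ Q`, and all its
in-neighbours (`F c ρ = 0`) are in `P`; there are `≥ 3`, at most one is in `R`: contradiction.
-/

set_option autoImplicit false

namespace MQ94

/-- the count of the vertices different from `g` -/
private theorem p2v_sum_ne {S : Type} [Fintype S] [DecidableEq S] {n : ℕ} (hc : Fintype.card S = n)
    (g : S) : ∑ c : S, (if c = g then 0 else 1) + 1 = n := by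
  have h1 : ∑ c : S, (if c = g then 0 else 1) + ∑ c : S, (if c = g then 1 else 0)
      = ∑ _c : S, 1 := by
    rw [← Finset.sum_add_distrib]
    refine Finset.sum_congr rfl fun c _ => ?_
    split_ifs <;> rfl
  rw [Finset.sum_ite_eq' Finset.univ g (fun _ => 1), if_pos (Finset.mem_univ g)] at h1
  rw [h1]
  simp [hc]

/-- an out-neighbour -/
private theorem p2v_exists_out {S : Type} [Fintype S] [DecidableEq S] {L : S → S → ℕ} {d : S → ℕ}
    {n e τ : ℕ} (h : IsLeave L d n e τ) {b : S} (hb : 1 ≤ d b) : ∃ c, L b c ≠ 0 := by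
  by_contra hc
  push Not at hc
  have h1 := h.out b
  unfold fo at h1
  rw [Finset.sum_eq_zero fun c _ => hc c] at h1
  omega

/-- all degrees are at most `n - m` -/
private theorem p2v_deg {S : Type} [Fintype S] [DecidableEq S] {L : S → S → ℕ} {d : S → ℕ}
    {n e τ : ℕ} (h : IsLeave L d n e τ) (m : ℕ) (hm : 3 ≤ m) (hmin : ∀ b, m ≤ d b) (b : S) :
    d b + m ≤ n := by
  obtain ⟨c, hc⟩ := p2v_exists_out h (b := b) (by have := hmin b; omega)
  have h1 := h.adj hc
  have h2 := hmin c
  omega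

private theorem p2v_core {S : Type} [Fintype S] [DecidableEq S] {L : S → S → ℕ} {d : S → ℕ}
    {n e τ : ℕ} (h : IsLeave L d n e τ) (m : ℕ) (hm : 3 ≤ m) (hmin : ∀ b, m ≤ d b) (r : ℕ)
    (hw : n + 1 + e = 2 * r + 2) (hr : 3 ≤ r) (g : S) (hg : d g = m) (F : S → S → ℕ)
    (hF : ∀ b c, F b c ≤ L b c) (hFg : fo F g = 0 ∧ fi F g = 0) (hfi1 : ∀ b, b ≠ g → 1 ≤ fi F b)
    (hFo : ∀ b, fo F b ≤ 2) (hFi : ∀ b, fi F b ≤ 2) (x0 : S) (hx0 : ∀ b, b ≠ g → fi F b = 2 → b = x0)
    (htot : n ≤ tot F + 1) (τ' : ℕ) (hτ' : τ' + tot F + 2 * e = τ) (heven : Even τ') :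
    TriDec (lev (n + 1 + e) (fun _ => 1) L) := by
  have hdeg := p2v_deg h m hm hmin
  have hdg := hdeg g
  refine P_virt L F d n e r 2 τ τ' {g} h.card hw (by simp) h.out h.inn hF ?_ hFo hFi ?_ ?_ ?_
    h.hτ hτ' heven (fun h' => absurd h' (by omega)) ?_
  · intro b hb
    rw [Finset.mem_singleton] at hb
    rw [hb]
    exact hFg
  · intro b hb
    rw [Finset.mem_singleton] at hb
    rw [hb]
    omega
  · intro b _
    have h1 := hdeg b
    omega
  · omega
  · intro P Q hP hPQ hδ
    have hPQ' : ∀ b, b ∈ P ↔ b ∈ Q := by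
      intro b
      refine hδ b ?_
      unfold pδ
      by_cases hb : b = g
      · rw [if_pos (by rw [hb]; exact Finset.mem_singleton_self g), hb]
        omega
      · rw [if_neg (by rw [Finset.mem_singleton]; exact hb)]
        have h1 := hdeg b
        have h2 := hfi1 b hb
        omega
    have harc : ∀ b c, F b c < L b c → b ∈ P → c ∈ P := fun b c hbc hb =>
      (hPQ' c).2 ((hPQ b c hbc).1 hb)
    have hsub : ∀ b ∈ P, b ≠ g → b = x0 := fun b hb hbg =>
      hx0 b hbg (hP b hb (by rw [Finset.mem_singleton]; exact hbg))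
    -- the hub is not in P
    have hgP : g ∉ P := by
      intro hgP
      have h1 : ∀ c ∈ IsLeave.outN L g, c = x0 := by
        intro c hc
        rw [IsLeave.leave_mem_outN] at hc
        have h2 : F g c = 0 := by
          have := le_fo F g c
          omega
        have h3 : c ∈ P := harc g c (by omega) hgP
        refine hsub c h3 ?_
        rintro rfl
        exact hc (h.irrefl c)
      have h2 : (IsLeave.outN L g).card ≤ 1 := by
        rw [Finset.card_le_one]
        intro a ha b hb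
        rw [h1 a ha, h1 b hb]
      rw [h.card_outN] at h2
      omega
    have hempty : P = ∅ := by
      rw [Finset.eq_empty_iff_forall_notMem]
      intro b hb
      have hbg : b ≠ g := fun h' => hgP (h' ▸ hb)
      have hbx := hsub b hb hbg
      -- an out-arc of b not in F
      obtain ⟨c, hc⟩ : ∃ c, F b c < L b c := by
        by_contra hc
        push Not at hc
        have h1 : fo L b ≤ fo F b := Finset.sum_le_sum fun c _ => hc c
        rw [h.out] at h1
        have h2 := hmin b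
        have h3 := hFo b
        omega
      have hcP := harc b c hc hb
      have hcg : c ≠ g := fun h' => hgP (h' ▸ hcP)
      have hcx := hsub c hcP hcg
      rw [hcx, ← hbx, h.irrefl b] at hc
      omega
    rw [hempty, Finset.sum_empty]
    exact Even.zero

theorem caseP2V {S : Type} [Fintype S] [DecidableEq S] {L : S → S → ℕ} {d : S → ℕ} {n e τ : ℕ}
    (h : IsLeave L d n e τ) (m : ℕ) (hm : 3 ≤ m) (hmin : ∀ b, m ≤ d b) (hn : n ≤ 3 * m)
    (hpar : Odd (n + e)) (g : S) (hg : d g = m) : TriDec (lev (n + 1 + e) (fun _ => 1) L) := by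
  have hdeg := p2v_deg h m hm hmin
  have hdg := hdeg g
  have he := h.he
  have hmod := h.hmod
  have hn7 : 7 ≤ n := by
    by_contra hlt
    have h6 : n = 6 := by omega
    rcases hpar with ⟨q, hq⟩
    have h7 : e = 1 := by omega
    rw [h6, h7] at hmod
    exact hmod (by norm_num)
  obtain ⟨r, hr⟩ : ∃ r, n + 1 + e = 2 * r + 2 := by
    rcases hpar with ⟨q, hq⟩
    exact ⟨q, by omega⟩
  have hr3 : 3 ≤ r := by omega
  have htotL : 3 * n ≤ tot L := by
    rw [tot_eq_sum_fo]
    calc 3 * n = ∑ _b : S, 3 := by simp [h.card, mul_comm]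
      _ ≤ ∑ b, fo L b := Finset.sum_le_sum fun b _ => by
        rw [h.out b]
        have := hmin b
        omega
  have hτn : n + 2 * e ≤ τ := by
    have h1 := h.hτ
    have h2 : e = 0 ∨ e = 1 := by omega
    rcases h2 with rfl | rfl
    · omega
    · omega
  obtain ⟨F, hF, hFR, hfi, hfo⟩ := hallF h m hm hmin hn 2 (Or.inl rfl) {g} (by simp) g hg
    (Finset.mem_singleton_self g)
  have hFg := hFR g (Finset.mem_singleton_self g)
  have hfi' : ∀ b, b ≠ g → fi F b = 1 := fun b hb => hfi b (by rw [Finset.mem_singleton]; exact hb)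
  have htot : tot F + 1 = n := by
    rw [tot_eq_sum_fi, ← p2v_sum_ne h.card g]
    congr 1
    refine Finset.sum_congr rfl fun b _ => ?_
    by_cases hb : b = g
    · rw [if_pos hb, hb, hFg.2]
    · rw [if_neg hb, hfi' b hb]
  by_cases hA : Even (τ + tot F)
  · refine p2v_core h m hm hmin r hr hr3 g hg F hF hFg (fun b hb => (hfi' b hb).ge) hfo ?_ g ?_
      (by omega) (τ - tot F - 2 * e) (by omega) ?_
    · intro b
      by_cases hb : b = g
      · rw [hb, hFg.2]; omega
      · rw [hfi' b hb]; omega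
    · intro b hb h2
      rw [hfi' b hb] at h2
      omega
    · rw [Nat.even_iff] at hA ⊢
      omega
  · -- a vertex b ≠ g with at most one out-arc in F
    obtain ⟨b, hbg, hb1⟩ : ∃ b, b ≠ g ∧ fo F b ≤ 1 := by
      by_contra hc
      push Not at hc
      have h1 : 2 * ∑ c : S, (if c = g then 0 else 1) ≤ tot F := by
        rw [tot_eq_sum_fo, Finset.mul_sum]
        refine Finset.sum_le_sum fun c _ => ?_
        by_cases hcg : c = g
        · rw [if_pos hcg]; omega
        · rw [if_neg hcg]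
          have := hc c hcg
          omega
      have h2 := p2v_sum_ne h.card g
      omega
    obtain ⟨x0, hx0L, hx0g, hx0F⟩ : ∃ x0, L b x0 ≠ 0 ∧ x0 ≠ g ∧ F b x0 = 0 := by
      by_contra hc
      push Not at hc
      have h1 : IsLeave.outN L b ⊆ insert g (Finset.univ.filter fun c => F b c ≠ 0) := by
        intro c hcL
        rw [IsLeave.leave_mem_outN] at hcL
        rw [Finset.mem_insert, Finset.mem_filter]
        by_cases hcg : c = g
        · exact Or.inl hcg
        · exact Or.inr ⟨Finset.mem_univ c, hc c hcL hcg⟩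
      have h2 := Finset.card_le_card h1
      have h3 := Finset.card_insert_le g (Finset.univ.filter fun c => F b c ≠ 0)
      have h4 : (Finset.univ.filter fun c => F b c ≠ 0).card ≤ fo F b := by
        rw [Finset.card_filter]
        unfold fo
        refine Finset.sum_le_sum fun c _ => ?_
        split_ifs <;> omega
      rw [h.card_outN] at h2
      have h5 := hmin b
      omega
    have hL1 := h.le_one b x0
    have hfoF : ∀ c, fo (fun x y => F x y + U b x0 x y) c = fo F c + if c = b then 1 else 0 :=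
      fun c => by rw [fo_add, fo_U]
    have hfiF : ∀ c, fi (fun x y => F x y + U b x0 x y) c = fi F c + if c = x0 then 1 else 0 :=
      fun c => by rw [fi_add, fi_U]
    have htotF : tot (fun x y => F x y + U b x0 x y) = tot F + 1 := by rw [tot_add, tot_U]
    refine p2v_core h m hm hmin r hr hr3 g hg (fun x y => F x y + U b x0 x y) ?_ ?_ ?_ ?_ ?_ x0 ?_
      (by rw [htotF]; omega) (τ - (tot F + 1) - 2 * e) (by rw [htotF]; omega) ?_
    · intro x y
      unfold U
      by_cases hxy : x = b ∧ y = x0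
      · rw [if_pos hxy, hxy.1, hxy.2, hx0F]
        omega
      · rw [if_neg hxy]
        have := hF x y
        omega
    · rw [hfoF, hfiF, if_neg (Ne.symm hbg), if_neg (Ne.symm hx0g)]
      exact hFg
    · intro c hc
      rw [hfiF, hfi' c hc]
      omega
    · intro c
      rw [hfoF]
      have := hfo c
      split_ifs with hcb
      · rw [hcb]; omega
      · omega
    · intro c
      rw [hfiF]
      by_cases hcg : c = g
      · rw [hcg, hFg.2, if_neg (Ne.symm hx0g)]
        omega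
      · rw [hfi' c hcg]
        split_ifs <;> omega
    · intro c hc h2
      rw [hfiF, hfi' c hc] at h2
      by_contra hcx
      rw [if_neg hcx] at h2
      omega
    · rw [Nat.even_iff] at hA ⊢
      omega

theorem caseP3V {S : Type} [Fintype S] [DecidableEq S] {L : S → S → ℕ} {d : S → ℕ} {n e τ : ℕ}
    (h : IsLeave L d n e τ) (m : ℕ) (hm : 3 ≤ m) (hmin : ∀ b, m ≤ d b) (hn : n ≤ 3 * m)
    (hn7 : 7 ≤ n) (hpar : Even (n + e)) (g : S) (hg : d g = m) :
    TriDec (lev (n + 1 + e) (fun _ => 1) L) := by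
  exact caseP3V_aux h m hm hmin hn hn7 hpar g hg

end MQ94
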