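import Pool.Agent.MQ94.Leave
import Pool.Agent.MQ94.PRV

/-!
# Module MQ-CSMALL (MP_aaabe1_al, helper94): small cases

* `caseN0`: `n = 0`: the array on `S ⊕ Fin 1` is zero.
* `caseN1`: `n = 1`, `e ≤ 1`: transport to `Fin 1 ⊕ Fin 2`, `Fin 1 ⊕ Fin 3` (Mendelsohn systems of
  orders 3 and 4). Order 4: the triples `(∞, j, j+1)`, `j` mod 3, and `(0, 2, 1)` on
  `{∞} ∪ ℤ/3`; or explicit functions and `decide`.
* `caseFour`: `n = 4`, `e = 0`, `L = 0`: on `Fin 4 ⊕ ℤ/5` the triples `(s, x, x + s + 1)`,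
  `x ∈ ℤ/5`: `t s x y = t x y s = t y s x = 1` iff `y = x + s + 1`; `decide`, or by hand. (Transport
  `S ≃ Fin 4`.)
* `caseD2N5`: `n = 5`, `e = 1`, all degrees `≥ 2` is impossible: `adj` gives degrees `2, 3`. If some
  degree is `3`: `bip` (`T = univ`, `m = 2`): degrees `2` on `X` (`|X| = 3`), `3` outside,
  `tot L = 12`, `3 τ = 19`. Otherwise `tot L = 10`, `3 τ = 17`.
* `caseD2N6`: `n = 6`, `e = 0`, all degrees `≥ 2`, `d g = 2`. `w = 7`.
  Step 1: `tot L = 12`, all degrees `2`. Degrees are `≤ 4` (`adj`). If some degree is `4`: `bip`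
  (`m = 2`), `tot L = 4 * 2 + 2 * 4 = 16`, not divisible by 3. So degrees are `2, 3`; let `A` be the
  set of vertices of degree `3`, `tot L = 12 + |A|`, so `|A| ∈ {0, 3}` (`g ∉ A`). Suppose `|A| = 3`.
  The arcs inside `A` are tight (`3 + 3 = 6`): if `a → a'` then `N⁺(a') = S \ N⁻(a)` (`tightT`,
  `T = univ`), in particular `a' → a`. Let `p` be the number of arcs inside `A`; `9 - p` arcs go from `A` to `A' = S \ A`,
  whose total in-degree is `6`, so `p ≥ 3`; arcs inside `A` come in opposite pairs, so `p ≥ 4`, and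
  not all 6 (directed triangle), so `A = {a1, a2, a3}` with `a1 ↔ a2 ↔ a3` and no arcs between `a1`
  and `a3`. `N⁺(a2) = {a1, a3, β}`, `N⁻(a2) = {a1, a3, β'}` with `β, β' ∈ A'`. Tightness of `a1 → a2`,
  `a3 → a2`, `a2 → a1`, `a2 → a3`: `N⁻(a1) = N⁻(a3) = {a2} ∪ (A' \ β)`,
  `N⁺(a1) = N⁺(a3) = {a2} ∪ (A' \ β')`. A vertex `b ∈ A'`, `b ≠ β` has `N⁺(b) ∋ a1, a3`, `d b = 2`, so
  `N⁺(b) = {a1, a3}`, `b ≠ β'`. So `β' = β`, and for `b ∈ A' \ β` also `N⁻(b) = {a1, a3}`. Then `β` has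
  out-neighbours `a2` and one more, which cannot be `a1, a3` nor in `A' \ β` nor `β`: contradiction.
  Step 2: all degrees `2`, `τ = 4`. Let `r1 → r2` be an arc, `R = {r1, r2}`, `P_virt` with `k = 3`,
  `r = 2`, `tot F = 4`, `τ' = 0`. Every `b ∉ R` has an arc (in or out) to a vertex outside `R`:
  otherwise `N⁺(b) = N⁻(b) = R` and `b → r1 → r2 → b` is a directed triangle. The set `𝒜` of arcs
  avoiding `R` has `12 - (8 - a) ≥ 5` elements, `a = L r1 r2 + L r2 r1 ≥ 1`. Choose for each of the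
  4 vertices outside `R` an arc of `𝒜` at it, and extend this set of at most 4 arcs to a set of
  exactly 4 arcs in `𝒜` (`Finset.exists_subsuperset_card_eq`): this is `F`. `hcov`: `2 + 6 ≤ 7 + 1`.
  `hκ`: `7 ≤ 4 + 3`. `hev`: `fi F b ≤ 2`, so `P ⊆ R`; `ρ ∈ P ∩ R`: `pδ ρ = 7 - 2 - 3 ≠ 0`, `ρ ∈ Q`, one of
  its two in-neighbours is outside `R` and would be in `P`. So `P = ∅`.
-/

set_option autoImplicit false

namespace MQ94

theorem caseN0 {S : Type} [Fintype S] (L : S → S → ℕ) (hS : Fintype.card S = 0) :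
    TriDec (lev 1 (fun _ => 1) L) := by
  have hE : IsEmpty S := Fintype.card_eq_zero_iff.1 hS
  refine TriDec.zero.congr ?_
  rintro (x | p) (y | q)
  · exact hE.elim x
  · exact hE.elim x
  · exact hE.elim y
  · have : p = q := Subsingleton.elim p q
    simp [lev, this]

/-- triples on three points -/
def t3 : (Fin 1 ⊕ Fin 2) → (Fin 1 ⊕ Fin 2) → (Fin 1 ⊕ Fin 2) → ℕ :=
  fun x y z => if x ≠ y ∧ y ≠ z ∧ z ≠ x then 1 else 0

/-- triples on four points -/
def t4 : (Fin 1 ⊕ Fin 3) → (Fin 1 ⊕ Fin 3) → (Fin 1 ⊕ Fin 3) → ℕ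
  | Sum.inl _, Sum.inr j, Sum.inr k => if k = j + 1 then 1 else 0
  | Sum.inr j, Sum.inr k, Sum.inl _ => if k = j + 1 then 1 else 0
  | Sum.inr k, Sum.inl _, Sum.inr j => if k = j + 1 then 1 else 0
  | Sum.inr a, Sum.inr b, Sum.inr c => if b = a + 2 ∧ c = b + 2 then 1 else 0
  | _, _, _ => 0

theorem caseN1 {S : Type} [Fintype S] [DecidableEq S] (L : S → S → ℕ)
    (hS : Fintype.card S = 1) (h0 : ∀ b, L b b = 0) (e : ℕ) (he : e ≤ 1) :
    TriDec (lev (1 + 1 + e) (fun _ => 1) L) := by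
  have e1 : Fin 1 ≃ S := (Fintype.equivFinOfCardEq hS).symm
  have hL : L = fun _ _ => 0 := by
    funext b c
    have hbc : e1.symm b = e1.symm c := Subsingleton.elim _ _
    have hbc' : b = c := e1.symm.injective hbc
    rw [hbc']; exact h0 c
  subst hL
  interval_cases e
  · refine TriDec.equiv (Equiv.sumCongr e1 (Equiv.refl (Fin 2))) ?_
    have h1 : TriDec (lev 2 (fun _ : Fin 1 => 1) (fun _ _ => 0)) := by
      refine ⟨t3, ?_, ?_⟩ <;> decide
    refine h1.congr ?_
    rintro (x | p) (y | q) <;> rfl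
  · refine TriDec.equiv (Equiv.sumCongr e1 (Equiv.refl (Fin 3))) ?_
    have h1 : TriDec (lev 3 (fun _ : Fin 1 => 1) (fun _ _ => 0)) := by
      refine ⟨t4, ?_, ?_⟩ <;> decide
    refine h1.congr ?_
    rintro (x | p) (y | q) <;> rfl

/-- triples on nine points -/
def t9 : (Fin 4 ⊕ Fin 5) → (Fin 4 ⊕ Fin 5) → (Fin 4 ⊕ Fin 5) → ℕ
  | Sum.inl s, Sum.inr x, Sum.inr y => if y = x + s.castSucc + 1 then 1 else 0
  | Sum.inr x, Sum.inr y, Sum.inl s => if y = x + s.castSucc + 1 then 1 else 0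
  | Sum.inr y, Sum.inl s, Sum.inr x => if y = x + s.castSucc + 1 then 1 else 0
  | _, _, _ => 0

theorem caseFour {S : Type} [Fintype S] [DecidableEq S] (L : S → S → ℕ)
    (hS : Fintype.card S = 4) (h0 : ∀ b c, L b c = 0) :
    TriDec (lev (4 + 1 + 0) (fun _ => 1) L) := by
  have e1 : Fin 4 ≃ S := (Fintype.equivFinOfCardEq hS).symm
  have hL : L = fun _ _ => 0 := by
    funext b c
    exact h0 b c
  subst hL
  refine TriDec.equiv (Equiv.sumCongr e1 (Equiv.refl (Fin 5))) ?_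
  have h1 : TriDec (lev 5 (fun _ : Fin 4 => 1) (fun _ _ => 0)) := by
    refine ⟨t9, ?_, ?_⟩
    · rintro (x | p) (y | q) (z | r) <;> simp [t9]
    · rintro (x | p) (y | q)
      · simp [t9, lev]
      · rw [Fintype.sum_sum_type]
        simp [t9, lev]
      · rw [Fintype.sum_sum_type]
        simp only [t9, lev, Finset.sum_const_zero, zero_add]
        revert p y
        decide
      · rw [Fintype.sum_sum_type]
        simp only [t9, lev, Finset.sum_const_zero, add_zero]
        revert p q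
        decide
  refine h1.congr ?_
  rintro (x | p) (y | q) <;> rfl

theorem caseD2N5 {S : Type} [Fintype S] [DecidableEq S] {L : S → S → ℕ} {d : S → ℕ} {τ : ℕ}
    (h : IsLeave L d 5 1 τ) (hmin : ∀ b, 2 ≤ d b) : False := by
  have hle : ∀ b, d b ≤ 3 := by
    intro b
    obtain ⟨c, hc⟩ := h.leave_exists_out (b := b) (by have := hmin b; omega)
    have h1 := h.adj hc
    have h2 := hmin c
    omega
  have htot : tot L = ∑ b, d b := by
    rw [tot_eq_sum_fo]
    exact Finset.sum_congr rfl fun b _ => h.out b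
  have hτ := h.hτ
  have hcard : (Finset.univ : Finset S).card = 5 := by rw [Finset.card_univ, h.card]
  by_cases h3 : ∃ u, d u = 3
  · obtain ⟨u, hu⟩ := h3
    obtain ⟨X, -, hX, -, -, hX2, hX3⟩ := h.bip Finset.univ
      (fun b hb => absurd (Finset.mem_univ b) hb) 2 (by norm_num) (fun b _ => hmin b)
      (Finset.mem_univ u) (by rw [hcard, hu])
    rw [hcard] at hX
    have h4 : ∑ b, d b = ∑ b ∈ X, d b + ∑ b ∈ Xᶜ, d b :=
      (Finset.sum_add_sum_compl X d).symm
    have h5 : ∑ b ∈ X, d b = X.card * 2 := by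
      rw [Finset.sum_congr rfl hX2]; simp
    have h6 : ∑ b ∈ Xᶜ, d b = Xᶜ.card * 3 := by
      have h7 : ∀ b ∈ Xᶜ, d b = 3 := by
        intro b hb
        have := hX3 b (Finset.mem_univ b) (Finset.mem_compl.1 hb)
        rw [hcard] at this
        omega
      rw [Finset.sum_congr rfl h7]; simp
    have h8 : X.card + Xᶜ.card = 5 := by
      rw [Finset.card_add_card_compl, h.card]
    omega
  · push Not at h3
    have h4 : ∀ b, d b = 2 := by
      intro b
      have h5 := hmin b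
      have h6 := hle b
      have h7 := h3 b
      omega
    have h5 : ∑ b, d b = 10 := by
      rw [Finset.sum_congr rfl fun b _ => h4 b]
      simp [h.card]
    omega

end MQ94
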