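import Pool.Agent.MQ94.KMain

/-!
# Module MQ-ZS (MP_aaabe1_al, helper94): one class `z` with the single arc `g → c0`, then `K_main`

`m = d g`, `w = n + 1 + e = 2 r + m + 1`. First `batch_step` with `m = 1`, `M 0 = U g c0`: it remains
to decompose `lev (2 r + m) 1 a₁` on `V₁ = S ⊕ Fin 1` (write `z = inr 0`), `a₁ = bArcs L (fun _ => U g c0)`:
`a₁ b c = L b c - U g c0 b c`, `a₁ z b = 1 - [b = g]`, `a₁ b z = 1 - [b = c0]`, `a₁ z z = 0`. Degrees
`dd₁ (inl b) = d b + 1 - [b = g] - [b = c0]` (out and in), `dd₁ z = n - 1`;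
`tot a₁ = tot L + 2 n - 3`.
Then `K_main` with `N = n + 1`, `s = 2 m - e` and
`F₁ b c = F b c - U g c0 b c`, `F₁ b z = [b = g] + [b ∈ B]`, `F₁ z c = [c ∈ C]`, `F₁ z z = 0`.
`fo F₁ b = fo F b + [b ∈ B]`, `fi F₁ b = fi F b - [b = c0] + [b ∈ C]`, `fo F₁ z = m`,
`fi F₁ z = 1 + |B| = m`, `tot F₁ = tot F + 2 m - 1`.
* `hcov`: for `b ≠ g` it is `d b + 1 + m ≤ 2 r + fo F b + fi F b + [b ∈ B] + [b ∈ C]` (the terms
  `[b = c0]` cancel), `2 r = n + e - m`; for `g` and `z` it is clear.
* `hs`: `m (2 m - e) ≤ tot F + 2 m - 1`; `hs2`: `n + 1 + m ≤ n + e - m + s + 1`.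
* `hcount`: with `2 r = n + e - m` it becomes
  `3 (τ' + tot F + m + m e + e - m²) = tot L + (n + 1 + e) e = 3 τ` (verified by hand).
* `hlink`: `m = 1`: `n + 2 < 2 r + tot F₁ + 1 = n + e + tot F + 1`; `m = 2`: `b0` has
  `fi F₁ b0 = 0` (`b0 ≠ c0` because `fi F c0 ≥ F g c0 = L g c0 > 0`).
* `hev`: let `P, Q` be as in `K_main`. `bs ∉ P` because `fi F₁ bs ≤ m - 1`; `bs → z` is an arc of
  `a₁` not in `F₁`, so `z ∉ Q`; `dd₁ z + m = n - 1 + m < 2 r + 2 m`, so `z ∈ P ↔ z ∈ Q`, `z ∉ P`. Let
  `b ∈ P`, `b ∈ S`, `b ≠ g`. If `b ∉ B` and `b ≠ c0`, then `b → z` is an arc of `a₁` not in `F₁`,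
  so `z ∈ Q`, a contradiction. If `b ∈ B` or `b = c0` then `fi F₁ b ≤ m - 1` by `hB2`, `hc02`, a
  contradiction. So `P = ∅`.
-/

set_option autoImplicit false

namespace MQ94

open Finset

def zF {S : Type} [DecidableEq S] (F : S → S → ℕ) (g c0 : S) (B C : Finset S) :
    S ⊕ Fin 1 → S ⊕ Fin 1 → ℕ
  | Sum.inl b, Sum.inl c => F b c - U g c0 b c
  | Sum.inl b, Sum.inr _ => (if b = g then 1 else 0) + (if b ∈ B then 1 else 0)
  | Sum.inr _, Sum.inl c => if c ∈ C then 1 else 0
  | Sum.inr _, Sum.inr _ => 0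

def zd {S : Type} [DecidableEq S] (d : S → ℕ) (n : ℕ) (g c0 : S) : S ⊕ Fin 1 → ℕ
  | Sum.inl b => d b + 1 - (if b = g then 1 else 0) - (if b = c0 then 1 else 0)
  | Sum.inr _ => n - 1

theorem sum_sub_ind {S : Type} [Fintype S] [DecidableEq S] (f : S → ℕ) (c0 : S) (h : 1 ≤ f c0)
    (p : Prop) [Decidable p] :
    ∑ c, (f c - (if p ∧ c = c0 then 1 else 0)) = ∑ c, f c - (if p then 1 else 0) := by
  by_cases hp : p
  · simp only [hp, true_and, if_true]
    rw [← Finset.add_sum_erase _ _ (Finset.mem_univ c0),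
      ← Finset.add_sum_erase _ f (Finset.mem_univ c0)]
    simp only [if_true]
    have : ∑ x ∈ univ.erase c0, (f x - (if x = c0 then 1 else 0)) = ∑ x ∈ univ.erase c0, f x := by
      apply Finset.sum_congr rfl
      intro x hx
      simp [(Finset.mem_erase.1 hx).1]
    rw [this]
    omega
  · simp [hp]

theorem fo_sub_U {S : Type} [Fintype S] [DecidableEq S] (F : S → S → ℕ) (g c0 : S)
    (h : 1 ≤ F g c0) (b : S) :
    ∑ c, (F b c - U g c0 b c) = fo F b - (if b = g then 1 else 0) := by
  unfold U fo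
  by_cases hb : b = g
  · subst hb
    simpa using sum_sub_ind (F b) c0 h True
  · simp [hb]

theorem fi_sub_U {S : Type} [Fintype S] [DecidableEq S] (F : S → S → ℕ) (g c0 : S)
    (h : 1 ≤ F g c0) (c : S) :
    ∑ b, (F b c - U g c0 b c) = fi F c - (if c = c0 then 1 else 0) := by
  unfold U fi
  by_cases hb : c = c0
  · subst hb
    simpa using sum_sub_ind (fun b => F b c) g h True
  · simp [hb]


theorem Z_S {S : Type} [Fintype S] [DecidableEq S] (L F : S → S → ℕ) (d : S → ℕ)
    (n e r m τ τ' : ℕ) (g c0 : S) (B C : Finset S) (hn : Fintype.card S = n) (hm : 1 ≤ m)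
    (hw : n + e = 2 * r + m)
    (hout : ∀ b, fo L b = d b) (hin : ∀ b, fi L b = d b)
    (hF : ∀ b c, F b c ≤ L b c)
    (hFo : ∀ b, fo F b + (if b ∈ B then 1 else 0) ≤ m)
    (hFi : ∀ b, b ≠ c0 → fi F b + (if b ∈ C then 1 else 0) ≤ m)
    (hg : d g = m) (hgo : ∀ c, F g c = L g c) (hgi : ∀ c, F c g = L c g)
    (hc0 : 0 < L g c0) (hgc0 : c0 ≠ g)
    (hB : B.card + 1 = m) (hC : C.card = m) (hgB : g ∉ B) (hgC : g ∉ C) (hc0B : c0 ∉ B)
    (hcov : ∀ b, b ≠ g → d b + 2 * m + 1 ≤ n + e + (fo F b + fi F b)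
      + (if b ∈ B then 1 else 0) + (if b ∈ C then 1 else 0))
    (hs : 2 * m * m + 1 ≤ tot F + 2 * m + m * e)
    (hτ : 3 * τ = tot L + (n + 1 + e) * e)
    (hτ' : τ' + tot F + m + m * e + e = τ + m * m)
    (heven : Even τ') (hsmall : r ≤ 2 → τ' = 0)
    (hlink : 3 ≤ m ∨ (m = 1 ∧ 1 < tot F + e) ∨ (m = 2 ∧ ∃ b0, b0 ≠ g ∧ b0 ∉ C ∧ fi F b0 = 0))
    (hbs : ∃ bs, bs ≠ g ∧ bs ≠ c0 ∧ bs ∉ B ∧ fi F bs + (if bs ∈ C then 1 else 0) + 1 ≤ m)
    (hB2 : ∀ b ∈ B, fi F b + (if b ∈ C then 1 else 0) + 1 ≤ m)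
    (hc02 : fi F c0 + (if c0 ∈ C then 1 else 0) ≤ m) :
    TriDec (lev (n + 1 + e) (fun _ => 1) L) := by
  classical
  have hFg1 : 1 ≤ F g c0 := by rw [hgo]; exact hc0
  have hLg1 : 1 ≤ L g c0 := hc0
  have hfoFg : fo F g = m := by
    rw [← hg, ← hout g]; unfold fo; exact Finset.sum_congr rfl fun c _ => hgo c
  have hfiFg : fi F g = m := by
    rw [← hg, ← hin g]; unfold fi; exact Finset.sum_congr rfl fun c _ => hgi c
  have hfiFc0 : 1 ≤ fi F c0 := le_trans hFg1 (le_fi F g c0)
  have hdc0 : 1 ≤ d c0 := by rw [← hin c0]; exact le_trans hLg1 (le_fi L g c0)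
  have hgc0' : g ≠ c0 := fun h => hgc0 h.symm
  -- the array
  set M : Fin 1 → S → S → ℕ := fun _ => U g c0 with hM
  have ha1 : ∀ b c, bArcs L M (Sum.inl b) (Sum.inl c) = L b c - U g c0 b c := by
    intro b c; simp [bArcs, hM]
  have ha2 : ∀ b j, bArcs L M (Sum.inl b) (Sum.inr j) = 1 - (if b = c0 then 1 else 0) := by
    intro b j; simp [bArcs, hM, fi_U]
  have ha3 : ∀ b j, bArcs L M (Sum.inr j) (Sum.inl b) = 1 - (if b = g then 1 else 0) := by
    intro b j; simp [bArcs, hM, fo_U]
  have ha4 : ∀ i j, bArcs L M (Sum.inr i) (Sum.inr j) = 0 := by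
    intro i j; simp [bArcs, Subsingleton.elim i j]
  have hcardne : ∀ x : S, ∑ b : S, (1 - (if b = x then 1 else 0)) = n - 1 := by
    intro x
    have := sum_sub_ind (fun _ : S => 1) x le_rfl True
    simpa [hn] using this
  have hnpos : 2 ≤ n := by
    rw [← hn]
    exact Fintype.one_lt_card_iff.2 ⟨c0, g, hgc0⟩
  -- degrees of a₁
  have hfoa : ∀ x, fo (bArcs L M) x = zd d n g c0 x := by
    rintro (b | j)
    · unfold fo
      rw [Fintype.sum_sum_type]
      simp only [ha1, ha2, Finset.sum_const, Finset.card_univ, Fintype.card_fin, one_smul]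
      rw [fo_sub_U L g c0 hLg1, hout]
      have h1 : b = g → 1 ≤ d b := by rintro rfl; omega
      simp only [zd]
      split_ifs with h2 h3
      · exact absurd (h2.symm.trans h3) hgc0'
      · have := h1 h2; omega
      · omega
      · omega
    · unfold fo
      rw [Fintype.sum_sum_type]
      simp only [ha3, ha4, Finset.sum_const_zero, add_zero]
      rw [hcardne]
      rfl
  have hfia : ∀ x, fi (bArcs L M) x = zd d n g c0 x := by
    rintro (b | j)
    · unfold fi
      rw [Fintype.sum_sum_type]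
      simp only [ha1, ha3, Finset.sum_const, Finset.card_univ, Fintype.card_fin, one_smul]
      rw [fi_sub_U L g c0 hLg1, hin]
      have h1 : b = c0 → 1 ≤ d b := by rintro rfl; omega
      simp only [zd]
      split_ifs with h2 h3 h3
      · exact absurd (h3.symm.trans h2) hgc0'
      · have := h1 h2; omega
      · omega
      · omega
    · unfold fi
      rw [Fintype.sum_sum_type]
      simp only [ha2, ha4, Finset.sum_const_zero, add_zero]
      rw [hcardne]
      rfl
  have htota : tot (bArcs L M) + 3 = tot L + 2 * n := by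
    have h1 : tot (bArcs L M) = ∑ b, fo (bArcs L M) (Sum.inl b) + ∑ j, fo (bArcs L M) (Sum.inr j) := by
      rw [tot_eq_sum_fo, Fintype.sum_sum_type]
    have h2 : ∀ b, fo (bArcs L M) (Sum.inl b) =
        (fo L b - (if b = g then 1 else 0)) + (1 - (if b = c0 then 1 else 0)) := by
      intro b
      unfold fo
      rw [Fintype.sum_sum_type]
      simp only [ha1, ha2, Finset.sum_const, Finset.card_univ, Fintype.card_fin, one_smul]
      rw [fo_sub_U L g c0 hLg1]
      rfl
    have h3 : ∑ b, (fo L b - (if b = g then 1 else 0)) = tot L - 1 := by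
      have := sum_sub_ind (fo L) g (by rw [hout, hg]; exact hm) True
      simpa [tot_eq_sum_fo] using this
    have h4 : 1 ≤ tot L := by
      calc 1 ≤ fo L g := by rw [hout, hg]; exact hm
        _ ≤ tot L := Finset.single_le_sum (f := fo L) (fun _ _ => Nat.zero_le _) (mem_univ g)
    rw [h1, Finset.sum_congr rfl fun b _ => h2 b, Finset.sum_add_distrib, h3, hcardne]
    simp only [hfoa, zd, Finset.sum_const, Finset.card_univ, Fintype.card_fin, one_smul]
    omega
  -- the array F₁
  set F₁ := zF F g c0 B C with hF₁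
  have hFo1 : ∀ b, fo F₁ (Sum.inl b) = fo F b + (if b ∈ B then 1 else 0) := by
    intro b
    have : fo F₁ (Sum.inl b) = ∑ c, (F b c - U g c0 b c) +
        ((if b = g then 1 else 0) + (if b ∈ B then 1 else 0)) := by
      unfold fo
      rw [Fintype.sum_sum_type]
      simp [hF₁, zF]
    rw [this, fo_sub_U F g c0 hFg1]
    have h1 : b = g → 1 ≤ fo F b := by rintro rfl; omega
    by_cases h2 : b = g
    · have := h1 h2
      simp only [h2, if_true] at *
      omega
    · simp [h2]
  have hFo2 : ∀ j, fo F₁ (Sum.inr j) = m := by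
    intro j
    unfold fo
    rw [Fintype.sum_sum_type]
    simp [hF₁, zF, hC]
  have hFi1 : ∀ c, fi F₁ (Sum.inl c) = fi F c - (if c = c0 then 1 else 0) +
      (if c ∈ C then 1 else 0) := by
    intro c
    have : fi F₁ (Sum.inl c) = ∑ b, (F b c - U g c0 b c) + (if c ∈ C then 1 else 0) := by
      unfold fi
      rw [Fintype.sum_sum_type]
      simp [hF₁, zF]
    rw [this, fi_sub_U F g c0 hFg1]
  have hFi2 : ∀ j, fi F₁ (Sum.inr j) = m := by
    intro j
    unfold fi
    rw [Fintype.sum_sum_type]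
    simp [hF₁, zF, Finset.sum_add_distrib]
    omega
  have htotF : tot F₁ + 1 = tot F + 2 * m := by
    have h1 : tot F₁ = ∑ b, fo F₁ (Sum.inl b) + ∑ j, fo F₁ (Sum.inr j) := by
      rw [tot_eq_sum_fo, Fintype.sum_sum_type]
    rw [h1, Finset.sum_congr rfl fun b _ => hFo1 b, Finset.sum_add_distrib, ← tot_eq_sum_fo]
    simp only [hFo2, Finset.sum_const, Finset.card_univ, Fintype.card_fin, one_smul]
    simp
    omega
  have hwlev : n + 1 + e = (2 * r + m) + 1 := by omega
  rw [hwlev]
  apply batch_step (2 * r + m) 1 L M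
  · intro b c
    simp only [hM, Finset.univ_unique, Finset.sum_const, Finset.card_singleton, one_smul]
    unfold U
    split_ifs with h
    · rw [h.1, h.2]; exact hLg1
    · exact Nat.zero_le _
  · intro j b; simp only [hM, fo_U]; split_ifs <;> omega
  · intro j b; simp only [hM, fi_U]; split_ifs <;> omega
  refine K_main (bArcs L M) F₁ (zd d n g c0) (n + 1) r m (2 * m - e) τ' (Sum.inl g) ?_ hm hfoa hfia
    ?_ ?_ ?_ ?_ ?_ ?_ ?_ ?_ ?_ heven hsmall ?_ ?_ ?_
  · simp [hn]
  · -- hF
    rintro (b | i) (c | j)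
    · rw [ha1]; simp only [hF₁, zF]; have := hF b c; omega
    · rw [ha2]; simp only [hF₁, zF]
      by_cases h1 : b = g
      · subst h1; simp [hgB, hgc0']
      · by_cases h2 : b = c0
        · subst h2; simp [hc0B, h1]
        · simp only [h1, h2, if_false]; split_ifs <;> omega
    · rw [ha3]; simp only [hF₁, zF]
      by_cases h1 : c = g
      · subst h1; simp [hgC]
      · simp only [h1, if_false]; split_ifs <;> omega
    · simp [hF₁, zF]
  · rintro (b | j)
    · rw [hFo1]; exact hFo b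
    · rw [hFo2]
  · rintro (b | j)
    · rw [hFi1]
      by_cases h : b = c0
      · subst h; simp only [if_true]; omega
      · have := hFi b h; simp only [h, if_false]; omega
    · rw [hFi2]
  · simp [zd, hgc0', hg]
  · rintro (c | j)
    · rw [ha1]; simp only [hF₁, zF]; rw [hgo]
    · rw [ha2]; simp [hF₁, zF, hgB, hgc0']
  · rintro (c | j)
    · rw [ha1]; simp only [hF₁, zF]; rw [hgi]
    · rw [ha3]; simp [hF₁, zF, hgC]
  · rintro (b | j)
    · rw [hFo1, hFi1]
      by_cases h1 : b = g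
      · subst h1
        simp only [zd, hgc0', if_true, if_false, hfoFg, hfiFg, hg]
        omega
      · have h2 := hcov b h1
        simp only [zd, h1, if_false]
        by_cases h3 : b = c0
        · subst h3
          simp only [if_true]
          omega
        · simp only [h3, if_false]
          omega
    · rw [hFo2, hFi2]; simp only [zd]; omega
  · -- hs
    by_cases h : e ≤ 2 * m
    · obtain ⟨q, hq⟩ := Nat.exists_eq_add_of_le h
      have h1 : 2 * m - e = q := by omega
      rw [h1]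
      have h2 : 2 * m * m = m * e + m * q := by rw [hq]; ring
      omega
    · have h1 : 2 * m - e = 0 := by omega
      rw [h1]; omega
  · omega
  · -- hcount
    have e1 : (n : ℤ) + e = 2 * r + m := by exact_mod_cast hw
    have e2 : (tot F₁ : ℤ) + 1 = tot F + 2 * m := by exact_mod_cast htotF
    have e3 : (tot (bArcs L M) : ℤ) + 3 = tot L + 2 * n := by exact_mod_cast htota
    have e4 : 3 * (τ : ℤ) = tot L + (n + 1 + e) * e := by exact_mod_cast hτ
    have e5 : (τ' : ℤ) + tot F + m + m * e + e = τ + m * m := by exact_mod_cast hτ'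
    have e6 : (n : ℤ) = 2 * r + m - e := by linarith
    have goal : 2 * (r : ℤ) * (n + 1) + 3 * tot F₁ + m * (2 * r + 1) + 3 * τ' + 2 * r
        = 2 * r * (2 * r) + tot (bArcs L M) + 2 * m * (n + 1) + m * m := by
      have e2' : (tot F₁ : ℤ) = tot F + 2 * m - 1 := by linarith
      have e3' : (tot (bArcs L M) : ℤ) = tot L + 2 * n - 3 := by linarith
      have e5' : (τ' : ℤ) = τ + m * m - tot F - m - m * e - e := by linarith
      rw [e2', e3', e5']
      rw [e6] at e4 ⊢
      linear_combination e4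
    exact_mod_cast goal
  · -- hlink
    rcases hlink with h | ⟨h1, h2⟩ | ⟨h1, b0, h2, h3, h4⟩
    · exact Or.inl h
    · right; left
      refine ⟨h1, ?_⟩
      omega
    · right; right
      refine ⟨by omega, Sum.inl b0, ?_, ?_⟩
      · intro h; exact h2 (Sum.inl.inj h)
      · rw [hFi1, h4]; simp [h3]
  · -- hev
    intro P Q hgP hgQ hP hQ harc hloop
    suffices h : P = ∅ by rw [h]; simp
    have hcases : ∀ x, x ∉ P := by
      obtain ⟨bs, hbs1, hbs2, hbs3, hbs4⟩ := hbs
      have hbsP : Sum.inl bs ∉ P := by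
        intro h
        have h1 := hP _ h
        rw [hFi1] at h1
        simp only [hbs2, if_false] at h1
        omega
      have hzQ : ∀ j, Sum.inr j ∉ Q := by
        intro j h
        have h1 := harc (Sum.inl bs) (Sum.inr j) (by rw [ha2]; simp [hF₁, zF, hbs1, hbs2, hbs3])
        exact hbsP (h1.2 h)
      have hzP : ∀ j, Sum.inr j ∉ P := by
        intro j h
        have h1 := hloop (Sum.inr j) (by simp) (by
          rw [hFo2, hFi2]; simp only [zd]; omega)
        exact hzQ j (h1.1 h)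
      rintro (b | j)
      · intro h
        have hbg : b ≠ g := by rintro rfl; exact hgP h
        by_cases h1 : b ∈ B
        · have h2 := hP _ h
          rw [hFi1] at h2
          have h3 := hB2 b h1
          omega
        · by_cases h4 : b = c0
          · have h2 := hP _ h
            rw [hFi1] at h2
            subst h4
            simp only [if_true] at h2
            omega
          · have h5 := harc (Sum.inl b) (Sum.inr 0) (by rw [ha2]; simp [hF₁, zF, hbg, h1, h4])
            exact hzQ 0 (h5.1 h)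
      · exact hzP j
    exact Finset.eq_empty_of_forall_notMem hcases

end MQ94
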