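import Pool.Agent.MQ94.Leave
import Pool.Agent.MQ94.ZS

/-!
# Module MQ-CZ1 (MP_aaabe1_al, helper94): minimum degree 1, `w = n + 1 + e` even

`m = 1`, `2 r = n + e - 1`, `Z_S` (ZS.lean) with `B = ∅`, `C = {c1}`. Let `g → c0`, `y → g` be the
arcs at `g`. `τ' = τ - 2 e - tot F`. By `hmod`: `e = 0` implies `n ≥ 7` (`n` odd, `n ≠ 5`), `e = 1`
implies `n = 4` or `n ≥ 8`.
* `τ` even: `F = U g c0 + U y g`. `τ ≥ 2 + 2 e`: `tot L ≥ n` (all degrees `≥ 1`): `e = 0`:
  `3 τ ≥ 7`; `e = 1`: `3 τ ≥ 2 n + 2 ≥ 10`.
* `τ` odd: `tot L` is odd (`3 τ = tot L + (n+1+e) e`, `n + 1 + e` even), so by `IsLeave.star` there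
  is an arc `b1 → c2` with `b1 ≠ g, y`, `c2 ≠ g, c0`; `F = U g c0 + U y g + U b1 c2`.
  `τ ≥ 3 + 2 e`: `e = 0`: `3 τ ≥ 7`, `τ` odd `≥ 3`. `e = 1`, `n ≥ 8`: `3 τ ≥ 2 n + 2 ≥ 18`. `n = 4`,
  `e = 1`: then `tot L ≤ 8` (below), `3 τ = tot L + 6 ≤ 14` and `≥ 10`, so `τ = 4`, not odd.
* Small case `r ≤ 2`: `n + e ≤ 5`, so `n = 4`, `e = 1`: `τ = 4`, `tot F = 2`, `τ' = 0`.
  `tot L ≤ 8` for `n = 4`: (`tot_two_sq` and Cauchy).
* Choice of `c1`: for `e = 0` there is at most one vertex `u ≠ g` with `d u = n - 2` and `fo F u = 0`,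
  `fi F u = 0`: such a `u` is not adjacent to `g`, so `N⁺(u) = S \ {u, g}`; two of them would be
  adjacent, `2 (n - 2) ≤ n`, contradiction to `n ≥ 7`. If it exists, `c1 = u`; it is different from
  `g, c0, c2, y, b1`. Otherwise (and for `e = 1`) `c1` is any vertex `≠ g, c0` (and `≠ c2` if `c2` is
  used).
* `hcov` (`b ≠ g`): `d b + 3 ≤ n + e + (fo F b + fi F b) + [b = c1]`. If `d b = n - 1` then `b` is
  adjacent to `g` in both directions, so `b = c0 = y` and `fo F b + fi F b ≥ 2`. If `d b ≤ n - 2` and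
  `e = 1`: fine. `e = 0`, `d b ≤ n - 3`: fine; `d b = n - 2`: `fo F b + fi F b ≥ 1` or `b = c1`.
* `hFi`: `c1 ≠ c2`. `hc02`: `fi F c0 = 1`, `c0 ≠ c1`, `c2 ≠ c0`. `hlink`: `tot F + e > 1`.
* `hbs`: `bs ∉ {g, c0, c1, c2}` (`n ≥ 5` if `c2` is used, otherwise `n ≥ 4`).
-/

set_option autoImplicit false

namespace MQ94

section z1

variable {S : Type} [Fintype S] [DecidableEq S] {L : S → S → ℕ} {d : S → ℕ} {n e τ : ℕ}

private theorem z1_any (h : IsLeave L d n e τ) (W : Finset S) (hW : W.card < n) :
    ∃ x, x ∉ W := by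
  rw [← h.card, ← Finset.card_univ] at hW
  obtain ⟨x, -, hxW⟩ := Finset.exists_mem_notMem_of_card_lt_card hW
  exact ⟨x, hxW⟩

/-- a vertex of degree `n - 1` is adjacent to all others -/
private theorem z1_full (h : IsLeave L d n e τ) (hn : 4 ≤ n) {b g : S} (hbg : b ≠ g)
    (hd : d b + 1 = n) : L b g ≠ 0 ∧ L g b ≠ 0 := by
  have hc : (Finset.univ.erase b).card = n - 1 := by
    rw [Finset.card_erase_of_mem (Finset.mem_univ b), Finset.card_univ, h.card]
  constructor
  · have h1 : IsLeave.outN L b ⊆ Finset.univ.erase b := by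
      intro x hx
      refine Finset.mem_erase.mpr ⟨?_, Finset.mem_univ x⟩
      rintro rfl
      exact IsLeave.leave_mem_outN.mp hx (h.irrefl x)
    have h2 : IsLeave.outN L b = Finset.univ.erase b := by
      apply Finset.eq_of_subset_of_card_le h1
      rw [hc, h.card_outN]
      omega
    have h3 : g ∈ IsLeave.outN L b := by
      rw [h2]
      exact Finset.mem_erase.mpr ⟨hbg.symm, Finset.mem_univ g⟩
    exact IsLeave.leave_mem_outN.mp h3
  · have h1 : IsLeave.inN L b ⊆ Finset.univ.erase b := by
      intro x hx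
      refine Finset.mem_erase.mpr ⟨?_, Finset.mem_univ x⟩
      rintro rfl
      exact IsLeave.leave_mem_inN.mp hx (h.irrefl x)
    have h2 : IsLeave.inN L b = Finset.univ.erase b := by
      apply Finset.eq_of_subset_of_card_le h1
      rw [hc, h.card_inN]
      omega
    have h3 : g ∈ IsLeave.inN L b := by
      rw [h2]
      exact Finset.mem_erase.mpr ⟨hbg.symm, Finset.mem_univ g⟩
    exact IsLeave.leave_mem_inN.mp h3

/-- two vertices of degree `n - 2` not pointing to `g` are equal -/
private theorem z1_uniq (h : IsLeave L d n e τ) (hn : 7 ≤ n) {u v g : S} (hug : u ≠ g)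
    (hvg : v ≠ g) (hu : d u + 2 = n) (hv : d v + 2 = n) (hLu : L u g = 0) : u = v := by
  by_contra huv
  have h1 : IsLeave.outN L u ⊆ (Finset.univ.erase u).erase g := by
    intro x hx
    refine Finset.mem_erase.mpr ⟨?_, Finset.mem_erase.mpr ⟨?_, Finset.mem_univ x⟩⟩
    · rintro rfl
      exact IsLeave.leave_mem_outN.mp hx hLu
    · rintro rfl
      exact IsLeave.leave_mem_outN.mp hx (h.irrefl x)
  have hc : ((Finset.univ.erase u).erase g).card = n - 2 := by
    rw [Finset.card_erase_of_mem (Finset.mem_erase.mpr ⟨hug.symm, Finset.mem_univ g⟩),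
      Finset.card_erase_of_mem (Finset.mem_univ u), Finset.card_univ, h.card]
    omega
  have h2 : IsLeave.outN L u = (Finset.univ.erase u).erase g := by
    apply Finset.eq_of_subset_of_card_le h1
    rw [hc, h.card_outN]
    omega
  have h3 : v ∈ IsLeave.outN L u := by
    rw [h2]
    exact Finset.mem_erase.mpr ⟨hvg, Finset.mem_erase.mpr ⟨fun hh => huv hh.symm, Finset.mem_univ v⟩⟩
  have h4 := h.adj (IsLeave.leave_mem_outN.mp h3)
  omega

private theorem z1_four (h : IsLeave L d n e τ) (hn : n = 4) : tot L ≤ 8 := by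
  have h1 := h.tot_two_sq Finset.univ (fun b hb => absurd (Finset.mem_univ b) hb)
  rw [Finset.card_univ, h.card, hn] at h1
  have h2 : tot L = ∑ b, d b := by
    rw [tot_eq_sum_fo]
    exact Finset.sum_congr rfl fun b _ => h.out b
  have h3 : (∑ b, d b) ^ 2 ≤ (Finset.univ : Finset S).card * ∑ b, (d b) ^ 2 := sq_sum_le_card_mul_sum_sq
  rw [Finset.card_univ, h.card, hn] at h3
  have h4 : ∑ b, (d b) ^ 2 = ∑ b, d b * d b := Finset.sum_congr rfl fun b _ => sq _
  rw [h4, ← h2] at h3
  by_contra hcon
  push Not at hcon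
  nlinarith

/-- application of `Z_S` -/
private theorem z1_fin (h : IsLeave L d n e τ) (hn : 4 ≤ n) (hpar : Odd (n + e))
    (hmin : ∀ b, 1 ≤ d b) (g : S) (hg : d g = 1) (c0 y b1 c2 c1 : S) (i : ℕ) (hi : i ≤ 1)
    (hgc0 : L g c0 ≠ 0) (hyg : L y g ≠ 0)
    (hi1 : i = 1 → L b1 c2 ≠ 0 ∧ b1 ≠ g ∧ b1 ≠ y ∧ c2 ≠ g ∧ c2 ≠ c0 ∧ c1 ≠ c2)
    (hev : Even (τ + i)) (hc1g : c1 ≠ g) (hc10 : c1 ≠ c0)
    (hu : e = 0 → ∀ b, b ≠ g → d b + 2 = n → b = y ∨ b = c0 ∨ (i = 1 ∧ b = b1) ∨
      (i = 1 ∧ b = c2) ∨ b = c1) :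
    TriDec (lev (n + 1 + e) (fun _ => 1) L) := by
  have he := h.he
  have hmod := h.hmod
  have hτ := h.hτ
  have hc0g : c0 ≠ g := by
    rintro rfl
    exact hgc0 (h.irrefl c0)
  have hyg' : y ≠ g := by
    rintro rfl
    exact hyg (h.irrefl y)
  have hLgc : ∀ c, L g c = if c = c0 then 1 else 0 := by
    intro c
    by_cases hc : c = c0
    · subst hc
      have := h.le_one g c
      rw [if_pos rfl]
      omega
    · rw [if_neg hc]
      by_contra hcon
      exact hc (h.leave_two_out hg hcon hgc0)
  have hLcg : ∀ c, L c g = if c = y then 1 else 0 := by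
    intro c
    by_cases hc : c = y
    · subst hc
      have := h.le_one c g
      rw [if_pos rfl]
      omega
    · rw [if_neg hc]
      by_contra hcon
      exact hc (h.leave_two_in hg hcon hyg)
  -- sizes
  have hLn : n ≤ tot L := by
    rw [tot_eq_sum_fo]
    calc n = ∑ _b : S, 1 := by simp [h.card]
      _ ≤ ∑ b, fo L b := Finset.sum_le_sum fun b _ => by rw [h.out b]; exact hmin b
  obtain ⟨r, hr⟩ := hpar
  have hn7 : e = 0 → 7 ≤ n := by
    intro h0
    omega
  have hn48 : e = 1 → n = 4 ∨ 8 ≤ n := by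
    intro h0
    omega
  have hτ4 : e = 1 → n = 4 → τ = 4 := by
    intro h0 h1
    have := z1_four h h1
    subst h0
    omega
  have hi0 : i = 1 → 5 ≤ n := by
    intro h1
    rcases Nat.lt_or_ge e 1 with h2 | h2
    · have := hn7 (by omega)
      omega
    · have he1 : e = 1 := by omega
      rcases hn48 he1 with h3 | h3
      · have h4 := hτ4 he1 h3
        rw [h1, h4] at hev
        exact absurd hev (by decide)
      · omega
  obtain ⟨τ', hτ'⟩ : ∃ τ', τ' + (2 + i) + 2 * e = τ := by
    refine ⟨τ - (2 + i) - 2 * e, ?_⟩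
    rw [Nat.even_iff] at hev
    rcases Nat.lt_or_ge e 1 with h1 | h1
    · have he0 : e = 0 := by omega
      have := hn7 he0
      subst he0
      omega
    · have he1 : e = 1 := by omega
      rcases hn48 he1 with h3 | h3
      · have h4 := hτ4 he1 h3
        omega
      · subst he1
        omega
  set F : S → S → ℕ := fun b c => (U g c0 b c + U y g b c) + i * U b1 c2 b c with hF
  have foF : ∀ b, fo F b = (if b = g then 1 else 0) + (if b = y then 1 else 0)
      + (if b = b1 then i else 0) := by
    intro b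
    have h1 := fo_U g c0 b
    have h2 := fo_U y g b
    have h3 := fo_U b1 c2 b
    unfold fo at h1 h2 h3 ⊢
    simp only [hF]
    rw [Finset.sum_add_distrib, Finset.sum_add_distrib, ← Finset.mul_sum, h1, h2, h3]
    split_ifs <;> simp
  have fiF : ∀ b, fi F b = (if b = c0 then 1 else 0) + (if b = g then 1 else 0)
      + (if b = c2 then i else 0) := by
    intro b
    have h1 := fi_U g c0 b
    have h2 := fi_U y g b
    have h3 := fi_U b1 c2 b
    unfold fi at h1 h2 h3 ⊢
    simp only [hF]
    rw [Finset.sum_add_distrib, Finset.sum_add_distrib, ← Finset.mul_sum, h1, h2, h3]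
    split_ifs <;> simp
  have totF : tot F = 2 + i := by
    rw [tot_eq_sum_fo, Finset.sum_congr rfl fun b _ => foF b, Finset.sum_add_distrib,
      Finset.sum_add_distrib]
    simp
  refine Z_S L F d n e r 1 τ τ' g c0 ∅ {c1} h.card le_rfl hr h.out h.inn ?_ ?_ ?_ hg ?_ ?_
    (Nat.pos_of_ne_zero hgc0) hc0g (by simp) (by simp) (by simp) (by simpa using hc1g.symm)
    (by simp) ?_ ?_ hτ ?_ ?_ ?_ ?_ ?_ ?_ ?_
  · -- F ≤ L
    intro b c
    simp only [hF, U]
    by_cases hbg : b = g
    · subst hbg
      rw [hLgc c]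
      have h1 : ¬ (b = y ∧ c = b) := fun hh => hyg' hh.1.symm
      have h2 : i * (if b = b1 ∧ c = c2 then 1 else 0) = 0 := by
        by_cases hi' : i = 1
        · have := (hi1 hi').2.1
          rw [if_neg (fun hh => this hh.1.symm), mul_zero]
        · have : i = 0 := by omega
          rw [this, zero_mul]
      rw [h2, if_neg h1]
      by_cases hc : c = c0
      · simp [hc]
      · simp [hc]
    · by_cases hby : b = y
      · subst hby
        have h2 : i * (if b = b1 ∧ c = c2 then 1 else 0) = 0 := by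
          by_cases hi' : i = 1
          · have := (hi1 hi').2.2.1
            rw [if_neg (fun hh => this hh.1.symm), mul_zero]
          · have : i = 0 := by omega
            rw [this, zero_mul]
        rw [h2, if_neg (fun hh => hbg hh.1)]
        by_cases hc : c = g
        · subst hc
          simp
          omega
        · simp [hc]
      · rw [if_neg (fun hh => hbg hh.1), if_neg (fun hh => hby hh.1)]
        by_cases hi' : i = 1
        · by_cases hh : b = b1 ∧ c = c2
          · rw [if_pos hh, hh.1, hh.2]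
            have := (hi1 hi').1
            omega
          · rw [if_neg hh]
            omega
        · have : i = 0 := by omega
          simp [this]
  · -- hFo
    intro b
    rw [foF b]
    simp only [Finset.notMem_empty, if_false]
    by_cases hi' : i = 1
    · obtain ⟨-, h1, h2, -⟩ := hi1 hi'
      by_cases hb : b = g
      · subst hb
        simp [hyg'.symm, h1.symm]
      · by_cases hb2 : b = y
        · subst hb2
          simp [hb, h2.symm]
        · simp only [hb, hb2, if_false]
          split_ifs <;> omega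
    · have : i = 0 := by omega
      by_cases hb : b = g
      · subst hb
        simp [hyg'.symm, this]
      · simp only [hb, this, if_false]
        split_ifs <;> omega
  · -- hFi
    intro b hb0
    rw [fiF b]
    simp only [hb0, if_false, Finset.mem_singleton]
    by_cases hi' : i = 1
    · obtain ⟨-, -, -, h1, h2, h3⟩ := hi1 hi'
      by_cases hb : b = g
      · subst hb
        simp [h1.symm, hc1g.symm]
      · by_cases hb2 : b = c2
        · subst hb2
          simp [hb, h3.symm]
          omega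
        · simp only [hb, hb2, if_false]
          split_ifs <;> omega
    · have : i = 0 := by omega
      by_cases hb : b = g
      · subst hb
        simp [hc1g.symm, this]
      · simp only [hb, this, if_false]
        split_ifs <;> omega
  · -- hgo
    intro c
    simp only [hF, U]
    rw [hLgc c]
    have h1 : ¬ (g = y ∧ c = g) := fun hh => hyg' hh.1.symm
    have h2 : i * (if g = b1 ∧ c = c2 then 1 else 0) = 0 := by
      by_cases hi' : i = 1
      · have := (hi1 hi').2.1
        rw [if_neg (fun hh => this hh.1.symm), mul_zero]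
      · have : i = 0 := by omega
        rw [this, zero_mul]
    rw [h2, if_neg h1]
    simp
  · -- hgi
    intro c
    simp only [hF, U]
    rw [hLcg c]
    have h1 : ¬ (c = g ∧ g = c0) := fun hh => hc0g hh.2.symm
    have h2 : i * (if c = b1 ∧ g = c2 then 1 else 0) = 0 := by
      by_cases hi' : i = 1
      · have := (hi1 hi').2.2.2.1
        rw [if_neg (fun hh => this hh.2.symm), mul_zero]
      · have : i = 0 := by omega
        rw [this, zero_mul]
    rw [h2, if_neg h1]
    simp
  · -- hcov
    intro b hbg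
    have hdlt := h.deg_lt b
    rw [foF b, fiF b]
    simp only [Finset.notMem_empty, if_false, Finset.mem_singleton]
    rcases Nat.lt_or_ge (d b + 1) n with h1 | h1
    · rcases Nat.lt_or_ge e 1 with h2 | h2
      · have he0 : e = 0 := by omega
        rcases Nat.lt_or_ge (d b + 2) n with h3 | h3
        · omega
        · have h4 : d b + 2 = n := by omega
          rcases hu he0 b hbg h4 with h5 | h5 | h5 | h5 | h5
          · rw [if_pos h5]
            omega
          · rw [if_pos h5]
            omega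
          · rw [if_pos h5.2]
            omega
          · rw [if_pos (h5.2 : b = c2)]
            omega
          · rw [if_pos (h5 : b = c1)]
            omega
      · omega
    · obtain ⟨h2, h3⟩ := z1_full h hn hbg (by omega)
      have h4 : b = y := h.leave_two_in hg h2 hyg
      have h5 : b = c0 := h.leave_two_out hg h3 hgc0
      rw [if_pos h4, if_pos h5]
      omega
  · rw [totF]
    omega
  · rw [totF]
    omega
  · rw [Nat.even_iff] at hev ⊢
    omega
  · intro hr2
    rcases Nat.lt_or_ge e 1 with h1 | h1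
    · have := hn7 (by omega)
      omega
    · have he1 : e = 1 := by omega
      have hn4 : n = 4 := by
        rcases hn48 he1 with h3 | h3 <;> omega
      have h4 := hτ4 he1 hn4
      omega
  · right; left
    refine ⟨rfl, ?_⟩
    rw [totF]
    omega
  · -- hbs
    obtain ⟨b, hb⟩ := z1_any h (insert g (insert c0 (insert c1 (if i = 1 then {c2} else ∅)))) (by
      have h1 := Finset.card_insert_le g (insert c0 (insert c1 (if i = 1 then {c2} else (∅ : Finset S))))
      have h2 := Finset.card_insert_le c0 (insert c1 (if i = 1 then {c2} else (∅ : Finset S)))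
      have h3 := Finset.card_insert_le c1 (if i = 1 then {c2} else (∅ : Finset S))
      by_cases hi' : i = 1
      · have := hi0 hi'
        rw [if_pos hi', Finset.card_singleton] at h3
        rw [if_pos hi'] at h1 h2 ⊢
        omega
      · rw [if_neg hi', Finset.card_empty] at h3
        rw [if_neg hi'] at h1 h2 ⊢
        omega)
    simp only [Finset.mem_insert, not_or] at hb
    obtain ⟨hb1, hb2, hb3, hb4⟩ := hb
    refine ⟨b, hb1, hb2, by simp, ?_⟩
    rw [fiF b]
    simp only [Finset.mem_singleton, hb1, hb2, hb3, if_false]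
    by_cases hi' : i = 1
    · rw [if_pos hi', Finset.mem_singleton] at hb4
      simp [hb4]
    · have : i = 0 := by omega
      simp [this]
  · intro b hb
    simp at hb
  · rw [fiF c0]
    simp only [Finset.mem_singleton, hc0g, hc10.symm, if_false, if_true]
    by_cases hi' : i = 1
    · have := (hi1 hi').2.2.2.2.1
      simp [this.symm]
    · have : i = 0 := by omega
      simp [this]

end z1

theorem caseZ1 {S : Type} [Fintype S] [DecidableEq S] {L : S → S → ℕ} {d : S → ℕ} {n e τ : ℕ}
    (h : IsLeave L d n e τ) (hn : 4 ≤ n) (hpar : Odd (n + e)) (hmin : ∀ b, 1 ≤ d b) (g : S)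
    (hg : d g = 1) : TriDec (lev (n + 1 + e) (fun _ => 1) L) := by
  have he := h.he
  have hmod := h.hmod
  have hτ := h.hτ
  obtain ⟨c0, hc0⟩ := h.leave_exists_out (b := g) (by omega)
  obtain ⟨y, hy⟩ : ∃ y, L y g ≠ 0 := by
    have h1 : 0 < (IsLeave.inN L g).card := by
      rw [h.card_inN, hg]
      exact Nat.one_pos
    obtain ⟨y, hy⟩ := Finset.card_pos.mp h1
    exact ⟨y, IsLeave.leave_mem_inN.mp hy⟩
  have hc0g : c0 ≠ g := by
    rintro rfl
    exact hc0 (h.irrefl c0)
  have hyg' : y ≠ g := by
    rintro rfl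
    exact hy (h.irrefl y)
  have hn7 : e = 0 → 7 ≤ n := by
    intro h0
    obtain ⟨r, hr⟩ := hpar
    omega
  -- the possible extra arc
  obtain ⟨i, b1, c2, hi, hi1, hev⟩ : ∃ (i : ℕ) (b1 c2 : S), i ≤ 1 ∧
      (i = 1 → L b1 c2 ≠ 0 ∧ b1 ≠ g ∧ b1 ≠ y ∧ c2 ≠ g ∧ c2 ≠ c0) ∧ Even (τ + i) := by
    rcases Nat.even_or_odd τ with ht | ht
    · exact ⟨0, g, g, by omega, by omega, by simpa using ht⟩
    · have hodd : ¬ Even (tot L) := by
        intro hE
        rw [Nat.odd_iff] at ht hpar
        rw [Nat.even_iff] at hE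
        rcases Nat.lt_or_ge e 1 with h1 | h1
        · have he0 : e = 0 := by omega
          subst he0
          omega
        · have he1 : e = 1 := by omega
          subst he1
          omega
      have h1 : ∃ b c, L b c ≠ 0 ∧ b ≠ g ∧ b ≠ y ∧ c ≠ g ∧ c ≠ c0 := by
        by_contra hcon
        push Not at hcon
        apply hodd
        apply h.star hg hc0 hy
        intro b c hbc
        by_contra hno
        push Not at hno
        exact hno.2.2.2 (hcon b c hbc hno.1 hno.2.1 hno.2.2.1)
      obtain ⟨b, c, h2⟩ := h1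
      refine ⟨1, b, c, le_rfl, fun _ => h2, ?_⟩
      rw [Nat.odd_iff] at ht
      rw [Nat.even_iff]
      omega
  -- the choice of c1
  by_cases hex : e = 0 ∧ ∃ u, u ≠ g ∧ d u + 2 = n ∧ u ≠ y ∧ u ≠ c0 ∧ (i = 1 → u ≠ b1 ∧ u ≠ c2)
  · obtain ⟨he0, u, hug, hdu, huy, huc, hui⟩ := hex
    refine z1_fin h hn hpar hmin g hg c0 y b1 c2 u i hi hc0 hy ?_ hev hug huc ?_
    · intro hi'
      obtain ⟨h1, h2, h3, h4, h5⟩ := hi1 hi'
      exact ⟨h1, h2, h3, h4, h5, (hui hi').2⟩
    · intro _ b hbg hdb
      right; right; right; right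
      symm
      apply z1_uniq h (hn7 he0) hug hbg hdu hdb
      by_contra hcon
      exact huy (h.leave_two_in hg hcon hy)
  · obtain ⟨c1, hc1⟩ := z1_any h (insert g (insert c0 {c2})) (by
      have h1 := Finset.card_insert_le g (insert c0 {c2})
      have h2 := Finset.card_insert_le c0 ({c2} : Finset S)
      rw [Finset.card_singleton] at h2
      omega)
    simp only [Finset.mem_insert, Finset.mem_singleton, not_or] at hc1
    refine z1_fin h hn hpar hmin g hg c0 y b1 c2 c1 i hi hc0 hy ?_ hev hc1.1 hc1.2.1 ?_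
    · intro hi'
      obtain ⟨h1, h2, h3, h4, h5⟩ := hi1 hi'
      exact ⟨h1, h2, h3, h4, h5, hc1.2.2⟩
    · intro he0 b hbg hdb
      by_contra hno
      push Not at hno
      obtain ⟨h1, h2, h3, h4, h5⟩ := hno
      exact hex ⟨he0, b, hbg, hdb, h1, h2, fun hi' => ⟨h3 hi', h4 hi'⟩⟩

end MQ94
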