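import Pool.Agent.MQ94.Leave
import Pool.Agent.MQ94.ZS

/-!
# Module MQ-CZ2 (MP_aaabe1_al, helper94): minimum degree 2, `w = n + 1 + e` odd, `n ≥ 7`

`m = 2`, `2 r = n + e - 2`, `Z_S` (ZS.lean). By `hmod` and parity: `e = 0` implies `n ≥ 10`, `e = 1`
implies `n = 7` or `n ≥ 11`. `Fg b c = if b = g ∨ c = g then L b c else 0` (`tot Fg = 4`,
`fo Fg b = L b g`, `fi Fg b = L g b` for `b ≠ g`), `N⁺(g) = {c0, c00}`.
`F = Fg + E`, `E = 0` or `E = U p1 x1` or `E = U p1 x1 + U p2 x2` with arcs `p_i → x_i`, `p_i ≠ g`,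
`x_i ∉ {g, c0, c00}`, `x1 ≠ x2`, `p1 ≠ p2`. So `fo F b ≤ 1 + 1`, and `fi F b ≤ 1` for `b ≠ g`.
`τ' = τ + 2 - 3 e - tot F` must be even: `e = 0`: `|E| ∈ {1, 2}` with `|E| ≡ τ`; `e = 1`:
`|E| ∈ {0, 1}`, `|E| ≡ τ + 1`. (`hs`: `tot F ≥ 5 - 2 e`.) Sizes: `e = 0`: `3 τ ≥ 2 n ≥ 20`, `e = 1`:
`3 τ ≥ 3 n + 2 ≥ 23`. `r ≥ 3`.
Conditions on `B = {b0}`, `C` (`|C| = 2`, `g ∉ C`): `b0 ≠ g, c0`; `fo F b0 ≤ 1`;
`fi F b0 + [b0 ∈ C] ≤ 1`; the rest of `hFo`, `hFi`, `hc02` is automatic. `hcov` (`b ≠ g`):
`d b + 5 ≤ n + e + (fo F b + fi F b) + [b ∈ B] + [b ∈ C]`.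
`hlink`: `b0' ∉ {g, c0, c00, x1, x2} ∪ C` (`n - 7 ≥ 1`; for `e = 1` only `x1`). `hbs`:
`bs ∉ {g, c0} ∪ B ∪ C`.

Case A: some `u` has `d u = n - 2`. `IsLeave.bip` (`T = univ`, `m = 2`): `X`, `|X| = n - 2`, arcs are
exactly the pairs with one element in `X`. The complement of `X` is `{c0, c00}` (`g ∈ X` because
`d g = 2 ≠ n - 2`). `C = {c0, c00}`, `p1 = c0`, `p2 = c00`, `x1 ≠ x2` in `X \ {g}`, `b0 ∈ X \ {g}` arbitrary
(`fo F b0 = 0`, `fi F b0 ≤ 1`, `b0 ∉ C`). `hcov`: in `X`: `2 + 5 ≤ n`; for `c0, c00`: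
`n - 2 + 5 ≤ n + 2 + 1`.

Case B: all `d b ≤ n - 3` (`d b ≤ n - 2` always by `adj`). Let `H = {b | d b + 4 ≥ n + e}`; outside
`H` nothing is required. `g ∉ H`. `H` is independent: `2 (n + e - 4) > n`. `|H| ≤ 3 - e`: for
`u ∈ H`, `N⁺(u) ⊆ S \ H`, so `d u ≤ n - |H|`, `|H| ≤ 4 - e`; if `|H| = 4 - e` then
`N⁺(u) = S \ H ∋ g` for all `u ∈ H`, so `d g ≥ 4 - e > 2`.
 `e = 1`: `H = {d b = n - 3}`, `|H| ≤ 2`, `C ⊇ H`: `hcov` holds by `[b ∈ C] = 1`. `E`: `x1` any vertex
 `∉ {g, c0, c00}`, `p1 → x1`. `b0 ∉ {g, c0, p1} ∪ C`.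
 `e = 0`: required: `fo F b + fi F b + [b ∈ B] + [b ∈ C] ≥ 2` if `d b = n - 3`, `≥ 1` if `d b = n - 4`.
 Call `u ∈ H` *bad* if `d u = n - 3` and `L u g = L g u = 0`.
  - `|H| = 3`: if `d u = n - 3` then `N⁺(u) = N⁻(u) = S \ H ∋ g`, so `L u g = L g u = 1`: fine. Choose
    `u3 ∈ H` with `L g u3 = 0`; `B = {u3}`, `C = H \ {u3} = {u1, u2}`, `p1 = u1`, `p2 = u2`,
    `x1 ∈ N⁺(u1)`, `x2 ∈ N⁺(u2)` (they are outside `H`), different, not in `{g, c0, c00}`. Then
    `fo F u3 = L u3 g ≤ 1`, `fi F u3 = 0`.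
  - `|H| = 2`, `H = {u1, u2} = C`: `p1, p2` are `u1, u2` (in the order needed), `x_i ∈ N⁺(p_i)` as before.
    If none is bad: `b0 ∉ {g, c0, u1, u2}` arbitrary. If exactly one is bad, `B` = that one
    (`fo F = 1`, `fi F = 0`; `[B] + [C] = 2`). If both are bad: `B = {u1}`, `p1 = u2` (so `u2` gets
    `1` from `E` and `1` from `C`), `p2 = u1`.
  - `|H| = 1`, `H = {u}`: `C ∋ u`; `x1 ≠ x2` outside `{g, c0, c00, u}`, `p1 → x1`, `p2 → x2` with
    `p2 ≠ p1` (in-degrees are `≥ 2`). If `u` is bad: `B = {u}` (`fo F u ≤ 1`). Otherwise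
    `b0 ∉ {g, c0, p1, p2} ∪ C`.
  - `H = ∅`: the same with `C` arbitrary.
-/

set_option autoImplicit false

namespace MQ94

section z2

variable {S : Type} [Fintype S] [DecidableEq S] {L : S → S → ℕ} {d : S → ℕ} {n e τ : ℕ}

private def z2Fg (L : S → S → ℕ) (g : S) : S → S → ℕ := fun b c => if b = g ∨ c = g then L b c else 0

private theorem z2_foFg (g b : S) (hb : b ≠ g) : fo (z2Fg L g) b = L b g := by
  unfold fo z2Fg
  simp [hb]

private theorem z2_fiFg (g b : S) (hb : b ≠ g) : fi (z2Fg L g) b = L g b := by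
  unfold fi z2Fg
  simp [hb]

private theorem z2_foFg_g (g : S) : fo (z2Fg L g) g = fo L g := by
  unfold fo z2Fg
  simp

private theorem z2_fiFg_g (g : S) : fi (z2Fg L g) g = fi L g := by
  unfold fi z2Fg
  simp

private theorem z2_totFg (g : S) (hgg : L g g = 0) : tot (z2Fg L g) = fo L g + fi L g := by
  rw [tot_eq_sum_fo, ← Finset.add_sum_erase _ _ (Finset.mem_univ g), z2_foFg_g]
  congr 1
  have h1 : ∀ b ∈ Finset.univ.erase g, fo (z2Fg L g) b = L b g := fun b hb =>
    z2_foFg g b (Finset.ne_of_mem_erase hb)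
  rw [Finset.sum_congr rfl h1]
  unfold fi
  rw [← Finset.add_sum_erase _ (fun b => L b g) (Finset.mem_univ g), hgg, zero_add]

private theorem z2_out (h : IsLeave L d n e τ) (u : S) (W : Finset S) (hW : W.card < d u) :
    ∃ x, L u x ≠ 0 ∧ x ∉ W := by
  rw [← h.card_outN u] at hW
  obtain ⟨x, hx, hxW⟩ := Finset.exists_mem_notMem_of_card_lt_card hW
  refine ⟨x, ?_, hxW⟩
  simpa [IsLeave.outN] using hx

private theorem z2_in (h : IsLeave L d n e τ) (u : S) (W : Finset S) (hW : W.card < d u) :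
    ∃ x, L x u ≠ 0 ∧ x ∉ W := by
  rw [← h.card_inN u] at hW
  obtain ⟨x, hx, hxW⟩ := Finset.exists_mem_notMem_of_card_lt_card hW
  refine ⟨x, ?_, hxW⟩
  simpa [IsLeave.inN] using hx

private theorem z2_any (h : IsLeave L d n e τ) (W : Finset S) (hW : W.card < n) :
    ∃ x, x ∉ W := by
  rw [← h.card, ← Finset.card_univ] at hW
  obtain ⟨x, -, hxW⟩ := Finset.exists_mem_notMem_of_card_lt_card hW
  exact ⟨x, hxW⟩

/-- The choice of `E` and the application of `Z_S`. -/
private theorem z2_fin (h : IsLeave L d n e τ) (hn : 7 ≤ n) (hpar : Even (n + e))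
    (hmin : ∀ b, 2 ≤ d b) (g : S) (hg : d g = 2) (c0 c00 : S)
    (hN : ∀ c, L g c ≠ 0 ↔ c = c0 ∨ c = c00)
    {p1 x1 p2 x2 : S} (hp1 : L p1 x1 ≠ 0) (hp2 : L p2 x2 ≠ 0) (hpp : p1 ≠ p2) (hxx : x1 ≠ x2)
    (hp1g : p1 ≠ g) (hp2g : p2 ≠ g) (hx1 : x1 ≠ g ∧ x1 ≠ c0 ∧ x1 ≠ c00)
    (hx2 : x2 ≠ g ∧ x2 ≠ c0 ∧ x2 ≠ c00) (b0 : S) (C : Finset S) (hC : C.card = 2)
    (hgC : g ∉ C) (hb0g : b0 ≠ g) (hb0c : b0 ≠ c0)
    (hfo : L b0 g + (if b0 = p1 then 1 else 0) + (if b0 = p2 then 1 else 0) ≤ 1)
    (hfi : L g b0 + (if b0 = x1 then 1 else 0) + (if b0 = x2 then 1 else 0) +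
      (if b0 ∈ C then 1 else 0) ≤ 1)
    (hcov : ∀ b, b ≠ g → d b + 5 ≤ n + e + (L b g + L g b + (if e = 0 ∧ b = p1 then 1 else 0)) +
      (if b = b0 then 1 else 0) + (if b ∈ C then 1 else 0)) :
    TriDec (lev (n + 1 + e) (fun _ => 1) L) := by
  have he := h.he
  have hmod := h.hmod
  have hτ := h.hτ
  have hgg := h.irrefl g
  -- sizes
  have hLn : 2 * n ≤ tot L := by
    rw [tot_eq_sum_fo]
    calc 2 * n = ∑ _b : S, 2 := by simp [h.card, mul_comm]
      _ ≤ ∑ b, fo L b := Finset.sum_le_sum fun b _ => by rw [h.out b]; exact hmin b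
  obtain ⟨q, hq⟩ := hpar
  have hn10 : e = 0 → 10 ≤ n := by
    intro h0
    omega
  have hn8 : 8 ≤ n + e := by omega
  obtain ⟨r, hr⟩ : ∃ r, n + e = 2 * r + 2 := ⟨q - 1, by omega⟩
  obtain ⟨i1, i2, hi1, hi2, hi3, hi4, hi5, hi6⟩ : ∃ i1 i2 : ℕ, i1 ≤ 1 ∧ i2 ≤ 1 ∧
      (e = 0 → i1 = 1) ∧ 1 ≤ i1 + i2 + 2 * e ∧ i1 + i2 + e ≤ 2 ∧ Even (i1 + i2 + e + τ) := by
    rcases Nat.even_or_odd τ with ht | ht
    · rcases Nat.lt_or_ge e 1 with h1 | h1
      · refine ⟨1, 1, by omega, by omega, by omega, by omega, by omega, ?_⟩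
        have : e = 0 := by omega
        subst this
        rw [Nat.even_iff] at ht ⊢
        omega
      · refine ⟨1, 0, by omega, by omega, by omega, by omega, by omega, ?_⟩
        have : e = 1 := by omega
        subst this
        rw [Nat.even_iff] at ht ⊢
        omega
    · rcases Nat.lt_or_ge e 1 with h1 | h1
      · refine ⟨1, 0, by omega, by omega, by omega, by omega, by omega, ?_⟩
        have : e = 0 := by omega
        subst this
        rw [Nat.odd_iff] at ht
        rw [Nat.even_iff]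
        omega
      · refine ⟨0, 0, by omega, by omega, by omega, by omega, by omega, ?_⟩
        have : e = 1 := by omega
        subst this
        rw [Nat.odd_iff] at ht
        rw [Nat.even_iff]
        omega
  -- the array
  set E : S → S → ℕ := fun b c => i1 * U p1 x1 b c + i2 * U p2 x2 b c with hE
  set F : S → S → ℕ := fun b c => z2Fg L g b c + E b c with hF
  have foE : ∀ b, fo E b = (if b = p1 then i1 else 0) + (if b = p2 then i2 else 0) := by
    intro b
    have h1 := fo_U p1 x1 b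
    have h2 := fo_U p2 x2 b
    unfold fo at h1 h2 ⊢
    simp only [hE]
    rw [Finset.sum_add_distrib, ← Finset.mul_sum, ← Finset.mul_sum, h1, h2]
    split_ifs <;> simp
  have fiE : ∀ b, fi E b = (if b = x1 then i1 else 0) + (if b = x2 then i2 else 0) := by
    intro b
    have h1 := fi_U p1 x1 b
    have h2 := fi_U p2 x2 b
    unfold fi at h1 h2 ⊢
    simp only [hE]
    rw [Finset.sum_add_distrib, ← Finset.mul_sum, ← Finset.mul_sum, h1, h2]
    split_ifs <;> simp
  have totE : tot E = i1 + i2 := by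
    rw [tot_eq_sum_fo, Finset.sum_congr rfl fun b _ => foE b, Finset.sum_add_distrib]
    simp
  have foF : ∀ b, fo F b = fo (z2Fg L g) b + fo E b := fun b => fo_add _ _ b
  have fiF : ∀ b, fi F b = fi (z2Fg L g) b + fi E b := fun b => fi_add _ _ b
  have totF : tot F = 4 + (i1 + i2) := by
    rw [hF, tot_add, totE, z2_totFg g hgg, h.out, h.inn, hg]
  have hLg1 : ∀ b, L b g ≤ 1 := fun b => h.le_one b g
  have hLg2 : ∀ b, L g b ≤ 1 := fun b => h.le_one g b
  have hLx1 : L g x1 = 0 := by
    by_contra hcon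
    rcases (hN x1).1 hcon with h1 | h1
    · exact hx1.2.1 h1
    · exact hx1.2.2 h1
  have hLx2 : L g x2 = 0 := by
    by_contra hcon
    rcases (hN x2).1 hcon with h1 | h1
    · exact hx2.2.1 h1
    · exact hx2.2.2 h1
  have hfiF1 : ∀ b, b ≠ g → fi F b ≤ 1 := by
    intro b hb
    rw [fiF, z2_fiFg g b hb, fiE]
    have h1 := hLg2 b
    by_cases hb1 : b = x1
    · subst hb1
      rw [if_pos rfl, if_neg hxx, hLx1]
      omega
    · by_cases hb2 : b = x2
      · subst hb2
        rw [if_neg hb1, if_pos rfl, hLx2]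
        omega
      · rw [if_neg hb1, if_neg hb2]
        omega
  have hfiFg : fi F g = 2 := by
    rw [fiF, z2_fiFg_g, fiE, h.inn, hg, if_neg hx1.1.symm, if_neg hx2.1.symm]
  have hfoFg : fo F g = 2 := by
    rw [foF, z2_foFg_g, foE, h.out, hg, if_neg hp1g.symm, if_neg hp2g.symm]
  have hfoF2 : ∀ b, fo F b ≤ 2 := by
    intro b
    by_cases hb : b = g
    · subst hb
      omega
    · rw [foF, z2_foFg g b hb, foE]
      have h1 := hLg1 b
      by_cases hb1 : b = p1
      · subst hb1
        rw [if_pos rfl, if_neg hpp]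
        omega
      · rw [if_neg hb1]
        split_ifs <;> omega
  have hfoFb0 : fo F b0 ≤ 1 := by
    rw [foF, z2_foFg g b0 hb0g, foE]
    split_ifs at hfo ⊢ <;> omega
  have hfiFb0 : fi F b0 + (if b0 ∈ C then 1 else 0) ≤ 1 := by
    rw [fiF, z2_fiFg g b0 hb0g, fiE]
    split_ifs at hfi ⊢ <;> omega
  have hc0g : c0 ≠ g := by
    rintro rfl
    exact (hN c0).2 (Or.inl rfl) hgg
  obtain ⟨τ', hτ'⟩ : ∃ τ', τ' + (4 + (i1 + i2)) + 3 * e = τ + 2 := by
    refine ⟨τ + 2 - (4 + (i1 + i2)) - 3 * e, ?_⟩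
    rcases Nat.lt_or_ge e 1 with h1 | h1
    · have : e = 0 := by omega
      subst this
      have := hn10 rfl
      omega
    · have : e = 1 := by omega
      subst this
      omega
  refine Z_S L F d n e r 2 τ τ' g c0 {b0} C h.card (by norm_num) hr h.out h.inn ?_ ?_ ?_ hg ?_ ?_ ?_
    hc0g (by simp) hC (by simpa using hb0g.symm) hgC (by simpa using hb0c.symm) ?_ ?_ hτ ?_ ?_ ?_
    ?_ ?_ ?_ ?_
  · -- F ≤ L
    intro b c
    simp only [hF, hE, z2Fg, U]
    by_cases hbg : b = g
    · subst hbg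
      simp [hp1g.symm, hp2g.symm]
    · by_cases hcg : c = g
      · subst hcg
        simp [hx1.1.symm, hx2.1.symm]
      · rw [if_neg (by tauto)]
        by_cases h1 : b = p1 ∧ c = x1
        · obtain ⟨rfl, rfl⟩ := h1
          have : ¬ (b = p2 ∧ c = x2) := fun hh => hpp hh.1
          simp only [and_self, if_true, if_neg this]
          omega
        · by_cases h2 : b = p2 ∧ c = x2
          · obtain ⟨rfl, rfl⟩ := h2
            simp only [and_self, if_true, if_neg h1]
            omega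
          · simp [h1, h2]
  · intro b
    simp only [Finset.mem_singleton]
    by_cases hb : b = b0
    · subst hb
      rw [if_pos rfl]
      omega
    · rw [if_neg hb]
      exact hfoF2 b
  · intro b _
    by_cases hb : b = g
    · subst hb
      rw [if_neg hgC, hfiFg]
    · have := hfiF1 b hb
      split_ifs <;> omega
  · intro c
    simp only [hF, hE, z2Fg, U]
    simp [hp1g.symm, hp2g.symm]
  · intro c
    simp only [hF, hE, z2Fg, U]
    simp [hx1.1.symm, hx2.1.symm]
  · exact Nat.pos_of_ne_zero ((hN c0).2 (Or.inl rfl))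
  · intro b hb
    have h1 := hcov b hb
    have h2 : L b g + L g b + (if e = 0 ∧ b = p1 then 1 else 0) ≤ fo F b + fi F b := by
      rw [foF, fiF, z2_foFg g b hb, z2_fiFg g b hb, foE]
      by_cases h3 : e = 0 ∧ b = p1
      · rw [if_pos h3, if_pos h3.2, hi3 h3.1]
        omega
      · rw [if_neg h3]
        omega
    simp only [Finset.mem_singleton]
    omega
  · rw [totF]
    omega
  · rw [totF]
    omega
  · rw [Nat.even_iff] at hi6 ⊢
    omega
  · intro hr2
    omega
  · right; right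
    refine ⟨rfl, ?_⟩
    obtain ⟨b, hb⟩ := z2_any h (insert g (insert c0 (insert c00
        ((if i1 = 1 then {x1} else ∅) ∪ (if i2 = 1 then {x2} else ∅) ∪ C)))) (by
      refine lt_of_le_of_lt (Finset.card_insert_le _ _) ?_
      have h1 := Finset.card_insert_le c0 (insert c00
        ((if i1 = 1 then {x1} else ∅) ∪ (if i2 = 1 then {x2} else ∅) ∪ C))
      have h2 := Finset.card_insert_le c00
        ((if i1 = 1 then {x1} else ∅) ∪ (if i2 = 1 then {x2} else ∅) ∪ C)
      have h3 := Finset.card_union_le ((if i1 = 1 then {x1} else ∅) ∪ (if i2 = 1 then {x2} else ∅)) C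
      have h4 := Finset.card_union_le (if i1 = 1 then {x1} else ∅) (if i2 = 1 then {x2} else ∅)
      have h5 : (if i1 = 1 then {x1} else (∅ : Finset S)).card ≤ i1 := by
        split_ifs with hh
        · simp [hh]
        · simp
      have h6 : (if i2 = 1 then {x2} else (∅ : Finset S)).card ≤ i2 := by
        split_ifs with hh
        · simp [hh]
        · simp
      rcases Nat.lt_or_ge e 1 with h7 | h7
      · have := hn10 (by omega)
        omega
      · omega)
    simp only [Finset.mem_insert, Finset.mem_union, not_or] at hb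
    obtain ⟨hb1, hb2, hb3, ⟨hb4, hb5⟩, hb6⟩ := hb
    refine ⟨b, hb1, hb6, ?_⟩
    rw [fiF, z2_fiFg g b hb1, fiE]
    have h1 : L g b = 0 := by
      by_contra hcon
      rcases (hN b).1 hcon with h2 | h2
      · exact hb2 h2
      · exact hb3 h2
    have h2 : (if b = x1 then i1 else 0) = 0 := by
      split_ifs with hh
      · subst hh
        by_contra hcon
        have : i1 = 1 := by omega
        simp [this] at hb4
      · rfl
    have h3 : (if b = x2 then i2 else 0) = 0 := by
      split_ifs with hh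
      · subst hh
        by_contra hcon
        have : i2 = 1 := by omega
        simp [this] at hb5
      · rfl
    rw [h1, h2, h3]
  · obtain ⟨b, hb⟩ := z2_any h (insert g (insert c0 (insert b0 C))) (by
      have h1 := Finset.card_insert_le g (insert c0 (insert b0 C))
      have h2 := Finset.card_insert_le c0 (insert b0 C)
      have h3 := Finset.card_insert_le b0 C
      omega)
    simp only [Finset.mem_insert, not_or] at hb
    obtain ⟨hb1, hb2, hb3, hb4⟩ := hb
    refine ⟨b, hb1, hb2, by simpa using hb3, ?_⟩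
    rw [if_neg hb4]
    have := hfiF1 b hb1
    omega
  · intro b hb
    rw [Finset.mem_singleton] at hb
    subst hb
    omega
  · have := hfiF1 c0 hc0g
    split_ifs <;> omega

/-- Case A: `L` is complete bipartite between `X` and `{c0, c00}`. -/
private theorem z2_A (h : IsLeave L d n e τ) (hn : 7 ≤ n) (hpar : Even (n + e))
    (hmin : ∀ b, 2 ≤ d b) (g : S) (hg : d g = 2) (c0 c00 : S) (hcc : c0 ≠ c00)
    (hN : ∀ c, L g c ≠ 0 ↔ c = c0 ∨ c = c00) (u : S) (hu : d u + 2 = n) :
    TriDec (lev (n + 1 + e) (fun _ => 1) L) := by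
  obtain ⟨X, -, hXc, huX, hX, hXd, hXd'⟩ := h.bip Finset.univ
    (fun b hb => absurd (Finset.mem_univ b) hb) 2 (by norm_num) (fun b _ => hmin b)
    (Finset.mem_univ u) (by rw [Finset.card_univ, h.card]; exact hu)
  rw [Finset.card_univ, h.card] at hXc hXd'
  have hgX : g ∈ X := by
    by_contra hcon
    have := hXd' g (Finset.mem_univ g) hcon
    omega
  have harc : ∀ b c, (L b c ≠ 0 ↔ (b ∈ X ↔ c ∉ X)) := fun b c =>
    hX b (Finset.mem_univ b) c (Finset.mem_univ c)
  have hXg : ∀ c, c ∉ X ↔ c = c0 ∨ c = c00 := by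
    intro c
    rw [← hN c, harc g c]
    simp [hgX]
  have hc0X : c0 ∉ X := (hXg c0).2 (Or.inl rfl)
  have hc00X : c00 ∉ X := (hXg c00).2 (Or.inr rfl)
  have hne : ∀ x ∈ X, x ≠ c0 ∧ x ≠ c00 := fun x hx =>
    ⟨fun h1 => hc0X (h1 ▸ hx), fun h1 => hc00X (h1 ▸ hx)⟩
  obtain ⟨x1, hx1X, hx1⟩ : ∃ x ∈ X, x ∉ ({g} : Finset S) :=
    Finset.exists_mem_notMem_of_card_lt_card (by
      have : ({g} : Finset S).card ≤ 1 := by simp
      omega)
  obtain ⟨x2, hx2X, hx2⟩ : ∃ x ∈ X, x ∉ ({g, x1} : Finset S) :=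
    Finset.exists_mem_notMem_of_card_lt_card (by
      have := Finset.card_le_two (a := g) (b := x1)
      omega)
  obtain ⟨b0, hb0X, hb0⟩ : ∃ x ∈ X, x ∉ ({g, x1, x2} : Finset S) :=
    Finset.exists_mem_notMem_of_card_lt_card (by
      have := Finset.card_le_three (a := g) (b := x1) (c := x2)
      omega)
  simp only [Finset.mem_insert, Finset.mem_singleton, not_or] at hx1 hx2 hb0
  have hLX : ∀ b ∈ X, ∀ c ∈ X, L b c = 0 := by
    intro b hb c hc
    by_contra hcon
    exact ((harc b c).1 hcon).1 hb hc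
  refine z2_fin h hn hpar hmin g hg c0 c00 hN (p1 := c0) (x1 := x1) (p2 := c00) (x2 := x2)
    ?_ ?_ hcc (Ne.symm hx2.2) (fun h1 => hc0X (h1 ▸ hgX)) (fun h1 => hc00X (h1 ▸ hgX))
    ⟨hx1, hne x1 hx1X⟩ ⟨hx2.1, hne x2 hx2X⟩ b0 {c0, c00} (Finset.card_pair hcc) ?_ hb0.1
    (hne b0 hb0X).1 ?_ ?_ ?_
  · rw [harc]
    simp [hc0X, hx1X]
  · rw [harc]
    simp [hc00X, hx2X]
  · simp only [Finset.mem_insert, Finset.mem_singleton, not_or]
    exact ⟨(hne g hgX).1, (hne g hgX).2⟩
  · rw [hLX b0 hb0X g hgX, if_neg (hne b0 hb0X).1, if_neg (hne b0 hb0X).2]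
    omega
  · rw [hLX g hgX b0 hb0X, if_neg hb0.2.1, if_neg hb0.2.2, if_neg]
    · omega
    · simp only [Finset.mem_insert, Finset.mem_singleton, not_or]
      exact hne b0 hb0X
  · intro b hb
    by_cases hbX : b ∈ X
    · have := hXd b hbX
      omega
    · have h1 := hXd' b (Finset.mem_univ b) hbX
      have h2 : b ∈ ({c0, c00} : Finset S) := by
        simp only [Finset.mem_insert, Finset.mem_singleton]
        exact (hXg b).1 hbX
      rw [if_pos h2]
      have h3 : L b g ≠ 0 := by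
        rw [harc]
        simp [hbX, hgX]
      have h4 : L g b ≠ 0 := by
        rw [harc]
        simp [hbX, hgX]
      omega

end z2

theorem caseZ2 {S : Type} [Fintype S] [DecidableEq S] {L : S → S → ℕ} {d : S → ℕ} {n e τ : ℕ}
    (h : IsLeave L d n e τ) (hn : 7 ≤ n) (hpar : Even (n + e)) (hmin : ∀ b, 2 ≤ d b) (g : S)
    (hg : d g = 2) : TriDec (lev (n + 1 + e) (fun _ => 1) L) := by
  have he := h.he
  have hmod := h.hmod
  obtain ⟨c0, c00, hcc, hN⟩ : ∃ c0 c00, c0 ≠ c00 ∧ ∀ c, L g c ≠ 0 ↔ c = c0 ∨ c = c00 := by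
    have h1 := h.card_outN g
    rw [hg, Finset.card_eq_two] at h1
    obtain ⟨c0, c00, hcc, h2⟩ := h1
    refine ⟨c0, c00, hcc, fun c => ?_⟩
    have h3 : c ∈ IsLeave.outN L g ↔ c ∈ ({c0, c00} : Finset S) := by rw [h2]
    simpa [IsLeave.outN] using h3
  have hgg := h.irrefl g
  have hn10 : e = 0 → 10 ≤ n := by
    intro h0
    obtain ⟨q, hq⟩ := hpar
    omega
  have hn8 : 8 ≤ n + e := by
    obtain ⟨q, hq⟩ := hpar
    omega
  by_cases hA : ∃ u, d u + 2 = n
  · obtain ⟨u, hu⟩ := hA
    exact z2_A h hn hpar hmin g hg c0 c00 hcc hN u hu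
  push Not at hA
  have hd3 : ∀ b, d b + 3 ≤ n := by
    intro b
    obtain ⟨x, hx, -⟩ := z2_out h b ∅ (by have := hmin b; simp; omega)
    have h1 := h.adj hx
    have h2 := hmin x
    have h3 := hA b
    omega
  set H : Finset S := Finset.univ.filter (fun b => n + e ≤ d b + 4) with hH
  have hmemH : ∀ b, b ∈ H ↔ n + e ≤ d b + 4 := fun b => by simp [hH]
  have hgH : g ∉ H := by
    rw [hmemH]
    omega
  have hind : ∀ a ∈ H, ∀ b ∈ H, L a b = 0 := by
    intro a ha b hb
    by_contra hcon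
    have h1 := h.adj hcon
    rw [hmemH] at ha hb
    rcases Nat.lt_or_ge e 1 with h2 | h2
    · have := hn10 (by omega)
      omega
    · omega
  have hcompl : Hᶜ.card + H.card = n := by
    rw [Finset.card_compl, h.card]
    have := Finset.card_le_univ H
    rw [h.card] at this
    omega
  have hout_sub : ∀ u ∈ H, IsLeave.outN L u ⊆ Hᶜ := by
    intro u hu x hx
    rw [Finset.mem_compl]
    intro hxH
    have : L u x ≠ 0 := by simpa [IsLeave.outN] using hx
    exact this (hind u hu x hxH)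
  have hin_sub : ∀ u ∈ H, IsLeave.inN L u ⊆ Hᶜ := by
    intro u hu x hx
    rw [Finset.mem_compl]
    intro hxH
    have : L x u ≠ 0 := by simpa [IsLeave.inN] using hx
    exact this (hind x hxH u hu)
  have htight_out : ∀ u ∈ H, n ≤ d u + H.card → L u g ≠ 0 := by
    intro u hu hle
    have h1 : IsLeave.outN L u = Hᶜ := by
      apply Finset.eq_of_subset_of_card_le (hout_sub u hu)
      rw [h.card_outN]
      omega
    have h2 : g ∈ IsLeave.outN L u := by
      rw [h1, Finset.mem_compl]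
      exact hgH
    simpa [IsLeave.outN] using h2
  have hHc : H.card + e ≤ 3 := by
    by_contra hcon
    push Not at hcon
    have h1 : H ⊆ IsLeave.inN L g := by
      intro u hu
      have h2 := htight_out u hu (by
        have := (hmemH u).1 hu
        omega)
      simpa [IsLeave.inN] using h2
    have h2 := Finset.card_le_card h1
    rw [h.card_inN, hg] at h2
    omega
  have hcard5 : ∀ a b c x y : S, ({a, b, c, x, y} : Finset S).card ≤ 5 := fun a b c x y => by
    have h1 := Finset.card_insert_le a ({b, c, x, y} : Finset S)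
    have h2 := Finset.card_le_four (a := b) (b := c) (c := x) (d := y)
    omega
  by_cases hH3 : H.card = 3
  · -- |H| = 3
    have he0 : e = 0 := by omega
    obtain ⟨u3, hu3, hu3g⟩ : ∃ u3 ∈ H, L g u3 = 0 := by
      by_contra hcon
      push Not at hcon
      have h1 : H ⊆ IsLeave.outN L g := by
        intro u hu
        simpa [IsLeave.outN] using hcon u hu
      have h2 := Finset.card_le_card h1
      rw [h.card_outN, hg] at h2
      omega
    obtain ⟨u1, u2, hu12, hu⟩ := Finset.card_eq_two.1 (show (H.erase u3).card = 2 by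
      rw [Finset.card_erase_of_mem hu3, hH3])
    have hu1 : u1 ∈ H.erase u3 := by rw [hu]; simp
    have hu2 : u2 ∈ H.erase u3 := by rw [hu]; simp
    rw [Finset.mem_erase] at hu1 hu2
    have hd1 := (hmemH u1).1 hu1.2
    have hd2 := (hmemH u2).1 hu2.2
    have hn10' := hn10 he0
    obtain ⟨x1, hx1, hx1W⟩ := z2_out h u1 {g, c0, c00} (by
      have := Finset.card_le_three (a := g) (b := c0) (c := c00)
      omega)
    obtain ⟨x2, hx2, hx2W⟩ := z2_out h u2 {g, c0, c00, x1} (by
      have := Finset.card_le_four (a := g) (b := c0) (c := c00) (d := x1)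
      omega)
    simp only [Finset.mem_insert, Finset.mem_singleton, not_or] at hx1W hx2W
    have hgne : ∀ u ∈ H, u ≠ g := fun u hu h1 => hgH (h1 ▸ hu)
    have hx1H : x1 ∉ H := fun h1 => hx1 (hind u1 hu1.2 x1 h1)
    have hx2H : x2 ∉ H := fun h1 => hx2 (hind u2 hu2.2 x2 h1)
    refine z2_fin h hn hpar hmin g hg c0 c00 hN (p1 := u1) (x1 := x1) (p2 := u2) (x2 := x2)
      hx1 hx2 hu12 (Ne.symm hx2W.2.2.2) (hgne u1 hu1.2) (hgne u2 hu2.2) hx1W
      ⟨hx2W.1, hx2W.2.1, hx2W.2.2.1⟩ u3 {u1, u2} (Finset.card_pair hu12) ?_ (hgne u3 hu3) ?_ ?_ ?_ ?_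
    · simp only [Finset.mem_insert, Finset.mem_singleton, not_or]
      exact ⟨(hgne u1 hu1.2).symm, (hgne u2 hu2.2).symm⟩
    · rintro rfl
      exact (hN u3).2 (Or.inl rfl) hu3g
    · have := h.le_one u3 g
      rw [if_neg hu1.1.symm, if_neg hu2.1.symm]
      omega
    · rw [hu3g, if_neg (fun h1 : u3 = x1 => hx1H (h1 ▸ hu3)),
        if_neg (fun h1 : u3 = x2 => hx2H (h1 ▸ hu3)), if_neg]
      · omega
      · simp only [Finset.mem_insert, Finset.mem_singleton, not_or]
        exact ⟨hu1.1.symm, hu2.1.symm⟩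
    · intro b hb
      by_cases hbH : b ∈ H
      · have h1 : 1 ≤ (if b = u3 then 1 else 0) + (if b ∈ ({u1, u2} : Finset S) then 1 else 0) := by
          by_cases hb3 : b = u3
          · rw [if_pos hb3]
            omega
          · have : b ∈ ({u1, u2} : Finset S) := by
              rw [← hu, Finset.mem_erase]
              exact ⟨hb3, hbH⟩
            rw [if_pos this]
            omega
        have h2 := hd3 b
        rcases Nat.lt_or_ge (d b + 3) n with h3 | h3
        · omega
        · have := htight_out b hbH (by omega)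
          omega
      · rw [hmemH] at hbH
        omega
  · -- |H| ≤ 2
    have hH2 : H.card ≤ 2 := by omega
    obtain ⟨C, hCH, hgC, hC2⟩ : ∃ C : Finset S, H ⊆ C ∧ g ∉ C ∧ C.card = 2 := by
      obtain ⟨C, h1, h2, h3⟩ := Finset.exists_subsuperset_card_eq (s := H)
        (t := Finset.univ.erase g) (n := 2) (by
          intro x hx
          rw [Finset.mem_erase]
          exact ⟨fun h1 => hgH (h1 ▸ hx), Finset.mem_univ x⟩) hH2 (by
          rw [Finset.card_erase_of_mem (Finset.mem_univ g), Finset.card_univ, h.card]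
          omega)
      exact ⟨C, h1, fun hg' => (Finset.mem_erase.1 (h2 hg')).1 rfl, h3⟩
    by_cases hbad2 : ∃ u1 u2, u1 ≠ u2 ∧ e = 0 ∧ d u1 + 3 = n ∧ L u1 g = 0 ∧ L g u1 = 0 ∧
        d u2 + 3 = n ∧ L u2 g = 0 ∧ L g u2 = 0
    · obtain ⟨u1, u2, hu12, he0, hd1, h1a, h1b, hd2, h2a, h2b⟩ := hbad2
      have hu1 : u1 ∈ H := by
        rw [hmemH]
        omega
      have hu2 : u2 ∈ H := by
        rw [hmemH]
        omega
      have hn10' := hn10 he0
      have hHeq : ({u1, u2} : Finset S) = C := by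
        apply Finset.eq_of_subset_of_card_le
        · intro x hx
          simp only [Finset.mem_insert, Finset.mem_singleton] at hx
          rcases hx with rfl | rfl
          · exact hCH hu1
          · exact hCH hu2
        · rw [Finset.card_pair hu12, hC2]
      obtain ⟨x1, hx1, hx1W⟩ := z2_out h u2 {g, c0, c00} (by
        have := Finset.card_le_three (a := g) (b := c0) (c := c00)
        omega)
      obtain ⟨x2, hx2, hx2W⟩ := z2_out h u1 {g, c0, c00, x1} (by
        have := Finset.card_le_four (a := g) (b := c0) (c := c00) (d := x1)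
        omega)
      simp only [Finset.mem_insert, Finset.mem_singleton, not_or] at hx1W hx2W
      have hgne : ∀ u ∈ H, u ≠ g := fun u hu h1 => hgH (h1 ▸ hu)
      have hx1H : x1 ∉ H := fun h1 => hx1 (hind u2 hu2 x1 h1)
      have hx2H : x2 ∉ H := fun h1 => hx2 (hind u1 hu1 x2 h1)
      refine z2_fin h hn hpar hmin g hg c0 c00 hN (p1 := u2) (x1 := x1) (p2 := u1) (x2 := x2)
        hx1 hx2 hu12.symm (Ne.symm hx2W.2.2.2) (hgne u2 hu2) (hgne u1 hu1) hx1W
        ⟨hx2W.1, hx2W.2.1, hx2W.2.2.1⟩ u1 C hC2 hgC (hgne u1 hu1) ?_ ?_ ?_ ?_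
      · rintro rfl
        exact (hN u1).2 (Or.inl rfl) h1b
      · rw [h1a, if_neg hu12, if_pos rfl]
      · rw [h1b, if_neg (fun h1 : u1 = x1 => hx1H (h1 ▸ hu1)),
          if_neg (fun h1 : u1 = x2 => hx2H (h1 ▸ hu1)),
          if_pos (hCH hu1)]
      · intro b hb
        by_cases hbH : b ∈ H
        · have hbC := hCH hbH
          rw [if_pos hbC]
          rw [← hHeq] at hbC
          simp only [Finset.mem_insert, Finset.mem_singleton] at hbC
          rcases hbC with rfl | rfl
          · rw [if_pos (rfl : b = b)]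
            omega
          · rw [if_pos (⟨he0, rfl⟩ : e = 0 ∧ b = b)]
            omega
        · rw [hmemH] at hbH
          omega
    · push Not at hbad2
      obtain ⟨x1, hx1W⟩ := z2_any h ({g, c0, c00} ∪ C) (by
        have h1 := Finset.card_union_le ({g, c0, c00} : Finset S) C
        have := Finset.card_le_three (a := g) (b := c0) (c := c00)
        omega)
      obtain ⟨x2, hx2W⟩ := z2_any h (insert x1 ({g, c0, c00} ∪ C)) (by
        have h0 := Finset.card_insert_le x1 ({g, c0, c00} ∪ C)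
        have h1 := Finset.card_union_le ({g, c0, c00} : Finset S) C
        have := Finset.card_le_three (a := g) (b := c0) (c := c00)
        omega)
      simp only [Finset.mem_insert, Finset.mem_union, Finset.mem_singleton, not_or] at hx1W hx2W
      obtain ⟨⟨hx1g, hx1c, hx1c'⟩, hx1C⟩ := hx1W
      obtain ⟨hx12, ⟨hx2g, hx2c, hx2c'⟩, hx2C⟩ := hx2W
      obtain ⟨p1, hp1, -⟩ := z2_in h x1 ∅ (by have := hmin x1; simp; omega)
      obtain ⟨p2, hp2, hp21⟩ := z2_in h x2 {p1} (by have := hmin x2; simp; omega)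
      rw [Finset.mem_singleton] at hp21
      have hp1g : p1 ≠ g := by
        rintro rfl
        rcases (hN x1).1 hp1 with h1 | h1
        · exact hx1c h1
        · exact hx1c' h1
      have hp2g : p2 ≠ g := by
        rintro rfl
        rcases (hN x2).1 hp2 with h1 | h1
        · exact hx2c h1
        · exact hx2c' h1
      by_cases hbad : ∃ u, e = 0 ∧ d u + 3 = n ∧ L u g = 0 ∧ L g u = 0
      · obtain ⟨u, he0, hdu, hua, hub⟩ := hbad
        have huH : u ∈ H := by
          rw [hmemH]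
          omega
        have huC := hCH huH
        refine z2_fin h hn hpar hmin g hg c0 c00 hN (p1 := p1) (x1 := x1) (p2 := p2) (x2 := x2)
          hp1 hp2 (Ne.symm hp21) (Ne.symm hx12) hp1g hp2g ⟨hx1g, hx1c, hx1c'⟩
          ⟨hx2g, hx2c, hx2c'⟩ u C hC2 hgC (fun h1 => hgH (h1 ▸ huH)) ?_ ?_ ?_ ?_
        · rintro rfl
          exact (hN u).2 (Or.inl rfl) hub
        · rw [hua]
          by_cases h1 : u = p1
          · rw [if_pos h1, if_neg (fun h2 : u = p2 => hp21 (h2 ▸ h1))]
          · rw [if_neg h1]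
            split_ifs <;> omega
        · rw [hub, if_neg (fun h1 : u = x1 => hx1C (h1 ▸ huC)),
            if_neg (fun h1 : u = x2 => hx2C (h1 ▸ huC)),
            if_pos huC]
        · intro b hb
          by_cases hbH : b ∈ H
          · rw [if_pos (hCH hbH)]
            by_cases hbu : b = u
            · rw [if_pos hbu, hbu]
              omega
            · have h1 := hbad2 b u hbu he0
              have h2 := hd3 b
              rcases Nat.lt_or_ge (d b + 3) n with h3 | h3
              · omega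
              · by_cases h4 : L b g = 0
                · have h5 : L g b ≠ 0 := fun h5 => h1 (by omega) h4 h5 hdu hua hub
                  omega
                · omega
          · rw [hmemH] at hbH
            omega
      · push Not at hbad
        obtain ⟨b0, hb0⟩ := z2_any h ({g, c0, p1, p2} ∪ C) (by
          have h1 := Finset.card_union_le ({g, c0, p1, p2} : Finset S) C
          have := Finset.card_le_four (a := g) (b := c0) (c := p1) (d := p2)
          omega)
        simp only [Finset.mem_insert, Finset.mem_union, Finset.mem_singleton, not_or] at hb0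
        obtain ⟨⟨hb0g, hb0c, hb01, hb02⟩, hb0C⟩ := hb0
        refine z2_fin h hn hpar hmin g hg c0 c00 hN (p1 := p1) (x1 := x1) (p2 := p2) (x2 := x2)
          hp1 hp2 (Ne.symm hp21) (Ne.symm hx12) hp1g hp2g ⟨hx1g, hx1c, hx1c'⟩
          ⟨hx2g, hx2c, hx2c'⟩ b0 C hC2 hgC hb0g hb0c ?_ ?_ ?_
        · have := h.le_one b0 g
          rw [if_neg hb01, if_neg hb02]
          omega
        · rw [if_neg hb0C]
          by_cases h1 : L g b0 = 0
          · rw [h1]
            by_cases h2 : b0 = x1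
            · rw [if_pos h2, if_neg (fun h3 : b0 = x2 => hx12 (h3 ▸ h2))]
            · rw [if_neg h2]
              split_ifs <;> omega
          · have h2 := h.le_one g b0
            have h3 : b0 ≠ x1 := by
              rintro rfl
              rcases (hN b0).1 h1 with h4 | h4
              · exact hx1c h4
              · exact hx1c' h4
            have h5 : b0 ≠ x2 := by
              rintro rfl
              rcases (hN b0).1 h1 with h4 | h4
              · exact hx2c h4
              · exact hx2c' h4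
            rw [if_neg h3, if_neg h5]
            omega
        · intro b hb
          by_cases hbH : b ∈ H
          · rw [if_pos (hCH hbH)]
            have h2 := hd3 b
            rcases Nat.lt_or_ge (d b + 3) n with h3 | h3
            · omega
            · rcases Nat.lt_or_ge e 1 with h4 | h4
              · have h1 := hbad b (by omega) (by omega)
                by_cases h5 : L b g = 0
                · have := h1 h5
                  omega
                · omega
              · omega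
          · rw [hmemH] at hbH
            omega

end MQ94
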