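import Pool.Agent.MQ94.EX
import Pool.Agent.MQ94.ZS

/-!
# Module MQ-CZEX (MP_aaabe1_al, helper94): minimum degree `m ≥ 3`, `n + 1 + e ≢ m (mod 2)`,
`n ≥ 3 m + 1`

`Z_S` with `2 r = n + e - m`, `c0` an out-neighbour of `g`. If `e = 0` then even `n ≥ 3 m + 4`
(`n - m` is even and `n ≢ 2 (mod 3)` by `hmod`: `3 m + 1`, `3 m + 3` have the wrong parity,
`3 m + 2` is `2` mod `3`). `F₀` from `EX` with `ℓ b = (d b + 2 m + 2 - (n + e)) / 2`,
`lo₁ = 2 m² - 2 m - m e + e`, `hi = τ + m² - m - m e - e`. Put `K' = n - 1 + e - 2 m`, `ρ = d b - K'`.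
* `hℓ1`: `2 ℓ b ≤ m + 2 - e ≤ 2 m - 1`. If `ρ ≤ 0` then `ℓ b = 0`. Otherwise `2 ℓ b ≤ ρ + 1`,
  `n - d b - 1 = 2 m - e - ρ`, `ρ ≤ m + 1 - e`, and `K' ≥ m + 3` if `e = 0`, `K' ≥ m + 1` if `e = 1`.
  `hℓ3`: `3 (ρ + 1) ≤ 2 (K' + ρ)`, i.e. `ρ + 3 ≤ 2 K'`: `e = 0`: `m + 4 ≤ 2 m + 6`; `e = 1`:
  `m + 3 ≤ 2 m + 2`. `hℓ2`: `(ρ + 1) (2 m - e - ρ) ≤ 2 (K' + ρ) (m - 2)`: `e = 0`: the difference is at
  least `2 m² - 12 - 3 ρ + ρ² > 0`; `e = 1`: at least `2 m² - 4 m - 3 - 2 ρ + ρ² > 0`.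
* `hlo`: `lo₁ + 2 m ≤ 2 m²`. `hhi`: `e = 0`: `7 m ≤ 3 m²`; `e = 1`: `10 m + 1 ≤ 3 m² + n`.
  `lo₁ + 1 ≤ hi` (we need a bit more than `lo₁ ≤ hi`): `m² - m + 2 e + 1 ≤ τ`: `3 τ ≥ m n + (n + 1 + e) e`.
* Extra arcs. `b1 → c0` not in `F₀` (`fi F₀ c0 ≤ m - 1 < d c0`), `b1 ≠ g` since `F₀ = L` at `g`,
  `b1 ≠ c0`. `b2 → b1` not in `F₀` (`fi F₀ b1 ≤ m - 1 < d b1`), `b2 ≠ g`, `b2 ≠ b1`.
  `F = F₀`, `F₀ + U b1 c0` or `F₀ + U b1 c0 + U b2 b1` such that `tot F ≥ 2 m² - 2 m - m e + 1`,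
  `tot F ≤ hi` and `hi - tot F` is even (`tot F₀ ≥ lo₁`; two arcs are needed only if `e = 0`,
  `tot F₀ = lo₁` and `hi - lo₁` is even, and then `hi ≥ lo₁ + 2`). `τ' = hi - tot F`.
* `C ⊆ S \ {g, c0, b1}`, `|C| = m`; `B ⊆ S \ ({g, c0, b1, b2} ∪ C)`, `|B| = m - 1`
  (`n - 4 - m ≥ m - 1`); `bs ∉ {g, c0, b1} ∪ B ∪ C` (`n - 3 - (2 m - 1) ≥ 1`).
  `fo F b ≤ m`, with `≤ m - 1` for `b ≠ g, b1, b2`; `fi F b ≤ m`, with `≤ m - 1` for `b ≠ g, c0, b1`.
* `hcov`: `d b + 2 m + 1 ≤ n + e + 2 ℓ b`. `r ≥ 4`. `hlink`: `3 ≤ m`.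
-/

set_option autoImplicit false

namespace MQ94

open Finset

private theorem ex_arc {S : Type} [Fintype S] [DecidableEq S] {L F : S → S → ℕ} {c : S}
    (hle : ∀ b c, L b c ≤ 1) (h : fi F c < fi L c) : ∃ b, L b c = 1 ∧ F b c = 0 := by
  unfold fi at h
  obtain ⟨b, -, hb⟩ := Finset.exists_lt_of_sum_lt h
  have := hle b c
  exact ⟨b, by omega, by omega⟩

private theorem ell_bounds {n e m D K : ℕ} (he : e ≤ 1) (hm : 3 ≤ m) (h0 : e = 0 → 3 * m + 4 ≤ n)
    (hn : 3 * m + 1 ≤ n) (hD : D + m ≤ n) (hK : 2 * K ≤ D + 2 * m + 2 - (n + e)) :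
    K ≤ m - 1 ∧ K * (n - D - 1) ≤ D * (m - 2) ∧ 3 * K ≤ D := by
  rcases Nat.eq_zero_or_pos K with rfl | hK0
  · simp
  refine ⟨by omega, ?_, by omega⟩
  obtain ⟨ρ, hρ⟩ : ∃ ρ : ℕ, D + 2 * m + 1 = n + e + ρ := ⟨D + 2 * m + 1 - (n + e), by omega⟩
  obtain ⟨q, hq⟩ : ∃ q : ℕ, n = D + 1 + q := ⟨n - D - 1, by omega⟩
  obtain ⟨p, hp⟩ : ∃ p : ℕ, m = p + 2 := ⟨m - 2, by omega⟩
  have e1 : n - D - 1 = q := by omega
  have e2 : m - 2 = p := by omega
  rw [e1, e2]
  have hK2 : 2 * K ≤ ρ + 1 := by omega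
  have hρm : ρ + e ≤ m + 1 := by omega
  have key : (ρ + 1) * q ≤ 2 * (D * p) := by
    zify at *
    rcases Nat.le_one_iff_eq_zero_or_eq_one.mp (by exact_mod_cast he : e ≤ 1) with rfl | rfl
    · have h1 := h0 rfl
      have hq' : (q : ℤ) = 2 * m - ρ := by push_cast at *; linarith
      have hD' : (m : ℤ) + 3 + ρ ≤ D := by push_cast at *; linarith
      have hp' : (p : ℤ) = m - 2 := by linarith
      rw [hq', hp']
      have h2 : ((m : ℤ) + 3 + ρ) * (m - 2) ≤ D * (m - 2) :=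
        mul_le_mul_of_nonneg_right hD' (by linarith)
      nlinarith [sq_nonneg ((ρ : ℤ) - 2), sq_nonneg ((ρ : ℤ) - 1)]
    · have hq' : (q : ℤ) = 2 * m - 1 - ρ := by push_cast at *; linarith
      have hD' : (m : ℤ) + 1 + ρ ≤ D := by push_cast at *; linarith
      have hp' : (p : ℤ) = m - 2 := by linarith
      rw [hq', hp']
      have h2 : ((m : ℤ) + 1 + ρ) * (m - 2) ≤ D * (m - 2) :=
        mul_le_mul_of_nonneg_right hD' (by linarith)
      nlinarith [sq_nonneg ((ρ : ℤ) - 1)]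
  have h3 : 2 * (K * q) ≤ 2 * (D * p) := by
    calc 2 * (K * q) = (2 * K) * q := by ring
      _ ≤ (ρ + 1) * q := Nat.mul_le_mul_right _ hK2
      _ ≤ _ := key
  omega

theorem caseZEX {S : Type} [Fintype S] [DecidableEq S] {L : S → S → ℕ} {d : S → ℕ} {n e τ : ℕ}
    (h : IsLeave L d n e τ) (m : ℕ) (hm : 3 ≤ m) (hmin : ∀ b, m ≤ d b) (hn : 3 * m + 1 ≤ n)
    (hpar : Odd (n + 1 + e + m)) (g : S) (hg : d g = m) :
    TriDec (lev (n + 1 + e) (fun _ => 1) L) := by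
  have he := h.he
  have hmod := h.hmod
  have hn0 : e = 0 → 3 * m + 4 ≤ n := by
    rintro rfl
    obtain ⟨k, hk⟩ := hpar
    omega
  obtain ⟨r, hr⟩ : ∃ r, n + e = 2 * r + m := by
    obtain ⟨k, hk⟩ := hpar
    exact ⟨k - m, by omega⟩
  obtain ⟨c0, hc0⟩ := IsLeave.leave_exists_out h (b := g) (by omega)
  have hgc0 : c0 ≠ g := by
    rintro rfl
    exact hc0 (h.irrefl _)
  -- degrees
  have hdle : ∀ b, d b + m ≤ n := by
    intro b
    obtain ⟨c, hc⟩ := IsLeave.leave_exists_out h (b := b) (by have := hmin b; omega)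
    have := h.adj hc
    have := hmin c
    omega
  have htotL : m * n ≤ tot L := by
    rw [tot_eq_sum_fo]
    calc m * n = ∑ _b : S, m := by
          rw [Finset.sum_const, Finset.card_univ, h.card, smul_eq_mul, mul_comm]
      _ ≤ _ := Finset.sum_le_sum fun b _ => by rw [h.out]; exact hmin b
  have hτ := h.hτ
  set ℓ : S → ℕ := fun b => (d b + 2 * m + 2 - (n + e)) / 2 with hℓ
  have hℓb : ∀ b, ℓ b ≤ m - 1 ∧ ℓ b * (n - d b - 1) ≤ d b * (m - 2) ∧ 3 * ℓ b ≤ d b := by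
    intro b
    exact ell_bounds he hm hn0 hn (hdle b) (by simp only [hℓ]; omega)
  -- numbers
  have hmm : 3 * m ≤ m * m := Nat.mul_le_mul_right _ hm
  have hmn : m * (3 * m + 1) ≤ m * n := Nat.mul_le_mul_left _ hn
  have hmm3 : m * (3 * m + 1) = 3 * (m * m) + m := by ring
  have h2mm : 2 * m * m = 2 * (m * m) := by ring
  have he01 : e = 0 ∨ e = 1 := by omega
  have hme : m * e ≤ m := by
    rcases he01 with rfl | rfl <;> omega
  obtain ⟨lo, hlo⟩ : ∃ lo : ℕ, lo + 2 * m + m * e = 2 * m * m + e :=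
    ⟨2 * m * m + e - (2 * m + m * e), by omega⟩
  obtain ⟨hi, hhi⟩ : ∃ hi : ℕ, hi + m + m * e + e = τ + m * m :=
    ⟨τ + m * m - (m + m * e + e), by omega⟩
  have hτ3 : 3 * (m * m) + 3 * (2 * e + 1) ≤ 3 * τ + 3 * m := by
    rcases he01 with rfl | rfl
    · have h1 : m * (3 * m + 4) ≤ m * n := Nat.mul_le_mul_left _ (hn0 rfl)
      have h2 : m * (3 * m + 4) = 3 * (m * m) + 4 * m := by ring
      omega
    · omega
  have hlohi : lo + 1 ≤ hi := by omega
  have hhi3 : tot L + 4 * m ≤ 3 * hi := by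
    rcases he01 with rfl | rfl
    · simp only [mul_zero, add_zero] at *
      omega
    · simp only [mul_one] at *
      omega
  obtain ⟨F₀, hF0L, hF0go, hF0gi, hF0b, hF0lo, hF0hi⟩ := EX h m hm g hg hmin ℓ
    (fun b _ => (hℓb b).1) (fun b _ => (hℓb b).2.1) (fun b _ => (hℓb b).2.2) lo hi (by
      rcases he01 with rfl | rfl
      · omega
      · omega) (by omega) hhi3
  -- extra arcs
  obtain ⟨b1, hb1L, hb1F⟩ := ex_arc (F := F₀) (c := c0) h.le_one (by
    have h1 := (hF0b c0 hgc0).2.1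
    have h2 := hmin c0
    rw [h.inn]; omega)
  have hb1g : b1 ≠ g := by
    rintro rfl
    rw [hF0go] at hb1F
    omega
  have hb1c0 : b1 ≠ c0 := by
    rintro rfl
    have := h.irrefl b1
    omega
  obtain ⟨b2, hb2L, hb2F⟩ := ex_arc (F := F₀) (c := b1) h.le_one (by
    have h1 := (hF0b b1 hb1g).2.1
    have h2 := hmin b1
    rw [h.inn]; omega)
  have hb2g : b2 ≠ g := by
    rintro rfl
    rw [hF0go] at hb2F
    omega
  have hb2b1 : b2 ≠ b1 := by
    rintro rfl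
    have := h.irrefl b2
    omega
  -- the choice of the number of extra arcs
  obtain ⟨α, β, hα, hβ, hsum, hsumhi, τ', hτ'e, hτ'⟩ : ∃ α β : ℕ, α ≤ 1 ∧ β ≤ 1 ∧
      2 * m * m + 1 ≤ tot F₀ + α + β + 2 * m + m * e ∧ tot F₀ + α + β ≤ hi ∧
      ∃ τ', Even τ' ∧ τ' + (tot F₀ + α + β) = hi := by
    obtain ⟨q, hq⟩ : ∃ q, tot F₀ + q = hi := ⟨hi - tot F₀, by omega⟩
    rcases Nat.even_or_odd q with hqe | hqo
    · by_cases hc : 2 * m * m + 1 ≤ tot F₀ + 2 * m + m * e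
      · exact ⟨0, 0, by omega, by omega, by omega, by omega, q, hqe, by omega⟩
      · obtain ⟨k, hk⟩ := hqe
        refine ⟨1, 1, le_rfl, le_rfl, by omega, by omega, q - 2, ⟨k - 1, by omega⟩, by omega⟩
    · obtain ⟨k, hk⟩ := hqo
      exact ⟨1, 0, le_rfl, by omega, by omega, by omega, q - 1, ⟨k, by omega⟩, by omega⟩
  set F : S → S → ℕ := fun b c => F₀ b c + (α * U b1 c0 b c + β * U b2 b1 b c) with hF
  have hfoF : ∀ b, fo F b = fo F₀ b + (α * (if b = b1 then 1 else 0) +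
      β * (if b = b2 then 1 else 0)) := by
    intro b
    rw [← fo_U b1 c0 b, ← fo_U b2 b1 b]
    simp only [hF, fo, Finset.sum_add_distrib, Finset.mul_sum]
  have hfiF : ∀ b, fi F b = fi F₀ b + (α * (if b = c0 then 1 else 0) +
      β * (if b = b1 then 1 else 0)) := by
    intro b
    rw [← fi_U b1 c0 b, ← fi_U b2 b1 b]
    simp only [hF, fi, Finset.sum_add_distrib, Finset.mul_sum]
  have htotF : tot F = tot F₀ + α + β := by
    have h1 := tot_U b1 c0
    have h2 := tot_U b2 b1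
    simp only [tot, hF, Finset.sum_add_distrib, ← Finset.mul_sum] at *
    rw [h1, h2]; ring
  -- the sets
  obtain ⟨C, hCs, hCc⟩ := Finset.exists_subset_card_eq (s := univ \ ({g, c0, b1} : Finset S))
    (n := m) (by
      have h1 := Finset.le_card_sdiff ({g, c0, b1} : Finset S) univ
      have h2 : ({g, c0, b1} : Finset S).card ≤ 3 := Finset.card_le_three
      rw [Finset.card_univ, h.card] at h1
      omega)
  obtain ⟨B, hBs, hBc⟩ := Finset.exists_subset_card_eq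
    (s := univ \ (({g, c0, b1, b2} : Finset S) ∪ C)) (n := m - 1) (by
      have h1 := Finset.le_card_sdiff (({g, c0, b1, b2} : Finset S) ∪ C) univ
      have h2 : ({g, c0, b1, b2} : Finset S).card ≤ 4 := Finset.card_le_four
      have h3 := Finset.card_union_le ({g, c0, b1, b2} : Finset S) C
      rw [Finset.card_univ, h.card] at h1
      omega)
  have hCn : ∀ b ∈ C, b ≠ g ∧ b ≠ c0 ∧ b ≠ b1 := by
    intro b hb
    have := hCs hb
    simpa [not_or] using this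
  have hBn : ∀ b ∈ B, b ≠ g ∧ b ≠ c0 ∧ b ≠ b1 ∧ b ≠ b2 ∧ b ∉ C := by
    intro b hb
    have := hBs hb
    simp only [mem_sdiff, mem_univ, true_and, mem_union, mem_insert, mem_singleton, not_or] at this
    tauto
  obtain ⟨bs, hbs⟩ : ∃ bs, bs ∉ ({g, c0, b1} : Finset S) ∪ (B ∪ C) := by
    by_contra hcon
    push Not at hcon
    have h1 : (univ : Finset S) ⊆ ({g, c0, b1} : Finset S) ∪ (B ∪ C) := fun x _ => hcon x
    have h2 := Finset.card_le_card h1
    have h3 := Finset.card_union_le ({g, c0, b1} : Finset S) (B ∪ C)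
    have h4 := Finset.card_union_le B C
    have h5 : ({g, c0, b1} : Finset S).card ≤ 3 := Finset.card_le_three
    rw [Finset.card_univ, h.card] at h2
    omega
  simp only [mem_union, mem_insert, mem_singleton, not_or] at hbs
  obtain ⟨⟨hbsg, hbsc0, hbsb1⟩, hbsB, hbsC⟩ := hbs
  have hfog : fo F₀ g = m := by
    rw [← hg, ← h.out g]; exact Finset.sum_congr rfl fun c _ => hF0go c
  have hfig : fi F₀ g = m := by
    rw [← hg, ← h.inn g]; exact Finset.sum_congr rfl fun c _ => hF0gi c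
  refine Z_S L F d n e r m τ τ' g c0 B C h.card (by omega) hr h.out h.inn ?_ ?_ ?_ hg ?_ ?_
    (Nat.pos_of_ne_zero hc0) hgc0 (by omega) hCc ?_ ?_ ?_ ?_ ?_ hτ ?_ hτ'e ?_ (Or.inl hm) ?_ ?_ ?_
  · -- F ≤ L
    intro b c
    simp only [hF, U]
    have h1 := hF0L b c
    by_cases p1 : b = b1 ∧ c = c0
    · have p2 : ¬ (b = b2 ∧ c = b1) := by
        rintro ⟨-, h2⟩
        exact hb1c0 (h2.symm.trans p1.2)
      rw [if_pos p1, if_neg p2, p1.1, p1.2, hb1F, hb1L]
      omega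
    · rw [if_neg p1]
      by_cases p2 : b = b2 ∧ c = b1
      · rw [if_pos p2, p2.1, p2.2, hb2F, hb2L]
        omega
      · rw [if_neg p2]; omega
  · intro b
    rw [hfoF]
    by_cases hbg : b = g
    · subst hbg
      have : b ∉ B := fun hh => (hBn b hh).1 rfl
      simp only [this, hb1g.symm, hb2g.symm, if_false, hfog]
      omega
    · have h1 := (hF0b b hbg).1
      by_cases hbB : b ∈ B
      · have h2 := hBn b hbB
        simp only [h2.2.2.1, h2.2.2.2.1, hbB, if_true, if_false]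
        omega
      · simp only [hbB, if_false]
        by_cases p1 : b = b1
        · have p2 : b ≠ b2 := fun hh => hb2b1 (hh.symm.trans p1)
          simp only [p1, if_true] at *
          simp only [hb2b1.symm, if_false]
          omega
        · simp only [p1, if_false]
          split_ifs <;> omega
  · intro b hbc0
    rw [hfiF]
    by_cases hbg : b = g
    · subst hbg
      have : b ∉ C := fun hh => (hCn b hh).1 rfl
      simp only [this, hb1g.symm, hgc0.symm, if_false, hfig]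
      omega
    · have h1 := (hF0b b hbg).2.1
      simp only [hbc0, if_false]
      by_cases hbC : b ∈ C
      · have h2 := hCn b hbC
        simp only [h2.2.2, hbC, if_true, if_false]
        omega
      · simp only [hbC, if_false]
        split_ifs <;> omega
  · intro c
    simp only [hF, U, hb1g.symm, hb2g.symm, false_and, if_false]
    rw [hF0go]; omega
  · intro c
    simp only [hF, U, hb1g.symm, hgc0.symm, and_false, if_false]
    rw [hF0gi]; omega
  · exact fun hh => (hBn g hh).1 rfl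
  · exact fun hh => (hCn g hh).1 rfl
  · exact fun hh => (hBn c0 hh).2.1 rfl
  · intro b hbg
    rw [hfoF, hfiF]
    have h1 := (hF0b b hbg).2.2
    have h2 : d b + 2 * m + 1 ≤ n + e + 2 * ℓ b := by simp only [hℓ]; omega
    omega
  · rw [htotF]; omega
  · rw [htotF]; omega
  · intro hr2; omega
  · refine ⟨bs, hbsg, hbsc0, hbsB, ?_⟩
    rw [hfiF]
    have h1 := (hF0b bs hbsg).2.1
    simp only [hbsc0, hbsb1, hbsC, if_false]
    omega
  · intro b hb
    rw [hfiF]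
    have h2 := hBn b hb
    have h1 := (hF0b b h2.1).2.1
    simp only [h2.2.1, h2.2.2.1, h2.2.2.2.2, if_false]
    omega
  · rw [hfiF]
    have h1 := (hF0b c0 hgc0).2.1
    have h2 : c0 ∉ C := fun hh => (hCn c0 hh).2.1 rfl
    simp only [h2, hb1c0.symm, if_true, if_false]
    omega

end MQ94
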