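import Pool.Agent.MQ94.CaseK1
import Pool.Agent.MQ94.CaseZ1
import Pool.Agent.MQ94.CaseK2
import Pool.Agent.MQ94.CaseZ2
import Pool.Agent.MQ94.CaseP2R
import Pool.Agent.MQ94.CaseP3R
import Pool.Agent.MQ94.CaseSmall
import Pool.Agent.MQ94.CaseD2N6
import Pool.Agent.MQ94.CasePV
import Pool.Agent.MQ94.CaseKEX
import Pool.Agent.MQ94.CaseZEX

/-!
# MQ-CORE (MP_aaabe1_al, helper94): the case distinction
-/

set_option autoImplicit false

namespace MQ94

theorem tot_four_regular {S : Type} [Fintype S] [DecidableEq S] {L : S → S → ℕ} {d : S → ℕ}
    {e τ : ℕ} (h : IsLeave L d 4 e τ) (hmin : ∀ b, 2 ≤ d b) : tot L = 8 := by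
  have hd : ∀ b, d b = 2 := by
    intro b
    obtain ⟨c, hc⟩ : ∃ c, L b c ≠ 0 := by
      by_contra hcon
      push Not at hcon
      have h1 := h.out b
      have h2 := hmin b
      have h3 : fo L b = 0 := by
        unfold fo
        exact Finset.sum_eq_zero fun c _ => hcon c
      omega
    have h1 := h.adj hc
    have h2 := hmin b
    have h3 := hmin c
    omega
  have h1 : tot L = ∑ b, d b := by
    rw [tot_eq_sum_fo]
    exact Finset.sum_congr rfl fun b _ => h.out b
  rw [h1, Finset.sum_congr rfl fun b _ => hd b]
  simp [h.card]

theorem core {S : Type} [Fintype S] [DecidableEq S] {L : S → S → ℕ} {d : S → ℕ} {n e τ : ℕ}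
    (h : IsLeave L d n e τ) (h6 : 2 * n + 1 + e ≠ 6) :
    TriDec (lev (n + 1 + e) (fun _ => 1) L) := by
  have he := h.he
  have hmod := h.hmod
  have hτ := h.hτ
  rcases Nat.lt_or_ge n 4 with hn4 | hn4
  · -- n ≤ 3
    interval_cases n
    · -- n = 0
      have he0 : e = 0 := by omega
      subst he0
      exact caseN0 L h.card
    · exact caseN1 L h.card h.irrefl e he
    · omega
    · have he0 : e = 0 := by omega
      subst he0
      obtain ⟨g⟩ : Nonempty S := by
        rw [← Fintype.card_pos_iff, h.card]
        norm_num
      have hL := h.three Finset.univ (fun b hb => absurd (Finset.mem_univ b) hb)
        (by rw [Finset.card_univ, h.card]) (by omega)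
      have hg : d g = 0 := by
        rw [← h.out g]
        unfold fo
        exact Finset.sum_eq_zero fun c _ => hL g c
      exact caseP2R h (by norm_num) (by decide) g hg
  · rcases Nat.even_or_odd (n + e) with hpar | hpar
    · -- w odd
      by_cases h1 : ∃ g, d g = 1
      · obtain ⟨g, hg⟩ := h1
        exact caseK1 h hn4 hpar g hg
      push Not at h1
      by_cases h0 : ∃ g, d g = 0
      · obtain ⟨g, hg⟩ := h0
        rcases Nat.lt_or_ge 4 n with hn5 | hn5
        · exact caseP3R h hn5 hpar h1 g hg
        · have hn : n = 4 := by omega
          subst hn
          have he0 : e = 0 := by
            rcases Nat.lt_or_ge e 1 with h2 | h2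
            · omega
            · have : e = 1 := by omega
              subst this
              exact absurd hpar (by decide)
          subst he0
          have hL : ∀ b c, L b c = 0 := by
            intro b c
            by_contra hbc
            have h2 := h.adj0 hg hbc
            have h3 := h.pos_left hbc
            have h4 := h.pos_right hbc
            have h5 := h1 b
            have h6 := h1 c
            omega
          exact caseFour L h.card hL
      push Not at h0
      have h2 : ∀ b, 2 ≤ d b := by
        intro b
        have h3 := h0 b
        have h4 := h1 b
        omega
      have hne : (Finset.univ : Finset S).Nonempty := by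
        rw [← Finset.card_pos, Finset.card_univ, h.card]
        omega
      obtain ⟨g, -, hg⟩ := Finset.exists_min_image Finset.univ d hne
      have hmin : ∀ b, d g ≤ d b := fun b => hg b (Finset.mem_univ b)
      rcases Nat.lt_or_ge (d g) 3 with hd3 | hd3
      · have hg2 : d g = 2 := by
          have := h2 g
          omega
        rcases Nat.lt_or_ge n 7 with hn7 | hn7
        · interval_cases n
          · exfalso
            have h5 := tot_four_regular h h2
            have : e = 0 := by
              rcases Nat.lt_or_ge e 1 with h3 | h3
              · omega
              · have : e = 1 := by omega
                subst this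
                exact absurd hpar (by decide)
            subst this
            omega
          · exfalso
            have : e = 1 := by
              rcases Nat.lt_or_ge e 1 with h3 | h3
              · have : e = 0 := by omega
                subst this
                exact absurd hpar (by decide)
              · omega
            subst this
            exact caseD2N5 h h2
          · have : e = 0 := by
              rcases Nat.lt_or_ge e 1 with h3 | h3
              · omega
              · have : e = 1 := by omega
                subst this
                exact absurd hpar (by decide)
            subst this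
            exact caseD2N6 h h2 g hg2
        · exact caseZ2 h hn7 hpar h2 g hg2
      · -- minimum degree ≥ 3
        obtain ⟨c, hc⟩ : ∃ c, L g c ≠ 0 := by
          by_contra hcon
          push Not at hcon
          have h3 := h.out g
          have h4 : fo L g = 0 := by
            unfold fo
            exact Finset.sum_eq_zero fun c _ => hcon c
          omega
        have hadj := h.adj hc
        have hc2 := hmin c
        rcases Nat.lt_or_ge (3 * d g) n with hn3 | hn3
        · rcases Nat.even_or_odd (n + 1 + e + d g) with hp2 | hp2
          · exact caseKEX h (d g) hd3 hmin (Or.inl (by omega)) hp2 g rfl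
          · exact caseZEX h (d g) hd3 hmin (by omega) hp2 g rfl
        · rcases Nat.lt_or_ge n 7 with hn7 | hn7
          · have hn : n = 6 := by omega
            subst hn
            have he0 : e = 0 := by
              rcases Nat.lt_or_ge e 1 with h3 | h3
              · omega
              · have : e = 1 := by omega
                subst this
                exact absurd hpar (by decide)
            subst he0
            have hdg : d g = 3 := by omega
            exact caseKEX h (d g) hd3 hmin (Or.inr ⟨hdg, rfl, rfl⟩) (by rw [hdg]; decide) g rfl
          · exact caseP3V h (d g) hd3 hmin hn3 hn7 hpar g rfl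
    · -- w even
      by_cases h0 : ∃ g, d g = 0
      · obtain ⟨g, hg⟩ := h0
        exact caseP2R h (by omega) hpar g hg
      push Not at h0
      have hne : (Finset.univ : Finset S).Nonempty := by
        rw [← Finset.card_pos, Finset.card_univ, h.card]
        omega
      obtain ⟨g, -, hg⟩ := Finset.exists_min_image Finset.univ d hne
      have hmin : ∀ b, d g ≤ d b := fun b => hg b (Finset.mem_univ b)
      have hg0 := h0 g
      rcases Nat.lt_or_ge (d g) 2 with hd2 | hd2
      · have hg1 : d g = 1 := by omega
        exact caseZ1 h hn4 hpar (fun b => by have := hmin b; omega) g hg1
      rcases Nat.lt_or_ge (d g) 3 with hd3 | hd3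
      · have hg2 : d g = 2 := by omega
        have h2 : ∀ b, 2 ≤ d b := fun b => by have := hmin b; omega
        rcases Nat.lt_or_ge n 7 with hn7 | hn7
        · exfalso
          interval_cases n
          · have h5 := tot_four_regular h h2
            have : e = 1 := by
              rcases Nat.lt_or_ge e 1 with h3 | h3
              · have : e = 0 := by omega
                subst this
                exact absurd hpar (by decide)
              · omega
            subst this
            omega
          · have : e = 0 := by
              rcases Nat.lt_or_ge e 1 with h3 | h3
              · omega
              · have : e = 1 := by omega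
                subst this
                exact absurd hpar (by decide)
            subst this
            omega
          · have : e = 1 := by
              rcases Nat.lt_or_ge e 1 with h3 | h3
              · have : e = 0 := by omega
                subst this
                exact absurd hpar (by decide)
              · omega
            subst this
            omega
        · exact caseK2 h hn7 hpar h2 g hg2
      · rcases Nat.lt_or_ge (3 * d g) n with hn3 | hn3
        · rcases Nat.even_or_odd (n + 1 + e + d g) with hp2 | hp2
          · exact caseKEX h (d g) hd3 hmin (Or.inl (by omega)) hp2 g rfl
          · exact caseZEX h (d g) hd3 hmin (by omega) hp2 g rfl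
        · exact caseP2V h (d g) hd3 hmin hn3 hpar g rfl

end MQ94
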