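import Mathlib
import Pool.Agent.OddGr75.Round

/-!
# Module MQ-ROUND (MP_aaabe1_al, helper94): rounding of nonnegative matrices

**round_exact.** `q : X → Y → ℚ` with entries in `[0,1]`, row sums `ρ i` and column sums `γ j`
natural numbers. Then there is a 0/1 matrix with the same row and column sums which is `0` where
`q = 0` and `1` where `q = 1`.

Proof. `OddGr75.frac_hall` (in `Pool/Agent/OddGr75/Round.lean`, import it): a nonnegative rational
matrix all of whose row and column sums are `1` has a bijection `f` with positive entries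
`M a (f a)`. Copy the proof of `OddGr75.mat_round` (same file) with the ports
`L' = (X × Y) ⊕ (Σ i, Fin (ρ i))`, `R' = (X × Y) ⊕ (Σ j, Fin (γ j))`,
`M (inl (i,j)) (inl (i,j)) = 1 - q i j`, `M (inl (i,j)) (inr (j,p)) = q i j / γ j`,
`M (inr (i,p)) (inl (i,j)) = q i j / ρ i`, all other entries `0` (if `γ j = 0` the whole column
vanishes, so the row sums are still `1`). `x i j = 1` iff `f (inl (i,j)) ≠ inl (i,j)`.

**round_gen.** For every nonnegative rational matrix `x` there is a matrix `P` of natural numbers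
such that all entries, all row sums, all column sums and the total of `P` differ from those of `x`
by less than `1`.

Proof. Put `y i j = x i j - ⌊x i j⌋ ∈ [0,1)`, `ρ' i = ∑_j y i j`, `γ' j = ∑_i y i j`,
`T = ∑ y`. Extend `y` to `Option X × Option Y`: `y i none = ⌈ρ' i⌉ - ρ' i`,
`y none j = ⌈γ' j⌉ - γ' j`, `y none none = T - ⌊T⌋`. Row `i`: sum `⌈ρ' i⌉`; column `j`: sum
`⌈γ' j⌉`; row `none`: `∑_j ⌈γ' j⌉ - T + T - ⌊T⌋ = ∑_j ⌈γ' j⌉ - ⌊T⌋`, an integer, nonnegative as a
sum of nonnegative numbers; column `none` similarly `∑_i ⌈ρ' i⌉ - ⌊T⌋`. By `round_exact` there is a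
0/1 matrix `z` on `Option X × Option Y` with the same row and column sums and `z = 0` where
`y = 0`. Let `P i j = ⌊x i j⌋₊ + z i j`. Entries: if `y i j = 0` then `z i j = 0`; otherwise
`0 < y i j < 1` and `z ∈ {0,1}`: `|z - y| < 1`. Row `i`: `∑_j z i j = ⌈ρ' i⌉ - z i none` and
`∑_j y i j = ⌈ρ' i⌉ - y i none`; `|z i none - y i none| < 1` as before. Columns the same.
Total: `∑_i ∑_j z i j = ∑_i (⌈ρ' i⌉ - z i none)`, and column `none` gives
`∑_i z i none = ∑_i ⌈ρ' i⌉ - ⌊T⌋ - z none none`, so the total is `⌊T⌋ + z none none`, and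
`T = ⌊T⌋ + y none none`.
-/

set_option autoImplicit false

namespace MQ94

namespace RoundAux

/-- the matrix with ports -/
def portMat {X Y : Type} [DecidableEq X] [DecidableEq Y] (q : X → Y → ℚ) (ρ : X → ℕ) (γ : Y → ℕ) :
    (X × Y) ⊕ (Σ i, Fin (ρ i)) → (X × Y) ⊕ (Σ j, Fin (γ j)) → ℚ
  | Sum.inl (i, j), Sum.inl (i', j') => if (i, j) = (i', j') then 1 - q i j else 0
  | Sum.inl (i, j), Sum.inr ⟨j', _⟩ => if j = j' then q i j' / γ j' else 0
  | Sum.inr ⟨i, _⟩, Sum.inl (i', j') => if i = i' then q i j' / ρ i else 0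
  | Sum.inr _, Sum.inr _ => 0

end RoundAux

open RoundAux in
theorem round_exact {X Y : Type} [Fintype X] [Fintype Y] [DecidableEq X] [DecidableEq Y]
    (q : X → Y → ℚ) (h0 : ∀ i j, 0 ≤ q i j) (h1 : ∀ i j, q i j ≤ 1)
    (ρ : X → ℕ) (γ : Y → ℕ) (hr : ∀ i, ∑ j, q i j = ρ i) (hc : ∀ j, ∑ i, q i j = γ j) :
    ∃ x : X → Y → ℕ, (∀ i j, x i j ≤ 1) ∧ (∀ i, ∑ j, x i j = ρ i) ∧ (∀ j, ∑ i, x i j = γ j) ∧
      (∀ i j, q i j = 0 → x i j = 0) ∧ (∀ i j, q i j = 1 → x i j = 1) := by
  have hγ0 : ∀ i j, γ j = 0 → q i j = 0 := by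
    intro i j h
    have h2 := hc j
    rw [h, Nat.cast_zero, Finset.sum_eq_zero_iff_of_nonneg fun i _ => h0 i j] at h2
    exact h2 i (Finset.mem_univ _)
  have hρ0 : ∀ i j, ρ i = 0 → q i j = 0 := by
    intro i j h
    have h2 := hr i
    rw [h, Nat.cast_zero, Finset.sum_eq_zero_iff_of_nonneg fun j _ => h0 i j] at h2
    exact h2 j (Finset.mem_univ _)
  obtain ⟨f, hf⟩ := OddGr75.frac_hall (portMat q ρ γ)
    (by
      rintro (⟨i, j⟩ | ⟨i, p⟩) (⟨i', j'⟩ | ⟨j', p'⟩)
      · simp only [portMat]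
        split_ifs
        · exact sub_nonneg.2 (h1 i j)
        · exact le_rfl
      · simp only [portMat]
        split_ifs
        · exact div_nonneg (h0 _ _) (Nat.cast_nonneg _)
        · exact le_rfl
      · simp only [portMat]
        split_ifs
        · exact div_nonneg (h0 _ _) (Nat.cast_nonneg _)
        · exact le_rfl
      · exact le_rfl)
    (by
      rintro (⟨i, j⟩ | ⟨i, p⟩)
      · rw [Fintype.sum_sum_type]
        have e1 : ∑ b : X × Y, portMat q ρ γ (Sum.inl (i, j)) (Sum.inl b) = 1 - q i j := by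
          simp only [portMat, Finset.sum_ite_eq, Finset.mem_univ, if_true]
        have e2 : ∑ b : (Σ j, Fin (γ j)), portMat q ρ γ (Sum.inl (i, j)) (Sum.inr b) = q i j := by
          rw [Fintype.sum_sigma]
          have e3 : ∀ j', ∑ p : Fin (γ j'), portMat q ρ γ (Sum.inl (i, j)) (Sum.inr ⟨j', p⟩) =
              if j = j' then q i j' else 0 := by
            intro j'
            simp only [portMat, Finset.sum_const, Finset.card_univ, Fintype.card_fin, nsmul_eq_mul]
            split_ifs
            · rcases Nat.eq_zero_or_pos (γ j') with h | h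
              · rw [hγ0 i j' h]; simp
              · have : (γ j' : ℚ) ≠ 0 := by exact_mod_cast h.ne'
                field_simp
            · simp
          simp only [e3, Finset.sum_ite_eq, Finset.mem_univ, if_true]
        rw [e1, e2]
        ring
      · rw [Fintype.sum_sum_type]
        have hi : ρ i ≠ 0 := by
          intro h
          exact (Fin.cast h p).elim0
        have hi' : (ρ i : ℚ) ≠ 0 := by exact_mod_cast hi
        have e1 : ∑ b : X × Y, portMat q ρ γ (Sum.inr ⟨i, p⟩) (Sum.inl b) = 1 := by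
          rw [Fintype.sum_prod_type]
          simp only [portMat]
          rw [Finset.sum_eq_single i]
          · simp only [if_true]
            rw [← Finset.sum_div, hr i, div_self hi']
          · intro i' _ hi'
            refine Finset.sum_eq_zero fun j' _ => ?_
            rw [if_neg (Ne.symm hi')]
          · intro h
            exact absurd (Finset.mem_univ _) h
        have e2 : ∑ b : (Σ j, Fin (γ j)), portMat q ρ γ (Sum.inr ⟨i, p⟩) (Sum.inr b) = 0 :=
          Finset.sum_eq_zero fun b _ => rfl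
        rw [e1, e2, add_zero])
    (by
      rintro (⟨i, j⟩ | ⟨j, p⟩)
      · rw [Fintype.sum_sum_type]
        have e1 : ∑ b : X × Y, portMat q ρ γ (Sum.inl b) (Sum.inl (i, j)) = 1 - q i j := by
          rw [Finset.sum_eq_single (i, j)]
          · simp only [portMat, if_true]
          · rintro ⟨i', j'⟩ _ hne
            simp only [portMat]
            rw [if_neg hne]
          · intro h
            exact absurd (Finset.mem_univ _) h
        have e2 : ∑ b : (Σ i, Fin (ρ i)), portMat q ρ γ (Sum.inr b) (Sum.inl (i, j)) = q i j := by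
          rw [Fintype.sum_sigma]
          have e3 : ∀ i', ∑ p : Fin (ρ i'), portMat q ρ γ (Sum.inr ⟨i', p⟩) (Sum.inl (i, j)) =
              if i' = i then q i' j else 0 := by
            intro i'
            simp only [portMat, Finset.sum_const, Finset.card_univ, Fintype.card_fin, nsmul_eq_mul]
            split_ifs
            · rcases Nat.eq_zero_or_pos (ρ i') with h | h
              · rw [hρ0 i' j h]; simp
              · have : (ρ i' : ℚ) ≠ 0 := by exact_mod_cast h.ne'
                field_simp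
            · simp
          simp only [e3, Finset.sum_ite_eq', Finset.mem_univ, if_true]
        rw [e1, e2]
        ring
      · rw [Fintype.sum_sum_type]
        have hj : γ j ≠ 0 := by
          intro h
          exact (Fin.cast h p).elim0
        have hj' : (γ j : ℚ) ≠ 0 := by exact_mod_cast hj
        have e1 : ∑ b : X × Y, portMat q ρ γ (Sum.inl b) (Sum.inr ⟨j, p⟩) = 1 := by
          rw [Fintype.sum_prod_type]
          simp only [portMat, Finset.sum_ite_eq', Finset.mem_univ, if_true]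
          rw [← Finset.sum_div, hc j, div_self hj']
        have e2 : ∑ b : (Σ i, Fin (ρ i)), portMat q ρ γ (Sum.inr b) (Sum.inr ⟨j, p⟩) = 0 :=
          Finset.sum_eq_zero fun b _ => rfl
        rw [e1, e2, add_zero])
  -- the possible images
  have hA : ∀ i j, f (Sum.inl (i, j)) = Sum.inl (i, j) ∨
      ∃ p, f (Sum.inl (i, j)) = Sum.inr ⟨j, p⟩ := by
    intro i j
    have h := hf (Sum.inl (i, j))
    rcases hfe : f (Sum.inl (i, j)) with ⟨i', j'⟩ | ⟨j', p⟩
    · rw [hfe] at h
      simp only [portMat] at h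
      split_ifs at h with h2
      · left
        rw [h2]
      · exact absurd h (lt_irrefl _)
    · rw [hfe] at h
      simp only [portMat] at h
      split_ifs at h with h2
      · right
        subst h2
        exact ⟨p, rfl⟩
      · exact absurd h (lt_irrefl _)
  have hB : ∀ i p, ∃ j, f (Sum.inr ⟨i, p⟩) = Sum.inl (i, j) := by
    intro i p
    have h := hf (Sum.inr ⟨i, p⟩)
    rcases hfe : f (Sum.inr ⟨i, p⟩) with ⟨i', j'⟩ | ⟨j', p⟩
    · rw [hfe] at h
      simp only [portMat] at h
      split_ifs at h with h2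
      · exact ⟨j', by rw [h2]⟩
      · exact absurd h (lt_irrefl _)
    · rw [hfe] at h
      exact absurd h (lt_irrefl _)
  have hC : ∀ j p, ∃ i, f (Sum.inl (i, j)) = Sum.inr ⟨j, p⟩ := by
    intro j p
    have h := hf (f.symm (Sum.inr ⟨j, p⟩))
    have h' := f.apply_symm_apply (Sum.inr ⟨j, p⟩)
    rcases hfe : f.symm (Sum.inr ⟨j, p⟩) with ⟨i', j'⟩ | ⟨i', p'⟩
    · rw [hfe] at h' h
      rw [h'] at h
      simp only [portMat] at h
      split_ifs at h with h2
      · exact ⟨i', by rw [← h', h2]⟩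
      · exact absurd h (lt_irrefl _)
    · rw [hfe] at h' h
      rw [h'] at h
      exact absurd h (lt_irrefl _)
  choose g hg using hB
  choose k hk using hC
  have hsum : ∀ {α : Type} [Fintype α] (P : α → Prop) [DecidablePred P],
      ∑ a, (if P a then 0 else 1) = (Finset.univ.filter fun a => ¬ P a).card := by
    intro α _ P _
    rw [Finset.card_filter]
    exact Finset.sum_congr rfl fun a _ => by by_cases h : P a <;> simp [h]
  refine ⟨fun i j => if f (Sum.inl (i, j)) = Sum.inl (i, j) then 0 else 1, ?_, ?_, ?_, ?_, ?_⟩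
  · intro i j
    dsimp only
    split_ifs <;> omega
  · intro i
    rw [hsum]
    have e : (Finset.univ.filter fun j => ¬ f (Sum.inl (i, j)) = Sum.inl (i, j)) =
        Finset.univ.image (g i) := by
      ext j
      rw [Finset.mem_filter, Finset.mem_image]
      constructor
      · rintro ⟨_, hne⟩
        have h := hf (f.symm (Sum.inl (i, j)))
        have h' := f.apply_symm_apply (Sum.inl (i, j))
        rcases hfe : f.symm (Sum.inl (i, j)) with ⟨i', j'⟩ | ⟨i', p'⟩
        · rw [hfe] at h' h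
          rw [h'] at h
          simp only [portMat] at h
          split_ifs at h with h2
          · rw [h2] at h'
            exact absurd h' hne
          · exact absurd h (lt_irrefl _)
        · rw [hfe] at h' h
          rw [h'] at h
          simp only [portMat] at h
          split_ifs at h with h2
          · subst h2
            refine ⟨p', Finset.mem_univ _, ?_⟩
            have h3 := hg i' p'
            rw [h'] at h3
            have h4 := Sum.inl.inj h3
            exact (congrArg Prod.snd h4).symm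
          · exact absurd h (lt_irrefl _)
      · rintro ⟨p, _, hp⟩
        refine ⟨Finset.mem_univ _, fun h => ?_⟩
        have h3 := hg i p
        rw [hp, ← h] at h3
        exact Sum.inr_ne_inl (f.injective h3)
    rw [e, Finset.card_image_of_injective, Finset.card_univ, Fintype.card_fin]
    intro p p' hpp
    have h3 := hg i p
    have h4 := hg i p'
    rw [hpp, ← h4] at h3
    have h5 := Sum.inr.inj (f.injective h3)
    simpa using h5
  · intro j
    rw [hsum]
    have e : (Finset.univ.filter fun i => ¬ f (Sum.inl (i, j)) = Sum.inl (i, j)) =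
        Finset.univ.image (k j) := by
      ext i
      rw [Finset.mem_filter, Finset.mem_image]
      constructor
      · rintro ⟨_, hne⟩
        rcases hA i j with h | ⟨p, h⟩
        · exact absurd h hne
        · refine ⟨p, Finset.mem_univ _, ?_⟩
          have h3 := hk j p
          rw [← h] at h3
          have h4 := Sum.inl.inj (f.injective h3)
          exact congrArg Prod.fst h4
      · rintro ⟨p, _, hp⟩
        refine ⟨Finset.mem_univ _, fun h => ?_⟩
        have h3 := hk j p
        rw [hp, h] at h3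
        exact Sum.inl_ne_inr h3
    rw [e, Finset.card_image_of_injective, Finset.card_univ, Fintype.card_fin]
    intro p p' hpp
    have h3 := hk j p
    have h4 := hk j p'
    rw [hpp, h4] at h3
    have h5 := Sum.inr.inj h3
    symm
    simpa using h5
  · intro i j hq
    dsimp only
    rcases hA i j with h | ⟨p, h⟩
    · rw [if_pos h]
    · have h2 := hf (Sum.inl (i, j))
      rw [h] at h2
      simp only [portMat, hq, zero_div, if_true] at h2
      exact absurd h2 (lt_irrefl _)
  · intro i j hq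
    dsimp only
    rw [if_neg]
    intro h
    have h2 := hf (Sum.inl (i, j))
    rw [h] at h2
    simp only [portMat, hq, sub_self, if_true] at h2
    exact absurd h2 (lt_irrefl _)

namespace RoundAux

/-- the extended matrix of fractional parts -/
def ext {X Y : Type} [Fintype X] [Fintype Y] (y : X → Y → ℚ) : Option X → Option Y → ℚ
  | some i, some j => y i j
  | some i, none => (⌈∑ j, y i j⌉₊ : ℚ) - ∑ j, y i j
  | none, some j => (⌈∑ i, y i j⌉₊ : ℚ) - ∑ i, y i j
  | none, none => (∑ i, ∑ j, y i j) - (⌊∑ i, ∑ j, y i j⌋₊ : ℚ)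

theorem near {z : ℕ} {q : ℚ} (hz : z ≤ 1) (h0 : 0 ≤ q) (h1 : q < 1) (h : q = 0 → z = 0) :
    |(z : ℚ) - q| < 1 := by
  rw [abs_lt]
  rcases Nat.eq_zero_or_pos z with hz0 | hz0
  · rw [hz0]; push_cast; constructor <;> linarith
  · have hz1 : z = 1 := by omega
    have hq : q ≠ 0 := fun h' => by have := h h'; omega
    have hq' : 0 < q := lt_of_le_of_ne h0 (Ne.symm hq)
    rw [hz1]; push_cast; constructor <;> linarith

end RoundAux

open RoundAux in
theorem round_gen {X Y : Type} [Fintype X] [Fintype Y] [DecidableEq X] [DecidableEq Y]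
    (x : X → Y → ℚ) (h0 : ∀ i j, 0 ≤ x i j) :
    ∃ P : X → Y → ℕ, (∀ i j, |(P i j : ℚ) - x i j| < 1) ∧
      (∀ i, |((∑ j, P i j : ℕ) : ℚ) - ∑ j, x i j| < 1) ∧
      (∀ j, |((∑ i, P i j : ℕ) : ℚ) - ∑ i, x i j| < 1) ∧
      |((∑ i, ∑ j, P i j : ℕ) : ℚ) - ∑ i, ∑ j, x i j| < 1 := by
  obtain ⟨y, hy⟩ : ∃ y : X → Y → ℚ, ∀ i j, y i j = x i j - (⌊x i j⌋₊ : ℚ) := ⟨_, fun _ _ => rfl⟩
  have hy0 : ∀ i j, 0 ≤ y i j := by
    intro i j
    rw [hy]
    exact sub_nonneg.2 (Nat.floor_le (h0 i j))
  have hy1 : ∀ i j, y i j < 1 := by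
    intro i j
    rw [hy]
    have := Nat.lt_floor_add_one (x i j)
    linarith
  have hS0 : ∀ i, 0 ≤ ∑ j, y i j := fun i => Finset.sum_nonneg fun j _ => hy0 i j
  have hS0' : ∀ j, 0 ≤ ∑ i, y i j := fun j => Finset.sum_nonneg fun i _ => hy0 i j
  have hT0 : 0 ≤ ∑ i, ∑ j, y i j := Finset.sum_nonneg fun i _ => hS0 i
  have hE0 : ∀ a b, 0 ≤ ext y a b := by
    rintro (_ | i) (_ | j)
    · exact sub_nonneg.2 (Nat.floor_le hT0)
    · exact sub_nonneg.2 (Nat.le_ceil _)
    · exact sub_nonneg.2 (Nat.le_ceil _)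
    · exact hy0 i j
  have hE1 : ∀ a b, ext y a b < 1 := by
    rintro (_ | i) (_ | j)
    · have := Nat.lt_floor_add_one (∑ i, ∑ j, y i j)
      change (∑ i, ∑ j, y i j) - (⌊∑ i, ∑ j, y i j⌋₊ : ℚ) < 1
      linarith
    · have := Nat.ceil_lt_add_one (hS0' j)
      change (⌈∑ i, y i j⌉₊ : ℚ) - ∑ i, y i j < 1
      linarith
    · have := Nat.ceil_lt_add_one (hS0 i)
      change (⌈∑ j, y i j⌉₊ : ℚ) - ∑ j, y i j < 1
      linarith
    · exact hy1 i j
  have hle1 : ⌊∑ i, ∑ j, y i j⌋₊ ≤ ∑ j, ⌈∑ i, y i j⌉₊ := by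
    have : ((⌊∑ i, ∑ j, y i j⌋₊ : ℕ) : ℚ) ≤ ((∑ j, ⌈∑ i, y i j⌉₊ : ℕ) : ℚ) := by
      refine (Nat.floor_le hT0).trans ?_
      rw [Finset.sum_comm]
      push_cast
      exact Finset.sum_le_sum fun j _ => Nat.le_ceil _
    exact_mod_cast this
  have hle2 : ⌊∑ i, ∑ j, y i j⌋₊ ≤ ∑ i, ⌈∑ j, y i j⌉₊ := by
    have : ((⌊∑ i, ∑ j, y i j⌋₊ : ℕ) : ℚ) ≤ ((∑ i, ⌈∑ j, y i j⌉₊ : ℕ) : ℚ) := by
      refine (Nat.floor_le hT0).trans ?_
      push_cast
      exact Finset.sum_le_sum fun j _ => Nat.le_ceil _
    exact_mod_cast this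
  obtain ⟨z, z1, z2, z3, z4, -⟩ := round_exact (ext y) hE0 (fun a b => (hE1 a b).le)
    (fun a => match a with
      | some i => ⌈∑ j, y i j⌉₊
      | none => ∑ j, ⌈∑ i, y i j⌉₊ - ⌊∑ i, ∑ j, y i j⌋₊)
    (fun b => match b with
      | some j => ⌈∑ i, y i j⌉₊
      | none => ∑ i, ⌈∑ j, y i j⌉₊ - ⌊∑ i, ∑ j, y i j⌋₊)
    (by
      rintro (_ | i)
      · rw [Fintype.sum_option]
        change (∑ i, ∑ j, y i j) - (⌊∑ i, ∑ j, y i j⌋₊ : ℚ) +
          ∑ j, ((⌈∑ i, y i j⌉₊ : ℚ) - ∑ i, y i j) = _
        rw [Finset.sum_sub_distrib, Nat.cast_sub hle1, Finset.sum_comm]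
        push_cast
        ring
      · rw [Fintype.sum_option]
        change (⌈∑ j, y i j⌉₊ : ℚ) - ∑ j, y i j + ∑ j, y i j = _
        ring)
    (by
      rintro (_ | j)
      · rw [Fintype.sum_option]
        change (∑ i, ∑ j, y i j) - (⌊∑ i, ∑ j, y i j⌋₊ : ℚ) +
          ∑ i, ((⌈∑ j, y i j⌉₊ : ℚ) - ∑ j, y i j) = _
        rw [Finset.sum_sub_distrib, Nat.cast_sub hle2]
        push_cast
        ring
      · rw [Fintype.sum_option]
        change (⌈∑ i, y i j⌉₊ : ℚ) - ∑ i, y i j + ∑ i, y i j = _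
        ring)
  have hnear : ∀ a b, |(z a b : ℚ) - ext y a b| < 1 := fun a b =>
    near (z1 a b) (hE0 a b) (hE1 a b) (z4 a b)
  -- sums
  have hrow : ∀ i, ∑ j, (z (some i) (some j) : ℚ) - ∑ j, y i j =
      - ((z (some i) none : ℚ) - ext y (some i) none) := by
    intro i
    have h := z2 (some i)
    rw [Fintype.sum_option] at h
    have h' : ((z (some i) none : ℕ) : ℚ) + ∑ j, (z (some i) (some j) : ℚ) =
        (⌈∑ j, y i j⌉₊ : ℚ) := by
      exact_mod_cast h
    change _ = - ((z (some i) none : ℚ) - ((⌈∑ j, y i j⌉₊ : ℚ) - ∑ j, y i j))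
    linarith
  have hcol : ∀ j, ∑ i, (z (some i) (some j) : ℚ) - ∑ i, y i j =
      - ((z none (some j) : ℚ) - ext y none (some j)) := by
    intro j
    have h := z3 (some j)
    rw [Fintype.sum_option] at h
    have h' : ((z none (some j) : ℕ) : ℚ) + ∑ i, (z (some i) (some j) : ℚ) =
        (⌈∑ i, y i j⌉₊ : ℚ) := by
      exact_mod_cast h
    change _ = - ((z none (some j) : ℚ) - ((⌈∑ i, y i j⌉₊ : ℚ) - ∑ i, y i j))
    linarith
  have htot : ∑ i, ∑ j, (z (some i) (some j) : ℚ) - ∑ i, ∑ j, y i j =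
      (z none none : ℚ) - ext y none none := by
    have h := z3 none
    rw [Fintype.sum_option] at h
    have h' : ((z none none : ℕ) : ℚ) + ∑ i, (z (some i) none : ℚ) =
        ∑ i, (⌈∑ j, y i j⌉₊ : ℚ) - (⌊∑ i, ∑ j, y i j⌋₊ : ℚ) := by
      have h2 : ((z none none + ∑ i, z (some i) none : ℕ) : ℚ) =
          ((∑ i, ⌈∑ j, y i j⌉₊ - ⌊∑ i, ∑ j, y i j⌋₊ : ℕ) : ℚ) := by exact_mod_cast h
      rw [Nat.cast_sub hle2] at h2
      push_cast at h2
      exact h2
    have h3 : ∑ i, (∑ j, (z (some i) (some j) : ℚ) - ∑ j, y i j) =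
        ∑ i, (- ((z (some i) none : ℚ) - ext y (some i) none)) :=
      Finset.sum_congr rfl fun i _ => hrow i
    rw [Finset.sum_sub_distrib, Finset.sum_neg_distrib, Finset.sum_sub_distrib] at h3
    have h4 : ∑ i, ext y (some i) none = ∑ i, (⌈∑ j, y i j⌉₊ : ℚ) - ∑ i, ∑ j, y i j := by
      rw [← Finset.sum_sub_distrib]
      rfl
    change _ = (z none none : ℚ) - ((∑ i, ∑ j, y i j) - (⌊∑ i, ∑ j, y i j⌋₊ : ℚ))
    rw [h3, h4]
    linarith
  refine ⟨fun i j => ⌊x i j⌋₊ + z (some i) (some j), ?_, ?_, ?_, ?_⟩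
  · intro i j
    have h := hnear (some i) (some j)
    have e : ext y (some i) (some j) = x i j - (⌊x i j⌋₊ : ℚ) := hy i j
    rw [e] at h
    push_cast
    rw [show (⌊x i j⌋₊ : ℚ) + (z (some i) (some j) : ℚ) - x i j =
      (z (some i) (some j) : ℚ) - (x i j - (⌊x i j⌋₊ : ℚ)) by ring]
    exact h
  · intro i
    have h := hnear (some i) none
    have e : ((∑ j, (⌊x i j⌋₊ + z (some i) (some j)) : ℕ) : ℚ) - ∑ j, x i j =
        - ((z (some i) none : ℚ) - ext y (some i) none) := by
      rw [← hrow i]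
      have : ∑ j, y i j = ∑ j, x i j - ∑ j, (⌊x i j⌋₊ : ℚ) := by
        rw [← Finset.sum_sub_distrib]
        exact Finset.sum_congr rfl fun j _ => hy i j
      rw [this]
      push_cast
      rw [Finset.sum_add_distrib]
      ring
    rw [e, abs_neg]
    exact h
  · intro j
    have h := hnear none (some j)
    have e : ((∑ i, (⌊x i j⌋₊ + z (some i) (some j)) : ℕ) : ℚ) - ∑ i, x i j =
        - ((z none (some j) : ℚ) - ext y none (some j)) := by
      rw [← hcol j]
      have : ∑ i, y i j = ∑ i, x i j - ∑ i, (⌊x i j⌋₊ : ℚ) := by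
        rw [← Finset.sum_sub_distrib]
        exact Finset.sum_congr rfl fun i _ => hy i j
      rw [this]
      push_cast
      rw [Finset.sum_add_distrib]
      ring
    rw [e, abs_neg]
    exact h
  · have h := hnear none none
    have e : ((∑ i, ∑ j, (⌊x i j⌋₊ + z (some i) (some j)) : ℕ) : ℚ) - ∑ i, ∑ j, x i j =
        (z none none : ℚ) - ext y none none := by
      rw [← htot]
      have : ∑ i, ∑ j, y i j = ∑ i, ∑ j, x i j - ∑ i, ∑ j, (⌊x i j⌋₊ : ℚ) := by
        rw [← Finset.sum_sub_distrib]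
        refine Finset.sum_congr rfl fun i _ => ?_
        rw [← Finset.sum_sub_distrib]
        exact Finset.sum_congr rfl fun j _ => hy i j
      rw [this]
      push_cast
      simp only [Finset.sum_add_distrib]
      ring
    rw [e]
    exact h

end MQ94
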