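import Pool.Agent.MQ94.Defs
import Pool.Agent.MQ94.Round

/-!
# Module MQ-DEC (MP_aaabe1_al, helper94): decompositions of integer matrices

All four from `round_gen` (Round.lean).

Useful: if `P` rounds `x` (`|P - x| < 1` for entries, rows, columns, total) then `P i j ≤ k` when
`x i j ≤ k` (`k` a natural number), `P i j ≥ k` when `x i j ≥ k`, the same for the sums. In
particular `P i j = 0` if `x i j = 0`, and sums of `P` equal the sums of `x` when those are
integers.

**even_half.** Round `x = G / 2`; `M = P` (`P ≤ G` because `x ≤ G` and `G` is integral), `N = G - M`.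

**kdec.** Induction on `k`: round `G / k`, the first class `P` has row sums `ρ i`, column sums
`γ j`, `P ≤ G`, and `G - P` has row sums `(k-1) ρ i` etc. (`k = 0`: `G = 0` as its row sums
vanish.)

**eqdec.** Induction on `m`. Round `F / m`: `P ≤ F`, row sums of `P` at most `1`, and equal to `1` if
the row sum of `F` is `m`, so `F - P` has row sums at most `m - 1`; the same for columns. Total: the
total `f` of `F` satisfies `f ≥ m s`, so the total of `P` is more than `s - 1`, i.e. `≥ s`; and the
total `p` of `P` satisfies `p < f / m + 1`; we need `f - p ≥ (m-1) s`: otherwise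
`p ≥ f - (m-1) s + 1`, so `f - (m-1) s < f/m`, `f (m-1)/m < (m-1) s`, `f < m s`, a contradiction
(`m ≥ 2`).

**two_classes.** (`3 ≤ r`.) `F, T, H` is a family of `r` classes on `V`: the matrix `G` on
`Option V × Option V` with `G (some b) (some c) = F b c`, `G (some b) none = T b`,
`G none (some c) = H c`, `G none none = 0` has row sums `r μ b`, `E` and column sums `r μ c`, `E`.
Extract three classes successively: round `G / r`, subtract, round `G' / (r-1)`, subtract, round
`G'' / (r-2)`. This gives `P₁, P₂, P₃` with `P₁ + P₂ + P₃ ≤ G`, row sums `μ b` and column sums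
`μ c` at the old vertices, row `none` sum = column `none` sum `= t_k` (count: the total of `P_k`
minus the sum over the old rows is the sum of row `none`; the sum of the old rows is `∑ μ`, the same
as the sum of the old columns), and `t_k ∈ {⌊E/r⌋, ⌈E/r⌉}`: if `E_k` is the remaining number and
`j` classes remain and `j ⌊E/r⌋ ≤ E_k ≤ j ⌈E/r⌉`, then the rounded number lies in
`[⌊E/r⌋, ⌈E/r⌉]` and the same inequalities hold for `E_k - t_k` and `j - 1` (use: `E_k - t_k` is
also a rounding of `(j-1) E_k / j`, which lies between `(j-1) ⌊E/r⌋` and `(j-1) ⌈E/r⌉`). Two of the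
three counts agree; add these two classes.
The conclusions `E < r * (t + 1)` and `r * t < E + r` say that `t` is `⌊E/r⌋` or `⌈E/r⌉`.
-/

set_option autoImplicit false

namespace MQ94

namespace DecAux

theorem rle {p k : ℕ} {x : ℚ} (h : |(p : ℚ) - x| < 1) (hx : x ≤ k) : p ≤ k := by
  by_contra hc
  have h1 : k + 1 ≤ p := by omega
  have h2 : ((k : ℚ) + 1) ≤ p := by exact_mod_cast h1
  have h3 := (abs_lt.1 h).2
  linarith

theorem rge {p k : ℕ} {x : ℚ} (h : |(p : ℚ) - x| < 1) (hx : (k : ℚ) ≤ x) : k ≤ p := by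
  by_contra hc
  have h1 : p + 1 ≤ k := by omega
  have h2 : ((p : ℚ) + 1) ≤ k := by exact_mod_cast h1
  have h3 := (abs_lt.1 h).1
  linarith

theorem div_le_self' (a m : ℕ) : (a : ℚ) / ((m : ℚ) + 1) ≤ a := by
  rw [div_le_iff₀ (by positivity)]
  have h1 : (0 : ℚ) ≤ a := by positivity
  have h2 : (0 : ℚ) ≤ m := by positivity
  nlinarith [mul_nonneg h1 h2]

/-- Extract one class. -/
theorem extract {X Y : Type} [Fintype X] [Fintype Y] [DecidableEq X] [DecidableEq Y] (m : ℕ)
    (G : X → Y → ℕ) :
    ∃ P : X → Y → ℕ, (∀ i j, P i j ≤ G i j) ∧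
      (∀ i, |((∑ j, P i j : ℕ) : ℚ) - ((∑ j, G i j : ℕ) : ℚ) / ((m : ℚ) + 1)| < 1) ∧
      (∀ j, |((∑ i, P i j : ℕ) : ℚ) - ((∑ i, G i j : ℕ) : ℚ) / ((m : ℚ) + 1)| < 1) ∧
      |((∑ i, ∑ j, P i j : ℕ) : ℚ) - ((∑ i, ∑ j, G i j : ℕ) : ℚ) / ((m : ℚ) + 1)| < 1 := by
  obtain ⟨P, h1, h2, h3, h4⟩ := round_gen (fun i j => (G i j : ℚ) / ((m : ℚ) + 1))
    (fun i j => by positivity)
  refine ⟨P, fun i j => rle (h1 i j) (div_le_self' _ _), ?_, ?_, ?_⟩
  · intro i
    have := h2 i
    rw [← Finset.sum_div] at this
    push_cast at this ⊢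
    exact this
  · intro j
    have := h3 j
    rw [← Finset.sum_div] at this
    push_cast at this ⊢
    exact this
  · have := h4
    simp_rw [← Finset.sum_div] at this
    push_cast at this ⊢
    exact this

theorem sum_sub_row {X Y : Type} [Fintype Y] {G P : X → Y → ℕ}
    (h : ∀ i j, P i j ≤ G i j) (i : X) :
    ∑ j, (G i j - P i j) + ∑ j, P i j = ∑ j, G i j := by
  rw [← Finset.sum_add_distrib]
  exact Finset.sum_congr rfl fun j _ => Nat.sub_add_cancel (h i j)

theorem sum_sub_tot {X Y : Type} [Fintype X] [Fintype Y] {G P : X → Y → ℕ}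
    (h : ∀ i j, P i j ≤ G i j) :
    ∑ i, ∑ j, (G i j - P i j) + ∑ i, ∑ j, P i j = ∑ i, ∑ j, G i j := by
  rw [← Finset.sum_add_distrib]
  exact Finset.sum_congr rfl fun i _ => sum_sub_row h i

end DecAux

open DecAux

theorem kdec (k : ℕ) : ∀ {X Y : Type} [Fintype X] [Fintype Y] [DecidableEq X] [DecidableEq Y]
    (G : X → Y → ℕ) (ρ : X → ℕ) (γ : Y → ℕ),
    (∀ i, ∑ j, G i j = k * ρ i) → (∀ j, ∑ i, G i j = k * γ j) →
    ∃ M : Fin k → X → Y → ℕ, (∀ i j, ∑ s, M s i j = G i j) ∧
      (∀ s i, ∑ j, M s i j = ρ i) ∧ (∀ s j, ∑ i, M s i j = γ j) := by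
  induction k with
  | zero =>
    intro X Y _ _ _ _ G ρ γ hr hc
    refine ⟨fun _ _ _ => 0, ?_, fun s => s.elim0, fun s => s.elim0⟩
    intro i j
    have h1 := hr i
    rw [Nat.zero_mul] at h1
    have h2 := Finset.sum_eq_zero_iff.1 h1 j (Finset.mem_univ j)
    rw [h2]
    simp
  | succ k ih =>
    intro X Y _ _ _ _ G ρ γ hr hc
    obtain ⟨P, h1, h2, h3, -⟩ := extract k G
    have e1 : ∀ i, ∑ j, P i j = ρ i := by
      intro i
      have hh := h2 i
      have hx : ((∑ j, G i j : ℕ) : ℚ) / ((k : ℚ) + 1) = ρ i := by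
        rw [hr i]
        push_cast
        field_simp
      rw [hx] at hh
      exact le_antisymm (rle hh le_rfl) (rge hh le_rfl)
    have e2 : ∀ j, ∑ i, P i j = γ j := by
      intro j
      have hh := h3 j
      have hx : ((∑ i, G i j : ℕ) : ℚ) / ((k : ℚ) + 1) = γ j := by
        rw [hc j]
        push_cast
        field_simp
      rw [hx] at hh
      exact le_antisymm (rle hh le_rfl) (rge hh le_rfl)
    obtain ⟨M, m1, m2, m3⟩ := ih (fun i j => G i j - P i j) ρ γ
      (by
        intro i
        have h4 := sum_sub_row h1 i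
        rw [e1 i, hr i, Nat.succ_mul] at h4
        omega)
      (by
        intro j
        have h4 := sum_sub_row (G := fun j i => G i j) (P := fun j i => P i j) (fun j i => h1 i j) j
        rw [e2 j, hc j, Nat.succ_mul] at h4
        omega)
    refine ⟨Fin.cons P M, ?_, ?_, ?_⟩
    · intro i j
      rw [Fin.sum_univ_succ]
      simp only [Fin.cons_zero, Fin.cons_succ]
      rw [m1 i j]
      have := h1 i j
      omega
    · intro s
      refine Fin.cases ?_ ?_ s
      · intro i
        simpa using e1 i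
      · intro s' i
        simpa using m2 s' i
    · intro s
      refine Fin.cases ?_ ?_ s
      · intro j
        simpa using e2 j
      · intro s' j
        simpa using m3 s' j

theorem even_half {X Y : Type} [Fintype X] [Fintype Y] [DecidableEq X] [DecidableEq Y]
    (G : X → Y → ℕ) (ρ : X → ℕ) (γ : Y → ℕ)
    (hr : ∀ i, ∑ j, G i j = 2 * ρ i) (hc : ∀ j, ∑ i, G i j = 2 * γ j) :
    ∃ M N : X → Y → ℕ, (∀ i j, M i j + N i j = G i j) ∧
      (∀ i, ∑ j, M i j = ρ i) ∧ (∀ i, ∑ j, N i j = ρ i) ∧
      (∀ j, ∑ i, M i j = γ j) ∧ (∀ j, ∑ i, N i j = γ j) := by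
  obtain ⟨M, h1, h2, h3⟩ := kdec 2 G ρ γ hr hc
  refine ⟨M 0, M 1, ?_, h2 0, h2 1, h3 0, h3 1⟩
  intro i j
  rw [← h1 i j, Fin.sum_univ_two]

theorem eqdec (m : ℕ) : ∀ {X Y : Type} [Fintype X] [Fintype Y] [DecidableEq X] [DecidableEq Y]
    (F : X → Y → ℕ) (s : ℕ), 1 ≤ m →
    (∀ i, ∑ j, F i j ≤ m) → (∀ j, ∑ i, F i j ≤ m) → m * s ≤ ∑ i, ∑ j, F i j →
    ∃ M : Fin m → X → Y → ℕ, (∀ i j, ∑ t, M t i j = F i j) ∧
      (∀ t i, ∑ j, M t i j ≤ 1) ∧ (∀ t j, ∑ i, M t i j ≤ 1) ∧
      (∀ t, s ≤ ∑ i, ∑ j, M t i j) := by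
  induction m with
  | zero =>
    intro X Y _ _ _ _ F s h1
    omega
  | succ m ih =>
    intro X Y _ _ _ _ F s _ hr hc ht
    rcases Nat.eq_zero_or_pos m with hm0 | hm
    · subst hm0
      refine ⟨fun _ => F, ?_, ?_, ?_, ?_⟩
      · intro i j
        simp
      · intro t i
        simpa using hr i
      · intro t j
        simpa using hc j
      · intro t
        simpa using ht
    · obtain ⟨P, h1, h2, h3, h4⟩ := extract m F
      have hm1 : (0 : ℚ) < (m : ℚ) + 1 := by positivity
      have key : ∀ a p : ℕ, a ≤ m + 1 → |(p : ℚ) - (a : ℚ) / ((m : ℚ) + 1)| < 1 →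
          p ≤ 1 ∧ a ≤ m + p := by
        intro a p ha hp
        have hx : (a : ℚ) / ((m : ℚ) + 1) ≤ (1 : ℕ) := by
          rw [div_le_iff₀ hm1]
          push_cast
          rw [one_mul]
          exact_mod_cast ha
        refine ⟨rle hp hx, ?_⟩
        rcases Nat.lt_or_ge a (m + 1) with h | h
        · omega
        · have hx2 : ((1 : ℕ) : ℚ) ≤ (a : ℚ) / ((m : ℚ) + 1) := by
            rw [le_div_iff₀ hm1]
            push_cast
            rw [one_mul]
            exact_mod_cast h
          have := rge hp hx2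
          omega
      have e1 : ∀ i, ∑ j, P i j ≤ 1 ∧ ∑ j, F i j ≤ m + ∑ j, P i j := fun i =>
        key _ _ (hr i) (h2 i)
      have e2 : ∀ j, ∑ i, P i j ≤ 1 ∧ ∑ i, F i j ≤ m + ∑ i, P i j := fun j =>
        key _ _ (hc j) (h3 j)
      have e3 : s ≤ ∑ i, ∑ j, P i j := by
        apply rge h4
        rw [le_div_iff₀ hm1]
        have : (((m + 1) * s : ℕ) : ℚ) ≤ ((∑ i, ∑ j, F i j : ℕ) : ℚ) := by exact_mod_cast ht
        push_cast at this ⊢
        linarith
      have e4 : m * s ≤ ∑ i, ∑ j, (F i j - P i j) := by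
        have h5 := sum_sub_tot h1
        set f := ∑ i, ∑ j, F i j with hf
        set p := ∑ i, ∑ j, P i j with hp
        have h6 : p + m * s ≤ f := by
          by_contra hcon
          have h7 : f + 1 ≤ p + m * s := by omega
          have h8 : (f : ℚ) + 1 ≤ p + m * s := by exact_mod_cast h7
          have h9 := (abs_lt.1 h4).2
          have h10 : (((m + 1) * s : ℕ) : ℚ) ≤ (f : ℚ) := by exact_mod_cast ht
          push_cast at h10
          have h11 : (f : ℚ) / ((m : ℚ) + 1) * ((m : ℚ) + 1) = f := by field_simp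
          set y := (f : ℚ) / ((m : ℚ) + 1) with hy
          have h12 : (0 : ℚ) < m := by exact_mod_cast hm
          -- f - m s < y, (m+1) y = f, f >= (m+1) s
          have h13 : y < s := by
            have h14 : y * m < s * m := by nlinarith
            exact lt_of_mul_lt_mul_right h14 h12.le
          nlinarith
        omega
      obtain ⟨M, m1, m2, m3, m4⟩ := ih (fun i j => F i j - P i j) s hm
        (by
          intro i
          have h5 := sum_sub_row h1 i
          have h6 := (e1 i).2
          omega)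
        (by
          intro j
          have h5 := sum_sub_row (G := fun j i => F i j) (P := fun j i => P i j) (fun j i => h1 i j) j
          have h6 := (e2 j).2
          omega)
        e4
      refine ⟨Fin.cons P M, ?_, ?_, ?_, ?_⟩
      · intro i j
        rw [Fin.sum_univ_succ]
        simp only [Fin.cons_zero, Fin.cons_succ]
        rw [m1 i j]
        have := h1 i j
        omega
      · intro s
        refine Fin.cases ?_ ?_ s
        · intro i
          simpa using (e1 i).1
        · intro s' i
          simpa using m2 s' i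
      · intro s
        refine Fin.cases ?_ ?_ s
        · intro j
          simpa using (e2 j).1
        · intro s' j
          simpa using m3 s' j
      · intro t
        refine Fin.cases ?_ ?_ t
        · simpa using e3
        · intro t'
          simpa using m4 t'

namespace DecAux

/-- The matrix of a family of classes on `Option V`. -/
def optMat {V : Type} (F : V → V → ℕ) (T H : V → ℕ) : Option V → Option V → ℕ
  | none, none => 0
  | none, some c => H c
  | some b, none => T b
  | some b, some c => F b c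

theorem one_class (m : ℕ) {V : Type} [Fintype V] [DecidableEq V]
    (F : V → V → ℕ) (T H μ : V → ℕ) (E q c : ℕ)
    (hrow : ∀ b, fo F b + T b = (m + 1) * μ b) (hcol : ∀ c, fi F c + H c = (m + 1) * μ c)
    (hT : ∑ b, T b = E) (hH : ∑ b, H b = E) (hq : (m + 1) * q ≤ E) (hc : E ≤ (m + 1) * c) :
    ∃ (F' : V → V → ℕ) (T' H' : V → ℕ) (t : ℕ),
      (∀ b c, F' b c ≤ F b c) ∧ (∀ b, T' b ≤ T b) ∧ (∀ b, H' b ≤ H b) ∧
      (∀ b, fo F' b + T' b = μ b) ∧ (∀ c, fi F' c + H' c = μ c) ∧
      ∑ b, T' b = t ∧ ∑ b, H' b = t ∧ q ≤ t ∧ t ≤ c ∧ t + m * q ≤ E ∧ E ≤ t + m * c := by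
  obtain ⟨P, h1, h2, h3, -⟩ := extract m (optMat F T H)
  have hm1 : (0 : ℚ) < (m : ℚ) + 1 := by positivity
  have hP0 : P none none = 0 := Nat.le_zero.1 (h1 none none)
  have e1 : ∀ b, fo (fun x y => P (some x) (some y)) b + P (some b) none = μ b := by
    intro b
    have hh := h2 (some b)
    have hx : ((∑ j, optMat F T H (some b) j : ℕ) : ℚ) / ((m : ℚ) + 1) = μ b := by
      have hy : ∑ j, optMat F T H (some b) j = (m + 1) * μ b := by
        rw [← hrow b, Fintype.sum_option]
        simp only [optMat, fo]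
        ring
      rw [hy]
      push_cast
      field_simp
    rw [hx, Fintype.sum_option] at hh
    have := le_antisymm (rle hh le_rfl) (rge hh le_rfl)
    simp only [fo]
    omega
  have e2 : ∀ c, fi (fun x y => P (some x) (some y)) c + P none (some c) = μ c := by
    intro b
    have hh := h3 (some b)
    have hx : ((∑ i, optMat F T H i (some b) : ℕ) : ℚ) / ((m : ℚ) + 1) = μ b := by
      have hy : ∑ i, optMat F T H i (some b) = (m + 1) * μ b := by
        rw [← hcol b, Fintype.sum_option]
        simp only [optMat, fi]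
        ring
      rw [hy]
      push_cast
      field_simp
    rw [hx, Fintype.sum_option] at hh
    have := le_antisymm (rle hh le_rfl) (rge hh le_rfl)
    simp only [fi]
    omega
  have e3 : ∑ b, P (some b) none = ∑ b, P none (some b) := by
    have f1 : ∑ b, (fo (fun x y => P (some x) (some y)) b + P (some b) none) = ∑ b, μ b :=
      Finset.sum_congr rfl fun b _ => e1 b
    have f2 : ∑ b, (fi (fun x y => P (some x) (some y)) b + P none (some b)) = ∑ b, μ b :=
      Finset.sum_congr rfl fun b _ => e2 b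
    rw [Finset.sum_add_distrib] at f1 f2
    have f3 := tot_eq_sum_fo (fun x y => P (some x) (some y))
    have f4 := tot_eq_sum_fi (fun x y => P (some x) (some y))
    omega
  have hh := h2 none
  have hx : ((∑ j, optMat F T H none j : ℕ) : ℚ) = E := by
    rw [Fintype.sum_option]
    simp only [optMat]
    rw [hH, zero_add]
  rw [hx, Fintype.sum_option, hP0, zero_add] at hh
  set t := ∑ b, P none (some b) with ht
  refine ⟨fun x y => P (some x) (some y), fun b => P (some b) none, fun b => P none (some b), t,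
    fun b c => h1 (some b) (some c), fun b => h1 (some b) none, fun b => h1 none (some b),
    e1, e2, e3, rfl, ?_, ?_, ?_, ?_⟩
  · apply rge hh
    rw [le_div_iff₀ hm1]
    have : (((m + 1) * q : ℕ) : ℚ) ≤ (E : ℚ) := by exact_mod_cast hq
    push_cast at this
    linarith
  · apply rle hh
    rw [div_le_iff₀ hm1]
    have : (E : ℚ) ≤ (((m + 1) * c : ℕ) : ℚ) := by exact_mod_cast hc
    push_cast at this
    linarith
  · by_contra hcon
    have h7 : E + 1 ≤ t + m * q := by omega
    have h8 : (E : ℚ) + 1 ≤ t + m * q := by exact_mod_cast h7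
    have h9 := (abs_lt.1 hh).2
    have h10 : (((m + 1) * q : ℕ) : ℚ) ≤ (E : ℚ) := by exact_mod_cast hq
    push_cast at h10
    have h11 : (E : ℚ) / ((m : ℚ) + 1) * ((m : ℚ) + 1) = E := by field_simp
    set y := (E : ℚ) / ((m : ℚ) + 1) with hy
    have h13 : (q : ℚ) ≤ y := by
      by_contra h14
      push Not at h14
      nlinarith
    have h12 : (0 : ℚ) ≤ m := by positivity
    nlinarith [mul_le_mul_of_nonneg_left h13 h12]
  · by_contra hcon
    have h7 : t + m * c + 1 ≤ E := by omega
    have h8 : (t : ℚ) + m * c + 1 ≤ E := by exact_mod_cast h7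
    have h9 := (abs_lt.1 hh).1
    have h10 : (E : ℚ) ≤ (((m + 1) * c : ℕ) : ℚ) := by exact_mod_cast hc
    push_cast at h10
    have h11 : (E : ℚ) / ((m : ℚ) + 1) * ((m : ℚ) + 1) = E := by field_simp
    set y := (E : ℚ) / ((m : ℚ) + 1) with hy
    have h13 : y ≤ (c : ℚ) := by
      by_contra h14
      push Not at h14
      nlinarith
    have h12 : (0 : ℚ) ≤ m := by positivity
    nlinarith [mul_le_mul_of_nonneg_left h13 h12]

theorem fo_sub {V : Type} [Fintype V] {F P : V → V → ℕ} (h : ∀ b c, P b c ≤ F b c) (b : V) :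
    fo (fun x y => F x y - P x y) b + fo P b = fo F b :=
  sum_sub_row h b

theorem fi_sub {V : Type} [Fintype V] {F P : V → V → ℕ} (h : ∀ b c, P b c ≤ F b c) (c : V) :
    fi (fun x y => F x y - P x y) c + fi P c = fi F c :=
  sum_sub_row (G := fun j i => F i j) (P := fun j i => P i j) (fun j i => h i j) c

theorem sum_sub_vec {V : Type} [Fintype V] {T P : V → ℕ} (h : ∀ b, P b ≤ T b) :
    ∑ b, (T b - P b) + ∑ b, P b = ∑ b, T b := by
  rw [← Finset.sum_add_distrib]
  exact Finset.sum_congr rfl fun j _ => Nat.sub_add_cancel (h j)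

end DecAux

theorem two_classes (r : ℕ) (hr : 3 ≤ r) {V : Type} [Fintype V] [DecidableEq V]
    (F : V → V → ℕ) (T H μ : V → ℕ) (E : ℕ)
    (hrow : ∀ b, fo F b + T b = r * μ b) (hcol : ∀ c, fi F c + H c = r * μ c)
    (hT : ∑ b, T b = E) (hH : ∑ b, H b = E) :
    ∃ (F' : V → V → ℕ) (T' H' : V → ℕ) (t : ℕ),
      (∀ b c, F' b c ≤ F b c) ∧ (∀ b, T' b ≤ T b) ∧ (∀ b, H' b ≤ H b) ∧
      (∀ b, fo F' b + T' b = 2 * μ b) ∧ (∀ c, fi F' c + H' c = 2 * μ c) ∧
      ∑ b, T' b = 2 * t ∧ ∑ b, H' b = 2 * t ∧ E < r * (t + 1) ∧ r * t < E + r := by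
  obtain ⟨m, rfl⟩ : ∃ m, r = m + 3 := ⟨r - 3, by omega⟩
  -- floor and ceiling
  obtain ⟨q, hq1, hq2⟩ : ∃ q, (m + 3) * q ≤ E ∧ E < (m + 3) * (q + 1) := by
    refine ⟨E / (m + 3), Nat.mul_div_le E (m + 3), ?_⟩
    exact Nat.lt_mul_div_succ E (by omega)
  obtain ⟨c, hc1, hc2, hc3⟩ : ∃ c, E ≤ (m + 3) * c ∧ (m + 3) * c < E + (m + 3) ∧ c ≤ q + 1 := by
    rcases Nat.lt_or_ge ((m + 3) * q) E with h | h
    · exact ⟨q + 1, hq2.le, by rw [Nat.mul_succ]; omega, le_rfl⟩
    · exact ⟨q, h, by omega, Nat.le_succ q⟩
  obtain ⟨F1, T1, H1, t1, a1, a2, a3, a4, a5, a6, a7, a8, a9, a10, a11⟩ :=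
    one_class (m + 2) F T H μ E q c (by simpa using hrow) (by simpa using hcol) hT hH
      (by simpa using hq1) (by simpa using hc1)
  obtain ⟨F2, T2, H2, t2, b1, b2, b3, b4, b5, b6, b7, b8, b9, b10, b11⟩ :=
    one_class (m + 1) (fun x y => F x y - F1 x y) (fun x => T x - T1 x) (fun x => H x - H1 x) μ
      (E - t1) q c
      (by
        intro b
        have h1 := fo_sub a1 b
        have h2 := hrow b
        have h3 := a4 b
        have h4 := a2 b
        have h5 : (m + 3) * μ b = (m + 1 + 1) * μ b + μ b := by ring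
        omega)
      (by
        intro b
        have h1 := fi_sub a1 b
        have h2 := hcol b
        have h3 := a5 b
        have h4 := a3 b
        have h5 : (m + 3) * μ b = (m + 1 + 1) * μ b + μ b := by ring
        omega)
      (by have := sum_sub_vec a2; omega)
      (by have := sum_sub_vec a3; omega)
      (by simp only [show m + 1 + 1 = m + 2 from rfl]; omega)
      (by simp only [show m + 1 + 1 = m + 2 from rfl]; omega)
  obtain ⟨F3, T3, H3, t3, c1, c2, c3, c4, c5, c6, c7, c8, c9, c10, c11⟩ :=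
    one_class m (fun x y => F x y - F1 x y - F2 x y) (fun x => T x - T1 x - T2 x)
      (fun x => H x - H1 x - H2 x) μ
      (E - t1 - t2) q c
      (by
        intro b
        have h0 := fo_sub b1 b
        have h1 := fo_sub a1 b
        have h2 := hrow b
        have h3 := a4 b
        have h4 := a2 b
        have h5 : (m + 3) * μ b = (m + 1) * μ b + 2 * μ b := by ring
        have h6 := b4 b
        have h7 := b2 b
        omega)
      (by
        intro b
        have h0 := fi_sub b1 b
        have h1 := fi_sub a1 b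
        have h2 := hcol b
        have h3 := a5 b
        have h4 := a3 b
        have h5 : (m + 3) * μ b = (m + 1) * μ b + 2 * μ b := by ring
        have h6 := b5 b
        have h7 := b3 b
        omega)
      (by have h0 := sum_sub_vec b2; have := sum_sub_vec a2; omega)
      (by have h0 := sum_sub_vec b3; have := sum_sub_vec a3; omega)
      (by omega)
      (by omega)
  have fin : ∀ t, q ≤ t → t ≤ c → E < (m + 3) * (t + 1) ∧ (m + 3) * t < E + (m + 3) := by
    intro t h1 h2
    have h3 : (m + 3) * (q + 1) ≤ (m + 3) * (t + 1) := Nat.mul_le_mul_left _ (by omega)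
    have h4 : (m + 3) * t ≤ (m + 3) * c := Nat.mul_le_mul_left _ h2
    omega
  rcases Nat.lt_or_ge t1 t2 with h12 | h12
  · rcases Nat.lt_or_ge t1 t3 with h13 | h13
    · -- t2 = t3
      obtain rfl : t2 = t3 := by omega
      refine ⟨fun x y => F2 x y + F3 x y, fun x => T2 x + T3 x, fun x => H2 x + H3 x, t2,
        ?_, ?_, ?_, ?_, ?_, ?_, ?_, (fin t2 b8 b9).1, (fin t2 b8 b9).2⟩
      · intro x y; have := b1 x y; have := c1 x y; dsimp only at *; omega
      · intro x; have := b2 x; have := c2 x; dsimp only at *; omega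
      · intro x; have := b3 x; have := c3 x; dsimp only at *; omega
      · intro x; rw [fo_add]; dsimp only; have := b4 x; have := c4 x; omega
      · intro x; rw [fi_add]; dsimp only; have := b5 x; have := c5 x; omega
      · rw [Finset.sum_add_distrib, b6, c6]; ring
      · rw [Finset.sum_add_distrib, b7, c7]; ring
    · -- t1 = t3
      obtain rfl : t1 = t3 := by omega
      refine ⟨fun x y => F1 x y + F3 x y, fun x => T1 x + T3 x, fun x => H1 x + H3 x, t1,
        ?_, ?_, ?_, ?_, ?_, ?_, ?_, (fin t1 a8 a9).1, (fin t1 a8 a9).2⟩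
      · intro x y; have := a1 x y; have := c1 x y; dsimp only at *; omega
      · intro x; have := a2 x; have := c2 x; dsimp only at *; omega
      · intro x; have := a3 x; have := c3 x; dsimp only at *; omega
      · intro x; rw [fo_add]; dsimp only; have := a4 x; have := c4 x; omega
      · intro x; rw [fi_add]; dsimp only; have := a5 x; have := c5 x; omega
      · rw [Finset.sum_add_distrib, a6, c6]; ring
      · rw [Finset.sum_add_distrib, a7, c7]; ring
  · rcases Nat.lt_or_ge t2 t1 with h21 | h21
    · rcases Nat.lt_or_ge t3 t1 with h31 | h31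
      · -- t2 = t3
        obtain rfl : t2 = t3 := by omega
        refine ⟨fun x y => F2 x y + F3 x y, fun x => T2 x + T3 x, fun x => H2 x + H3 x, t2,
          ?_, ?_, ?_, ?_, ?_, ?_, ?_, (fin t2 b8 b9).1, (fin t2 b8 b9).2⟩
        · intro x y; have := b1 x y; have := c1 x y; dsimp only at *; omega
        · intro x; have := b2 x; have := c2 x; dsimp only at *; omega
        · intro x; have := b3 x; have := c3 x; dsimp only at *; omega
        · intro x; rw [fo_add]; dsimp only; have := b4 x; have := c4 x; omega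
        · intro x; rw [fi_add]; dsimp only; have := b5 x; have := c5 x; omega
        · rw [Finset.sum_add_distrib, b6, c6]; ring
        · rw [Finset.sum_add_distrib, b7, c7]; ring
      · -- t1 = t3
        obtain rfl : t1 = t3 := by omega
        refine ⟨fun x y => F1 x y + F3 x y, fun x => T1 x + T3 x, fun x => H1 x + H3 x, t1,
          ?_, ?_, ?_, ?_, ?_, ?_, ?_, (fin t1 a8 a9).1, (fin t1 a8 a9).2⟩
        · intro x y; have := a1 x y; have := c1 x y; dsimp only at *; omega
        · intro x; have := a2 x; have := c2 x; dsimp only at *; omega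
        · intro x; have := a3 x; have := c3 x; dsimp only at *; omega
        · intro x; rw [fo_add]; dsimp only; have := a4 x; have := c4 x; omega
        · intro x; rw [fi_add]; dsimp only; have := a5 x; have := c5 x; omega
        · rw [Finset.sum_add_distrib, a6, c6]; ring
        · rw [Finset.sum_add_distrib, a7, c7]; ring
    · -- t1 = t2
      obtain rfl : t1 = t2 := by omega
      refine ⟨fun x y => F1 x y + F2 x y, fun x => T1 x + T2 x, fun x => H1 x + H2 x, t1,
        ?_, ?_, ?_, ?_, ?_, ?_, ?_, (fin t1 a8 a9).1, (fin t1 a8 a9).2⟩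
      · intro x y; have := a1 x y; have := b1 x y; dsimp only at *; omega
      · intro x; have := a2 x; have := b2 x; dsimp only at *; omega
      · intro x; have := a3 x; have := b3 x; dsimp only at *; omega
      · intro x; rw [fo_add]; dsimp only; have := a4 x; have := b4 x; omega
      · intro x; rw [fi_add]; dsimp only; have := a5 x; have := b5 x; omega
      · rw [Finset.sum_add_distrib, a6, b6]; ring
      · rw [Finset.sum_add_distrib, a7, b7]; ring

end MQ94
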