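import Mathlib

/-!
# MP_aaabe1_al (frozen S02639), helper94: basic definitions

* `TriDec A`: the array `A : X → X → ℕ` of ordered pairs decomposes into cyclic triples
  (`t x y z` = number of copies of the cyclic triple `(x, y, z)`, counted at the arc `x → y`).
* `lev i μ a`: the array on `V ⊕ Fin i` of *level* `i`: arcs `a` between old vertices, every old
  vertex `b` sends `μ b` arcs to and receives `μ b` arcs from each of the `i` new points, and every
  ordered pair of distinct new points is an arc.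
* `fo F b`, `fi F b`, `tot F`: out-degree, in-degree and number of arcs of the array `F`.
* `U u v`: the array with the single arc `u → v`.
* `Closed a δ g P Q`: `(P, Q)` is a union of components of the bipartite graph with arcs `b⁺c⁻`
  (`a b c ≠ 0`) and loops `b⁺b⁻` (`δ b ≠ 0`), with the vertex `g` removed.
-/

set_option autoImplicit false

namespace MQ94

open Finset

def TriDec {X : Type} [Fintype X] (A : X → X → ℕ) : Prop :=
  ∃ t : X → X → X → ℕ, (∀ x y z, t x y z = t y z x) ∧ ∀ x y, ∑ z, t x y z = A x y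

def lev {V : Type} (i : ℕ) (μ : V → ℕ) (a : V → V → ℕ) : V ⊕ Fin i → V ⊕ Fin i → ℕ
  | Sum.inl u, Sum.inl v => a u v
  | Sum.inl u, Sum.inr _ => μ u
  | Sum.inr _, Sum.inl v => μ v
  | Sum.inr p, Sum.inr q => if p = q then 0 else 1

def fo {X : Type} [Fintype X] (F : X → X → ℕ) (b : X) : ℕ := ∑ c, F b c

def fi {X : Type} [Fintype X] (F : X → X → ℕ) (c : X) : ℕ := ∑ b, F b c

def tot {X : Type} [Fintype X] (F : X → X → ℕ) : ℕ := ∑ b, ∑ c, F b c

def U {X : Type} [DecidableEq X] (u v : X) : X → X → ℕ :=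
  fun b c => if b = u ∧ c = v then 1 else 0

def Closed {V : Type} (a : V → V → ℕ) (δ : V → ℕ) (g : V) (P Q : Finset V) : Prop :=
  g ∉ P ∧ g ∉ Q ∧ (∀ b c, a b c ≠ 0 → (b ∈ P ↔ c ∈ Q)) ∧
    (∀ b, b ≠ g → δ b ≠ 0 → (b ∈ P ↔ b ∈ Q))

section basic

variable {X : Type} [Fintype X]

theorem tot_eq_sum_fo (F : X → X → ℕ) : tot F = ∑ b, fo F b := rfl

theorem tot_eq_sum_fi (F : X → X → ℕ) : tot F = ∑ c, fi F c := by
  unfold tot fi
  exact Finset.sum_comm

theorem fo_add (F G : X → X → ℕ) (b : X) : fo (fun x y => F x y + G x y) b = fo F b + fo G b := by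
  unfold fo
  exact Finset.sum_add_distrib

theorem fi_add (F G : X → X → ℕ) (b : X) : fi (fun x y => F x y + G x y) b = fi F b + fi G b := by
  unfold fi
  exact Finset.sum_add_distrib

theorem tot_add (F G : X → X → ℕ) : tot (fun x y => F x y + G x y) = tot F + tot G := by
  simp only [tot_eq_sum_fo, fo_add]
  exact Finset.sum_add_distrib

theorem fo_mono {F G : X → X → ℕ} (h : ∀ b c, F b c ≤ G b c) (b : X) : fo F b ≤ fo G b :=
  Finset.sum_le_sum fun c _ => h b c

theorem fi_mono {F G : X → X → ℕ} (h : ∀ b c, F b c ≤ G b c) (b : X) : fi F b ≤ fi G b :=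
  Finset.sum_le_sum fun c _ => h c b

theorem tot_mono {F G : X → X → ℕ} (h : ∀ b c, F b c ≤ G b c) : tot F ≤ tot G :=
  Finset.sum_le_sum fun b _ => fo_mono h b

theorem le_fo (F : X → X → ℕ) (b c : X) : F b c ≤ fo F b :=
  Finset.single_le_sum (f := fun c => F b c) (fun _ _ => Nat.zero_le _) (Finset.mem_univ c)

theorem le_fi (F : X → X → ℕ) (b c : X) : F b c ≤ fi F c :=
  Finset.single_le_sum (f := fun b => F b c) (fun _ _ => Nat.zero_le _) (Finset.mem_univ b)

variable [DecidableEq X]

@[simp] theorem U_self (u v : X) : U u v u v = 1 := by simp [U]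

theorem fo_U (u v b : X) : fo (U u v) b = if b = u then 1 else 0 := by
  unfold fo U
  by_cases h : b = u <;> simp [h]

theorem fi_U (u v c : X) : fi (U u v) c = if c = v then 1 else 0 := by
  unfold fi U
  by_cases h : c = v <;> simp [h]

theorem tot_U (u v : X) : tot (U u v) = 1 := by
  simp [tot_eq_sum_fo, fo_U]

end basic

end MQ94
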