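import Pool.Agent.MQ94.Leave
import Pool.Agent.MQ94.Round

/-!
# Module MQ-EX (MP_aaabe1_al, helper94): existence of `F` with caps `m - 1` and demands `ℓ`

Hypotheses: minimum degree `m = d g ≥ 3`. Then `n ≥ 2 m` (an arc `a → b` has
`2 m ≤ d a + d b ≤ n`).

Notation: `s_b = L b g`, `s'_b = L g b` (`0` or `1`). For `b, c ≠ g`:
`p_b = (m - 1 - s_b) / (d b - s_b)`, `q_c = (m - 1 - s'_c) / (d c - s'_c)` (rational numbers; the
denominators are at least `m - 1 ≥ 2`), `r_b = ℓ b / d b`. Define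
`x b c = L b c * min (p_b) (q_c)` and `z b c = L b c * min (min (p_b) (q_c)) (max (r_b) (r_c))` for
`b, c ≠ g`, and `x = z = L` if `b = g` or `c = g`.
(1) `0 ≤ z ≤ x ≤ L`. Row sum of `x` at `b ≠ g`: at most `s_b + (d b - s_b) p_b = m - 1`; column sums
at most `m - 1`; row and column sum at `g` are `m`.
(2) Demands: `∑_c z b c ≥ ℓ b` for `b ≠ g`. If `b → c`, `c ≠ g`, then
`q_c ≥ (m - 2) / (n - d b - 1) ≥ r_b`: `d c ≤ n - d b`; if `s'_c = 1`,
`q_c = (m-2)/(d c - 1) ≥ (m-2)/(n - d b - 1)`; if `s'_c = 0`,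
`q_c = (m-1)/d c ≥ (m-1)/(n - d b) ≥ (m-2)/(n - d b - 1)` since
`(m-1)(n - d b - 1) - (m-2)(n - d b) = n - d b - (m - 1) ≥ 0`; and
`(m-2)/(n - d b - 1) ≥ ℓ b / d b` is `hℓ2`. So `z b c ≥ min (p_b) (r_b)` and the row sum is at
least `s_b + (d b - s_b) min (p_b) (r_b)`: if `p_b ≤ r_b` this is `m - 1 ≥ ℓ b`; otherwise it is
`ℓ b + s_b (1 - ℓ b / d b) ≥ ℓ b`. Columns: the same by symmetry.
(3) Total of `z`: the number of arcs `b → c` with `b, c ≠ g` is `tot L - 2 m`, each has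
`z ≤ max (r_b) (r_c) ≤ 1/3`; so the total is at most `2 m + (tot L - 2 m)/3 ≤ hi` (by `hhi`).
(4) Total of `x` is at least `2 m² - 2 m`. For an arc `b → c`, `b, c ≠ g`, let
`P = (m - s_b)/(d b - s_b) ≤ 1`, `Q = (m - s'_c)/(d c - s'_c) ≤ 1`. We have
`p_b ≥ ((m-2)/(m-1)) P`, `q_c ≥ ((m-2)/(m-1)) Q`, and `P ≥ (m-1)/(n-m-1)` (`d b ≤ n - d c ≤ n - m`;
if `s_b = 1` clear, if `s_b = 0`: `m/(n-m) ≥ (m-1)/(n-m-1)` as `n ≥ 2 m`), the same for `Q`. As
`Q ≤ 1`, `(n - m - 1) P ≥ (m - 1) Q`, i.e. `P ≥ ((m-1)/(n-2)) (P + Q)`; the same for `Q`. So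
`min (p_b) (q_c) ≥ ((m-2)/(n-2)) (P + Q)`. Summing over these arcs,
`∑ P = ∑_{b ≠ g} (m - s_b) = (n-1) m - m = m (n - 2)`, the same for `Q`; so the total of `x` is at
least `2 m + ((m-2)/(n-2)) 2 m (n-2) = 2 m + 2 m (m - 2)`.
(5) Let `y = z` if the total of `z` is at least `lo`; otherwise the total of `z` is `< lo`, that of `x`
is `≥ lo`, and let `y = (1-θ) z + θ x` with total exactly `lo`. Round `y` by `round_gen`: since `y`
has entries between `0` and `L`, the rounding `F` satisfies `F ≤ L`, `F = L` at `g`, row and column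
sums between `ℓ b` and `m - 1`, total between `lo` and `hi`.
-/

set_option autoImplicit false

namespace MQ94

namespace EXaux

structure Hyp {S : Type} [Fintype S] [DecidableEq S] (L : S → S → ℕ) (d : S → ℕ) (n m : ℕ)
    (g : S) : Prop where
  card : Fintype.card S = n
  le_one : ∀ b c, L b c ≤ 1
  irr : L g g = 0
  out : ∀ b, fo L b = d b
  inn : ∀ b, fi L b = d b
  adj : ∀ a b, L a b ≠ 0 → d a + d b ≤ n
  hm : 3 ≤ m
  hg : d g = m
  hmin : ∀ b, m ≤ d b

variable {S : Type} [Fintype S] [DecidableEq S] {L : S → S → ℕ} {d : S → ℕ} {n m : ℕ} {g : S}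

theorem Hyp.swap (H : Hyp L d n m g) : Hyp (fun b c => L c b) d n m g where
  card := H.card
  le_one := fun b c => H.le_one c b
  irr := H.irr
  out := H.inn
  inn := H.out
  adj := fun a b h => by have := H.adj b a h; omega
  hm := H.hm
  hg := H.hg
  hmin := H.hmin

/-- `p_b` (and `q_c` for the transposed array) -/
def pp (L : S → S → ℕ) (d : S → ℕ) (m : ℕ) (g b : S) : ℚ :=
  ((m : ℚ) - 1 - L b g) / ((d b : ℚ) - L b g)

/-- `P_b` -/
def PP (L : S → S → ℕ) (d : S → ℕ) (m : ℕ) (g b : S) : ℚ :=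
  ((m : ℚ) - L b g) / ((d b : ℚ) - L b g)

def Xm (L : S → S → ℕ) (d : S → ℕ) (m : ℕ) (g b c : S) : ℚ :=
  if b = g ∨ c = g then (L b c : ℚ)
  else L b c * min (pp L d m g b) (pp (fun x y => L y x) d m g c)

def Zm (L : S → S → ℕ) (d : S → ℕ) (m : ℕ) (g : S) (r : S → ℚ) (b c : S) : ℚ :=
  if b = g ∨ c = g then (L b c : ℚ)
  else L b c * min (min (pp L d m g b) (pp (fun x y => L y x) d m g c)) (max (r b) (r c))

omit [Fintype S] in
theorem Xm_swap (b c : S) : Xm (fun x y => L y x) d m g c b = Xm L d m g b c := by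
  unfold Xm
  by_cases h : b = g ∨ c = g
  · rw [if_pos h, if_pos h.symm]
  · rw [if_neg h, if_neg (fun h' => h h'.symm), min_comm]

omit [Fintype S] in
theorem Zm_swap (r : S → ℚ) (b c : S) :
    Zm (fun x y => L y x) d m g r c b = Zm L d m g r b c := by
  unfold Zm
  by_cases h : b = g ∨ c = g
  · rw [if_pos h, if_pos h.symm]
  · rw [if_neg h, if_neg (fun h' => h h'.symm), max_comm (r c) (r b),
      min_comm (pp (fun x y => L y x) d m g c)]

theorem Hyp.leQ (H : Hyp L d n m g) (b c : S) : (L b c : ℚ) ≤ 1 := by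
  exact_mod_cast H.le_one b c

theorem Hyp.den_pos (H : Hyp L d n m g) (b : S) : 0 < (d b : ℚ) - L b g := by
  have h1 := H.leQ b g
  have h2 : (m : ℚ) ≤ d b := by exact_mod_cast H.hmin b
  have h3 : (3 : ℚ) ≤ m := by exact_mod_cast H.hm
  linarith

theorem Hyp.pp_nonneg (H : Hyp L d n m g) (b : S) : 0 ≤ pp L d m g b := by
  have h1 := H.leQ b g
  have h3 : (3 : ℚ) ≤ m := by exact_mod_cast H.hm
  exact div_nonneg (by linarith) (H.den_pos b).le

theorem Hyp.pp_le_one (H : Hyp L d n m g) (b : S) : pp L d m g b ≤ 1 := by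
  have h2 : (m : ℚ) ≤ d b := by exact_mod_cast H.hmin b
  unfold pp
  rw [div_le_one (H.den_pos b)]
  linarith

theorem Hyp.pp_mul (H : Hyp L d n m g) (b : S) :
    pp L d m g b * ((d b : ℚ) - L b g) = (m : ℚ) - 1 - L b g :=
  div_mul_cancel₀ _ (H.den_pos b).ne'

theorem Hyp.PP_mul (H : Hyp L d n m g) (b : S) :
    PP L d m g b * ((d b : ℚ) - L b g) = (m : ℚ) - L b g :=
  div_mul_cancel₀ _ (H.den_pos b).ne'

theorem Hyp.PP_le_one (H : Hyp L d n m g) (b : S) : PP L d m g b ≤ 1 := by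
  have h2 : (m : ℚ) ≤ d b := by exact_mod_cast H.hmin b
  unfold PP
  rw [div_le_one (H.den_pos b)]
  linarith

theorem Hyp.PP_nonneg (H : Hyp L d n m g) (b : S) : 0 ≤ PP L d m g b := by
  have h1 := H.leQ b g
  have h3 : (3 : ℚ) ≤ m := by exact_mod_cast H.hm
  exact div_nonneg (by linarith) (H.den_pos b).le

theorem Hyp.outQ (H : Hyp L d n m g) (b : S) : ∑ c, (L b c : ℚ) = d b := by
  have := H.out b
  unfold fo at this
  exact_mod_cast this

theorem Hyp.innQ (H : Hyp L d n m g) (c : S) : ∑ b, (L b c : ℚ) = d c := by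
  have := H.inn c
  unfold fi at this
  exact_mod_cast this

theorem Hyp.sumg (H : Hyp L d n m g) : ∑ b, (L b g : ℚ) = m := by
  rw [H.innQ, H.hg]

/-- the sum of a row with the entry at `g` replaced -/
theorem Hyp.row_aux (H : Hyp L d n m g) (b : S) (w : ℚ) :
    ∑ c, ((L b c : ℚ) * w + if c = g then (L b g : ℚ) * (1 - w) else 0)
      = L b g + ((d b : ℚ) - L b g) * w := by
  rw [Finset.sum_add_distrib, ← Finset.sum_mul, H.outQ, Finset.sum_ite_eq']
  simp
  ring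

theorem Hyp.X_row (H : Hyp L d n m g) {b : S} (hb : b ≠ g) :
    ∑ c, Xm L d m g b c ≤ (m : ℚ) - 1 := by
  have h1 : ∑ c, Xm L d m g b c ≤
      ∑ c, ((L b c : ℚ) * pp L d m g b + if c = g then (L b g : ℚ) * (1 - pp L d m g b) else 0) := by
    refine Finset.sum_le_sum fun c _ => ?_
    unfold Xm
    by_cases hc : c = g
    · subst hc
      simp only [or_true, if_true]
      linarith
    · rw [if_neg (by tauto), if_neg hc, add_zero]
      exact mul_le_mul_of_nonneg_left (min_le_left _ _) (Nat.cast_nonneg _)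
  rw [H.row_aux, mul_comm, H.pp_mul] at h1
  linarith

theorem Hyp.X_col (H : Hyp L d n m g) {c : S} (hc : c ≠ g) :
    ∑ b, Xm L d m g b c ≤ (m : ℚ) - 1 := by
  have := H.swap.X_row hc
  simpa only [Xm_swap] using this

theorem Hyp.X_le (H : Hyp L d n m g) (b c : S) : Xm L d m g b c ≤ L b c := by
  unfold Xm
  split_ifs with h
  · exact le_rfl
  · calc (L b c : ℚ) * min (pp L d m g b) (pp (fun x y => L y x) d m g c)
        ≤ L b c * 1 := mul_le_mul_of_nonneg_left ((min_le_left _ _).trans (H.pp_le_one b))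
          (Nat.cast_nonneg _)
      _ = L b c := mul_one _

theorem Hyp.Z_le_X (_H : Hyp L d n m g) (r : S → ℚ) (b c : S) :
    Zm L d m g r b c ≤ Xm L d m g b c := by
  unfold Zm Xm
  split_ifs with h
  · exact le_rfl
  · exact mul_le_mul_of_nonneg_left (min_le_left _ _) (Nat.cast_nonneg _)

theorem Hyp.Z_nonneg (H : Hyp L d n m g) (r : S → ℚ) (hr : ∀ b, 0 ≤ r b) (b c : S) :
    0 ≤ Zm L d m g r b c := by
  unfold Zm
  split_ifs with h
  · exact Nat.cast_nonneg _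
  · exact mul_nonneg (Nat.cast_nonneg _) (le_min (le_min (H.pp_nonneg b) (H.swap.pp_nonneg c))
      ((hr b).trans (le_max_left _ _)))

/-- key inequality of (2): `q_c ≥ r_b` for an arc `b → c` -/
theorem Hyp.qr (H : Hyp L d n m g) (ℓ : S → ℕ) {b c : S} (hbc : L b c ≠ 0)
    (hℓ2 : ℓ b * (n - d b - 1) ≤ d b * (m - 2)) (hℓ3 : 3 * ℓ b ≤ d b) :
    (ℓ b : ℚ) / d b ≤ pp (fun x y => L y x) d m g c := by
  have hden := H.swap.den_pos c
  have hadj := H.adj b c hbc
  have hmc := H.hmin c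
  have hmb := H.hmin b
  have hm := H.hm
  have hdb : (0 : ℚ) < d b := by
    have : 0 < d b := by omega
    exact_mod_cast this
  unfold pp
  rw [div_le_div_iff₀ hdb hden]
  change (ℓ b : ℚ) * ((d c : ℚ) - (L g c : ℚ)) ≤ ((m : ℚ) - 1 - (L g c : ℚ)) * (d b : ℚ)
  have hle := H.le_one g c
  obtain ⟨k, hk⟩ : ∃ k, n = d b + k + 1 := ⟨n - d b - 1, by omega⟩
  obtain ⟨j, hj⟩ : ∃ j, m = j + 2 := ⟨m - 2, by omega⟩
  have e1 : n - d b - 1 = k := by omega
  have e2 : m - 2 = j := by omega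
  rw [e1, e2] at hℓ2
  have hq : (ℓ b : ℚ) * k ≤ d b * j := by exact_mod_cast hℓ2
  have hmq : (m : ℚ) = j + 2 := by rw [hj]; push_cast; ring
  have hℓd : (ℓ b : ℚ) ≤ d b := by
    have : ℓ b ≤ d b := by omega
    exact_mod_cast this
  have hℓ0 : (0 : ℚ) ≤ ℓ b := Nat.cast_nonneg _
  have hdc : (d c : ℚ) ≤ k + 1 := by
    have : d c ≤ k + 1 := by omega
    exact_mod_cast this
  rcases Nat.le_one_iff_eq_zero_or_eq_one.mp hle with h0 | h1
  · rw [h0, hmq]
    push_cast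
    have : (ℓ b : ℚ) * d c ≤ ℓ b * (k + 1) := mul_le_mul_of_nonneg_left hdc hℓ0
    nlinarith
  · rw [h1, hmq]
    push_cast
    have : (ℓ b : ℚ) * (d c - 1) ≤ ℓ b * k := mul_le_mul_of_nonneg_left (by linarith) hℓ0
    nlinarith

theorem Hyp.Z_row (H : Hyp L d n m g) (ℓ : S → ℕ) {b : S} (hb : b ≠ g)
    (hℓ1 : ℓ b ≤ m - 1) (hℓ2 : ℓ b * (n - d b - 1) ≤ d b * (m - 2)) (hℓ3 : 3 * ℓ b ≤ d b) :
    (ℓ b : ℚ) ≤ ∑ c, Zm L d m g (fun b => (ℓ b : ℚ) / d b) b c := by
  set r : S → ℚ := fun b => (ℓ b : ℚ) / d b with hr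
  have hm := H.hm
  have hmb := H.hmin b
  have hdb : (0 : ℚ) < d b := by
    have : 0 < d b := by omega
    exact_mod_cast this
  set w : ℚ := min (pp L d m g b) (r b) with hw
  have h1 : ∑ c, ((L b c : ℚ) * w + if c = g then (L b g : ℚ) * (1 - w) else 0) ≤
      ∑ c, Zm L d m g r b c := by
    refine Finset.sum_le_sum fun c _ => ?_
    unfold Zm
    by_cases hc : c = g
    · subst hc
      simp only [or_true, if_true]
      linarith
    · have hn' : ¬ (b = g ∨ c = g) := by tauto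
      rw [if_neg hc, if_neg hn', add_zero]
      by_cases h0 : L b c = 0
      · rw [h0]; simp
      · refine mul_le_mul_of_nonneg_left ?_ (Nat.cast_nonneg _)
        have hq : r b ≤ pp (fun x y => L y x) d m g c := H.qr ℓ h0 hℓ2 hℓ3
        refine le_min (le_min (min_le_left _ _) ((min_le_right _ _).trans hq)) ?_
        exact (min_le_right _ _).trans (le_max_left _ _)
  rw [H.row_aux] at h1
  refine le_trans ?_ h1
  have hs0 : (0 : ℚ) ≤ L b g := Nat.cast_nonneg _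
  have hℓd : (ℓ b : ℚ) ≤ d b := by
    have : ℓ b ≤ d b := by omega
    exact_mod_cast this
  rcases min_choice (pp L d m g b) (r b) with h | h
  · rw [hw, h, mul_comm, H.pp_mul]
    have : (ℓ b : ℚ) + 1 ≤ m := by
      have : ℓ b + 1 ≤ m := by omega
      exact_mod_cast this
    linarith
  · rw [hw, h, hr]
    have e : (d b : ℚ) * (ℓ b / d b) = ℓ b := by field_simp
    have h2 : (ℓ b : ℚ) / d b ≤ 1 := by rw [div_le_one hdb]; exact hℓd
    have h3 : 0 ≤ (L b g : ℚ) * (1 - ℓ b / d b) := mul_nonneg hs0 (by linarith)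
    simp only
    linarith

theorem Hyp.Z_col (H : Hyp L d n m g) (ℓ : S → ℕ) {c : S} (hc : c ≠ g)
    (hℓ1 : ℓ c ≤ m - 1) (hℓ2 : ℓ c * (n - d c - 1) ≤ d c * (m - 2)) (hℓ3 : 3 * ℓ c ≤ d c) :
    (ℓ c : ℚ) ≤ ∑ b, Zm L d m g (fun b => (ℓ b : ℚ) / d b) b c := by
  have := H.swap.Z_row ℓ hc hℓ1 hℓ2 hℓ3
  simpa only [Zm_swap] using this

/-- (3) -/
theorem Hyp.Z_tot (H : Hyp L d n m g) (r : S → ℚ) (hr : ∀ b, b ≠ g → r b ≤ 1 / 3) :
    ∑ b, ∑ c, Zm L d m g r b c ≤ ((tot L : ℚ) + 4 * m) / 3 := by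
  have h1 : ∑ b, ∑ c, Zm L d m g r b c ≤
      ∑ b, ∑ c, ((L b c : ℚ) * (1 / 3) + (if b = g then (L g c : ℚ) * (2 / 3) else 0)
        + (if c = g then (L b g : ℚ) * (2 / 3) else 0)) := by
    refine Finset.sum_le_sum fun b _ => Finset.sum_le_sum fun c _ => ?_
    unfold Zm
    have hbc : (0 : ℚ) ≤ L b c := Nat.cast_nonneg _
    by_cases hb : b = g
    · subst hb
      by_cases hc : c = b
      · subst hc
        simp [H.irr]
      · simp only [true_or, if_true, if_neg hc]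
        linarith
    · by_cases hc : c = g
      · subst hc
        simp only [or_true, if_true, if_neg hb]
        linarith
      · rw [if_neg (by tauto), if_neg hb, if_neg hc, add_zero, add_zero]
        refine mul_le_mul_of_nonneg_left ?_ hbc
        exact (min_le_right _ _).trans (max_le (hr b hb) (hr c hc))
  refine h1.trans (le_of_eq ?_)
  have e1 : ∀ b, ∑ c, ((L b c : ℚ) * (1 / 3) + (if b = g then (L g c : ℚ) * (2 / 3) else 0)
        + (if c = g then (L b g : ℚ) * (2 / 3) else 0))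
      = (d b : ℚ) * (1 / 3) + (if b = g then (m : ℚ) * (2 / 3) else 0) + (L b g : ℚ) * (2 / 3) := by
    intro b
    rw [Finset.sum_add_distrib, Finset.sum_add_distrib, ← Finset.sum_mul, H.outQ]
    have e2 : ∑ c, (if c = g then (L b g : ℚ) * (2 / 3) else 0) = (L b g : ℚ) * (2 / 3) := by
      rw [Finset.sum_ite_eq']; simp
    rw [e2]
    by_cases hb : b = g
    · simp only [if_pos hb]
      rw [← Finset.sum_mul, H.outQ, H.hg]
    · simp [hb]
  simp only [e1]
  rw [Finset.sum_add_distrib, Finset.sum_add_distrib, ← Finset.sum_mul, ← Finset.sum_mul,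
    H.sumg, Finset.sum_ite_eq']
  have e3 : (∑ b, (d b : ℚ)) = tot L := by
    rw [tot_eq_sum_fo]
    push_cast
    exact Finset.sum_congr rfl fun b _ => by rw [H.out b]
  rw [e3]
  simp
  ring

/-- the double sum of `P` -/
theorem Hyp.P_sum (H : Hyp L d n m g) :
    ∑ b, ∑ c, (if b = g ∨ c = g then (0 : ℚ) else (L b c : ℚ) * PP L d m g b)
      = (m : ℚ) * (n - 2) := by
  have e1 : ∀ b, ∑ c, (if b = g ∨ c = g then (0 : ℚ) else (L b c : ℚ) * PP L d m g b)
      = ((m : ℚ) - L b g) - if b = g then (m : ℚ) else 0 := by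
    intro b
    by_cases hb : b = g
    · subst hb
      simp [H.irr]
    · rw [if_neg hb, sub_zero]
      have e2 : ∀ c, (if b = g ∨ c = g then (0 : ℚ) else (L b c : ℚ) * PP L d m g b)
          = (L b c : ℚ) * PP L d m g b - if c = g then (L b g : ℚ) * PP L d m g b else 0 := by
        intro c
        by_cases hc : c = g
        · subst hc; simp
        · simp [hb, hc]
      simp only [e2]
      rw [Finset.sum_sub_distrib, ← Finset.sum_mul, H.outQ, Finset.sum_ite_eq']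
      have := H.PP_mul b
      simp
      linarith
  simp only [e1]
  rw [Finset.sum_sub_distrib, Finset.sum_sub_distrib, H.sumg, Finset.sum_ite_eq']
  simp [H.card]
  ring

theorem Hyp.key (H : Hyp L d n m g) {b c : S} (hbc : L b c ≠ 0) :
    ((m : ℚ) - 2) / ((n : ℚ) - 2) * (PP L d m g b + PP (fun x y => L y x) d m g c)
      ≤ pp L d m g b := by
  have hadj := H.adj b c hbc
  have hmc := H.hmin c
  have hmb := H.hmin b
  have hm := H.hm
  have hden := H.den_pos b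
  have hm3 : (3 : ℚ) ≤ m := by exact_mod_cast hm
  have hdb : (m : ℚ) ≤ d b := by exact_mod_cast hmb
  have hdn : (d b : ℚ) + m ≤ n := by
    have : d b + m ≤ n := by omega
    exact_mod_cast this
  have hn2 : (0 : ℚ) < (n : ℚ) - 2 := by linarith
  have hQ : PP (fun x y => L y x) d m g c ≤ 1 := H.swap.PP_le_one c
  have hP0 := H.PP_nonneg b
  have hle := H.le_one b g
  -- `(n - m - 1) P ≥ m - 1`
  have hA : (m : ℚ) - 1 ≤ ((n : ℚ) - m - 1) * PP L d m g b := by
    have h1 : ((m : ℚ) - 1) * ((d b : ℚ) - L b g) ≤ ((n : ℚ) - m - 1) * ((m : ℚ) - L b g) := by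
      rcases Nat.le_one_iff_eq_zero_or_eq_one.mp hle with h0 | h1
      · rw [h0]; push_cast; nlinarith
      · rw [h1]; push_cast; nlinarith
    have h2 : (m : ℚ) - 1 ≤ ((n : ℚ) - m - 1) * ((m : ℚ) - L b g) / ((d b : ℚ) - L b g) := by
      rw [le_div_iff₀ hden]; exact h1
    unfold PP
    rw [← mul_div_assoc]; exact h2
  have hB : ((m : ℚ) - 1) * (PP L d m g b + PP (fun x y => L y x) d m g c)
      ≤ ((n : ℚ) - 2) * PP L d m g b := by
    have : ((m : ℚ) - 1) * PP (fun x y => L y x) d m g c ≤ (m : ℚ) - 1 := by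
      have := mul_le_mul_of_nonneg_left hQ (show (0 : ℚ) ≤ (m : ℚ) - 1 by linarith)
      linarith
    nlinarith
  have hC : ((m : ℚ) - 2) * PP L d m g b ≤ ((m : ℚ) - 1) * pp L d m g b := by
    unfold PP pp
    rw [← mul_div_assoc, ← mul_div_assoc]
    refine div_le_div_of_nonneg_right ?_ hden.le
    rcases Nat.le_one_iff_eq_zero_or_eq_one.mp hle with h0 | h1
    · rw [h0]; push_cast; nlinarith
    · rw [h1]; push_cast; nlinarith
  rw [div_mul_eq_mul_div, div_le_iff₀ hn2]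
  have h5 : ((m : ℚ) - 1) * (((m : ℚ) - 2) * (PP L d m g b + PP (fun x y => L y x) d m g c))
      ≤ ((m : ℚ) - 1) * (pp L d m g b * ((n : ℚ) - 2)) := by
    have h6 := mul_le_mul_of_nonneg_left hB (show (0 : ℚ) ≤ (m : ℚ) - 2 by linarith)
    have h7 := mul_le_mul_of_nonneg_left hC hn2.le
    linarith
  exact le_of_mul_le_mul_left h5 (by linarith)

/-- (4) -/
theorem Hyp.X_tot (H : Hyp L d n m g) (hn : 3 ≤ n) :
    2 * (m : ℚ) * m - 2 * m ≤ ∑ b, ∑ c, Xm L d m g b c := by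
  set κ : ℚ := ((m : ℚ) - 2) / ((n : ℚ) - 2) with hκ
  set A : S → S → ℚ := fun b c =>
    if b = g ∨ c = g then (0 : ℚ) else (L b c : ℚ) * PP L d m g b with hA
  set B : S → S → ℚ := fun b c =>
    if b = g ∨ c = g then (0 : ℚ) else (L b c : ℚ) * PP (fun x y => L y x) d m g c with hB
  have hAs : ∑ b, ∑ c, A b c = (m : ℚ) * (n - 2) := H.P_sum
  have hBs : ∑ b, ∑ c, B b c = (m : ℚ) * (n - 2) := by
    rw [Finset.sum_comm]
    have := H.swap.P_sum
    rw [← this]
    refine Finset.sum_congr rfl fun b _ => Finset.sum_congr rfl fun c _ => ?_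
    simp only [hB, or_comm]
  have h1 : ∑ b, ∑ c, (κ * A b c + κ * B b c + (if b = g then (L g c : ℚ) else 0)
        + (if c = g then (L b g : ℚ) else 0)) ≤ ∑ b, ∑ c, Xm L d m g b c := by
    refine Finset.sum_le_sum fun b _ => Finset.sum_le_sum fun c _ => ?_
    by_cases hb : b = g
    · subst hb
      by_cases hc : c = b
      · subst hc
        simp [hA, hB, Xm, H.irr]
      · simp [hA, hB, Xm, hc]
    · by_cases hc : c = g
      · subst hc
        simp [hA, hB, Xm, hb]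
      · have hn : ¬ (b = g ∨ c = g) := by tauto
        simp only [hA, hB, Xm, if_neg hn, if_neg hb, if_neg hc, add_zero]
        by_cases h0 : L b c = 0
        · simp [h0]
        · have k1 := H.key h0
          have k2 := H.swap.key (b := c) (c := b) h0
          have k3 : κ * (PP L d m g b + PP (fun x y => L y x) d m g c)
              ≤ min (pp L d m g b) (pp (fun x y => L y x) d m g c) := by
            refine le_min k1 ?_
            rw [add_comm]
            exact k2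
          have := mul_le_mul_of_nonneg_left k3 (Nat.cast_nonneg (L b c) : (0 : ℚ) ≤ L b c)
          linarith
  refine le_trans (le_of_eq ?_) h1
  have e1 : ∀ b, ∑ c, (κ * A b c + κ * B b c + (if b = g then (L g c : ℚ) else 0)
        + (if c = g then (L b g : ℚ) else 0))
      = κ * ∑ c, A b c + κ * ∑ c, B b c + (if b = g then (m : ℚ) else 0) + (L b g : ℚ) := by
    intro b
    rw [Finset.sum_add_distrib, Finset.sum_add_distrib, Finset.sum_add_distrib,
      ← Finset.mul_sum, ← Finset.mul_sum]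
    have e2 : ∑ c, (if c = g then (L b g : ℚ) else 0) = (L b g : ℚ) := by
      rw [Finset.sum_ite_eq']; simp
    rw [e2]
    by_cases hb : b = g
    · simp only [if_pos hb]
      rw [H.outQ, H.hg]
    · simp [hb]
  simp only [e1]
  rw [Finset.sum_add_distrib, Finset.sum_add_distrib, Finset.sum_add_distrib,
    ← Finset.mul_sum, ← Finset.mul_sum, hAs, hBs, H.sumg, Finset.sum_ite_eq']
  have hn2 : ((n : ℚ) - 2) ≠ 0 := by
    have : (3 : ℚ) ≤ n := by exact_mod_cast hn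
    intro h
    linarith
  have e4 : κ * ((m : ℚ) * (n - 2)) = ((m : ℚ) - 2) * m := by
    rw [hκ]; field_simp
  rw [e4]
  simp
  ring

end EXaux

open EXaux in
theorem EX {S : Type} [Fintype S] [DecidableEq S] {L : S → S → ℕ} {d : S → ℕ} {n e τ : ℕ}
    (h : IsLeave L d n e τ) (m : ℕ) (hm : 3 ≤ m) (g : S) (hg : d g = m) (hmin : ∀ b, m ≤ d b)
    (ℓ : S → ℕ) (hℓ1 : ∀ b, b ≠ g → ℓ b ≤ m - 1)
    (hℓ2 : ∀ b, b ≠ g → ℓ b * (n - d b - 1) ≤ d b * (m - 2))
    (hℓ3 : ∀ b, b ≠ g → 3 * ℓ b ≤ d b)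
    (lo hi : ℕ) (hlo : lo + 2 * m ≤ 2 * m * m) (hlohi : lo ≤ hi) (hhi : tot L + 4 * m ≤ 3 * hi) :
    ∃ F : S → S → ℕ, (∀ b c, F b c ≤ L b c) ∧ (∀ c, F g c = L g c) ∧ (∀ c, F c g = L c g) ∧
      (∀ b, b ≠ g → fo F b + 1 ≤ m ∧ fi F b + 1 ≤ m ∧ ℓ b ≤ fo F b ∧ ℓ b ≤ fi F b) ∧
      lo ≤ tot F ∧ tot F ≤ hi := by
  have H : Hyp L d n m g :=
    { card := h.card
      le_one := h.le_one
      irr := h.irrefl g
      out := h.out
      inn := h.inn
      adj := fun a b hab => h.adj hab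
      hm := hm
      hg := hg
      hmin := hmin }
  have hn : 3 ≤ n := by
    have := h.deg_lt g
    omega
  set r : S → ℚ := fun b => (ℓ b : ℚ) / d b with hr
  have hr0 : ∀ b, 0 ≤ r b := fun b => div_nonneg (Nat.cast_nonneg _) (Nat.cast_nonneg _)
  have hr3 : ∀ b, b ≠ g → r b ≤ 1 / 3 := by
    intro b hb
    have h1 := hmin b
    have hdb : (0 : ℚ) < d b := by
      have : 0 < d b := by omega
      exact_mod_cast this
    have h2 : (3 : ℚ) * ℓ b ≤ d b := by exact_mod_cast hℓ3 b hb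
    simp only [hr]
    rw [div_le_iff₀ hdb]
    linarith
  set x : S → S → ℚ := fun b c => Xm L d m g b c with hx
  set z : S → S → ℚ := fun b c => Zm L d m g r b c with hz
  have hzx : ∀ b c, z b c ≤ x b c := fun b c => H.Z_le_X r b c
  have hz0 : ∀ b c, 0 ≤ z b c := fun b c => H.Z_nonneg r hr0 b c
  have hxL : ∀ b c, x b c ≤ L b c := fun b c => H.X_le b c
  have hTz : ∑ b, ∑ c, z b c ≤ hi := by
    have h1 := H.Z_tot r hr3
    have h2 : (tot L : ℚ) + 4 * m ≤ 3 * hi := by exact_mod_cast hhi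
    have h3 : ∑ b, ∑ c, z b c ≤ ((tot L : ℚ) + 4 * m) / 3 := h1
    linarith
  have hTx : (lo : ℚ) ≤ ∑ b, ∑ c, x b c := by
    have h1 := H.X_tot hn
    have h2 : (lo : ℚ) + 2 * m ≤ 2 * m * m := by exact_mod_cast hlo
    have h3 : 2 * (m : ℚ) * m - 2 * m ≤ ∑ b, ∑ c, x b c := h1
    linarith
  -- the interpolation parameter
  obtain ⟨θ, hθ0, hθ1, hθlo, hθhi⟩ : ∃ θ : ℚ, 0 ≤ θ ∧ θ ≤ 1 ∧
      (lo : ℚ) ≤ ∑ b, ∑ c, z b c + θ * (∑ b, ∑ c, x b c - ∑ b, ∑ c, z b c) ∧
      ∑ b, ∑ c, z b c + θ * (∑ b, ∑ c, x b c - ∑ b, ∑ c, z b c) ≤ hi := by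
    by_cases hc : (lo : ℚ) ≤ ∑ b, ∑ c, z b c
    · exact ⟨0, le_rfl, zero_le_one, by simpa using hc, by simpa using hTz⟩
    · push Not at hc
      have hpos : 0 < ∑ b, ∑ c, x b c - ∑ b, ∑ c, z b c := by linarith
      have e : ∑ b, ∑ c, z b c + ((lo : ℚ) - ∑ b, ∑ c, z b c) /
          (∑ b, ∑ c, x b c - ∑ b, ∑ c, z b c) * (∑ b, ∑ c, x b c - ∑ b, ∑ c, z b c) = lo := by
        rw [div_mul_cancel₀ _ hpos.ne']
        ring
      refine ⟨((lo : ℚ) - ∑ b, ∑ c, z b c) / (∑ b, ∑ c, x b c - ∑ b, ∑ c, z b c),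
        div_nonneg (by linarith) hpos.le, ?_, ?_, ?_⟩
      · rw [div_le_one hpos]; linarith
      · rw [e]
      · rw [e]; exact_mod_cast hlohi
  set y : S → S → ℚ := fun b c => z b c + θ * (x b c - z b c) with hy
  have hzy : ∀ b c, z b c ≤ y b c := by
    intro b c
    have : 0 ≤ θ * (x b c - z b c) := mul_nonneg hθ0 (by linarith [hzx b c])
    simp only [hy]
    linarith
  have hyx : ∀ b c, y b c ≤ x b c := by
    intro b c
    have : θ * (x b c - z b c) ≤ 1 * (x b c - z b c) :=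
      mul_le_mul_of_nonneg_right hθ1 (by linarith [hzx b c])
    simp only [hy]
    linarith
  have hy0 : ∀ b c, 0 ≤ y b c := fun b c => (hz0 b c).trans (hzy b c)
  have hyT : ∑ b, ∑ c, y b c = ∑ b, ∑ c, z b c + θ * (∑ b, ∑ c, x b c - ∑ b, ∑ c, z b c) := by
    simp only [hy, Finset.sum_add_distrib, ← Finset.mul_sum, Finset.sum_sub_distrib]
  have hyg1 : ∀ c, y g c = L g c := by
    intro c
    simp [hy, hx, hz, Xm, Zm]
  have hyg2 : ∀ c, y c g = L c g := by
    intro c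
    simp [hy, hx, hz, Xm, Zm]
  obtain ⟨F, hF1, hF2, hF3, hF4⟩ := round_gen y hy0
  have cast_lt : ∀ (a b : ℕ), (a : ℚ) < b + 1 → a ≤ b := by
    intro a b hab
    have : a < b + 1 := by exact_mod_cast hab
    omega
  have cast_gt : ∀ (a b : ℕ), (b : ℚ) - 1 < a → b ≤ a := by
    intro a b hab
    have : (b : ℚ) < a + 1 := by linarith
    have : b < a + 1 := by exact_mod_cast this
    omega
  refine ⟨F, ?_, ?_, ?_, ?_, ?_, ?_⟩
  · intro b c
    have := (abs_lt.mp (hF1 b c)).2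
    exact cast_lt _ _ (by linarith [hyx b c, hxL b c])
  · intro c
    have := abs_lt.mp (hF1 g c)
    rw [hyg1 c] at this
    exact le_antisymm (cast_lt _ _ (by linarith [this.2])) (cast_gt _ _ (by linarith [this.1]))
  · intro c
    have := abs_lt.mp (hF1 c g)
    rw [hyg2 c] at this
    exact le_antisymm (cast_lt _ _ (by linarith [this.2])) (cast_gt _ _ (by linarith [this.1]))
  · intro b hb
    have hr1 : ∑ c, y b c ≤ (m : ℚ) - 1 :=
      (Finset.sum_le_sum fun c _ => hyx b c).trans (H.X_row hb)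
    have hc1 : ∑ c, y c b ≤ (m : ℚ) - 1 :=
      (Finset.sum_le_sum fun c _ => hyx c b).trans (H.X_col hb)
    have hr2 : (ℓ b : ℚ) ≤ ∑ c, y b c :=
      (H.Z_row ℓ hb (hℓ1 b hb) (hℓ2 b hb) (hℓ3 b hb)).trans (Finset.sum_le_sum fun c _ => hzy b c)
    have hc2 : (ℓ b : ℚ) ≤ ∑ c, y c b :=
      (H.Z_col ℓ hb (hℓ1 b hb) (hℓ2 b hb) (hℓ3 b hb)).trans (Finset.sum_le_sum fun c _ => hzy c b)
    have f2 := abs_lt.mp (hF2 b)
    have f3 := abs_lt.mp (hF3 b)
    refine ⟨?_, ?_, ?_, ?_⟩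
    · have h1 : ((∑ c, F b c : ℕ) : ℚ) < m := by linarith [f2.2]
      have h2 : (∑ c, F b c) < m := by exact_mod_cast h1
      exact h2
    · have h1 : ((∑ c, F c b : ℕ) : ℚ) < m := by linarith [f3.2]
      have h2 : (∑ c, F c b) < m := by exact_mod_cast h1
      exact h2
    · exact cast_gt _ _ (by linarith [f2.1] : (ℓ b : ℚ) - 1 < ((∑ c, F b c : ℕ) : ℚ))
    · exact cast_gt _ _ (by linarith [f3.1] : (ℓ b : ℚ) - 1 < ((∑ c, F c b : ℕ) : ℚ))
  · have f := abs_lt.mp hF4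
    exact cast_gt _ _ (by linarith [f.1] : (lo : ℚ) - 1 < ((∑ i, ∑ j, F i j : ℕ) : ℚ))
  · have f := abs_lt.mp hF4
    exact cast_lt _ _ (by linarith [f.2] : ((∑ i, ∑ j, F i j : ℕ) : ℚ) < (hi : ℚ) + 1)

end MQ94
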