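import Pool.Agent.MQ94.Leave

/-!
# Module MQ-HALL (MP_aaabe1_al, helper94): choice of one in-arc for every vertex outside `R`

Every `c ∉ R` gets an in-neighbour `φ c ∉ R`, every vertex is used at most `k` times
(`|R| = k - 1`, `k = 2, 3`), if the minimum degree is `m ≥ 3` and `n ≤ 3 m`. The array is
`F b c = if c ∉ R ∧ b = φ c then 1 else 0`.

Proof: Hall's theorem (`Finset.all_card_le_biUnion_card_iff_exists_injective`, with targets
`{(b, p) | b ∉ R, b → c, p : Fin k}`). Let `Y` be a nonempty set of vertices outside `R`, `Z` the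
set of vertices outside `R` with an arc into `Y`; we need `|Y| ≤ k |Z|`. Every `c ∈ Y` has all its
`d c ≥ m` in-neighbours in `Z ∪ R`, so `|Z| ≥ m - (k-1)`.

`k = 2`, `R = {g}`, `d g = m`. If `|Z| = m - 1` then every `c ∈ Y` has `g` as an in-neighbour, so
`|Y| ≤ m ≤ 2 (m - 1)`. If `|Z| ≥ m` and `|Y| ≥ 2 |Z| + 1`: if some `x ≠ g` is not in `Z`, then
`N⁺(x)` is disjoint from `Y`, so `n ≥ m + |Y| ≥ 3 m + 1`, a contradiction; if `Z = S \ {g}` then
`|Y| ≤ n - 1 = |Z|`.

`k = 3`, `R = {g, r₂}`. If `|Z| = m - 2` then every `c ∈ Y` has `g` as an in-neighbour, so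
`|Y| ≤ m ≤ 3 (m - 2)`. If `|Z| = m - 1` and `|Y| ≥ 3 m - 2`: there is `x ∉ R ∪ Z` (`n - 2 - (m - 1) ≥ 1`
as `n ≥ 2 m`), and `N⁺(x)` is disjoint from `Y`, so `n ≥ m + 3 m - 2 > 3 m`, a contradiction. If
`|Z| ≥ m` then `3 |Z| ≥ 3 m ≥ n ≥ |Y|`.

(`n ≥ 2 m`: an arc `a → b` has `2 m ≤ d a + d b ≤ n`.)
-/

set_option autoImplicit false

namespace MQ94

open IsLeave

namespace HallF

variable {S : Type} [Fintype S] [DecidableEq S] {L : S → S → ℕ} {d : S → ℕ} {n e τ : ℕ}

/-- the vertices outside `R` with an arc into `Y` -/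
def Zs (L : S → S → ℕ) (R Y : Finset S) : Finset S :=
  Finset.univ.filter fun b => b ∉ R ∧ ∃ c ∈ Y, L b c ≠ 0

theorem mem_Zs {R Y : Finset S} {b : S} : b ∈ Zs L R Y ↔ b ∉ R ∧ ∃ c ∈ Y, L b c ≠ 0 := by
  unfold Zs
  simp

theorem inN_sub {R Y : Finset S} {c : S} (hc : c ∈ Y) : inN L c ⊆ Zs L R Y ∪ R := by
  intro b hb
  rw [Finset.mem_union]
  by_cases hbR : b ∈ R
  · exact Or.inr hbR
  · exact Or.inl (mem_Zs.mpr ⟨hbR, c, hc, leave_mem_inN.mp hb⟩)

theorem disj_out {R Y : Finset S} {x : S} (hxR : x ∉ R) (hxZ : x ∉ Zs L R Y) :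
    Disjoint (outN L x) Y := by
  rw [Finset.disjoint_left]
  intro c hc hcY
  exact hxZ (mem_Zs.mpr ⟨hxR, c, hcY, leave_mem_outN.mp hc⟩)

theorem card_le_of_out (h : IsLeave L d n e τ) {R Y : Finset S} {x : S} (hxR : x ∉ R)
    (hxZ : x ∉ Zs L R Y) : d x + Y.card ≤ n := by
  have h1 := Finset.card_union_of_disjoint (disj_out (L := L) hxR hxZ)
  have h2 : (outN L x ∪ Y).card ≤ n := by
    rw [← h.card]
    exact Finset.card_le_univ _
  rw [h1, card_outN h] at h2
  exact h2

theorem hall (h : IsLeave L d n e τ) (m : ℕ) (hm : 3 ≤ m) (hmin : ∀ b, m ≤ d b) (hn : n ≤ 3 * m)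
    (k : ℕ) (hk : k = 2 ∨ k = 3) (R : Finset S) (hR : R.card + 1 = k) (g : S) (hg : d g = m)
    (hgR : g ∈ R) (Y : Finset S) (hY : ∀ c ∈ Y, c ∉ R) :
    Y.card ≤ (Zs L R Y).card * k := by
  rcases Y.eq_empty_or_nonempty with hY0 | ⟨c₀, hc₀⟩
  · rw [hY0]
    simp
  have hYn : Y.card + R.card ≤ n := by
    have h1 : Disjoint Y R := Finset.disjoint_left.mpr hY
    rw [← Finset.card_union_of_disjoint h1, ← h.card]
    exact Finset.card_le_univ _
  have hZu : (Zs L R Y ∪ R).card ≤ (Zs L R Y).card + R.card := Finset.card_union_le _ _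
  have hZ1 : m ≤ (Zs L R Y).card + R.card := by
    have h1 := Finset.card_le_card (inN_sub (L := L) (R := R) hc₀)
    rw [card_inN h] at h1
    have := hmin c₀
    omega
  -- `n ≥ 2 m`
  have hn2 : 2 * m ≤ n := by
    obtain ⟨b, hb⟩ := leave_exists_out h (b := g) (by omega)
    have h1 := adj h hb
    have := hmin b
    omega
  by_cases hZm : (Zs L R Y).card + R.card = m
  · -- every vertex of `Y` is an out-neighbour of `g`
    have h1 : Y ⊆ outN L g := by
      intro c hc
      have h2 := inN_sub (L := L) (R := R) hc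
      have h3 : inN L c = Zs L R Y ∪ R := by
        apply Finset.eq_of_subset_of_card_le h2
        rw [card_inN h]
        have := hmin c
        omega
      have h4 : g ∈ inN L c := by
        rw [h3]
        exact Finset.mem_union_right _ hgR
      exact leave_mem_outN.mpr (leave_mem_inN.mp h4)
    have h2 := Finset.card_le_card h1
    rw [card_outN h, hg] at h2
    rcases hk with rfl | rfl <;> omega
  · by_contra hcon
    push Not at hcon
    have hex : ¬ ∃ x, x ∉ R ∧ x ∉ Zs L R Y := by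
      rintro ⟨x, hxR, hxZ⟩
      have h1 := card_le_of_out h hxR hxZ
      have := hmin x
      rcases hk with rfl | rfl <;> omega
    push Not at hex
    have huniv : (Finset.univ : Finset S) ⊆ Zs L R Y ∪ R := by
      intro x _
      rw [Finset.mem_union]
      by_cases hxR : x ∈ R
      · exact Or.inr hxR
      · exact Or.inl (hex x hxR)
    have h1 := Finset.card_le_card huniv
    rw [Finset.card_univ, h.card] at h1
    rcases hk with rfl | rfl <;> omega

end HallF

open HallF in
theorem hallF {S : Type} [Fintype S] [DecidableEq S] {L : S → S → ℕ} {d : S → ℕ} {n e τ : ℕ}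
    (h : IsLeave L d n e τ) (m : ℕ) (hm : 3 ≤ m) (hmin : ∀ b, m ≤ d b) (hn : n ≤ 3 * m)
    (k : ℕ) (hk : k = 2 ∨ k = 3) (R : Finset S) (hR : R.card + 1 = k) (g : S) (hg : d g = m)
    (hgR : g ∈ R) :
    ∃ F : S → S → ℕ, (∀ b c, F b c ≤ L b c) ∧ (∀ b ∈ R, fo F b = 0 ∧ fi F b = 0) ∧
      (∀ b, b ∉ R → fi F b = 1) ∧ (∀ b, fo F b ≤ k) := by
  classical
  let t : {c : S // c ∉ R} → Finset (S × Fin k) := fun c =>
    Finset.univ.filter fun p => p.1 ∉ R ∧ L p.1 c.1 ≠ 0
  have hall' : ∀ s : Finset {c : S // c ∉ R}, s.card ≤ (s.biUnion t).card := by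
    intro s
    have h1 : s.biUnion t =
        (Zs L R (s.map (Function.Embedding.subtype _))) ×ˢ (Finset.univ : Finset (Fin k)) := by
      ext ⟨b, p⟩
      simp only [t, Finset.mem_biUnion, Finset.mem_filter, Finset.mem_univ, true_and,
        Finset.mem_product, and_true, mem_Zs, Finset.mem_map, Function.Embedding.coe_subtype]
      constructor
      · rintro ⟨c, hc, hb, hL⟩
        exact ⟨hb, c.1, ⟨c, hc, rfl⟩, hL⟩
      · rintro ⟨hb, _, ⟨c, hc, rfl⟩, hL⟩
        exact ⟨c, hc, hb, hL⟩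
    rw [h1, Finset.card_product, Finset.card_univ, Fintype.card_fin]
    have h2 := hall h m hm hmin hn k hk R hR g hg hgR (s.map (Function.Embedding.subtype _)) (by
      intro c hc
      rw [Finset.mem_map] at hc
      obtain ⟨c', _, rfl⟩ := hc
      exact c'.2)
    rwa [Finset.card_map] at h2
  obtain ⟨f, hf, hft⟩ := (Finset.all_card_le_biUnion_card_iff_exists_injective t).mp hall'
  have hf1 : ∀ c : {c : S // c ∉ R}, (f c).1 ∉ R ∧ L (f c).1 c.1 ≠ 0 := by
    intro c
    have := hft c
    simp only [t, Finset.mem_filter, Finset.mem_univ, true_and] at this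
    exact this
  let F : S → S → ℕ := fun b c => if hc : c ∉ R then (if (f ⟨c, hc⟩).1 = b then 1 else 0) else 0
  refine ⟨F, ?_, ?_, ?_, ?_⟩
  · intro b c
    by_cases hc : c ∉ R
    · simp only [F, dif_pos hc]
      by_cases hb : (f ⟨c, hc⟩).1 = b
      · have := (hf1 ⟨c, hc⟩).2
        rw [hb] at this
        simp only at this
        rw [if_pos hb]
        omega
      · rw [if_neg hb]
        exact Nat.zero_le _
    · simp only [F, dif_neg hc]
      exact Nat.zero_le _
  · intro b hb
    constructor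
    · unfold fo
      apply Finset.sum_eq_zero
      intro c _
      by_cases hc : c ∉ R
      · simp only [F, dif_pos hc]
        rw [if_neg]
        intro hb'
        exact (hf1 ⟨c, hc⟩).1 (hb' ▸ hb)
      · simp only [F, dif_neg hc]
    · unfold fi
      apply Finset.sum_eq_zero
      intro x _
      simp only [F]
      rw [dif_neg (by simpa using hb)]
  · intro b hb
    unfold fi
    simp only [F, dif_pos hb]
    rw [Finset.sum_ite_eq]
    simp
  · intro b
    unfold fo
    have h1 : ∀ c, F b c = if c ∈ (Finset.univ.filter fun c => F b c ≠ 0) then 1 else 0 := by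
      intro c
      simp only [Finset.mem_filter, Finset.mem_univ, true_and]
      simp only [F]
      split_ifs <;> simp_all
    rw [Finset.sum_congr rfl fun c _ => h1 c, Finset.sum_ite_mem, Finset.univ_inter,
      Finset.sum_const, smul_eq_mul, mul_one]
    have h2 : ∀ c ∈ (Finset.univ.filter fun c => F b c ≠ 0), ∃ hc : c ∉ R, (f ⟨c, hc⟩).1 = b := by
      intro c hc
      simp only [Finset.mem_filter, Finset.mem_univ, true_and] at hc
      by_contra hno
      apply hc
      by_cases h3 : c ∉ R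
      · simp only [F, dif_pos h3]
        rw [if_neg]
        intro h4
        exact hno ⟨h3, h4⟩
      · simp only [F, dif_neg h3]
    have h3 : (Finset.univ.filter fun c => F b c ≠ 0).card ≤
        (Finset.univ : Finset (Fin k)).card := by
      refine Finset.card_le_card_of_injOn
        (fun c => if hc : c ∉ R then (f ⟨c, hc⟩).2 else ⟨0, by omega⟩) (fun _ _ => Finset.mem_univ _) ?_
      intro c hc c' hc' heq
      obtain ⟨a1, a2⟩ := h2 c hc
      obtain ⟨b1, b2⟩ := h2 c' hc'
      simp only [dif_pos a1, dif_pos b1] at heq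
      have h5 : f ⟨c, a1⟩ = f ⟨c', b1⟩ := Prod.ext (a2.trans b2.symm) heq
      have h6 := hf h5
      exact congrArg Subtype.val h6
    rwa [Finset.card_univ, Fintype.card_fin] at h3

end MQ94
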