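import Pool.Agent.MQ94.ThmE
import Pool.Agent.MQ94.Batch

/-!
# Module MQ-KMAIN (MP_aaabe1_al, helper94): `m` classes which isolate a vertex of degree `m`

State of level `2 r + m` on `V` (`N` vertices, all multiplicities `1`, arcs `a`, degrees `dd`).
`F ≤ a` contains all arcs at `g`, `dd g = m`, and has degrees at most `m`. Decompose
`F = ∑_{j : Fin m} M j` by `eqdec` (rows and columns of `M j` at most `1`, `tot (M j) ≥ s`), apply
`batch_step` (with `i = 2 r`) and then `thmE_hub` to `V ⊕ Fin m`, `μ = 1`, `bArcs a M`, isolated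
vertex `inl g`, hub `h = inr ⟨0, _⟩` and
`δ (inl b) = 2 r + (fo F b + fi F b) - dd b - m`, `δ (inr j) = 2 r + 1 + tot (M j) - N - m`.

`g` is isolated: `fo F g = m = ∑_j fo (M j) g` with all terms at most `1`, so `fo (M j) g = 1`,
the same for `fi`; and `F g c = a g c`.
Rows: `fo (bArcs a M) (inl b) = (dd b - fo F b) + ∑_j (1 - fi (M j) b) = dd b - fo F b + m - fi F b`;
`fo (bArcs a M) (inr j) = ∑_b (1 - fo (M j) b) + (m - 1) = N - tot (M j) + m - 1`; columns the same.
Count: `∑ δ = 2 r N + 2 tot F - tot a - m N + m (2 r + 1) + tot F - m N - m²`, so `hcount` is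
the count hypothesis of `thmE_hub`.
Evenness: let `(P, Q)` be closed, `h = v_0 ∉ Q`. Claim: no `v_j` is in `P` or `Q`.
 * `3 ≤ m`: `v_j → v_k` is an arc for `j ≠ k`. `v_0 ∉ Q` gives `v_j ∉ P` for `j ≠ 0`, hence
   `v_k ∉ Q` for all `k` (take `j ≠ 0, k`), hence `v_j ∉ P` for all `j`.
 * `m = 1`: `M 0 = F`, the loop number of `v_0` is positive by hypothesis, so `v_0 ∈ P ↔ v_0 ∈ Q`.
 * `2 ≤ m` and `b0 ≠ g` with `fi F b0 = 0`: `b0 → v_j` is an arc for all `j`. `v_0 ∉ Q` gives
   `b0 ∉ P`, hence `v_j ∉ Q` for all `j`, hence `v_i ∉ P` for all `i` (take `j ≠ i`).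
Then for `b ∈ P`: `b → v_j` is not an arc, so `fi (M j) b = 1` for all `j`, `fi F b = m`; for
`b ∈ Q`: `fo F b = m`. Apply `hev` to the parts of `P`, `Q` in `V` (`bArcs a M (inl b) (inl c) ≠ 0` iff
`F b c < a b c`).
-/

set_option autoImplicit false

namespace MQ94

theorem sum_sub_add {ι : Type} (s : Finset ι) (f g : ι → ℕ) (h : ∀ i ∈ s, g i ≤ f i) :
    ∑ i ∈ s, (f i - g i) + ∑ i ∈ s, g i = ∑ i ∈ s, f i := by
  rw [← Finset.sum_add_distrib]
  exact Finset.sum_congr rfl fun i hi => Nat.sub_add_cancel (h i hi)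

theorem K_main {V : Type} [Fintype V] [DecidableEq V] (a F : V → V → ℕ) (dd : V → ℕ)
    (N r m s τ : ℕ) (g : V) (hN : Fintype.card V = N) (hm : 1 ≤ m)
    (hout : ∀ b, fo a b = dd b) (hin : ∀ b, fi a b = dd b)
    (hF : ∀ b c, F b c ≤ a b c) (hFo : ∀ b, fo F b ≤ m) (hFi : ∀ b, fi F b ≤ m)
    (hg : dd g = m) (hgo : ∀ c, F g c = a g c) (hgi : ∀ c, F c g = a c g)
    (hcov : ∀ b, dd b + m ≤ 2 * r + (fo F b + fi F b))
    (hs : m * s ≤ tot F) (hs2 : N + m ≤ 2 * r + s + 1)
    (hτ : Even τ) (hτr : r ≤ 2 → τ = 0)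
    (hcount : 2 * r * N + 3 * tot F + m * (2 * r + 1) + 3 * τ + 2 * r
      = 2 * r * (2 * r) + tot a + 2 * m * N + m * m)
    (hlink : 3 ≤ m ∨ (m = 1 ∧ N + m < 2 * r + tot F + 1) ∨
      (2 ≤ m ∧ ∃ b0, b0 ≠ g ∧ fi F b0 = 0))
    (hev : ∀ P Q : Finset V, g ∉ P → g ∉ Q → (∀ b ∈ P, fi F b = m) → (∀ b ∈ Q, fo F b = m) →
      (∀ b c, F b c < a b c → (b ∈ P ↔ c ∈ Q)) →
      (∀ b, b ≠ g → dd b + m < 2 * r + (fo F b + fi F b) → (b ∈ P ↔ b ∈ Q)) →
      Even (∑ b ∈ P, (2 * r + (fo F b + fi F b) - dd b - m))) :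
    TriDec (lev (2 * r + m) (fun _ => 1) a) := by
  classical
  obtain ⟨M, hMs, hMr, hMc, hMt⟩ := eqdec m F s hm hFo hFi hs
  have hMr' : ∀ j b, fo (M j) b ≤ 1 := hMr
  have hMc' : ∀ j b, fi (M j) b ≤ 1 := hMc
  have hMt' : ∀ j, s ≤ tot (M j) := hMt
  have hfo : ∀ b, ∑ j, fo (M j) b = fo F b := by
    intro b
    unfold fo
    rw [Finset.sum_comm]
    exact Finset.sum_congr rfl fun c _ => hMs b c
  have hfi : ∀ b, ∑ j, fi (M j) b = fi F b := by
    intro b
    unfold fi
    rw [Finset.sum_comm]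
    exact Finset.sum_congr rfl fun c _ => hMs c b
  have htot : ∑ j, tot (M j) = tot F := by
    simp only [tot_eq_sum_fo]
    rw [Finset.sum_comm]
    exact Finset.sum_congr rfl fun b _ => hfo b
  have hsub : ∀ b c, ∑ j, M j b c ≤ a b c := fun b c => by rw [hMs]; exact hF b c
  refine batch_step (2 * r) m a M hsub hMr' hMc' ?_
  -- row and column sums of the new arcs
  have hm1 : ∀ j : Fin m, ∑ i : Fin m, (if j = i then 0 else 1) + 1 = m := by
    intro j
    have h1 : ∑ i : Fin m, (if j = i then 0 else 1) + ∑ i : Fin m, (if j = i then 1 else 0)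
        = ∑ _i : Fin m, 1 := by
      rw [← Finset.sum_add_distrib]
      refine Finset.sum_congr rfl fun i _ => ?_
      split_ifs <;> rfl
    simpa using h1
  have hm1' : ∀ j : Fin m, ∑ i : Fin m, (if i = j then 0 else 1) + 1 = m := by
    intro j
    refine Eq.trans ?_ (hm1 j)
    congr 1
    refine Finset.sum_congr rfl fun i _ => ?_
    by_cases h : i = j
    · subst h; simp
    · rw [if_neg h, if_neg (fun h' => h h'.symm)]
  have hone : ∀ f : Fin m → ℕ, (∀ j, f j ≤ 1) → ∑ j, (1 - f j) + ∑ j, f j = m := by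
    intro f hf
    rw [sum_sub_add Finset.univ (fun _ => 1) f fun j _ => hf j]
    simp
  have honeV : ∀ f : V → ℕ, (∀ b, f b ≤ 1) → ∑ b, (1 - f b) + ∑ b, f b = N := by
    intro f hf
    rw [sum_sub_add Finset.univ (fun _ => 1) f fun j _ => hf j]
    simp [hN]
  have hfoL : ∀ b, fo (bArcs a M) (Sum.inl b) + fo F b + fi F b = dd b + m := by
    intro b
    have h1 : fo (bArcs a M) (Sum.inl b) = ∑ c, (a b c - F b c) + ∑ j, (1 - fi (M j) b) := by
      unfold fo
      rw [Fintype.sum_sum_type]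
      congr 1
      exact Finset.sum_congr rfl fun c _ => by
        show a b c - ∑ j, M j b c = _
        rw [hMs]
    have h2 := sum_sub_add Finset.univ (fun c => a b c) (fun c => F b c) fun c _ => hF b c
    have h3 := hone (fun j => fi (M j) b) fun j => hMc' j b
    have h4 := hfi b
    have h5 := hout b
    have h6 : ∑ c, F b c = fo F b := rfl
    have h7 : ∑ c, a b c = fo a b := rfl
    omega
  have hfiL : ∀ b, fi (bArcs a M) (Sum.inl b) + fo F b + fi F b = dd b + m := by
    intro b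
    have h1 : fi (bArcs a M) (Sum.inl b) = ∑ c, (a c b - F c b) + ∑ j, (1 - fo (M j) b) := by
      unfold fi
      rw [Fintype.sum_sum_type]
      congr 1
      exact Finset.sum_congr rfl fun c _ => by
        show a c b - ∑ j, M j c b = _
        rw [hMs]
    have h2 := sum_sub_add Finset.univ (fun c => a c b) (fun c => F c b) fun c _ => hF c b
    have h3 := hone (fun j => fo (M j) b) fun j => hMr' j b
    have h4 := hfo b
    have h5 := hin b
    have h6 : ∑ c, F c b = fi F b := rfl
    have h7 : ∑ c, a c b = fi a b := rfl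
    omega
  have hfoR : ∀ j, fo (bArcs a M) (Sum.inr j) + tot (M j) + 1 = N + m := by
    intro j
    have h1 : fo (bArcs a M) (Sum.inr j)
        = ∑ b, (1 - fo (M j) b) + ∑ i : Fin m, (if j = i then 0 else 1) := by
      unfold fo
      rw [Fintype.sum_sum_type]
      rfl
    have h2 := honeV (fun b => fo (M j) b) fun b => hMr' j b
    have h3 := hm1 j
    have h4 : tot (M j) = ∑ b, fo (M j) b := rfl
    omega
  have hfiR : ∀ j, fi (bArcs a M) (Sum.inr j) + tot (M j) + 1 = N + m := by
    intro j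
    have h1 : fi (bArcs a M) (Sum.inr j)
        = ∑ b, (1 - fi (M j) b) + ∑ i : Fin m, (if i = j then 0 else 1) := by
      unfold fi
      rw [Fintype.sum_sum_type]
      rfl
    have h2 := honeV (fun b => fi (M j) b) fun b => hMc' j b
    have h3 := hm1' j
    have h4 : tot (M j) = ∑ b, fi (M j) b := tot_eq_sum_fi _
    omega
  -- loops
  set δ : V ⊕ Fin m → ℕ := Sum.elim (fun b => 2 * r + (fo F b + fi F b) - dd b - m)
    (fun j => 2 * r + 1 + tot (M j) - N - m) with hδ
  have hδL : ∀ b, δ (Sum.inl b) = 2 * r + (fo F b + fi F b) - dd b - m := fun b => rfl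
  have hδR : ∀ j, δ (Sum.inr j) = 2 * r + 1 + tot (M j) - N - m := fun j => rfl
  have hδL' : ∀ b, δ (Sum.inl b) + dd b + m = 2 * r + (fo F b + fi F b) := by
    intro b
    rw [hδL]
    have := hcov b
    omega
  have hδR' : ∀ j, δ (Sum.inr j) + N + m = 2 * r + 1 + tot (M j) := by
    intro j
    rw [hδR]
    have := hMt' j
    omega
  have hmpos : 0 < m := hm
  refine thmE_hub r (fun _ => 1) (bArcs a M) δ (Sum.inl g) (Sum.inr ⟨0, hmpos⟩) τ
    (by simp) rfl ?_ ?_ ?_ ?_ hτ hτr ?_ ?_
  · -- g has no out-arcs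
    have hfgo : ∀ j, fi (M j) g = 1 := by
      have h1 : ∑ j, fi (M j) g = m := by
        rw [hfi g]
        have : fi F g = fi a g := Finset.sum_congr rfl fun b _ => hgi b
        rw [this, hin g, hg]
      have h2 := hone (fun j => fi (M j) g) fun j => hMc' j g
      have h3 : ∑ j, (1 - fi (M j) g) = 0 := by omega
      intro j
      have h4 := Finset.sum_eq_zero_iff.1 h3 j (Finset.mem_univ j)
      have h5 := hMc' j g
      omega
    rintro (c | j)
    · show a g c - ∑ j, M j g c = 0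
      rw [hMs, hgo]
      omega
    · show 1 - fi (M j) g = 0
      rw [hfgo j]
  · have hfgi : ∀ j, fo (M j) g = 1 := by
      have h1 : ∑ j, fo (M j) g = m := by
        rw [hfo g]
        have : fo F g = fo a g := Finset.sum_congr rfl fun b _ => hgo b
        rw [this, hout g, hg]
      have h2 := hone (fun j => fo (M j) g) fun j => hMr' j g
      have h3 : ∑ j, (1 - fo (M j) g) = 0 := by omega
      intro j
      have h4 := Finset.sum_eq_zero_iff.1 h3 j (Finset.mem_univ j)
      have h5 := hMr' j g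
      omega
    rintro (c | j)
    · show a c g - ∑ j, M j c g = 0
      rw [hMs, hgi]
      omega
    · show 1 - fo (M j) g = 0
      rw [hfgi j]
  · rintro (b | j)
    · have h1 := hfoL b
      have h2 := hδL' b
      omega
    · have h1 := hfoR j
      have h2 := hδR' j
      omega
  · rintro (b | j)
    · have h1 := hfiL b
      have h2 := hδL' b
      omega
    · have h1 := hfiR j
      have h2 := hδR' j
      omega
  · -- count
    rw [Fintype.sum_sum_type]
    have h1 : ∑ b, δ (Sum.inl b) + tot a + N * m = N * (2 * r) + (tot F + tot F) := by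
      have h2 : ∑ b, (δ (Sum.inl b) + dd b + m) = ∑ b : V, (2 * r + (fo F b + fi F b)) :=
        Finset.sum_congr rfl fun b _ => hδL' b
      simp only [Finset.sum_add_distrib, Finset.sum_const, Finset.card_univ, hN, smul_eq_mul] at h2
      have h3 : ∑ b, dd b = tot a := by
        rw [tot_eq_sum_fo]
        exact (Finset.sum_congr rfl fun b _ => (hout b).symm)
      have h4 : ∑ b, fi F b = tot F := (tot_eq_sum_fi F).symm
      have h5 : ∑ b, fo F b = tot F := rfl
      rw [h3, h4, h5] at h2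
      exact h2
    have h6 : ∑ j, δ (Sum.inr j) + m * N + m * m = m * (2 * r + 1) + tot F := by
      have h2 : ∑ j, (δ (Sum.inr j) + N + m) = ∑ j : Fin m, (2 * r + 1 + tot (M j)) :=
        Finset.sum_congr rfl fun j _ => hδR' j
      simp only [Finset.sum_add_distrib, Finset.sum_const, Finset.card_univ, Fintype.card_fin,
        smul_eq_mul] at h2
      rw [htot] at h2
      linarith
    linarith [mul_comm N m, mul_comm N (2 * r)]
  · -- evenness
    intro P Q hPQ hhub
    obtain ⟨hgP, hgQ, harc, hloop⟩ := hPQ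
    have hvv : ∀ i j : Fin m, i ≠ j → ((Sum.inr i : V ⊕ Fin m) ∈ P ↔ (Sum.inr j : V ⊕ Fin m) ∈ Q) := by
      intro i j hij
      refine harc _ _ ?_
      show (if i = j then 0 else 1) ≠ 0
      rw [if_neg hij]
      exact one_ne_zero
    have hbv : ∀ b j, fi (M j) b = 0 → ((Sum.inl b : V ⊕ Fin m) ∈ P ↔ (Sum.inr j : V ⊕ Fin m) ∈ Q) := by
      intro b j h0
      refine harc _ _ ?_
      show 1 - fi (M j) b ≠ 0
      rw [h0]
      exact one_ne_zero
    have hvb : ∀ b j, fo (M j) b = 0 → ((Sum.inr j : V ⊕ Fin m) ∈ P ↔ (Sum.inl b : V ⊕ Fin m) ∈ Q) := by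
      intro b j h0
      refine harc _ _ ?_
      show 1 - fo (M j) b ≠ 0
      rw [h0]
      exact one_ne_zero
    have hv : ∀ j : Fin m, (Sum.inr j : V ⊕ Fin m) ∉ P ∧ (Sum.inr j : V ⊕ Fin m) ∉ Q := by
      rcases hlink with h3 | ⟨h1, h2⟩ | ⟨h2, b0, hb0, hb0'⟩
      · -- m ≥ 3
        have hP0 : ∀ j : Fin m, j ≠ ⟨0, hmpos⟩ → (Sum.inr j : V ⊕ Fin m) ∉ P := fun j hj hjP =>
          hhub ((hvv j _ hj).1 hjP)
        have hQ : ∀ j : Fin m, (Sum.inr j : V ⊕ Fin m) ∉ Q := by
          intro k hk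
          -- choose j different from 0 and k
          obtain ⟨j, hj0, hjk⟩ : ∃ j : Fin m, j ≠ ⟨0, hmpos⟩ ∧ j ≠ k := by
            by_cases hk1 : k = ⟨1, by omega⟩
            · refine ⟨⟨2, by omega⟩, ?_, ?_⟩
              · simp
              · rw [hk1]; simp
            · exact ⟨⟨1, by omega⟩, by simp, fun h => hk1 h.symm⟩
          exact hP0 j hj0 ((hvv j k hjk).2 hk)
        intro j
        refine ⟨fun hj => ?_, hQ j⟩
        obtain ⟨k, hk⟩ : ∃ k : Fin m, j ≠ k := by
          by_cases hj1 : j = ⟨1, by omega⟩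
          · exact ⟨⟨0, hmpos⟩, by rw [hj1]; simp⟩
          · exact ⟨⟨1, by omega⟩, hj1⟩
        exact hQ k ((hvv j k hk).1 hj)
      · -- m = 1
        have hj0 : ∀ j : Fin m, j = ⟨0, hmpos⟩ := by
          intro j
          ext
          have := j.2
          show (j : ℕ) = 0
          omega
        have htj : tot (M ⟨0, hmpos⟩) = tot F := by
          rw [← htot]
          have : ∀ f : Fin m → ℕ, ∑ j, f j = f ⟨0, hmpos⟩ := by
            subst h1
            intro f
            simp
          rw [this]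
        have hδ0 : δ (Sum.inr ⟨0, hmpos⟩) ≠ 0 := by
          rw [hδR, htj]
          omega
        have h3 := hloop (Sum.inr ⟨0, hmpos⟩) (by simp) hδ0
        intro j
        rw [hj0 j]
        exact ⟨fun h => hhub (h3.1 h), hhub⟩
      · -- b0
        have hb0j : ∀ j, fi (M j) b0 = 0 := by
          intro j
          have h3 : ∑ j, fi (M j) b0 = 0 := by rw [hfi, hb0']
          exact Finset.sum_eq_zero_iff.1 h3 j (Finset.mem_univ j)
        have hbP : (Sum.inl b0 : V ⊕ Fin m) ∉ P := fun h => hhub ((hbv b0 _ (hb0j _)).1 h)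
        have hQ : ∀ j : Fin m, (Sum.inr j : V ⊕ Fin m) ∉ Q := fun j hj =>
          hbP ((hbv b0 j (hb0j j)).2 hj)
        intro j
        refine ⟨fun hj => ?_, hQ j⟩
        obtain ⟨k, hk⟩ : ∃ k : Fin m, j ≠ k := by
          by_cases hj1 : j = ⟨1, by omega⟩
          · exact ⟨⟨0, hmpos⟩, by rw [hj1]; simp⟩
          · exact ⟨⟨1, by omega⟩, hj1⟩
        exact hQ k ((hvv j k hk).1 hj)
    -- parts in V
    have hsumP : ∑ x ∈ P, δ x
        = ∑ b ∈ Finset.univ.filter (fun b : V => (Sum.inl b : V ⊕ Fin m) ∈ P),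
          (2 * r + (fo F b + fi F b) - dd b - m) := by
      have h1 : ∑ x ∈ P, δ x = ∑ x, if x ∈ P then δ x else 0 := by
        rw [← Finset.sum_filter]
        congr 1
        ext x
        simp
      rw [h1, Fintype.sum_sum_type, Finset.sum_filter]
      have h2 : ∑ j : Fin m, (if (Sum.inr j : V ⊕ Fin m) ∈ P then δ (Sum.inr j) else 0) = 0 :=
        Finset.sum_eq_zero fun j _ => if_neg (hv j).1
      rw [h2, add_zero]
      rfl
    rw [hsumP]
    refine hev _ (Finset.univ.filter (fun b : V => (Sum.inl b : V ⊕ Fin m) ∈ Q)) ?_ ?_ ?_ ?_ ?_ ?_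
    · simpa using hgP
    · simpa using hgQ
    · intro b hb
      have hbP : (Sum.inl b : V ⊕ Fin m) ∈ P := by simpa using hb
      have h1 : ∀ j, fi (M j) b = 1 := by
        intro j
        have h2 := hMc' j b
        by_contra hne
        have h0 : fi (M j) b = 0 := by omega
        exact (hv j).2 ((hbv b j h0).1 hbP)
      rw [← hfi b, Finset.sum_congr rfl fun j _ => h1 j]
      simp
    · intro b hb
      have hbQ : (Sum.inl b : V ⊕ Fin m) ∈ Q := by simpa using hb
      have h1 : ∀ j, fo (M j) b = 1 := by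
        intro j
        have h2 := hMr' j b
        by_contra hne
        have h0 : fo (M j) b = 0 := by omega
        exact (hv j).1 ((hvb b j h0).2 hbQ)
      rw [← hfo b, Finset.sum_congr rfl fun j _ => h1 j]
      simp
    · intro b c hbc
      have h1 := harc (Sum.inl b) (Sum.inl c) (by
        show a b c - ∑ j, M j b c ≠ 0
        rw [hMs]
        omega)
      simpa using h1
    · intro b hb hlt
      have h1 := hloop (Sum.inl b) (by simpa using hb) (by
        rw [hδL]
        omega)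
      simpa using h1

end MQ94
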