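import Pool.Agent.MQ94.Defs

/-!
# Module MQ-LEAVE (MP_aaabe1_al, helper94): the leave and its structure

`IsLeave L d n e τ`: `L` is (the 0/1 array of) a digraph on `n` vertices without loops, with equal
out- and in-degrees `d b`, without directed triangles; `e ≤ 1`, `2 n + 1 + e ≢ 2 (mod 3)` and
`3 τ = tot L + (n + 1 + e) e`.

Proofs.
* `adjT`: (`T` contains all vertices of positive degree.) If `a → b` then `N⁺(b)` and `N⁻(a)` are
  disjoint (directed triangle `a → b → x → a`) subsets of `T`; their sizes are `d b`, `d a`.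
  `adj` is `T = univ`, `adj0` is `T = univ.erase z`.
* `deg_lt`: `N⁺(b) ⊆ S \ {b}`.
* `tightT`: if moreover `d a + d b = |T|` then `T` is the disjoint union of `N⁺(b)` and `N⁻(a)`.
* `tot_two_sq`: `2 ∑ d b² = ∑_{a → b} (d a + d b) ≤ |T| tot L`.
* `star`: suppose `g` has degree `1`, `g → x`, `y → g` and every arc has tail `g` or `y` or head `g` or
  `x`. Then `tot L` is even. Proof: first `x = y`: otherwise look at the out-arcs of `x` (there is
  one, as `x` has an in-arc): `x → c` has tail `≠ g` (`x ≠ g`), `≠ y`, so `c = g` or `c = x`; `c = x` is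
  a loop and `x → g` forces `x = y`. So every arc is incident with `x`: an arc `b → c` has
  `b = x` or `c = x` (`b = g` means `c = x`, `c = g` means `b = y = x`). Hence
  `tot L = fo L x + fi L x = 2 d x`.
* `bip`: `T ⊇` vertices of positive degree, all degrees in `T` are at least `m ≥ 1`, `u ∈ T`,
  `d u + m = |T|`. Let `X = N⁺(u)`. For `x ∈ X`: `m ≤ d x ≤ |T| - d u = m`, so the arc `u → x` is tight:
  for `y ∈ T`: `x → y ↔ ¬ (y → u)`. As `¬ (u → u)`, `x → u`. So `N⁺(u) ⊆ N⁻(u)`, and both have
  `d u` elements, so they are equal: for `x ∈ X`, `y ∈ T`: `x → y ↔ y ∉ X`. Let `y ∈ T \ X`; all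
  `x ∈ X` are in `N⁻(y)`, so `d y ≥ |X| = |T| - m`, and `d x + d y ≤ |T|` gives equality; so
  `N⁻(y) = X`. The arc `x → y` is tight: for `z ∈ T`: `y → z ↔ ¬ (z → x)`; for `z ∈ X`:
  `z → x` is false as `x ∈ X`, so `y → z`; `N⁺(y) ⊇ X`, equality by the sizes. Hence for
  `b, c ∈ T`: `b → c` iff exactly one of `b, c` is in `X`.
* `three`: if all arcs are inside a set `T` with at most three elements and `3 ∣ tot L`, then `L = 0`.
  Proof: by `adjT`, `a → b` implies `d a + d b ≤ 3`. `tot_two_sq`: `2 ∑ d² ≤ 3 ∑ d`, so
  `∑ d (2 d - 3) ≤ 0` with `d ≤ 2`; the terms are `0, -1, 2` for `d = 0, 1, 2`; `∑ d ∈ {0, 3, 6}` with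
  three vertices: `(2,1,0)` gives `1 > 0`, `(1,1,1)`: then all out-degrees are `1` on three vertices,
  without loops; if `a → b → a` then the third vertex has no partner; so it is a directed triangle;
  `(2,2,2)` gives `6 > 0`. (In Lean it may be easier to name the three elements and do a case
  analysis on the six entries of `L`, each `0` or `1`; `tri` gives
  `L a b + L b c + L c a ≤ 2`, all constraints are linear.)
-/

set_option autoImplicit false

namespace MQ94

structure IsLeave {S : Type} [Fintype S] [DecidableEq S] (L : S → S → ℕ) (d : S → ℕ)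
    (n e τ : ℕ) : Prop where
  card : Fintype.card S = n
  le_one : ∀ b c, L b c ≤ 1
  irrefl : ∀ b, L b b = 0
  out : ∀ b, fo L b = d b
  inn : ∀ b, fi L b = d b
  tri : ∀ x y z, L x y ≠ 0 → L y z ≠ 0 → L z x ≠ 0 → False
  he : e ≤ 1
  hmod : (2 * n + 1 + e) % 3 ≠ 2
  hτ : 3 * τ = tot L + (n + 1 + e) * e

namespace IsLeave

variable {S : Type} [Fintype S] [DecidableEq S] {L : S → S → ℕ} {d : S → ℕ} {n e τ : ℕ}

/-- out-neighbours -/
def outN {S : Type} [Fintype S] (L : S → S → ℕ) (b : S) : Finset S :=
  Finset.univ.filter fun c => L b c ≠ 0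

/-- in-neighbours -/
def inN {S : Type} [Fintype S] (L : S → S → ℕ) (b : S) : Finset S :=
  Finset.univ.filter fun c => L c b ≠ 0

theorem card_outN (h : IsLeave L d n e τ) (b : S) : (outN L b).card = d b := by
  rw [← h.out b]
  unfold fo outN
  rw [Finset.card_filter]
  apply Finset.sum_congr rfl
  intro c _
  have := h.le_one b c
  by_cases h0 : L b c = 0
  · simp [h0]
  · rw [if_pos h0]
    omega

theorem card_inN (h : IsLeave L d n e τ) (b : S) : (inN L b).card = d b := by
  rw [← h.inn b]
  unfold fi inN
  rw [Finset.card_filter]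
  apply Finset.sum_congr rfl
  intro c _
  have := h.le_one c b
  by_cases h0 : L c b = 0
  · simp [h0]
  · rw [if_pos h0]
    omega

theorem leave_mem_outN {b c : S} : c ∈ outN L b ↔ L b c ≠ 0 := by
  unfold outN
  simp

theorem leave_mem_inN {b c : S} : c ∈ inN L b ↔ L c b ≠ 0 := by
  unfold inN
  simp

theorem leave_pos_left (h : IsLeave L d n e τ) {a b : S} (hab : L a b ≠ 0) : 1 ≤ d a := by
  rw [← h.out a]
  have := le_fo L a b
  omega

theorem leave_pos_right (h : IsLeave L d n e τ) {a b : S} (hab : L a b ≠ 0) : 1 ≤ d b := by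
  rw [← h.inn b]
  have := le_fi L a b
  omega

theorem leave_outN_sub (h : IsLeave L d n e τ) (T : Finset S) (hT : ∀ b, b ∉ T → d b = 0)
    (b : S) : outN L b ⊆ T := by
  intro x hx
  by_contra hxT
  have h1 := leave_pos_right h (leave_mem_outN.mp hx)
  have h2 := hT x hxT
  omega

theorem leave_inN_sub (h : IsLeave L d n e τ) (T : Finset S) (hT : ∀ b, b ∉ T → d b = 0)
    (b : S) : inN L b ⊆ T := by
  intro x hx
  by_contra hxT
  have h1 := leave_pos_left h (leave_mem_inN.mp hx)
  have h2 := hT x hxT
  omega

theorem leave_disj (h : IsLeave L d n e τ) {a b : S} (hab : L a b ≠ 0) :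
    Disjoint (outN L b) (inN L a) := by
  rw [Finset.disjoint_left]
  intro x hx hx'
  exact h.tri a b x hab (leave_mem_outN.mp hx) (leave_mem_inN.mp hx')

theorem adjT (h : IsLeave L d n e τ) (T : Finset S) (hT : ∀ b, b ∉ T → d b = 0) {a b : S}
    (hab : L a b ≠ 0) : d a + d b ≤ T.card := by
  have h1 : outN L b ∪ inN L a ⊆ T :=
    Finset.union_subset (leave_outN_sub h T hT b) (leave_inN_sub h T hT a)
  have h2 := Finset.card_le_card h1
  rw [Finset.card_union_of_disjoint (leave_disj h hab), card_outN h, card_inN h] at h2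
  omega

theorem adj (h : IsLeave L d n e τ) {a b : S} (hab : L a b ≠ 0) : d a + d b ≤ n := by
  have h1 := adjT h Finset.univ (fun b hb => absurd (Finset.mem_univ b) hb) hab
  rw [Finset.card_univ, h.card] at h1
  exact h1

theorem adj0 (h : IsLeave L d n e τ) {z : S} (hz : d z = 0) {a b : S} (hab : L a b ≠ 0) :
    d a + d b + 1 ≤ n := by
  have h1 := adjT h (Finset.univ.erase z) (by
    intro b hb
    by_cases hbz : b = z
    · rw [hbz]
      exact hz
    · exact absurd (Finset.mem_erase.mpr ⟨hbz, Finset.mem_univ b⟩) hb) hab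
  have h2 := Finset.card_erase_add_one (Finset.mem_univ z)
  rw [Finset.card_univ, h.card] at h2
  omega

theorem deg_lt (h : IsLeave L d n e τ) (b : S) : d b < n := by
  have h1 : outN L b ⊆ Finset.univ.erase b := by
    intro x hx
    refine Finset.mem_erase.mpr ⟨?_, Finset.mem_univ x⟩
    intro hxb
    rw [hxb] at hx
    exact leave_mem_outN.mp hx (h.irrefl b)
  have h2 := Finset.card_le_card h1
  have h3 := Finset.card_erase_add_one (Finset.mem_univ b)
  rw [Finset.card_univ, h.card] at h3
  rw [card_outN h] at h2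
  omega

theorem pos_left (h : IsLeave L d n e τ) {a b : S} (hab : L a b ≠ 0) : 1 ≤ d a :=
  leave_pos_left h hab

theorem pos_right (h : IsLeave L d n e τ) {a b : S} (hab : L a b ≠ 0) : 1 ≤ d b :=
  leave_pos_right h hab

theorem tightT (h : IsLeave L d n e τ) (T : Finset S) (hT : ∀ b, b ∉ T → d b = 0) {a b : S}
    (hab : L a b ≠ 0) (hs : d a + d b = T.card) {x : S} (hx : x ∈ T) :
    L b x ≠ 0 ↔ L x a = 0 := by
  constructor
  · intro h1
    by_contra h2
    exact h.tri a b x hab h1 h2
  · intro h1
    have h2 : outN L b ∪ inN L a ⊆ T :=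
      Finset.union_subset (leave_outN_sub h T hT b) (leave_inN_sub h T hT a)
    have h3 : outN L b ∪ inN L a = T := by
      apply Finset.eq_of_subset_of_card_le h2
      rw [Finset.card_union_of_disjoint (leave_disj h hab), card_outN h, card_inN h]
      omega
    rw [← h3, Finset.mem_union] at hx
    rcases hx with hx | hx
    · exact leave_mem_outN.mp hx
    · exact absurd h1 (leave_mem_inN.mp hx)

theorem tot_two_sq (h : IsLeave L d n e τ) (T : Finset S) (hT : ∀ b, b ∉ T → d b = 0) :
    2 * ∑ b, d b * d b ≤ T.card * tot L := by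
  have e1 : ∑ a, ∑ b, L a b * d a = ∑ a, d a * d a := by
    apply Finset.sum_congr rfl
    intro a _
    rw [← Finset.sum_mul]
    have := h.out a
    unfold fo at this
    rw [this]
  have e2 : ∑ a, ∑ b, L a b * d b = ∑ a, d a * d a := by
    rw [Finset.sum_comm]
    apply Finset.sum_congr rfl
    intro a _
    rw [← Finset.sum_mul]
    have := h.inn a
    unfold fi at this
    rw [this]
  have e3 : 2 * ∑ b, d b * d b = ∑ a, ∑ b, L a b * (d a + d b) := by
    simp only [mul_add, Finset.sum_add_distrib]
    rw [e1, e2]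
    ring
  rw [e3]
  unfold tot
  rw [Finset.mul_sum]
  apply Finset.sum_le_sum
  intro a _
  rw [Finset.mul_sum]
  apply Finset.sum_le_sum
  intro b _
  by_cases hab : L a b = 0
  · simp [hab]
  · rw [mul_comm]
    exact Nat.mul_le_mul_right _ (adjT h T hT hab)

theorem leave_two_out (h : IsLeave L d n e τ) {g x y : S} (hg : d g = 1) (hx : L g x ≠ 0)
    (hy : L g y ≠ 0) : x = y := by
  have h1 := card_outN h g
  rw [hg, Finset.card_eq_one] at h1
  obtain ⟨z, hz⟩ := h1
  have hx' : x ∈ outN L g := leave_mem_outN.mpr hx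
  have hy' : y ∈ outN L g := leave_mem_outN.mpr hy
  rw [hz, Finset.mem_singleton] at hx' hy'
  rw [hx', hy']

theorem leave_two_in (h : IsLeave L d n e τ) {g x y : S} (hg : d g = 1) (hx : L x g ≠ 0)
    (hy : L y g ≠ 0) : x = y := by
  have h1 := card_inN h g
  rw [hg, Finset.card_eq_one] at h1
  obtain ⟨z, hz⟩ := h1
  have hx' : x ∈ inN L g := leave_mem_inN.mpr hx
  have hy' : y ∈ inN L g := leave_mem_inN.mpr hy
  rw [hz, Finset.mem_singleton] at hx' hy'
  rw [hx', hy']

theorem leave_exists_out (h : IsLeave L d n e τ) {b : S} (hb : 1 ≤ d b) :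
    ∃ c, L b c ≠ 0 := by
  rw [← card_outN h b] at hb
  obtain ⟨c, hc⟩ := Finset.card_pos.mp hb
  exact ⟨c, leave_mem_outN.mp hc⟩

theorem star (h : IsLeave L d n e τ) {g x y : S} (hg : d g = 1) (hx : L g x ≠ 0)
    (hy : L y g ≠ 0) (hno : ∀ b c, L b c ≠ 0 → b = g ∨ b = y ∨ c = g ∨ c = x) :
    Even (tot L) := by
  have hxg : x ≠ g := by
    intro e
    rw [e] at hx
    exact hx (h.irrefl g)
  have hxy : x = y := by
    by_contra hne
    obtain ⟨c, hc⟩ := leave_exists_out h (leave_pos_right h hx)
    rcases hno x c hc with e | e | e | e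
    · exact hxg e
    · exact hne e
    · rw [e] at hc
      exact hne (leave_two_in h hg hc hy)
    · rw [e] at hc
      exact hc (h.irrefl x)
  have hinc : ∀ b c, L b c ≠ 0 → b = x ∨ c = x := by
    intro b c hbc
    rcases hno b c hbc with e | e | e | e
    · right
      rw [e] at hbc
      exact leave_two_out h hg hbc hx
    · left
      rw [hxy]
      exact e
    · left
      rw [e] at hbc
      rw [hxy]
      exact leave_two_in h hg hbc hy
    · exact Or.inr e
  have key : ∀ b c, L b c = (if b = x then L x c else 0) + (if c = x then L b x else 0) := by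
    intro b c
    by_cases hb : b = x
    · by_cases hc : c = x
      · rw [hb, hc, h.irrefl x]
        simp
      · rw [hb, if_pos rfl, if_neg hc, add_zero]
    · by_cases hc : c = x
      · rw [hc, if_neg hb, if_pos rfl, zero_add]
      · rw [if_neg hb, if_neg hc]
        by_contra h0
        rcases hinc b c h0 with e | e
        · exact hb e
        · exact hc e
  have ht : tot L = fo L x + fi L x := by
    have : tot L = ∑ b, ∑ c, ((if b = x then L x c else 0) + (if c = x then L b x else 0)) := by
      unfold tot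
      apply Finset.sum_congr rfl
      intro b _
      apply Finset.sum_congr rfl
      intro c _
      exact key b c
    rw [this]
    simp only [Finset.sum_add_distrib]
    congr 1
    · rw [Finset.sum_comm]
      unfold fo
      apply Finset.sum_congr rfl
      intro c _
      simp
    · unfold fi
      apply Finset.sum_congr rfl
      intro b _
      simp
  rw [ht, h.out x, h.inn x]
  exact ⟨d x, rfl⟩

theorem bip (h : IsLeave L d n e τ) (T : Finset S) (hT : ∀ b, b ∉ T → d b = 0) (m : ℕ)
    (hm : 1 ≤ m) (hmin : ∀ b ∈ T, m ≤ d b) {u : S} (hu : u ∈ T) (hdu : d u + m = T.card) :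
    ∃ X : Finset S, X ⊆ T ∧ X.card + m = T.card ∧ u ∉ X ∧
      (∀ b ∈ T, ∀ c ∈ T, (L b c ≠ 0 ↔ (b ∈ X ↔ c ∉ X))) ∧
      (∀ b ∈ X, d b = m) ∧ (∀ b ∈ T, b ∉ X → d b + m = T.card) := by
  have hXT : outN L u ⊆ T := leave_outN_sub h T hT u
  have hdX : ∀ x ∈ outN L u, d x = m := by
    intro x hx
    have h1 := adjT h T hT (leave_mem_outN.mp hx)
    have h2 := hmin x (hXT hx)
    omega
  -- out-neighbours of u are in-neighbours
  have hsub : outN L u ⊆ inN L u := by
    intro x hx
    have h1 := adjT h T hT (leave_mem_outN.mp hx)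
    have h2 := hdX x hx
    have h3 := (tightT h T hT (leave_mem_outN.mp hx) (by omega) hu).mpr (h.irrefl u)
    exact leave_mem_inN.mpr h3
  have hXeq : outN L u = inN L u := by
    apply Finset.eq_of_subset_of_card_le hsub
    rw [card_outN h, card_inN h]
  -- from x in X
  have hX : ∀ x ∈ outN L u, ∀ y ∈ T, (L x y ≠ 0 ↔ y ∉ outN L u) := by
    intro x hx y hy
    have h2 := hdX x hx
    rw [tightT h T hT (leave_mem_outN.mp hx) (by omega) hy, hXeq, leave_mem_inN, not_not]
  -- y outside X
  have hin : ∀ y ∈ T, y ∉ outN L u → d y + m = T.card ∧ inN L y = outN L u := by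
    intro y hy hyX
    have h1 : outN L u ⊆ inN L y := by
      intro x hx
      exact leave_mem_inN.mpr ((hX x hx y hy).mpr hyX)
    have h2 := Finset.card_le_card h1
    rw [card_outN h, card_inN h] at h2
    have hne : (outN L u).Nonempty := by
      rw [← Finset.card_pos, card_outN h]
      have := hmin u hu
      omega
    obtain ⟨x, hx⟩ := hne
    have h3 := adjT h T hT ((hX x hx y hy).mpr hyX)
    have h4 := hdX x hx
    refine ⟨by omega, ?_⟩
    symm
    apply Finset.eq_of_subset_of_card_le h1
    rw [card_outN h, card_inN h]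
    omega
  have hout : ∀ y ∈ T, y ∉ outN L u → outN L y = outN L u := by
    intro y hy hyX
    obtain ⟨h1, h2⟩ := hin y hy hyX
    have hne : (outN L u).Nonempty := by
      rw [← Finset.card_pos, card_outN h]
      have := hmin u hu
      omega
    obtain ⟨x, hx⟩ := hne
    have hxy : L x y ≠ 0 := (hX x hx y hy).mpr hyX
    have h3 := hdX x hx
    have h4 : outN L u ⊆ outN L y := by
      intro z hz
      have h5 := (tightT h T hT hxy (by omega) (hXT hz)).mpr
      apply leave_mem_outN.mpr
      apply h5
      by_contra h6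
      exact (hX z hz x (hXT hx)).mp h6 hx
    symm
    apply Finset.eq_of_subset_of_card_le h4
    rw [card_outN h, card_outN h]
    omega
  refine ⟨outN L u, hXT, ?_, ?_, ?_, hdX, fun b hb hbX => (hin b hb hbX).1⟩
  · rw [card_outN h]
    exact hdu
  · intro hh
    exact leave_mem_outN.mp hh (h.irrefl u)
  · intro b hb c hc
    by_cases hbX : b ∈ outN L u
    · rw [hX b hbX c hc]
      simp [hbX]
    · have h1 := hout b hb hbX
      have h2 : L b c ≠ 0 ↔ c ∈ outN L u := by
        rw [← leave_mem_outN, h1]
      rw [h2]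
      simp [hbX]

theorem three (h : IsLeave L d n e τ) (T : Finset S) (hT : ∀ b, b ∉ T → d b = 0)
    (hc : T.card ≤ 3) (hdiv : 3 ∣ tot L) : ∀ b c, L b c = 0 := by
  have hsumT : ∀ f : S → ℕ, (∀ b, d b = 0 → f b = 0) → ∑ b, f b = ∑ b ∈ T, f b := by
    intro f hf
    symm
    apply Finset.sum_subset (Finset.subset_univ T)
    intro b _ hb
    exact hf b (hT b hb)
  have htot : tot L = ∑ b ∈ T, d b := by
    rw [tot_eq_sum_fo, ← hsumT d (fun b hb => hb)]
    apply Finset.sum_congr rfl
    intro b _
    exact h.out b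
  have hsq := tot_two_sq h T hT
  rw [hsumT (fun b => d b * d b) (fun b hb => by simp [hb]), htot] at hsq
  -- degrees are at most one
  have hd1 : ∀ b ∈ T, d b ≤ 1 := by
    intro b hb
    by_contra hb2
    push Not at hb2
    have h3 : ∑ x ∈ T, d x = d b + ∑ x ∈ T.erase b, d x := (Finset.add_sum_erase T _ hb).symm
    have h4 : ∑ x ∈ T, d x * d x = d b * d b + ∑ x ∈ T.erase b, d x * d x :=
      (Finset.add_sum_erase T _ hb).symm
    have h5 : ∀ x : ℕ, 3 * x ≤ 2 * (x * x) + 1 := by
      intro x
      rcases Nat.lt_or_ge x 2 with hx | hx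
      · interval_cases x <;> omega
      · nlinarith
    have h6 : 3 * ∑ x ∈ T.erase b, d x ≤ 2 * ∑ x ∈ T.erase b, d x * d x + (T.erase b).card := by
      rw [Finset.mul_sum, Finset.mul_sum, Finset.card_eq_sum_ones, ← Finset.sum_add_distrib]
      exact Finset.sum_le_sum fun x _ => h5 (d x)
    have h7 := Finset.card_erase_add_one hb
    have h8 : T.card * ∑ x ∈ T, d x ≤ 3 * ∑ x ∈ T, d x := Nat.mul_le_mul_right _ hc
    -- d b = 2
    have h9 : 2 * (d b * d b) ≤ 3 * d b + 2 := by
      rw [h3] at h8 hsq
      rw [h4] at hsq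
      omega
    have h10 : d b = 2 := by
      nlinarith
    have hcard3 : (T.erase b).card = 2 := by
      rw [h3] at h8 hsq
      rw [h4, h10] at hsq
      rw [h10] at h8
      omega
    -- all other degrees are one
    have h11 : ∀ x ∈ T.erase b, d x = 1 := by
      intro x hx
      by_contra hx1
      have h12 : 3 * d x ≤ 2 * (d x * d x) := by
        rcases Nat.lt_or_ge (d x) 2 with h13 | h13
        · have h16 : d x = 0 := by omega
          simp [h16]
        · nlinarith
      have h14 : 3 * ∑ z ∈ T.erase b, d z < 2 * ∑ z ∈ T.erase b, d z * d z + (T.erase b).card := by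
        rw [Finset.mul_sum, Finset.mul_sum, Finset.card_eq_sum_ones, ← Finset.sum_add_distrib]
        apply Finset.sum_lt_sum (fun z _ => h5 (d z))
        exact ⟨x, hx, by omega⟩
      rw [h3] at h8 hsq
      rw [h4, h10] at hsq
      rw [h10] at h8
      omega
    have h15 : ∑ x ∈ T.erase b, d x = 2 := by
      rw [Finset.sum_congr rfl h11, Finset.sum_const, hcard3]
      rfl
    rw [htot, h3, h10, h15] at hdiv
    omega
  intro a b
  by_contra hab
  have haT : ∀ x, 1 ≤ d x → x ∈ T := by
    intro x hx
    by_contra hxT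
    have := hT x hxT
    omega
  have hone : ∀ x, 1 ≤ d x → d x = 1 := by
    intro x hx
    have := hd1 x (haT x hx)
    omega
  have hne : ∀ {x y : S}, L x y ≠ 0 → x ≠ y := by
    intro x y hxy e
    rw [e] at hxy
    exact hxy (h.irrefl y)
  have hda := hone a (leave_pos_left h hab)
  have hdb := hone b (leave_pos_right h hab)
  -- four distinct points are impossible
  have hfour : ∀ x y z w : S, 1 ≤ d x → 1 ≤ d y → 1 ≤ d z → 1 ≤ d w → x ≠ y → x ≠ z → y ≠ z →
      w ≠ x → w ≠ y → w ≠ z → False := by
    intro x y z w hx hy hz hw h1 h2 h3 h4 h5 h6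
    have hsub : ({x, y, z, w} : Finset S) ⊆ T := by
      intro v hv
      simp only [Finset.mem_insert, Finset.mem_singleton] at hv
      rcases hv with e | e | e | e
      · rw [e]
        exact haT x hx
      · rw [e]
        exact haT y hy
      · rw [e]
        exact haT z hz
      · rw [e]
        exact haT w hw
    have hcard : ({x, y, z, w} : Finset S).card = 4 := by
      rw [Finset.card_insert_of_notMem, Finset.card_insert_of_notMem,
        Finset.card_insert_of_notMem, Finset.card_singleton]
      · simp only [Finset.mem_singleton]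
        exact fun e => h6 e.symm
      · simp only [Finset.mem_insert, Finset.mem_singleton, not_or]
        exact ⟨h3, fun e => h5 e.symm⟩
      · simp only [Finset.mem_insert, Finset.mem_singleton, not_or]
        exact ⟨h1, h2, fun e => h4 e.symm⟩
    have := Finset.card_le_card hsub
    omega
  obtain ⟨c, hbc⟩ := leave_exists_out h (leave_pos_right h hab)
  by_cases hca : c = a
  · rw [hca] at hbc
    -- a third vertex of positive degree
    have hz : ∃ z, z ≠ a ∧ z ≠ b ∧ 1 ≤ d z := by
      by_contra hno
      push Not at hno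
      have hab' : a ≠ b := hne hab
      have h1 : ∑ x ∈ T, d x = 2 := by
        have h2 : ∑ x ∈ ({a, b} : Finset S), d x = ∑ x ∈ T, d x := by
          apply Finset.sum_subset
          · intro v hv
            simp only [Finset.mem_insert, Finset.mem_singleton] at hv
            rcases hv with e | e
            · rw [e]
              exact haT a (by omega)
            · rw [e]
              exact haT b (by omega)
          · intro v _ hv
            simp only [Finset.mem_insert, Finset.mem_singleton, not_or] at hv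
            have := hno v hv.1 hv.2
            omega
        rw [← h2, Finset.sum_pair hab', hda, hdb]
      rw [htot, h1] at hdiv
      omega
    obtain ⟨z, hza, hzb, hz1⟩ := hz
    obtain ⟨w, hzw⟩ := leave_exists_out h hz1
    refine hfour a b z w (by omega) (by omega) hz1 (leave_pos_right h hzw) (hne hab)
      (fun e => hza e.symm) (fun e => hzb e.symm) ?_ ?_ (fun e => hne hzw e.symm)
    · intro e
      rw [e] at hzw
      exact hzb (leave_two_in h hda hzw hbc)
    · intro e
      rw [e] at hzw
      exact hza (leave_two_in h hdb hzw hab)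
  · obtain ⟨w, hcw⟩ := leave_exists_out h (leave_pos_right h hbc)
    refine hfour a b c w (by omega) (by omega) (leave_pos_right h hbc) (leave_pos_right h hcw)
      (hne hab) (fun e => hca e.symm) (hne hbc) ?_ ?_ (fun e => hne hcw e.symm)
    · intro e
      rw [e] at hcw
      exact h.tri a b c hab hbc hcw
    · intro e
      rw [e] at hcw
      exact hca (leave_two_in h hdb hcw hab)

end IsLeave

end MQ94
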