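import Mathlib

set_option autoImplicit false

/-!
Mendelsohn triple systems as sets of ordered triples closed under rotation.
-/

namespace Pool.Agent.MQ94

/-- A partial Mendelsohn triple system on the point set `S`: a set `T` of ordered triples of distinct
points, closed under the rotation `(a, b, c) ↦ (b, c, a)` (so that `T` is a set of cyclic triples), in
which every ordered pair of points is contained in at most one cyclic triple. -/
structure IsPartialMTS {S : Type*} (T : Set (S × S × S)) : Prop where
  distinct : ∀ a b c : S, (a, b, c) ∈ T → a ≠ b ∧ b ≠ c ∧ a ≠ c
  rotate : ∀ a b c : S, (a, b, c) ∈ T → (b, c, a) ∈ T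
  unique : ∀ a b c d : S, (a, b, c) ∈ T → (a, b, d) ∈ T → c = d

/-- A Mendelsohn triple system on the point set `V`: a partial one in which every ordered pair of distinct
points is contained in a cyclic triple. -/
structure IsMTS {V : Type*} (B : Set (V × V × V)) : Prop extends IsPartialMTS B where
  cover : ∀ a b : V, a ≠ b → ∃ c : V, (a, b, c) ∈ B

/-- `T` (on the points `S`) embeds in `B` (on the points `V`): some injection of `S` into `V` sends the
triples of `T` to triples of `B`. -/
def Embeds {S V : Type*} (T : Set (S × S × S)) (B : Set (V × V × V)) : Prop :=
  ∃ f : S → V, Function.Injective f ∧ ∀ a b c : S, (a, b, c) ∈ T → (f a, f b, f c) ∈ B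

end Pool.Agent.MQ94
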