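import Pool.Agent.MQ94.Core

/-!
# Module MQ-RED (MP_aaabe1_al, helper94): from the frozen statement to `core`

**core_all**: as `core`, but directed triangles are allowed in `L`. Strong induction on `tot L`. If
`L` has no directed triangle apply `core` with `d b = fo L b`, `τ = (tot L + (n+1+e) e) / 3`.
Otherwise let `x → y → z → x` (distinct vertices, since there are no loops: `x ≠ y`, `y ≠ z`,
`z ≠ x`), `L' = L - U x y - U y z - U z x` (a 0/1 array, out- and in-degrees drop by one at
`x, y, z`), `tot L' = tot L - 3`; the decomposition for `L'` plus the triple `(x, y, z)`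
(`TriDec.triple`, `TriDec.add` on `S ⊕ Fin (n+1+e)`) gives the one for `L`.

**embed_main**: the statement S02639. Let `n' = (t - 1) / 2`, `e = t - 1 - 2 n' ≤ 1`, so
`t = 2 n' + 1 + e = n' + (n' + 1 + e)` and `n ≤ n'`. Let `S = Fin n'`, `ι : Fin n → S` the inclusion
(`Fin.castLE`). Let `R x y z` on `S` mean: `x ≠ y` and there are `x', y', z'` with `ι x' = x`,
`ι y' = y`, `ι z' = z`, `p x' y' = some z'`. Properties: `R x y z → R y z x` (`p y' z' = some x'` by
`h4`; `y' ≠ z'`: otherwise `p y' y' = some x'` gives `x' = y'` by `h3`); `R x y z`, `R x y z₂` imply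
`z = z₂`; `R x y z`, `R x₂ y z` imply `x = x₂`; `R x y z`, `R x y₂ z` imply `y = y₂`; `R x y z` implies
`x, y, z` distinct.
`L x y = if x ≠ y ∧ ¬ ∃ z, R x y z then 1 else 0`. Balanced: `y ↦ z` with `R x y z` is an injection
from `{y | ∃ z, R x y z}` to `{z | ∃ y, R z x y}`, and conversely (use the cyclic rule), so the two
sets have the same size, and `fo L x = n' - 1 - |{y | ∃ z, R x y z}|`, the same for `fi`.
Divisibility: `tot L = n' (n' - 1) - |{(x, y) | ∃ z, R x y z}|`, and the last set has the permutation
`(x, y) ↦ (y, z)` of order 3 without fixed points, so its size is divisible by 3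
(`Equiv.Perm.card_fixedPoints_modEq`). With `t % 3 ∈ {0, 1}` one gets
`3 ∣ tot L + (n' + 1 + e) e` (cases `n' % 3`).
By `core_all` there is `t₁` decomposing `lev (n'+1+e) 1 L`; adding the triples of `R`
(`t₂ (inl x) (inl y) (inl z) = if R x y z then 1 else 0`) gives `t₀` on `Y = S ⊕ Fin (n'+1+e)` with
`∑_z t₀ x y z = if x = y then 0 else 1`. So for `x ≠ y` there is exactly one `z` with `t₀ x y z ≠ 0`; put
`op x y = z`, `op x x = x`. If `x ≠ y` and `op x y = z`: `t₀ y z x = t₀ x y z ≠ 0`, so `y ≠ z` and
`op y z = x`: `op y (op x y) = x`. For `p x y = some z` with `x ≠ y`: `t₀ ≥ 1` at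
`(ι x, ι y, ι z)`; with `x = y`: `z = x`. Transport along `Y ≃ Fin t`.
-/

set_option autoImplicit false

namespace MQ94

theorem core_all (k : ℕ) : ∀ {S : Type} [Fintype S] [DecidableEq S] (L : S → S → ℕ) (n e : ℕ),
    tot L = k → Fintype.card S = n → (∀ b c, L b c ≤ 1) → (∀ b, L b b = 0) →
    (∀ b, fo L b = fi L b) → e ≤ 1 → (2 * n + 1 + e) % 3 ≠ 2 → 2 * n + 1 + e ≠ 6 →
    3 ∣ tot L + (n + 1 + e) * e → TriDec (lev (n + 1 + e) (fun _ => 1) L) := by
  induction k using Nat.strong_induction_on with
  | _ k ih =>
    intro S _ _ L n e hk hcard hle hirr hbal he hmod h6 hdiv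
    by_cases htri : ∃ x y z, L x y ≠ 0 ∧ L y z ≠ 0 ∧ L z x ≠ 0
    · obtain ⟨x, y, z, hxy, hyz, hzx⟩ := htri
      have nxy : x ≠ y := by rintro rfl; exact hxy (hirr _)
      have nyz : y ≠ z := by rintro rfl; exact hyz (hirr _)
      have nzx : z ≠ x := by rintro rfl; exact hzx (hirr _)
      set W : S → S → ℕ := fun b c => U x y b c + U y z b c + U z x b c with hW
      have hWL : ∀ b c, W b c ≤ L b c := by
        intro b c
        simp only [hW, U]
        by_cases hbx : b = x
        · subst hbx
          simp only [nxy, nzx.symm, true_and, false_and, if_false, add_zero]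
          by_cases hc : c = y
          · subst hc; simp only [if_true]; omega
          · simp [hc]
        · by_cases hby : b = y
          · subst hby
            simp only [nxy.symm, nyz, true_and, false_and, if_false, add_zero, zero_add]
            by_cases hc : c = z
            · subst hc; simp only [if_true]; omega
            · simp [hc]
          · by_cases hbz : b = z
            · subst hbz
              simp only [nzx, nyz.symm, true_and, false_and, if_false, add_zero, zero_add]
              by_cases hc : c = x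
              · subst hc; simp only [if_true]; omega
              · simp [hc]
            · simp [hbx, hby, hbz]
      set L' : S → S → ℕ := fun b c => L b c - W b c with hL'
      have hsum : ∀ b c, L' b c + W b c = L b c := fun b c => Nat.sub_add_cancel (hWL b c)
      have hsumf : (fun b c => L' b c + W b c) = L := by
        funext b c; exact hsum b c
      have hfo : ∀ b, fo L' b + fo W b = fo L b := by
        intro b
        rw [← fo_add, hsumf]
      have hfi : ∀ b, fi L' b + fi W b = fi L b := by
        intro b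
        rw [← fi_add, hsumf]
      have htot : tot L' + tot W = tot L := by
        rw [← tot_add, hsumf]
      have hWo : ∀ b, fo W b = (if b = x then 1 else 0) + (if b = y then 1 else 0)
          + (if b = z then 1 else 0) := by
        intro b
        simp only [hW]
        rw [fo_add, fo_add, fo_U, fo_U, fo_U]
      have hWi : ∀ b, fi W b = (if b = y then 1 else 0) + (if b = z then 1 else 0)
          + (if b = x then 1 else 0) := by
        intro b
        simp only [hW]
        rw [fi_add, fi_add, fi_U, fi_U, fi_U]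
      have hWt : tot W = 3 := by
        simp only [hW]
        rw [tot_add, tot_add, tot_U, tot_U, tot_U]
      have hD : TriDec (lev (n + 1 + e) (fun _ => 1) L') := by
        refine ih (tot L') (by omega) L' n e rfl hcard ?_ ?_ ?_ he hmod h6 ?_
        · intro b c
          have := hsum b c
          have := hle b c
          omega
        · intro b
          have := hsum b b
          have := hirr b
          omega
        · intro b
          have e1 := hfo b
          have e2 := hfi b
          have e3 := hbal b
          have e4 := hWo b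
          have e5 := hWi b
          omega
        · have : tot L + (n + 1 + e) * e = tot L' + (n + 1 + e) * e + 3 := by omega
          rw [this] at hdiv
          exact (Nat.dvd_add_left (dvd_refl 3)).mp hdiv
      refine (hD.add (TriDec.triple (Sum.inl x) (Sum.inl y) (Sum.inl z))).congr ?_
      rintro (b | i) (c | j)
      · simp only [lev]
        rw [← hsum b c]
        simp only [hW, U, Sum.inl.injEq]
      · simp [lev, U]
      · simp [lev, U]
      · simp [lev, U]
    · push Not at htri
      have hL : IsLeave L (fo L) n e ((tot L + (n + 1 + e) * e) / 3) :=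
        { card := hcard
          le_one := hle
          irrefl := hirr
          out := fun _ => rfl
          inn := fun b => (hbal b).symm
          tri := fun x y z h1 h2 h3 => h3 (htri x y z h1 h2)
          he := he
          hmod := hmod
          hτ := Nat.mul_div_cancel' hdiv }
      exact core hL h6

/-- a cyclic set of triples with no fixed point has size divisible by `3` -/
theorem three_dvd_card {S : Type} [Fintype S] (R : S → S → S → Prop)
    (R1 : ∀ x y z, R x y z → R y z x) (R5 : ∀ x y z, R x y z → x ≠ y) :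
    3 ∣ Nat.card {q : S × S × S // R q.1 q.2.1 q.2.2} := by
  classical
  set T := {q : S × S × S // R q.1 q.2.1 q.2.2} with hT
  set f : Function.End T := fun q => ⟨(q.1.2.1, q.1.2.2, q.1.1), R1 _ _ _ q.2⟩ with hf
  haveI : Fact (Nat.Prime 3) := ⟨Nat.prime_three⟩
  have hf3 : f ^ 3 ^ 1 = 1 := by
    funext q
    rfl
  have h := Equiv.Perm.card_fixedPoints_modEq hf3
  have h0 : Fintype.card (Function.fixedPoints f) = 0 := by
    rw [Fintype.card_eq_zero_iff]
    refine ⟨fun q => ?_⟩
    have h1 : f q.1 = q.1 := q.2
    have h2 : (f q.1).1.1 = q.1.1.1 := by rw [h1]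
    exact R5 _ _ _ q.1.2 h2.symm
  rw [h0] at h
  rw [Nat.card_eq_fintype_card]
  exact (Nat.modEq_zero_iff_dvd).mp h

theorem embed_aux {S : Type} [Fintype S] [DecidableEq S] (n e : ℕ) (hcard : Fintype.card S = n)
    (R : S → S → S → Prop) (R1 : ∀ x y z, R x y z → R y z x)
    (R2 : ∀ x y z z', R x y z → R x y z' → z = z')
    (R5 : ∀ x y z, R x y z → x ≠ y) (he : e ≤ 1) (hmod : (2 * n + 1 + e) % 3 ≠ 2)
    (h6 : 2 * n + 1 + e ≠ 6) :
    ∃ t : S ⊕ Fin (n + 1 + e) → S ⊕ Fin (n + 1 + e) → S ⊕ Fin (n + 1 + e) → ℕ,
      (∀ x y z, t x y z = t y z x) ∧ (∀ x y, ∑ z, t x y z = if x = y then 0 else 1) ∧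
      ∀ x y z, R x y z → t (Sum.inl x) (Sum.inl y) (Sum.inl z) ≠ 0 := by
  classical
  set r : S → S → S → ℕ := fun x y z => if R x y z then 1 else 0 with hr
  have hrc : ∀ x y z, r x y z = r y z x := by
    intro x y z
    have : R x y z ↔ R y z x := ⟨R1 x y z, fun h => R1 _ _ _ (R1 _ _ _ h)⟩
    simp only [hr, this]
  set a : S → S → ℕ := fun x y => ∑ z, r x y z with ha
  have ha1 : ∀ x y, a x y ≤ if x = y then 0 else 1 := by
    intro x y
    by_cases hex : ∃ z, R x y z
    · obtain ⟨z, hz⟩ := hex
      have hne := R5 _ _ _ hz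
      rw [if_neg hne]
      have : a x y = r x y z := by
        simp only [ha]
        refine Finset.sum_eq_single z ?_ ?_
        · intro w _ hw
          simp only [hr]
          rw [if_neg]
          intro h
          exact hw (R2 _ _ _ _ h hz)
        · intro h
          exact absurd (Finset.mem_univ z) h
      rw [this]
      simp only [hr]
      split_ifs <;> omega
    · push Not at hex
      have : a x y = 0 := by
        simp only [ha]
        refine Finset.sum_eq_zero fun z _ => ?_
        simp only [hr, if_neg (hex z)]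
      rw [this]
      exact Nat.zero_le _
  set L : S → S → ℕ := fun x y => (if x = y then 0 else 1) - a x y with hL
  have hLa : ∀ x y, L x y + a x y = if x = y then 0 else 1 := fun x y =>
    Nat.sub_add_cancel (ha1 x y)
  have hLaf : (fun x y => L x y + a x y) = fun x y : S => if x = y then 0 else 1 := by
    funext x y; exact hLa x y
  have hbala : ∀ x, fo a x = fi a x := by
    intro x
    unfold fo fi
    simp only [ha]
    rw [Finset.sum_comm]
    refine Finset.sum_congr rfl fun y _ => Finset.sum_congr rfl fun z _ => ?_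
    rw [hrc y x z]
  have hK : ∀ x : S, fo (fun x y : S => if x = y then 0 else 1) x + 1 = n := by
    intro x
    unfold fo
    have : ∑ c, ((if x = c then 0 else 1) + (if x = c then 1 else 0) : ℕ) = n := by
      rw [← hcard, ← Finset.card_univ, Finset.card_eq_sum_ones]
      refine Finset.sum_congr rfl fun c _ => ?_
      split_ifs <;> rfl
    rw [Finset.sum_add_distrib, Finset.sum_ite_eq] at this
    simpa using this
  have hK' : ∀ x : S, fi (fun x y : S => if x = y then 0 else 1) x + 1 = n := by
    intro x
    have h1 := hK x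
    have h2 : fi (fun x y : S => if x = y then 0 else 1) x
        = fo (fun x y : S => if x = y then 0 else 1) x := by
      unfold fo fi
      refine Finset.sum_congr rfl fun c _ => ?_
      change (if c = x then 0 else 1) = (if x = c then 0 else 1)
      by_cases h : c = x
      · subst h; rfl
      · rw [if_neg h, if_neg (Ne.symm h)]
    rw [h2]
    exact h1
  have hfo : ∀ x, fo L x + fo a x + 1 = n := by
    intro x
    rw [← fo_add, hLaf]
    exact hK x
  have hfi : ∀ x, fi L x + fi a x + 1 = n := by
    intro x
    rw [← fi_add, hLaf]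
    exact hK' x
  have htot : tot L + tot a + n = n * n := by
    rw [← tot_add, hLaf, tot_eq_sum_fo]
    have : ∑ b : S, (fo (fun x y : S => if x = y then 0 else 1) b + 1) = n * n := by
      rw [Finset.sum_congr rfl fun b _ => hK b]
      simp [hcard]
    rw [Finset.sum_add_distrib] at this
    simpa [hcard] using this
  have hta : 3 ∣ tot a := by
    have h1 : tot a = Nat.card {q : S × S × S // R q.1 q.2.1 q.2.2} := by
      rw [Nat.card_eq_fintype_card, Fintype.card_subtype, Finset.card_filter]
      rw [Fintype.sum_prod_type]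
      unfold tot
      refine Finset.sum_congr rfl fun x _ => ?_
      rw [Fintype.sum_prod_type]
    rw [h1]
    exact three_dvd_card R R1 R5
  have hdiv : 3 ∣ tot L + (n + 1 + e) * e := by
    obtain ⟨s, hs⟩ := hta
    obtain ⟨j, hj⟩ : ∃ j, n = 3 * j ∨ n = 3 * j + 1 ∨ n = 3 * j + 2 := ⟨n / 3, by omega⟩
    rcases Nat.le_one_iff_eq_zero_or_eq_one.mp he with h0 | h1
    · subst h0
      rcases hj with hj | hj | hj
      · have : n * n = 3 * (3 * j * j) := by rw [hj]; ring
        rw [Nat.mul_zero, Nat.add_zero]
        omega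
      · have : n * n = 3 * (3 * j * j + 2 * j) + 1 := by rw [hj]; ring
        rw [Nat.mul_zero, Nat.add_zero]
        omega
      · omega
    · subst h1
      rcases hj with hj | hj | hj
      · omega
      · have : n * n = 3 * (3 * j * j + 2 * j) + 1 := by rw [hj]; ring
        omega
      · have : n * n = 3 * (3 * j * j + 4 * j + 1) + 1 := by rw [hj]; ring
        omega
  obtain ⟨t₁, ht1, ht2⟩ : TriDec (lev (n + 1 + e) (fun _ => 1) L) := by
    refine core_all (tot L) L n e rfl hcard ?_ ?_ ?_ he hmod h6 hdiv
    · intro b c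
      have h1 := hLa b c
      split_ifs at h1 <;> omega
    · intro b
      have h1 := hLa b b
      rw [if_pos rfl] at h1
      omega
    · intro b
      have h1 := hfo b
      have h2 := hfi b
      have h3 := hbala b
      omega
  set t₂ : S ⊕ Fin (n + 1 + e) → S ⊕ Fin (n + 1 + e) → S ⊕ Fin (n + 1 + e) → ℕ :=
    fun p q w => match p, q, w with
      | Sum.inl x, Sum.inl y, Sum.inl z => r x y z
      | _, _, _ => 0 with ht₂
  refine ⟨fun p q w => t₁ p q w + t₂ p q w, ?_, ?_, ?_⟩
  · intro p q w
    have h1 := ht1 p q w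
    have h2 : t₂ p q w = t₂ q w p := by
      rcases p with x | i <;> rcases q with y | j <;> rcases w with z | k <;>
        simp only [ht₂]
      exact hrc x y z
    simp only [h1, h2]
  · intro p q
    rw [Finset.sum_add_distrib, ht2]
    rcases p with x | i <;> rcases q with y | j
    · have h1 : ∑ w, t₂ (Sum.inl x) (Sum.inl y) w = a x y := by
        rw [Fintype.sum_sum_type]
        simp only [ht₂, ha, Finset.sum_const_zero, add_zero]
      rw [h1]
      simp only [lev, Sum.inl.injEq]
      exact hLa x y
    · have h1 : ∑ w, t₂ (Sum.inl x) (Sum.inr j) w = 0 := by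
        simp only [ht₂, Finset.sum_const_zero]
      rw [h1]
      simp [lev]
    · have h1 : ∑ w, t₂ (Sum.inr i) (Sum.inl y) w = 0 := by
        simp only [ht₂, Finset.sum_const_zero]
      rw [h1]
      simp [lev]
    · have h1 : ∑ w, t₂ (Sum.inr i) (Sum.inr j) w = 0 := by
        simp only [ht₂, Finset.sum_const_zero]
      rw [h1]
      simp [lev]
  · intro x y z hxyz
    have : t₂ (Sum.inl x) (Sum.inl y) (Sum.inl z) = 1 := by
      simp only [ht₂, hr, if_pos hxyz]
    simp only [this]
    omega

theorem op_of_tri {Y : Type} [Fintype Y] [DecidableEq Y] (t : Y → Y → Y → ℕ)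
    (hc : ∀ x y z, t x y z = t y z x) (hs : ∀ x y, ∑ z, t x y z = if x = y then 0 else 1) :
    ∃ op : Y → Y → Y, (∀ x, op x x = x) ∧ (∀ x y, op x (op y x) = y) ∧
      ∀ x y z, x ≠ y → t x y z ≠ 0 → op x y = z := by
  classical
  have hex : ∀ x y, x ≠ y → ∃ z, t x y z ≠ 0 := by
    intro x y hxy
    by_contra hcon
    push Not at hcon
    have h1 := hs x y
    rw [if_neg hxy, Finset.sum_eq_zero fun z _ => hcon z] at h1
    omega
  have huniq : ∀ x y z z', t x y z ≠ 0 → t x y z' ≠ 0 → z = z' := by
    intro x y z z' h1 h2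
    by_contra hne
    have h3 : t x y z + t x y z' ≤ ∑ w, t x y w := by
      rw [← Finset.sum_pair (f := fun w => t x y w) hne]
      exact Finset.sum_le_sum_of_subset (Finset.subset_univ _)
    have h4 := hs x y
    split_ifs at h4 <;> omega
  have hdiag : ∀ x w, t x x w = 0 := by
    intro x w
    have h1 := hs x x
    rw [if_pos rfl] at h1
    exact Finset.sum_eq_zero_iff.mp h1 w (Finset.mem_univ w)
  have hchoose : ∀ x y, ∃ z, (x = y ∧ z = x) ∨ (x ≠ y ∧ t x y z ≠ 0) := by
    intro x y
    by_cases hxy : x = y
    · exact ⟨x, Or.inl ⟨hxy, rfl⟩⟩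
    · obtain ⟨z, hz⟩ := hex x y hxy
      exact ⟨z, Or.inr ⟨hxy, hz⟩⟩
  choose op hop using hchoose
  have hop1 : ∀ x, op x x = x := by
    intro x
    rcases hop x x with h | h
    · exact h.2
    · exact absurd rfl h.1
  have hop2 : ∀ x y z, x ≠ y → t x y z ≠ 0 → op x y = z := by
    intro x y z hxy hz
    rcases hop x y with h | h
    · exact absurd h.1 hxy
    · exact huniq _ _ _ _ h.2 hz
  refine ⟨op, hop1, ?_, hop2⟩
  intro x y
  by_cases hxy : x = y
  · subst hxy
    rw [hop1, hop1]
  · rcases hop y x with h | h
    · exact absurd h.1.symm hxy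
    · have h1 : t x (op y x) y ≠ 0 := by
        rw [← hc y x (op y x)]
        exact h.2
      refine hop2 x (op y x) y ?_ h1
      intro h2
      rw [← h2] at h1
      exact h1 (hdiag x y)

theorem embed_main (n : ℕ) (p : Fin n → Fin n → Option (Fin n))
    (_h1 : ∀ x y y' z : Fin n, p x y = some z → p x y' = some z → y = y')
    (_h2 : ∀ x x' y z : Fin n, p x y = some z → p x' y = some z → x = x')
    (h3 : ∀ x z : Fin n, p x x = some z → z = x)
    (h4 : ∀ x y z : Fin n, p x y = some z → p y z = some x)
    (t : ℕ) (ht : 2 * n + 1 ≤ t) (hmod : t % 3 = 0 ∨ t % 3 = 1) (h6 : t ≠ 6) :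
    ∃ op : Fin t → Fin t → Fin t,
      (∀ x : Fin t, op x x = x) ∧
      (∀ x y : Fin t, op x (op y x) = y) ∧
      ∃ f : Fin n ↪ Fin t, ∀ x y z : Fin n, p x y = some z → op (f x) (f y) = f z := by
  classical
  obtain ⟨n', e, he, htn⟩ : ∃ n' e : ℕ, e ≤ 1 ∧ t = 2 * n' + 1 + e :=
    ⟨(t - 1) / 2, t - 1 - 2 * ((t - 1) / 2), by omega, by omega⟩
  have hnn : n ≤ n' := by omega
  set ι : Fin n → Fin n' := Fin.castLE hnn with hι
  have hιinj : Function.Injective ι := Fin.castLE_injective hnn
  set R : Fin n' → Fin n' → Fin n' → Prop := fun x y z =>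
    x ≠ y ∧ ∃ x' y' z', ι x' = x ∧ ι y' = y ∧ ι z' = z ∧ p x' y' = some z' with hR
  have R1 : ∀ x y z, R x y z → R y z x := by
    rintro x y z ⟨hxy, x', y', z', rfl, rfl, rfl, hp⟩
    refine ⟨?_, y', z', x', rfl, rfl, rfl, h4 _ _ _ hp⟩
    intro heq
    have h5 : y' = z' := hιinj heq
    subst h5
    have h6 := h3 _ _ (h4 _ _ _ hp)
    exact hxy (by rw [h6])
  have R2 : ∀ x y z z', R x y z → R x y z' → z = z' := by
    rintro x y z z₂ ⟨hxy, x', y', z', rfl, rfl, rfl, hp⟩ ⟨_, x'', y'', z'', hx, hy, rfl, hp2⟩
    have e1 := hιinj hx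
    have e2 := hιinj hy
    subst e1
    subst e2
    rw [hp] at hp2
    rw [Option.some.inj hp2]
  have R5 : ∀ x y z, R x y z → x ≠ y := fun x y z h => h.1
  obtain ⟨t₀, hc, hs, ht0⟩ := embed_aux (S := Fin n') n' e (Fintype.card_fin n') R R1 R2 R5 he
    (by omega) (by omega)
  obtain ⟨op, hop1, hop2, hop3⟩ := op_of_tri t₀ hc hs
  have hcardY : Fintype.card (Fin n' ⊕ Fin (n' + 1 + e)) = t := by
    rw [Fintype.card_sum, Fintype.card_fin, Fintype.card_fin]
    omega
  set E : Fin n' ⊕ Fin (n' + 1 + e) ≃ Fin t := Fintype.equivFinOfCardEq hcardY with hE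
  refine ⟨fun x y => E (op (E.symm x) (E.symm y)), ?_, ?_, ?_⟩
  · intro x
    simp only [hop1, Equiv.apply_symm_apply]
  · intro x y
    simp only [Equiv.symm_apply_apply, hop2, Equiv.apply_symm_apply]
  · refine ⟨⟨fun x => E (Sum.inl (ι x)), fun x y hxy => ?_⟩, ?_⟩
    · exact hιinj (Sum.inl_injective (E.injective hxy))
    · intro x y z hxyz
      simp only [Function.Embedding.coeFn_mk, Equiv.symm_apply_apply]
      by_cases hxy : x = y
      · subst hxy
        have := h3 _ _ hxyz
        subst this
        rw [hop1]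
      · have hne : ι x ≠ ι y := fun h => hxy (hιinj h)
        have hRxyz : R (ι x) (ι y) (ι z) := ⟨hne, x, y, z, rfl, rfl, rfl, hxyz⟩
        rw [hop3 (Sum.inl (ι x)) (Sum.inl (ι y)) (Sum.inl (ι z))
          (fun h => hne (Sum.inl_injective h)) (ht0 _ _ _ hRxyz)]

end MQ94
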