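import Mathlib

set_option autoImplicit false

/-!
Data for the classification of the partial Mendelsohn triple systems on six points.
A cyclic triple `(a, b, c)` with least entry first is written as the number `36 a + 6 b + c`.
-/

namespace Pool.Agent.MQ94

/-- the forty cyclic triples on six points -/
def codes6 : List ℕ := [8, 9, 10, 11, 13, 15, 16, 17, 19, 20, 22, 23, 25, 26, 27, 29, 31, 32, 33, 34, 51, 52, 53, 56, 58, 59, 62, 63, 65, 68, 69, 70, 94, 95, 99, 101, 105, 106, 137, 142]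

/-- Mendelsohn quasigroups of order 12, given by rows -/
def ops6 : List (List (List ℕ)) := [
  [[0, 2, 1, 4, 3, 7, 11, 10, 9, 8, 5, 6],
   [2, 1, 0, 5, 11, 3, 10, 8, 6, 4, 9, 7],
   [1, 0, 2, 6, 5, 4, 8, 9, 3, 7, 11, 10],
   [4, 5, 8, 3, 0, 1, 2, 6, 11, 10, 7, 9],
   [3, 9, 5, 0, 4, 2, 7, 11, 10, 6, 8, 1],
   [10, 3, 4, 1, 2, 5, 9, 0, 7, 11, 6, 8],
   [11, 8, 3, 7, 9, 10, 6, 4, 2, 5, 1, 0],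
   [5, 11, 9, 10, 6, 8, 3, 7, 1, 2, 0, 4],
   [9, 7, 6, 2, 10, 11, 1, 5, 8, 0, 4, 3],
   [8, 10, 7, 11, 1, 6, 4, 2, 0, 9, 3, 5],
   [7, 6, 11, 9, 8, 0, 5, 3, 4, 1, 10, 2],
   [6, 4, 10, 8, 7, 9, 0, 1, 5, 3, 2, 11]],
  [[0, 2, 1, 4, 3, 7, 11, 10, 9, 8, 5, 6],
   [2, 1, 0, 5, 8, 4, 10, 11, 6, 3, 9, 7],
   [1, 0, 2, 11, 5, 3, 4, 8, 10, 6, 7, 9],
   [4, 9, 5, 3, 0, 1, 7, 6, 11, 10, 8, 2],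
   [3, 5, 6, 0, 4, 2, 8, 9, 1, 7, 11, 10],
   [10, 3, 4, 2, 1, 5, 9, 0, 7, 11, 6, 8],
   [11, 8, 9, 7, 2, 10, 6, 3, 4, 5, 1, 0],
   [5, 11, 10, 6, 9, 8, 3, 7, 2, 4, 0, 1],
   [9, 4, 7, 10, 6, 11, 1, 5, 8, 0, 2, 3],
   [8, 10, 11, 1, 7, 6, 2, 4, 0, 9, 3, 5],
   [7, 6, 8, 9, 11, 0, 5, 2, 3, 1, 10, 4],
   [6, 7, 3, 8, 10, 9, 0, 1, 5, 2, 4, 11]],
  [[0, 2, 1, 4, 5, 3, 8, 6, 10, 11, 9, 7],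
   [2, 1, 0, 5, 3, 4, 10, 9, 11, 7, 6, 8],
   [1, 0, 2, 7, 8, 11, 4, 10, 9, 3, 5, 6],
   [5, 4, 9, 3, 0, 1, 11, 2, 7, 6, 8, 10],
   [3, 5, 6, 1, 4, 0, 7, 8, 2, 10, 11, 9],
   [4, 3, 10, 0, 1, 5, 9, 11, 6, 8, 7, 2],
   [7, 10, 11, 9, 2, 8, 6, 4, 0, 5, 1, 3],
   [11, 9, 3, 8, 6, 10, 0, 7, 4, 1, 2, 5],
   [6, 11, 4, 10, 7, 9, 5, 3, 8, 2, 0, 1],
   [10, 7, 8, 2, 11, 6, 3, 1, 5, 9, 4, 0],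
   [8, 6, 7, 11, 9, 2, 1, 5, 3, 0, 10, 4],
   [9, 8, 5, 6, 10, 7, 2, 0, 1, 4, 3, 11]],
  [[0, 2, 1, 4, 5, 3, 8, 6, 10, 11, 9, 7],
   [2, 1, 0, 5, 3, 8, 10, 9, 11, 7, 4, 6],
   [1, 0, 2, 6, 7, 4, 11, 10, 9, 3, 8, 5],
   [5, 4, 9, 3, 0, 1, 2, 11, 7, 10, 6, 8],
   [3, 10, 5, 1, 4, 0, 7, 2, 6, 8, 11, 9],
   [4, 3, 11, 0, 2, 5, 9, 8, 1, 6, 7, 10],
   [7, 11, 3, 10, 8, 9, 6, 4, 0, 5, 1, 2],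
   [11, 9, 4, 8, 6, 10, 0, 7, 5, 1, 2, 3],
   [6, 5, 10, 11, 9, 7, 4, 3, 8, 2, 0, 1],
   [10, 7, 8, 2, 11, 6, 5, 1, 4, 9, 3, 0],
   [8, 6, 7, 9, 1, 11, 3, 5, 2, 0, 10, 4],
   [9, 8, 6, 7, 10, 2, 1, 0, 3, 4, 5, 11]],
  [[0, 2, 3, 1, 5, 8, 10, 9, 11, 7, 4, 6],
   [3, 1, 0, 4, 2, 9, 5, 11, 7, 6, 8, 10],
   [1, 4, 2, 0, 7, 3, 11, 8, 9, 10, 6, 5],
   [2, 0, 5, 3, 1, 4, 8, 6, 10, 11, 9, 7],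
   [10, 3, 1, 5, 4, 0, 7, 2, 6, 8, 11, 9],
   [4, 6, 11, 2, 3, 5, 9, 10, 0, 1, 7, 8],
   [11, 9, 10, 7, 8, 1, 6, 4, 3, 5, 0, 2],
   [9, 8, 4, 11, 6, 10, 3, 7, 2, 0, 5, 1],
   [5, 10, 7, 6, 9, 11, 4, 1, 8, 2, 3, 0],
   [7, 5, 8, 10, 11, 6, 1, 0, 4, 9, 2, 3],
   [6, 11, 9, 8, 0, 7, 2, 5, 1, 3, 10, 4],
   [8, 7, 6, 9, 10, 2, 0, 3, 5, 4, 1, 11]],
  [[0, 2, 3, 1, 5, 8, 10, 9, 11, 7, 4, 6],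
   [3, 1, 0, 4, 11, 2, 5, 10, 9, 6, 7, 8],
   [1, 5, 2, 0, 7, 3, 9, 8, 6, 4, 11, 10],
   [2, 0, 5, 3, 1, 4, 8, 6, 10, 11, 9, 7],
   [10, 3, 9, 5, 4, 0, 11, 2, 7, 8, 6, 1],
   [4, 6, 1, 2, 3, 5, 7, 11, 0, 10, 8, 9],
   [11, 9, 8, 7, 10, 1, 6, 5, 3, 2, 0, 4],
   [9, 10, 4, 11, 8, 6, 3, 7, 2, 0, 1, 5],
   [5, 11, 7, 6, 9, 10, 2, 4, 8, 1, 3, 0],
   [7, 8, 6, 10, 2, 11, 1, 0, 4, 9, 5, 3],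
   [6, 7, 11, 8, 0, 9, 4, 1, 5, 3, 10, 2],
   [8, 4, 10, 9, 6, 7, 0, 3, 1, 5, 2, 11]],
  [[0, 2, 3, 1, 6, 8, 7, 11, 9, 10, 5, 4],
   [3, 1, 0, 4, 2, 9, 11, 5, 7, 6, 8, 10],
   [1, 4, 2, 0, 5, 3, 8, 6, 10, 11, 9, 7],
   [2, 0, 5, 3, 1, 4, 10, 9, 11, 7, 6, 8],
   [11, 3, 1, 5, 4, 2, 0, 10, 6, 8, 7, 9],
   [10, 7, 4, 2, 3, 5, 9, 8, 0, 1, 11, 6],
   [4, 9, 7, 10, 8, 11, 6, 0, 2, 5, 3, 1],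
   [6, 8, 11, 9, 10, 1, 2, 7, 5, 3, 4, 0],
   [5, 10, 6, 11, 9, 7, 4, 1, 8, 0, 2, 3],
   [8, 5, 10, 7, 11, 6, 1, 3, 4, 9, 0, 2],
   [9, 11, 8, 6, 7, 0, 3, 4, 1, 2, 10, 5],
   [7, 6, 9, 8, 0, 10, 5, 2, 3, 4, 1, 11]],
  [[0, 2, 3, 4, 1, 7, 11, 10, 9, 8, 5, 6],
   [4, 1, 0, 8, 5, 2, 10, 11, 6, 3, 9, 7],
   [1, 5, 2, 0, 6, 3, 8, 9, 11, 10, 7, 4],
   [2, 9, 5, 3, 0, 4, 7, 8, 1, 6, 11, 10],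
   [3, 0, 11, 5, 4, 1, 2, 6, 10, 7, 8, 9],
   [10, 4, 1, 2, 3, 5, 9, 0, 7, 11, 6, 8],
   [11, 8, 4, 9, 7, 10, 6, 3, 2, 5, 1, 0],
   [5, 11, 10, 6, 9, 8, 4, 7, 3, 2, 0, 1],
   [9, 3, 6, 7, 10, 11, 1, 5, 8, 0, 4, 2],
   [8, 10, 7, 1, 11, 6, 3, 4, 0, 9, 2, 5],
   [7, 6, 9, 11, 8, 0, 5, 2, 4, 1, 10, 3],
   [6, 7, 8, 10, 2, 9, 0, 1, 5, 4, 3, 11]],
  [[0, 2, 3, 4, 5, 7, 11, 10, 9, 8, 1, 6],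
   [10, 1, 0, 5, 2, 4, 9, 6, 3, 11, 8, 7],
   [1, 4, 2, 0, 11, 3, 5, 9, 10, 7, 6, 8],
   [2, 8, 5, 3, 0, 1, 7, 11, 6, 4, 9, 10],
   [3, 5, 1, 9, 4, 0, 10, 8, 7, 6, 11, 2],
   [4, 3, 6, 2, 1, 5, 8, 0, 11, 10, 7, 9],
   [11, 7, 10, 8, 9, 2, 6, 3, 5, 1, 4, 0],
   [5, 11, 9, 6, 8, 10, 1, 7, 4, 2, 0, 3],
   [9, 10, 11, 1, 7, 6, 3, 4, 8, 0, 2, 5],
   [8, 6, 7, 10, 3, 11, 4, 2, 0, 9, 5, 1],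
   [7, 0, 8, 11, 6, 9, 2, 5, 1, 3, 10, 4],
   [6, 9, 4, 7, 10, 8, 0, 1, 2, 5, 3, 11]],
  [[0, 2, 3, 4, 5, 7, 11, 10, 9, 8, 1, 6],
   [10, 1, 0, 5, 3, 2, 9, 6, 4, 11, 8, 7],
   [1, 5, 2, 0, 9, 4, 3, 11, 10, 6, 7, 8],
   [2, 4, 6, 3, 0, 1, 10, 8, 11, 7, 9, 5],
   [3, 8, 5, 1, 4, 0, 7, 9, 6, 2, 11, 10],
   [4, 3, 1, 11, 2, 5, 8, 0, 7, 10, 6, 9],
   [11, 7, 9, 2, 8, 10, 6, 4, 5, 1, 3, 0],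
   [5, 11, 10, 9, 6, 8, 1, 7, 3, 4, 0, 2],
   [9, 10, 11, 7, 1, 6, 4, 5, 8, 0, 2, 3],
   [8, 6, 4, 10, 7, 11, 2, 3, 0, 9, 5, 1],
   [7, 0, 8, 6, 11, 9, 5, 2, 1, 3, 10, 4],
   [6, 9, 7, 8, 10, 3, 0, 1, 2, 5, 4, 11]]]

/-- An entry: the list of cyclic triples; for every compatible further triple a permutation, its inverse and
the number of the entry reached; the number of a quasigroup of order 12 and an embedding. -/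
def data6 : List (List ℕ × List (ℕ × List ℕ × List ℕ × ℕ) × ℕ × List ℕ) := [
  ([], [(8, [0, 1, 2, 3, 4, 5], [0, 1, 2, 3, 4, 5], 1), (9, [0, 1, 3, 2, 4, 5], [0, 1, 3, 2, 4, 5], 1), (10, [0, 1, 3, 4, 2, 5], [0, 1, 4, 2, 3, 5], 1), (11, [0, 1, 3, 4, 5, 2], [0, 1, 5, 2, 3, 4], 1), (13, [0, 2, 1, 3, 4, 5], [0, 2, 1, 3, 4, 5], 1), (15, [0, 3, 1, 2, 4, 5], [0, 2, 3, 1, 4, 5], 1), (16, [0, 3, 1, 4, 2, 5], [0, 2, 4, 1, 3, 5], 1), (17, [0, 3, 1, 4, 5, 2], [0, 2, 5, 1, 3, 4], 1), (19, [0, 2, 3, 1, 4, 5], [0, 3, 1, 2, 4, 5], 1), (20, [0, 3, 2, 1, 4, 5], [0, 3, 2, 1, 4, 5], 1), (22, [0, 3, 4, 1, 2, 5], [0, 3, 4, 1, 2, 5], 1), (23, [0, 3, 4, 1, 5, 2], [0, 3, 5, 1, 2, 4], 1), (25, [0, 2, 3, 4, 1, 5], [0, 4, 1, 2, 3, 5], 1), (26, [0,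 3, 2, 4, 1, 5], [0, 4, 2, 1, 3, 5], 1), (27, [0, 3, 4, 2, 1, 5], [0, 4, 3, 1, 2, 5], 1), (29, [0, 3, 4, 5, 1, 2], [0, 4, 5, 1, 2, 3], 1), (31, [0, 2, 3, 4, 5, 1], [0, 5, 1, 2, 3, 4], 1), (32, [0, 3, 2, 4, 5, 1], [0, 5, 2, 1, 3, 4], 1), (33, [0, 3, 4, 2, 5, 1], [0, 5, 3, 1, 2, 4], 1), (34, [0, 3, 4, 5, 2, 1], [0, 5, 4, 1, 2, 3], 1), (51, [3, 0, 1, 2, 4, 5], [1, 2, 3, 0, 4, 5], 1), (52, [3, 0, 1, 4, 2, 5], [1, 2, 4, 0, 3, 5], 1), (53, [3, 0, 1, 4, 5, 2], [1, 2, 5, 0, 3, 4], 1), (56, [3, 0, 2, 1, 4, 5], [1, 3, 2, 0, 4, 5], 1), (58, [3, 0, 4, 1, 2, 5], [1, 3, 4, 0, 2, 5], 1), (59, [3, 0, 4, 1, 5, 2], [1, 3, 5, 0, 2, 4], 1), (62, [3, 0, 2, 4, 1, 5], [1, 4, 2, 0, 3, 5], 1), (63, [3, 0, 4, 2, 1, 5], [1, 4, 3, 0, 2, 5], 1),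 (65, [3, 0, 4, 5, 1, 2], [1, 4, 5, 0, 2, 3], 1), (68, [3, 0, 2, 4, 5, 1], [1, 5, 2, 0, 3, 4], 1), (69, [3, 0, 4, 2, 5, 1], [1, 5, 3, 0, 2, 4], 1), (70, [3, 0, 4, 5, 2, 1], [1, 5, 4, 0, 2, 3], 1), (94, [3, 4, 0, 1, 2, 5], [2, 3, 4, 0, 1, 5], 1), (95, [3, 4, 0, 1, 5, 2], [2, 3, 5, 0, 1, 4], 1), (99, [3, 4, 0, 2, 1, 5], [2, 4, 3, 0, 1, 5], 1), (101, [3, 4, 0, 5, 1, 2], [2, 4, 5, 0, 1, 3], 1), (105, [3, 4, 0, 2, 5, 1], [2, 5, 3, 0, 1, 4], 1), (106, [3, 4, 0, 5, 2, 1], [2, 5, 4, 0, 1, 3], 1), (137, [3, 4, 5, 0, 1, 2], [3, 4, 5, 0, 1, 2], 1), (142, [3, 4, 5, 0, 2, 1], [3, 5, 4, 0, 1, 2], 1)], 0, [0, 1, 2, 3, 4, 5]),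
  ([8], [(13, [0, 1, 2, 3, 4, 5], [0, 1, 2, 3, 4, 5], 2), (15, [0, 1, 2, 3, 4, 5], [0, 1, 2, 3, 4, 5], 3), (16, [0, 1, 2, 4, 3, 5], [0, 1, 2, 4, 3, 5], 3), (17, [0, 1, 2, 4, 5, 3], [0, 1, 2, 5, 3, 4], 3), (19, [0, 2, 3, 1, 4, 5], [0, 3, 1, 2, 4, 5], 3), (22, [0, 1, 2, 3, 4, 5], [0, 1, 2, 3, 4, 5], 4), (23, [0, 1, 2, 3, 5, 4], [0, 1, 2, 3, 5, 4], 4), (25, [0, 2, 3, 4, 1, 5], [0, 4, 1, 2, 3, 5], 3), (27, [0, 1, 2, 4, 3, 5], [0, 1, 2, 4, 3, 5], 4), (29, [0, 1, 2, 5, 3, 4], [0, 1, 2, 4, 5, 3], 4), (31, [0, 2, 3, 4, 5, 1], [0, 5, 1, 2, 3, 4], 3), (33, [0, 1, 2, 4, 5, 3], [0, 1, 2, 5, 3, 4], 4), (34, [0, 1, 2, 5, 4, 3], [0, 1, 2, 5, 4, 3], 4), (56, [1, 2, 0, 3, 4, 5], [2, 0, 1, 3, 4, 5], 3), (58, [2, 0, 1, 3, 4, 5], [1, 2,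 0, 3, 4, 5], 4), (59, [2, 0, 1, 3, 5, 4], [1, 2, 0, 3, 5, 4], 4), (62, [1, 2, 0, 4, 3, 5], [2, 0, 1, 4, 3, 5], 3), (63, [2, 0, 1, 4, 3, 5], [1, 2, 0, 4, 3, 5], 4), (65, [2, 0, 1, 5, 3, 4], [1, 2, 0, 4, 5, 3], 4), (68, [1, 2, 0, 4, 5, 3], [2, 0, 1, 5, 3, 4], 3), (69, [2, 0, 1, 4, 5, 3], [1, 2, 0, 5, 3, 4], 4), (70, [2, 0, 1, 5, 4, 3], [1, 2, 0, 5, 4, 3], 4), (94, [1, 2, 0, 3, 4, 5], [2, 0, 1, 3, 4, 5], 4), (95, [1, 2, 0, 3, 5, 4], [2, 0, 1, 3, 5, 4], 4), (99, [1, 2, 0, 4, 3, 5], [2, 0, 1, 4, 3, 5], 4), (101, [1, 2, 0, 5, 3, 4], [2, 0, 1, 4, 5, 3], 4), (105, [1, 2, 0, 4, 5, 3], [2, 0, 1, 5, 3, 4], 4), (106, [1, 2, 0, 5, 4, 3], [2, 0, 1, 5, 4, 3], 4), (137, [0, 1, 2, 3, 4, 5], [0, 1, 2, 3, 4, 5], 5), (142, [0, 1, 2, 3,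 5, 4], [0, 1, 2, 3, 5, 4], 5)], 0, [0, 1, 2, 3, 4, 5]),
  ([8, 13], [(22, [0, 1, 2, 3, 4, 5], [0, 1, 2, 3, 4, 5], 6), (23, [0, 1, 2, 3, 5, 4], [0, 1, 2, 3, 5, 4], 6), (27, [0, 1, 2, 4, 3, 5], [0, 1, 2, 4, 3, 5], 6), (29, [0, 1, 2, 5, 3, 4], [0, 1, 2, 4, 5, 3], 6), (33, [0, 1, 2, 4, 5, 3], [0, 1, 2, 5, 3, 4], 6), (34, [0, 1, 2, 5, 4, 3], [0, 1, 2, 5, 4, 3], 6), (58, [1, 0, 2, 3, 4, 5], [1, 0, 2, 3, 4, 5], 6), (59, [1, 0, 2, 3, 5, 4], [1, 0, 2, 3, 5, 4], 6), (63, [1, 0, 2, 4, 3, 5], [1, 0, 2, 4, 3, 5], 6), (65, [1, 0, 2, 5, 3, 4], [1, 0, 2, 4, 5, 3], 6), (69, [1, 0, 2, 4, 5, 3], [1, 0, 2, 5, 3, 4], 6), (70, [1, 0, 2, 5, 4, 3], [1, 0, 2, 5, 4, 3], 6), (94, [1, 2, 0, 3, 4, 5], [2, 0, 1, 3, 4, 5], 6), (95, [1, 2, 0, 3, 5,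 4], [2, 0, 1, 3, 5, 4], 6), (99, [1, 2, 0, 4, 3, 5], [2, 0, 1, 4, 3, 5], 6), (101, [1, 2, 0, 5, 3, 4], [2, 0, 1, 4, 5, 3], 6), (105, [1, 2, 0, 4, 5, 3], [2, 0, 1, 5, 3, 4], 6), (106, [1, 2, 0, 5, 4, 3], [2, 0, 1, 5, 4, 3], 6), (137, [0, 1, 2, 3, 4, 5], [0, 1, 2, 3, 4, 5], 7), (142, [0, 1, 2, 3, 5, 4], [0, 1, 2, 3, 5, 4], 7)], 0, [0, 1, 2, 3, 4, 5]),
  ([8, 15], [(19, [0, 1, 2, 3, 4, 5], [0, 1, 2, 3, 4, 5], 8), (22, [0, 1, 2, 3, 4, 5], [0, 1, 2, 3, 4, 5], 9), (23, [0, 1, 2, 3, 5, 4], [0, 1, 2, 3, 5, 4], 9), (25, [0, 2, 3, 4, 1, 5], [0, 4, 1, 2, 3, 5], 9), (29, [0, 1, 2, 3, 4, 5], [0, 1, 2, 3, 4, 5], 10), (31, [0, 2, 3, 4, 5, 1], [0, 5, 1, 2, 3, 4], 9), (34, [0, 1, 2, 3, 5, 4], [0, 1, 2, 3, 5, 4], 10), (56, [1, 2, 0, 3,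 4, 5], [2, 0, 1, 3, 4, 5], 8), (58, [0, 1, 2, 3, 4, 5], [0, 1, 2, 3, 4, 5], 11), (59, [0, 1, 2, 3, 5, 4], [0, 1, 2, 3, 5, 4], 11), (62, [2, 3, 0, 1, 4, 5], [2, 3, 0, 1, 4, 5], 9), (63, [2, 3, 0, 1, 4, 5], [2, 3, 0, 1, 4, 5], 11), (65, [0, 1, 2, 3, 4, 5], [0, 1, 2, 3, 4, 5], 12), (68, [2, 3, 0, 1, 5, 4], [2, 3, 0, 1, 5, 4], 9), (69, [2, 3, 0, 1, 5, 4], [2, 3, 0, 1, 5, 4], 11), (70, [0, 1, 2, 3, 5, 4], [0, 1, 2, 3, 5, 4], 12), (99, [3, 4, 0, 2, 1, 5], [2, 4, 3, 0, 1, 5], 9), (101, [2, 3, 0, 1, 4, 5], [2, 3, 0, 1, 4, 5], 10), (105, [3, 4, 0, 2, 5, 1], [2, 5, 3, 0, 1, 4], 9), (106, [2, 3, 0, 1, 5, 4], [2, 3, 0, 1, 5, 4], 10), (137, [2, 3, 0, 1, 4, 5], [2, 3, 0, 1, 4, 5], 12), (142, [2, 3, 0, 1, 5, 4], [2, 3, 0, 1, 5, 4],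 12)], 0, [0, 5, 7, 10, 1, 2]),
  ([8, 22], [(13, [0, 1, 2, 3, 4, 5], [0, 1, 2, 3, 4, 5], 6), (15, [0, 1, 2, 3, 4, 5], [0, 1, 2, 3, 4, 5], 9), (17, [0, 1, 2, 4, 5, 3], [0, 1, 2, 5, 3, 4], 10), (25, [0, 3, 4, 1, 2, 5], [0, 3, 4, 1, 2, 5], 9), (27, [0, 3, 4, 1, 2, 5], [0, 3, 4, 1, 2, 5], 6), (29, [0, 4, 5, 1, 2, 3], [0, 3, 4, 5, 1, 2], 10), (31, [0, 2, 3, 4, 5, 1], [0, 5, 1, 2, 3, 4], 10), (33, [0, 4, 5, 2, 3, 1], [0, 5, 3, 4, 1, 2], 10), (56, [1, 2, 0, 3, 4, 5], [2, 0, 1, 3, 4, 5], 11), (59, [0, 1, 2, 3, 4, 5], [0, 1, 2, 3, 4, 5], 13), (62, [3, 0, 2, 4, 1, 5], [1, 4, 2, 0, 3, 5], 11), (63, [1, 3, 4, 2, 0, 5], [4, 0, 3, 1, 2, 5], 11), (65, [0, 1, 2, 3, 4, 5], [0, 1, 2, 3, 4, 5], 14), (68, [1, 2, 0, 4, 5, 3], [2, 0, 1, 5,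 3, 4], 12), (69, [0, 3, 4, 1, 2, 5], [0, 3, 4, 1, 2, 5], 13), (70, [1, 3, 5, 2, 0, 4], [4, 0, 3, 1, 5, 2], 13), (95, [1, 2, 0, 3, 5, 4], [2, 0, 1, 3, 5, 4], 13), (99, [3, 4, 1, 0, 2, 5], [3, 2, 4, 0, 1, 5], 11), (101, [3, 4, 0, 5, 1, 2], [2, 4, 5, 0, 1, 3], 13), (105, [0, 3, 4, 1, 2, 5], [0, 3, 4, 1, 2, 5], 14), (106, [3, 5, 1, 4, 0, 2], [4, 2, 5, 0, 3, 1], 13), (142, [1, 4, 5, 2, 0, 3], [4, 0, 3, 5, 1, 2], 12)], 0, [0, 1, 2, 3, 4, 5]),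
  ([8, 137], [(13, [0, 1, 2, 3, 4, 5], [0, 1, 2, 3, 4, 5], 7), (15, [2, 3, 0, 1, 4, 5], [2, 3, 0, 1, 4, 5], 12), (16, [2, 3, 0, 5, 1, 4], [2, 4, 0, 1, 5, 3], 12), (17, [2, 3, 0, 4, 5, 1], [2, 5, 0, 1, 3, 4], 12), (19, [0, 2, 3, 1, 4, 5], [0, 3, 1, 2, 4, 5], 12), (23, [1, 4, 5, 2, 3, 0], [5, 0, 3, 4, 1, 2], 12), (25, [0, 2, 3, 5, 1, 4], [0, 4, 1, 2, 5, 3], 12), (27, [1, 4, 5, 0, 2, 3], [3, 0, 4, 5, 1, 2], 12), (31, [0, 2, 3, 4, 5, 1], [0, 5, 1, 2, 3, 4], 12), (34, [1, 4, 5, 3, 0, 2], [4, 0, 5, 3, 1, 2], 12), (56, [3, 0, 2, 1, 4, 5], [1, 3, 2, 0, 4, 5], 12), (59, [5, 1, 4, 2, 3, 0], [5, 1, 3, 4, 2, 0], 12), (62, [3, 0, 2, 5, 1, 4], [1, 4, 2, 0, 5, 3], 12), (63, [5, 1, 4, 0, 2, 3], [3, 1, 4, 5, 2, 0], 12), (68, [3, 0, 2,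 4, 5, 1], [1, 5, 2, 0, 3, 4], 12), (70, [5, 1, 4, 3, 0, 2], [4, 1, 5, 3, 2, 0], 12), (95, [4, 5, 1, 2, 3, 0], [5, 2, 3, 4, 0, 1], 12), (99, [4, 5, 1, 0, 2, 3], [3, 2, 4, 5, 0, 1], 12), (106, [4, 5, 1, 3, 0, 2], [4, 2, 5, 3, 0, 1], 12), (142, [3, 4, 5, 0, 1, 2], [3, 4, 5, 0, 1, 2], 7)], 0, [0, 1, 2, 3, 7, 6]),
  ([8, 13, 22], [(27, [0, 1, 2, 3, 4, 5], [0, 1, 2, 3, 4, 5], 15), (29, [0, 1, 2, 3, 4, 5], [0, 1, 2, 3, 4, 5], 16), (33, [0, 1, 2, 4, 5, 3], [0, 1, 2, 5, 3, 4], 16), (59, [0, 1, 2, 3, 4, 5], [0, 1, 2, 3, 4, 5], 17), (63, [0, 1, 2, 3, 4, 5], [0, 1, 2, 3, 4, 5], 18), (65, [0, 1, 2, 3, 4, 5], [0, 1, 2, 3, 4, 5], 19), (69, [1, 0, 2, 4, 5, 3], [1, 0, 2, 5, 3, 4], 19), (70, [0, 1, 2, 3, 4, 5], [0, 1, 2, 3, 4, 5], 20),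 (95, [0, 2, 1, 3, 4, 5], [0, 2, 1, 3, 4, 5], 17), (99, [0, 2, 1, 3, 4, 5], [0, 2, 1, 3, 4, 5], 18), (101, [0, 2, 1, 3, 4, 5], [0, 2, 1, 3, 4, 5], 19), (105, [1, 2, 0, 4, 5, 3], [2, 0, 1, 5, 3, 4], 19), (106, [0, 2, 1, 3, 4, 5], [0, 2, 1, 3, 4, 5], 20), (142, [0, 1, 2, 3, 4, 5], [0, 1, 2, 3, 4, 5], 21)], 0, [0, 1, 2, 3, 4, 5]),
  ([8, 13, 137], [(23, [0, 1, 2, 3, 5, 4], [0, 1, 2, 3, 5, 4], 21), (27, [0, 1, 2, 4, 3, 5], [0, 1, 2, 4, 3, 5], 21), (34, [0, 1, 2, 5, 4, 3], [0, 1, 2, 5, 4, 3], 21), (59, [1, 0, 2, 3, 5, 4], [1, 0, 2, 3, 5, 4], 21), (63, [1, 0, 2, 4, 3, 5], [1, 0, 2, 4, 3, 5], 21), (70, [1, 0, 2, 5, 4, 3], [1, 0, 2, 5, 4, 3], 21), (95, [1, 2, 0, 3, 5, 4], [2, 0, 1, 3, 5, 4], 21), (99, [1, 2, 0, 4, 3, 5], [2,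 0, 1, 4, 3, 5], 21), (106, [1, 2, 0, 5, 4, 3], [2, 0, 1, 5, 4, 3], 21), (142, [0, 1, 2, 3, 4, 5], [0, 1, 2, 3, 4, 5], 22)], 0, [0, 1, 2, 3, 7, 6]),
  ([8, 15, 19], [(29, [0, 1, 2, 3, 4, 5], [0, 1, 2, 3, 4, 5], 23), (34, [0, 1, 2, 3, 5, 4], [0, 1, 2, 3, 5, 4], 23), (56, [0, 1, 2, 3, 4, 5], [0, 1, 2, 3, 4, 5], 24), (58, [0, 1, 2, 3, 4, 5], [0, 1, 2, 3, 4, 5], 25), (59, [0, 1, 2, 3, 5, 4], [0, 1, 2, 3, 5, 4], 25), (62, [0, 3, 1, 2, 4, 5], [0, 2, 3, 1, 4, 5], 25), (65, [0, 1, 2, 3, 4, 5], [0, 1, 2, 3, 4, 5], 26), (68, [0, 3, 1, 2, 5, 4], [0, 2, 3, 1, 5, 4], 25), (70, [0, 1, 2, 3, 5, 4], [0, 1, 2, 3, 5, 4], 26), (99, [0, 2, 3, 1, 4, 5], [0, 3, 1, 2, 4, 5], 25), (101, [0, 3, 1, 2, 4, 5], [0, 2, 3, 1, 4, 5], 26), (105, [0,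 2, 3, 1, 5, 4], [0, 3, 1, 2, 5, 4], 25), (106, [0, 3, 1, 2, 5, 4], [0, 2, 3, 1, 5, 4], 26), (137, [0, 2, 3, 1, 4, 5], [0, 3, 1, 2, 4, 5], 26), (142, [0, 2, 3, 1, 5, 4], [0, 3, 1, 2, 5, 4], 26)], 0, [0, 5, 7, 10, 1, 2]),
  ([8, 15, 22], [(25, [0, 1, 2, 3, 4, 5], [0, 1, 2, 3, 4, 5], 27), (29, [0, 1, 2, 3, 4, 5], [0, 1, 2, 3, 4, 5], 28), (31, [0, 2, 3, 4, 5, 1], [0, 5, 1, 2, 3, 4], 28), (56, [1, 2, 0, 3, 4, 5], [2, 0, 1, 3, 4, 5], 25), (59, [0, 1, 2, 3, 4, 5], [0, 1, 2, 3, 4, 5], 29), (62, [0, 1, 2, 3, 4, 5], [0, 1, 2, 3, 4, 5], 30), (63, [0, 1, 2, 3, 4, 5], [0, 1, 2, 3, 4, 5], 31), (65, [0, 1, 2, 3, 4, 5], [0, 1, 2, 3, 4, 5], 32), (68, [0, 1, 2, 3, 4, 5], [0, 1, 2, 3, 4, 5], 33), (69, [0, 1, 2, 3, 4, 5], [0, 1, 2, 3, 4,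 5], 34), (70, [0, 1, 2, 3, 4, 5], [0, 1, 2, 3, 4, 5], 35), (99, [3, 4, 1, 0, 2, 5], [3, 2, 4, 0, 1, 5], 25), (101, [0, 1, 2, 3, 4, 5], [0, 1, 2, 3, 4, 5], 36), (105, [0, 1, 2, 3, 4, 5], [0, 1, 2, 3, 4, 5], 37), (106, [0, 1, 2, 3, 4, 5], [0, 1, 2, 3, 4, 5], 38), (142, [0, 1, 2, 3, 4, 5], [0, 1, 2, 3, 4, 5], 39)], 0, [1, 4, 11, 7, 8, 0]),
  ([8, 15, 29], [(19, [0, 1, 2, 3, 4, 5], [0, 1, 2, 3, 4, 5], 23), (22, [0, 1, 2, 3, 4, 5], [0, 1, 2, 3, 4, 5], 28), (31, [0, 3, 4, 5, 1, 2], [0, 4, 5, 1, 2, 3], 28), (34, [0, 3, 4, 5, 1, 2], [0, 4, 5, 1, 2, 3], 16), (56, [1, 2, 0, 3, 4, 5], [2, 0, 1, 3, 4, 5], 26), (58, [0, 1, 2, 3, 4, 5], [0, 1, 2, 3, 4, 5], 40), (59, [0, 1, 2, 3, 4, 5], [0, 1, 2, 3, 4, 5], 41), (62, [2, 3, 0, 1, 4,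 5], [2, 3, 0, 1, 4, 5], 36), (63, [0, 1, 2, 3, 4, 5], [0, 1, 2, 3, 4, 5], 42), (68, [2, 3, 0, 1, 5, 4], [2, 3, 0, 1, 5, 4], 38), (69, [0, 1, 2, 3, 4, 5], [0, 1, 2, 3, 4, 5], 43), (70, [0, 1, 2, 3, 4, 5], [0, 1, 2, 3, 4, 5], 44), (99, [3, 4, 0, 2, 1, 5], [2, 4, 3, 0, 1, 5], 34), (105, [3, 4, 0, 2, 5, 1], [2, 5, 3, 0, 1, 4], 29), (106, [0, 1, 2, 3, 4, 5], [0, 1, 2, 3, 4, 5], 45), (142, [0, 1, 2, 3, 4, 5], [0, 1, 2, 3, 4, 5], 46)], 0, [0, 5, 7, 10, 1, 2]),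
  ([8, 15, 58], [(19, [0, 1, 2, 3, 4, 5], [0, 1, 2, 3, 4, 5], 25), (23, [0, 1, 2, 3, 5, 4], [0, 1, 2, 3, 5, 4], 29), (29, [0, 1, 2, 3, 4, 5], [0, 1, 2, 3, 4, 5], 40), (31, [0, 2, 3, 4, 5, 1], [0, 5, 1, 2, 3, 4], 36), (34, [0, 1, 2, 3, 5, 4], [0, 1, 2, 3, 5, 4], 41), (62, [2, 3, 0, 1, 4, 5], [2, 3, 0, 1, 4, 5], 31), (63, [3, 1, 4, 0, 2, 5], [3, 1, 4, 0, 2, 5], 18), (65, [5, 0, 4, 1, 2, 3], [1, 3, 4, 5, 2, 0], 44), (68, [2, 3, 0, 1, 5, 4], [2, 3, 0, 1, 5, 4], 34), (69, [4, 2, 5, 0, 1, 3], [3, 4, 1, 5, 0, 2], 45), (99, [1, 4, 2, 0, 3, 5], [3, 0, 2, 4, 1, 5], 30), (101, [2, 3, 0, 1, 4, 5], [2, 3, 0, 1, 4, 5], 42), (105, [3, 4, 0, 2, 5, 1], [2, 5, 3, 0, 1, 4], 38), (106, [2, 3, 0, 1, 5, 4], [2, 3, 0, 1, 5, 4], 43), (142,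 [4, 3, 5, 0, 2, 1], [3, 5, 4, 1, 0, 2], 46)], 0, [0, 5, 7, 10, 6, 1]),
  ([8, 15, 65], [(19, [0, 1, 2, 3, 4, 5], [0, 1, 2, 3, 4, 5], 26), (22, [0, 1, 2, 3, 4, 5], [0, 1, 2, 3, 4, 5], 32), (23, [0, 1, 2, 3, 5, 4], [0, 1, 2, 3, 5, 4], 35), (25, [0, 2, 3, 4, 1, 5], [0, 4, 1, 2, 3, 5], 33), (34, [0, 1, 2, 3, 5, 4], [0, 1, 2, 3, 5, 4], 44), (56, [3, 1, 0, 2, 4, 5], [2, 1, 3, 0, 4, 5], 26), (58, [5, 0, 4, 1, 2, 3], [1, 3, 4, 5, 2, 0], 44), (68, [2, 3, 0, 1, 5, 4], [2, 3, 0, 1, 5, 4], 39), (69, [5, 0, 4, 3, 1, 2], [1, 4, 5, 3, 2, 0], 46), (70, [4, 0, 3, 5, 1, 2], [1, 4, 5, 2, 0, 3], 21), (99, [3, 4, 0, 2, 1, 5], [2, 4, 3, 0, 1, 5], 35), (105, [3, 4, 0, 2, 5, 1], [2, 5, 3, 0, 1, 4], 32), (106, [2, 3, 0, 1, 5, 4], [2, 3, 0, 1,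 5, 4], 46), (142, [0, 1, 2, 3, 4, 5], [0, 1, 2, 3, 4, 5], 47)], 0, [0, 5, 7, 10, 1, 3]),
  ([8, 22, 59], [(13, [0, 1, 2, 3, 4, 5], [0, 1, 2, 3, 4, 5], 17), (15, [0, 1, 2, 3, 4, 5], [0, 1, 2, 3, 4, 5], 29), (17, [0, 1, 2, 4, 5, 3], [0, 1, 2, 5, 3, 4], 42), (25, [0, 3, 4, 1, 2, 5], [0, 3, 4, 1, 2, 5], 34), (27, [1, 4, 5, 0, 2, 3], [3, 0, 4, 5, 1, 2], 19), (29, [0, 4, 5, 1, 2, 3], [0, 3, 4, 5, 1, 2], 40), (33, [2, 4, 5, 0, 1, 3], [3, 4, 0, 5, 1, 2], 36), (62, [3, 0, 2, 4, 1, 5], [1, 4, 2, 0, 3, 5], 40), (63, [4, 2, 5, 0, 3, 1], [3, 5, 1, 4, 0, 2], 38), (68, [4, 0, 3, 1, 5, 2], [1, 3, 5, 2, 0, 4], 35), (69, [4, 0, 3, 1, 5, 2], [1, 3, 5, 2, 0, 4], 20), (70, [5, 0, 4, 1, 3, 2], [1, 3, 5, 4, 2, 0], 41), (99, [3, 5, 1, 0, 2,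 4], [3, 2, 4, 0, 5, 1], 41), (101, [0, 1, 2, 3, 4, 5], [0, 1, 2, 3, 4, 5], 48), (105, [5, 3, 1, 0, 4, 2], [3, 2, 5, 1, 4, 0], 43), (106, [0, 1, 2, 3, 4, 5], [0, 1, 2, 3, 4, 5], 49)], 0, [0, 1, 2, 3, 4, 5]),
  ([8, 22, 65], [(13, [0, 1, 2, 3, 4, 5], [0, 1, 2, 3, 4, 5], 19), (15, [0, 1, 2, 3, 4, 5], [0, 1, 2, 3, 4, 5], 32), (17, [0, 1, 2, 4, 5, 3], [0, 1, 2, 5, 3, 4], 43), (25, [0, 3, 4, 1, 2, 5], [0, 3, 4, 1, 2, 5], 37), (27, [1, 4, 5, 2, 0, 3], [4, 0, 3, 5, 1, 2], 19), (33, [0, 4, 5, 2, 3, 1], [0, 5, 3, 4, 1, 2], 42), (56, [3, 0, 2, 1, 4, 5], [1, 3, 2, 0, 4, 5], 42), (68, [4, 0, 3, 5, 1, 2], [1, 4, 5, 2, 0, 3], 32), (69, [5, 0, 4, 3, 1, 2], [1, 4, 5, 3, 2, 0], 43), (70, [4, 0, 3, 5, 1, 2], [1, 4, 5, 2, 0, 3], 19), (95,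 [1, 2, 0, 3, 5, 4], [2, 0, 1, 3, 5, 4], 49), (99, [1, 5, 3, 2, 0, 4], [4, 0, 3, 2, 5, 1], 43), (105, [0, 1, 2, 3, 4, 5], [0, 1, 2, 3, 4, 5], 50), (106, [4, 3, 1, 5, 0, 2], [4, 2, 5, 1, 0, 3], 42), (142, [1, 4, 5, 2, 0, 3], [4, 0, 3, 5, 1, 2], 32)], 0, [0, 1, 2, 3, 4, 11]),
  ([8, 13, 22, 27], [(59, [0, 1, 2, 3, 4, 5], [0, 1, 2, 3, 4, 5], 51), (65, [0, 1, 2, 4, 3, 5], [0, 1, 2, 4, 3, 5], 51), (69, [0, 3, 4, 1, 2, 5], [0, 3, 4, 1, 2, 5], 51), (70, [0, 3, 4, 2, 1, 5], [0, 4, 3, 1, 2, 5], 51), (95, [0, 2, 1, 3, 4, 5], [0, 2, 1, 3, 4, 5], 51), (101, [0, 2, 1, 4, 3, 5], [0, 2, 1, 4, 3, 5], 51), (105, [0, 4, 3, 1, 2, 5], [0, 3, 4, 2, 1, 5], 51), (106, [0, 4, 3, 2, 1, 5], [0, 4, 3, 2, 1, 5], 51)], 0, [0, 1, 2, 3, 4, 5]),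
  ([8, 13, 22, 29], [(33, [0, 1, 2, 3, 4, 5], [0, 1, 2, 3, 4, 5], 52), (59, [0, 1, 2, 3, 4, 5], [0, 1, 2, 3, 4, 5], 53), (63, [0, 1, 2, 3, 4, 5], [0, 1, 2, 3, 4, 5], 54), (69, [0, 1, 2, 3, 4, 5], [0, 1, 2, 3, 4, 5], 55), (70, [0, 1, 2, 3, 4, 5], [0, 1, 2, 3, 4, 5], 56), (95, [0, 2, 1, 3, 4, 5], [0, 2, 1, 3, 4, 5], 53), (99, [0, 2, 1, 3, 4, 5], [0, 2, 1, 3, 4, 5], 54), (105, [0, 2, 1, 3, 4, 5], [0, 2, 1, 3, 4, 5], 55), (106, [0, 2, 1, 3, 4, 5], [0, 2, 1, 3, 4, 5], 56), (142, [0, 1, 2, 3, 4, 5], [0, 1, 2, 3, 4, 5], 57)], 0, [0, 1, 2, 5, 7, 10]),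
  ([8, 13, 22, 59], [(27, [0, 1, 2, 3, 4, 5], [0, 1, 2, 3, 4, 5], 51), (29, [0, 1, 2, 3, 4, 5], [0, 1, 2, 3, 4, 5], 53), (33, [0, 1, 2, 4, 5, 3], [0, 1, 2, 5, 3, 4], 54), (63, [1, 0, 2, 4, 3, 5], [1, 0, 2, 4, 3, 5], 54), (69, [1, 0, 2, 3, 5, 4], [1, 0, 2, 3, 5, 4], 51), (70, [1, 0, 2, 3, 5, 4], [1, 0, 2, 3, 5, 4], 53), (99, [0, 1, 2, 3, 4, 5], [0, 1, 2, 3, 4, 5], 58), (101, [0, 1, 2, 3, 4, 5], [0, 1, 2, 3, 4, 5], 59), (105, [1, 0, 2, 3, 5, 4], [1, 0, 2, 3, 5, 4], 58), (106, [1, 0, 2, 3, 5, 4], [1, 0, 2, 3, 5, 4], 59)], 0, [0, 1, 2, 3, 4, 5]),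
  ([8, 13, 22, 63], [(29, [0, 1, 2, 3, 4, 5], [0, 1, 2, 3, 4, 5], 54), (33, [0, 1, 2, 4, 5, 3], [0, 1, 2, 5, 3, 4], 56), (59, [1, 0, 2, 4, 3, 5], [1, 0, 2, 4, 3, 5], 54), (70, [1, 0, 2, 5, 4, 3], [1, 0, 2, 5, 4, 3], 56), (95, [0, 2, 1, 3, 4, 5], [0, 2, 1, 3, 4, 5], 58), (101, [2, 0, 1, 4, 3, 5], [1, 2, 0, 4, 3, 5], 58), (105, [0, 1, 2, 3, 4, 5], [0, 1, 2, 3, 4, 5], 60), (106, [1, 0, 2, 4, 3, 5], [1, 0, 2, 4, 3, 5], 60)], 0, [0, 3, 4, 7, 10, 1]),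
  ([8, 13, 22, 65], [(27, [0, 1, 2, 4, 3, 5], [0, 1, 2, 4, 3, 5], 51), (33, [0, 1, 2, 4, 5, 3], [0, 1, 2, 5, 3, 4], 55), (69, [1, 0, 2, 5, 3, 4], [1, 0, 2, 4, 5, 3], 55), (70, [3, 0, 4, 5, 1, 2], [1, 4, 5, 0, 2, 3], 51), (95, [0, 2, 1, 3, 4, 5], [0, 2, 1, 3, 4, 5], 59), (99, [2, 1, 0, 4, 3, 5], [2, 1, 0, 4, 3, 5], 58), (105, [0, 1, 2, 3, 4, 5], [0, 1, 2, 3, 4, 5], 61), (106, [2, 0, 1, 5, 3, 4], [1, 2, 0, 4, 5, 3], 60), (142, [0, 1, 2, 3, 4, 5], [0, 1, 2, 3, 4, 5], 62)], 0, [0, 1, 2, 3, 4, 11]),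
  ([8, 13, 22, 70], [(27, [0, 3, 4, 2, 1, 5], [0, 4, 3, 1, 2, 5], 51), (29, [0, 1, 2, 3, 4, 5], [0, 1, 2, 3, 4, 5], 56), (33, [0, 1, 2, 4, 5, 3], [0, 1, 2, 5, 3, 4], 53), (59, [1, 0, 2, 3, 5, 4], [1, 0, 2, 3, 5, 4], 53), (63, [1, 0, 2, 5, 4, 3], [1, 0, 2, 5, 4, 3], 56), (65, [3, 0, 4, 5, 1, 2], [1, 4, 5, 0, 2, 3], 51), (95, [1, 2, 0, 3, 5, 4], [2, 0, 1, 3, 5, 4], 59), (99, [1, 2, 0, 4, 3, 5], [2, 0, 1, 4, 3, 5], 60), (101, [2, 1, 0, 5, 3, 4], [2, 1, 0, 4, 5, 3], 60), (105, [2, 1, 0, 4, 5, 3], [2, 1, 0, 5, 3, 4], 59)], 0, [0, 1, 2, 3, 4, 9]),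
  ([8, 13, 22, 142], [(29, [0, 1, 2, 3, 4, 5], [0, 1, 2, 3, 4, 5], 57), (33, [0, 1, 2, 4, 5, 3], [0, 1, 2, 5, 3, 4], 57), (65, [0, 1, 2, 3, 4, 5], [0, 1, 2, 3, 4, 5], 62), (69, [1, 0, 2, 4, 5, 3], [1, 0, 2, 5, 3, 4], 62), (101, [0, 2, 1, 3, 4, 5], [0, 2, 1, 3, 4, 5], 62), (105, [1, 2, 0, 4, 5, 3], [2, 0, 1, 5, 3, 4], 62)], 0, [0, 1, 2, 5, 7, 8]),
  ([8, 13, 137, 142], [], 0, [0, 1, 2, 4, 8, 10]),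
  ([8, 15, 19, 29], [(34, [0, 3, 4, 5, 1, 2], [0, 4, 5, 1, 2, 3], 52), (56, [0, 1, 2, 3, 4, 5], [0, 1, 2, 3, 4, 5], 63), (58, [0, 1, 2, 3, 4, 5], [0, 1, 2, 3, 4, 5], 64), (59, [0, 1, 2, 3, 4, 5], [0, 1, 2, 3, 4, 5], 65), (62, [0, 3, 1, 2, 4, 5], [0, 2, 3, 1, 4, 5], 64), (68, [0, 3, 1, 2, 4, 5], [0, 2, 3, 1, 4, 5], 65), (70, [0, 1, 2, 3, 4, 5], [0, 1, 2, 3, 4, 5], 66), (99, [0, 2, 3, 1, 4, 5], [0, 3, 1, 2, 4, 5], 64), (105, [0, 2, 3, 1, 4, 5], [0, 3, 1, 2, 4, 5], 65), (106, [0, 3, 1, 2, 4, 5], [0, 2, 3, 1, 4, 5], 66), (142, [0, 2, 3, 1, 4, 5], [0, 3, 1, 2, 4, 5], 66)], 0, [0, 5, 7, 10, 1, 2]),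
  ([8, 15, 19, 56], [(29, [0, 1, 2, 3, 4, 5], [0, 1, 2, 3, 4, 5], 63), (34, [0, 1, 2, 3, 5, 4], [0, 1, 2, 3, 5, 4], 63), (65, [1, 0, 3, 2, 4, 5], [1, 0, 3, 2, 4, 5], 63), (70, [1, 0, 3, 2, 5, 4], [1, 0, 3, 2, 5, 4], 63), (101, [1, 2, 0, 3, 4, 5], [2, 0, 1, 3, 4, 5], 63), (106, [1, 2, 0, 3, 5, 4], [2, 0, 1, 3, 5, 4], 63), (137, [1, 3, 2, 0, 4, 5], [3, 0, 2, 1, 4, 5], 63), (142, [1, 3, 2, 0, 5, 4], [3, 0, 2, 1, 5, 4], 63)], 4, [1, 5, 9, 6, 0, 2]),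
  ([8, 15, 19, 58], [(29, [0, 1, 2, 3, 4, 5], [0, 1, 2, 3, 4, 5], 64), (34, [0, 1, 2, 3, 5, 4], [0, 1, 2, 3, 5, 4], 65), (62, [0, 1, 2, 3, 4, 5], [0, 1, 2, 3, 4, 5], 67), (65, [0, 1, 2, 3, 4, 5], [0, 1, 2, 3, 4, 5], 68), (68, [0, 1, 2, 3, 4, 5], [0, 1, 2, 3, 4, 5], 69), (99, [0, 2, 3, 1, 4, 5], [0, 3, 1, 2, 4, 5], 67), (101, [0, 1, 2, 3, 4, 5], [0, 1, 2, 3, 4, 5], 70), (105, [0, 2, 3, 1, 5, 4], [0, 3, 1, 2, 5, 4], 69), (106, [0, 1, 2, 3, 4, 5], [0, 1, 2, 3, 4, 5], 71), (142, [0, 1, 2, 3, 4, 5], [0, 1, 2, 3, 4, 5], 72)], 0, [0, 5, 7, 10, 6, 1]),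
  ([8, 15, 19, 65], [(34, [0, 1, 2, 3, 5, 4], [0, 1, 2, 3, 5, 4], 66), (56, [1, 0, 3, 2, 4, 5], [1, 0, 3, 2, 4, 5], 63), (58, [0, 1, 2, 3, 4, 5], [0, 1, 2, 3, 4, 5], 68), (68, [0, 3, 1, 2, 5, 4], [0, 2, 3, 1, 5, 4], 72), (70, [4, 0, 3, 5, 1, 2], [1, 4, 5, 2, 0, 3], 57), (99, [0, 2, 3, 1, 4, 5], [0, 3, 1, 2, 4, 5], 70), (105, [0, 2, 3, 1, 5, 4], [0, 3, 1, 2, 5, 4], 71), (106, [0, 1, 2, 3, 4, 5], [0, 1, 2, 3, 4, 5], 73), (142, [0, 2, 3, 1, 5, 4], [0, 3, 1, 2, 5, 4], 73)], 0, [0, 5, 7, 10, 1, 3]),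
  ([8, 15, 22, 25], [(56, [1, 2, 0, 3, 4, 5], [2, 0, 1, 3, 4, 5], 67), (59, [0, 1, 2, 3, 4, 5], [0, 1, 2, 3, 4, 5], 74), (62, [1, 0, 3, 4, 2, 5], [1, 0, 4, 2, 3, 5], 67), (63, [1, 3, 4, 2, 0, 5], [4, 0, 3, 1, 2, 5], 67), (65, [0, 1, 2, 3, 4, 5], [0, 1, 2, 3, 4, 5], 75), (68, [0, 4, 1, 2, 3, 5], [0, 2, 3, 4, 1, 5], 75), (69, [0, 3, 4, 1, 2, 5], [0, 3, 4, 1, 2, 5], 74), (99, [1, 4, 2, 0, 3, 5], [3, 0, 2, 4, 1, 5], 67), (101, [0, 4, 1, 2, 3, 5], [0, 2, 3, 4, 1, 5], 74), (105, [0, 3, 4, 1, 2, 5], [0, 3, 4, 1, 2, 5], 75), (106, [0, 2, 3, 4, 1, 5], [0, 4, 1, 2, 3, 5], 74), (142, [0, 2, 3, 4, 1, 5], [0, 4, 1, 2, 3, 5], 75)], 0, [11, 3, 8, 5, 9, 0]),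
  ([8, 15, 22, 29], [(31, [0, 1, 2, 3, 4, 5], [0, 1, 2, 3, 4, 5], 76), (56, [1, 2, 0, 3, 4, 5], [2, 0, 1, 3, 4, 5], 68), (59, [0, 1, 2, 3, 4, 5], [0, 1, 2, 3, 4, 5], 77), (62, [0, 1, 2, 3, 4, 5], [0, 1, 2, 3, 4, 5], 78), (63, [0, 1, 2, 3, 4, 5], [0, 1, 2, 3, 4, 5], 79), (68, [0, 1, 2, 3, 4, 5], [0, 1, 2, 3, 4, 5], 80), (69, [0, 1, 2, 3, 4, 5], [0, 1, 2, 3, 4, 5], 81), (70, [0, 1, 2, 3, 4, 5], [0, 1, 2, 3, 4, 5], 82), (99, [1, 5, 2, 0, 3, 4], [3, 0, 2, 4, 5, 1], 69), (105, [0, 1, 2, 3, 4, 5], [0, 1, 2, 3, 4, 5], 83), (106, [0, 1, 2, 3, 4, 5], [0, 1, 2, 3, 4, 5], 84), (142, [3, 5, 4, 1, 0, 2], [4, 3, 5, 0, 2, 1], 72)], 0, [1, 4, 11, 7, 8, 6]),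
  ([8, 15, 22, 59], [(25, [0, 1, 2, 3, 4, 5], [0, 1, 2, 3, 4, 5], 74), (29, [0, 1, 2, 3, 4, 5], [0, 1, 2, 3, 4, 5], 77), (62, [0, 1, 2, 3, 4, 5], [0, 1, 2, 3, 4, 5], 85), (63, [4, 2, 5, 0, 3, 1], [3, 5, 1, 4, 0, 2], 84), (68, [0, 1, 2, 3, 4, 5], [0, 1, 2, 3, 4, 5], 86), (69, [4, 1, 5, 0, 3, 2], [3, 1, 5, 4, 0, 2], 56), (70, [0, 1, 2, 3, 4, 5], [0, 1, 2, 3, 4, 5], 87), (99, [3, 5, 1, 0, 2, 4], [3, 2, 4, 0, 5, 1], 65), (101, [0, 1, 2, 3, 4, 5], [0, 1, 2, 3, 4, 5], 88), (105, [2, 5, 3, 0, 1, 4], [3, 4, 0, 2, 5, 1], 83), (106, [0, 1, 2, 3, 4, 5], [0, 1, 2, 3, 4, 5], 89)], 0, [1, 6, 10, 9, 4, 5]),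
  ([8, 15, 22, 62], [(25, [1, 0, 3, 4, 2, 5], [1, 0, 4, 2, 3, 5], 67), (29, [0, 1, 2, 3, 4, 5], [0, 1, 2, 3, 4, 5], 78), (31, [0, 2, 3, 4, 5, 1], [0, 5, 1, 2, 3, 4], 83), (59, [0, 1, 2, 3, 4, 5], [0, 1, 2, 3, 4, 5], 85), (69, [2, 3, 0, 1, 4, 5], [2, 3, 0, 1, 4, 5], 85), (70, [0, 1, 2, 3, 4, 5], [0, 1, 2, 3, 4, 5], 90), (99, [3, 4, 1, 0, 2, 5], [3, 2, 4, 0, 1, 5], 67), (101, [2, 3, 0, 1, 4, 5], [2, 3, 0, 1, 4, 5], 78), (105, [3, 4, 0, 2, 5, 1], [2, 5, 3, 0, 1, 4], 83), (142, [2, 3, 0, 1, 4, 5], [2, 3, 0, 1, 4, 5], 90)], 0, [7, 5, 8, 1, 11, 0]),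
  ([8, 15, 22, 63], [(25, [1, 3, 4, 2, 0, 5], [4, 0, 3, 1, 2, 5], 67), (29, [0, 1, 2, 3, 4, 5], [0, 1, 2, 3, 4, 5], 79), (31, [0, 2, 3, 4, 5, 1], [0, 5, 1, 2, 3, 4], 84), (56, [2, 3, 0, 1, 4, 5], [2, 3, 0, 1, 4, 5], 67), (59, [4, 2, 5, 0, 3, 1], [3, 5, 1, 4, 0, 2], 84), (68, [2, 3, 0, 1, 5, 4], [2, 3, 0, 1, 5, 4], 86), (70, [1, 3, 5, 2, 0, 4], [4, 0, 3, 1, 5, 2], 86), (101, [0, 1, 2, 3, 4, 5], [0, 1, 2, 3, 4, 5], 91), (105, [3, 1, 4, 0, 2, 5], [3, 1, 4, 0, 2, 5], 79), (106, [3, 1, 4, 0, 2, 5], [3, 1, 4, 0, 2, 5], 91)], 0, [1, 6, 10, 9, 4, 0]),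
  ([8, 15, 22, 65], [(25, [0, 1, 2, 3, 4, 5], [0, 1, 2, 3, 4, 5], 75), (56, [1, 2, 0, 3, 4, 5], [2, 0, 1, 3, 4, 5], 70), (68, [0, 1, 2, 3, 4, 5], [0, 1, 2, 3, 4, 5], 92), (69, [0, 1, 2, 3, 4, 5], [0, 1, 2, 3, 4, 5], 93), (70, [4, 0, 3, 5, 1, 2], [1, 4, 5, 2, 0, 3], 62), (99, [3, 4, 1, 0, 2, 5], [3, 2, 4, 0, 1, 5], 71), (105, [0, 1, 2, 3, 4, 5], [0, 1, 2, 3, 4, 5], 94), (106, [0, 1, 2, 3, 4, 5], [0, 1, 2, 3, 4, 5], 95), (142, [1, 4, 5, 2, 0, 3], [4, 0, 3, 5, 1, 2], 92)], 0, [1, 4, 11, 7, 8, 10]),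
  ([8, 15, 22, 68], [(25, [0, 4, 1, 2, 3, 5], [0, 2, 3, 4, 1, 5], 75), (29, [0, 1, 2, 3, 4, 5], [0, 1, 2, 3, 4, 5], 80), (31, [1, 0, 3, 4, 5, 2], [1, 0, 5, 2, 3, 4], 68), (59, [0, 1, 2, 3, 4, 5], [0, 1, 2, 3, 4, 5], 86), (63, [2, 3, 0, 1, 5, 4], [2, 3, 0, 1, 5, 4], 86), (65, [0, 1, 2, 3, 4, 5], [0, 1, 2, 3, 4, 5], 92), (99, [3, 4, 1, 0, 2, 5], [3, 2, 4, 0, 1, 5], 68), (105, [1, 2, 0, 4, 5, 3], [2, 0, 1, 5, 3, 4], 75), (106, [2, 3, 0, 1, 5, 4], [2, 3, 0, 1, 5, 4], 80), (142, [2, 3, 0, 1, 5, 4], [2, 3, 0, 1, 5, 4], 92)], 0, [1, 6, 10, 9, 4, 5]),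
  ([8, 15, 22, 69], [(25, [0, 3, 4, 1, 2, 5], [0, 3, 4, 1, 2, 5], 74), (29, [0, 1, 2, 3, 4, 5], [0, 1, 2, 3, 4, 5], 81), (31, [0, 2, 3, 4, 5, 1], [0, 5, 1, 2, 3, 4], 78), (56, [2, 3, 0, 1, 5, 4], [2, 3, 0, 1, 5, 4], 69), (59, [4, 1, 5, 0, 3, 2], [3, 1, 5, 4, 0, 2], 56), (62, [2, 3, 0, 1, 4, 5], [2, 3, 0, 1, 4, 5], 85), (65, [0, 1, 2, 3, 4, 5], [0, 1, 2, 3, 4, 5], 93), (99, [3, 4, 1, 0, 2, 5], [3, 2, 4, 0, 1, 5], 64), (101, [0, 1, 2, 3, 4, 5], [0, 1, 2, 3, 4, 5], 96), (106, [0, 1, 2, 3, 4, 5], [0, 1, 2, 3, 4, 5], 97), (142, [4, 1, 5, 0, 3, 2], [3, 1, 5, 4, 0, 2], 82)], 0, [1, 4, 11, 7, 8, 6]),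
  ([8, 15, 22, 70], [(29, [0, 1, 2, 3, 4, 5], [0, 1, 2, 3, 4, 5], 82), (31, [0, 2, 3, 4, 5, 1], [0, 5, 1, 2, 3, 4], 80), (56, [1, 2, 0, 3, 4, 5], [2, 0, 1, 3, 4, 5], 71), (59, [0, 1, 2, 3, 4, 5], [0, 1, 2, 3, 4, 5], 87), (62, [0, 1, 2, 3, 4, 5], [0, 1, 2, 3, 4, 5], 90), (63, [1, 3, 5, 2, 0, 4], [4, 0, 3, 1, 5, 2], 86), (65, [4, 0, 3, 5, 1, 2], [1, 4, 5, 2, 0, 3], 62), (99, [3, 4, 1, 0, 2, 5], [3, 2, 4, 0, 1, 5], 70), (101, [0, 1, 2, 3, 4, 5], [0, 1, 2, 3, 4, 5], 98), (105, [0, 1, 2, 3, 4, 5], [0, 1, 2, 3, 4, 5], 99)], 0, [1, 4, 11, 7, 8, 10]),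
  ([8, 15, 22, 101], [(25, [0, 4, 1, 2, 3, 5], [0, 2, 3, 4, 1, 5], 74), (31, [0, 2, 3, 4, 5, 1], [0, 5, 1, 2, 3, 4], 77), (56, [1, 2, 0, 3, 4, 5], [2, 0, 1, 3, 4, 5], 64), (59, [0, 1, 2, 3, 4, 5], [0, 1, 2, 3, 4, 5], 88), (62, [2, 3, 0, 1, 4, 5], [2, 3, 0, 1, 4, 5], 78), (63, [0, 1, 2, 3, 4, 5], [0, 1, 2, 3, 4, 5], 91), (69, [0, 1, 2, 3, 4, 5], [0, 1, 2, 3, 4, 5], 96), (70, [0, 1, 2, 3, 4, 5], [0, 1, 2, 3, 4, 5], 98), (105, [4, 5, 0, 3, 1, 2], [2, 4, 5, 3, 0, 1], 79), (106, [4, 5, 0, 3, 1, 2], [2, 4, 5, 3, 0, 1], 54), (142, [1, 5, 4, 2, 0, 3], [4, 0, 3, 5, 2, 1], 90)], 0, [1, 4, 11, 7, 8, 5]),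
  ([8, 15, 22, 105], [(25, [0, 3, 4, 1, 2, 5], [0, 3, 4, 1, 2, 5], 75), (29, [0, 1, 2, 3, 4, 5], [0, 1, 2, 3, 4, 5], 83), (31, [0, 2, 3, 4, 5, 1], [0, 5, 1, 2, 3, 4], 79), (59, [2, 5, 3, 0, 1, 4], [3, 4, 0, 2, 5, 1], 83), (62, [3, 4, 0, 2, 5, 1], [2, 5, 3, 0, 1, 4], 83), (63, [3, 1, 4, 0, 2, 5], [3, 1, 4, 0, 2, 5], 79), (65, [0, 1, 2, 3, 4, 5], [0, 1, 2, 3, 4, 5], 94), (68, [1, 2, 0, 4, 5, 3], [2, 0, 1, 5, 3, 4], 75), (70, [0, 1, 2, 3, 4, 5], [0, 1, 2, 3, 4, 5], 99), (101, [4, 5, 0, 3, 1, 2], [2, 4, 5, 3, 0, 1], 79), (142, [4, 5, 1, 0, 3, 2], [3, 2, 5, 4, 0, 1], 75)], 0, [1, 6, 10, 9, 4, 3]),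
  ([8, 15, 22, 106], [(25, [0, 2, 3, 4, 1, 5], [0, 4, 1, 2, 3, 5], 74), (29, [0, 1, 2, 3, 4, 5], [0, 1, 2, 3, 4, 5], 84), (31, [0, 2, 3, 4, 5, 1], [0, 5, 1, 2, 3, 4], 81), (56, [1, 2, 0, 3, 5, 4], [2, 0, 1, 3, 5, 4], 65), (59, [0, 1, 2, 3, 4, 5], [0, 1, 2, 3, 4, 5], 89), (63, [3, 1, 4, 0, 2, 5], [3, 1, 4, 0, 2, 5], 91), (65, [0, 1, 2, 3, 4, 5], [0, 1, 2, 3, 4, 5], 95), (68, [2, 3, 0, 1, 5, 4], [2, 3, 0, 1, 5, 4], 80), (69, [0, 1, 2, 3, 4, 5], [0, 1, 2, 3, 4, 5], 97), (99, [3, 4, 1, 0, 2, 5], [3, 2, 4, 0, 1, 5], 69), (101, [4, 5, 0, 3, 1, 2], [2, 4, 5, 3, 0, 1], 54)], 0, [1, 4, 11, 7, 8, 3]),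
  ([8, 15, 22, 142], [(25, [0, 2, 3, 4, 1, 5], [0, 4, 1, 2, 3, 5], 75), (29, [3, 5, 4, 1, 0, 2], [4, 3, 5, 0, 2, 1], 72), (31, [0, 2, 3, 4, 5, 1], [0, 5, 1, 2, 3, 4], 82), (56, [1, 2, 0, 3, 4, 5], [2, 0, 1, 3, 4, 5], 72), (62, [2, 3, 0, 1, 4, 5], [2, 3, 0, 1, 4, 5], 90), (65, [1, 4, 5, 2, 0, 3], [4, 0, 3, 5, 1, 2], 92), (68, [2, 3, 0, 1, 5, 4], [2, 3, 0, 1, 5, 4], 92), (69, [4, 1, 5, 0, 3, 2], [3, 1, 5, 4, 0, 2], 82), (101, [1, 5, 4, 2, 0, 3], [4, 0, 3, 5, 2, 1], 90), (105, [4, 5, 1, 0, 3, 2], [3, 2, 5, 4, 0, 1], 75)], 0, [1, 4, 11, 7, 8, 5]),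
  ([8, 15, 29, 58], [(19, [0, 1, 2, 3, 4, 5], [0, 1, 2, 3, 4, 5], 64), (31, [0, 3, 4, 5, 1, 2], [0, 4, 5, 1, 2, 3], 77), (34, [0, 3, 4, 5, 1, 2], [0, 4, 5, 1, 2, 3], 53), (62, [2, 3, 0, 1, 4, 5], [2, 3, 0, 1, 4, 5], 91), (63, [3, 1, 4, 0, 2, 5], [3, 1, 4, 0, 2, 5], 60), (68, [2, 3, 0, 1, 5, 4], [2, 3, 0, 1, 5, 4], 97), (69, [0, 1, 2, 3, 4, 5], [0, 1, 2, 3, 4, 5], 100), (99, [1, 4, 2, 0, 3, 5], [3, 0, 2, 4, 1, 5], 85), (105, [3, 4, 0, 2, 5, 1], [2, 5, 3, 0, 1, 4], 89), (106, [3, 4, 1, 5, 0, 2], [4, 2, 5, 0, 1, 3], 100), (142, [4, 1, 5, 2, 0, 3], [4, 1, 3, 5, 0, 2], 98)], 0, [0, 5, 7, 10, 6, 11]),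
  ([8, 15, 29, 59], [(19, [0, 1, 2, 3, 4, 5], [0, 1, 2, 3, 4, 5], 65), (22, [0, 1, 2, 3, 4, 5], [0, 1, 2, 3, 4, 5], 77), (34, [0, 3, 4, 5, 2, 1], [0, 5, 4, 1, 2, 3], 53), (62, [2, 3, 0, 1, 4, 5], [2, 3, 0, 1, 4, 5], 96), (63, [0, 1, 2, 3, 4, 5], [0, 1, 2, 3, 4, 5], 101), (68, [4, 0, 3, 1, 5, 2], [1, 3, 5, 2, 0, 4], 91), (69, [3, 2, 4, 0, 5, 1], [3, 5, 1, 0, 2, 4], 58), (70, [1, 3, 5, 4, 2, 0], [5, 0, 4, 1, 3, 2], 87), (99, [3, 4, 0, 2, 1, 5], [2, 4, 3, 0, 1, 5], 97), (105, [3, 4, 0, 2, 5, 1], [2, 5, 3, 0, 1, 4], 85), (106, [1, 4, 3, 5, 2, 0], [5, 0, 4, 2, 1, 3], 101)], 0, [0, 5, 7, 10, 11, 6]),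
  ([8, 15, 29, 63], [(22, [0, 1, 2, 3, 4, 5], [0, 1, 2, 3, 4, 5], 79), (31, [0, 3, 4, 5, 1, 2], [0, 4, 5, 1, 2, 3], 81), (34, [0, 3, 4, 5, 1, 2], [0, 4, 5, 1, 2, 3], 55), (56, [2, 3, 0, 1, 4, 5], [2, 3, 0, 1, 4, 5], 70), (58, [3, 1, 4, 0, 2, 5], [3, 1, 4, 0, 2, 5], 60), (59, [0, 1, 2, 3, 4, 5], [0, 1, 2, 3, 4, 5], 101), (68, [2, 3, 0, 1, 5, 4], [2, 3, 0, 1, 5, 4], 89), (70, [4, 2, 5, 1, 0, 3], [4, 3, 1, 5, 0, 2], 95), (105, [3, 4, 0, 2, 5, 1], [2, 5, 3, 0, 1, 4], 88), (106, [3, 5, 1, 4, 0, 2], [4, 2, 5, 0, 3, 1], 101)], 0, [1, 4, 11, 7, 6, 10]),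
  ([8, 15, 29, 69], [(22, [0, 1, 2, 3, 4, 5], [0, 1, 2, 3, 4, 5], 81), (31, [0, 3, 4, 5, 1, 2], [0, 4, 5, 1, 2, 3], 83), (34, [0, 3, 4, 5, 2, 1], [0, 5, 4, 1, 2, 3], 55), (56, [2, 3, 0, 1, 5, 4], [2, 3, 0, 1, 5, 4], 71), (58, [0, 1, 2, 3, 4, 5], [0, 1, 2, 3, 4, 5], 100), (59, [3, 2, 4, 0, 5, 1], [3, 5, 1, 0, 2, 4], 58), (62, [2, 3, 0, 1, 4, 5], [2, 3, 0, 1, 4, 5], 88), (99, [3, 4, 0, 2, 1, 5], [2, 4, 3, 0, 1, 5], 96), (106, [1, 5, 3, 4, 2, 0], [5, 0, 4, 2, 3, 1], 100), (142, [1, 4, 5, 3, 2, 0], [5, 0, 4, 3, 1, 2], 93)], 0, [1, 4, 11, 7, 8, 6]),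
  ([8, 15, 29, 70], [(19, [0, 1, 2, 3, 4, 5], [0, 1, 2, 3, 4, 5], 66), (22, [0, 1, 2, 3, 4, 5], [0, 1, 2, 3, 4, 5], 82), (31, [1, 3, 4, 5, 2, 0], [5, 0, 4, 1, 2, 3], 68), (56, [1, 2, 0, 3, 4, 5], [2, 0, 1, 3, 4, 5], 73), (59, [1, 3, 5, 4, 2, 0], [5, 0, 4, 1, 3, 2], 87), (62, [4, 2, 1, 5, 0, 3], [4, 2, 1, 5, 0, 3], 90), (63, [4, 2, 5, 1, 0, 3], [4, 3, 1, 5, 0, 2], 95), (99, [3, 4, 0, 2, 1, 5], [2, 4, 3, 0, 1, 5], 93), (105, [3, 4, 0, 2, 5, 1], [2, 5, 3, 0, 1, 4], 87)], 0, [1, 7, 8, 6, 4, 11]),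
  ([8, 15, 29, 106], [(19, [0, 3, 1, 2, 4, 5], [0, 2, 3, 1, 4, 5], 66), (22, [0, 1, 2, 3, 4, 5], [0, 1, 2, 3, 4, 5], 84), (31, [0, 3, 4, 5, 1, 2], [0, 4, 5, 1, 2, 3], 78), (56, [1, 2, 0, 3, 5, 4], [2, 0, 1, 3, 5, 4], 66), (58, [3, 4, 1, 5, 0, 2], [4, 2, 5, 0, 1, 3], 100), (59, [1, 4, 3, 5, 2, 0], [5, 0, 4, 2, 1, 3], 101), (63, [3, 5, 1, 4, 0, 2], [4, 2, 5, 0, 3, 1], 101), (68, [2, 3, 0, 1, 5, 4], [2, 3, 0, 1, 5, 4], 84), (69, [1, 5, 3, 4, 2, 0], [5, 0, 4, 2, 3, 1], 100), (99, [4, 5, 0, 3, 2, 1], [2, 5, 4, 3, 0, 1], 78)], 0, [1, 8, 6, 10, 9, 4]),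
  ([8, 15, 29, 142], [(19, [0, 2, 3, 1, 4, 5], [0, 3, 1, 2, 4, 5], 66), (22, [3, 5, 4, 1, 0, 2], [4, 3, 5, 0, 2, 1], 72), (31, [0, 3, 4, 5, 1, 2], [0, 4, 5, 1, 2, 3], 80), (56, [2, 3, 0, 1, 5, 4], [2, 3, 0, 1, 5, 4], 73), (58, [4, 1, 5, 2, 0, 3], [4, 1, 3, 5, 0, 2], 98), (62, [2, 3, 0, 1, 4, 5], [2, 3, 0, 1, 4, 5], 98), (68, [2, 3, 0, 1, 5, 4], [2, 3, 0, 1, 5, 4], 95), (69, [1, 4, 5, 3, 2, 0], [5, 0, 4, 3, 1, 2], 93), (105, [3, 4, 0, 2, 5, 1], [2, 5, 3, 0, 1, 4], 86)], 0, [1, 7, 8, 6, 9, 4]),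
  ([8, 15, 65, 142], [(19, [0, 2, 3, 1, 5, 4], [0, 3, 1, 2, 5, 4], 73), (22, [1, 4, 5, 2, 0, 3], [4, 0, 3, 5, 1, 2], 92), (25, [0, 2, 3, 4, 1, 5], [0, 4, 1, 2, 3, 5], 92), (56, [3, 1, 0, 2, 4, 5], [2, 1, 3, 0, 4, 5], 73), (58, [5, 1, 4, 2, 0, 3], [4, 1, 3, 5, 2, 0], 73), (68, [5, 2, 1, 4, 3, 0], [5, 2, 1, 4, 3, 0], 92), (69, [4, 2, 5, 1, 3, 0], [5, 3, 1, 4, 0, 2], 73), (105, [3, 4, 0, 2, 5, 1], [2, 5, 3, 0, 1, 4], 92)], 0, [3, 9, 10, 7, 6, 4]),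
  ([8, 22, 59, 101], [(13, [0, 1, 2, 3, 4, 5], [0, 1, 2, 3, 4, 5], 59), (15, [0, 1, 2, 3, 4, 5], [0, 1, 2, 3, 4, 5], 88), (17, [3, 4, 0, 5, 1, 2], [2, 4, 5, 0, 1, 3], 88), (25, [0, 3, 4, 1, 2, 5], [0, 3, 4, 1, 2, 5], 97), (27, [2, 4, 5, 0, 1, 3], [3, 4, 0, 5, 1, 2], 59), (33, [2, 4, 5, 0, 1, 3], [3, 4, 0, 5, 1, 2], 88), (62, [1, 2, 0, 5, 3, 4], [2, 0, 1, 4, 5, 3], 97), (63, [4, 2, 5, 0, 3, 1], [3, 5, 1, 4, 0, 2], 97), (69, [5, 1, 3, 2, 4, 0], [5, 1, 3, 2, 4, 0], 59), (70, [5, 3, 1, 4, 2, 0], [5, 2, 4, 1, 3, 0], 97), (105, [5, 1, 3, 2, 4, 0], [5, 1, 3, 2, 4, 0], 88), (106, [3, 4, 0, 5, 1, 2], [2, 4, 5, 0, 1, 3], 59)], 0, [0, 1, 2, 3, 4, 5]),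
  ([8, 22, 59, 106], [(13, [1, 0, 2, 3, 5, 4], [1, 0, 2, 3, 5, 4], 59), (15, [0, 1, 2, 3, 4, 5], [0, 1, 2, 3, 4, 5], 89), (25, [0, 3, 4, 1, 2, 5], [0, 3, 4, 1, 2, 5], 96), (27, [0, 3, 4, 2, 1, 5], [0, 4, 3, 1, 2, 5], 61), (29, [3, 5, 1, 4, 0, 2], [4, 2, 5, 0, 3, 1], 89), (33, [2, 4, 5, 0, 1, 3], [3, 4, 0, 5, 1, 2], 96), (63, [4, 2, 5, 0, 3, 1], [3, 5, 1, 4, 0, 2], 89), (68, [1, 2, 0, 5, 4, 3], [2, 0, 1, 5, 4, 3], 99), (69, [5, 2, 4, 1, 3, 0], [5, 3, 1, 4, 2, 0], 59), (99, [1, 5, 3, 2, 0, 4], [4, 0, 3, 2, 5, 1], 96), (101, [3, 4, 0, 5, 1, 2], [2, 4, 5, 0, 1, 3], 59)], 0, [0, 1, 2, 3, 4, 5]),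
  ([8, 22, 65, 105], [(13, [0, 1, 2, 3, 4, 5], [0, 1, 2, 3, 4, 5], 61), (15, [0, 1, 2, 3, 4, 5], [0, 1, 2, 3, 4, 5], 94), (25, [0, 3, 4, 1, 2, 5], [0, 3, 4, 1, 2, 5], 94), (27, [0, 3, 4, 1, 2, 5], [0, 3, 4, 1, 2, 5], 61), (68, [1, 2, 0, 4, 5, 3], [2, 0, 1, 5, 3, 4], 94), (70, [3, 2, 5, 4, 0, 1], [4, 5, 1, 0, 3, 2], 61), (95, [3, 4, 0, 2, 5, 1], [2, 5, 3, 0, 1, 4], 61), (142, [1, 4, 5, 2, 0, 3], [4, 0, 3, 5, 1, 2], 94)], 0, [0, 1, 2, 4, 3, 5]),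
  ([8, 13, 22, 27, 59], [(69, [0, 1, 2, 3, 4, 5], [0, 1, 2, 3, 4, 5], 102), (70, [0, 1, 2, 3, 4, 5], [0, 1, 2, 3, 4, 5], 103), (101, [0, 1, 2, 3, 4, 5], [0, 1, 2, 3, 4, 5], 104), (105, [0, 4, 3, 1, 2, 5], [0, 3, 4, 2, 1, 5], 103), (106, [0, 1, 2, 3, 4, 5], [0, 1, 2, 3, 4, 5], 105)], 0, [0, 1, 2, 3, 4, 5]),
  ([8, 13, 22, 29, 33], [(59, [0, 1, 2, 3, 4, 5], [0, 1, 2, 3, 4, 5], 106), (63, [0, 1, 2, 5, 3, 4], [0, 1, 2, 4, 5, 3], 106), (70, [0, 1, 2, 4, 5, 3], [0, 1, 2, 5, 3, 4], 106), (95, [0, 2, 1, 3, 4, 5], [0, 2, 1, 3, 4, 5], 106), (99, [0, 2, 1, 5, 3, 4], [0, 2, 1, 4, 5, 3], 106), (106, [0, 2, 1, 4, 5, 3], [0, 2, 1, 5, 3, 4], 106), (142, [0, 1, 2, 3, 4, 5], [0, 1, 2, 3, 4, 5], 107)], 0, [0, 1, 2, 5, 7, 10]),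
  ([8, 13, 22, 29, 59], [(33, [0, 1, 2, 3, 4, 5], [0, 1, 2, 3, 4, 5], 106), (63, [0, 1, 2, 3, 4, 5], [0, 1, 2, 3, 4, 5], 108), (69, [1, 0, 2, 3, 5, 4], [1, 0, 2, 3, 5, 4], 103), (70, [0, 1, 2, 3, 4, 5], [0, 1, 2, 3, 4, 5], 109), (99, [0, 1, 2, 3, 4, 5], [0, 1, 2, 3, 4, 5], 110), (105, [0, 1, 2, 3, 4, 5], [0, 1, 2, 3, 4, 5], 111), (106, [0, 1, 2, 3, 4, 5], [0, 1, 2, 3, 4, 5], 112)], 0, [0, 3, 4, 10, 5, 7]),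
  ([8, 13, 22, 29, 63], [(33, [0, 1, 2, 5, 3, 4], [0, 1, 2, 4, 5, 3], 106), (59, [0, 1, 2, 3, 4, 5], [0, 1, 2, 3, 4, 5], 108), (70, [0, 1, 2, 3, 4, 5], [0, 1, 2, 3, 4, 5], 113), (95, [0, 2, 1, 3, 4, 5], [0, 2, 1, 3, 4, 5], 110), (105, [0, 1, 2, 3, 4, 5], [0, 1, 2, 3, 4, 5], 114), (106, [0, 1, 2, 3, 4, 5], [0, 1, 2, 3, 4, 5], 115)], 0, [0, 3, 4, 7, 10, 5]),
  ([8, 13, 22, 29, 69], [(59, [1, 0, 2, 3, 5, 4], [1, 0, 2, 3, 5, 4], 103), (95, [0, 2, 1, 3, 4, 5], [0, 2, 1, 3, 4, 5], 111), (99, [0, 2, 1, 3, 4, 5], [0, 2, 1, 3, 4, 5], 114), (106, [0, 1, 2, 3, 4, 5], [0, 1, 2, 3, 4, 5], 116), (142, [0, 1, 2, 3, 4, 5], [0, 1, 2, 3, 4, 5], 117)], 0, [1, 3, 5, 9, 4, 11]),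
  ([8, 13, 22, 29, 70], [(33, [0, 1, 2, 4, 5, 3], [0, 1, 2, 5, 3, 4], 106), (59, [0, 1, 2, 3, 4, 5], [0, 1, 2, 3, 4, 5], 109), (63, [0, 1, 2, 3, 4, 5], [0, 1, 2, 3, 4, 5], 113), (95, [0, 2, 1, 3, 4, 5], [0, 2, 1, 3, 4, 5], 112), (99, [0, 2, 1, 3, 4, 5], [0, 2, 1, 3, 4, 5], 115), (105, [0, 2, 1, 3, 4, 5], [0, 2, 1, 3, 4, 5], 116)], 0, [0, 3, 4, 5, 7, 10]),
  ([8, 13, 22, 29, 142], [(33, [0, 1, 2, 3, 4, 5], [0, 1, 2, 3, 4, 5], 107), (69, [0, 1, 2, 3, 4, 5], [0, 1, 2, 3, 4, 5], 117), (105, [0, 2, 1, 3, 4, 5], [0, 2, 1, 3, 4, 5], 117)], 0, [1, 0, 2, 4, 11, 7]),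
  ([8, 13, 22, 59, 99], [(29, [0, 1, 2, 3, 4, 5], [0, 1, 2, 3, 4, 5], 110), (33, [0, 1, 2, 4, 5, 3], [0, 1, 2, 5, 3, 4], 115), (69, [4, 0, 3, 1, 5, 2], [1, 3, 5, 2, 0, 4], 103), (70, [1, 0, 2, 3, 5, 4], [1, 0, 2, 3, 5, 4], 111), (106, [2, 1, 0, 5, 4, 3], [2, 1, 0, 5, 4, 3], 116)], 0, [0, 4, 3, 7, 10, 11]),
  ([8, 13, 22, 59, 101], [(27, [0, 1, 2, 3, 4, 5], [0, 1, 2, 3, 4, 5], 104), (33, [0, 1, 2, 4, 5, 3], [0, 1, 2, 5, 3, 4], 114), (63, [2, 0, 1, 4, 3, 5], [1, 2, 0, 4, 3, 5], 110), (69, [1, 0, 2, 3, 5, 4], [1, 0, 2, 3, 5, 4], 105), (70, [1, 0, 2, 3, 5, 4], [1, 0, 2, 3, 5, 4], 112), (105, [1, 2, 0, 5, 3, 4], [2, 0, 1, 4, 5, 3], 116), (106, [3, 4, 0, 5, 1, 2], [2, 4, 5, 0, 1, 3], 104)], 0, [0, 1, 2, 3, 4, 5]),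
  ([8, 13, 22, 63, 105], [(29, [0, 1, 2, 3, 4, 5], [0, 1, 2, 3, 4, 5], 114), (59, [1, 0, 2, 4, 3, 5], [1, 0, 2, 4, 3, 5], 115), (70, [2, 0, 1, 5, 4, 3], [1, 2, 0, 5, 4, 3], 112), (95, [4, 3, 0, 1, 5, 2], [2, 3, 5, 1, 0, 4], 103), (101, [2, 1, 0, 5, 3, 4], [2, 1, 0, 4, 5, 3], 111)], 0, [0, 3, 4, 7, 10, 6]),
  ([8, 13, 22, 65, 105], [(27, [0, 1, 2, 4, 3, 5], [0, 1, 2, 4, 3, 5], 105), (70, [2, 0, 1, 5, 4, 3], [1, 2, 0, 5, 4, 3], 105), (95, [1, 2, 0, 3, 5, 4], [2, 0, 1, 3, 5, 4], 105), (142, [0, 1, 2, 3, 4, 5], [0, 1, 2, 3, 4, 5], 118)], 0, [0, 1, 2, 4, 3, 5]),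
  ([8, 13, 22, 65, 142], [(33, [0, 1, 2, 4, 5, 3], [0, 1, 2, 5, 3, 4], 117), (69, [1, 0, 2, 5, 3, 4], [1, 0, 2, 4, 5, 3], 117), (105, [0, 1, 2, 3, 4, 5], [0, 1, 2, 3, 4, 5], 118)], 0, [0, 1, 2, 5, 7, 8]),
  ([8, 15, 19, 29, 56], [(34, [0, 3, 4, 5, 1, 2], [0, 4, 5, 1, 2, 3], 107), (70, [0, 1, 2, 3, 4, 5], [0, 1, 2, 3, 4, 5], 119), (106, [0, 3, 1, 2, 4, 5], [0, 2, 3, 1, 4, 5], 119), (142, [0, 2, 3, 1, 4, 5], [0, 3, 1, 2, 4, 5], 119)], 4, [1, 5, 9, 6, 0, 3]),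
  ([8, 15, 19, 29, 58], [(34, [0, 3, 4, 5, 1, 2], [0, 4, 5, 1, 2, 3], 106), (62, [0, 1, 2, 3, 4, 5], [0, 1, 2, 3, 4, 5], 120), (68, [0, 1, 2, 3, 4, 5], [0, 1, 2, 3, 4, 5], 121), (99, [0, 2, 3, 1, 4, 5], [0, 3, 1, 2, 4, 5], 120), (105, [0, 1, 2, 3, 4, 5], [0, 1, 2, 3, 4, 5], 122), (106, [0, 1, 2, 3, 4, 5], [0, 1, 2, 3, 4, 5], 123), (142, [0, 1, 2, 3, 4, 5], [0, 1, 2, 3, 4, 5], 124)], 0, [0, 5, 7, 10, 6, 11]),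
  ([8, 15, 19, 29, 59], [(34, [0, 3, 4, 5, 2, 1], [0, 5, 4, 1, 2, 3], 106), (62, [0, 3, 1, 2, 4, 5], [0, 2, 3, 1, 4, 5], 122), (68, [0, 1, 2, 3, 4, 5], [0, 1, 2, 3, 4, 5], 125), (70, [0, 1, 2, 3, 4, 5], [0, 1, 2, 3, 4, 5], 126), (99, [0, 2, 3, 1, 4, 5], [0, 3, 1, 2, 4, 5], 121), (105, [0, 2, 3, 1, 4, 5], [0, 3, 1, 2, 4, 5], 125), (106, [0, 1, 2, 3, 4, 5], [0, 1, 2, 3, 4, 5], 127)], 0, [0, 5, 7, 10, 11, 6]),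
  ([8, 15, 19, 29, 70], [(56, [0, 1, 2, 3, 4, 5], [0, 1, 2, 3, 4, 5], 119), (59, [0, 1, 2, 3, 4, 5], [0, 1, 2, 3, 4, 5], 126), (62, [0, 3, 1, 2, 4, 5], [0, 2, 3, 1, 4, 5], 124), (99, [0, 2, 3, 1, 4, 5], [0, 3, 1, 2, 4, 5], 123), (105, [0, 2, 3, 1, 4, 5], [0, 3, 1, 2, 4, 5], 127)], 0, [11, 7, 1, 4, 8, 5]),
  ([8, 15, 19, 58, 62], [(29, [0, 1, 2, 3, 4, 5], [0, 1, 2, 3, 4, 5], 120), (34, [0, 1, 2, 3, 5, 4], [0, 1, 2, 3, 5, 4], 125), (99, [0, 1, 2, 3, 4, 5], [0, 1, 2, 3, 4, 5], 128), (101, [0, 1, 2, 3, 4, 5], [0, 1, 2, 3, 4, 5], 129), (105, [0, 1, 2, 3, 4, 5], [0, 1, 2, 3, 4, 5], 130), (142, [0, 1, 2, 3, 4, 5], [0, 1, 2, 3, 4, 5], 131)], 2, [0, 3, 4, 5, 1, 2]),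
  ([8, 15, 19, 58, 65], [(34, [0, 1, 2, 3, 5, 4], [0, 1, 2, 3, 5, 4], 126), (68, [0, 1, 2, 3, 4, 5], [0, 1, 2, 3, 4, 5], 132), (99, [0, 2, 3, 1, 4, 5], [0, 3, 1, 2, 4, 5], 129), (105, [0, 1, 2, 3, 4, 5], [0, 1, 2, 3, 4, 5], 133), (106, [0, 1, 2, 3, 4, 5], [0, 1, 2, 3, 4, 5], 134), (142, [0, 1, 2, 3, 4, 5], [0, 1, 2, 3, 4, 5], 135)], 0, [0, 5, 7, 10, 6, 9]),
  ([8, 15, 19, 58, 68], [(29, [0, 1, 2, 3, 4, 5], [0, 1, 2, 3, 4, 5], 121), (34, [0, 3, 1, 2, 5, 4], [0, 2, 3, 1, 5, 4], 122), (65, [0, 1, 2, 3, 4, 5], [0, 1, 2, 3, 4, 5], 132), (99, [0, 2, 3, 1, 4, 5], [0, 3, 1, 2, 4, 5], 130), (105, [0, 3, 1, 2, 5, 4], [0, 2, 3, 1, 5, 4], 130), (106, [0, 3, 1, 2, 5, 4], [0, 2, 3, 1, 5, 4], 133), (142, [0, 1, 2, 3, 4, 5], [0, 1,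 2, 3, 4, 5], 136)], 0, [0, 5, 7, 10, 6, 8]),
  ([8, 15, 19, 58, 101], [(34, [0, 1, 2, 3, 5, 4], [0, 1, 2, 3, 5, 4], 127), (62, [0, 1, 2, 3, 4, 5], [0, 1, 2, 3, 4, 5], 129), (105, [0, 2, 3, 1, 5, 4], [0, 3, 1, 2, 5, 4], 136), (106, [4, 5, 0, 3, 1, 2], [2, 4, 5, 3, 0, 1], 117), (142, [0, 1, 2, 3, 4, 5], [0, 1, 2, 3, 4, 5], 137)], 0, [0, 5, 7, 10, 6, 3]),
  ([8, 15, 19, 58, 106], [(29, [0, 1, 2, 3, 4, 5], [0, 1, 2, 3, 4, 5], 123), (65, [0, 1, 2, 3, 4, 5], [0, 1, 2, 3, 4, 5], 134), (68, [0, 3, 1, 2, 5, 4], [0, 2, 3, 1, 5, 4], 133), (99, [0, 2, 3, 1, 4, 5], [0, 3, 1, 2, 4, 5], 131), (101, [4, 5, 0, 3, 1, 2], [2, 4, 5, 3, 0, 1], 117)], 0, [0, 5, 7, 10, 6, 4]),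
  ([8, 15, 19, 58, 142], [(29, [0, 1, 2, 3, 4, 5], [0, 1, 2, 3, 4, 5], 124), (62, [0, 1, 2, 3, 4, 5], [0, 1, 2, 3, 4, 5], 131), (65, [0, 1, 2, 3, 4, 5], [0, 1, 2, 3, 4, 5], 135), (68, [0, 1, 2, 3, 4, 5], [0, 1, 2, 3, 4, 5], 136), (101, [0, 1, 2, 3, 4, 5], [0, 1, 2, 3, 4, 5], 137), (105, [0, 2, 3, 1, 5, 4], [0, 3, 1, 2, 5, 4], 132)], 0, [0, 5, 7, 10, 6, 1]),
  ([8, 15, 19, 65, 106], [(56, [2, 0, 1, 3, 4, 5], [1, 2, 0, 3, 4, 5], 119), (58, [0, 1, 2, 3, 4, 5], [0, 1, 2, 3, 4, 5], 134), (68, [0, 3, 1, 2, 5, 4], [0, 2, 3, 1, 5, 4], 135), (99, [0, 2, 3, 1, 4, 5], [0, 3, 1, 2, 4, 5], 137)], 1, [0, 7, 10, 5, 8, 2]),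
  ([8, 15, 22, 25, 59], [(62, [1, 0, 3, 4, 2, 5], [1, 0, 4, 2, 3, 5], 120), (63, [1, 3, 4, 2, 0, 5], [4, 0, 3, 1, 2, 5], 130), (68, [0, 1, 2, 3, 4, 5], [0, 1, 2, 3, 4, 5], 138), (69, [4, 0, 3, 1, 5, 2], [1, 3, 5, 2, 0, 4], 113), (99, [1, 5, 2, 0, 3, 4], [3, 0, 2, 4, 5, 1], 125), (101, [0, 1, 2, 3, 4, 5], [0, 1, 2, 3, 4, 5], 139), (105, [0, 1, 2, 3, 4, 5], [0, 1, 2, 3, 4, 5], 140), (106, [0, 2, 3, 4, 1, 5], [0, 4, 1, 2, 3, 5], 139)], 0, [11, 3, 8, 5, 9, 1]),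
  ([8, 15, 22, 25, 65], [(56, [1, 2, 0, 3, 4, 5], [2, 0, 1, 3, 4, 5], 129), (68, [0, 1, 2, 3, 4, 5], [0, 1, 2, 3, 4, 5], 141), (69, [0, 3, 4, 1, 2, 5], [0, 3, 4, 1, 2, 5], 140), (99, [1, 4, 2, 0, 3, 5], [3, 0, 2, 4, 1, 5], 131), (105, [0, 1, 2, 3, 4, 5], [0, 1, 2, 3, 4, 5], 142), (106, [0, 2, 3, 4, 1, 5], [0, 4, 1, 2, 3, 5], 138), (142, [0, 2, 3, 4, 1, 5], [0, 4, 1, 2, 3, 5], 141)], 0, [11, 3, 8, 5, 9, 10]),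
  ([8, 15, 22, 29, 31], [(56, [1, 2, 0, 3, 4, 5], [2, 0, 1, 3, 4, 5], 132), (62, [0, 1, 2, 3, 4, 5], [0, 1, 2, 3, 4, 5], 143), (63, [0, 4, 5, 1, 2, 3], [0, 3, 4, 5, 1, 2], 143), (68, [1, 0, 3, 4, 5, 2], [1, 0, 5, 2, 3, 4], 132), (69, [0, 2, 3, 4, 5, 1], [0, 5, 1, 2, 3, 4], 143), (70, [1, 3, 4, 5, 2, 0], [5, 0, 4, 1, 2, 3], 132), (99, [1, 5, 2, 0, 3, 4], [3, 0, 2, 4, 5, 1], 132), (105, [0, 5, 1, 2, 3, 4], [0, 2, 3, 4, 5, 1], 143), (106, [0, 3, 4, 5, 1, 2], [0, 4, 5, 1, 2, 3], 143), (142, [1, 4, 5, 2, 0, 3], [4, 0, 3, 5, 1, 2], 132)], 0, [4, 1, 9, 6, 7, 11]),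
  ([8, 15, 22, 29, 59], [(62, [0, 1, 2, 3, 4, 5], [0, 1, 2, 3, 4, 5], 144), (63, [0, 1, 2, 3, 4, 5], [0, 1, 2, 3, 4, 5], 145), (68, [0, 1, 2, 3, 4, 5], [0, 1, 2, 3, 4, 5], 146), (69, [4, 2, 5, 0, 3, 1], [3, 5, 1, 4, 0, 2], 115), (70, [0, 1, 2, 3, 4, 5], [0, 1, 2, 3, 4, 5], 147), (99, [1, 5, 2, 0, 3, 4], [3, 0, 2, 4, 5, 1], 121), (105, [0, 1, 2, 3, 4, 5], [0, 1, 2, 3, 4, 5], 148), (106, [0, 1, 2, 3, 4, 5], [0, 1, 2, 3, 4, 5], 149)], 0, [1, 8, 6, 10, 9, 4]),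
  ([8, 15, 22, 29, 62], [(31, [0, 1, 2, 3, 4, 5], [0, 1, 2, 3, 4, 5], 143), (59, [0, 1, 2, 3, 4, 5], [0, 1, 2, 3, 4, 5], 144), (69, [0, 1, 2, 3, 4, 5], [0, 1, 2, 3, 4, 5], 150), (70, [0, 1, 2, 3, 4, 5], [0, 1, 2, 3, 4, 5], 151), (99, [3, 4, 1, 0, 2, 5], [3, 2, 4, 0, 1, 5], 130), (105, [3, 4, 0, 2, 5, 1], [2, 5, 3, 0, 1, 4], 148), (142, [3, 5, 4, 1, 0, 2], [4, 3, 5, 0, 2, 1], 124)], 0, [7, 5, 8, 1, 11, 4]),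
  ([8, 15, 22, 29, 63], [(31, [0, 4, 5, 1, 2, 3], [0, 3, 4, 5, 1, 2], 143), (56, [2, 3, 0, 1, 4, 5], [2, 3, 0, 1, 4, 5], 129), (59, [0, 1, 2, 3, 4, 5], [0, 1, 2, 3, 4, 5], 145), (68, [0, 1, 2, 3, 4, 5], [0, 1, 2, 3, 4, 5], 152), (70, [1, 3, 5, 2, 0, 4], [4, 0, 3, 1, 5, 2], 138), (105, [0, 1, 2, 3, 4, 5], [0, 1, 2, 3, 4, 5], 153), (106, [3, 5, 1, 4, 0, 2], [4, 2, 5, 0, 3, 1], 145)], 0, [1, 6, 10, 9, 4, 11]),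
  ([8, 15, 22, 29, 68], [(31, [1, 0, 3, 4, 5, 2], [1, 0, 5, 2, 3, 4], 132), (59, [0, 1, 2, 3, 4, 5], [0, 1, 2, 3, 4, 5], 146), (63, [0, 1, 2, 3, 4, 5], [0, 1, 2, 3, 4, 5], 152), (99, [3, 4, 1, 0, 2, 5], [3, 2, 4, 0, 1, 5], 133), (105, [3, 4, 0, 2, 5, 1], [2, 5, 3, 0, 1, 4], 140), (106, [0, 1, 2, 3, 4, 5], [0, 1, 2, 3, 4, 5], 154), (142, [3, 5, 4, 1, 0, 2], [4, 3, 5, 0, 2, 1], 137)], 0, [4, 11, 1, 9, 6, 7]),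
  ([8, 15, 22, 29, 69], [(31, [0, 2, 3, 4, 5, 1], [0, 5, 1, 2, 3, 4], 143), (56, [1, 2, 0, 3, 4, 5], [2, 0, 1, 3, 4, 5], 133), (59, [4, 2, 5, 0, 3, 1], [3, 5, 1, 4, 0, 2], 115), (62, [0, 1, 2, 3, 4, 5], [0, 1, 2, 3, 4, 5], 150), (99, [3, 4, 1, 0, 2, 5], [3, 2, 4, 0, 1, 5], 122), (106, [0, 1, 2, 3, 4, 5], [0, 1, 2, 3, 4, 5], 155), (142, [3, 5, 4, 1, 0, 2], [4, 3, 5, 0, 2, 1], 136)], 0, [1, 4, 11, 7, 8, 6]),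
  ([8, 15, 22, 29, 70], [(31, [1, 3, 4, 5, 2, 0], [5, 0, 4, 1, 2, 3], 132), (56, [1, 2, 0, 3, 4, 5], [2, 0, 1, 3, 4, 5], 134), (59, [0, 1, 2, 3, 4, 5], [0, 1, 2, 3, 4, 5], 147), (62, [0, 1, 2, 3, 4, 5], [0, 1, 2, 3, 4, 5], 151), (63, [1, 3, 5, 2, 0, 4], [4, 0, 3, 1, 5, 2], 138), (99, [1, 5, 2, 0, 3, 4], [3, 0, 2, 4, 5, 1], 136), (105, [0, 1, 2, 3, 4, 5], [0, 1, 2, 3, 4, 5], 156)], 0, [4, 1, 9, 6, 7, 11]),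
  ([8, 15, 22, 29, 105], [(31, [0, 5, 1, 2, 3, 4], [0, 2, 3, 4, 5, 1], 143), (59, [0, 1, 2, 3, 4, 5], [0, 1, 2, 3, 4, 5], 148), (62, [3, 4, 0, 2, 5, 1], [2, 5, 3, 0, 1, 4], 148), (63, [0, 1, 2, 3, 4, 5], [0, 1, 2, 3, 4, 5], 153), (68, [3, 4, 0, 2, 5, 1], [2, 5, 3, 0, 1, 4], 140), (70, [0, 1, 2, 3, 4, 5], [0, 1, 2, 3, 4, 5], 156), (142, [3, 5, 4, 1, 0, 2], [4, 3, 5, 0, 2, 1], 131)], 0, [7, 0, 5, 8, 1, 11]),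
  ([8, 15, 22, 29, 106], [(31, [0, 3, 4, 5, 1, 2], [0, 4, 5, 1, 2, 3], 143), (56, [1, 2, 0, 3, 5, 4], [2, 0, 1, 3, 5, 4], 126), (59, [0, 1, 2, 3, 4, 5], [0, 1, 2, 3, 4, 5], 149), (63, [3, 5, 1, 4, 0, 2], [4, 2, 5, 0, 3, 1], 145), (68, [0, 1, 2, 3, 4, 5], [0, 1, 2, 3, 4, 5], 154), (69, [0, 1, 2, 3, 4, 5], [0, 1, 2, 3, 4, 5], 155), (99, [2, 5, 3, 0, 1, 4], [3, 4, 0, 2, 5, 1], 130)], 0, [1, 8, 6, 10, 9, 4]),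
  ([8, 15, 22, 59, 62], [(25, [1, 0, 3, 4, 2, 5], [1, 0, 4, 2, 3, 5], 120), (29, [0, 1, 2, 3, 4, 5], [0, 1, 2, 3, 4, 5], 144), (69, [4, 1, 5, 0, 3, 2], [3, 1, 5, 4, 0, 2], 109), (70, [5, 0, 4, 1, 3, 2], [1, 3, 5, 4, 2, 0], 147), (99, [3, 5, 1, 0, 2, 4], [3, 2, 4, 0, 5, 1], 125), (101, [2, 3, 0, 1, 4, 5], [2, 3, 0, 1, 4, 5], 150), (105, [2, 5, 3, 0, 1, 4], [3, 4, 0, 2, 5, 1], 148)], 0, [7, 5, 8, 1, 11, 3]),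
  ([8, 15, 22, 59, 68], [(25, [0, 1, 2, 3, 4, 5], [0, 1, 2, 3, 4, 5], 138), (29, [0, 1, 2, 3, 4, 5], [0, 1, 2, 3, 4, 5], 146), (63, [4, 2, 5, 0, 3, 1], [3, 5, 1, 4, 0, 2], 154), (99, [3, 5, 1, 0, 2, 4], [3, 2, 4, 0, 5, 1], 126), (105, [4, 2, 1, 3, 5, 0], [5, 2, 1, 3, 0, 4], 131), (106, [2, 3, 0, 1, 5, 4], [2, 3, 0, 1, 5, 4], 152)], 0, [1, 6, 10, 9, 4, 5]),
  ([8, 15, 22, 59, 70], [(29, [0, 1, 2, 3, 4, 5], [0, 1, 2, 3, 4, 5], 147), (62, [5, 0, 4, 1, 3, 2], [1, 3, 5, 4, 2, 0], 147), (63, [5, 0, 4, 1, 3, 2], [1, 3, 5, 4, 2, 0], 126), (99, [3, 5, 1, 0, 2, 4], [3, 2, 4, 0, 5, 1], 127), (101, [0, 1, 2, 3, 4, 5], [0, 1, 2, 3, 4, 5], 157), (105, [2, 5, 3, 0, 1, 4], [3, 4, 0, 2, 5, 1], 156)], 0, [1, 7, 8, 6, 10, 3]),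
  ([8, 15, 22, 59, 101], [(25, [0, 1, 2, 3, 4, 5], [0, 1, 2, 3, 4, 5], 139), (62, [2, 3, 0, 1, 4, 5], [2, 3, 0, 1, 4, 5], 150), (63, [4, 2, 5, 0, 3, 1], [3, 5, 1, 4, 0, 2], 155), (69, [4, 2, 5, 0, 3, 1], [3, 5, 1, 4, 0, 2], 116), (70, [0, 1, 2, 3, 4, 5], [0, 1, 2, 3, 4, 5], 157), (105, [2, 5, 3, 0, 1, 4], [3, 4, 0, 2, 5, 1], 153), (106, [4, 5, 0, 3, 1, 2], [2, 4, 5, 3, 0, 1], 114)], 0, [3, 11, 9, 10, 7, 2]),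
  ([8, 15, 22, 59, 106], [(25, [0, 2, 3, 4, 1, 5], [0, 4, 1, 2, 3, 5], 139), (29, [0, 1, 2, 3, 4, 5], [0, 1, 2, 3, 4, 5], 149), (63, [4, 2, 5, 0, 3, 1], [3, 5, 1, 4, 0, 2], 149), (68, [2, 3, 0, 1, 5, 4], [2, 3, 0, 1, 5, 4], 152), (69, [4, 2, 5, 0, 3, 1], [3, 5, 1, 4, 0, 2], 112), (99, [2, 5, 3, 0, 1, 4], [3, 4, 0, 2, 5, 1], 122), (101, [4, 5, 0, 3, 1, 2], [2, 4, 5, 3, 0, 1], 114)], 0, [1, 8, 6, 10, 9, 4]),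
  ([8, 15, 22, 62, 70], [(29, [0, 1, 2, 3, 4, 5], [0, 1, 2, 3, 4, 5], 151), (31, [3, 0, 2, 5, 1, 4], [1, 4, 2, 0, 5, 3], 140), (59, [5, 0, 4, 1, 3, 2], [1, 3, 5, 4, 2, 0], 147), (99, [3, 4, 1, 0, 2, 5], [3, 2, 4, 0, 1, 5], 129), (101, [4, 1, 3, 5, 0, 2], [4, 1, 5, 2, 0, 3], 124), (105, [3, 4, 0, 2, 5, 1], [2, 5, 3, 0, 1, 4], 156)], 0, [7, 5, 8, 1, 11, 9]),
  ([8, 15, 22, 63, 101], [(25, [1, 3, 5, 2, 0, 4], [4, 0, 3, 1, 5, 2], 125), (31, [0, 2, 3, 4, 5, 1], [0, 5, 1, 2, 3, 4], 149), (56, [2, 3, 0, 1, 4, 5], [2, 3, 0, 1, 4, 5], 120), (59, [4, 2, 5, 0, 3, 1], [3, 5, 1, 4, 0, 2], 155), (70, [1, 3, 5, 2, 0, 4], [4, 0, 3, 1, 5, 2], 146), (105, [4, 5, 0, 3, 1, 2], [2, 4, 5, 3, 0, 1], 145), (106, [3, 5, 1, 4, 0, 2], [4, 2, 5,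 0, 3, 1], 108)], 0, [1, 6, 10, 9, 4, 8]),
  ([8, 15, 22, 65, 68], [(25, [0, 1, 2, 3, 4, 5], [0, 1, 2, 3, 4, 5], 141), (99, [3, 4, 1, 0, 2, 5], [3, 2, 4, 0, 1, 5], 134), (105, [1, 2, 0, 4, 5, 3], [2, 0, 1, 5, 3, 4], 142), (106, [4, 1, 3, 5, 2, 0], [5, 1, 4, 2, 0, 3], 137), (142, [0, 1, 2, 3, 4, 5], [0, 1, 2, 3, 4, 5], 158)], 0, [4, 9, 6, 7, 11, 5]),
  ([8, 15, 22, 65, 69], [(25, [0, 3, 4, 1, 2, 5], [0, 3, 4, 1, 2, 5], 140), (56, [2, 3, 0, 1, 5, 4], [2, 3, 0, 1, 5, 4], 136), (99, [3, 4, 1, 0, 2, 5], [3, 2, 4, 0, 1, 5], 123), (106, [5, 2, 4, 1, 3, 0], [5, 3, 1, 4, 2, 0], 157), (142, [4, 2, 5, 1, 3, 0], [5, 3, 1, 4, 0, 2], 134)], 0, [4, 1, 9, 6, 7, 8]),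
  ([8, 15, 22, 65, 105], [(25, [0, 1, 2, 3, 4, 5], [0, 1, 2, 3, 4, 5], 142), (68, [1, 2, 0, 4, 5, 3], [2, 0, 1, 5, 3, 4], 142), (70, [3, 2, 5, 4, 0, 1], [4, 5, 1, 0, 3, 2], 118), (142, [2, 5, 3, 0, 1, 4], [3, 4, 0, 2, 5, 1], 142)], 0, [3, 11, 9, 10, 7, 1]),
  ([8, 15, 22, 65, 106], [(25, [0, 2, 3, 4, 1, 5], [0, 4, 1, 2, 3, 5], 138), (56, [1, 2, 0, 3, 5, 4], [2, 0, 1, 3, 5, 4], 127), (68, [4, 1, 3, 5, 2, 0], [5, 1, 4, 2, 0, 3], 137), (69, [5, 2, 4, 1, 3, 0], [5, 3, 1, 4, 2, 0], 157), (99, [2, 5, 3, 0, 1, 4], [3, 4, 0, 2, 5, 1], 133)], 0, [3, 7, 6, 2, 8, 1]),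
  ([8, 15, 22, 69, 101], [(25, [0, 4, 1, 2, 3, 5], [0, 2, 3, 4, 1, 5], 139), (31, [0, 2, 3, 4, 5, 1], [0, 5, 1, 2, 3, 4], 144), (56, [1, 2, 0, 3, 4, 5], [2, 0, 1, 3, 4, 5], 122), (59, [4, 2, 5, 0, 3, 1], [3, 5, 1, 4, 0, 2], 116), (62, [2, 3, 0, 1, 4, 5], [2, 3, 0, 1, 4, 5], 144), (106, [4, 5, 0, 3, 2, 1], [2, 5, 4, 3, 0, 1], 110), (142, [4, 1, 5, 0, 3, 2], [3, 1, 5, 4, 0, 2], 156)], 0, [1, 7, 8, 6, 10, 4]),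
  ([8, 15, 22, 69, 106], [(25, [0, 3, 4, 1, 2, 5], [0, 3, 4, 1, 2, 5], 139), (29, [0, 1, 2, 3, 4, 5], [0, 1, 2, 3, 4, 5], 155), (31, [0, 2, 3, 4, 5, 1], [0, 5, 1, 2, 3, 4], 150), (56, [2, 3, 0, 1, 5, 4], [2, 3, 0, 1, 5, 4], 121), (59, [4, 2, 5, 0, 3, 1], [3, 5, 1, 4, 0, 2], 112), (65, [5, 2, 4, 1, 3, 0], [5, 3, 1, 4, 2, 0], 157), (99, [3, 4, 1, 0, 2, 5], [3, 2, 4, 0, 1, 5], 121), (101, [4, 5, 0, 3, 2, 1], [2, 5, 4, 3, 0, 1], 110)], 0, [1, 7, 8, 6, 10, 4]),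
  ([8, 15, 22, 70, 101], [(31, [0, 2, 3, 4, 5, 1], [0, 5, 1, 2, 3, 4], 146), (56, [1, 2, 0, 3, 4, 5], [2, 0, 1, 3, 4, 5], 123), (59, [0, 1, 2, 3, 4, 5], [0, 1, 2, 3, 4, 5], 157), (62, [4, 1, 3, 5, 0, 2], [4, 1, 5, 2, 0, 3], 124), (63, [1, 3, 5, 2, 0, 4], [4, 0, 3, 1, 5, 2], 146), (105, [4, 5, 0, 3, 1, 2], [2, 4, 5, 3, 0, 1], 152)], 0, [3, 9, 10, 7, 6, 5]),
  ([8, 15, 22, 70, 105], [(29, [0, 1, 2, 3, 4, 5], [0, 1, 2, 3, 4, 5], 156), (31, [0, 2, 3, 4, 5, 1], [0, 5, 1, 2, 3, 4], 152), (59, [2, 5, 3, 0, 1, 4], [3, 4, 0, 2, 5, 1], 156), (62, [3, 4, 0, 2, 5, 1], [2, 5, 3, 0, 1, 4], 156), (63, [3, 1, 4, 0, 2, 5], [3, 1, 4, 0, 2, 5], 152), (65, [3, 2, 5, 4, 0, 1], [4, 5, 1, 0, 3, 2], 118), (101, [4, 5, 0, 3, 1, 2], [2, 4, 5,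 3, 0, 1], 152)], 0, [4, 9, 6, 7, 11, 3]),
  ([8, 15, 29, 58, 69], [(31, [0, 3, 4, 5, 1, 2], [0, 4, 5, 1, 2, 3], 148), (34, [0, 3, 4, 5, 1, 2], [0, 4, 5, 1, 2, 3], 111), (62, [5, 0, 4, 2, 3, 1], [1, 5, 3, 4, 2, 0], 155), (99, [1, 4, 2, 0, 3, 5], [3, 0, 2, 4, 1, 5], 144), (106, [0, 1, 2, 3, 4, 5], [0, 1, 2, 3, 4, 5], 159), (142, [4, 2, 5, 0, 1, 3], [3, 4, 1, 5, 0, 2], 123)], 0, [1, 9, 4, 11, 5, 3]),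
  ([8, 15, 29, 59, 63], [(22, [0, 1, 2, 3, 4, 5], [0, 1, 2, 3, 4, 5], 145), (34, [0, 3, 4, 5, 2, 1], [0, 5, 4, 1, 2, 3], 111), (68, [5, 0, 4, 2, 1, 3], [1, 4, 3, 5, 2, 0], 149), (70, [5, 0, 4, 2, 1, 3], [1, 4, 3, 5, 2, 0], 127), (105, [1, 4, 2, 0, 5, 3], [3, 0, 2, 5, 1, 4], 150), (106, [0, 1, 2, 3, 4, 5], [0, 1, 2, 3, 4, 5], 160)], 0, [1, 9, 4, 11, 3, 5]),
  ([8, 13, 22, 27, 59, 69], [(101, [0, 1, 2, 3, 4, 5], [0, 1, 2, 3, 4, 5], 161), (106, [0, 3, 4, 1, 2, 5], [0, 3, 4, 1, 2, 5], 161)], 0, [0, 1, 2, 3, 4, 5]),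
  ([8, 13, 22, 27, 59, 70], [(101, [0, 1, 2, 3, 4, 5], [0, 1, 2, 3, 4, 5], 162), (105, [0, 4, 3, 1, 2, 5], [0, 3, 4, 2, 1, 5], 162)], 0, [0, 3, 4, 8, 9, 11]),
  ([8, 13, 22, 27, 59, 101], [(69, [0, 1, 2, 3, 4, 5], [0, 1, 2, 3, 4, 5], 161), (70, [0, 1, 2, 3, 4, 5], [0, 1, 2, 3, 4, 5], 162), (105, [0, 2, 1, 4, 3, 5], [0, 2, 1, 4, 3, 5], 162), (106, [0, 2, 1, 4, 3, 5], [0, 2, 1, 4, 3, 5], 161)], 0, [0, 1, 2, 3, 4, 5]),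
  ([8, 13, 22, 27, 59, 106], [(69, [0, 3, 4, 1, 2, 5], [0, 3, 4, 1, 2, 5], 161), (101, [0, 2, 1, 4, 3, 5], [0, 2, 1, 4, 3, 5], 161)], 0, [0, 1, 2, 3, 4, 5]),
  ([8, 13, 22, 29, 33, 59], [(63, [0, 1, 2, 3, 4, 5], [0, 1, 2, 3, 4, 5], 163), (70, [0, 1, 2, 4, 5, 3], [0, 1, 2, 5, 3, 4], 163), (99, [0, 1, 2, 3, 4, 5], [0, 1, 2, 3, 4, 5], 164), (106, [0, 2, 1, 4, 5, 3], [0, 2, 1, 5, 3, 4], 164)], 0, [0, 3, 4, 10, 5, 7]),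
  ([8, 13, 22, 29, 33, 142], [], 4, [5, 7, 10, 1, 6, 9]),
  ([8, 13, 22, 29, 59, 63], [(33, [0, 1, 2, 3, 4, 5], [0, 1, 2, 3, 4, 5], 163), (70, [1, 0, 2, 4, 3, 5], [1, 0, 2, 4, 3, 5], 163), (105, [0, 1, 2, 3, 4, 5], [0, 1, 2, 3, 4, 5], 165), (106, [1, 0, 2, 4, 3, 5], [1, 0, 2, 4, 3, 5], 165)], 0, [1, 5, 3, 6, 10, 9]),
  ([8, 13, 22, 29, 59, 70], [(33, [0, 1, 2, 4, 5, 3], [0, 1, 2, 5, 3, 4], 163), (63, [1, 0, 2, 4, 3, 5], [1, 0, 2, 4, 3, 5], 163), (99, [0, 1, 2, 3, 4, 5], [0, 1, 2, 3, 4, 5], 166), (105, [1, 0, 2, 3, 5, 4], [1, 0, 2, 3, 5, 4], 166)], 0, [1, 5, 3, 11, 7, 8]),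
  ([8, 13, 22, 29, 59, 99], [(33, [0, 1, 2, 3, 4, 5], [0, 1, 2, 3, 4, 5], 164), (69, [4, 0, 3, 1, 5, 2], [1, 3, 5, 2, 0, 4], 162), (70, [0, 1, 2, 3, 4, 5], [0, 1, 2, 3, 4, 5], 166), (106, [0, 1, 2, 3, 4, 5], [0, 1, 2, 3, 4, 5], 167)], 0, [1, 3, 5, 7, 8, 6]),
  ([8, 13, 22, 29, 59, 105], [(63, [0, 1, 2, 3, 4, 5], [0, 1, 2, 3, 4, 5], 165), (70, [1, 0, 2, 3, 5, 4], [1, 0, 2, 3, 5, 4], 166)], 0, [1, 5, 3, 9, 4, 11]),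
  ([8, 13, 22, 29, 59, 106], [(33, [0, 2, 1, 4, 5, 3], [0, 2, 1, 5, 3, 4], 164), (63, [1, 0, 2, 4, 3, 5], [1, 0, 2, 4, 3, 5], 165), (69, [1, 0, 2, 3, 5, 4], [1, 0, 2, 3, 5, 4], 162), (99, [0, 1, 2, 3, 4, 5], [0, 1, 2, 3, 4, 5], 167)], 0, [1, 5, 3, 6, 10, 9]),
  ([8, 13, 22, 29, 63, 70], [(33, [0, 1, 2, 5, 3, 4], [0, 1, 2, 4, 5, 3], 163), (59, [1, 0, 2, 4, 3, 5], [1, 0, 2, 4, 3, 5], 163), (95, [0, 2, 1, 3, 4, 5], [0, 2, 1, 3, 4, 5], 167), (105, [2, 0, 1, 5, 4, 3], [1, 2, 0, 5, 4, 3], 167)], 0, [3, 5, 1, 8, 11, 9]),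
  ([8, 13, 22, 29, 63, 105], [(59, [0, 1, 2, 3, 4, 5], [0, 1, 2, 3, 4, 5], 165), (70, [2, 0, 1, 5, 4, 3], [1, 2, 0, 5, 4, 3], 167), (95, [4, 3, 0, 1, 5, 2], [2, 3, 5, 1, 0, 4], 162)], 0, [4, 3, 0, 6, 7, 11]),
  ([8, 13, 22, 29, 63, 106], [(33, [0, 1, 2, 5, 3, 4], [0, 1, 2, 4, 5, 3], 164), (59, [1, 0, 2, 4, 3, 5], [1, 0, 2, 4, 3, 5], 165), (95, [0, 2, 1, 3, 4, 5], [0, 2, 1, 3, 4, 5], 166)], 0, [1, 5, 3, 6, 10, 9]),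
  ([8, 13, 22, 29, 69, 106], [(59, [1, 0, 2, 3, 5, 4], [1, 0, 2, 3, 5, 4], 162), (95, [1, 2, 0, 3, 5, 4], [2, 0, 1, 3, 5, 4], 166), (99, [2, 1, 0, 5, 4, 3], [2, 1, 0, 5, 4, 3], 167)], 0, [1, 3, 5, 11, 7, 8]),
  ([8, 13, 22, 29, 69, 142], [], 0, [3, 1, 5, 6, 2, 8]),
  ([8, 13, 22, 65, 105, 142], [], 6, [4, 7, 10, 8, 6, 2]),
  ([8, 15, 19, 29, 56, 70], [], 4, [1, 5, 9, 6, 3, 4]),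
  ([8, 15, 19, 29, 58, 62], [(34, [0, 3, 4, 5, 1, 2], [0, 4, 5, 1, 2, 3], 163), (99, [0, 1, 2, 3, 4, 5], [0, 1, 2, 3, 4, 5], 168), (105, [0, 1, 2, 3, 4, 5], [0, 1, 2, 3, 4, 5], 169), (142, [0, 1, 2, 3, 4, 5], [0, 1, 2, 3, 4, 5], 170)], 2, [0, 3, 4, 5, 1, 2]),
  ([8, 15, 19, 29, 58, 68], [(34, [0, 3, 4, 5, 1, 2], [0, 4, 5, 1, 2, 3], 164), (99, [0, 2, 3, 1, 4, 5], [0, 3, 1, 2, 4, 5], 169), (105, [0, 1, 2, 3, 4, 5], [0, 1, 2, 3, 4, 5], 171), (106, [0, 1, 2, 3, 4, 5], [0, 1, 2, 3, 4, 5], 172), (142, [0, 1, 2, 3, 4, 5], [0, 1, 2, 3, 4, 5], 173)], 1, [2, 8, 10, 7, 5, 3]),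
  ([8, 15, 19, 29, 58, 105], [(34, [0, 4, 5, 3, 2, 1], [0, 5, 4, 3, 1, 2], 164), (62, [0, 1, 2, 3, 4, 5], [0, 1, 2, 3, 4, 5], 169), (68, [0, 1, 2, 3, 4, 5], [0, 1, 2, 3, 4, 5], 171), (142, [0, 1, 2, 3, 4, 5], [0, 1, 2, 3, 4, 5], 174)], 1, [8, 1, 4, 6, 10, 2]),
  ([8, 15, 19, 29, 58, 106], [(68, [0, 1, 2, 3, 4, 5], [0, 1, 2, 3, 4, 5], 172), (99, [0, 2, 3, 1, 4, 5], [0, 3, 1, 2, 4, 5], 170)], 1, [9, 1, 10, 3, 5, 6]),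
  ([8, 15, 19, 29, 58, 142], [(62, [0, 1, 2, 3, 4, 5], [0, 1, 2, 3, 4, 5], 170), (68, [0, 1, 2, 3, 4, 5], [0, 1, 2, 3, 4, 5], 173), (105, [0, 1, 2, 3, 4, 5], [0, 1, 2, 3, 4, 5], 174)], 0, [11, 1, 4, 7, 8, 5]),
  ([8, 15, 19, 29, 59, 68], [(34, [0, 3, 4, 5, 2, 1], [0, 5, 4, 1, 2, 3], 163), (99, [0, 2, 3, 1, 4, 5], [0, 3, 1, 2, 4, 5], 171), (105, [4, 1, 3, 2, 5, 0], [5, 1, 3, 2, 0, 4], 168), (106, [0, 1, 2, 3, 4, 5], [0, 1, 2, 3, 4, 5], 175)], 2, [0, 3, 4, 5, 2, 1]),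
  ([8, 15, 19, 29, 59, 70], [(62, [0, 3, 1, 2, 4, 5], [0, 2, 3, 1, 4, 5], 174), (99, [0, 2, 3, 1, 4, 5], [0, 3, 1, 2, 4, 5], 172), (105, [0, 2, 3, 1, 4, 5], [0, 3, 1, 2, 4, 5], 175)], 1, [9, 10, 3, 1, 5, 6]),
  ([8, 15, 19, 29, 59, 106], [(68, [0, 1, 2, 3, 4, 5], [0, 1, 2, 3, 4, 5], 175), (99, [0, 2, 3, 1, 4, 5], [0, 3, 1, 2, 4, 5], 173)], 2, [5, 8, 6, 9, 11, 2]),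
  ([8, 15, 19, 58, 62, 99], [(29, [0, 1, 2, 3, 4, 5], [0, 1, 2, 3, 4, 5], 168), (34, [4, 1, 3, 2, 0, 5], [4, 1, 3, 2, 0, 5], 168)], 2, [0, 3, 4, 5, 1, 2]),
  ([8, 15, 19, 58, 62, 101], [(34, [0, 1, 2, 3, 5, 4], [0, 1, 2, 3, 5, 4], 175), (105, [0, 1, 2, 3, 4, 5], [0, 1, 2, 3, 4, 5], 176), (142, [0, 1, 2, 3, 4, 5], [0, 1, 2, 3, 4, 5], 177)], 2, [4, 9, 10, 11, 0, 8]),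
  ([8, 15, 19, 58, 62, 105], [(29, [0, 1, 2, 3, 4, 5], [0, 1, 2, 3, 4, 5], 169), (34, [0, 2, 3, 1, 5, 4], [0, 3, 1, 2, 5, 4], 171), (101, [0, 1, 2, 3, 4, 5], [0, 1, 2, 3, 4, 5], 176), (142, [0, 1, 2, 3, 4, 5], [0, 1, 2, 3, 4, 5], 178)], 2, [4, 9, 10, 11, 0, 3]),
  ([8, 15, 19, 58, 62, 142], [(29, [0, 1, 2, 3, 4, 5], [0, 1, 2, 3, 4, 5], 170), (101, [0, 1, 2, 3, 4, 5], [0, 1, 2, 3, 4, 5], 177), (105, [0, 1, 2, 3, 4, 5], [0, 1, 2, 3, 4, 5], 178)], 2, [4, 9, 10, 11, 0, 7]),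
  ([8, 15, 19, 58, 65, 68], [(34, [0, 3, 1, 2, 5, 4], [0, 2, 3, 1, 5, 4], 174), (99, [0, 2, 3, 1, 4, 5], [0, 3, 1, 2, 4, 5], 176), (105, [0, 3, 1, 2, 5, 4], [0, 2, 3, 1, 5, 4], 178), (106, [0, 1, 2, 3, 4, 5], [0, 1, 2, 3, 4, 5], 179), (142, [5, 1, 4, 2, 0, 3], [4, 1, 3, 5, 2, 0], 179)], 0, [11, 4, 7, 1, 9, 6]),
  ([8, 15, 19, 58, 65, 105], [(34, [0, 2, 3, 1, 5, 4], [0, 3, 1, 2, 5, 4], 172), (68, [0, 3, 1, 2, 5, 4], [0, 2, 3, 1, 5, 4], 178), (142, [0, 2, 3, 1, 5, 4], [0, 3, 1, 2, 5, 4], 179)], 0, [2, 8, 3, 6, 1, 7]),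
  ([8, 15, 19, 58, 65, 106], [(68, [0, 1, 2, 3, 4, 5], [0, 1, 2, 3, 4, 5], 179), (99, [0, 2, 3, 1, 4, 5], [0, 3, 1, 2, 4, 5], 177)], 1, [0, 7, 10, 5, 8, 2]),
  ([8, 15, 19, 58, 65, 142], [(68, [5, 1, 4, 2, 0, 3], [4, 1, 3, 5, 2, 0], 179), (105, [0, 2, 3, 1, 5, 4], [0, 3, 1, 2, 5, 4], 179)], 1, [0, 10, 5, 7, 2, 8]),
  ([8, 15, 19, 58, 68, 142], [(29, [0, 1, 2, 3, 4, 5], [0, 1, 2, 3, 4, 5], 173), (65, [5, 1, 4, 2, 0, 3], [4, 1, 3, 5, 2, 0], 179), (105, [0, 3, 1, 2, 5, 4], [0, 2, 3, 1, 5, 4], 176)], 0, [0, 10, 5, 7, 3, 6]),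
  ([8, 15, 19, 58, 101, 142], [(62, [0, 1, 2, 3, 4, 5], [0, 1, 2, 3, 4, 5], 177), (105, [5, 4, 2, 1, 3, 0], [5, 3, 2, 4, 1, 0], 179)], 1, [2, 8, 10, 7, 5, 0]),
  ([8, 15, 22, 25, 59, 68], [(63, [1, 3, 4, 2, 0, 5], [4, 0, 3, 1, 2, 5], 178), (99, [1, 5, 2, 0, 3, 4], [3, 0, 2, 4, 5, 1], 175), (105, [4, 2, 1, 3, 5, 0], [5, 2, 1, 3, 0, 4], 177), (106, [0, 1, 2, 3, 4, 5], [0, 1, 2, 3, 4, 5], 180)], 1, [9, 2, 11, 5, 6, 3]),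
  ([8, 15, 22, 25, 59, 101], [(62, [1, 0, 3, 4, 2, 5], [1, 0, 4, 2, 3, 5], 169), (63, [2, 1, 5, 3, 0, 4], [4, 1, 0, 3, 5, 2], 171), (69, [4, 0, 3, 2, 5, 1], [1, 5, 3, 2, 0, 4], 167), (105, [0, 4, 1, 2, 3, 5], [0, 2, 3, 4, 1, 5], 180), (106, [4, 3, 2, 5, 0, 1], [4, 5, 2, 1, 0, 3], 167)], 1, [5, 1, 3, 2, 4, 0]),
  ([8, 15, 22, 25, 59, 105], [(62, [1, 0, 3, 4, 2, 5], [1, 0, 4, 2, 3, 5], 170), (63, [1, 3, 4, 2, 0, 5], [4, 0, 3, 1, 2, 5], 176), (68, [4, 2, 1, 3, 5, 0], [5, 2, 1, 3, 0, 4], 177), (101, [0, 4, 1, 2, 3, 5], [0, 2, 3, 4, 1, 5], 180)], 1, [9, 5, 6, 2, 11, 4]),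
  ([8, 15, 22, 25, 65, 68], [(99, [1, 4, 2, 0, 3, 5], [3, 0, 2, 4, 1, 5], 177), (105, [0, 1, 2, 3, 4, 5], [0, 1, 2, 3, 4, 5], 181), (106, [4, 1, 3, 5, 2, 0], [5, 1, 4, 2, 0, 3], 177), (142, [0, 2, 3, 4, 1, 5], [0, 4, 1, 2, 3, 5], 181)], 5, [7, 11, 5, 6, 3, 9]),
  ([8, 15, 22, 25, 65, 105], [(68, [0, 1, 2, 3, 4, 5], [0, 1, 2, 3, 4, 5], 181), (142, [0, 3, 4, 1, 2, 5], [0, 3, 4, 1, 2, 5], 181)], 4, [1, 8, 7, 11, 10, 3]),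
  ([8, 15, 22, 29, 31, 62], [(69, [0, 1, 2, 3, 4, 5], [0, 1, 2, 3, 4, 5], 182), (70, [2, 1, 4, 5, 3, 0], [5, 1, 0, 4, 2, 3], 176), (99, [3, 4, 1, 0, 2, 5], [3, 2, 4, 0, 1, 5], 178), (105, [0, 5, 1, 2, 3, 4], [0, 2, 3, 4, 5, 1], 182), (142, [3, 5, 4, 1, 0, 2], [4, 3, 5, 0, 2, 1], 174)], 1, [11, 2, 3, 8, 5, 9]),
  ([8, 15, 22, 29, 59, 62], [(69, [4, 1, 5, 0, 3, 2], [3, 1, 5, 4, 0, 2], 166), (70, [0, 1, 2, 3, 4, 5], [0, 1, 2, 3, 4, 5], 183), (99, [1, 5, 2, 0, 3, 4], [3, 0, 2, 4, 5, 1], 171), (105, [0, 1, 2, 3, 4, 5], [0, 1, 2, 3, 4, 5], 184)], 0, [8, 1, 7, 5, 11, 3]),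
  ([8, 15, 22, 29, 59, 63], [(68, [0, 1, 2, 3, 4, 5], [0, 1, 2, 3, 4, 5], 185), (70, [5, 0, 4, 2, 1, 3], [1, 4, 3, 5, 2, 0], 175), (105, [1, 4, 2, 0, 5, 3], [3, 0, 2, 5, 1, 4], 182), (106, [0, 1, 2, 3, 4, 5], [0, 1, 2, 3, 4, 5], 186)], 2, [2, 8, 9, 3, 7, 10]),
  ([8, 15, 22, 29, 59, 68], [(63, [0, 1, 2, 3, 4, 5], [0, 1, 2, 3, 4, 5], 185), (99, [1, 5, 2, 0, 3, 4], [3, 0, 2, 4, 5, 1], 172), (105, [4, 2, 1, 3, 5, 0], [5, 2, 1, 3, 0, 4], 170), (106, [1, 4, 3, 5, 2, 0], [5, 0, 4, 2, 1, 3], 185)], 1, [1, 6, 10, 9, 3, 5]),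
  ([8, 15, 22, 29, 59, 70], [(62, [0, 1, 2, 3, 4, 5], [0, 1, 2, 3, 4, 5], 183), (63, [5, 0, 4, 2, 1, 3], [1, 4, 3, 5, 2, 0], 175), (99, [1, 5, 2, 0, 3, 4], [3, 0, 2, 4, 5, 1], 173), (105, [1, 3, 5, 4, 2, 0], [5, 0, 4, 1, 3, 2], 183)], 1, [8, 2, 7, 5, 11, 3]),
  ([8, 15, 22, 29, 59, 105], [(62, [0, 1, 2, 3, 4, 5], [0, 1, 2, 3, 4, 5], 184), (63, [1, 4, 2, 0, 5, 3], [3, 0, 2, 5, 1, 4], 182), (68, [4, 2, 1, 3, 5, 0], [5, 2, 1, 3, 0, 4], 170), (70, [1, 3, 5, 4, 2, 0], [5, 0, 4, 1, 3, 2], 183)], 1, [8, 5, 11, 3, 10, 2]),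
  ([8, 15, 22, 29, 59, 106], [(63, [0, 1, 2, 3, 4, 5], [0, 1, 2, 3, 4, 5], 186), (68, [1, 4, 3, 5, 2, 0], [5, 0, 4, 2, 1, 3], 185), (69, [3, 2, 5, 1, 4, 0], [5, 3, 1, 0, 4, 2], 165), (99, [2, 5, 3, 0, 1, 4], [3, 4, 0, 2, 5, 1], 169)], 0, [1, 8, 6, 10, 9, 4]),
  ([8, 15, 22, 29, 62, 69], [(31, [0, 1, 2, 3, 4, 5], [0, 1, 2, 3, 4, 5], 182), (59, [4, 1, 5, 0, 3, 2], [3, 1, 5, 4, 0, 2], 166), (99, [3, 4, 1, 0, 2, 5], [3, 2, 4, 0, 1, 5], 169), (142, [3, 5, 4, 1, 0, 2], [4, 3, 5, 0, 2, 1], 173)], 0, [8, 1, 7, 5, 11, 3]),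
  ([8, 15, 22, 29, 62, 70], [(31, [2, 1, 4, 5, 3, 0], [5, 1, 0, 4, 2, 3], 176), (59, [0, 1, 2, 3, 4, 5], [0, 1, 2, 3, 4, 5], 183), (99, [3, 4, 1, 0, 2, 5], [3, 2, 4, 0, 1, 5], 176), (105, [4, 2, 1, 5, 0, 3], [4, 2, 1, 5, 0, 3], 183)], 5, [1, 5, 2, 0, 3, 4]),
  ([8, 15, 22, 29, 63, 68], [(31, [3, 0, 2, 5, 4, 1], [1, 5, 2, 0, 4, 3], 174), (59, [0, 1, 2, 3, 4, 5], [0, 1, 2, 3, 4, 5], 185), (105, [2, 3, 0, 1, 5, 4], [2, 3, 0, 1, 5, 4], 180), (106, [3, 5, 1, 4, 0, 2], [4, 2, 5, 0, 3, 1], 185)], 2, [6, 2, 11, 3, 9, 5]),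
  ([8, 15, 22, 29, 63, 105], [(31, [0, 4, 5, 1, 2, 3], [0, 3, 4, 5, 1, 2], 182), (59, [1, 4, 2, 0, 5, 3], [3, 0, 2, 5, 1, 4], 182), (68, [2, 3, 0, 1, 5, 4], [2, 3, 0, 1, 5, 4], 180), (70, [1, 3, 5, 2, 0, 4], [4, 0, 3, 1, 5, 2], 180)], 3, [1, 11, 6, 10, 4, 3]),
  ([8, 15, 22, 29, 68, 106], [(31, [3, 0, 2, 5, 4, 1], [1, 5, 2, 0, 4, 3], 178), (59, [1, 4, 3, 5, 2, 0], [5, 0, 4, 2, 1, 3], 185), (63, [3, 5, 1, 4, 0, 2], [4, 2, 5, 0, 3, 1], 185), (99, [2, 5, 3, 0, 1, 4], [3, 4, 0, 2, 5, 1], 178)], 0, [6, 4, 9, 5, 10, 1]),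
  ([8, 15, 22, 29, 69, 106], [(31, [0, 2, 3, 4, 5, 1], [0, 5, 1, 2, 3, 4], 182), (56, [2, 3, 0, 1, 5, 4], [2, 3, 0, 1, 5, 4], 172), (59, [3, 2, 5, 1, 4, 0], [5, 3, 1, 0, 4, 2], 165), (99, [3, 4, 1, 0, 2, 5], [3, 2, 4, 0, 1, 5], 171)], 0, [1, 8, 6, 10, 9, 4]),
  ([8, 15, 22, 29, 70, 105], [(31, [3, 2, 5, 4, 1, 0], [5, 4, 1, 0, 3, 2], 174), (59, [1, 3, 5, 4, 2, 0], [5, 0, 4, 1, 3, 2], 183), (62, [4, 2, 1, 5, 0, 3], [4, 2, 1, 5, 0, 3], 183), (63, [1, 3, 5, 2, 0, 4], [4, 0, 3, 1, 5, 2], 180)], 1, [3, 9, 10, 8, 11, 2]),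
  ([8, 15, 22, 59, 70, 101], [(62, [4, 1, 3, 5, 0, 2], [4, 1, 5, 2, 0, 3], 173), (63, [5, 0, 4, 2, 1, 3], [1, 4, 3, 5, 2, 0], 172), (105, [5, 4, 2, 1, 3, 0], [5, 3, 2, 4, 1, 0], 180)], 1, [6, 9, 5, 10, 1, 3]),
  ([8, 15, 22, 65, 68, 142], [(25, [0, 2, 3, 4, 1, 5], [0, 4, 1, 2, 3, 5], 181), (105, [3, 4, 0, 2, 5, 1], [2, 5, 3, 0, 1, 4], 181)], 7, [0, 1, 2, 3, 4, 5]),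
  ([8, 15, 29, 58, 69, 106], [(31, [0, 3, 4, 5, 1, 2], [0, 4, 5, 1, 2, 3], 184), (99, [1, 4, 2, 0, 3, 5], [3, 0, 2, 4, 1, 5], 184)], 8, [0, 3, 4, 5, 1, 2]),
  ([8, 15, 29, 59, 63, 106], [(22, [0, 1, 2, 3, 4, 5], [0, 1, 2, 3, 4, 5], 186), (68, [1, 4, 3, 5, 2, 0], [5, 0, 4, 2, 1, 3], 186)], 9, [0, 1, 2, 3, 4, 5]),
  ([8, 13, 22, 27, 59, 69, 101], [(106, [0, 1, 2, 3, 4, 5], [0, 1, 2, 3, 4, 5], 187)], 0, [0, 1, 2, 3, 4, 5]),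
  ([8, 13, 22, 27, 59, 70, 101], [(105, [0, 1, 2, 3, 4, 5], [0, 1, 2, 3, 4, 5], 188)], 0, [0, 6, 11, 3, 4, 7]),
  ([8, 13, 22, 29, 33, 59, 63], [(70, [0, 1, 2, 3, 4, 5], [0, 1, 2, 3, 4, 5], 189), (106, [0, 1, 2, 3, 4, 5], [0, 1, 2, 3, 4, 5], 190)], 2, [0, 1, 2, 3, 4, 5]),
  ([8, 13, 22, 29, 33, 59, 99], [(70, [0, 1, 2, 4, 5, 3], [0, 1, 2, 5, 3, 4], 190), (106, [0, 2, 1, 5, 3, 4], [0, 2, 1, 4, 5, 3], 190)], 3, [0, 1, 2, 4, 5, 3]),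
  ([8, 13, 22, 29, 59, 63, 105], [(70, [1, 0, 2, 4, 3, 5], [1, 0, 2, 4, 3, 5], 190)], 0, [4, 10, 8, 1, 9, 6]),
  ([8, 13, 22, 29, 59, 70, 99], [(33, [0, 1, 2, 4, 5, 3], [0, 1, 2, 5, 3, 4], 190)], 0, [5, 1, 3, 11, 8, 7]),
  ([8, 13, 22, 29, 59, 99, 106], [(33, [0, 2, 1, 5, 3, 4], [0, 2, 1, 4, 5, 3], 190), (69, [1, 0, 2, 3, 5, 4], [1, 0, 2, 3, 5, 4], 188)], 1, [1, 0, 2, 3, 5, 4]),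
  ([8, 15, 19, 29, 58, 62, 99], [(34, [0, 3, 4, 5, 1, 2], [0, 4, 5, 1, 2, 3], 189)], 2, [0, 3, 4, 5, 1, 2]),
  ([8, 15, 19, 29, 58, 62, 105], [(34, [0, 3, 4, 5, 1, 2], [0, 4, 5, 1, 2, 3], 190), (142, [0, 1, 2, 3, 4, 5], [0, 1, 2, 3, 4, 5], 191)], 2, [4, 9, 10, 11, 0, 3]),
  ([8, 15, 19, 29, 58, 62, 142], [(105, [0, 1, 2, 3, 4, 5], [0, 1, 2, 3, 4, 5], 191)], 4, [0, 1, 2, 3, 4, 5]),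
  ([8, 15, 19, 29, 58, 68, 105], [(34, [0, 5, 3, 4, 2, 1], [0, 5, 4, 2, 3, 1], 190), (142, [0, 1, 2, 3, 4, 5], [0, 1, 2, 3, 4, 5], 192)], 2, [10, 7, 5, 2, 3, 11]),
  ([8, 15, 19, 29, 58, 68, 106], [(99, [0, 2, 3, 1, 4, 5], [0, 3, 1, 2, 4, 5], 191)], 1, [9, 1, 10, 3, 5, 6]),
  ([8, 15, 19, 29, 58, 68, 142], [(105, [0, 1, 2, 3, 4, 5], [0, 1, 2, 3, 4, 5], 192)], 5, [0, 1, 2, 3, 4, 5]),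
  ([8, 15, 19, 29, 58, 105, 142], [(62, [0, 1, 2, 3, 4, 5], [0, 1, 2, 3, 4, 5], 191), (68, [0, 1, 2, 3, 4, 5], [0, 1, 2, 3, 4, 5], 192)], 3, [3, 7, 11, 8, 5, 1]),
  ([8, 15, 19, 29, 59, 68, 106], [(99, [0, 2, 3, 1, 4, 5], [0, 3, 1, 2, 4, 5], 192)], 5, [0, 2, 3, 1, 4, 5]),
  ([8, 15, 19, 58, 62, 101, 105], [(34, [0, 2, 3, 1, 5, 4], [0, 3, 1, 2, 5, 4], 192), (142, [0, 1, 2, 3, 4, 5], [0, 1, 2, 3, 4, 5], 193)], 5, [0, 2, 3, 1, 5, 4]),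
  ([8, 15, 19, 58, 62, 101, 142], [(105, [0, 1, 2, 3, 4, 5], [0, 1, 2, 3, 4, 5], 193)], 6, [0, 1, 2, 3, 4, 5]),
  ([8, 15, 19, 58, 62, 105, 142], [(29, [0, 1, 2, 3, 4, 5], [0, 1, 2, 3, 4, 5], 191), (101, [0, 1, 2, 3, 4, 5], [0, 1, 2, 3, 4, 5], 193)], 4, [0, 1, 2, 3, 4, 5]),
  ([8, 15, 19, 58, 65, 68, 106], [(99, [0, 2, 3, 1, 4, 5], [0, 3, 1, 2, 4, 5], 193)], 1, [0, 7, 10, 5, 8, 2]),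
  ([8, 15, 22, 25, 59, 68, 106], [(63, [1, 3, 4, 2, 0, 5], [4, 0, 3, 1, 2, 5], 191), (99, [2, 5, 3, 0, 1, 4], [3, 4, 0, 2, 5, 1], 192)], 4, [1, 3, 4, 2, 0, 5]),
  ([8, 15, 22, 25, 65, 68, 105], [(142, [0, 1, 2, 3, 4, 5], [0, 1, 2, 3, 4, 5], 194)], 7, [0, 1, 2, 3, 4, 5]),
  ([8, 15, 22, 29, 31, 62, 69], [(99, [3, 4, 1, 0, 2, 5], [3, 2, 4, 0, 1, 5], 191), (142, [3, 5, 4, 1, 0, 2], [4, 3, 5, 0, 2, 1], 192)], 4, [3, 4, 1, 0, 2, 5]),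
  ([8, 15, 22, 29, 59, 62, 70], [(99, [1, 5, 2, 0, 3, 4], [3, 0, 2, 4, 5, 1], 192), (105, [0, 1, 2, 3, 4, 5], [0, 1, 2, 3, 4, 5], 195)], 5, [1, 5, 2, 0, 3, 4]),
  ([8, 15, 22, 29, 59, 62, 105], [(70, [0, 1, 2, 3, 4, 5], [0, 1, 2, 3, 4, 5], 195)], 8, [0, 1, 2, 3, 4, 5]),
  ([8, 15, 22, 29, 59, 63, 68], [(105, [4, 2, 1, 3, 5, 0], [5, 2, 1, 3, 0, 4], 191), (106, [0, 1, 2, 3, 4, 5], [0, 1, 2, 3, 4, 5], 196)], 3, [10, 2, 7, 5, 11, 4]),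
  ([8, 15, 22, 29, 59, 63, 106], [(68, [0, 1, 2, 3, 4, 5], [0, 1, 2, 3, 4, 5], 196)], 9, [0, 1, 2, 3, 4, 5]),
  ([8, 13, 22, 27, 59, 69, 101, 106], [], 0, [0, 1, 2, 3, 4, 5]),
  ([8, 13, 22, 27, 59, 70, 101, 105], [], 1, [0, 1, 2, 3, 4, 5]),
  ([8, 13, 22, 29, 33, 59, 63, 70], [], 2, [0, 1, 2, 3, 4, 5]),
  ([8, 13, 22, 29, 33, 59, 63, 106], [], 3, [0, 1, 2, 3, 4, 5]),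
  ([8, 15, 19, 29, 58, 62, 105, 142], [], 4, [0, 1, 2, 3, 4, 5]),
  ([8, 15, 19, 29, 58, 68, 105, 142], [], 5, [0, 1, 2, 3, 4, 5]),
  ([8, 15, 19, 58, 62, 101, 105, 142], [], 6, [0, 1, 2, 3, 4, 5]),
  ([8, 15, 22, 25, 65, 68, 105, 142], [], 7, [0, 1, 2, 3, 4, 5]),
  ([8, 15, 22, 29, 59, 62, 70, 105], [], 8, [0, 1, 2, 3, 4, 5]),
  ([8, 15, 22, 29, 59, 63, 68, 106], [], 9, [0, 1, 2, 3, 4, 5])]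

end Pool.Agent.MQ94
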