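import Mathlib
import Pool.Agent.MQ94.MTS
import Pool.Agent.MQ94.Red

set_option autoImplicit false

namespace Pool.Agent.MQ94

/-- the triple system of an idempotent operation with `x(yx) = y`. -/
def opSet {V : Type*} (op : V → V → V) : Set (V × V × V) :=
  {x | x.1 ≠ x.2.1 ∧ op x.1 x.2.1 = x.2.2}

theorem isMTS_opSet {V : Type*} {op : V → V → V} (h1 : ∀ x, op x x = x)
    (h2 : ∀ x y, op x (op y x) = y) : IsMTS (opSet op) := by
  have key : ∀ a b c : V, (a, b, c) ∈ opSet op → a ≠ b ∧ b ≠ c ∧ a ≠ c ∧ op b c = a := by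
    intro a b c h
    obtain ⟨hab, hc⟩ := h
    simp only at hab hc
    have h3 : op b c = a := by rw [← hc]; exact h2 b a
    have hbc : b ≠ c := by
      intro h
      apply hab
      rw [← h] at h3
      rw [← h3]; exact h1 b
    refine ⟨hab, hbc, ?_, h3⟩
    intro h
    apply hab
    have h4 : op a (op b a) = b := h2 a b
    rw [← h] at h3
    rw [h3, h1] at h4
    exact h4
  refine { distinct := ?_, rotate := ?_, unique := ?_, cover := ?_ }
  · intro a b c h
    obtain ⟨x, y, z, -⟩ := key a b c h
    exact ⟨x, y, z⟩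
  · intro a b c h
    obtain ⟨x, y, z, w⟩ := key a b c h
    exact ⟨y, w⟩
  · intro a b c d h h'
    exact h.2.symm.trans h'.2
  · intro a b hab
    exact ⟨op a b, hab, rfl⟩

/-- Sufficiency for `2 n + 1 ≤ t`. -/
theorem embeds_of_le {n t : ℕ} (T : Set (Fin n × Fin n × Fin n)) (hT : IsPartialMTS T)
    (ht : 2 * n + 1 ≤ t) (hmod : t % 3 = 0 ∨ t % 3 = 1) (h6 : t ≠ 6) :
    ∃ B : Set (Fin t × Fin t × Fin t), IsMTS B ∧ Embeds T B := by
  classical
  let p : Fin n → Fin n → Option (Fin n) := fun x y =>
    if h : ∃ z, (x, y, z) ∈ T then some h.choose else none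
  have hp : ∀ x y z, p x y = some z ↔ (x, y, z) ∈ T := by
    intro x y z
    by_cases h : ∃ z, (x, y, z) ∈ T
    · simp only [p, dif_pos h, Option.some.injEq]
      constructor
      · intro h'
        rw [← h']; exact h.choose_spec
      · intro h'
        exact hT.unique _ _ _ _ h.choose_spec h'
    · simp only [p, dif_neg h]
      constructor
      · intro h'; cases h'
      · intro h'; exact (h ⟨z, h'⟩).elim
  obtain ⟨op, ho1, ho2, f, hf⟩ := _root_.MQ94.embed_main n p
    (by
      intro x y y' z h h'
      rw [hp] at h h'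
      exact hT.unique _ _ _ _ (hT.rotate _ _ _ (hT.rotate _ _ _ h)) (hT.rotate _ _ _ (hT.rotate _ _ _ h')))
    (by
      intro x x' y z h h'
      rw [hp] at h h'
      exact hT.unique _ _ _ _ (hT.rotate _ _ _ h) (hT.rotate _ _ _ h'))
    (by
      intro x z h
      rw [hp] at h
      exact ((hT.distinct _ _ _ h).1 rfl).elim)
    (by
      intro x y z h
      rw [hp] at h ⊢
      exact hT.rotate _ _ _ h)
    t ht hmod h6
  refine ⟨opSet op, isMTS_opSet ho1 ho2, f, f.injective, ?_⟩
  intro a b c h
  refine ⟨?_, hf a b c ((hp a b c).2 h)⟩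
  intro h'
  exact (hT.distinct _ _ _ h).1 (f.injective h')

theorem isPartialMTS_empty {S : Type*} : IsPartialMTS (∅ : Set (S × S × S)) :=
  { distinct := fun _ _ _ h => h.elim
    rotate := fun _ _ _ h => h.elim
    unique := fun _ _ _ _ h => h.elim }

/-- An MTS of every admissible order exists. -/
theorem exists_mts {t : ℕ} (ht : 1 ≤ t) (hmod : t % 3 = 0 ∨ t % 3 = 1) (h6 : t ≠ 6) :
    ∃ B : Set (Fin t × Fin t × Fin t), IsMTS B := by
  by_cases h1 : t = 1
  · subst h1
    refine ⟨∅, { isPartialMTS_empty with cover := ?_ }⟩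
    intro a b hab
    exact (hab (Subsingleton.elim a b)).elim
  · obtain ⟨B, hB, -⟩ := embeds_of_le (n := 1) (t := t) ∅ isPartialMTS_empty (by omega) hmod h6
    exact ⟨B, hB⟩

/-- Number of ordered pairs of distinct points in no triple. -/
noncomputable def leave {S : Type*} [Fintype S] (T : Set (S × S × S)) : ℕ := by
  classical
  exact (Finset.univ.filter fun x : S × S => x.1 ≠ x.2 ∧ ∀ c, (x.1, x.2, c) ∉ T).card

/-- The counting bound. -/
theorem count_bound {S V : Type*} [Fintype S] [Fintype V] {T : Set (S × S × S)} {B : Set (V × V × V)}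
    (hB : IsMTS B) {f : S → V} (hf : Function.Injective f)
    (hTB : ∀ a b c : S, (a, b, c) ∈ T → (f a, f b, f c) ∈ B) {w : ℕ}
    (hw : Fintype.card V = Fintype.card S + w) :
    Fintype.card S * w + w ≤ w * w + leave T := by
  classical
  -- third point
  let op : V → V → V := fun a b => if h : a ≠ b then (hB.cover a b h).choose else a
  have hop : ∀ a b, a ≠ b → (a, b, op a b) ∈ B := by
    intro a b h
    simp only [op, dif_pos h]
    exact (hB.cover a b h).choose_spec
  have hop' : ∀ a b c, (a, b, c) ∈ B → op a b = c := by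
    intro a b c h
    exact hB.unique _ _ _ _ (hop a b (hB.distinct _ _ _ h).1) h
  let W : Finset V := Finset.univ \ Finset.univ.image f
  have hWmem : ∀ x, x ∈ W ↔ ∀ s, f s ≠ x := by
    intro x
    simp [W]
  have hWc : W.card = w := by
    have h1 : (Finset.univ.image f).card = Fintype.card S := by
      rw [Finset.card_image_of_injective _ hf, Finset.card_univ]
    have h2 : W.card = Fintype.card V - (Finset.univ.image f).card := by
      rw [Finset.card_sdiff_of_subset (Finset.subset_univ _), Finset.card_univ]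
    omega
  have hfW : ∀ s x, x ∈ W → f s ≠ x := fun s x hx => (hWmem x).1 hx s
  -- the pairs (s, x)
  let A : Finset (S × V) := Finset.univ ×ˢ W
  have hAc : A.card = Fintype.card S * w := by
    rw [Finset.card_product, Finset.card_univ, hWc]
  let A1 : Finset (S × V) := A.filter fun p => op (f p.1) p.2 ∈ W
  let A2 : Finset (S × V) := A.filter fun p => op (f p.1) p.2 ∉ W
  have hA12 : A1.card + A2.card = A.card := Finset.card_filter_add_card_filter_not _
  have hA1 : A1.card + w ≤ w * w := by
    have h1 : A1.card ≤ (W.offDiag).card := by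
      apply Finset.card_le_card_of_injOn (fun p => (p.2, op (f p.1) p.2))
      · intro p hp
        simp only [A1, A, Finset.coe_filter, Finset.mem_product, Finset.mem_univ, true_and,
          Set.mem_ofPred_eq] at hp
        have h3 := hop (f p.1) p.2 (hfW _ _ hp.1)
        simp only [Finset.coe_offDiag, Set.mem_offDiag, Finset.mem_coe]
        exact ⟨hp.1, hp.2, (hB.distinct _ _ _ h3).2.1⟩
      · intro p hp q hq hpq
        simp only [A1, A, Finset.coe_filter, Finset.mem_product, Finset.mem_univ, true_and,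
          Set.mem_ofPred_eq] at hp hq
        simp only [Prod.mk.injEq] at hpq
        have h3 := hB.rotate _ _ _ (hop (f p.1) p.2 (hfW _ _ hp.1))
        have h4 := hB.rotate _ _ _ (hop (f q.1) q.2 (hfW _ _ hq.1))
        rw [hpq.2, hpq.1] at h3
        have h5 := hf (hB.unique _ _ _ _ h3 h4)
        exact Prod.ext h5 hpq.1
    rw [Finset.offDiag_card, hWc] at h1
    have : w ≤ w * w := Nat.le_mul_self w
    omega
  have hA2 : A2.card ≤ leave T := by
    unfold leave
    have hex : ∀ p : S × V, op (f p.1) p.2 ∉ W → ∃ s, f s = op (f p.1) p.2 := by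
      intro p hp
      by_contra hcon
      push Not at hcon
      exact hp ((hWmem _).2 hcon)
    let g : S × V → S := fun p => if h : ∃ s, f s = op (f p.1) p.2 then h.choose else p.1
    have hg : ∀ p : S × V, op (f p.1) p.2 ∉ W → f (g p) = op (f p.1) p.2 := by
      intro p hp
      have h := hex p hp
      simp only [g, dif_pos h]
      exact h.choose_spec
    apply Finset.card_le_card_of_injOn (fun p => (g p, p.1))
    · intro p hp
      simp only [A2, A, Finset.coe_filter, Finset.mem_product, Finset.mem_univ, true_and,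
        Set.mem_ofPred_eq] at hp
      have h3 := hop (f p.1) p.2 (hfW _ _ hp.1)
      rw [← hg p hp.2] at h3
      have h4 := hB.rotate _ _ _ (hB.rotate _ _ _ h3)
      simp only [Finset.coe_filter, Finset.mem_univ, true_and, Set.mem_ofPred_eq]
      refine ⟨?_, ?_⟩
      · intro h5
        have := (hB.distinct _ _ _ h4).1
        rw [h5] at this
        exact this rfl
      · intro c hc
        have h5 := hTB _ _ _ hc
        have h6 := hB.unique _ _ _ _ h4 h5
        exact hfW c p.2 hp.1 h6.symm
    · intro p hp q hq hpq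
      simp only [A2, A, Finset.coe_filter, Finset.mem_product, Finset.mem_univ, true_and,
        Set.mem_ofPred_eq] at hp hq
      simp only [Prod.mk.injEq] at hpq
      have h3 := hop (f p.1) p.2 (hfW _ _ hp.1)
      rw [← hg p hp.2] at h3
      have h3' := hB.rotate _ _ _ (hB.rotate _ _ _ h3)
      have h4 := hop (f q.1) q.2 (hfW _ _ hq.1)
      rw [← hg q hq.2] at h4
      have h4' := hB.rotate _ _ _ (hB.rotate _ _ _ h4)
      rw [hpq.1, hpq.2] at h3'
      exact Prod.ext hpq.2 (hB.unique _ _ _ _ h3' h4')
  omega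

/-- the order of an MTS is 0 or 1 mod 3. -/
theorem mod_three {t : ℕ} {B : Set (Fin t × Fin t × Fin t)} (hB : IsMTS B) : t % 3 = 0 ∨ t % 3 = 1 := by
  classical
  let X := {x : Fin t × Fin t × Fin t // x ∈ B}
  let rot : X → X := fun x => ⟨(x.1.2.1, x.1.2.2, x.1.1), hB.rotate _ _ _ x.2⟩
  have hr3 : ∀ x, rot (rot (rot x)) = x := fun x => rfl
  have hfix : ∀ x, rot x ≠ x := by
    intro x h
    have h1 := congrArg (fun y : X => y.1.1) h
    exact (hB.distinct x.1.1 x.1.2.1 x.1.2.2 x.2).1 h1.symm
  have : Fact (Nat.Prime 3) := ⟨Nat.prime_three⟩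
  let r : Function.End X := rot
  have hcard : Fintype.card X ≡ Fintype.card (Function.fixedPoints r) [MOD 3] := by
    have h : r ^ 3 ^ 1 = 1 := by
      funext x
      exact hr3 x
    exact Equiv.Perm.card_fixedPoints_modEq (p := 3) (n := 1) h
  have h0 : Fintype.card (Function.fixedPoints r) = 0 := by
    rw [Fintype.card_eq_zero_iff]
    exact ⟨fun x => hfix x.1 x.2⟩
  rw [h0] at hcard
  have hX : Fintype.card X = t * t - t := by
    have e : X ≃ {x : Fin t × Fin t // x.1 ≠ x.2} :=
      { toFun := fun x => ⟨(x.1.1, x.1.2.1), (hB.distinct x.1.1 x.1.2.1 x.1.2.2 x.2).1⟩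
        invFun := fun x => ⟨(x.1.1, x.1.2, (hB.cover _ _ x.2).choose), (hB.cover _ _ x.2).choose_spec⟩
        left_inv := by
          intro x
          apply Subtype.ext
          have h1 := (hB.cover x.1.1 x.1.2.1 (hB.distinct x.1.1 x.1.2.1 x.1.2.2 x.2).1).choose_spec
          have h2 := hB.unique _ _ _ _ h1 x.2
          exact Prod.ext rfl (Prod.ext rfl h2)
        right_inv := by
          intro x
          rfl }
    rw [Fintype.card_congr e, Fintype.card_subtype]
    have := Finset.offDiag_card (Finset.univ : Finset (Fin t))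
    rw [Finset.card_univ, Fintype.card_fin] at this
    rw [← this]
    congr 1
    ext x
    simp [Finset.mem_offDiag]
  rw [hX] at hcard
  have h3 : 3 ∣ t * t - t := (Nat.modEq_zero_iff_dvd).1 hcard
  by_contra hcon
  have h2 : t % 3 = 2 := by omega
  obtain ⟨m, rfl⟩ : ∃ m, t = 3 * m + 2 := ⟨t / 3, by omega⟩
  have h4 : (3 * m + 2) * (3 * m + 2) - (3 * m + 2) = 3 * (3 * m * m + 3 * m) + 2 := by
    have : (3 * m + 2) * (3 * m + 2) = 3 * (3 * m * m + 3 * m) + 2 + (3 * m + 2) := by ring
    omega
  rw [h4] at h3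
  omega

end Pool.Agent.MQ94
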