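import Mathlib
import Pool.Agent.MQ94.Spec
import Pool.Agent.MQ94.SixData

set_option autoImplicit false

namespace Pool.Agent.MQ94

/-- code of a cyclic triple -/
def cod (a b c : ℕ) : ℕ :=
  if a < b then (if a < c then 36 * a + 6 * b + c else 36 * c + 6 * a + b)
  else (if b < c then 36 * b + 6 * c + a else 36 * c + 6 * a + b)

/-- action of a map given by a list -/
def act (s : List ℕ) (x : ℕ) : ℕ := cod (s.getD (x / 36) 0) (s.getD (x / 6 % 6) 0) (s.getD (x % 6) 0)

/-- ordered pairs of a coded cyclic triple -/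
def prs (x : ℕ) : List ℕ := [6 * (x / 36) + x / 6 % 6, 6 * (x / 6 % 6) + x % 6, 6 * (x % 6) + x / 36]

/-- the triple `t` shares an ordered pair with a triple of `l` -/
def conf (l : List ℕ) (t : ℕ) : Bool := l.any fun x => (prs x).any fun p => (prs t).elem p

/-- check of a certificate -/
def chk (l : List ℕ) (t : ℕ) (s si : List ℕ) (k : ℕ) : Bool :=
  ([0, 1, 2, 3, 4, 5].all fun i => decide (s.getD i 0 < 6) && (si.getD (s.getD i 0) 0 == i)) &&
  ((t :: l).all fun x => ((data6.getD k ([], [], 0, [])).1).elem (act s x)) &&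
  (((data6.getD k ([], [], 0, [])).1).all fun y => (t :: l).elem (act si y))

/-- check of all extensions of one entry -/
def okExt (e : List ℕ × List (ℕ × List ℕ × List ℕ × ℕ) × ℕ × List ℕ) : Bool :=
  codes6.all fun t => conf e.1 t || e.2.1.any fun c => (c.1 == t) && chk e.1 t c.2.1 c.2.2.1 c.2.2.2

/-- the entry uses valid codes and misses an ordered pair -/
def okMiss (e : List ℕ × List (ℕ × List ℕ × List ℕ × ℕ) × ℕ × List ℕ) : Bool :=
  (e.1.all fun x => codes6.elem x) &&
  ([0, 1, 2, 3, 4, 5].any fun u => [0, 1, 2, 3, 4, 5].any fun v =>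
    decide (u ≠ v) && e.1.all fun x => !((prs x).elem (6 * u + v)))

/-- operation number `j` -/
def opv (j a b : ℕ) : ℕ := ((ops6.getD j []).getD a []).getD b 0

/-- the entry embeds in its quasigroup of order 12 -/
def okEmb (e : List ℕ × List (ℕ × List ℕ × List ℕ × ℕ) × ℕ × List ℕ) : Bool :=
  decide (e.2.2.1 < 10) &&
  ([0, 1, 2, 3, 4, 5].all fun i => decide (e.2.2.2.getD i 0 < 12) &&
    [0, 1, 2, 3, 4, 5].all fun j => decide (i = j) || decide (e.2.2.2.getD i 0 ≠ e.2.2.2.getD j 0)) &&
  (e.1.all fun x => opv e.2.2.1 (e.2.2.2.getD (x / 36) 0) (e.2.2.2.getD (x / 6 % 6) 0) ==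
    e.2.2.2.getD (x % 6) 0)

/-- the tables are idempotent quasigroups with `x(yx) = y` -/
def okOps : Bool :=
  (List.range 10).all fun j => (List.range 12).all fun x => (opv j x x == x) &&
    (List.range 12).all fun y => decide (opv j x y < 12) && (opv j x (opv j y x) == y)

theorem okExt_all : (data6.all okExt) = true := by decide +kernel
theorem okMiss_all : (data6.all okMiss) = true := by decide +kernel
theorem okEmb_all : (data6.all okEmb) = true := by decide +kernel
theorem okOps_all : okOps = true := by decide +kernel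

end Pool.Agent.MQ94
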