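import Mathlib
import Pool.Agent.MQ94.Six

set_option autoImplicit false

namespace Pool.Agent.MQ94

theorem cod_rot {a b c : ℕ} (h1 : a ≠ b) (h2 : b ≠ c) (h3 : a ≠ c) : cod b c a = cod a b c := by
  unfold cod
  split_ifs <;> omega

theorem cod_dec {a b c : ℕ} (ha : a < 6) (hb : b < 6) (hc : c < 6) (h1 : a ≠ b) (h2 : b ≠ c) (h3 : a ≠ c) :
    (cod a b c / 36 = a ∧ cod a b c / 6 % 6 = b ∧ cod a b c % 6 = c) ∨
    (cod a b c / 36 = b ∧ cod a b c / 6 % 6 = c ∧ cod a b c % 6 = a) ∨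
    (cod a b c / 36 = c ∧ cod a b c / 6 % 6 = a ∧ cod a b c % 6 = b) := by
  unfold cod
  split_ifs <;> omega

theorem act_cod {s : List ℕ} {a b c : ℕ} (ha : a < 6) (hb : b < 6) (hc : c < 6)
    (h1 : a ≠ b) (h2 : b ≠ c) (h3 : a ≠ c)
    (g1 : s.getD a 0 ≠ s.getD b 0) (g2 : s.getD b 0 ≠ s.getD c 0) (g3 : s.getD a 0 ≠ s.getD c 0) :
    act s (cod a b c) = cod (s.getD a 0) (s.getD b 0) (s.getD c 0) := by
  unfold act
  rcases cod_dec ha hb hc h1 h2 h3 with ⟨x, y, z⟩ | ⟨x, y, z⟩ | ⟨x, y, z⟩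
  · rw [x, y, z]
  · rw [x, y, z]
    exact cod_rot g1 g2 g3
  · rw [x, y, z]
    rw [← cod_rot g1 g2 g3]
    rw [← cod_rot g2 g3.symm g1.symm]

theorem mem_prs_cod {a b c p : ℕ} (ha : a < 6) (hb : b < 6) (hc : c < 6)
    (h1 : a ≠ b) (h2 : b ≠ c) (h3 : a ≠ c) :
    p ∈ prs (cod a b c) ↔ p = 6 * a + b ∨ p = 6 * b + c ∨ p = 6 * c + a := by
  unfold prs
  simp only [List.mem_cons, List.not_mem_nil, or_false]
  rcases cod_dec ha hb hc h1 h2 h3 with ⟨x, y, z⟩ | ⟨x, y, z⟩ | ⟨x, y, z⟩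
  · rw [x, y, z]
  · rw [x, y, z]
    tauto
  · rw [x, y, z]
    tauto

theorem cod_inj {a b c a' b' c' : ℕ} (ha : a < 6) (hb : b < 6) (hc : c < 6)
    (ha' : a' < 6) (hb' : b' < 6) (hc' : c' < 6)
    (h1 : a ≠ b) (h2 : b ≠ c) (h3 : a ≠ c) (h1' : a' ≠ b') (h2' : b' ≠ c') (h3' : a' ≠ c')
    (h : cod a b c = cod a' b' c') :
    (a' = a ∧ b' = b ∧ c' = c) ∨ (a' = b ∧ b' = c ∧ c' = a) ∨ (a' = c ∧ b' = a ∧ c' = b) := by
  have e1 := cod_dec ha hb hc h1 h2 h3
  have e2 := cod_dec ha' hb' hc' h1' h2' h3'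
  rw [h] at e1
  rcases e1 with ⟨x, y, z⟩ | ⟨x, y, z⟩ | ⟨x, y, z⟩ <;> rcases e2 with ⟨u, v, w⟩ | ⟨u, v, w⟩ | ⟨u, v, w⟩ <;> omega

theorem mem_codes6 (a b c : Fin 6) (h1 : a ≠ b) (h2 : b ≠ c) (h3 : a ≠ c) :
    cod a b c ∈ codes6 := by
  revert a b c
  decide +kernel

theorem of_mem_codes6 : ∀ x ∈ codes6, ∃ a b c : Fin 6, a ≠ b ∧ b ≠ c ∧ a ≠ c ∧ x = cod a b c := by
  decide +kernel

/-- `T` has the shape `l` through the injection `g`. -/
def Shape (T : Set (Fin 6 × Fin 6 × Fin 6)) (l : List ℕ) (g : Fin 6 → Fin 6) : Prop :=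
  ∀ a b c : Fin 6, a ≠ b → b ≠ c → a ≠ c → ((a, b, c) ∈ T ↔ cod (g a) (g b) (g c) ∈ l)

theorem fin_ne {g : Fin 6 → Fin 6} (hg : Function.Injective g) {a b : Fin 6} (h : a ≠ b) :
    ((g a : Fin 6) : ℕ) ≠ (g b : Fin 6) := fun h' => h (hg (Fin.ext h'))

theorem classify_step {T T' : Set (Fin 6 × Fin 6 × Fin 6)} (hT : IsPartialMTS T)
    {a b c : Fin 6} (habc : (a, b, c) ∈ T)
    (hT' : ∀ x, x ∈ T' ↔ x ∈ T ∧ x ≠ (a, b, c) ∧ x ≠ (b, c, a) ∧ x ≠ (c, a, b))
    {e : List ℕ × List (ℕ × List ℕ × List ℕ × ℕ) × ℕ × List ℕ} (he : e ∈ data6)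
    {g : Fin 6 → Fin 6} (hg : Function.Injective g) (hs : Shape T' e.1 g) :
    ∃ e' ∈ data6, ∃ g' : Fin 6 → Fin 6, Function.Injective g' ∧ Shape T e'.1 g' := by
  obtain ⟨hab, hbc, hac⟩ := hT.distinct _ _ _ habc
  have hgab := fin_ne hg hab
  have hgbc := fin_ne hg hbc
  have hgac := fin_ne hg hac
  have hsurj : Function.Surjective g := Finite.surjective_of_injective hg
  set t := cod (g a) (g b) (g c) with ht
  have htc : t ∈ codes6 := mem_codes6 _ _ _ (fun h => hgab (by rw [h])) (fun h => hgbc (by rw [h]))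
    (fun h => hgac (by rw [h]))
  -- rotations of the triple `(a, b, c)`
  have hrotT : (b, c, a) ∈ T ∧ (c, a, b) ∈ T :=
    ⟨hT.rotate _ _ _ habc, hT.rotate _ _ _ (hT.rotate _ _ _ habc)⟩
  have hpair : ∀ y z u v : Fin 6, (y, z, u) ∈ T' → (y, z, v) ∈ T →
      ((y, z, v) = (a, b, c) ∨ (y, z, v) = (b, c, a) ∨ (y, z, v) = (c, a, b)) → False := by
    intro y z u v h1 h2 h3
    have h4 := (hT' _).1 h1
    have h5 := hT.unique _ _ _ _ h4.1 h2
    rw [h5] at h4
    rcases h3 with h3 | h3 | h3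
    · exact h4.2.1 h3
    · exact h4.2.2.1 h3
    · exact h4.2.2.2 h3
  have hrotT' : ∀ x y z, (x, y, z) ∈ T' → (y, z, x) ∈ T' := by
    intro x y z h
    rw [hT'] at h ⊢
    refine ⟨hT.rotate _ _ _ h.1, ?_, ?_, ?_⟩
    · intro h'
      simp only [Prod.mk.injEq] at h'
      exact h.2.2.2 (by rw [h'.1, h'.2.1, h'.2.2])
    · intro h'
      simp only [Prod.mk.injEq] at h'
      exact h.2.1 (by rw [h'.1, h'.2.1, h'.2.2])
    · intro h'
      simp only [Prod.mk.injEq] at h'
      exact h.2.2.1 (by rw [h'.1, h'.2.1, h'.2.2])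
  have hmiss := List.all_eq_true.1 okMiss_all e he
  have hext := List.all_eq_true.1 okExt_all e he
  unfold okMiss at hmiss
  rw [Bool.and_eq_true] at hmiss
  have hval : ∀ x ∈ e.1, x ∈ codes6 := by
    intro x hx
    have := List.all_eq_true.1 hmiss.1 x hx
    exact List.elem_iff.1 this
  unfold okExt at hext
  have hext' := List.all_eq_true.1 hext t htc
  rw [Bool.or_eq_true] at hext'
  rcases hext' with hcf | hce
  · exfalso
    unfold conf at hcf
    obtain ⟨x, hx, hx2⟩ := List.any_eq_true.1 hcf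
    obtain ⟨p, hp, hp2⟩ := List.any_eq_true.1 hx2
    have hp2' : p ∈ prs t := List.elem_iff.1 hp2
    obtain ⟨u, v, w, huv, hvw, huw, hxc⟩ := of_mem_codes6 x (hval x hx)
    obtain ⟨u', rfl⟩ := hsurj u
    obtain ⟨v', rfl⟩ := hsurj v
    obtain ⟨w', rfl⟩ := hsurj w
    have hu'v' : u' ≠ v' := fun h => huv (by rw [h])
    have hv'w' : v' ≠ w' := fun h => hvw (by rw [h])
    have hu'w' : u' ≠ w' := fun h => huw (by rw [h])
    have hmem : (u', v', w') ∈ T' := (hs _ _ _ hu'v' hv'w' hu'w').2 (by rw [← hxc]; exact hx)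
    have h1 : ∃ y z q, (y, z, q) ∈ T' ∧ p = 6 * ((g y : Fin 6) : ℕ) + (g z : Fin 6) := by
      rw [hxc, mem_prs_cod (g u').2 (g v').2 (g w').2 (fin_ne hg hu'v') (fin_ne hg hv'w')
        (fin_ne hg hu'w')] at hp
      rcases hp with hp | hp | hp
      · exact ⟨u', v', w', hmem, hp⟩
      · exact ⟨v', w', u', hrotT' _ _ _ hmem, hp⟩
      · exact ⟨w', u', v', hrotT' _ _ _ (hrotT' _ _ _ hmem), hp⟩
    have h2 : ∃ y z q, (y, z, q) ∈ T ∧
        ((y, z, q) = (a, b, c) ∨ (y, z, q) = (b, c, a) ∨ (y, z, q) = (c, a, b)) ∧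
        p = 6 * ((g y : Fin 6) : ℕ) + (g z : Fin 6) := by
      rw [ht, mem_prs_cod (g a).2 (g b).2 (g c).2 hgab hgbc hgac] at hp2'
      rcases hp2' with hp | hp | hp
      · exact ⟨a, b, c, habc, Or.inl rfl, hp⟩
      · exact ⟨b, c, a, hrotT.1, Or.inr (Or.inl rfl), hp⟩
      · exact ⟨c, a, b, hrotT.2, Or.inr (Or.inr rfl), hp⟩
    obtain ⟨y, z, q, hq, hpq⟩ := h1
    obtain ⟨y2, z2, q2, hq2, hr2, hpq2⟩ := h2
    have hz := (g z).2
    have hz2 := (g z2).2
    have e1 : g y = g y2 := Fin.ext (by omega)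
    have e2 : g z = g z2 := Fin.ext (by omega)
    have e1' := hg e1
    have e2' := hg e2
    subst e1' e2'
    exact hpair _ _ _ _ hq hq2 hr2
  · obtain ⟨cc, -, hcc⟩ := List.any_eq_true.1 hce
    rw [Bool.and_eq_true] at hcc
    have hchk := hcc.2
    obtain ⟨tt, s, si, k⟩ := cc
    simp only at hchk
    unfold chk at hchk
    rw [Bool.and_eq_true, Bool.and_eq_true] at hchk
    obtain ⟨⟨hc1, hc2⟩, hc3⟩ := hchk
    set l' := (data6.getD k ([], [], 0, [])).1 with hl'
    have hsb : ∀ i : Fin 6, s.getD i 0 < 6 ∧ si.getD (s.getD i 0) 0 = i := by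
      intro i
      have hi : (i : ℕ) ∈ [0, 1, 2, 3, 4, 5] := by
        revert i; decide
      have := List.all_eq_true.1 hc1 i hi
      rw [Bool.and_eq_true] at this
      exact ⟨of_decide_eq_true this.1, beq_iff_eq.1 this.2⟩
    let g' : Fin 6 → Fin 6 := fun i => ⟨s.getD (g i) 0, (hsb (g i)).1⟩
    have hg' : Function.Injective g' := by
      intro i j hij
      have h1 : s.getD (g i) 0 = s.getD (g j) 0 := congrArg Fin.val hij
      have h2 := (hsb (g i)).2
      have h3 := (hsb (g j)).2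
      rw [h1, h3] at h2
      exact hg (Fin.ext h2.symm)
    have hne' : ∀ i j : Fin 6, i ≠ j → s.getD (g i) 0 ≠ s.getD (g j) 0 := by
      intro i j hij h
      exact hij (hg' (Fin.ext h))
    have hact : ∀ x y z : Fin 6, x ≠ y → y ≠ z → x ≠ z →
        act s (cod (g x) (g y) (g z)) = cod (g' x) (g' y) (g' z) := by
      intro x y z h1 h2 h3
      exact act_cod (g x).2 (g y).2 (g z).2 (fin_ne hg h1) (fin_ne hg h2) (fin_ne hg h3)
        (hne' _ _ h1) (hne' _ _ h2) (hne' _ _ h3)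
    have hact' : ∀ x y z : Fin 6, x ≠ y → y ≠ z → x ≠ z →
        act si (cod (g' x) (g' y) (g' z)) = cod (g x) (g y) (g z) := by
      intro x y z h1 h2 h3
      have ex : ∀ i : Fin 6, si.getD (g' i) 0 = (g i : Fin 6) := fun i => (hsb (g i)).2
      have := act_cod (s := si) (g' x).2 (g' y).2 (g' z).2 (fin_ne hg' h1) (fin_ne hg' h2)
        (fin_ne hg' h3) (by rw [ex, ex]; exact fin_ne hg h1) (by rw [ex, ex]; exact fin_ne hg h2)
        (by rw [ex, ex]; exact fin_ne hg h3)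
      rw [ex, ex, ex] at this
      exact this
    have hk : k < data6.length ∨ l' = [] := by
      by_cases hk : k < data6.length
      · exact Or.inl hk
      · right
        rw [hl', List.getD_eq_getElem?_getD, List.getElem?_eq_none (by omega)]
        rfl
    have hfwd : ∀ x ∈ t :: e.1, act s x ∈ l' := by
      intro x hx
      exact List.elem_iff.1 (List.all_eq_true.1 hc2 x hx)
    have hbwd : ∀ y ∈ l', act si y ∈ t :: e.1 := by
      intro y hy
      exact List.elem_iff.1 (List.all_eq_true.1 hc3 y hy)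
    have hk' : k < data6.length := by
      rcases hk with hk | hk
      · exact hk
      · exfalso
        have := hfwd t (List.mem_cons_self ..)
        rw [hk] at this
        exact List.not_mem_nil this
    refine ⟨data6[k], List.getElem_mem hk', g', hg', ?_⟩
    have hl2 : l' = data6[k].1 := by
      rw [hl', List.getD_eq_getElem?_getD, List.getElem?_eq_getElem hk']
      rfl
    rw [← hl2]
    intro x y z hxy hyz hxz
    constructor
    · intro hx
      rw [← hact x y z hxy hyz hxz]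
      apply hfwd
      by_cases hx' : (x, y, z) ∈ T'
      · exact List.mem_cons_of_mem _ ((hs _ _ _ hxy hyz hxz).1 hx')
      · rw [hT'] at hx'
        have h3 : (x, y, z) = (a, b, c) ∨ (x, y, z) = (b, c, a) ∨ (x, y, z) = (c, a, b) := by
          by_contra hcon
          push Not at hcon
          exact hx' ⟨hx, hcon⟩
        have h4 : cod (g x) (g y) (g z) = t := by
          rcases h3 with h3 | h3 | h3
          · simp only [Prod.mk.injEq] at h3
            rw [h3.1, h3.2.1, h3.2.2]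
          · simp only [Prod.mk.injEq] at h3
            rw [h3.1, h3.2.1, h3.2.2]
            exact cod_rot hgab hgbc hgac
          · simp only [Prod.mk.injEq] at h3
            rw [h3.1, h3.2.1, h3.2.2, ht]
            rw [← cod_rot hgab hgbc hgac, ← cod_rot hgbc hgac.symm hgab.symm]
        rw [h4]
        exact List.mem_cons_self ..
    · intro hx
      have h1 := hbwd _ hx
      rw [hact' x y z hxy hyz hxz] at h1
      rcases List.mem_cons.1 h1 with h1 | h1
      · have h2 := cod_inj (g a).2 (g b).2 (g c).2 (g x).2 (g y).2 (g z).2 hgab hgbc hgac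
          (fin_ne hg hxy) (fin_ne hg hyz) (fin_ne hg hxz) (h1.symm)
        rcases h2 with ⟨h3, h4, h5⟩ | ⟨h3, h4, h5⟩ | ⟨h3, h4, h5⟩
        · rw [hg (Fin.ext h3), hg (Fin.ext h4), hg (Fin.ext h5)]
          exact habc
        · rw [hg (Fin.ext h3), hg (Fin.ext h4), hg (Fin.ext h5)]
          exact hrotT.1
        · rw [hg (Fin.ext h3), hg (Fin.ext h4), hg (Fin.ext h5)]
          exact hrotT.2
      · exact ((hT' _).1 ((hs _ _ _ hxy hyz hxz).2 h1)).1

theorem classify : ∀ (m : ℕ) (T : Finset (Fin 6 × Fin 6 × Fin 6)), T.card = m →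
    IsPartialMTS (T : Set (Fin 6 × Fin 6 × Fin 6)) →
    ∃ e ∈ data6, ∃ g : Fin 6 → Fin 6, Function.Injective g ∧
      Shape (T : Set (Fin 6 × Fin 6 × Fin 6)) e.1 g := by
  intro m
  induction m using Nat.strong_induction_on with
  | _ m ih =>
    intro T hm hT
    rcases T.eq_empty_or_nonempty with h0 | ⟨⟨a, b, c⟩, habc⟩
    · refine ⟨data6.headI, by decide, id, Function.injective_id, ?_⟩
      intro a b c _ _ _
      subst h0
      have : (data6.headI).1 = [] := by decide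
      rw [this]
      simp
    · classical
      let T' := T.filter fun x => x ≠ (a, b, c) ∧ x ≠ (b, c, a) ∧ x ≠ (c, a, b)
      have hsub : T' ⊂ T := by
        rw [Finset.ssubset_iff_of_subset (Finset.filter_subset _ _)]
        refine ⟨(a, b, c), habc, ?_⟩
        simp [T']
      have hTp : IsPartialMTS (T' : Set (Fin 6 × Fin 6 × Fin 6)) := by
        refine { distinct := ?_, rotate := ?_, unique := ?_ }
        · intro x y z h
          exact hT.distinct x y z (Finset.mem_filter.1 h).1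
        · intro x y z h
          have h' := Finset.mem_filter.1 h
          apply Finset.mem_coe.2
          rw [Finset.mem_filter]
          refine ⟨hT.rotate x y z h'.1, ?_, ?_, ?_⟩
          · intro h''
            simp only [Prod.mk.injEq] at h''
            exact h'.2.2.2 (by rw [h''.1, h''.2.1, h''.2.2])
          · intro h''
            simp only [Prod.mk.injEq] at h''
            exact h'.2.1 (by rw [h''.1, h''.2.1, h''.2.2])
          · intro h''
            simp only [Prod.mk.injEq] at h''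
            exact h'.2.2.1 (by rw [h''.1, h''.2.1, h''.2.2])
        · intro x y z w h h'
          exact hT.unique x y z w (Finset.mem_filter.1 h).1 (Finset.mem_filter.1 h').1
      obtain ⟨e, he, g, hg, hs⟩ := ih T'.card (by rw [← hm]; exact Finset.card_lt_card hsub) T' rfl hTp
      refine classify_step hT (a := a) (b := b) (c := c) habc (T' := (T' : Set _)) ?_ he hg hs
      intro x
      simp [T']

/-- no MTS of order 6 -/
theorem no_six (B : Set (Fin 6 × Fin 6 × Fin 6)) : ¬ IsMTS B := by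
  classical
  intro hB
  obtain ⟨e, he, g, hg, hs⟩ := classify _ B.toFinset rfl (by
    rw [Set.coe_toFinset]; exact hB.toIsPartialMTS)
  rw [Set.coe_toFinset] at hs
  have hsurj : Function.Surjective g := Finite.surjective_of_injective hg
  have hmiss := List.all_eq_true.1 okMiss_all e he
  unfold okMiss at hmiss
  rw [Bool.and_eq_true] at hmiss
  obtain ⟨u, hu, hu2⟩ := List.any_eq_true.1 hmiss.2
  obtain ⟨v, hv, hv2⟩ := List.any_eq_true.1 hu2
  rw [Bool.and_eq_true] at hv2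
  have huv : u ≠ v := of_decide_eq_true hv2.1
  have hlt : ∀ x ∈ [0, 1, 2, 3, 4, 5], x < 6 := by decide
  obtain ⟨u', hu'⟩ := hsurj ⟨u, hlt u hu⟩
  obtain ⟨v', hv'⟩ := hsurj ⟨v, hlt v hv⟩
  have hu'v' : u' ≠ v' := by
    intro h
    rw [h, hv'] at hu'
    exact huv (congrArg Fin.val hu').symm
  obtain ⟨w', hw'⟩ := hB.cover u' v' hu'v'
  obtain ⟨h1, h2, h3⟩ := hB.distinct _ _ _ hw'
  have h4 := (hs _ _ _ h1 h2 h3).1 hw'
  have h5 := List.all_eq_true.1 hv2.2 _ h4
  have h6 : 6 * u + v ∈ prs (cod (g u') (g v') (g w')) := by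
    rw [mem_prs_cod (g u').2 (g v').2 (g w').2 (fin_ne hg h1) (fin_ne hg h2) (fin_ne hg h3)]
    left
    rw [hu', hv']
  rw [List.elem_iff.2 h6] at h5
  exact Bool.noConfusion h5

/-- every partial MTS of order 6 embeds in an MTS of order 12 -/
theorem six_twelve (T : Set (Fin 6 × Fin 6 × Fin 6)) (hT : IsPartialMTS T) :
    ∃ B : Set (Fin 12 × Fin 12 × Fin 12), IsMTS B ∧ Embeds T B := by
  classical
  obtain ⟨e, he, g, hg, hs⟩ := classify _ T.toFinset rfl (by
    rw [Set.coe_toFinset]; exact hT)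
  rw [Set.coe_toFinset] at hs
  have hemb := List.all_eq_true.1 okEmb_all e he
  unfold okEmb at hemb
  rw [Bool.and_eq_true, Bool.and_eq_true] at hemb
  obtain ⟨⟨hj, hin⟩, hop⟩ := hemb
  have hj' : e.2.2.1 < 10 := of_decide_eq_true hj
  set j := e.2.2.1 with hjdef
  set f := e.2.2.2 with hfdef
  have hops := okOps_all
  unfold okOps at hops
  have hopj := List.all_eq_true.1 hops j (List.mem_range.2 hj')
  have hrow : ∀ x : Fin 12, opv j x x = x ∧ ∀ y : Fin 12, opv j x y < 12 ∧ opv j x (opv j y x) = y := by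
    intro x
    have h1 := List.all_eq_true.1 hopj x (List.mem_range.2 x.2)
    rw [Bool.and_eq_true] at h1
    refine ⟨beq_iff_eq.1 h1.1, fun y => ?_⟩
    have h2 := List.all_eq_true.1 h1.2 y (List.mem_range.2 y.2)
    rw [Bool.and_eq_true] at h2
    exact ⟨of_decide_eq_true h2.1, beq_iff_eq.1 h2.2⟩
  let op : Fin 12 → Fin 12 → Fin 12 := fun x y => ⟨opv j x y, ((hrow x).2 y).1⟩
  have hop1 : ∀ x, op x x = x := fun x => Fin.ext (hrow x).1
  have hop2 : ∀ x y, op x (op y x) = y := fun x y => Fin.ext ((hrow x).2 y).2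
  have hfin : ∀ i : Fin 6, (i : ℕ) ∈ [0, 1, 2, 3, 4, 5] := by decide
  have hf : ∀ i : Fin 6, f.getD i 0 < 12 ∧ ∀ k : Fin 6, i ≠ k → f.getD i 0 ≠ f.getD k 0 := by
    intro i
    have h1 := List.all_eq_true.1 hin i (hfin i)
    rw [Bool.and_eq_true] at h1
    refine ⟨of_decide_eq_true h1.1, fun k hk => ?_⟩
    have h2 := List.all_eq_true.1 h1.2 k (hfin k)
    rw [Bool.or_eq_true] at h2
    rcases h2 with h2 | h2
    · exact (hk (Fin.ext (of_decide_eq_true h2))).elim
    · exact of_decide_eq_true h2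
  let F : Fin 6 → Fin 12 := fun i => ⟨f.getD (g i) 0, (hf (g i)).1⟩
  have hF : Function.Injective F := by
    intro x y hxy
    by_contra hne
    exact (hf (g x)).2 (g y) (fun h => hne (hg h)) (congrArg Fin.val hxy)
  refine ⟨opSet op, isMTS_opSet hop1 hop2, F, hF, ?_⟩
  intro a b c habc
  obtain ⟨h1, h2, h3⟩ := hT.distinct _ _ _ habc
  have h4 := (hs _ _ _ h1 h2 h3).1 habc
  have h5 := beq_iff_eq.1 (List.all_eq_true.1 hop _ h4)
  refine ⟨fun h => h1 (hF h), ?_⟩
  apply Fin.ext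
  show opv j (f.getD (g a) 0) (f.getD (g b) 0) = f.getD (g c) 0
  have key : ∀ x y z : Fin 12, op x y = z → op y z = x := by
    intro x y z h
    rw [← h]
    exact hop2 y x
  rcases cod_dec (g a).2 (g b).2 (g c).2 (fin_ne hg h1) (fin_ne hg h2) (fin_ne hg h3) with
    ⟨x, y, z⟩ | ⟨x, y, z⟩ | ⟨x, y, z⟩
  · rw [x, y, z] at h5
    exact h5
  · rw [x, y, z] at h5
    have e1 : op (F b) (F c) = F a := Fin.ext h5
    have e2 := key _ _ _ (key _ _ _ e1)
    exact congrArg Fin.val e2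
  · rw [x, y, z] at h5
    have e1 : op (F c) (F a) = F b := Fin.ext h5
    have e2 := key _ _ _ e1
    exact congrArg Fin.val e2

end Pool.Agent.MQ94
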