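import Mathlib
import Pool.Agent.MQ94.SixB

set_option autoImplicit false

namespace Pool.Agent.MQ94

theorem leave_le {S : Type*} [Fintype S] {T : Set (S × S × S)} (E : Finset (S × S))
    (h : ∀ a b : S, a ≠ b → (a, b) ∉ E → ∃ c, (a, b, c) ∈ T) : leave T ≤ E.card := by
  classical
  unfold leave
  apply Finset.card_le_card
  intro x hx
  rw [Finset.mem_filter] at hx
  by_contra hcon
  obtain ⟨c, hc⟩ := h x.1 x.2 hx.2.1 hcon
  exact hx.2.2 c hc

theorem leave_mts {S : Type*} [Fintype S] {T : Set (S × S × S)} (hT : IsMTS T) : leave T = 0 := by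
  have := leave_le (T := T) ∅ (fun a b h _ => hT.cover a b h)
  simpa using this

/-- every partial MTS of order `n` embeds in an MTS of order `t` -/
def AllEmbed (n t : ℕ) : Prop :=
  ∀ T : Set (Fin n × Fin n × Fin n), IsPartialMTS T →
    ∃ B : Set (Fin t × Fin t × Fin t), IsMTS B ∧ Embeds T B

theorem AllEmbed.le {n t : ℕ} (h : AllEmbed n t) : n ≤ t := by
  obtain ⟨B, -, f, hf, -⟩ := h ∅ isPartialMTS_empty
  have := Fintype.card_le_of_injective f hf
  simpa using this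

theorem AllEmbed.adm {n t : ℕ} (h : AllEmbed n t) : (t % 3 = 0 ∨ t % 3 = 1) ∧ t ≠ 6 := by
  obtain ⟨B, hB, -⟩ := h ∅ isPartialMTS_empty
  refine ⟨mod_three hB, ?_⟩
  rintro rfl
  exact no_six B hB

theorem AllEmbed.bound {n t : ℕ} (h : AllEmbed n t) {T : Set (Fin n × Fin n × Fin n)}
    (hT : IsPartialMTS T) {w : ℕ} (hw : t = n + w) : n * w + w ≤ w * w + leave T := by
  obtain ⟨B, hB, f, hf, hTB⟩ := h T hT
  have := count_bound hB hf hTB (w := w) (by simpa using hw)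
  simpa using this

/-- an MTS of order `m ≤ n` as a partial MTS of order `n`. -/
theorem AllEmbed.sub {n t : ℕ} (h : AllEmbed n t) {m : ℕ} (hm : 1 ≤ m) (hmn : m ≤ n)
    (hmod : m % 3 = 0 ∨ m % 3 = 1) (h6 : m ≠ 6) (hmt : m < t) : 2 * m + 1 ≤ t := by
  obtain ⟨M, hM⟩ := exists_mts hm hmod h6
  let c : Fin m → Fin n := Fin.castLE hmn
  have hc : Function.Injective c := Fin.castLE_injective hmn
  let T : Set (Fin n × Fin n × Fin n) := {x | ∃ a b d, (a, b, d) ∈ M ∧ x = (c a, c b, c d)}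
  have hT : IsPartialMTS T := by
    refine { distinct := ?_, rotate := ?_, unique := ?_ }
    · rintro x y z ⟨a, b, d, h1, h2⟩
      simp only [Prod.mk.injEq] at h2
      obtain ⟨rfl, rfl, rfl⟩ := h2
      obtain ⟨h3, h4, h5⟩ := hM.distinct _ _ _ h1
      exact ⟨fun h => h3 (hc h), fun h => h4 (hc h), fun h => h5 (hc h)⟩
    · rintro x y z ⟨a, b, d, h1, h2⟩
      simp only [Prod.mk.injEq] at h2
      obtain ⟨rfl, rfl, rfl⟩ := h2
      exact ⟨b, d, a, hM.rotate _ _ _ h1, rfl⟩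
    · rintro x y z w ⟨a, b, d, h1, h2⟩ ⟨a', b', d', h1', h2'⟩
      simp only [Prod.mk.injEq] at h2 h2'
      obtain ⟨rfl, rfl, rfl⟩ := h2
      obtain ⟨h3, h4, h5⟩ := h2'
      have h3' := hc h3
      have h4' := hc h4
      subst h3' h4'
      rw [h5, hM.unique _ _ _ _ h1 h1']
  obtain ⟨B, hB, f, hf, hTB⟩ := h T hT
  obtain ⟨w, hw⟩ : ∃ w, t = m + w := ⟨t - m, by omega⟩
  have hb := count_bound (T := M) hB (f := f ∘ c) (hf.comp hc)
    (fun a b d h1 => hTB _ _ _ ⟨a, b, d, h1, rfl⟩) (w := w) (by simpa using hw)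
  rw [leave_mts hM, Fintype.card_fin] at hb
  have hw0 : 0 < w := by omega
  have h1 : (m + 1) * w ≤ w * w := by linarith
  have h2 := Nat.le_of_mul_le_mul_right h1 hw0
  omega

/-- the set of a list of cyclic triples -/
def listSet {n : ℕ} (l : List (Fin n × Fin n × Fin n)) : Set (Fin n × Fin n × Fin n) :=
  {x | (x ∈ l) ∨ ((x.2.1, x.2.2, x.1) ∈ l) ∨ ((x.2.2, x.1, x.2.1) ∈ l)}

instance {n : ℕ} (l : List (Fin n × Fin n × Fin n)) (x : Fin n × Fin n × Fin n) :
    Decidable (x ∈ listSet l) := by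
  unfold listSet
  exact inferInstanceAs (Decidable (_ ∨ _ ∨ _))

def l4 : List (Fin 4 × Fin 4 × Fin 4) := [(0, 1, 3), (1, 2, 3), (2, 0, 3)]

def l5 : List (Fin 5 × Fin 5 × Fin 5) := [(0, 1, 2), (0, 2, 3), (0, 3, 1), (1, 3, 4), (1, 4, 2), (2, 4, 3)]

def l6 : List (Fin 6 × Fin 6 × Fin 6) := [(0, 1, 2), (0, 2, 1), (0, 3, 4), (0, 4, 3), (1, 3, 5), (1, 5, 3), (2, 4, 5), (2, 5, 4)]

theorem l4_partial : IsPartialMTS (listSet l4) :=
  { distinct := by decide +kernel, rotate := by decide +kernel, unique := by decide +kernel }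

theorem l5_partial : IsPartialMTS (listSet l5) :=
  { distinct := by decide +kernel, rotate := by decide +kernel, unique := by decide +kernel }

theorem l6_partial : IsPartialMTS (listSet l6) :=
  { distinct := by decide +kernel, rotate := by decide +kernel, unique := by decide +kernel }

theorem l5_leave : leave (listSet l5) ≤ 2 := by
  refine (leave_le (Finset.univ.filter fun x : Fin 5 × Fin 5 =>
    x.1 ≠ x.2 ∧ ∀ c, (x.1, x.2, c) ∉ listSet l5) ?_).trans ?_
  · intro a b h h'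
    by_contra hcon
    push Not at hcon
    exact h' (Finset.mem_filter.2 ⟨Finset.mem_univ _, h, hcon⟩)
  · decide +kernel

theorem l6_leave : leave (listSet l6) ≤ 6 := by
  refine (leave_le (Finset.univ.filter fun x : Fin 6 × Fin 6 =>
    x.1 ≠ x.2 ∧ ∀ c, (x.1, x.2, c) ∉ listSet l6) ?_).trans ?_
  · intro a b h h'
    by_contra hcon
    push Not at hcon
    exact h' (Finset.mem_filter.2 ⟨Finset.mem_univ _, h, hcon⟩)
  · decide +kernel

/-- For `n ≡ 2 (mod 3)`, `n ≥ 8`, there is a partial MTS of order `n` which leaves at most `n - 3` ordered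
pairs uncovered. -/
theorem exists_dense {n : ℕ} (hn : 8 ≤ n) (hmod : n % 3 = 2) :
    ∃ T : Set (Fin n × Fin n × Fin n), IsPartialMTS T ∧ leave T ≤ n - 3 := by
  classical
  obtain ⟨B, hB, f, hf, hTB⟩ := embeds_of_le (n := 4) (t := n + 1) (listSet l4) l4_partial (by omega)
    (by omega) (by omega)
  set x0 := f 3 with hx0
  set p0 := f 0 with hp0
  set p1 := f 1 with hp1
  set p2 := f 2 with hp2
  have b01 : (p0, p1, x0) ∈ B := hTB 0 1 3 (by decide)
  have b12 : (p1, p2, x0) ∈ B := hTB 1 2 3 (by decide)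
  have b20 : (p2, p0, x0) ∈ B := hTB 2 0 3 (by decide)
  have d01 : p0 ≠ p1 := (hB.distinct _ _ _ b01).1
  have d12 : p1 ≠ p2 := (hB.distinct _ _ _ b12).1
  have d20 : p2 ≠ p0 := (hB.distinct _ _ _ b20).1
  have x0p0 : p0 ≠ x0 := (hB.distinct _ _ _ b01).2.2
  have x0p1 : p1 ≠ x0 := (hB.distinct _ _ _ b12).2.2
  have x0p2 : p2 ≠ x0 := (hB.distinct _ _ _ b20).2.2
  let s : Fin n → Fin (n + 1) := x0.succAbove
  have hs : Function.Injective s := Fin.succAbove_right_injective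
  have hs0 : ∀ i, s i ≠ x0 := fun i => Fin.succAbove_ne x0 i
  have hsex : ∀ v, v ≠ x0 → ∃ i, s i = v := fun v hv => Fin.exists_succAbove_eq hv
  let R : Fin (n + 1) → Fin (n + 1) → Fin (n + 1) → Prop := fun a b c =>
    (a = p0 ∧ b = p1 ∧ c = p2) ∨ (a = p1 ∧ b = p2 ∧ c = p0) ∨ (a = p2 ∧ b = p0 ∧ c = p1)
  have hRB : ∀ a b c, R a b c → (a, b, x0) ∈ B := by
    rintro a b c (⟨rfl, rfl, rfl⟩ | ⟨rfl, rfl, rfl⟩ | ⟨rfl, rfl, rfl⟩)
    · exact b01
    · exact b12
    · exact b20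
  have hRrot : ∀ a b c, R a b c → R b c a := by
    rintro a b c (h | h | h)
    · exact Or.inr (Or.inl ⟨h.2.1, h.2.2, h.1⟩)
    · exact Or.inr (Or.inr ⟨h.2.1, h.2.2, h.1⟩)
    · exact Or.inl ⟨h.2.1, h.2.2, h.1⟩
  have hRun : ∀ a b c d, R a b c → R a b d → c = d := by
    rintro a b c d (⟨h1, h2, h3⟩ | ⟨h1, h2, h3⟩ | ⟨h1, h2, h3⟩) (⟨g1, g2, g3⟩ | ⟨g1, g2, g3⟩ | ⟨g1, g2, g3⟩)
    · rw [h3, g3]
    · exact (d01 (h1.symm.trans g1)).elim
    · exact (d20 (g1.symm.trans h1)).elim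
    · exact (d01 (g1.symm.trans h1)).elim
    · rw [h3, g3]
    · exact (d12 (h1.symm.trans g1)).elim
    · exact (d20 (h1.symm.trans g1)).elim
    · exact (d12 (g1.symm.trans h1)).elim
    · rw [h3, g3]
  let T : Set (Fin n × Fin n × Fin n) :=
    {x | (s x.1, s x.2.1, s x.2.2) ∈ B ∨ R (s x.1) (s x.2.1) (s x.2.2)}
  have hT : IsPartialMTS T := by
    refine { distinct := ?_, rotate := ?_, unique := ?_ }
    · rintro a b c (h | h)
      · obtain ⟨h1, h2, h3⟩ := hB.distinct _ _ _ h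
        exact ⟨fun h => h1 (congrArg s h), fun h => h2 (congrArg s h), fun h => h3 (congrArg s h)⟩
      · have h1 := (hB.distinct _ _ _ (hRB _ _ _ h)).1
        have h2 := (hB.distinct _ _ _ (hRB _ _ _ (hRrot _ _ _ h))).1
        have h3 := (hB.distinct _ _ _ (hRB _ _ _ (hRrot _ _ _ (hRrot _ _ _ h)))).1
        exact ⟨fun h => h1 (congrArg s h), fun h => h2 (congrArg s h), fun h => h3 (congrArg s h).symm⟩
    · rintro a b c (h | h)
      · exact Or.inl (hB.rotate _ _ _ h)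
      · exact Or.inr (hRrot _ _ _ h)
    · rintro a b c d (h | h) (h' | h')
      · exact hs (hB.unique _ _ _ _ h h')
      · exact (hs0 c (hB.unique _ _ _ _ h (hRB _ _ _ h'))).elim
      · exact (hs0 d (hB.unique _ _ _ _ h' (hRB _ _ _ h))).elim
      · exact hs (hRun _ _ _ _ h h')
  refine ⟨T, hT, ?_⟩
  obtain ⟨i0, hi0⟩ := hsex p0 x0p0
  obtain ⟨i1, hi1⟩ := hsex p1 x0p1
  obtain ⟨i2, hi2⟩ := hsex p2 x0p2
  have hphi : ∀ i, ∃ j, (x0, s i, s j) ∈ B := by
    intro i
    obtain ⟨c, hc⟩ := hB.cover x0 (s i) (hs0 i).symm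
    obtain ⟨j, hj⟩ := hsex c (hB.distinct _ _ _ hc).2.2.symm
    exact ⟨j, by rw [hj]; exact hc⟩
  choose φ hφ using hphi
  let I : Finset (Fin n) := Finset.univ \ {i0, i1, i2}
  have e01 : i0 ≠ i1 := fun h => d01 (by rw [← hi0, ← hi1, h])
  have e12 : i1 ≠ i2 := fun h => d12 (by rw [← hi1, ← hi2, h])
  have e20 : i2 ≠ i0 := fun h => d20 (by rw [← hi2, ← hi0, h])
  have hI : I.card = n - 3 := by
    rw [Finset.card_sdiff_of_subset (Finset.subset_univ _), Finset.card_univ, Fintype.card_fin]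
    congr 1
    rw [Finset.card_insert_of_notMem, Finset.card_pair e12]
    simp only [Finset.mem_insert, Finset.mem_singleton, not_or]
    exact ⟨e01, e20.symm⟩
  refine (leave_le (I.image fun i => (i, φ i)) ?_).trans ((Finset.card_image_le).trans hI.le)
  intro a b hab hE
  obtain ⟨c, hc⟩ := hB.cover (s a) (s b) (fun h => hab (hs h))
  by_cases hcx : c = x0
  · rw [hcx] at hc
    have h1 : (x0, s a, s b) ∈ B := hB.rotate _ _ _ (hB.rotate _ _ _ hc)
    have h2 : b = φ a := hs (hB.unique _ _ _ _ h1 (hφ a))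
    have h3 : a ∈ ({i0, i1, i2} : Finset (Fin n)) := by
      by_contra hcon
      apply hE
      rw [Finset.mem_image]
      exact ⟨a, Finset.mem_sdiff.2 ⟨Finset.mem_univ _, hcon⟩, by rw [← h2]⟩
    simp only [Finset.mem_insert, Finset.mem_singleton] at h3
    have hrr : ∀ u v, (u, v, x0) ∈ B → (x0, u, v) ∈ B := fun u v h => hB.rotate _ _ _ (hB.rotate _ _ _ h)
    rcases h3 with rfl | rfl | rfl
    · rw [hi0] at h1
      have h4 := hB.unique _ _ _ _ h1 (hrr _ _ b01)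
      exact ⟨i2, Or.inr (Or.inl ⟨hi0, h4, hi2⟩)⟩
    · rw [hi1] at h1
      have h4 := hB.unique _ _ _ _ h1 (hrr _ _ b12)
      exact ⟨i0, Or.inr (Or.inr (Or.inl ⟨hi1, h4, hi0⟩))⟩
    · rw [hi2] at h1
      have h4 := hB.unique _ _ _ _ h1 (hrr _ _ b20)
      exact ⟨i1, Or.inr (Or.inr (Or.inr ⟨hi2, h4, hi1⟩))⟩
  · obtain ⟨j, hj⟩ := hsex c hcx
    exact ⟨j, Or.inl (by rw [hj]; exact hc)⟩

theorem necessity {n t : ℕ} (hn : 1 ≤ n) (h : AllEmbed n t) (ht : t < 2 * n + 1) :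
    (n = 1 ∧ t = 1) ∨ (n = 2 ∧ (t = 3 ∨ t = 4)) ∨ (n = 3 ∧ t = 3) ∨ (n = 6 ∧ t = 12) := by
  have hle := h.le
  obtain ⟨hmod, h6⟩ := h.adm
  obtain ⟨w, hw⟩ : ∃ w, t = n + w := ⟨t - n, by omega⟩
  by_cases hn6 : n = 6
  · subst hn6
    have h4 : t ≠ 7 := by
      rintro rfl
      have := h.sub (m := 4) (by omega) (by omega) (by omega) (by omega) (by omega)
      omega
    have hb := h.bound l6_partial hw
    have hl := l6_leave
    have hw12 : w ≤ 6 := by omega
    interval_cases w <;> omega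
  by_cases hn2 : n % 3 = 2
  · by_cases hn2' : n = 2
    · omega
    by_cases hn5 : n = 5
    · subst hn5
      exfalso
      have hb := h.bound l5_partial hw
      have hl := l5_leave
      have hw12 : w ≤ 5 := by omega
      interval_cases w <;> omega
    · exfalso
      obtain ⟨T, hT, hl⟩ := exists_dense (n := n) (by omega) hn2
      have hb := h.bound hT hw
      have hw0 : w ≠ 0 := by
        rintro rfl
        omega
      have hwn : w ≤ n := by omega
      obtain ⟨u, rfl⟩ : ∃ u, n = w + u := ⟨n - w, by omega⟩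
      have h1 : (w + u) * w + w = w * w + (u * w + w) := by ring
      rw [h1] at hb
      have h2 : u * w + w ≤ w + u - 3 := by omega
      have h3 : u ≤ u * w := Nat.le_mul_of_pos_right u (Nat.pos_of_ne_zero hw0)
      omega
  · have hnm : n % 3 = 0 ∨ n % 3 = 1 := by omega
    by_cases hw0 : w = 0
    · subst hw0
      have htn : t = n := by omega
      by_cases h1 : n = 1
      · omega
      by_cases h3 : n = 3
      · omega
      exfalso
      by_cases h7 : n = 7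
      · have := h.sub (m := 4) (by omega) (by omega) (by omega) (by omega) (by omega)
        omega
      by_cases h4 : n % 3 = 1
      · have := h.sub (m := n - 1) (by omega) (by omega) (by omega) (by omega) (by omega)
        omega
      · have := h.sub (m := n - 2) (by omega) (by omega) (by omega) (by omega) (by omega)
        omega
    · exfalso
      have := h.sub (m := n) (by omega) le_rfl hnm hn6 (by omega)
      omega

theorem no_triple_of_lt {n : ℕ} (hn : n < 3) {T : Set (Fin n × Fin n × Fin n)} (hT : IsPartialMTS T)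
    (a b c : Fin n) : (a, b, c) ∉ T := by
  intro h
  obtain ⟨h1, h2, h3⟩ := hT.distinct _ _ _ h
  have g1 : (a : ℕ) ≠ b := fun h => h1 (Fin.ext h)
  have g2 : (b : ℕ) ≠ c := fun h => h2 (Fin.ext h)
  have g3 : (a : ℕ) ≠ c := fun h => h3 (Fin.ext h)
  omega

theorem allEmbed_small {n t : ℕ} (hn : n < 3) (hnt : n ≤ t) (ht : 1 ≤ t)
    (hmod : t % 3 = 0 ∨ t % 3 = 1) (h6 : t ≠ 6) : AllEmbed n t := by
  intro T hT
  obtain ⟨B, hB⟩ := exists_mts ht hmod h6
  exact ⟨B, hB, Fin.castLE hnt, Fin.castLE_injective hnt, fun a b c h => (no_triple_of_lt hn hT a b c h).elim⟩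

theorem allEmbed_three : AllEmbed 3 3 := by
  intro T hT
  refine ⟨{x | x.1 ≠ x.2.1 ∧ x.2.1 ≠ x.2.2 ∧ x.1 ≠ x.2.2}, ?_, id, Function.injective_id, ?_⟩
  · refine { distinct := fun a b c h => h, rotate := ?_, unique := ?_, cover := ?_ }
    · intro a b c h
      exact ⟨h.2.1, h.2.2.symm, h.1.symm⟩
    · intro a b c d h h'
      have h1 : a ≠ b ∧ b ≠ c ∧ a ≠ c := h
      have h2 : a ≠ b ∧ b ≠ d ∧ a ≠ d := h'
      revert a b c d
      decide
    · show ∀ a b : Fin 3, a ≠ b → ∃ c, a ≠ b ∧ b ≠ c ∧ a ≠ c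
      decide
  · intro a b c h
    exact hT.distinct _ _ _ h

theorem allEmbed_iff (n t : ℕ) (hn : 1 ≤ n) :
    AllEmbed n t ↔ (t % 3 = 0 ∨ t % 3 = 1) ∧ t ≠ 6 ∧
      (2 * n + 1 ≤ t ∨ (n = 1 ∧ t = 1) ∨ (n = 2 ∧ (t = 3 ∨ t = 4)) ∨ (n = 3 ∧ t = 3) ∨
        (n = 6 ∧ t = 12)) := by
  constructor
  · intro h
    obtain ⟨h1, h2⟩ := h.adm
    refine ⟨h1, h2, ?_⟩
    by_cases ht : 2 * n + 1 ≤ t
    · exact Or.inl ht
    · exact Or.inr (necessity hn h (by omega))
  · rintro ⟨h1, h2, h3 | ⟨rfl, rfl⟩ | ⟨rfl, h3⟩ | ⟨rfl, rfl⟩ | ⟨rfl, rfl⟩⟩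
    · exact fun T hT => embeds_of_le T hT h3 h1 h2
    · exact allEmbed_small (by omega) (by omega) (by omega) h1 h2
    · exact allEmbed_small (by omega) (by omega) (by omega) h1 h2
    · exact allEmbed_three
    · exact fun T hT => six_twelve T hT

end Pool.Agent.MQ94
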