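import Pool.Agent.MQ94.Tri

/-!
# Module MQ-STEP (MP_aaabe1_al, helper94): disentangling a pair of new points closed by `g`

`Option V` has the new vertex `none` (two of the new points, not yet separated).

Proof of `step`. Put `X = V ⊕ Fin (2 r)`; `Option V ⊕ Fin (2 r) ≃ Option X`. Apply `expand 2` to the
array `lev (2 r) (stepμ μ) (stepA a F T H)` transported to `Option X`, with `F` extended by `0` to
`X`, `ρ (inl b) = γ (inl b) = if b = g then 0 else μ b`, `ρ (inr w) = γ (inr w) = 1`:
`A none (inl b) + fo F b = T b + fo F b = 2 μ b` for `b ≠ g`, `= 0` for `g`;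
`A none (inr w) = 2`. This gives a decomposition of the array on `X ⊕ Fin 2` which has the entries
of `lev (2 r + 2) μ a` (under `V ⊕ Fin (2 r) ⊕ Fin 2 ≃ V ⊕ Fin (2 r + 2)`) except between `g` and
the two points `c, c'` of `Fin 2`, and between `c` and `c'`, where it is `0`. Add the two triples
`(c, c', g)`, `(c', c, g)` (`TriDec.triple`); they contribute `1` to each of the entries
`(c, c'), (c', c), (c', g), (c, g), (g, c), (g, c')`.
-/

set_option autoImplicit false

namespace MQ94

def stepμ {V : Type} (μ : V → ℕ) : Option V → ℕ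
  | none => 2
  | some b => μ b

def stepA {V : Type} (a F : V → V → ℕ) (T H : V → ℕ) : Option V → Option V → ℕ
  | some b, some c => a b c - F b c
  | none, some b => T b
  | some b, none => H b
  | none, none => 0

theorem step (r : ℕ) {V : Type} [Fintype V] [DecidableEq V] (μ : V → ℕ) (a F : V → V → ℕ)
    (T H : V → ℕ) (g : V) (hμ : μ g = 1) (hF : ∀ b c, F b c ≤ a b c)
    (hrow : ∀ b, b ≠ g → fo F b + T b = 2 * μ b) (hcol : ∀ b, b ≠ g → fi F b + H b = 2 * μ b)
    (hgo : fo F g = 0) (hgi : fi F g = 0) (hTg : T g = 0) (hHg : H g = 0)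
    (h : TriDec (lev (2 * r) (stepμ μ) (stepA a F T H))) : TriDec (lev (2 * r + 2) μ a) := by
  classical
  let e : Option V ⊕ Fin (2 * r) ≃ Option (V ⊕ Fin (2 * r)) :=
    { toFun := fun x => match x with
        | Sum.inl none => none
        | Sum.inl (some b) => some (Sum.inl b)
        | Sum.inr w => some (Sum.inr w)
      invFun := fun x => match x with
        | none => Sum.inl none
        | some (Sum.inl b) => Sum.inl (some b)
        | some (Sum.inr w) => Sum.inr w
      left_inv := by rintro ((_ | _) | _) <;> rfl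
      right_inv := by rintro (_ | (_ | _)) <;> rfl }
  let A0 : Option (V ⊕ Fin (2 * r)) → Option (V ⊕ Fin (2 * r)) → ℕ := fun x y =>
    lev (2 * r) (stepμ μ) (stepA a F T H) (e.symm x) (e.symm y)
  have hA0 : TriDec A0 := by
    apply TriDec.equiv e
    refine h.congr ?_
    intro x y
    simp only [A0, Equiv.symm_apply_apply]
  let F0 : V ⊕ Fin (2 * r) → V ⊕ Fin (2 * r) → ℕ := fun x y => match x, y with
    | Sum.inl b, Sum.inl c => F b c
    | _, _ => 0
  let ρ : V ⊕ Fin (2 * r) → ℕ := fun x => match x with
    | Sum.inl b => if b = g then 0 else μ b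
    | Sum.inr _ => 1
  have h1 : TriDec (expArr 2 A0 F0 ρ ρ) := by
    apply expand 2 A0 F0 ρ ρ hA0
    · rfl
    · rintro (b | w)
      · have h2 : fo F0 (Sum.inl b) = fo F b := by
          unfold fo
          rw [Fintype.sum_sum_type]
          simp [F0]
        rw [h2]
        change T b + fo F b = 2 * (if b = g then 0 else μ b)
        by_cases hb : b = g
        · subst hb
          simp [hTg, hgo]
        · rw [if_neg hb]
          have := hrow b hb
          omega
      · have h2 : fo F0 (Sum.inr w) = 0 := by
          unfold fo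
          rw [Fintype.sum_sum_type]
          simp [F0]
        rw [h2]
        rfl
    · rintro (b | w)
      · have h2 : fi F0 (Sum.inl b) = fi F b := by
          unfold fi
          rw [Fintype.sum_sum_type]
          simp [F0]
        rw [h2]
        change H b + fi F b = 2 * (if b = g then 0 else μ b)
        by_cases hb : b = g
        · subst hb
          simp [hHg, hgi]
        · rw [if_neg hb]
          have := hcol b hb
          omega
      · have h2 : fi F0 (Sum.inr w) = 0 := by
          unfold fi
          rw [Fintype.sum_sum_type]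
          simp [F0]
        rw [h2]
        rfl
  have h2 := (h1.add (TriDec.triple (X := (V ⊕ Fin (2 * r)) ⊕ Fin 2) (Sum.inr 0) (Sum.inr 1)
    (Sum.inl (Sum.inl g)))).add (TriDec.triple (X := (V ⊕ Fin (2 * r)) ⊕ Fin 2) (Sum.inr 1)
      (Sum.inr 0) (Sum.inl (Sum.inl g)))
  let e2 : (V ⊕ Fin (2 * r)) ⊕ Fin 2 ≃ V ⊕ Fin (2 * r + 2) :=
    (Equiv.sumAssoc V (Fin (2 * r)) (Fin 2)).trans (Equiv.sumCongr (Equiv.refl V) finSumFinEquiv)
  apply TriDec.equiv e2
  refine h2.congr ?_
  have hU1 : ∀ (u v p q : (V ⊕ Fin (2 * r)) ⊕ Fin 2), U u v p q = if p = u ∧ q = v then 1 else 0 :=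
    fun _ _ _ _ => rfl
  rintro ((b | w) | p) ((c | w') | q)
  · change (a b c - F b c) + F b c + _ + _ = a b c
    have := hF b c
    simp [hU1]
    omega
  · change μ b + 0 + _ + _ = μ b
    simp [hU1]
  · change (if b = g then 0 else μ b) + _ + _ = μ b
    by_cases hb : b = g
    · subst hb
      rw [hμ]
      fin_cases q <;> simp [hU1]
    · fin_cases q <;> simp [hU1, hb]
  · change μ c + 0 + _ + _ = μ c
    simp [hU1]
  · change (if w = w' then 0 else 1) + 0 + _ + _ =
      (if Fin.castAdd 2 w = Fin.castAdd 2 w' then 0 else 1)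
    by_cases h5 : w = w'
    · simp [hU1, h5]
    · rw [if_neg h5, if_neg]
      · simp [hU1]
      · intro h6
        exact h5 (Fin.castAdd_injective _ _ h6)
  · change 1 + _ + _ = (if Fin.castAdd 2 w = Fin.natAdd (2 * r) q then 0 else 1)
    rw [if_neg]
    · simp [hU1]
    · intro h6
      have := congrArg Fin.val h6
      simp at this
      omega
  · change (if c = g then 0 else μ c) + _ + _ = μ c
    by_cases hb : c = g
    · subst hb
      rw [hμ]
      fin_cases p <;> simp [hU1]
    · fin_cases p <;> simp [hU1, hb]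
  · change 1 + _ + _ = (if Fin.natAdd (2 * r) p = Fin.castAdd 2 w' then 0 else 1)
    rw [if_neg]
    · simp [hU1]
    · intro h6
      have := congrArg Fin.val h6
      simp at this
      omega
  · change 0 + _ + _ = (if Fin.natAdd (2 * r) p = Fin.natAdd (2 * r) q then 0 else 1)
    by_cases h5 : p = q
    · subst h5
      fin_cases p <;> simp [hU1]
    · rw [if_neg]
      · fin_cases p <;> fin_cases q <;> simp [hU1] at h5 ⊢
      · intro h6
        exact h5 (Fin.natAdd_injective _ _ h6)

end MQ94
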