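import Pool.Agent.MQ94.Step
import Pool.Agent.MQ94.Bis

/-!
# Module MQ-THME (MP_aaabe1_al, helper94): the isolated vertex theorem

**thmE.** Induction on `r`. A state of level `2 r`: vertices `V` with multiplicities `μ`, arcs `a`,
loops `δ b` (triples `b, α, α` with the amalgamated vertex `α` of multiplicity `2 r`), `τ` triples
`α, α, α`, and an isolated vertex `g` of multiplicity `1`.

`r = 0`: all row sums `fo a b + δ b` vanish, so `a = 0` and `lev 0 μ a` is the zero array
(`V ⊕ Fin 0`).

Step from `r` to `r - 1` (`r ≥ 1`). Apply `bisect` to `a` and `δ₀ b = if b = g then 0 else δ b`,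
`m b = if b = g then 0 else r * μ b` (note `δ g = 2 r`): a closed pair `(P, Q)` for `a, δ₀` gives the
closed pair `(P \ {g}, Q \ {g})` in the sense of `Closed`. So we get `F, T, H` with `F ≤ a`,
`T + H = δ₀`, `fo F b + T b = r μ b = fi F b + H b` (`b ≠ g`) and `0` for `g`. Then
`∑ T = ∑ r μ - tot F = ∑ H =: E` and `2 E = ∑_{b ≠ g} δ b = 4 r (r - 1) - 3 τ`.
Choose `F' ≤ F, T' ≤ T, H' ≤ H` and `t` with `fo F' b + T' b = 2 μ b = fi F' b + H' b` for `b ≠ g`,
`∑ T' = ∑ H' = 2 t`:
* `r ≥ 3`: `two_classes` (Dec.lean) with `μ₀ b = if b = g then 0 else μ b`. With `τ = 2 σ`,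
  `E = 2 r (r - 1) - 3 σ`; `r t < E + r` gives `t ≤ 2 (r - 1)`, `E < r (t + 1)` gives
  `t ≥ 2 (r - 1) - σ` because `3 σ ≤ r σ`. For `r = 3`: `E = 12 - 3 σ`, so `t = 4 - σ` exactly.
* `r = 2`: `F' = F, T' = T, H' = H`; `τ = 0`, `E = 4 = 2 t`, `t = 2`.
* `r = 1`: here take `F' = a` instead, `T' = H' = 0`, `t = 0`: `τ = 0`, and the count gives
  `δ b = 0` for `b ≠ g`, so `fo a b = 2 μ b = fi a b`.
In all cases `0 ≤ 4 (r - 1) - 2 t ≤ τ`, and `τ' = τ - (4 (r - 1) - 2 t)` is even, and `0` if
`r - 1 ≤ 2`. New state of level `2 (r - 1)` on `Option V`: `μ' = stepμ μ`, `a' = stepA a F' T' H'`,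
`δ' (some b) = δ b - T' b - H' b` for `b ≠ g`, `δ' (some g) = 2 (r - 1)`,
`δ' none = 4 (r - 1) - 2 t`. Rows: `fo a' (some b) + δ' (some b)
= fo a b - fo F' b + H' b + δ b - T' b - H' b = 2 r μ b - 2 μ b`; row `none`:
`∑ T' + δ' none = 4 (r - 1)`; columns similarly. The count
`∑ δ' + 3 τ' + 2 (r-1) = (2 (r - 1))²`: `∑_{b ≠ g} δ' = 4 r (r - 1) - 3 τ - 4 t`,
plus `2 (r - 1)` plus `4 (r - 1) - 2 t` plus `3 τ - 3 (4 (r - 1) - 2 t)` plus `2 (r - 1)` is
`4 r (r - 1) - 4 (r - 1) = 4 (r - 1)²`.
Evenness: let `(P', Q')` be closed for the new state, `P, Q` the parts in `V`,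
`p = ∑_{b ∈ P} μ b`, `q = ∑_{b ∈ Q} μ b`. `δ' none` is even, so we need
`∑_{b ∈ P} δ' (some b)` even. If `r = 1` it is `0`. Let `r ≥ 2`. Counting rows of `P'` and columns of
`Q'` (`a'` between `P'` and `Q'` and the loops are counted by both; `δ' x ≠ 0` implies
`x ∈ P' ↔ x ∈ Q'`): `2 (r-1) μ'(P') = 2 (r-1) μ'(Q')`, so `p ≡ q` modulo 2 (`μ' none = 2`).
For `b ≠ g`: `δ' (some b) = (T b - T' b) + (H b - H' b)`, and
`∑_{b ∈ P} (H b - H' b) = ∑_{b ∈ Q} (H b - H' b)` as the terms with `δ' = 0` vanish. The rest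
`F - F' ≤ a'` of the half `F` gives
`∑_{b ∈ P} ((T b - T' b) + ∑_c (F b c - F' b c)) = (r - 2) p` and
`∑_{c ∈ Q} ((H c - H' c) + ∑_b (F b c - F' b c)) = (r - 2) q`; the two double sums are equal (closed
pair). So `∑_{b ∈ P} δ' (some b) ≡ (r - 2) (p + q) ≡ 0` modulo 2.
Now apply the induction hypothesis and `step`.

**thmE_hub.** It suffices to check evenness for the closed pairs `(P, Q)` with `h ∉ Q` for one fixed
vertex `h ≠ g`: if `h ∈ Q` replace `(P, Q)` by the complements in `V \ {g}` (a closed pair, as `g`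
has no arcs), and `∑_{b ≠ g} δ b = 4 r (r-1) - 3 τ` is even.
-/

set_option autoImplicit false

namespace MQ94

namespace ThmEAux

theorem base0 {V : Type} [Fintype V] (μ : V → ℕ) (a : V → V → ℕ) (ha : ∀ b c, a b c = 0) :
    TriDec (lev (2 * 0) μ a) := by
  refine ⟨fun _ _ _ => 0, fun _ _ _ => rfl, ?_⟩
  rintro (x | x) (y | y)
  · simp [lev, ha]
  · exact y.elim0
  · exact x.elim0
  · exact x.elim0

theorem sum_mem {X : Type} [Fintype X] [DecidableEq X] (P : Finset X) (f : X → ℕ) :
    ∑ x ∈ P, f x = ∑ x, if x ∈ P then f x else 0 := by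
  rw [Finset.sum_ite_mem, Finset.univ_inter]

/-- transfer of a double sum between the two sides of a closed pair -/
theorem transfer {X : Type} [Fintype X] [DecidableEq X] (A : X → X → ℕ) (P Q : Finset X)
    (h : ∀ x y, A x y ≠ 0 → (x ∈ P ↔ y ∈ Q)) : ∑ x ∈ P, fo A x = ∑ y ∈ Q, fi A y := by
  unfold fo fi
  rw [sum_mem P, sum_mem Q]
  have h1 : ∀ x, (if x ∈ P then ∑ y, A x y else 0) = ∑ y, if x ∈ P then A x y else 0 := by
    intro x
    split_ifs <;> simp
  have h2 : ∀ y, (if y ∈ Q then ∑ x, A x y else 0) = ∑ x, if y ∈ Q then A x y else 0 := by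
    intro y
    split_ifs <;> simp
  simp only [h1, h2]
  rw [Finset.sum_comm]
  refine Finset.sum_congr rfl fun y _ => Finset.sum_congr rfl fun x _ => ?_
  by_cases h0 : A x y = 0
  · simp [h0]
  · have := h x y h0
    by_cases hx : x ∈ P
    · rw [if_pos hx, if_pos (this.1 hx)]
    · rw [if_neg hx, if_neg (fun hy => hx (this.2 hy))]

theorem transfer1 {X : Type} [Fintype X] [DecidableEq X] (D : X → ℕ) (P Q : Finset X)
    (h : ∀ x, D x ≠ 0 → (x ∈ P ↔ x ∈ Q)) : ∑ x ∈ P, D x = ∑ y ∈ Q, D y := by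
  rw [sum_mem P, sum_mem Q]
  refine Finset.sum_congr rfl fun x _ => ?_
  by_cases h0 : D x = 0
  · simp [h0]
  · have := h x h0
    by_cases hx : x ∈ P
    · rw [if_pos hx, if_pos (this.1 hx)]
    · rw [if_neg hx, if_neg (fun hy => hx (this.2 hy))]

/-- the statement of `thmE` at `r` -/
def St (r : ℕ) : Prop := ∀ (V : Type) (_ : Fintype V) (_ : DecidableEq V) (μ : V → ℕ)
    (a : V → V → ℕ) (δ : V → ℕ) (g : V) (τ : ℕ), μ g = 1 → (∀ c, a g c = 0) → (∀ c, a c g = 0) →
    (∀ b, fo a b + δ b = 2 * r * μ b) → (∀ b, fi a b + δ b = 2 * r * μ b) →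
    Even τ → (r ≤ 2 → τ = 0) → ∑ b, δ b + 3 * τ + 2 * r = 2 * r * (2 * r) →
    (∀ P Q : Finset V, Closed a δ g P Q → Even (∑ b ∈ P, δ b)) →
    TriDec (lev (2 * r) μ a)

theorem sum_sub_nat {X : Type} (s : Finset X) (f f' : X → ℕ) (h : ∀ x, f' x ≤ f x) :
    ∑ x ∈ s, (f x - f' x) + ∑ x ∈ s, f' x = ∑ x ∈ s, f x := by
  rw [← Finset.sum_add_distrib]
  exact Finset.sum_congr rfl fun x _ => Nat.sub_add_cancel (h x)

theorem sum_off {V : Type} [Fintype V] [DecidableEq V] (g : V) (f : V → ℕ) :
    ∑ b, f b = (∑ b, if b = g then 0 else f b) + f g := by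
  have h : ∀ b, f b = (if b = g then 0 else f b) + (if b = g then f g else 0) := by
    intro b
    by_cases hb : b = g <;> simp [hb]
  have h2 : ∑ b, f b = ∑ b, ((if b = g then 0 else f b) + (if b = g then f g else 0)) :=
    Finset.sum_congr rfl fun b _ => h b
  rw [h2, Finset.sum_add_distrib]
  simp

theorem finish (r : ℕ) (hr : 1 ≤ r) (IH : St r) {V : Type} [Fintype V] [DecidableEq V]
    (μ : V → ℕ) (a : V → V → ℕ) (δ : V → ℕ) (g : V) (σ : ℕ) (hμ : μ g = 1)
    (hg1 : ∀ c, a g c = 0) (hg2 : ∀ c, a c g = 0)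
    (hrow : ∀ b, fo a b + δ b = 2 * (r + 1) * μ b) (hcol : ∀ b, fi a b + δ b = 2 * (r + 1) * μ b)
    (hcount : ∑ b, δ b + 3 * (2 * σ) + 2 * (r + 1) = 2 * (r + 1) * (2 * (r + 1)))
    (F : V → V → ℕ) (T H : V → ℕ) (hFa : ∀ b c, F b c ≤ a b c)
    (hTH : ∀ b, T b + H b = if b = g then 0 else δ b)
    (hFo : ∀ b, fo F b + T b = (r + 1) * if b = g then 0 else μ b)
    (hFi : ∀ b, fi F b + H b = (r + 1) * if b = g then 0 else μ b)
    (F' : V → V → ℕ) (T' H' : V → ℕ) (t : ℕ) (hF' : ∀ b c, F' b c ≤ F b c)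
    (hT' : ∀ b, T' b ≤ T b) (hH' : ∀ b, H' b ≤ H b)
    (hFo' : ∀ b, fo F' b + T' b = 2 * if b = g then 0 else μ b)
    (hFi' : ∀ b, fi F' b + H' b = 2 * if b = g then 0 else μ b)
    (hsT : ∑ b, T' b = 2 * t) (hsH : ∑ b, H' b = 2 * t) (ht1 : t ≤ 2 * r)
    (ht2 : 2 * r ≤ t + σ) (ht3 : r ≤ 2 → t + σ = 2 * r) :
    TriDec (lev (2 * (r + 1)) μ a) := by
  have hFa' : ∀ b c, F' b c ≤ a b c := fun b c => (hF' b c).trans (hFa b c)
  have hδg : δ g = 2 * (r + 1) := by
    have h1 := hrow g
    have h2 : fo a g = 0 := Finset.sum_eq_zero fun c _ => hg1 c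
    rw [h2, hμ] at h1
    omega
  have hTg : T g = 0 ∧ H g = 0 := by
    have := hTH g
    rw [if_pos rfl] at this
    omega
  have hTg' : T' g = 0 := by have := hT' g; omega
  have hHg' : H' g = 0 := by have := hH' g; omega
  have hFg' : fo F' g = 0 ∧ fi F' g = 0 := by
    have h1 := hFo' g
    have h2 := hFi' g
    rw [if_pos rfl] at h1 h2
    omega
  -- the new loops
  obtain ⟨δ', hδ'⟩ : ∃ δ' : Option V → ℕ, (δ' none = 4 * r - 2 * t) ∧
      ∀ b, δ' (some b) = if b = g then 2 * r else δ b - T' b - H' b :=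
    ⟨fun x => match x with
      | none => 4 * r - 2 * t
      | some b => if b = g then 2 * r else δ b - T' b - H' b, rfl, fun _ => rfl⟩
  obtain ⟨hδn, hδs⟩ := hδ'
  obtain ⟨a', ha'⟩ : ∃ a' : Option V → Option V → ℕ, a' = stepA a F' T' H' := ⟨_, rfl⟩
  have ha1 : ∀ b c, a' (some b) (some c) = a b c - F' b c := fun b c => by rw [ha']; rfl
  have ha2 : ∀ c, a' none (some c) = T' c := fun c => by rw [ha']; rfl
  have ha3 : ∀ b, a' (some b) none = H' b := fun b => by rw [ha']; rfl
  have ha4 : a' none none = 0 := by rw [ha']; rfl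
  have hfo1 : ∀ b, fo a' (some b) + fo F' b = H' b + fo a b := by
    intro b
    unfold fo
    rw [Fintype.sum_option, ha3]
    simp only [ha1]
    rw [add_assoc, sum_sub_nat Finset.univ (fun c => a b c) (fun c => F' b c) (hFa' b)]
  have hfi1 : ∀ c, fi a' (some c) + fi F' c = T' c + fi a c := by
    intro c
    unfold fi
    rw [Fintype.sum_option, ha2]
    simp only [ha1]
    rw [add_assoc, sum_sub_nat Finset.univ (fun b => a b c) (fun b => F' b c) (fun b => hFa' b c)]
  have hfo2 : fo a' none = 2 * t := by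
    unfold fo
    rw [Fintype.sum_option, ha4, zero_add]
    simp only [ha2]
    exact hsT
  have hfi2 : fi a' none = 2 * t := by
    unfold fi
    rw [Fintype.sum_option, ha4, zero_add]
    simp only [ha3]
    exact hsH
  have hδle : ∀ b, b ≠ g → T' b + H' b ≤ δ b := by
    intro b hb
    have h1 := hTH b
    rw [if_neg hb] at h1
    have h2 := hT' b
    have h3 := hH' b
    omega
  obtain ⟨μ', hμ'⟩ : ∃ μ' : Option V → ℕ, μ' = stepμ μ := ⟨_, rfl⟩
  have hμn : μ' none = 2 := by rw [hμ']; rfl
  have hμs : ∀ b, μ' (some b) = μ b := fun b => by rw [hμ']; rfl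
  have hrow' : ∀ x, fo a' x + δ' x = 2 * r * μ' x := by
    intro x
    cases x with
    | none => rw [hfo2, hδn, hμn]; omega
    | some b =>
      have h1 := hfo1 b
      have h2 := hrow b
      have h3 := hFo' b
      rw [hδs, hμs]
      by_cases hb : b = g
      · subst hb
        rw [if_pos rfl]
        rw [hδg, hμ] at h2
        rw [hμ]
        have := hFg'.1
        omega
      · rw [if_neg hb]
        rw [if_neg hb] at h3
        have h4 := hδle b hb
        have e : 2 * (r + 1) * μ b = 2 * r * μ b + 2 * μ b := by ring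
        rw [e] at h2
        omega
  have hcol' : ∀ x, fi a' x + δ' x = 2 * r * μ' x := by
    intro x
    cases x with
    | none => rw [hfi2, hδn, hμn]; omega
    | some b =>
      have h1 := hfi1 b
      have h2 := hcol b
      have h3 := hFi' b
      rw [hδs, hμs]
      by_cases hb : b = g
      · subst hb
        rw [if_pos rfl]
        rw [hδg, hμ] at h2
        rw [hμ]
        have := hFg'.2
        omega
      · rw [if_neg hb]
        rw [if_neg hb] at h3
        have h4 := hδle b hb
        have e : 2 * (r + 1) * μ b = 2 * r * μ b + 2 * μ b := by ring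
        rw [e] at h2
        omega
  -- the count
  have hoff := sum_off g δ
  have hsum' : ∑ b, (if b = g then 0 else δ b - T' b - H' b) + 4 * t =
      ∑ b, if b = g then 0 else δ b := by
    have h1 : ∀ b, (if b = g then 0 else δ b - T' b - H' b) + (T' b + H' b) =
        if b = g then 0 else δ b := by
      intro b
      by_cases hb : b = g
      · rw [if_pos hb, if_pos hb, hb]; omega
      · rw [if_neg hb, if_neg hb]
        have := hδle b hb
        omega
    have h2 : ∑ b, ((if b = g then 0 else δ b - T' b - H' b) + (T' b + H' b)) =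
        ∑ b, if b = g then 0 else δ b := Finset.sum_congr rfl fun b _ => h1 b
    rw [Finset.sum_add_distrib, Finset.sum_add_distrib, hsT, hsH] at h2
    omega
  have hcount' : ∑ x, δ' x + 3 * (2 * (t + σ - 2 * r)) + 2 * r = 2 * r * (2 * r) := by
    rw [Fintype.sum_option, hδn, sum_off g (fun b => δ' (some b)), hδs g, if_pos rfl]
    have h1 : ∑ b, (if b = g then 0 else δ' (some b)) =
        ∑ b, (if b = g then 0 else δ b - T' b - H' b) := by
      refine Finset.sum_congr rfl fun b _ => ?_
      by_cases hb : b = g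
      · rw [if_pos hb, if_pos hb]
      · rw [if_neg hb, if_neg hb, hδs, if_neg hb]
    rw [h1]
    have e1 : 2 * (r + 1) * (2 * (r + 1)) = 4 * (r * r) + 8 * r + 4 := by ring
    have e2 : 2 * r * (2 * r) = 4 * (r * r) := by ring
    rw [e1] at hcount
    rw [e2]
    omega
  -- evenness
  have heven : ∀ P' Q' : Finset (Option V), Closed a' δ' (some g) P' Q' →
      Even (∑ x ∈ P', δ' x) := by
    intro P' Q' hcl
    obtain ⟨c1, c2, c3, c4⟩ := hcl
    -- the count of the multiplicities
    have hbal : ∑ x ∈ P', μ' x = ∑ x ∈ Q', μ' x := by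
      have h1 := transfer a' P' Q' c3
      have h2 := transfer1 (fun x => if x = some g then 0 else δ' x) P' Q' (by
        intro x hx
        by_cases hxg : x = some g
        · rw [if_pos hxg] at hx; exact absurd rfl hx
        · rw [if_neg hxg] at hx; exact c4 x hxg hx)
      have h3 : ∀ S : Finset (Option V), some g ∉ S →
          ∑ x ∈ S, (if x = some g then 0 else δ' x) = ∑ x ∈ S, δ' x := by
        intro S hS
        refine Finset.sum_congr rfl fun x hx => ?_
        rw [if_neg]
        rintro rfl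
        exact hS hx
      rw [h3 P' c1, h3 Q' c2] at h2
      have h4 : ∑ x ∈ P', (fo a' x + δ' x) = ∑ x ∈ Q', (fi a' x + δ' x) := by
        rw [Finset.sum_add_distrib, Finset.sum_add_distrib, h1, h2]
      simp only [hrow', hcol'] at h4
      rw [← Finset.mul_sum, ← Finset.mul_sum] at h4
      exact Nat.eq_of_mul_eq_mul_left (by omega) h4
    obtain ⟨P, hP⟩ : ∃ P : Finset V, P = Finset.univ.filter (fun b => some b ∈ P') := ⟨_, rfl⟩
    obtain ⟨Q, hQ⟩ : ∃ Q : Finset V, Q = Finset.univ.filter (fun b => some b ∈ Q') := ⟨_, rfl⟩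
    have hPm : ∀ b, b ∈ P ↔ some b ∈ P' := fun b => by rw [hP]; simp
    have hQm : ∀ b, b ∈ Q ↔ some b ∈ Q' := fun b => by rw [hQ]; simp
    have hgP : g ∉ P := fun h => c1 ((hPm g).1 h)
    have hgQ : g ∉ Q := fun h => c2 ((hQm g).1 h)
    have hsplit : ∀ (S : Finset (Option V)) (S0 : Finset V), (∀ b, b ∈ S0 ↔ some b ∈ S) →
        ∀ f : Option V → ℕ, ∑ x ∈ S, f x = (if none ∈ S then f none else 0) +
          ∑ b ∈ S0, f (some b) := by
      intro S S0 hS f
      rw [sum_mem S, Fintype.sum_option, sum_mem S0]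
      congr 1
      refine Finset.sum_congr rfl fun b _ => ?_
      by_cases hb : b ∈ S0
      · rw [if_pos hb, if_pos ((hS b).1 hb)]
      · rw [if_neg hb, if_neg (fun h => hb ((hS b).2 h))]
    have hpq : Even (∑ b ∈ P, μ b + ∑ b ∈ Q, μ b) := by
      rw [hsplit P' P hPm, hsplit Q' Q hQm] at hbal
      simp only [hμs, hμn] at hbal
      rw [Nat.even_iff]
      split_ifs at hbal <;> omega
    -- the rest of the half
    have hrestT := sum_sub_nat P T T' hT'
    have hrestH := sum_sub_nat Q H H' hH'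
    have hF1 : ∑ b ∈ P, fo (fun b c => F b c - F' b c) b =
        ∑ c ∈ Q, fi (fun b c => F b c - F' b c) c := by
      apply transfer
      intro b c hbc
      rw [hPm, hQm]
      apply c3
      rw [ha1]
      have := hFa b c
      omega
    have hH1 : ∑ b ∈ P, (H b - H' b) = ∑ b ∈ Q, (H b - H' b) := by
      apply transfer1
      intro b hb
      rw [hPm, hQm]
      have hbg : b ≠ g := by
        rintro rfl
        have := hTg.2
        omega
      apply c4 _ (by simpa using hbg)
      rw [hδs, if_neg hbg]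
      have h1 := hTH b
      rw [if_neg hbg] at h1
      have h2 := hT' b
      omega
    have hfoF : ∀ b, fo (fun b c => F b c - F' b c) b + fo F' b = fo F b := by
      intro b
      unfold fo
      exact sum_sub_nat Finset.univ (fun c => F b c) (fun c => F' b c) (hF' b)
    have hfiF : ∀ c, fi (fun b c => F b c - F' b c) c + fi F' c = fi F c := by
      intro c
      unfold fi
      exact sum_sub_nat Finset.univ (fun b => F b c) (fun b => F' b c) (fun b => hF' b c)
    obtain ⟨k, hk⟩ : ∃ k, r = k + 1 := ⟨r - 1, by omega⟩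
    have hP1 : ∑ b ∈ P, (fo (fun b c => F b c - F' b c) b + (T b - T' b)) =
        k * ∑ b ∈ P, μ b := by
      rw [Finset.mul_sum]
      refine Finset.sum_congr rfl fun b hb => ?_
      have hbg : b ≠ g := fun h => hgP (h ▸ hb)
      have h1 := hFo b
      have h2 := hFo' b
      have h3 := hfoF b
      have h4 := hT' b
      rw [if_neg hbg] at h1 h2
      have e : (r + 1) * μ b = k * μ b + 2 * μ b := by rw [hk]; ring
      rw [e] at h1
      omega
    have hQ1 : ∑ b ∈ Q, (fi (fun b c => F b c - F' b c) b + (H b - H' b)) =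
        k * ∑ b ∈ Q, μ b := by
      rw [Finset.mul_sum]
      refine Finset.sum_congr rfl fun b hb => ?_
      have hbg : b ≠ g := fun h => hgQ (h ▸ hb)
      have h1 := hFi b
      have h2 := hFi' b
      have h3 := hfiF b
      have h4 := hH' b
      rw [if_neg hbg] at h1 h2
      have e : (r + 1) * μ b = k * μ b + 2 * μ b := by rw [hk]; ring
      rw [e] at h1
      omega
    rw [Finset.sum_add_distrib] at hP1 hQ1
    have hδP : ∑ b ∈ P, δ' (some b) = ∑ b ∈ P, (T b - T' b) + ∑ b ∈ P, (H b - H' b) := by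
      rw [← Finset.sum_add_distrib]
      refine Finset.sum_congr rfl fun b hb => ?_
      have hbg : b ≠ g := fun h => hgP (h ▸ hb)
      rw [hδs, if_neg hbg]
      have h1 := hTH b
      rw [if_neg hbg] at h1
      have h2 := hT' b
      have h3 := hH' b
      omega
    rw [hsplit P' P hPm, hδP, hH1, hδn]
    have hev2 : Even (k * ∑ b ∈ P, μ b + k * ∑ b ∈ Q, μ b) := by
      rw [← mul_add]
      exact hpq.mul_left k
    rw [← hP1, ← hQ1, hF1] at hev2
    rw [Nat.even_iff] at hev2 ⊢
    split_ifs <;> omega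
  have h := IH (Option V) inferInstance inferInstance μ' a' δ' (some g) (2 * (t + σ - 2 * r)) (by rw [hμs]; exact hμ) (by
      intro c
      cases c with
      | none => rw [ha3]; exact hHg'
      | some c => rw [ha1, hg1]; simp) (by
      intro c
      cases c with
      | none => rw [ha2]; exact hTg'
      | some c => rw [ha1, hg2]; simp) hrow' hcol' (even_two_mul _) (by
      intro hr2
      have := ht3 hr2
      omega) hcount' heven
  rw [hμ', ha'] at h
  refine step r μ a F' T' H' g hμ hFa' ?_ ?_ hFg'.1 hFg'.2 hTg' hHg' h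
  · intro b hb
    have := hFo' b
    rwa [if_neg hb] at this
  · intro b hb
    have := hFi' b
    rwa [if_neg hb] at this

theorem all (r : ℕ) : St r := by
  induction r with
  | zero =>
    intro V _ _ μ a δ g τ hμ hg1 hg2 hrow hcol hτ hτr hcount hev
    apply base0
    intro b c
    have h1 := hrow b
    have h2 := le_fo a b c
    have : fo a b = 0 := by
      have : 2 * 0 * μ b = 0 := by ring
      omega
    omega
  | succ r IH =>
    intro V _ _ μ a δ g τ hμ hg1 hg2 hrow hcol hτ hτr hcount hev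
    have hδg : δ g = 2 * (r + 1) := by
      have h1 := hrow g
      have h2 : fo a g = 0 := Finset.sum_eq_zero fun c _ => hg1 c
      rw [h2, hμ] at h1
      omega
    have hoff := sum_off g δ
    rw [hδg] at hoff
    rcases Nat.eq_zero_or_pos r with hr0 | hr0
    · -- level 2
      subst hr0
      have hτ0 := hτr (by omega)
      have hz : ∑ b, (if b = g then 0 else δ b) = 0 := by omega
      have hδ0 : ∀ b, b ≠ g → δ b = 0 := by
        intro b hb
        have := (Finset.sum_eq_zero_iff.1 hz) b (Finset.mem_univ b)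
        rwa [if_neg hb] at this
      refine step 0 μ a a (fun _ => 0) (fun _ => 0) g hμ (fun _ _ => le_rfl) ?_ ?_ ?_ ?_ rfl rfl ?_
      · intro b hb
        have := hrow b
        rw [hδ0 b hb] at this
        rw [this]
      · intro b hb
        have := hcol b
        rw [hδ0 b hb] at this
        rw [this]
      · exact Finset.sum_eq_zero fun c _ => hg1 c
      · exact Finset.sum_eq_zero fun c _ => hg2 c
      · apply base0
        intro x y
        cases x <;> cases y <;> simp [stepA]
    · obtain ⟨σ, hσ⟩ := hτ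
      have hσ' : τ = 2 * σ := by omega
      obtain ⟨F, T, H, hFa, hTH, hFo, hFi⟩ := bisect a (fun b => if b = g then 0 else δ b)
        (fun b => (r + 1) * if b = g then 0 else μ b) (by
          intro b
          by_cases hb : b = g
          · subst hb
            rw [if_pos rfl, if_pos rfl]
            have h2 : fo a b = 0 := Finset.sum_eq_zero fun c _ => hg1 c
            omega
          · rw [if_neg hb, if_neg hb, hrow b]
            ring) (by
          intro b
          by_cases hb : b = g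
          · subst hb
            rw [if_pos rfl, if_pos rfl]
            have h2 : fi a b = 0 := Finset.sum_eq_zero fun c _ => hg2 c
            omega
          · rw [if_neg hb, if_neg hb, hcol b]
            ring) (by
          intro P Q h1 h2
          have h3 := hev (P.erase g) (Q.erase g) ⟨by simp, by simp, ?_, ?_⟩
          · have h4 : ∑ b ∈ P, (if b = g then 0 else δ b) = ∑ b ∈ P.erase g, δ b := by
              rw [sum_mem P, sum_mem (P.erase g)]
              refine Finset.sum_congr rfl fun b _ => ?_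
              by_cases hb : b = g
              · subst hb; simp
              · simp [hb]
            rw [h4]
            exact h3
          · intro b c hbc
            have hb : b ≠ g := by rintro rfl; exact hbc (hg1 c)
            have hc : c ≠ g := by rintro rfl; exact hbc (hg2 b)
            simp only [Finset.mem_erase, ne_eq, hb, hc, not_false_eq_true, true_and]
            exact h1 b c hbc
          · intro b hb hb0
            simp only [Finset.mem_erase, ne_eq, hb, not_false_eq_true, true_and]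
            apply h2
            rw [if_neg hb]
            exact hb0)
      have hTHs : ∑ b, T b + ∑ b, H b = ∑ b, (if b = g then 0 else δ b) := by
        rw [← Finset.sum_add_distrib]
        exact Finset.sum_congr rfl fun b _ => hTH b
      have hTs : tot F + ∑ b, T b = ∑ b, (r + 1) * (if b = g then 0 else μ b) := by
        rw [tot_eq_sum_fo, ← Finset.sum_add_distrib]
        exact Finset.sum_congr rfl fun b _ => hFo b
      have hHs : tot F + ∑ b, H b = ∑ b, (r + 1) * (if b = g then 0 else μ b) := by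
        rw [tot_eq_sum_fi, ← Finset.sum_add_distrib]
        exact Finset.sum_congr rfl fun b _ => hFi b
      obtain ⟨E, hE⟩ : ∃ E, E = ∑ b, T b := ⟨_, rfl⟩
      have hE' : ∑ b, H b = E := by omega
      have hEc : E + 3 * σ = 2 * (r * r) + 2 * r := by
        have e1 : 2 * (r + 1) * (2 * (r + 1)) = 4 * (r * r) + 8 * r + 4 := by ring
        rw [e1] at hcount
        omega
      have hcount2 : ∑ b, δ b + 3 * (2 * σ) + 2 * (r + 1) = 2 * (r + 1) * (2 * (r + 1)) := by
        rw [← hσ']; exact hcount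
      rcases Nat.lt_or_ge r 2 with hr2 | hr2
      · -- level 4
        have hr1 : r = 1 := by omega
        have hτ0 := hτr (by omega)
        have hσ0 : σ = 0 := by omega
        refine finish r hr0 IH μ a δ g σ hμ hg1 hg2 hrow hcol hcount2 F T H hFa hTH hFo hFi
          F T H 2 (fun _ _ => le_rfl) (fun _ => le_rfl) (fun _ => le_rfl) ?_ ?_ ?_ ?_ ?_ ?_ ?_
        · intro b; rw [hFo b, hr1]
        · intro b; rw [hFi b, hr1]
        · rw [← hE]; subst hr1; omega
        · rw [hE']; subst hr1; omega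
        · omega
        · omega
        · intro _; omega
      · -- two classes
        obtain ⟨F', T', H', t, k1, k2, k3, k4, k5, k6, k7, k8, k9⟩ := two_classes (r + 1)
          (by omega) F T H (fun b => if b = g then 0 else μ b) E hFo hFi hE.symm hE'
        have hσr : 3 * σ ≤ (r + 1) * σ := Nat.mul_le_mul_right σ (by omega)
        refine finish r hr0 IH μ a δ g σ hμ hg1 hg2 hrow hcol hcount2 F T H hFa hTH hFo hFi
          F' T' H' t k1 k2 k3 k4 k5 k6 k7 ?_ ?_ ?_
        · have h1 : (r + 1) * t < (r + 1) * (2 * r + 1) := by nlinarith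
          have := Nat.lt_of_mul_lt_mul_left h1
          omega
        · have h1 : (r + 1) * (2 * r) < (r + 1) * (t + 1 + σ) := by nlinarith
          have := Nat.lt_of_mul_lt_mul_left h1
          omega
        · intro hr3
          have hr2' : r = 2 := by omega
          subst hr2'
          omega

end ThmEAux

theorem thmE (r : ℕ) : ∀ {V : Type} [Fintype V] [DecidableEq V] (μ : V → ℕ) (a : V → V → ℕ)
    (δ : V → ℕ) (g : V) (τ : ℕ), μ g = 1 → (∀ c, a g c = 0) → (∀ c, a c g = 0) →
    (∀ b, fo a b + δ b = 2 * r * μ b) → (∀ b, fi a b + δ b = 2 * r * μ b) →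
    Even τ → (r ≤ 2 → τ = 0) → ∑ b, δ b + 3 * τ + 2 * r = 2 * r * (2 * r) →
    (∀ P Q : Finset V, Closed a δ g P Q → Even (∑ b ∈ P, δ b)) →
    TriDec (lev (2 * r) μ a) := by
  intro V _ _ μ a δ g τ h1 h2 h3 h4 h5 h6 h7 h8 h9
  exact ThmEAux.all r V inferInstance inferInstance μ a δ g τ h1 h2 h3 h4 h5 h6 h7 h8 h9

theorem thmE_hub (r : ℕ) {V : Type} [Fintype V] [DecidableEq V] (μ : V → ℕ) (a : V → V → ℕ)
    (δ : V → ℕ) (g h : V) (τ : ℕ) (hhg : h ≠ g) (hμ : μ g = 1) (hg1 : ∀ c, a g c = 0)
    (hg2 : ∀ c, a c g = 0) (hrow : ∀ b, fo a b + δ b = 2 * r * μ b)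
    (hcol : ∀ b, fi a b + δ b = 2 * r * μ b) (hτ : Even τ) (hτr : r ≤ 2 → τ = 0)
    (hcount : ∑ b, δ b + 3 * τ + 2 * r = 2 * r * (2 * r))
    (hev : ∀ P Q : Finset V, Closed a δ g P Q → h ∉ Q → Even (∑ b ∈ P, δ b)) :
    TriDec (lev (2 * r) μ a) := by
  refine thmE r μ a δ g τ hμ hg1 hg2 hrow hcol hτ hτr hcount ?_
  intro P Q hcl
  by_cases hh : h ∈ Q
  swap
  · exact hev P Q hcl hh
  obtain ⟨c1, c2, c3, c4⟩ := hcl
  have hδg : δ g = 2 * r := by
    have h1 := hrow g
    have h2 : fo a g = 0 := Finset.sum_eq_zero fun c _ => hg1 c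
    rw [h2, hμ] at h1
    omega
  have hoff := ThmEAux.sum_off g δ
  have h1 := hev (Pᶜ.erase g) (Qᶜ.erase g) ⟨by simp, by simp, ?_, ?_⟩ (by simp [hh])
  · have h2 : ∑ b ∈ P, δ b + ∑ b ∈ Pᶜ.erase g, δ b = ∑ b, if b = g then 0 else δ b := by
      rw [ThmEAux.sum_mem P, ThmEAux.sum_mem (Pᶜ.erase g), ← Finset.sum_add_distrib]
      refine Finset.sum_congr rfl fun b _ => ?_
      by_cases hb : b = g
      · subst hb; simp [c1]
      · by_cases hP : b ∈ P <;> simp [hb, hP]
    have e : 2 * r * (2 * r) = 4 * (r * r) := by ring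
    rw [e] at hcount
    obtain ⟨σ, hσ⟩ := hτ
    rw [Nat.even_iff] at h1 ⊢
    omega
  · intro b c hbc
    have hb : b ≠ g := by rintro rfl; exact hbc (hg1 c)
    have hc : c ≠ g := by rintro rfl; exact hbc (hg2 b)
    simp only [Finset.mem_erase, ne_eq, hb, hc, not_false_eq_true, true_and, Finset.mem_compl]
    exact not_congr (c3 b c hbc)
  · intro b hb hb0
    simp only [Finset.mem_erase, ne_eq, hb, not_false_eq_true, true_and, Finset.mem_compl]
    exact not_congr (c4 b hb hb0)

end MQ94
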