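import Pool.Agent.MQ94.Defs
import Pool.Agent.MQ94.Dec

/-!
# Module MQ-TRI (MP_aaabe1_al, helper94): operations on triple decompositions

`TriDec.star M v`: `M x y` copies of each triple `(x, y, v)`:
`t x y z = (if z = v then M x y else 0) + (if x = v then M y z else 0) + (if y = v then M z x else 0)`.

`TriDec.push f`: push forward the triples along the map `f`:
`t' y y' y'' = ∑ x x' x'', if f x = y ∧ f x' = y' ∧ f x'' = y'' then t x x' x'' else 0`.

`expand k`: replace the vertex `none` (which has no arcs `none → none`) by `k` vertices.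
Let `t₀` be the decomposition of `A`. As `A none none = 0`, no triple contains `none` twice
(`t₀ none none z = 0` for all `z`, and by cyclicity `t₀ none z none = t₀ z none none = 0`).
Let `G x y = t₀ none (some x) (some y) + F x y`. Row sums `A none (some x) + fo F x = k * ρ x`,
column sums `A (some y) none + fi F y = k * γ y` (use
`t₀ none (some x) (some y) = t₀ (some y) none (some x)`). By `kdec` (Dec.lean)
`G = ∑_{s : Fin k} M s` with row sums `ρ` and column sums `γ`. New triples on `X ⊕ Fin k`:
`t x y z = t₀ (some x) (some y) (some z)` for old vertices, `M s x y` copies of the cyclic triple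
`(x, y, s)`, i.e. `t x y s = t y s x = t s x y = M s x y`, all others `0`. Then
`∑_z t x y z = ∑_{z : X} t₀ x y z + ∑_s M s x y = ∑_z t₀ x y z + t₀ none x y + F x y = A x y + F x y`.
-/

set_option autoImplicit false

namespace MQ94

section
variable {X : Type} [Fintype X]

theorem TriDec.congr {A B : X → X → ℕ} (h : TriDec A) (hAB : ∀ x y, A x y = B x y) :
    TriDec B := by
  have : A = B := by
    funext x y
    exact hAB x y
  rw [← this]
  exact h

theorem TriDec.zero : TriDec (fun _ _ : X => 0) :=
  ⟨fun _ _ _ => 0, fun _ _ _ => rfl, fun _ _ => by simp⟩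

theorem TriDec.add {A B : X → X → ℕ} (hA : TriDec A) (hB : TriDec B) :
    TriDec (fun x y => A x y + B x y) := by
  obtain ⟨t, ht, hs⟩ := hA
  obtain ⟨t', ht', hs'⟩ := hB
  refine ⟨fun x y z => t x y z + t' x y z, fun x y z => ?_, fun x y => ?_⟩
  · dsimp only
    rw [ht, ht']
  · rw [Finset.sum_add_distrib, hs, hs']

theorem TriDec.sum {ι : Type} (s : Finset ι) (A : ι → X → X → ℕ) (h : ∀ i ∈ s, TriDec (A i)) :
    TriDec (fun x y => ∑ i ∈ s, A i x y) := by
  classical
  induction s using Finset.induction_on with
  | empty => exact TriDec.zero.congr fun x y => by simp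
  | insert a s ha ih =>
    have h1 := h a (Finset.mem_insert_self a s)
    have h2 := ih fun i hi => h i (Finset.mem_insert_of_mem hi)
    exact (h1.add h2).congr fun x y => by rw [Finset.sum_insert ha]

theorem TriDec.star [DecidableEq X] (M : X → X → ℕ) (v : X) :
    TriDec (fun p q => M p q + (if p = v then fo M q else 0) + (if q = v then fi M p else 0)) := by
  refine ⟨fun x y z => (if z = v then M x y else 0) + (if x = v then M y z else 0) +
    (if y = v then M z x else 0), fun x y z => by ring, fun x y => ?_⟩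
  rw [Finset.sum_add_distrib, Finset.sum_add_distrib]
  congr 1
  · congr 1
    · rw [Finset.sum_ite_eq' Finset.univ v (fun _ => M x y)]
      simp
    · split_ifs with h
      · rfl
      · simp
  · split_ifs with h
    · rfl
    · simp

theorem TriDec.triple [DecidableEq X] (x y z : X) :
    TriDec (fun p q => U x y p q + U y z p q + U z x p q) := by
  have key : ∀ a b c p q : X, ∑ r, (if (p = a ∧ q = b) ∧ r = c then 1 else 0) = U a b p q := by
    intro a b c p q
    unfold U
    by_cases h : p = a ∧ q = b
    · simp [h]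
    · simp [h]
  refine ⟨fun p q r => (if (p = x ∧ q = y) ∧ r = z then 1 else 0) +
    (if (p = y ∧ q = z) ∧ r = x then 1 else 0) + (if (p = z ∧ q = x) ∧ r = y then 1 else 0),
    fun p q r => ?_, fun p q => ?_⟩
  · have e1 : ((q = z ∧ r = x) ∧ p = y) = ((p = y ∧ q = z) ∧ r = x) := by
      apply propext
      tauto
    have e2 : ((q = x ∧ r = y) ∧ p = z) = ((p = z ∧ q = x) ∧ r = y) := by
      apply propext
      tauto
    have e3 : ((q = y ∧ r = z) ∧ p = x) = ((p = x ∧ q = y) ∧ r = z) := by
      apply propext
      tauto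
    simp only [e1, e2, e3]
    ring
  · rw [Finset.sum_add_distrib, Finset.sum_add_distrib, key, key, key]

theorem TriDec.push {Y : Type} [Fintype Y] [DecidableEq Y] (f : X → Y) {A : X → X → ℕ}
    (h : TriDec A) :
    TriDec (fun y y' : Y => ∑ x, ∑ x', if f x = y ∧ f x' = y' then A x x' else 0) := by
  obtain ⟨t, ht, hs⟩ := h
  refine ⟨fun y y' y'' => ∑ x, ∑ x', ∑ x'', if f x = y ∧ f x' = y' ∧ f x'' = y'' then
    t x x' x'' else 0, fun y y' y'' => ?_, fun y y' => ?_⟩
  · have e1 : (∑ x, ∑ x', ∑ x'', if f x = y' ∧ f x' = y'' ∧ f x'' = y then t x x' x'' else 0) =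
        ∑ x, ∑ x'', ∑ x', if f x = y' ∧ f x' = y'' ∧ f x'' = y then t x x' x'' else 0 :=
      Finset.sum_congr rfl fun x _ => Finset.sum_comm
    refine Eq.trans ?_ (e1.trans Finset.sum_comm).symm
    refine Finset.sum_congr rfl fun a _ => Finset.sum_congr rfl fun b _ =>
      Finset.sum_congr rfl fun c _ => ?_
    have e2 : (f a = y ∧ f b = y' ∧ f c = y'') = (f b = y' ∧ f c = y'' ∧ f a = y) := by
      apply propext
      tauto
    simp only [e2, ht a b c]
  · have e1 : ∀ x x' : X, (∑ y'' : Y, ∑ x'', if f x = y ∧ f x' = y' ∧ f x'' = y'' then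
        t x x' x'' else 0) = if f x = y ∧ f x' = y' then A x x' else 0 := by
      intro x x'
      rw [Finset.sum_comm]
      by_cases h : f x = y ∧ f x' = y'
      · rw [if_pos h, ← hs x x']
        refine Finset.sum_congr rfl fun x'' _ => ?_
        simp [h]
      · rw [if_neg h]
        refine Finset.sum_eq_zero fun x'' _ => Finset.sum_eq_zero fun y'' _ => ?_
        rw [if_neg]
        tauto
    rw [Finset.sum_comm]
    refine Finset.sum_congr rfl fun x _ => ?_
    rw [Finset.sum_comm]
    exact Finset.sum_congr rfl fun x' _ => e1 x x'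

theorem TriDec.equiv {Y : Type} [Fintype Y] (e : X ≃ Y) {A : Y → Y → ℕ}
    (h : TriDec (fun x y => A (e x) (e y))) : TriDec A := by
  obtain ⟨t, ht, hs⟩ := h
  refine ⟨fun y y' y'' => t (e.symm y) (e.symm y') (e.symm y''), fun y y' y'' => ht _ _ _,
    fun y y' => ?_⟩
  rw [Equiv.sum_comp e.symm (fun z => t (e.symm y) (e.symm y') z), hs]
  simp

end

/-- the array obtained by expanding the vertex `none` into `k` vertices -/
def expArr {X : Type} (k : ℕ) (A : Option X → Option X → ℕ) (F : X → X → ℕ) (ρ γ : X → ℕ) :
    X ⊕ Fin k → X ⊕ Fin k → ℕ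
  | Sum.inl x, Sum.inl y => A (some x) (some y) + F x y
  | Sum.inr _, Sum.inl x => ρ x
  | Sum.inl x, Sum.inr _ => γ x
  | Sum.inr _, Sum.inr _ => 0

/-- the triples of the expanded array -/
private def expT {X : Type} {k : ℕ} (t : Option X → Option X → Option X → ℕ)
    (M : Fin k → X → X → ℕ) : X ⊕ Fin k → X ⊕ Fin k → X ⊕ Fin k → ℕ
  | Sum.inl x, Sum.inl y, Sum.inl z => t (some x) (some y) (some z)
  | Sum.inl x, Sum.inl y, Sum.inr s => M s x y
  | Sum.inr s, Sum.inl x, Sum.inl y => M s x y
  | Sum.inl y, Sum.inr s, Sum.inl x => M s x y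
  | Sum.inl _, Sum.inr _, Sum.inr _ => 0
  | Sum.inr _, Sum.inl _, Sum.inr _ => 0
  | Sum.inr _, Sum.inr _, _ => 0

theorem expand (k : ℕ) {X : Type} [Fintype X] [DecidableEq X] (A : Option X → Option X → ℕ)
    (F : X → X → ℕ) (ρ γ : X → ℕ) (hA : TriDec A) (hnn : A none none = 0)
    (hrow : ∀ x, A none (some x) + fo F x = k * ρ x)
    (hcol : ∀ x, A (some x) none + fi F x = k * γ x) :
    TriDec (expArr k A F ρ γ) := by
  obtain ⟨t, ht, hs⟩ := hA
  have h0 : ∀ z, t none none z = 0 := by
    intro z
    have h1 := hs none none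
    rw [hnn] at h1
    exact Finset.sum_eq_zero_iff.1 h1 z (Finset.mem_univ z)
  have h1 : ∀ z, t z none none = 0 := fun z => by rw [ht, h0]
  have h2 : ∀ z, t none z none = 0 := fun z => by rw [ht, h1]
  obtain ⟨M, hM, hMr, hMc⟩ := kdec k (fun x y : X => t none (some x) (some y) + F x y) ρ γ
    (by
      intro x
      have h3 := hs none (some x)
      rw [Fintype.sum_option, h2, zero_add] at h3
      rw [Finset.sum_add_distrib, h3]
      exact hrow x)
    (by
      intro y
      have h3 := hs (some y) none
      rw [Fintype.sum_option, h1, zero_add] at h3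
      have h4 : ∀ x : X, t (some y) none (some x) = t none (some x) (some y) := fun x => ht _ _ _
      simp only [h4] at h3
      rw [Finset.sum_add_distrib, h3]
      exact hcol y)
  refine ⟨expT t M, ?_, ?_⟩
  · rintro (x | s) (y | s') (z | s'') <;> simp only [expT]
    exact ht _ _ _
  · rintro (x | s) (y | s')
    · rw [Fintype.sum_sum_type]
      simp only [expT, expArr]
      rw [hM]
      have h3 := hs (some x) (some y)
      rw [Fintype.sum_option, ht, ht] at h3
      omega
    · rw [Fintype.sum_sum_type]
      simp only [expT, expArr]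
      rw [hMc s' x]
      simp
    · rw [Fintype.sum_sum_type]
      simp only [expT, expArr]
      rw [hMr s y]
      simp
    · rw [Fintype.sum_sum_type]
      simp [expT, expArr]

end MQ94
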